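import Pool.Agent.ShearComposite3.Core

/-!
# The cubic cell and the effective energy
-/

set_option autoImplicit false

open MeasureTheory Metric
open scoped ContDiff

namespace Pool.Agent.ShearComposite.D3

/-- the cubic basis -/
noncomputable def cubBasis (P : ℝ) (hP : 0 < P) : Module.Basis (Fin 3) ℝ (Sp 3) :=
  ((EuclideanSpace.basisFun (Fin 3) ℝ).toBasis).unitsSMul fun _ => Units.mk0 P hP.ne'

theorem cubBasis_apply (P : ℝ) (hP : 0 < P) (i : Fin 3) :
    cubBasis P hP i = EuclideanSpace.single i P := by
  unfold cubBasis
  rw [Module.Basis.unitsSMul_apply, OrthonormalBasis.coe_toBasis, EuclideanSpace.basisFun_apply]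
  ext j
  simp [Units.smul_def]

theorem a2_repr (P : ℝ) (hP : 0 < P) (x : E3) (i : Fin 3) :
    (cubBasis P hP).repr x i = P⁻¹ * x i := by
  unfold cubBasis
  rw [Module.Basis.repr_unitsSMul]
  simp [Units.smul_def]

theorem cell_eq (P : ℝ) (hP : 0 < P) : ZSpan.fundamentalDomain (cubBasis P hP) = cell P := by
  ext x
  rw [ZSpan.mem_fundamentalDomain]
  simp only [a2_repr, Set.mem_Ico, cell, Set.mem_ofPred_eq]
  refine forall_congr' fun i => ?_
  rw [inv_mul_eq_div, div_lt_one hP]
  constructor
  · rintro ⟨h1, h2⟩
    refine ⟨?_, h2⟩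
    by_contra h3
    exact absurd h1 (not_le.2 (div_neg_of_neg_of_pos (not_le.1 h3) hP))
  · rintro ⟨h1, h2⟩
    exact ⟨div_nonneg h1 hP.le, h2⟩

theorem measurableSet_cell (P : ℝ) : MeasurableSet (cell P) := by
  have h : cell P = ⋂ i : Fin 3, {x : E3 | 0 ≤ x i ∧ x i < P} := by
    ext x
    simp [cell]
  rw [h]
  refine MeasurableSet.iInter fun i => ?_
  have hc : Continuous fun x : E3 => x i := by fun_prop
  exact (measurableSet_le measurable_const hc.measurable).inter
    (measurableSet_lt hc.measurable measurable_const)

theorem isBounded_cell (P : ℝ) : Bornology.IsBounded (cell P) := by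
  rcases lt_or_ge 0 P with hP | hP
  · rw [← cell_eq P hP]
    exact ZSpan.fundamentalDomain_isBounded _
  · have h : cell P = ∅ := by
      rw [Set.eq_empty_iff_forall_notMem]
      intro x hx
      have := hx 0
      linarith [this.1, this.2]
    rw [h]
    exact Bornology.isBounded_empty

theorem volume_cell (P : ℝ) (hP : 0 < P) : volume (cell P) = ENNReal.ofReal (P ^ 3) := by
  have h1 := (EuclideanSpace.volume_preserving_symm_measurableEquiv_toLp (Fin 3)).symm
  have h2 : cell P = (MeasurableEquiv.toLp 2 (Fin 3 → ℝ)).symm ⁻¹'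
      (Set.pi Set.univ fun _ : Fin 3 => Set.Ico 0 P) := by
    ext x
    simp [cell]
  rw [h2]
  have h3 : MeasurePreserving ((MeasurableEquiv.toLp 2 (Fin 3 → ℝ)).symm) := by
    exact EuclideanSpace.volume_preserving_symm_measurableEquiv_toLp (Fin 3)
  rw [h3.measure_preimage_equiv, Real.volume_pi_Ico]
  simp [Finset.prod_const, ENNReal.ofReal_pow hP.le]

/-- the action of a matrix as a linear map -/
noncomputable def a2_mactL (A : M3) : E3 →L[ℝ] E3 :=
  LinearMap.toContinuousLinearMap
    { toFun := mact A
      map_add' := by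
        intro x y
        ext i
        simp [mact, mul_add, Finset.sum_add_distrib]
      map_smul' := by
        intro c x
        ext i
        simp only [mact, PiLp.smul_apply, smul_eq_mul, RingHom.id_apply, Finset.mul_sum]
        refine Finset.sum_congr rfl fun j _ => ?_
        ring }

theorem a2_mactL_apply (A : M3) (x : E3) : a2_mactL A x = mact A x := rfl

theorem a2_mact_single (A : M3) (i j : Fin 3) (c : ℝ) :
    mact A (EuclideanSpace.single i c) j = A j i * c := by
  simp [mact]

theorem a2_mact_add (A : M3) (x y : E3) : mact A (x + y) = mact A x + mact A y :=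
  (a2_mactL A).map_add x y

theorem a2_mact_contDiff (A : M3) : ContDiff ℝ ∞ (mact A) := (a2_mactL A).contDiff

theorem a2_strain (A : M3) (hA : A.IsSymm) (u : E3 → E3) (hu : ContDiff ℝ ∞ u) (x : E3) :
    strain (fun y => mact A y + u y) x = A + strain u x := by
  have h1 : HasFDerivAt (fun y => mact A y + u y) (a2_mactL A + fderiv ℝ u x) x :=
    (a2_mactL A).hasFDerivAt.add (hu.differentiable (by norm_num) x).hasFDerivAt
  ext i j
  unfold strain
  rw [h1.fderiv]
  have h2 : A j i = A i j := hA.apply i j
  simp only [Matrix.of_apply, add_apply, PiLp.add_apply, a2_mactL_apply,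
    a2_mact_single, Matrix.add_apply, mul_one]
  rw [h2]
  ring

theorem attainable_of {κ μ P : ℝ} (hκ : 0 < κ) (hμ : 0 < μ) (hP : 0 < P) (Ω : Set E3)
    (hΩ : MeasurableSet Ω) (hper : PerSet P Ω) (a b : ℝ)
    (h : ∀ ε₀ : M3, ε₀.IsSymm → Wq κ μ P Ω ε₀ = density a b ε₀) : (a, b) ∈ attainable 3 κ μ := by
  refine ⟨cubBasis P hP, Ω, ⟨hΩ, fun i x => ?_⟩, fun ε₀ hε => ?_⟩
  · rw [cubBasis_apply]
    exact hper i x
  · rw [← h ε₀ hε]
    unfold effEnergy Wq
    rw [cell_eq, volume_cell P hP, ENNReal.toReal_ofReal (by positivity)]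
    let e : PerDisp (cubBasis P hP) ≃ Adm P ε₀ :=
      { toFun := fun u => ⟨fun y => mact ε₀ y + (u : Sp 3 → Sp 3) y,
          (a2_mact_contDiff ε₀).add u.2.1, fun i j x => by
            have h1 := u.2.2 i x
            rw [cubBasis_apply] at h1
            simp only
            rw [h1, a2_mact_add]
            simp only [PiLp.add_apply, a2_mact_single]
            ring⟩
        invFun := fun v => ⟨fun y => (v : E3 → E3) y - mact ε₀ y,
          v.2.1.sub (a2_mact_contDiff ε₀), fun i x => by
            rw [cubBasis_apply]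
            ext j
            have h1 := v.2.2 i j x
            simp only [PiLp.sub_apply]
            rw [h1, a2_mact_add]
            simp only [PiLp.add_apply, a2_mact_single]
            ring⟩
        left_inv := fun u => by
          apply Subtype.ext
          funext y
          simp
        right_inv := fun v => by
          apply Subtype.ext
          funext y
          simp }
    refine Equiv.iInf_congr e fun u => ?_
    unfold en
    congr 1
    refine integral_congr_ae (Filter.Eventually.of_forall fun x => ?_)
    simp only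
    have h2 := a2_strain ε₀ hε (u : Sp 3 → Sp 3) u.2.1 x
    exact congrArg (density κ μ) h2

end Pool.Agent.ShearComposite.D3
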