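import Pool.Agent.ShearComposite3.CellA

/-!
# Integrals of periodic functions
-/

set_option autoImplicit false

open MeasureTheory Metric
open scoped ContDiff Pointwise

namespace Pool.Agent.ShearComposite.D3

theorem a3_per_span {P : ℝ} (hP : 0 < P) {g : E3 → ℝ} (hg : PerFun P g) {v : E3}
    (hv : v ∈ Submodule.span ℤ (Set.range (cubBasis P hP))) : ∀ z, g (z + v) = g z := by
  induction hv using Submodule.span_induction with
  | mem x hx =>
    obtain ⟨i, rfl⟩ := hx
    intro z
    rw [cubBasis_apply]
    exact hg i z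
  | zero => simp
  | add x y _ _ hx hy =>
    intro z
    rw [← add_assoc, hy, hx]
  | smul a x _ hx =>
    have h1 : ∀ (n : ℕ) z, g (z + n • x) = g z := by
      intro n
      induction n with
      | zero => simp
      | succ n ih =>
        intro z
        rw [succ_nsmul, ← add_assoc, hx, ih]
    intro z
    obtain ⟨n, rfl | rfl⟩ := a.eq_nat_or_neg
    · simpa using h1 n z
    · have h2 := h1 n (z + -((n : ℤ) • x))
      simp only [neg_smul] at *
      rw [← h2]
      congr 1
      simp

theorem integral_cell_translate {P : ℝ} (hP : 0 < P) (g : E3 → ℝ) (hg : PerFun P g) (a : E3) :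
    ∫ x in cell P, g (x + a) = ∫ x in cell P, g x := by
  have h1 : ∫ z in cell P, g (z + a) = ∫ z in a +ᵥ cell P, g z := by
    have hmp : MeasurePreserving (fun z : E3 => z + a) volume volume :=
      measurePreserving_add_right volume a
    have he : MeasurableEmbedding (fun z : E3 => z + a) := measurableEmbedding_addRight a
    have h2 : cell P = (fun z : E3 => z + a) ⁻¹' (a +ᵥ cell P) := by
      ext z
      simp only [Set.mem_preimage, Set.mem_vadd_set, vadd_eq_add]
      constructor
      · intro h
        exact ⟨z, h, add_comm _ _⟩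
      · rintro ⟨w, hw, h⟩
        have : w = z := by
          have : a + w = a + z := by rw [h, add_comm]
          exact add_left_cancel this
        rwa [← this]
    conv_lhs => rw [h2]
    exact hmp.setIntegral_preimage_emb he g (a +ᵥ cell P)
  rw [h1, ← cell_eq P hP]
  have hd := ZSpan.isAddFundamentalDomain' (cubBasis P hP) (volume : Measure E3)
  have hd' : IsAddFundamentalDomain (Submodule.span ℤ (Set.range (cubBasis P hP))).toAddSubgroup
      (a +ᵥ ZSpan.fundamentalDomain (cubBasis P hP)) (volume : Measure E3) := hd.vadd_of_comm a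
  have : Countable (Submodule.span ℤ (Set.range (cubBasis P hP))).toAddSubgroup :=
    inferInstanceAs (Countable (Submodule.span ℤ (Set.range (cubBasis P hP))))
  refine hd'.setIntegral_eq hd ?_
  intro x y
  rw [AddSubgroup.vadd_def, vadd_eq_add, add_comm]
  exact a3_per_span hP hg x.2 y

theorem a3_volume_cell_lt (P : ℝ) : volume (cell P) < ⊤ := (isBounded_cell P).measure_lt_top

theorem a3_integrableOn (P : ℝ) (g : E3 → ℝ) (hg : Continuous g) : IntegrableOn g (cell P) := by
  obtain ⟨C, hC⟩ := ((isBounded_cell P).isCompact_closure).exists_bound_of_continuousOn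
    (f := g) hg.continuousOn
  refine Measure.integrableOn_of_bounded (M := C) (a3_volume_cell_lt P).ne
    hg.aestronglyMeasurable ?_
  filter_upwards [ae_restrict_mem (measurableSet_cell P)] with z hz
  exact hC z (subset_closure hz)

theorem integral_pd {P : ℝ} (hP : 0 < P) (g : E3 → ℝ) (h1 : ContDiff ℝ 1 g) (hg : PerFun P g)
    (j : Fin 3) : ∫ x in cell P, pd j g x = 0 := by
  unfold pd
  have hbdd : Bornology.IsBounded (cell P) := isBounded_cell P
  have hfin : volume (cell P) < ⊤ := a3_volume_cell_lt P
  have hcont : Continuous (fderiv ℝ g) := h1.continuous_fderiv (by norm_num)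
  -- a bound for the derivative near the cell
  obtain ⟨C, hC⟩ : ∃ C : ℝ, ∀ z ∈ cell P, ∀ t ∈ Metric.ball (0 : ℝ) 1,
      ‖fderiv ℝ g (z + t • ee j) (ee j)‖ ≤ C := by
    have hbdd2 : Bornology.IsBounded (Metric.cthickening ‖ee j‖ (cell P)) := hbdd.cthickening
    have hK : IsCompact (Metric.cthickening ‖ee j‖ (cell P)) :=
      Metric.isCompact_of_isClosed_isBounded Metric.isClosed_cthickening hbdd2
    obtain ⟨C, hC⟩ := hK.exists_bound_of_continuousOn
      (f := fun z => fderiv ℝ g z (ee j)) (hcont.clm_apply continuous_const).continuousOn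
    refine ⟨C, fun z hz t ht => hC _ ?_⟩
    refine Metric.mem_cthickening_of_dist_le _ z _ _ hz ?_
    rw [dist_eq_norm, add_sub_cancel_left, norm_smul]
    have h1 : ‖t‖ ≤ 1 := by
      rw [mem_ball_zero_iff] at ht
      exact ht.le
    calc ‖t‖ * ‖ee j‖ ≤ 1 * ‖ee j‖ := mul_le_mul_of_nonneg_right h1 (norm_nonneg _)
      _ = ‖ee j‖ := one_mul _
  have hmeas : MeasurableSet (cell P) := measurableSet_cell P
  have hder := hasDerivAt_integral_of_dominated_loc_of_deriv_le
    (μ := (volume : Measure E3).restrict (cell P))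
    (F := fun (t : ℝ) (z : E3) => g (z + t • ee j))
    (F' := fun (t : ℝ) (z : E3) => fderiv ℝ g (z + t • ee j) (ee j))
    (x₀ := (0 : ℝ)) (s := Metric.ball (0 : ℝ) 1) (bound := fun _ => C)
    (Metric.ball_mem_nhds 0 one_pos) ?_ ?_ ?_ ?_ ?_ ?_
  · have h2 : (fun t : ℝ => ∫ z in cell P, g (z + t • ee j)) =
        fun _ => ∫ z in cell P, g z := by
      funext t
      exact integral_cell_translate hP g hg (t • ee j)
    have h3 := hder.2
    rw [h2] at h3
    have h4 := h3.unique (hasDerivAt_const (0 : ℝ) _)
    simpa using h4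
  · refine Filter.Eventually.of_forall fun t => ?_
    exact (h1.continuous.comp (continuous_id.add continuous_const)).aestronglyMeasurable
  · simp only [zero_smul, add_zero]
    exact a3_integrableOn P g h1.continuous
  · exact ((hcont.comp (continuous_id.add continuous_const)).clm_apply
      continuous_const).aestronglyMeasurable
  · filter_upwards [ae_restrict_mem hmeas] with z hz t ht
    exact hC z hz t ht
  · exact integrableOn_const hfin.ne
  · filter_upwards with z t _
    have h1 : HasFDerivAt g (fderiv ℝ g (z + t • ee j)) (z + t • ee j) :=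
      (h1.differentiable (by norm_num) _).hasFDerivAt
    have h2 : HasDerivAt (fun t : ℝ => z + t • ee j) (ee j) t := by
      have := ((hasDerivAt_id t).smul_const (ee j)).const_add z
      simpa using this
    exact h1.comp_hasDerivAt t h2

/-- cyclic permutation as an isometry -/
noncomputable def a3_cyc : E3 ≃ₗᵢ[ℝ] E3 :=
  LinearIsometryEquiv.piLpCongrLeft 2 ℝ ℝ (Equiv.addRight (1 : Fin 3)).symm

theorem a3_cyc_apply (x : E3) : a3_cyc x = cyc x := by
  ext i
  simp [a3_cyc, cyc, LinearIsometryEquiv.piLpCongrLeft_apply, Equiv.piCongrLeft']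

theorem integral_cell_cyc {P : ℝ} (hP : 0 < P) (g : E3 → ℝ) (hg : PerFun P g) :
    ∫ x in cell P, g (cyc x) = ∫ x in cell P, g x := by
  have h2 : cell P = a3_cyc ⁻¹' (cell P) := by
    ext x
    simp only [Set.mem_preimage, a3_cyc_apply, cell, Set.mem_ofPred_eq, cyc]
    constructor
    · intro h i
      exact h (i + 1)
    · intro h i
      have := h (i - 1)
      simpa using this
  have h3 : ∀ x, cyc x = a3_cyc x := fun x => (a3_cyc_apply x).symm
  simp only [h3]
  conv_lhs => rw [h2]
  exact a3_cyc.measurePreserving.setIntegral_preimage_emb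
    a3_cyc.toHomeomorph.measurableEmbedding g (cell P)

/-- reflection as an isometry -/
noncomputable def a3_ref (j : Fin 3) : E3 ≃ₗᵢ[ℝ] E3 :=
  LinearIsometryEquiv.piLpCongrRight 2 fun i : Fin 3 =>
    if i = j then LinearIsometryEquiv.neg ℝ else LinearIsometryEquiv.refl ℝ ℝ

theorem a3_ref_apply (j : Fin 3) (x : E3) (i : Fin 3) :
    a3_ref j x i = if i = j then -x i else x i := by
  unfold a3_ref
  rw [LinearIsometryEquiv.piLpCongrRight_apply]
  by_cases h : i = j
  · simp [h]
  · simp [h]

theorem a3_flip (L : ℝ) (j : Fin 3) (x : E3) :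
    flip L j x = a3_ref j x + EuclideanSpace.single j L := by
  ext i
  rw [PiLp.add_apply, a3_ref_apply]
  by_cases h : i = j
  · simp [flip, h]
    ring
  · simp [flip, h]

theorem a3_ref_cell {P : ℝ} (j : Fin 3) :
    (a3_ref j ⁻¹' (cell P) : Set E3) =ᵐ[volume] (fun x : E3 => x + EuclideanSpace.single j P) ⁻¹'
      (cell P) := by
  have hmp : MeasurePreserving ((MeasurableEquiv.toLp 2 (Fin 3 → ℝ)).symm) :=
    EuclideanSpace.volume_preserving_symm_measurableEquiv_toLp (Fin 3)
  have e1 : (a3_ref j ⁻¹' (cell P) : Set E3) = (MeasurableEquiv.toLp 2 (Fin 3 → ℝ)).symm ⁻¹'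
      (Set.pi Set.univ fun i : Fin 3 => if i = j then Set.Ioc (-P) 0 else Set.Ico 0 P) := by
    ext x
    simp only [Set.mem_preimage, cell, Set.mem_ofPred_eq, Set.mem_pi, Set.mem_univ, true_implies,
      a3_ref_apply]
    refine forall_congr' fun i => ?_
    by_cases h : i = j
    · simp only [h, if_true, Set.mem_Ioc]
      change (0 ≤ -x j ∧ -x j < P) ↔ (-P < x j ∧ x j ≤ 0)
      constructor <;> rintro ⟨h1, h2⟩ <;> constructor <;> linarith
    · simp only [h, if_false]
      rfl
  have e2 : ((fun x : E3 => x + EuclideanSpace.single j P) ⁻¹' (cell P) : Set E3) =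
      (MeasurableEquiv.toLp 2 (Fin 3 → ℝ)).symm ⁻¹'
      (Set.pi Set.univ fun i : Fin 3 => if i = j then Set.Ico (-P) 0 else Set.Ico 0 P) := by
    ext x
    simp only [Set.mem_preimage, cell, Set.mem_ofPred_eq, Set.mem_pi, Set.mem_univ, true_implies,
      PiLp.add_apply]
    refine forall_congr' fun i => ?_
    by_cases h : i = j
    · simp only [h, if_true, Set.mem_Ico]
      change (0 ≤ x j + (EuclideanSpace.single j P : E3) j ∧
        x j + (EuclideanSpace.single j P : E3) j < P) ↔ (-P ≤ x j ∧ x j < 0)
      simp only [PiLp.single_apply, if_true]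
      constructor <;> rintro ⟨h1, h2⟩ <;> constructor <;> linarith
    · simp only [h, if_false]
      change (0 ≤ x i + (EuclideanSpace.single j P : E3) i ∧
        x i + (EuclideanSpace.single j P : E3) i < P) ↔ (0 ≤ x i ∧ x i < P)
      simp only [PiLp.single_apply, h, if_false, add_zero]
  rw [e1, e2]
  refine hmp.quasiMeasurePreserving.preimage_ae_eq ?_
  refine Measure.ae_eq_set_pi fun i _ => ?_
  by_cases h : i = j
  · simp only [h, if_true]
    exact Ico_ae_eq_Ioc.symm
  · simp only [h, if_false]
    exact Filter.EventuallyEq.rfl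

theorem integral_cell_flip {P : ℝ} (hP : 0 < P) (g : E3 → ℝ) (hg : PerFun P g) (L : ℝ)
    (j : Fin 3) : ∫ x in cell P, g (flip L j x) = ∫ x in cell P, g x := by
  simp only [a3_flip]
  set g' : E3 → ℝ := fun x => g (x + EuclideanSpace.single j L) with hg'
  have hper : PerFun P g' := by
    intro i x
    simp only [hg']
    rw [add_right_comm, hg i]
  have h1 : ∫ x in cell P, g (a3_ref j x + EuclideanSpace.single j L) =
      ∫ x in (a3_ref j ⁻¹' (cell P) : Set E3), g' x := by
    have h2 := (a3_ref j).measurePreserving.setIntegral_preimage_emb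
      (a3_ref j).toHomeomorph.measurableEmbedding g' (a3_ref j ⁻¹' (cell P))
    rw [← h2]
    have h3 : (a3_ref j ⁻¹' (a3_ref j ⁻¹' (cell P)) : Set E3) = cell P := by
      ext x
      simp only [Set.mem_preimage]
      have : a3_ref j (a3_ref j x) = x := by
        ext i
        rw [a3_ref_apply, a3_ref_apply]
        by_cases h : i = j <;> simp [h]
      rw [this]
    rw [h3]
  rw [h1, setIntegral_congr_set (a3_ref_cell j)]
  have h4 := (measurePreserving_add_right (volume : Measure E3)
    (EuclideanSpace.single j P)).setIntegral_preimage_emb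
    (measurableEmbedding_addRight _) g' (cell P)
  have h5 : ∫ x in ((fun x : E3 => x + EuclideanSpace.single j P) ⁻¹' (cell P) : Set E3), g' x =
      ∫ x in ((fun x : E3 => x + EuclideanSpace.single j P) ⁻¹' (cell P) : Set E3),
        g' (x + EuclideanSpace.single j P) := by
    refine integral_congr_ae (Filter.Eventually.of_forall fun x => ?_)
    exact (hper j x).symm
  rw [h5, h4]
  exact integral_cell_translate hP g hg (EuclideanSpace.single j L)

theorem a3_per_int {P : ℝ} {g : E3 → ℝ} (hg : PerFun P g) (n : Fin 3 → ℤ) (x : E3) :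
    g (x + mk3 fun i => P * n i) = g x := by
  have h1 : ∀ (i : Fin 3) (m : ℕ) (x : E3), g (x + EuclideanSpace.single i (P * m)) = g x := by
    intro i m
    induction m with
    | zero =>
      intro x
      have : (EuclideanSpace.single i (P * ((0 : ℕ) : ℝ)) : E3) = 0 := by
        ext l
        simp [PiLp.single_apply]
      rw [this, add_zero]
    | succ m ih =>
      intro x
      have : (EuclideanSpace.single i (P * ((m + 1 : ℕ) : ℝ)) : E3) =
          EuclideanSpace.single i P + EuclideanSpace.single i (P * m) := by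
        ext l
        simp only [PiLp.add_apply, PiLp.single_apply]
        split_ifs
        · push_cast; ring
        · simp
      rw [this, ← add_assoc, ih, hg i]
  have h2 : ∀ (i : Fin 3) (m : ℤ) (x : E3), g (x + EuclideanSpace.single i (P * m)) = g x := by
    intro i m x
    obtain ⟨n, rfl | rfl⟩ := m.eq_nat_or_neg
    · exact_mod_cast h1 i n x
    · have h3 := h1 i n (x + EuclideanSpace.single i (P * ((-(n : ℤ) : ℤ) : ℝ)))
      rw [← h3, add_assoc]
      congr 1
      have : (EuclideanSpace.single i (P * ((-(n : ℤ) : ℤ) : ℝ)) : E3) +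
          EuclideanSpace.single i (P * n) = 0 := by
        ext l
        simp only [PiLp.add_apply, PiLp.single_apply, PiLp.zero_apply]
        split_ifs
        · push_cast; ring
        · simp
      rw [this, add_zero]
  have h3 : (mk3 fun i => P * n i) = EuclideanSpace.single 0 (P * n 0)
      + EuclideanSpace.single 1 (P * n 1) + EuclideanSpace.single 2 (P * n 2) := by
    ext l
    fin_cases l <;> simp
  rw [h3, ← add_assoc, ← add_assoc, h2, h2, h2]

theorem setIntegral_le_cell {P : ℝ} (hP : 0 < P) (S : Set E3) (hS : Bornology.IsBounded S)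
    (hm : MeasurableSet S) : ∃ N : ℝ, 0 < N ∧ ∀ g : E3 → ℝ, (∀ x, 0 ≤ g x) → PerFun P g →
      IntegrableOn g (cell P) → ∫ x in S, g x ≤ N * ∫ x in cell P, g x := by
  obtain ⟨R, hR⟩ := hS.exists_norm_le
  obtain ⟨N, hN⟩ := exists_nat_gt (R / P)
  set F : Finset (Fin 3 → ℤ) := Fintype.piFinset fun _ => Finset.Icc (-(N : ℤ) - 1) N with hF
  set T : (Fin 3 → ℤ) → Set E3 := fun n => (fun x : E3 => x - mk3 fun i => P * n i) ⁻¹' cell P
    with hT
  have hTm : ∀ n, MeasurableSet (T n) := fun n =>
    (measurable_id.sub_const _) (measurableSet_cell P)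
  have hcov : S ⊆ ⋃ n ∈ F, T n := by
    intro x hx
    have hx1 := hR x hx
    simp only [Set.mem_iUnion, exists_prop]
    refine ⟨fun i => ⌊x i / P⌋, ?_, ?_⟩
    · rw [hF, Fintype.mem_piFinset]
      intro i
      have h1 : |x i| ≤ R := (PiLp.norm_apply_le x i).trans hx1
      have h2 := abs_le.1 h1
      have h3 : x i / P < N := lt_of_le_of_lt (div_le_div_of_nonneg_right h2.2 hP.le) hN
      have h4 : -(N : ℝ) < x i / P := by
        have : -(R / P) ≤ x i / P := by
          rw [← neg_div]
          exact div_le_div_of_nonneg_right h2.1 hP.le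
        linarith
      rw [Finset.mem_Icc]
      constructor
      · have : (-(N : ℤ) - 1 : ℤ) ≤ ⌊x i / P⌋ := by
          rw [Int.le_floor]
          push_cast
          linarith
        exact this
      · have h5 : (⌊x i / P⌋ : ℝ) < N := lt_of_le_of_lt (Int.floor_le _) h3
        have h6 : ⌊x i / P⌋ < (N : ℤ) := by exact_mod_cast h5
        exact h6.le
    · simp only [hT, Set.mem_preimage, cell, Set.mem_ofPred_eq, PiLp.sub_apply]
      intro i
      have h1 := Int.floor_le (x i / P)
      have h2 := Int.lt_floor_add_one (x i / P)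
      rw [le_div_iff₀ hP] at h1
      rw [div_lt_iff₀ hP] at h2
      constructor
      · nlinarith
      · nlinarith
  refine ⟨F.card + 1, by positivity, fun g h0 hg hint => ?_⟩
  have hemb : ∀ n : Fin 3 → ℤ, MeasurableEmbedding (fun x : E3 => x - mk3 fun i => P * n i) :=
    fun n => measurableEmbedding_subRight _
  have hmp : ∀ n : Fin 3 → ℤ, MeasurePreserving (fun x : E3 => x - mk3 fun i => P * n i)
      volume volume := fun n => measurePreserving_sub_right volume _
  have hgn : ∀ n : Fin 3 → ℤ, g = fun x => g (x - mk3 fun i => P * n i) := by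
    intro n
    funext x
    have := a3_per_int hg n (x - mk3 fun i => P * n i)
    rw [sub_add_cancel] at this
    exact this
  have hTi : ∀ n, IntegrableOn g (T n) := by
    intro n
    have h1 := ((hmp n).integrableOn_comp_preimage (hemb n) (f := g) (s := cell P)).2 hint
    have h2 : (g ∘ fun x : E3 => x - mk3 fun i => P * n i) = g := (hgn n).symm
    rw [h2] at h1
    exact h1
  have hTe : ∀ n, ∫ x in T n, g x = ∫ x in cell P, g x := by
    intro n
    have h1 := (hmp n).setIntegral_preimage_emb (hemb n) g (cell P)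
    rw [← h1]
    refine integral_congr_ae (Filter.Eventually.of_forall fun x => ?_)
    exact congrFun (hgn n) x
  have hpw : Set.Pairwise (F : Set (Fin 3 → ℤ)) (Function.onFun Disjoint T) := by
    intro n _ m _ hnm
    rw [Function.onFun, Set.disjoint_left]
    intro x hn hm
    apply hnm
    funext i
    have h1 := hn i
    have h2 := hm i
    simp only [PiLp.sub_apply] at h1 h2
    have h3 : P * ((n i : ℝ) - m i) < P * 1 := by linarith [h1.1, h2.2]
    have h4 : P * ((m i : ℝ) - n i) < P * 1 := by linarith [h2.1, h1.2]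
    have h5 : (n i : ℝ) - m i < 1 := lt_of_mul_lt_mul_left h3 hP.le
    have h6 : (m i : ℝ) - n i < 1 := lt_of_mul_lt_mul_left h4 hP.le
    have h7 : n i - m i < 1 := by exact_mod_cast h5
    have h8 : m i - n i < 1 := by exact_mod_cast h6
    omega
  have hU : ∫ x in ⋃ n ∈ F, T n, g x = F.card * ∫ x in cell P, g x := by
    rw [integral_biUnion_finset F (fun n _ => hTm n) hpw (fun n _ => hTi n),
      Finset.sum_congr rfl (fun n _ => hTe n), Finset.sum_const, nsmul_eq_mul]
  have hUi : IntegrableOn g (⋃ n ∈ F, T n) := by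
    rw [integrableOn_finset_iUnion]
    exact fun n _ => hTi n
  have h1 : ∫ x in S, g x ≤ ∫ x in ⋃ n ∈ F, T n, g x :=
    setIntegral_mono_set hUi (Filter.Eventually.of_forall h0) (hcov.eventuallyLE)
  have h2 : 0 ≤ ∫ x in cell P, g x := integral_nonneg h0
  rw [hU] at h1
  linarith

theorem a3_pd_apply (v : E3 → E3) (hv : ContDiff ℝ ∞ v) (x : E3) (i j : Fin 3) :
    pd j (fun y => v y i) x = fderiv ℝ v x (ee j) i := by
  have h1 : HasFDerivAt v (fderiv ℝ v x) x := (hv.differentiable (by norm_num) x).hasFDerivAt
  have h2 : HasFDerivAt (fun y => v y i)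
      ((EuclideanSpace.proj i : E3 →L[ℝ] ℝ).comp (fderiv ℝ v x)) x :=
    (EuclideanSpace.proj i : E3 →L[ℝ] ℝ).hasFDerivAt.comp x h1
  unfold pd
  rw [h2.fderiv]
  rfl

/-- weak form of the equilibrium equations -/
theorem weak_identity {P : ℝ} (hP : 0 < P) (T : E3 → M3)
    (hT : ∀ i j, ContDiff ℝ ∞ fun x => T x i j) (hper : PerFun P T)
    (hsym : ∀ x i j, T x i j = T x j i) (f : Fin 3 → E3 → ℝ)
    (hdiv : ∀ i x, ∑ j, pd j (fun y => T y i j) x = f i x) (ε₀ : M3) (hε : ε₀.IsSymm)
    (v : E3 → E3) (hv : v ∈ Adm P ε₀) :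
    ∫ x in cell P, inn (T x) (strain v x) =
      (∫ x in cell P, inn (T x) ε₀) - ∫ x in cell P, ∑ i, f i x * (v x i - mact ε₀ x i) := by
  set u : E3 → E3 := fun y => v y - mact ε₀ y with hu
  have hus : ContDiff ℝ ∞ u := hv.1.sub (a2_mact_contDiff ε₀)
  have huc : ∀ i, ContDiff ℝ ∞ fun x => u x i := fun i => by fun_prop
  have hup : ∀ i, PerFun P fun x => u x i := by
    intro i l x
    simp only [hu, PiLp.sub_apply]
    rw [hv.2 l i x, a2_mact_add]
    simp only [PiLp.add_apply, a2_mact_single]
    ring
  have hvu : v = fun y => mact ε₀ y + u y := by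
    funext y
    simp [hu]
  have hstrain : ∀ x, strain v x = ε₀ + strain u x := by
    intro x
    have h1 := a2_strain ε₀ hε u hus x
    rw [← hvu] at h1
    exact h1
  have hfc : ∀ i, Continuous (f i) := by
    intro i
    have : f i = fun x => ∑ j, pd j (fun y => T y i j) x := by
      funext x
      exact (hdiv i x).symm
    rw [this]
    refine continuous_finsetSum _ fun j _ => ?_
    exact ((hT i j).continuous_fderiv (by norm_num)).clm_apply continuous_const
  -- pointwise identity
  have hpt : ∀ x, inn (T x) (strain v x) = inn (T x) ε₀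
      + ((∑ i, ∑ j, pd j (fun y => T y i j * u y i) x) - ∑ i, f i x * u x i) := by
    intro x
    rw [hstrain x]
    have h1 : inn (T x) (ε₀ + strain u x) = inn (T x) ε₀ + inn (T x) (strain u x) := by
      simp only [inn, Matrix.add_apply, mul_add, Finset.sum_add_distrib]
    rw [h1]
    congr 1
    have h2 : ∀ i j, strain u x i j =
        (pd j (fun y => u y i) x + pd i (fun y => u y j) x) / 2 := by
      intro i j
      rw [a3_pd_apply u hus, a3_pd_apply u hus]
      rfl
    have h3 : ∀ i j, pd j (fun y => T y i j * u y i) x =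
        pd j (fun y => T y i j) x * u x i + T x i j * pd j (fun y => u y i) x := by
      intro i j
      have e1 : HasFDerivAt (fun y => T y i j) (fderiv ℝ (fun y => T y i j) x) x :=
        ((hT i j).differentiable (by norm_num) x).hasFDerivAt
      have e2 : HasFDerivAt (fun y => u y i) (fderiv ℝ (fun y => u y i) x) x :=
        ((huc i).differentiable (by norm_num) x).hasFDerivAt
      have e3 := e1.mul e2
      unfold pd
      have e4 : fderiv ℝ (fun y => T y i j * u y i) x =
          T x i j • fderiv ℝ (fun y => u y i) x + u x i • fderiv ℝ (fun y => T y i j) x :=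
        e3.fderiv
      rw [e4]
      simp only [add_apply, FunLike.coe_smul, Pi.smul_apply, smul_eq_mul]
      ring
    have h4 : ∀ i, f i x * u x i = ∑ j, pd j (fun y => T y i j) x * u x i := by
      intro i
      rw [← hdiv i x, Finset.sum_mul]
    simp only [h3, h4, Finset.sum_add_distrib]
    rw [add_sub_cancel_left]
    unfold inn
    simp only [h2]
    have h5 : ∑ i, ∑ j, T x i j * ((pd j (fun y => u y i) x + pd i (fun y => u y j) x) / 2) =
        (∑ i, ∑ j, T x i j * pd j (fun y => u y i) x) / 2 +
        (∑ i, ∑ j, T x i j * pd i (fun y => u y j) x) / 2 := by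
      rw [← add_div, ← Finset.sum_add_distrib, Finset.sum_div]
      refine Finset.sum_congr rfl fun i _ => ?_
      rw [← Finset.sum_add_distrib, Finset.sum_div]
      refine Finset.sum_congr rfl fun j _ => ?_
      ring
    have h6 : ∑ i, ∑ j, T x i j * pd i (fun y => u y j) x =
        ∑ i, ∑ j, T x i j * pd j (fun y => u y i) x := by
      rw [Finset.sum_comm]
      refine Finset.sum_congr rfl fun i _ => Finset.sum_congr rfl fun j _ => ?_
      rw [hsym x j i]
    rw [h5, h6]
    ring
  have hTc : ∀ i j, Continuous fun x => T x i j := fun i j => (hT i j).continuous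
  have hi1 : IntegrableOn (fun x => inn (T x) ε₀) (cell P) := by
    refine a3_integrableOn P _ ?_
    unfold inn
    exact continuous_finsetSum _ fun i _ => continuous_finsetSum _ fun j _ =>
      (hTc i j).mul continuous_const
  have hpc : ∀ i j, Continuous fun x => pd j (fun y => T y i j * u y i) x := fun i j =>
    (((hT i j).mul (huc i)).continuous_fderiv (by norm_num)).clm_apply continuous_const
  have hi2 : IntegrableOn (fun x => ∑ i, ∑ j, pd j (fun y => T y i j * u y i) x) (cell P) :=
    a3_integrableOn P _ (continuous_finsetSum _ fun i _ => continuous_finsetSum _ fun j _ =>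
      hpc i j)
  have hi3 : IntegrableOn (fun x => ∑ i, f i x * u x i) (cell P) :=
    a3_integrableOn P _ (continuous_finsetSum _ fun i _ => (hfc i).mul (huc i).continuous)
  have hz : ∫ x in cell P, ∑ i, ∑ j, pd j (fun y => T y i j * u y i) x = 0 := by
    rw [integral_finsetSum]
    · refine Finset.sum_eq_zero fun i _ => ?_
      rw [integral_finsetSum]
      · refine Finset.sum_eq_zero fun j _ => ?_
        refine integral_pd hP _ (((hT i j).mul (huc i)).of_le (by norm_num)) ?_ j
        intro l x
        have h1 := congrArg (fun A : M3 => A i j) (hper l x)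
        exact congrArg₂ (fun a b : ℝ => a * b) h1 (hup i l x)
      · exact fun j _ => a3_integrableOn P _ (hpc i j)
    · exact fun i _ => a3_integrableOn P _ (continuous_finsetSum _ fun j _ => hpc i j)
  calc ∫ x in cell P, inn (T x) (strain v x) = ∫ x in cell P, (inn (T x) ε₀
      + ((∑ i, ∑ j, pd j (fun y => T y i j * u y i) x) - ∑ i, f i x * u x i)) := by
        simp_rw [hpt]
    _ = (∫ x in cell P, inn (T x) ε₀) - ∫ x in cell P, ∑ i, f i x * u x i := by
        have hi23 : IntegrableOn (fun x => (∑ i, ∑ j, pd j (fun y => T y i j * u y i) x)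
            - ∑ i, f i x * u x i) (cell P) := hi2.sub hi3
        rw [integral_add hi1 hi23, integral_sub hi2 hi3, hz]
        ring
    _ = _ := by simp only [hu, PiLp.sub_apply]

end Pool.Agent.ShearComposite.D3
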