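import Pool.Agent.ShearComposite3.Core

set_option autoImplicit false

open MeasureTheory Metric
open scoped ContDiff

namespace Pool.Agent.ShearComposite.D3

/-! ## TASK A1 (Alg.lean): algebra of the energy density -/

theorem density_eq (κ μ : ℝ) (A : M3) :
    density κ μ A = κ * A.trace ^ 2 + 2 * μ * (inn A A - A.trace ^ 2 / 3) := by
  simp only [density, stress, inn, Matrix.trace, Matrix.diag, Fin.sum_univ_three, Matrix.add_apply,
    Matrix.smul_apply, Matrix.sub_apply, Matrix.one_apply, smul_eq_mul]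
  simp
  ring

theorem a1_inn_nonneg (A : M3) : 0 ≤ inn A A :=
  Finset.sum_nonneg fun _ _ => Finset.sum_nonneg fun _ _ => mul_self_nonneg _

/-- the deviatoric part is nonnegative -/
theorem a1_dev_nonneg (A : M3) : A.trace ^ 2 / 3 ≤ inn A A := by
  simp only [inn, Matrix.trace, Matrix.diag, Fin.sum_univ_three]
  nlinarith [sq_nonneg (A 0 0 - A 1 1), sq_nonneg (A 1 1 - A 2 2), sq_nonneg (A 0 0 - A 2 2),
    sq_nonneg (A 0 1), sq_nonneg (A 0 2), sq_nonneg (A 1 0), sq_nonneg (A 1 2), sq_nonneg (A 2 0),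
    sq_nonneg (A 2 1)]

theorem density_nonneg {κ μ : ℝ} (hκ : 0 < κ) (hμ : 0 < μ) (A : M3) : 0 ≤ density κ μ A := by
  rw [density_eq]
  have h1 := a1_dev_nonneg A
  have h2 : 0 ≤ 2 * μ * (inn A A - A.trace ^ 2 / 3) :=
    mul_nonneg (by linarith) (by linarith)
  positivity

theorem density_lower {κ μ : ℝ} (hκ : 0 < κ) (hμ : 0 < μ) :
    ∃ c : ℝ, 0 < c ∧ ∀ A : M3, c * inn A A ≤ density κ μ A := by
  refine ⟨min (2 * μ) (3 * κ), by positivity, fun A => ?_⟩
  rw [density_eq]
  have h1 := a1_dev_nonneg A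
  have h2 : 0 ≤ A.trace ^ 2 / 3 := by positivity
  have h3 : min (2 * μ) (3 * κ) * (inn A A - A.trace ^ 2 / 3) ≤
      2 * μ * (inn A A - A.trace ^ 2 / 3) :=
    mul_le_mul_of_nonneg_right (min_le_left _ _) (by linarith)
  have h4 : min (2 * μ) (3 * κ) * (A.trace ^ 2 / 3) ≤ 3 * κ * (A.trace ^ 2 / 3) :=
    mul_le_mul_of_nonneg_right (min_le_right _ _) h2
  have h5 : min (2 * μ) (3 * κ) * inn A A = min (2 * μ) (3 * κ) * (inn A A - A.trace ^ 2 / 3) +
      min (2 * μ) (3 * κ) * (A.trace ^ 2 / 3) := by ring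
  have h6 : 3 * κ * (A.trace ^ 2 / 3) = κ * A.trace ^ 2 := by ring
  linarith

theorem density_upper {κ μ : ℝ} (hκ : 0 < κ) (hμ : 0 < μ) :
    ∃ C : ℝ, 0 < C ∧ ∀ A : M3, density κ μ A ≤ C * inn A A := by
  refine ⟨2 * μ + 3 * κ, by positivity, fun A => ?_⟩
  rw [density_eq]
  have h1 := a1_dev_nonneg A
  have h2 : 0 ≤ 2 * μ * (A.trace ^ 2 / 3) := by positivity
  have h3 : 3 * κ * (A.trace ^ 2 / 3) ≤ 3 * κ * inn A A :=
    mul_le_mul_of_nonneg_left h1 (by positivity)
  have h4 : 3 * κ * (A.trace ^ 2 / 3) = κ * A.trace ^ 2 := by ring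
  have h5 : (2 * μ + 3 * κ) * inn A A = 2 * μ * inn A A + 3 * κ * inn A A := by ring
  have h6 : 2 * μ * (inn A A - A.trace ^ 2 / 3) = 2 * μ * inn A A - 2 * μ * (A.trace ^ 2 / 3) := by
    ring
  linarith

theorem density_dual {κ μ : ℝ} (hκ : 0 < κ) (hμ : 0 < μ) (A T : M3) :
    2 * inn T A ≤ density κ μ A + cden κ μ T := by
  have h1 := a1_dev_nonneg (A - (2 * μ)⁻¹ • T)
  have h2 : density κ μ A + cden κ μ T - 2 * inn T A =
      κ * (A.trace - T.trace / (3 * κ)) ^ 2 + 2 * μ * (inn (A - (2 * μ)⁻¹ • T)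
        (A - (2 * μ)⁻¹ • T) - (A - (2 * μ)⁻¹ • T).trace ^ 2 / 3) := by
    rw [density_eq, cden]
    have e1 : inn (A - (2 * μ)⁻¹ • T) (A - (2 * μ)⁻¹ • T) =
        inn A A - 2 * (2 * μ)⁻¹ * inn T A + (2 * μ)⁻¹ ^ 2 * inn T T := by
      simp only [inn, Fin.sum_univ_three, Matrix.sub_apply, Matrix.smul_apply, smul_eq_mul]
      ring
    rw [e1, Matrix.trace_sub, Matrix.trace_smul, smul_eq_mul]
    field_simp
    ring
  have h3 : 0 ≤ κ * (A.trace - T.trace / (3 * κ)) ^ 2 + 2 * μ * (inn (A - (2 * μ)⁻¹ • T)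
        (A - (2 * μ)⁻¹ • T) - (A - (2 * μ)⁻¹ • T).trace ^ 2 / 3) := by
    have h4 : 0 ≤ 2 * μ * (inn (A - (2 * μ)⁻¹ • T)
        (A - (2 * μ)⁻¹ • T) - (A - (2 * μ)⁻¹ • T).trace ^ 2 / 3) :=
      mul_nonneg (by linarith) (by linarith)
    positivity
  linarith

theorem a1_inn_trace (A B : M3) : inn A B = (A.transpose * B).trace := by
  simp only [inn, Matrix.trace, Matrix.diag, Matrix.mul_apply, Matrix.transpose_apply,
    Fin.sum_univ_three]
  ring

theorem inn_orth (R A B : M3) (hR : R ∈ Matrix.orthogonalGroup (Fin 3) ℝ) :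
    inn (R.transpose * A * R) (R.transpose * B * R) = inn A B := by
  have h1 : R * R.transpose = 1 := by
    have := (Matrix.mem_orthogonalGroup_iff (Fin 3) ℝ).1 hR
    exact this
  rw [a1_inn_trace, a1_inn_trace, Matrix.transpose_mul, Matrix.transpose_mul,
    Matrix.transpose_transpose]
  have h2 : R.transpose * (A.transpose * R) * (R.transpose * B * R) =
      R.transpose * (A.transpose * B) * R := by
    calc R.transpose * (A.transpose * R) * (R.transpose * B * R) =
        R.transpose * A.transpose * (R * R.transpose) * B * R := by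
          simp only [Matrix.mul_assoc]
      _ = R.transpose * (A.transpose * B) * R := by
          rw [h1, Matrix.mul_one]
          simp only [Matrix.mul_assoc]
  rw [h2, Matrix.trace_mul_comm, ← Matrix.mul_assoc, h1, Matrix.one_mul]

theorem a1_trace_orth (R A : M3) (hR : R ∈ Matrix.orthogonalGroup (Fin 3) ℝ) :
    (R.transpose * A * R).trace = A.trace := by
  have h1 : R * R.transpose = 1 := (Matrix.mem_orthogonalGroup_iff (Fin 3) ℝ).1 hR
  rw [Matrix.trace_mul_comm, ← Matrix.mul_assoc, h1, Matrix.one_mul]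

theorem density_orth (κ μ : ℝ) (R A : M3) (hR : R ∈ Matrix.orthogonalGroup (Fin 3) ℝ) :
    density κ μ (R.transpose * A * R) = density κ μ A := by
  rw [density_eq, density_eq, inn_orth R A A hR, a1_trace_orth R A hR]

theorem cden_upper {κ μ : ℝ} (hκ : 0 < κ) (hμ : 0 < μ) :
    ∃ C : ℝ, 0 < C ∧ ∀ A : M3, cden κ μ A ≤ C * inn A A := by
  refine ⟨1 / (3 * κ) + 1 / (2 * μ), by positivity, fun A => ?_⟩
  have h1 := a1_dev_nonneg A
  have h2 : A.trace ^ 2 / (9 * κ) = 1 / (3 * κ) * (A.trace ^ 2 / 3) := by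
    field_simp
    norm_num
  have h3 : 1 / (3 * κ) * (A.trace ^ 2 / 3) ≤ 1 / (3 * κ) * inn A A :=
    mul_le_mul_of_nonneg_left h1 (by positivity)
  have h4 : (inn A A - A.trace ^ 2 / 3) / (2 * μ) ≤ 1 / (2 * μ) * inn A A := by
    rw [one_div, inv_mul_eq_div]
    apply div_le_div_of_nonneg_right _ (by positivity)
    have : 0 ≤ A.trace ^ 2 / 3 := by positivity
    linarith
  rw [cden, add_mul, h2]
  linarith

theorem cden_trace_zero (κ μ : ℝ) (A : M3) (h : A.trace = 0) :
    cden κ μ A = inn A A / (2 * μ) := by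
  rw [cden, h]
  simp

/-- coordinate functions as continuous linear maps -/
noncomputable def a1_pr (i : Fin 3) : E3 →L[ℝ] ℝ := EuclideanSpace.proj i

theorem a1_pr_apply (i : Fin 3) (x : E3) : a1_pr i x = x i := rfl

theorem a1_fderiv_apply (v : E3 → E3) (hv : ContDiff ℝ ∞ v) (x h : E3) (i : Fin 3) :
    fderiv ℝ v x h i = fderiv ℝ (fun y => v y i) x h := by
  have h1 : HasFDerivAt v (fderiv ℝ v x) x := (hv.differentiable (by norm_num) x).hasFDerivAt
  have h2 := ((a1_pr i).hasFDerivAt (x := v x)).comp x h1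
  have h3 : (a1_pr i ∘ v) = fun y => v y i := rfl
  rw [h3] at h2
  rw [h2.fderiv]
  rfl

/-- entries of the strain -/
theorem strain_apply (v : E3 → E3) (hv : ContDiff ℝ ∞ v) (x : E3) (i j : Fin 3) :
    strain v x i j = (pd j (fun y => v y i) x + pd i (fun y => v y j) x) / 2 := by
  rw [strain, Matrix.of_apply, a1_fderiv_apply v hv, a1_fderiv_apply v hv]
  rfl

theorem strain_symm (v : E3 → E3) (x : E3) (i j : Fin 3) : strain v x i j = strain v x j i := by
  rw [strain, Matrix.of_apply, Matrix.of_apply, add_comm]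

theorem strain_add (v w : E3 → E3) (hv : ContDiff ℝ ∞ v) (hw : ContDiff ℝ ∞ w) (x : E3) :
    strain (fun y => v y + w y) x = strain v x + strain w x := by
  have h1 : fderiv ℝ (fun y => v y + w y) x = fderiv ℝ v x + fderiv ℝ w x :=
    fderiv_add (hv.differentiable (by norm_num) x) (hw.differentiable (by norm_num) x)
  ext i j
  rw [Matrix.add_apply, strain, strain, strain, Matrix.of_apply, Matrix.of_apply, Matrix.of_apply,
    h1]
  have h2 : ∀ (h : E3) (i : Fin 3), (fderiv ℝ v x + fderiv ℝ w x) h i =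
      fderiv ℝ v x h i + fderiv ℝ w x h i := fun h i => rfl
  rw [h2, h2]
  ring

/-- the action of a matrix as a continuous linear map -/
noncomputable def a1_mactL (A : M3) : E3 →L[ℝ] E3 :=
  LinearMap.toContinuousLinearMap (Matrix.toEuclideanLin A)

theorem a1_mactL_apply (A : M3) (x : E3) : a1_mactL A x = mact A x := by
  rfl

theorem a1_mact_contDiff (A : M3) : ContDiff ℝ ∞ (mact A) := by
  have h1 : mact A = a1_mactL A := by
    funext x
    rw [a1_mactL_apply]
  rw [h1]
  exact (a1_mactL A).contDiff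

theorem a1_fderiv_mact (A : M3) (x : E3) : fderiv ℝ (fun y => mact A y) x = a1_mactL A := by
  have h1 : (fun y => mact A y) = a1_mactL A := by
    funext x
    rw [a1_mactL_apply]
  rw [h1]
  exact (a1_mactL A).fderiv

theorem strain_mact (A : M3) (hA : A.IsSymm) (x : E3) : strain (fun y => mact A y) x = A := by
  have h1 : ∀ i j : Fin 3, mact A (ee j) i = A i j := by
    intro i j
    simp [mact]
  ext i j
  rw [strain, Matrix.of_apply, a1_fderiv_mact, a1_mactL_apply, a1_mactL_apply, h1, h1,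
    hA.apply i j]
  ring

theorem continuous_strain (v : E3 → E3) (hv : ContDiff ℝ ∞ v) : Continuous (strain v) := by
  have h1 : Continuous (fderiv ℝ v) := hv.continuous_fderiv (by norm_num)
  refine continuous_matrix fun i j => ?_
  have h2 : ∀ (h : E3) (i : Fin 3), Continuous fun x => fderiv ℝ v x h i := by
    intro h i
    exact (a1_pr i).continuous.comp (h1.clm_apply continuous_const)
  exact ((h2 _ _).add (h2 _ _)).div_const 2

end Pool.Agent.ShearComposite.D3
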