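import Pool.Agent.ShearComposite3.KPconvex

set_option autoImplicit false

open MeasureTheory Metric
open scoped ContDiff Pointwise

namespace Pool.Agent.ShearComposite.D3

theorem Linked.isOpen {S : Set E3} (hS : Linked S) : IsOpen S := by
  induction hS with
  | base A h1 h2 h3 h4 => exact h2
  | union A B hA hB h ihA ihB => exact ihA.union ihB

theorem Linked.isBounded {S : Set E3} (hS : Linked S) : Bornology.IsBounded S := by
  induction hS with
  | base A h1 h2 h3 h4 => exact h3
  | union A B hA hB h ihA ihB => exact ihA.union ihB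

theorem Linked.iUnion {ι : Type} (s : Finset ι) (A : Set E3) (B : ι → Set E3) (hA : Linked A)
    (hB : ∀ i ∈ s, Linked (B i)) (h : ∀ i ∈ s, (A ∩ B i).Nonempty) :
    Linked (A ∪ ⋃ i ∈ s, B i) := by
  classical
  induction s using Finset.induction_on with
  | empty => simpa using hA
  | insert j s hj ih =>
    have h1 := ih (fun i hi => hB i (Finset.mem_insert_of_mem hi))
      (fun i hi => h i (Finset.mem_insert_of_mem hi))
    have h2 : (A ∪ ⋃ i ∈ insert j s, B i) = (A ∪ ⋃ i ∈ s, B i) ∪ B j := by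
      rw [Finset.set_biUnion_insert, Set.union_comm (B j), Set.union_assoc]
    rw [h2]
    refine Linked.union _ _ h1 (hB j (Finset.mem_insert_self _ _)) ?_
    obtain ⟨x, hx, hx'⟩ := h j (Finset.mem_insert_self _ _)
    exact ⟨x, Or.inl hx, hx'⟩

theorem k2_integrableOn {g : E3 → ℝ} (hg : Continuous g) {S : Set E3}
    (hS : Bornology.IsBounded S) : IntegrableOn g S :=
  (hg.continuousOn.integrableOn_compact hS.isCompact_closure).mono_set subset_closure

theorem k2_inn_nonneg (A : M3) : 0 ≤ inn A A :=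
  Finset.sum_nonneg fun i _ => Finset.sum_nonneg fun j _ => mul_self_nonneg _

theorem k2_continuous_inn_strain {v : E3 → E3} (hv : ContDiff ℝ ∞ v) :
    Continuous fun x => inn (strain v x) (strain v x) := by
  have h1 : Continuous (fderiv ℝ v) := hv.continuous_fderiv (by simp)
  unfold inn strain
  refine continuous_finsetSum _ fun i _ => continuous_finsetSum _ fun j _ => ?_
  have h2 : ∀ i j : Fin 3, Continuous fun x => fderiv ℝ v x (EuclideanSpace.single j 1) i := by
    intro i j
    have h3 : Continuous fun x => fderiv ℝ v x (EuclideanSpace.single j 1) :=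
      h1.clm_apply continuous_const
    exact (EuclideanSpace.proj i).continuous.comp h3
  have h4 : Continuous fun x => (fderiv ℝ v x (EuclideanSpace.single j 1) i
    + fderiv ℝ v x (EuclideanSpace.single i 1) j) / 2 := ((h2 i j).add (h2 j i)).div_const _
  exact h4.mul h4

theorem k2_continuous_mact (W : M3) : Continuous (mact W) := by
  unfold mact
  refine (PiLp.continuous_toLp 2 _).comp ?_
  refine continuous_pi fun i => continuous_finsetSum _ fun j _ => ?_
  exact continuous_const.mul ((EuclideanSpace.proj j).continuous)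

theorem k2_mact_add (W : M3) (x y : E3) : mact W (x + y) = mact W x + mact W y := by
  ext i
  simp [mact, mul_add, Finset.sum_add_distrib]

theorem k2_mact_smul (W : M3) (t : ℝ) (x : E3) : mact W (t • x) = t • mact W x := by
  ext i
  simp [mact, Finset.mul_sum, mul_left_comm]

theorem k2_sub_mact (W W' : M3) (x : E3) : mact (W - W') x = mact W x - mact W' x := by
  ext i
  simp [mact, sub_mul, Finset.sum_sub_distrib]

/-- affine functions -/
theorem k2_affine_mid (a : E3) (W : M3) (x0 y : E3) :
    a + mact W x0 = (1 / 2 : ℝ) • ((a + mact W (x0 + y)) + (a + mact W (x0 + -y))) := by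
  have : -y = (-1 : ℝ) • y := by simp
  rw [this, k2_mact_add, k2_mact_add, k2_mact_smul]
  ext i
  simp
  ring

theorem k2_affine_scale (a : E3) (W : M3) (x0 y : E3) (s : ℝ) :
    a + mact W (x0 + s • y) = (1 - s) • (a + mact W x0) + s • (a + mact W (x0 + y)) := by
  rw [k2_mact_add, k2_mact_add, k2_mact_smul]
  ext i
  simp
  ring

theorem k2_norm_sq_add (x y : E3) : ‖x + y‖ ^ 2 ≤ 2 * ‖x‖ ^ 2 + 2 * ‖y‖ ^ 2 := by
  have h := norm_add_le x y
  have h1 := norm_nonneg (x + y)
  nlinarith [sq_nonneg (‖x‖ - ‖y‖), norm_nonneg x, norm_nonneg y]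

/-- shift of a ball -/
theorem k2_shift (g : E3 → ℝ) (x0 : E3) (r : ℝ) :
    ∫ x in ball x0 r, g x = ∫ y in ball (0 : E3) r, g (x0 + y) := by
  have h := (measurePreserving_add_left (volume : Measure E3) x0).setIntegral_preimage_emb
    (MeasurableEquiv.addLeft x0).measurableEmbedding g (ball x0 r)
  rw [← h]
  congr 2
  ext y
  simp [mem_ball, dist_eq_norm]

theorem k2_center (a : E3) (W : M3) (x0 : E3) (r : ℝ) :
    ‖a + mact W x0‖ ^ 2 * (volume (ball (0 : E3) r)).toReal ≤
      ∫ x in ball x0 r, ‖a + mact W x‖ ^ 2 := by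
  rw [k2_shift]
  have hc : Continuous fun y : E3 => ‖a + mact W (x0 + y)‖ ^ 2 :=
    ((continuous_const.add ((k2_continuous_mact W).comp (continuous_const.add
      continuous_id))).norm).pow 2
  have hc' : Continuous fun y : E3 => ‖a + mact W (x0 + -y)‖ ^ 2 :=
    ((continuous_const.add ((k2_continuous_mact W).comp (continuous_const.add
      continuous_neg))).norm).pow 2
  have h1 : ∫ y in ball (0 : E3) r, ‖a + mact W (x0 + -y)‖ ^ 2 =
      ∫ y in ball (0 : E3) r, ‖a + mact W (x0 + y)‖ ^ 2 := by
    have h := (Measure.measurePreserving_neg (volume : Measure E3)).setIntegral_preimage_emb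
      (MeasurableEquiv.neg E3).measurableEmbedding (fun y => ‖a + mact W (x0 + y)‖ ^ 2)
      (ball (0 : E3) r)
    rw [← h]
    congr 2
    ext y
    simp
  have h2 : ∫ y in ball (0 : E3) r, ‖a + mact W x0‖ ^ 2 ≤
      ∫ y in ball (0 : E3) r, (1 / 2 * ‖a + mact W (x0 + y)‖ ^ 2 +
        1 / 2 * ‖a + mact W (x0 + -y)‖ ^ 2) := by
    apply setIntegral_mono
    · exact k2_integrableOn continuous_const isBounded_ball
    · exact k2_integrableOn ((hc.const_mul _).add (hc'.const_mul _)) isBounded_ball
    · intro y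
      have h3 := k2_affine_mid a W x0 y
      simp only
      rw [h3, norm_smul, mul_pow]
      have h4 := k2_norm_sq_add (a + mact W (x0 + y)) (a + mact W (x0 + -y))
      norm_num
      linarith
  rw [integral_add ((k2_integrableOn (hc.const_mul _) isBounded_ball))
    ((k2_integrableOn (hc'.const_mul _) isBounded_ball)), integral_const_mul, integral_const_mul,
    h1, setIntegral_const] at h2
  rw [smul_eq_mul] at h2
  have : (volume : Measure E3).real (ball (0 : E3) r) = (volume (ball (0 : E3) r)).toReal := rfl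
  rw [this] at h2
  linarith

theorem k2_big_ball (x0 : E3) (r R : ℝ) (hr : 0 < r) (hR : r ≤ R) : ∃ K : ℝ, 0 < K ∧
    ∀ (a : E3) (W : M3), ∫ x in ball x0 R, ‖a + mact W x‖ ^ 2 ≤
      K * ∫ x in ball x0 r, ‖a + mact W x‖ ^ 2 := by
  set s := R / r with hs
  have hs0 : 0 < s := div_pos (hr.trans_le hR) hr
  set Vr := (volume (ball (0 : E3) r)).toReal with hVr
  have hVr0 : 0 < Vr := ENNReal.toReal_pos (measure_ball_pos _ _ hr).ne' measure_ball_lt_top.ne
  refine ⟨s ^ 3 * (2 * (1 - s) ^ 2 + 2 * s ^ 2), by positivity, ?_⟩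
  intro a W
  have hc : Continuous fun y : E3 => ‖a + mact W (x0 + y)‖ ^ 2 :=
    ((continuous_const.add ((k2_continuous_mact W).comp (continuous_const.add
      continuous_id))).norm).pow 2
  have hc2 : Continuous fun y : E3 => ‖a + mact W (x0 + s • y)‖ ^ 2 :=
    ((continuous_const.add ((k2_continuous_mact W).comp (continuous_const.add
      (continuous_const_smul s)))).norm).pow 2
  have h1 : ∫ x in ball x0 R, ‖a + mact W x‖ ^ 2 =
      s ^ 3 * ∫ y in ball (0 : E3) r, ‖a + mact W (x0 + s • y)‖ ^ 2 := by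
    rw [k2_shift]
    have h := Measure.setIntegral_comp_smul_of_pos (volume : Measure E3)
      (fun y => ‖a + mact W (x0 + y)‖ ^ 2) (ball (0 : E3) r) hs0
    rw [h, smul_eq_mul, ← mul_assoc]
    have h2 : s • ball (0 : E3) r = ball (0 : E3) R := by
      rw [_root_.smul_ball hs0.ne', smul_zero, Real.norm_of_nonneg hs0.le, hs, div_mul_cancel₀ _ hr.ne']
    rw [h2]
    have h3 : Module.finrank ℝ E3 = 3 := by simp
    rw [h3, mul_inv_cancel₀ (by positivity), one_mul]
  rw [h1, mul_assoc]
  apply mul_le_mul_of_nonneg_left _ (by positivity)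
  have h2 : ∫ y in ball (0 : E3) r, ‖a + mact W (x0 + s • y)‖ ^ 2 ≤
      ∫ y in ball (0 : E3) r, (2 * (1 - s) ^ 2 * ‖a + mact W x0‖ ^ 2 +
        2 * s ^ 2 * ‖a + mact W (x0 + y)‖ ^ 2) := by
    apply setIntegral_mono
    · exact k2_integrableOn hc2 isBounded_ball
    · exact k2_integrableOn (continuous_const.add (hc.const_mul _)) isBounded_ball
    · intro y
      simp only
      rw [k2_affine_scale]
      have h4 := k2_norm_sq_add ((1 - s) • (a + mact W x0)) (s • (a + mact W (x0 + y)))
      rw [norm_smul, norm_smul, mul_pow, mul_pow, Real.norm_eq_abs, Real.norm_eq_abs, sq_abs,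
        sq_abs] at h4
      linarith
  rw [integral_add (k2_integrableOn continuous_const isBounded_ball)
    (k2_integrableOn (hc.const_mul _) isBounded_ball), integral_const_mul, integral_const_mul,
    setIntegral_const, smul_eq_mul] at h2
  have h3 := k2_center a W x0 r
  rw [k2_shift] at h3
  have : (volume : Measure E3).real (ball (0 : E3) r) = (volume (ball (0 : E3) r)).toReal := rfl
  rw [this] at h2
  rw [k2_shift (fun x => ‖a + mact W x‖ ^ 2) x0 r]
  nlinarith [sq_nonneg (1 - s)]

/-- affine functions small on an open set are small everywhere -/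
theorem k2_extend (T S : Set E3) (hT : IsOpen T) (hT' : T.Nonempty) (hTb : Bornology.IsBounded T)
    (hS : Bornology.IsBounded S) : ∃ K : ℝ, 0 < K ∧
    ∀ (a : E3) (W : M3), ∫ x in S, ‖a + mact W x‖ ^ 2 ≤ K * ∫ x in T, ‖a + mact W x‖ ^ 2 := by
  obtain ⟨x0, hx0⟩ := hT'
  obtain ⟨r, hr, hrT⟩ := Metric.isOpen_iff.1 hT x0 hx0
  obtain ⟨R, hR⟩ := hS.subset_ball x0
  obtain ⟨K, hK, h⟩ := k2_big_ball x0 r (max r R) hr (le_max_left _ _)
  refine ⟨K, hK, fun a W => ?_⟩
  have hc : Continuous fun y : E3 => ‖a + mact W y‖ ^ 2 :=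
    ((continuous_const.add (k2_continuous_mact W)).norm).pow 2
  have h0 : ∀ (μ : Measure E3), 0 ≤ᵐ[μ] fun y : E3 => ‖a + mact W y‖ ^ 2 :=
    fun μ => Filter.Eventually.of_forall fun y => sq_nonneg _
  calc ∫ x in S, ‖a + mact W x‖ ^ 2 ≤ ∫ x in ball x0 (max r R), ‖a + mact W x‖ ^ 2 := by
        apply setIntegral_mono_set (k2_integrableOn hc isBounded_ball) (h0 _)
        exact (hR.trans (ball_subset_ball (le_max_right _ _))).eventuallyLE
    _ ≤ K * ∫ x in ball x0 r, ‖a + mact W x‖ ^ 2 := h a W
    _ ≤ K * ∫ x in T, ‖a + mact W x‖ ^ 2 := by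
        apply mul_le_mul_of_nonneg_left _ hK.le
        apply setIntegral_mono_set (k2_integrableOn hc hTb) (h0 _)
        exact hrT.eventuallyLE

theorem k2_union (A B : Set E3) (hAo : IsOpen A) (hBo : IsOpen B) (hAb : Bornology.IsBounded A)
    (hBb : Bornology.IsBounded B) (hne : (A ∩ B).Nonempty) (hA : KPI A) (hB : KPI B) :
    KPI (A ∪ B) := by
  obtain ⟨CA, hCA, hA⟩ := hA
  obtain ⟨CB, hCB, hB⟩ := hB
  obtain ⟨K, hK, hKe⟩ := k2_extend (A ∩ B) (A ∪ B) (hAo.inter hBo) hne
    (hAb.subset Set.inter_subset_left) (hAb.union hBb)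
  refine ⟨CA + 2 * CB + 2 * K * (2 * CA + 2 * CB), by positivity, ?_⟩
  intro v hv
  obtain ⟨a, W, hW, h1⟩ := hA v hv
  obtain ⟨b, U, hU, h2⟩ := hB v hv
  refine ⟨a, W, hW, ?_⟩
  have hcv := hv.continuous
  have hcA : Continuous fun x => ‖v x - (a + mact W x)‖ ^ 2 :=
    ((hcv.sub (continuous_const.add (k2_continuous_mact W))).norm).pow 2
  have hcB : Continuous fun x => ‖v x - (b + mact U x)‖ ^ 2 :=
    ((hcv.sub (continuous_const.add (k2_continuous_mact U))).norm).pow 2
  have hcD : Continuous fun x => ‖(b - a) + mact (U - W) x‖ ^ 2 :=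
    ((continuous_const.add (k2_continuous_mact (U - W))).norm).pow 2
  have hcs := k2_continuous_inn_strain hv
  have hUb := hAb.union hBb
  have hIb : Bornology.IsBounded (A ∩ B) := hAb.subset Set.inter_subset_left
  set E := ∫ x in A ∪ B, inn (strain v x) (strain v x) with hE
  have hEA : ∫ x in A, inn (strain v x) (strain v x) ≤ E :=
    setIntegral_mono_set (k2_integrableOn hcs hUb)
      (Filter.Eventually.of_forall fun x => k2_inn_nonneg _) Set.subset_union_left.eventuallyLE
  have hEB : ∫ x in B, inn (strain v x) (strain v x) ≤ E :=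
    setIntegral_mono_set (k2_integrableOn hcs hUb)
      (Filter.Eventually.of_forall fun x => k2_inn_nonneg _) Set.subset_union_right.eventuallyLE
  have h1' : ∫ x in A, ‖v x - (a + mact W x)‖ ^ 2 ≤ CA * E :=
    h1.trans (mul_le_mul_of_nonneg_left hEA hCA.le)
  have h2' : ∫ x in B, ‖v x - (b + mact U x)‖ ^ 2 ≤ CB * E :=
    h2.trans (mul_le_mul_of_nonneg_left hEB hCB.le)
  have hE0 : 0 ≤ E := integral_nonneg fun x => k2_inn_nonneg _
  -- difference of the rigid motions
  have h3 : ∫ x in A ∩ B, ‖(b - a) + mact (U - W) x‖ ^ 2 ≤ (2 * CA + 2 * CB) * E := by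
    have h4 : ∫ x in A ∩ B, ‖(b - a) + mact (U - W) x‖ ^ 2 ≤
        ∫ x in A ∩ B, (2 * ‖v x - (a + mact W x)‖ ^ 2 + 2 * ‖v x - (b + mact U x)‖ ^ 2) := by
      apply setIntegral_mono (k2_integrableOn hcD hIb)
        (k2_integrableOn ((hcA.const_mul _).add (hcB.const_mul _)) hIb)
      intro x
      simp only
      have h5 : (b - a) + mact (U - W) x =
          (v x - (a + mact W x)) + -(v x - (b + mact U x)) := by
        rw [k2_sub_mact]
        abel
      rw [h5]
      have h6 := k2_norm_sq_add (v x - (a + mact W x)) (-(v x - (b + mact U x)))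
      rw [norm_neg] at h6
      exact h6
    rw [integral_add (k2_integrableOn (hcA.const_mul _) hIb)
      (k2_integrableOn (hcB.const_mul _) hIb), integral_const_mul, integral_const_mul] at h4
    have h5 : ∫ x in A ∩ B, ‖v x - (a + mact W x)‖ ^ 2 ≤
        ∫ x in A, ‖v x - (a + mact W x)‖ ^ 2 :=
      setIntegral_mono_set (k2_integrableOn hcA hAb)
        (Filter.Eventually.of_forall fun x => sq_nonneg _) Set.inter_subset_left.eventuallyLE
    have h6 : ∫ x in A ∩ B, ‖v x - (b + mact U x)‖ ^ 2 ≤
        ∫ x in B, ‖v x - (b + mact U x)‖ ^ 2 :=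
      setIntegral_mono_set (k2_integrableOn hcB hBb)
        (Filter.Eventually.of_forall fun x => sq_nonneg _) Set.inter_subset_right.eventuallyLE
    nlinarith
  have h4 := (hKe (b - a) (U - W)).trans (mul_le_mul_of_nonneg_left h3 hK.le)
  have h5 : ∫ x in B, ‖v x - (a + mact W x)‖ ^ 2 ≤
      2 * (CB * E) + 2 * (K * ((2 * CA + 2 * CB) * E)) := by
    have h6 : ∫ x in B, ‖v x - (a + mact W x)‖ ^ 2 ≤
        ∫ x in B, (2 * ‖v x - (b + mact U x)‖ ^ 2 + 2 * ‖(b - a) + mact (U - W) x‖ ^ 2) := by
      apply setIntegral_mono (k2_integrableOn hcA hBb)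
        (k2_integrableOn ((hcB.const_mul _).add (hcD.const_mul _)) hBb)
      intro x
      simp only
      have h5 : v x - (a + mact W x) =
          (v x - (b + mact U x)) + ((b - a) + mact (U - W) x) := by
        rw [k2_sub_mact]
        abel
      rw [h5]
      exact k2_norm_sq_add _ _
    rw [integral_add (k2_integrableOn (hcB.const_mul _) hBb)
      (k2_integrableOn (hcD.const_mul _) hBb), integral_const_mul, integral_const_mul] at h6
    have h7 : ∫ x in B, ‖(b - a) + mact (U - W) x‖ ^ 2 ≤
        ∫ x in A ∪ B, ‖(b - a) + mact (U - W) x‖ ^ 2 :=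
      setIntegral_mono_set (k2_integrableOn hcD hUb)
        (Filter.Eventually.of_forall fun x => sq_nonneg _) Set.subset_union_right.eventuallyLE
    linarith
  have h6 : ∫ x in A ∪ B, ‖v x - (a + mact W x)‖ ^ 2 ≤
      (∫ x in A, ‖v x - (a + mact W x)‖ ^ 2) + ∫ x in B, ‖v x - (a + mact W x)‖ ^ 2 := by
    have h7 : A ∪ B = A ∪ (B \ A) := by simp
    rw [h7, setIntegral_union Set.disjoint_sdiff_right (hBo.measurableSet.diff hAo.measurableSet)
      (k2_integrableOn hcA hAb) (k2_integrableOn hcA (hBb.subset Set.sdiff_subset))]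
    have h8 : ∫ x in B \ A, ‖v x - (a + mact W x)‖ ^ 2 ≤
        ∫ x in B, ‖v x - (a + mact W x)‖ ^ 2 :=
      setIntegral_mono_set (k2_integrableOn hcA hBb)
        (Filter.Eventually.of_forall fun x => sq_nonneg _) Set.sdiff_subset.eventuallyLE
    linarith
  nlinarith

theorem kp_linked (S : Set E3) (hS : Linked S) : KPI S := by
  induction hS with
  | base A h1 h2 h3 h4 => exact kp_convex A h1 h2 h3 h4
  | union A B hA hB h ihA ihB =>
    exact k2_union A B hA.isOpen hB.isOpen hA.isBounded hB.isBounded h ihA ihB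

/-- Cauchy-Schwarz -/
theorem k2_cs (S : Set E3) (hS : Bornology.IsBounded S) (g : E3 → ℝ)
    (hg : Continuous g) (hg0 : ∀ x, 0 ≤ g x) :
    ∫ x in S, g x ≤ √((volume S).toReal) * √(∫ x in S, g x ^ 2) := by
  have hfin : volume S ≠ ⊤ := hS.measure_lt_top.ne
  set V := (volume S).toReal with hV
  set m := ∫ x in S, g x with hm
  have hV0 : 0 ≤ V := ENNReal.toReal_nonneg
  have h1 : 0 ≤ ∫ x in S, (V * g x - m) ^ 2 := integral_nonneg fun x => sq_nonneg _
  have h2 : ∫ x in S, (V * g x - m) ^ 2 = V ^ 2 * (∫ x in S, g x ^ 2) - 2 * V * m * m +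
      m ^ 2 * V := by
    have h3 : ∀ x, (V * g x - m) ^ 2 = (V ^ 2 * g x ^ 2 - (2 * V * m) * g x) + m ^ 2 :=
      fun x => by ring
    simp only [h3]
    rw [integral_add, integral_sub, integral_const_mul, integral_const_mul, setIntegral_const,
      smul_eq_mul]
    · have : (volume : Measure E3).real S = V := rfl
      rw [this, ← hm]
      ring
    · exact k2_integrableOn ((hg.pow 2).const_mul _) hS
    · exact k2_integrableOn (hg.const_mul _) hS
    · exact k2_integrableOn (((hg.pow 2).const_mul _).sub (hg.const_mul _)) hS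
    · exact k2_integrableOn continuous_const hS
  rw [h2] at h1
  rw [← Real.sqrt_mul hV0]
  have hm0 : 0 ≤ m := integral_nonneg fun x => hg0 x
  apply Real.le_sqrt_of_sq_le
  rcases hV0.eq_or_lt with h0 | h0
  · have h4 : volume S = 0 := by
      rcases (ENNReal.toReal_eq_zero_iff _).1 h0.symm with h | h
      · exact h
      · exact absurd h hfin
    have h5 : m = 0 := by
      rw [hm, Measure.restrict_eq_zero.2 h4, integral_zero_measure]
    rw [h5, ← h0]
    simp
  · nlinarith

/-- a vertical force density with vanishing resultant and moment is controlled by the strain -/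
theorem kp_dual (S : Set E3) (hS : Linked S) : ∃ C : ℝ, 0 < C ∧ ∀ (f : E3 → ℝ) (B : ℝ),
    Measurable f → (∀ x, |f x| ≤ B) → (∀ x, x ∉ S → f x = 0) → ∫ x in S, f x = 0 →
    ∫ x in S, f x * x 0 = 0 → ∫ x in S, f x * x 1 = 0 → ∀ v : E3 → E3, ContDiff ℝ ∞ v →
    |∫ x in S, f x * v x 2| ≤ C * B * √(∫ x in S, inn (strain v x) (strain v x)) := by
  obtain ⟨C, hC, hKP⟩ := kp_linked S hS
  have hSb := hS.isBounded
  refine ⟨√((volume S).toReal) * √C + 1, by positivity, ?_⟩
  intro f B hf hfB _ h1 h2 h3 v hv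
  obtain ⟨a, W, hW, h4⟩ := hKP v hv
  have hB : 0 ≤ B := (abs_nonneg _).trans (hfB 0)
  have hint : ∀ g : E3 → ℝ, Continuous g → IntegrableOn (fun x => f x * g x) S := by
    intro g hg
    have := (k2_integrableOn hg hSb).bdd_mul (c := B) hf.aestronglyMeasurable
      (Filter.Eventually.of_forall hfB)
    exact this
  have hco : ∀ j : Fin 3, Continuous fun x : E3 => x j := fun j =>
    (EuclideanSpace.proj j).continuous
  have hvc : Continuous fun x => v x 2 := (hco 2).comp hv.continuous
  have hW22 : W 2 2 = 0 := by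
    have := congrFun (congrFun hW 2) 2
    simp only [Matrix.transpose_apply, Matrix.neg_apply] at this
    linarith
  have h5 : ∫ x in S, f x * v x 2 = ∫ x in S, f x * (v x - (a + mact W x)) 2 := by
    obtain ⟨p, hp⟩ : ∃ p, p = W 2 0 := ⟨_, rfl⟩
    obtain ⟨q, hq⟩ : ∃ q, q = W 2 1 := ⟨_, rfl⟩
    have h6 : ∀ x, f x * (v x - (a + mact W x)) 2 =
        f x * v x 2 - (a 2 * f x + p * (f x * x 0) + q * (f x * x 1)) := by
      intro x
      simp only [mact, PiLp.sub_apply, PiLp.add_apply, Fin.sum_univ_three, hW22, hp, hq]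
      ring
    simp only [h6]
    have i0 : IntegrableOn (fun x => a 2 * f x) S := by
      have : IntegrableOn f S := by simpa using hint (fun _ => 1) continuous_const
      exact this.const_mul _
    have i1 : IntegrableOn (fun x => p * (f x * x 0)) S := (hint _ (hco 0)).const_mul _
    have i2 : IntegrableOn (fun x => q * (f x * x 1)) S := (hint _ (hco 1)).const_mul _
    have i3 : IntegrableOn (fun x => a 2 * f x + p * (f x * x 0)) S := i0.add i1
    have i4 : IntegrableOn (fun x => a 2 * f x + p * (f x * x 0) + q * (f x * x 1)) S := i3.add i2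
    rw [integral_sub (hint _ hvc) i4, integral_add i3 i2, integral_add i0 i1, integral_const_mul,
      integral_const_mul, integral_const_mul, h1, h2, h3]
    ring
  have hgc : Continuous fun x => ‖v x - (a + mact W x)‖ :=
    (hv.continuous.sub (continuous_const.add (k2_continuous_mact W))).norm
  have h6 : |∫ x in S, f x * (v x - (a + mact W x)) 2| ≤
      ∫ x in S, B * ‖v x - (a + mact W x)‖ := by
    have h7 : ∀ x, ‖f x * (v x - (a + mact W x)) 2‖ ≤ B * ‖v x - (a + mact W x)‖ := by
      intro x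
      rw [norm_mul]
      exact mul_le_mul (hfB x) (PiLp.norm_apply_le _ _) (norm_nonneg _) hB
    have h8 := norm_integral_le_of_norm_le (μ := volume.restrict S)
      (k2_integrableOn (hgc.const_mul B) hSb) (Filter.Eventually.of_forall h7)
    exact h8
  rw [h5]
  refine h6.trans ?_
  rw [integral_const_mul]
  have h7 := k2_cs S hSb _ hgc (fun x => norm_nonneg _)
  have h8 : √(∫ x in S, ‖v x - (a + mact W x)‖ ^ 2) ≤
      √C * √(∫ x in S, inn (strain v x) (strain v x)) := by
    rw [← Real.sqrt_mul hC.le]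
    exact Real.sqrt_le_sqrt h4
  have h9 : ∫ x in S, ‖v x - (a + mact W x)‖ ≤
      √((volume S).toReal) * (√C * √(∫ x in S, inn (strain v x) (strain v x))) :=
    h7.trans (mul_le_mul_of_nonneg_left h8 (Real.sqrt_nonneg _))
  have h10 := mul_le_mul_of_nonneg_left h9 hB
  have h11 : 0 ≤ B * √(∫ x in S, inn (strain v x) (strain v x)) :=
    mul_nonneg hB (Real.sqrt_nonneg _)
  nlinarith

end Pool.Agent.ShearComposite.D3
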