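import Pool.Agent.ShearComposite3.Base3

/-!
# The solid of the base structure: measurability, periodicity, symmetry (task P9)
-/

set_option autoImplicit false

open MeasureTheory Metric
open scoped ContDiff

namespace Pool.Agent.ShearComposite.D3

/-! ### one dimensional facts -/

theorem p9_xi_le (L x : ℝ) (hL : 0 < L) (j : ℤ) : |xi L x| ≤ |x - L * j| := by
  have h1 := round_le (x / L) j
  have e1 : xi L x = L * (x / L - round (x / L)) := by
    unfold xi; rw [mul_sub, mul_div_cancel₀ _ hL.ne']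
  have e2 : x - L * j = L * (x / L - j) := by
    rw [mul_sub, mul_div_cancel₀ _ hL.ne']
  rw [e1, e2, abs_mul, abs_mul]
  exact mul_le_mul_of_nonneg_left h1 (abs_nonneg _)

theorem p9_xi_add (L x : ℝ) (hL : 0 < L) (n : ℤ) : xi L (x + L * n) = xi L x := by
  unfold xi
  have h1 : (x + L * n) / L = x / L + n := by field_simp
  rw [h1, round_add_intCast]
  push_cast
  ring

/-- `xi` is odd under reflections, up to the sign convention at half integers -/
theorem p9_xi_refl (L x : ℝ) (hL : 0 < L) : xi L (L - x) = -xi L x ∨ xi L (L - x) = xi L x := by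
  have h0 : L - x = -x + L * ((1 : ℤ) : ℝ) := by push_cast; ring
  rw [h0, p9_xi_add _ _ hL]
  have habs : |xi L (-x)| = |xi L x| := by
    apply le_antisymm
    · have h1 := p9_xi_le L (-x) hL (-round (x / L))
      refine h1.trans (le_of_eq ?_)
      unfold xi
      rw [← abs_neg]
      congr 1
      push_cast
      ring
    · have h1 := p9_xi_le L x hL (-round (-x / L))
      refine h1.trans (le_of_eq ?_)
      unfold xi
      rw [← abs_neg]
      congr 1
      push_cast
      ring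
  rcases abs_eq_abs.mp habs with h | h
  · exact Or.inr h
  · exact Or.inl h

theorem p9_xi_refl_abs (L x : ℝ) (hL : 0 < L) : |xi L (L - x)| = |xi L x| := by
  rcases p9_xi_refl L x hL with h | h
  · rw [h, abs_neg]
  · rw [h]

theorem p9_st_neg (x : ℝ) : st (-x) = 1 - st x := by
  unfold st Real.smoothTransition
  have h1 : 0 < expNegInvGlue (x + 1 / 2) + expNegInvGlue (1 - (x + 1 / 2)) :=
    Real.smoothTransition.pos_denom _
  have e1 : -x + 1 / 2 = 1 - (x + 1 / 2) := by ring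
  have e2 : 1 - (1 - (x + 1 / 2)) = x + 1 / 2 := by ring
  rw [e1, e2, add_comm (expNegInvGlue (1 - (x + 1 / 2))), eq_sub_iff_add_eq, ← add_div,
    add_comm (expNegInvGlue (1 - (x + 1 / 2))), div_self h1.ne']

theorem p9_rab_neg (x : ℝ) : rab (-x) = rab x := by
  unfold rab b2
  rw [p9_st_neg]
  ring

theorem p9_hh_refl (k : ℕ) (hk : 0 < k) (x : ℝ) : hh k (4 * k - x) = hh k x := by
  unfold hh
  rcases p9_xi_refl (4 * k) x (by positivity) with h | h
  · rw [h, p9_rab_neg]
    congr 1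
    unfold cut
    rw [neg_sq]
  · rw [h]

theorem p9_hh_per (k : ℕ) (hk : 0 < k) (x : ℝ) : hh k (x + 2 * (4 * k)) = hh k x := by
  unfold hh
  have h : x + 2 * (4 * k) = x + (4 * k) * ((2 : ℤ) : ℝ) := by push_cast; ring
  rw [h, p9_xi_add _ _ (by positivity)]

theorem p9_xi_per (k : ℕ) (hk : 0 < k) (x : ℝ) : xi (4 * k) (x + 2 * (4 * k)) = xi (4 * k) x := by
  have h : x + 2 * (4 * k) = x + (4 * k) * ((2 : ℤ) : ℝ) := by push_cast; ring
  rw [h, p9_xi_add _ _ (by positivity)]

/-! ### shifts of the indices -/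

theorem p9_emod_shift (k : ℕ) (i n : ℤ) : (i + n * k) % k = i % k := by
  rw [Int.add_mul_emod_self_right]

theorem p9_inBar_per (k : ℕ) (n : ℤ) (z : ℝ) : InBar k (z + n * (4 * k)) ↔ InBar k z := by
  have key : ∀ (n : ℤ) (z : ℝ), InBar k z → InBar k (z + n * (4 * k)) := by
    rintro n z ⟨i, hi, hz⟩
    refine ⟨i + n * k, ?_, ?_⟩
    · unfold barIdx at *; rwa [p9_emod_shift]
    · push_cast
      convert! hz using 2
      ring
  refine ⟨fun h => ?_, key n z⟩
  have := key (-n) _ h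
  convert! this using 1
  push_cast
  ring

theorem p9_inGap_per (k : ℕ) (n : ℤ) (z : ℝ) : InGap k (z + n * (4 * k)) ↔ InGap k z := by
  have key : ∀ (n : ℤ) (z : ℝ), InGap k z → InGap k (z + n * (4 * k)) := by
    rintro n z ⟨i, hi, hz⟩
    refine ⟨i + n * k, ?_, ?_⟩
    · unfold gapIdx at *; rwa [p9_emod_shift]
    · push_cast
      convert! hz using 2
      ring
  refine ⟨fun h => ?_, key n z⟩
  have := key (-n) _ h
  convert! this using 1
  push_cast
  ring

theorem p9_leaf_per (k M : ℕ) (γ : ℝ) (n : ℤ) (x z : ℝ) :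
    Leaf k M γ x (z + n * (4 * k)) ↔ Leaf k M γ x z := by
  have key : ∀ (n : ℤ) (z : ℝ), Leaf k M γ x z → Leaf k M γ x (z + n * (4 * k)) := by
    rintro n z ⟨i, hi, hz, m, hm⟩
    have hk : kap k (i + n * k) = kap k i := by
      unfold kap; rw [p9_emod_shift]
    have e : z + n * (4 * k) - 4 * ((i + n * k : ℤ) : ℝ) - kap k i * γ * hh k x =
        z - 4 * i - kap k i * γ * hh k x := by
      push_cast; ring
    refine ⟨i + n * k, ?_, ?_, m, ?_⟩
    · unfold barIdx at *; rwa [p9_emod_shift]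
    · rw [hk, e]; exact hz
    · rw [hk, e]; exact hm
  refine ⟨fun h => ?_, key n z⟩
  have := key (-n) _ h
  convert! this using 1
  push_cast
  ring

theorem p9_lev_per (k : ℕ) (δ s : ℝ) (n : ℤ) (x : ℝ) :
    Lev k δ s (x + (2 * n) * (4 * k)) ↔ Lev k δ s x := by
  have key : ∀ (n : ℤ) (x : ℝ), Lev k δ s x → Lev k δ s (x + (2 * n) * (4 * k)) := by
    rintro n x ⟨j, hj⟩
    refine ⟨j + 2 * n, ?_⟩
    have h1 : ((-1 : ℝ)) ^ (j + 2 * n) = (-1) ^ j := by
      rw [zpow_add₀ (by norm_num), zpow_mul]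
      norm_num
    rw [h1]
    convert! hj using 2
    push_cast
    ring
  refine ⟨fun h => ?_, key n x⟩
  have := key (-n) _ h
  convert! this using 1
  push_cast
  ring

/-! ### reflections -/

theorem p9_inBar_refl (k : ℕ) (z : ℝ) : InBar k (4 * k - z) ↔ InBar k z := by
  have key : ∀ z : ℝ, InBar k z → InBar k (4 * k - z) := by
    rintro z ⟨i, hi, hz⟩
    refine ⟨k - i, ?_, ?_⟩
    · unfold barIdx at *
      have hkpos : (0 : ℤ) < k := by
        have := hi.1; have := hi.2; omega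
      have h1 : ((k : ℤ) - i) % k = k - i % k := by
        have h2 : (k : ℤ) - i = (k - i % k) + (-(i / k)) * k := by
          have := Int.emod_add_mul_ediv i k
          linarith [mul_comm (k : ℤ) (i / k)]
        rw [h2, Int.add_mul_emod_self_right, Int.emod_eq_of_lt] <;> omega
      rw [h1]
      omega
    · push_cast
      rw [← abs_neg]
      convert! hz using 2
      ring
  refine ⟨fun h => ?_, key z⟩
  have := key _ h
  rwa [sub_sub_cancel] at this

theorem p9_inGap_refl (k : ℕ) (z : ℝ) : InGap k (4 * k - z) ↔ InGap k z := by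
  have key : ∀ z : ℝ, InGap k z → InGap k (4 * k - z) := by
    rintro z ⟨i, hi, hz⟩
    refine ⟨k - 1 - i, ?_, ?_⟩
    · unfold gapIdx at *
      have hkpos : (0 : ℤ) < k := by
        have := hi.1; have := hi.2; omega
      have h1 : ((k : ℤ) - 1 - i) % k = k - 1 - i % k := by
        have h2 : (k : ℤ) - 1 - i = (k - 1 - i % k) + (-(i / k)) * k := by
          have := Int.emod_add_mul_ediv i k
          linarith [mul_comm (k : ℤ) (i / k)]
        rw [h2, Int.add_mul_emod_self_right, Int.emod_eq_of_lt] <;> omega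
      rw [h1]
      omega
    · push_cast
      rw [← abs_neg]
      convert! hz using 2
      ring
  refine ⟨fun h => ?_, key z⟩
  have := key _ h
  rwa [sub_sub_cancel] at this

theorem p9_lev_refl (k : ℕ) (δ s x : ℝ) : Lev k δ s (4 * k - x) ↔ Lev k δ s x := by
  have key : ∀ x : ℝ, Lev k δ s x → Lev k δ s (4 * k - x) := by
    rintro x ⟨j, hj⟩
    refine ⟨1 - j, ?_⟩
    have h1 : ((-1 : ℝ)) ^ (1 - j) = -(-1) ^ j := by
      rw [zpow_sub₀ (by norm_num), zpow_one]
      rcases Int.even_or_odd j with he | ho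
      · rw [he.neg_one_zpow]; norm_num
      · rw [ho.neg_one_zpow]; norm_num
    rw [h1, ← abs_neg]
    convert! hj using 2
    push_cast
    ring
  refine ⟨fun h => ?_, key x⟩
  have := key _ h
  rwa [sub_sub_cancel] at this

theorem p9_leaf_refl1 (k M : ℕ) (hk : 0 < k) (γ x z : ℝ) :
    Leaf k M γ (4 * k - x) z ↔ Leaf k M γ x z := by
  unfold Leaf
  rw [p9_hh_refl k hk]

theorem p9_leaf_refl2 (k M : ℕ) (hk' : Odd k) (γ x z : ℝ) :
    Leaf k M γ x (4 * k - z) ↔ Leaf k M γ x z := by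
  have key : ∀ z : ℝ, Leaf k M γ x z → Leaf k M γ x (4 * k - z) := by
    rintro z ⟨i, hi, hz, m, hm⟩
    unfold barIdx at hi
    have hkpos : (0 : ℤ) < k := by
      have := hi.1; have := hi.2; omega
    have h1 : ((k : ℤ) - i) % k = k - i % k := by
      have h2 : (k : ℤ) - i = (k - i % k) + (-(i / k)) * k := by
        have := Int.emod_add_mul_ediv i k
        linarith [mul_comm (k : ℤ) (i / k)]
      rw [h2, Int.add_mul_emod_self_right, Int.emod_eq_of_lt] <;> omega
    have h3 : kap k (k - i) = -kap k i := by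
      unfold kap
      rw [h1]
      obtain ⟨r, hr⟩ := hk'
      by_cases hc : 2 * (i % k) < k
      · rw [if_pos hc, if_neg (by omega)]; norm_num
      · rw [if_neg hc, if_pos (by omega)]
    have e : 4 * k - z - 4 * ((k - i : ℤ) : ℝ) - kap k (k - i) * γ * hh k x =
        -(z - 4 * i - kap k i * γ * hh k x) := by
      rw [h3]; push_cast; ring
    refine ⟨k - i, ?_, ?_, M - 1 - m, ?_⟩
    · unfold barIdx
      rw [h1]
      omega
    · rw [e, abs_neg]; exact hz
    · rw [e, ← abs_neg]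
      convert! hm using 2
      push_cast
      ring
  refine ⟨fun h => ?_, key z⟩
  have := key _ h
  rwa [sub_sub_cancel] at this

/-! ### the walls -/

theorem p9_wall_x_per (k M : ℕ) (hk : 0 < k) (γ δ s x u z : ℝ) :
    Wall k M γ δ s (x + 2 * (4 * k)) u z ↔ Wall k M γ δ s x u z := by
  have h1 := p9_lev_per k δ s 1 x
  rw [show x + 2 * ((1 : ℤ) : ℝ) * (4 * k) = x + 2 * (4 * k) by push_cast; ring] at h1
  unfold Wall Leaf
  rw [p9_xi_per k hk, p9_hh_per k hk, h1]

theorem p9_wall_u_per (k M : ℕ) (γ δ s x u z : ℝ) :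
    Wall k M γ δ s x (u + 2 * (4 * k)) z ↔ Wall k M γ δ s x u z := by
  have h1 := p9_inGap_per k 2 u
  rw [show u + ((2 : ℤ) : ℝ) * (4 * k) = u + 2 * (4 * k) by push_cast; ring] at h1
  unfold Wall
  rw [h1]

theorem p9_wall_z_per (k M : ℕ) (γ δ s x u z : ℝ) :
    Wall k M γ δ s x u (z + 2 * (4 * k)) ↔ Wall k M γ δ s x u z := by
  have h1 := p9_inBar_per k 2 z
  have h2 := p9_leaf_per k M γ 2 x z
  rw [show z + ((2 : ℤ) : ℝ) * (4 * k) = z + 2 * (4 * k) by push_cast; ring] at h1 h2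
  unfold Wall
  rw [h1, h2]

theorem p9_wall_x_refl (k M : ℕ) (hk : 0 < k) (γ δ s x u z : ℝ) :
    Wall k M γ δ s (4 * k - x) u z ↔ Wall k M γ δ s x u z := by
  unfold Wall
  rw [p9_xi_refl_abs (4 * k) x (by positivity), p9_lev_refl, p9_leaf_refl1 k M hk]

theorem p9_wall_u_refl (k M : ℕ) (γ δ s x u z : ℝ) :
    Wall k M γ δ s x (4 * k - u) z ↔ Wall k M γ δ s x u z := by
  unfold Wall
  rw [p9_inGap_refl]

theorem p9_wall_z_refl (k M : ℕ) (hk' : Odd k) (γ δ s x u z : ℝ) :
    Wall k M γ δ s x u (4 * k - z) ↔ Wall k M γ δ s x u z := by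
  unfold Wall
  rw [p9_inBar_refl, p9_leaf_refl2 k M hk']

/-! ### periodicity and symmetry of the solid -/

theorem p9_add_single (P : ℝ) (i j : Fin 3) (x : E3) :
    (x + EuclideanSpace.single i P) j = if j = i then x j + P else x j := by
  rw [PiLp.add_apply, PiLp.single_apply]
  split_ifs <;> simp

theorem Sol_per (k M : ℕ) (hk : 0 < k) (γ δ : ℝ) : PerSet (2 * (4 * k)) (Sol k M γ δ) := by
  intro i x
  change ((∀ l, 3 ≤ |xi (4 * k) ((x + EuclideanSpace.single i (2 * (4 * (k : ℝ)))) l)|) ∨ _) ↔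
    ((∀ l, 3 ≤ |xi (4 * k) (x l)|) ∨ _)
  refine or_congr (forall_congr' fun l => ?_) (exists_congr fun w => or_congr ?_ ?_)
  · rw [p9_add_single]
    split_ifs
    · rw [p9_xi_per k hk]
    · rfl
  · rw [p9_add_single, p9_add_single, p9_add_single]
    split_ifs <;> simp only [p9_wall_x_per k M hk, p9_wall_u_per, p9_wall_z_per]
  · rw [p9_add_single, p9_add_single, p9_add_single]
    split_ifs <;> simp only [p9_wall_x_per k M hk, p9_wall_u_per, p9_wall_z_per]

/-- the conditions for the second part of `CoreS` -/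
def p9_C (k : ℕ) (δ s x u z : ℝ) : Prop :=
  (|xi (4 * k) x| ≤ 1 ∧ InGap k u ∧ InBar k z) ∨
    (2 ≤ |xi (4 * k) x| ∧ |xi (4 * k) x| ≤ 3 ∧ InGap k u ∧ InBar k z) ∨
    (Lev k δ s x ∧ InBar k z)

theorem p9_core_iff (k : ℕ) (δ : ℝ) (X : E3) : X ∈ CoreS k δ ↔
    ((∀ i, 3 ≤ |xi (4 * k) (X i)|) ∧ ∃ i, |xi (4 * k) (X i)| ≤ 5) ∨
      p9_C k δ 1 (X 0) (X 1) (X 2) ∨ p9_C k δ (-1) (X 1) (X 0) (X 2) := by
  unfold CoreS p9_C
  refine or_congr Iff.rfl ?_
  constructor
  · rintro ⟨x, u, s, (⟨rfl, rfl, rfl⟩ | ⟨rfl, rfl, rfl⟩), h⟩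
    · exact Or.inl h
    · exact Or.inr h
  · rintro (h | h)
    · exact ⟨_, _, _, Or.inl ⟨rfl, rfl, rfl⟩, h⟩
    · exact ⟨_, _, _, Or.inr ⟨rfl, rfl, rfl⟩, h⟩

theorem p9_C_x_per (k : ℕ) (hk : 0 < k) (δ s x u z : ℝ) :
    p9_C k δ s (x + 2 * (4 * k)) u z ↔ p9_C k δ s x u z := by
  have h1 := p9_lev_per k δ s 1 x
  rw [show x + 2 * ((1 : ℤ) : ℝ) * (4 * k) = x + 2 * (4 * k) by push_cast; ring] at h1
  unfold p9_C
  rw [p9_xi_per k hk, h1]

theorem p9_C_u_per (k : ℕ) (δ s x u z : ℝ) :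
    p9_C k δ s x (u + 2 * (4 * k)) z ↔ p9_C k δ s x u z := by
  have h1 := p9_inGap_per k 2 u
  rw [show u + ((2 : ℤ) : ℝ) * (4 * k) = u + 2 * (4 * k) by push_cast; ring] at h1
  unfold p9_C
  rw [h1]

theorem p9_C_z_per (k : ℕ) (δ s x u z : ℝ) :
    p9_C k δ s x u (z + 2 * (4 * k)) ↔ p9_C k δ s x u z := by
  have h1 := p9_inBar_per k 2 z
  rw [show z + ((2 : ℤ) : ℝ) * (4 * k) = z + 2 * (4 * k) by push_cast; ring] at h1
  unfold p9_C
  rw [h1]

theorem CoreS_per (k : ℕ) (hk : 0 < k) (δ : ℝ) : PerSet (2 * (4 * k)) (CoreS k δ) := by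
  intro i x
  rw [p9_core_iff, p9_core_iff]
  have hx : ∀ l : Fin 3, xi (4 * k) ((x + EuclideanSpace.single i (2 * (4 * (k : ℝ)))) l) =
      xi (4 * k) (x l) := by
    intro l
    rw [p9_add_single]
    split_ifs
    · rw [p9_xi_per k hk]
    · rfl
  simp only [hx]
  refine or_congr Iff.rfl (or_congr ?_ ?_)
  · rw [p9_add_single, p9_add_single, p9_add_single]
    split_ifs <;> simp only [p9_C_x_per k hk, p9_C_u_per, p9_C_z_per]
  · rw [p9_add_single, p9_add_single, p9_add_single]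
    split_ifs <;> simp only [p9_C_x_per k hk, p9_C_u_per, p9_C_z_per]

theorem p9_fin0 : ∀ w : Fin 3, w + 1 + 2 = w + 2 + 1 := by decide

theorem p9_fin1 : ∀ w : Fin 3, w - 1 + 1 + 1 = w + 1 := by decide

theorem p9_fin2 : ∀ w : Fin 3, w - 1 + 2 + 1 = w + 2 := by decide

theorem Sol_cyc (k M : ℕ) (γ δ : ℝ) (x : E3) : cyc x ∈ Sol k M γ δ ↔ x ∈ Sol k M γ δ := by
  change ((∀ l : Fin 3, 3 ≤ |xi (4 * k) (x (l + 1))|) ∨
    ∃ w : Fin 3, Wall k M γ δ 1 (x (w + 1 + 1)) (x (w + 2 + 1)) (x (w + 1)) ∨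
      Wall k M γ δ (-1) (x (w + 2 + 1)) (x (w + 1 + 1)) (x (w + 1))) ↔
    ((∀ l, 3 ≤ |xi (4 * k) (x l)|) ∨
    ∃ w : Fin 3, Wall k M γ δ 1 (x (w + 1)) (x (w + 2)) (x w) ∨
      Wall k M γ δ (-1) (x (w + 2)) (x (w + 1)) (x w))
  refine or_congr ?_ ?_
  · exact (Equiv.addRight (1 : Fin 3)).forall_congr_left
      (p := fun l => 3 ≤ |xi (4 * k) (x (l + 1))|) |>.trans (by simp)
  · constructor
    · rintro ⟨w, h⟩
      refine ⟨w + 1, ?_⟩
      rwa [p9_fin0 w]
    · rintro ⟨w, h⟩
      refine ⟨w - 1, ?_⟩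
      rwa [p9_fin1 w, p9_fin2 w, sub_add_cancel]

theorem p9_flip_apply (L : ℝ) (j i : Fin 3) (x : E3) :
    flip L j x i = if i = j then L - x i else x i := rfl

theorem Sol_flip (k M : ℕ) (hk : 5 ≤ k) (hk' : Odd k) (γ δ : ℝ) (j : Fin 3) (x : E3) :
    flip (4 * k) j x ∈ Sol k M γ δ ↔ x ∈ Sol k M γ δ := by
  have hk0 : 0 < k := by omega
  change ((∀ l, 3 ≤ |xi (4 * k) ((flip (4 * k) j x) l)|) ∨ _) ↔
    ((∀ l, 3 ≤ |xi (4 * k) (x l)|) ∨ _)
  refine or_congr (forall_congr' fun l => ?_) (exists_congr fun w => or_congr ?_ ?_)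
  · rw [p9_flip_apply]
    split_ifs
    · rw [p9_xi_refl_abs (4 * k) _ (by positivity)]
    · rfl
  · rw [p9_flip_apply, p9_flip_apply, p9_flip_apply]
    split_ifs <;>
      simp only [p9_wall_x_refl k M hk0, p9_wall_u_refl, p9_wall_z_refl k M hk']
  · rw [p9_flip_apply, p9_flip_apply, p9_flip_apply]
    split_ifs <;>
      simp only [p9_wall_x_refl k M hk0, p9_wall_u_refl, p9_wall_z_refl k M hk']

theorem CoreS_subset (k M : ℕ) (γ δ : ℝ) : CoreS k δ ⊆ Sol k M γ δ := by
  intro X hX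
  rw [p9_core_iff] at hX
  rcases hX with h | h | h
  · exact Or.inl h.1
  · refine Or.inr ⟨2, Or.inl ?_⟩
    unfold p9_C at h
    change Wall k M γ δ 1 (X 0) (X 1) (X 2)
    unfold Wall
    tauto
  · refine Or.inr ⟨2, Or.inr ?_⟩
    unfold p9_C at h
    change Wall k M γ δ (-1) (X 1) (X 0) (X 2)
    unfold Wall
    tauto

theorem inner_xi (k : ℕ) (hk : 0 < k) (η : ℝ) (hη : 0 < η) (x : E3) (hx : x ∈ inner (4 * k) η)
    (i : Fin 3) : η * (4 * k) ≤ |xi (4 * k) (x i)| := by
  have h1 := abs_le.mp (hx i)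
  have hk0 : (0 : ℝ) < 4 * k := by positivity
  unfold xi
  rcases le_or_gt (round (x i / (4 * k))) 0 with h | h
  · have h2 : ((round (x i / (4 * k)) : ℤ) : ℝ) ≤ 0 := by exact_mod_cast h
    have h3 : (4 * k : ℝ) * round (x i / (4 * k)) ≤ 0 := mul_nonpos_of_nonneg_of_nonpos hk0.le h2
    refine le_trans ?_ (le_abs_self _)
    nlinarith [h1.1]
  · have h2 : (1 : ℝ) ≤ ((round (x i / (4 * k)) : ℤ) : ℝ) := by exact_mod_cast h
    have h3 : (4 * k : ℝ) ≤ 4 * k * round (x i / (4 * k)) := le_mul_of_one_le_right hk0.le h2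
    refine le_trans ?_ (neg_le_abs _)
    nlinarith [h1.2]

theorem inner_CoreS (k : ℕ) (hk : 0 < k) (η δ : ℝ) (hη : 5 < η * (4 * k)) (hδ : δ ≤ 1 / 10) :
    Disjoint (inner (4 * k) η) (CoreS k δ) := by
  rw [Set.disjoint_left]
  intro X hX hC
  have hk0 : (0 : ℝ) < 4 * k := by positivity
  have hη0 : 0 < η := by
    by_contra hn
    have : η * (4 * k) ≤ 0 := mul_nonpos_of_nonpos_of_nonneg (not_lt.mp hn) hk0.le
    linarith
  have h5 : ∀ i, 5 < |xi (4 * k) (X i)| := fun i => hη.trans_le (inner_xi k hk η hη0 X hX i)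
  have hlev : ∀ (s : ℝ) (i : Fin 3), |s| ≤ 1 → ¬ Lev k δ s (X i) := by
    rintro s i hs ⟨j, hj⟩
    have h1 := p9_xi_le (4 * k) (X i) hk0 j
    have h2 : |s * (-1) ^ j / 2| ≤ 1 / 2 := by
      have h3 : |((-1 : ℝ)) ^ j| = 1 := by rw [abs_zpow, abs_neg, abs_one, one_zpow]
      rw [abs_div, abs_mul, h3, abs_two, mul_one]
      linarith
    have h3 : |X i - 4 * k * j| ≤ |X i - (j * (4 * k) + s * (-1) ^ j / 2)| +
        |s * (-1) ^ j / 2| := by
      have := abs_add_le (X i - (j * (4 * k) + s * (-1) ^ j / 2)) (s * (-1) ^ j / 2)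
      refine le_trans (le_of_eq ?_) this
      congr 1
      ring
    have := h5 i
    linarith
  rw [p9_core_iff] at hC
  unfold p9_C at hC
  have h0 := h5 0
  have h1 := h5 1
  rcases hC with ⟨-, i, hi⟩ | (⟨h, -⟩ | ⟨-, h, -⟩ | ⟨h, -⟩) | (⟨h, -⟩ | ⟨-, h, -⟩ | ⟨h, -⟩)
  · linarith [h5 i]
  · linarith
  · linarith
  · exact hlev 1 0 (by norm_num) h
  · linarith
  · linarith
  · exact hlev (-1) 1 (by norm_num) h

/-! ### measurability -/

section

variable {α : Type} [MeasurableSpace α]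

theorem p9_mle {f g : α → ℝ} (hf : Measurable f) (hg : Measurable g) :
    Measurable fun a => f a ≤ g a :=
  measurableSet_setOfPred.mp (measurableSet_le hf hg)

theorem p9_mxi (L : ℝ) {f : α → ℝ} (hf : Measurable f) : Measurable fun a => xi L (f a) := by
  have h1 : Measurable fun a => ((round (f a / L) : ℤ) : ℝ) := by
    have h2 : (fun a => ((round (f a / L) : ℤ) : ℝ)) =
        (fun n : ℤ => (n : ℝ)) ∘ fun a => ⌊f a / L + 1 / 2⌋ := by
      funext a
      simp [round_eq]
    rw [h2]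
    exact (measurable_of_countable _).comp ((hf.div_const L).add_const _).floor
  unfold xi
  exact hf.sub (measurable_const.mul h1)

theorem p9_mhh (k : ℕ) {f : α → ℝ} (hf : Measurable f) : Measurable fun a => hh k (f a) := by
  have h1 := p9_mxi (4 * k) hf
  have hs : Measurable Real.smoothTransition := Real.smoothTransition.continuous.measurable
  have h2 : Measurable fun a => st (xi (4 * k) (f a)) := by
    unfold st
    exact hs.comp (h1.add_const _)
  have h3 : Measurable fun a => rab (xi (4 * k) (f a)) := by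
    unfold rab b2
    exact (measurable_const.mul (h1.mul h2)).sub h1
  have h4 : Measurable fun a => cut (21 / 10) (29 / 10) (xi (4 * k) (f a)) := by
    unfold cut
    exact hs.comp ((measurable_const.sub (h1.pow_const 2)).div_const _)
  unfold hh
  exact (h3.sub_const _).mul h4

theorem p9_mabs {f : α → ℝ} (hf : Measurable f) : Measurable fun a => |f a| :=
  hf.abs

theorem p9_mbar (k : ℕ) {z : α → ℝ} (hz : Measurable z) : Measurable fun a => InBar k (z a) := by
  unfold InBar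
  refine Measurable.exists fun i => measurable_const.and ?_
  exact p9_mle (hz.sub_const _).abs measurable_const

theorem p9_mgap (k : ℕ) {z : α → ℝ} (hz : Measurable z) : Measurable fun a => InGap k (z a) := by
  unfold InGap
  refine Measurable.exists fun i => measurable_const.and ?_
  exact p9_mle (hz.sub_const _).abs measurable_const

theorem p9_mlev (k : ℕ) (δ s : ℝ) {x : α → ℝ} (hx : Measurable x) :
    Measurable fun a => Lev k δ s (x a) := by
  unfold Lev
  refine Measurable.exists fun i => ?_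
  exact p9_mle (hx.sub_const _).abs measurable_const

theorem p9_mleaf (k M : ℕ) (γ : ℝ) {x z : α → ℝ} (hx : Measurable x) (hz : Measurable z) :
    Measurable fun a => Leaf k M γ (x a) (z a) := by
  unfold Leaf
  refine Measurable.exists fun i => measurable_const.and ?_
  have h1 : Measurable fun a => z a - 4 * i - kap k i * γ * hh k (x a) :=
    (hz.sub_const _).sub (measurable_const.mul (p9_mhh k hx))
  refine (p9_mle h1.abs measurable_const).and (Measurable.exists fun m => ?_)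
  exact p9_mle (((h1.add_const _).mul_const _).sub_const _).abs measurable_const

theorem p9_mwall (k M : ℕ) (γ δ s : ℝ) {x u z : α → ℝ} (hx : Measurable x) (hu : Measurable u)
    (hz : Measurable z) : Measurable fun a => Wall k M γ δ s (x a) (u a) (z a) := by
  have h1 := (p9_mxi (4 * k) hx).abs
  have h2 := p9_mbar k hz
  have h3 := p9_mgap k hu
  have h4 := p9_mleaf k M γ hx hz
  have h5 := p9_mlev k δ s hx
  unfold Wall
  refine Measurable.or ?_ (Measurable.or ?_ (Measurable.or ?_ ?_))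
  · exact (p9_mle h1 measurable_const).and (h3.and h2)
  · exact (p9_mle measurable_const h1).and ((p9_mle h1 measurable_const).and (h3.and h4))
  · exact (p9_mle measurable_const h1).and ((p9_mle h1 measurable_const).and (h3.and h2))
  · exact h5.and h2

theorem p9_mC (k : ℕ) (δ s : ℝ) {x u z : α → ℝ} (hx : Measurable x) (hu : Measurable u)
    (hz : Measurable z) : Measurable fun a => p9_C k δ s (x a) (u a) (z a) := by
  have h1 := (p9_mxi (4 * k) hx).abs
  have h2 := p9_mbar k hz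
  have h3 := p9_mgap k hu
  have h5 := p9_mlev k δ s hx
  unfold p9_C
  refine Measurable.or ?_ (Measurable.or ?_ ?_)
  · exact (p9_mle h1 measurable_const).and (h3.and h2)
  · exact (p9_mle measurable_const h1).and ((p9_mle h1 measurable_const).and (h3.and h2))
  · exact h5.and h2

end

theorem p9_mcoord (i : Fin 3) : Measurable fun X : E3 => X i :=
  (EuclideanSpace.proj (𝕜 := ℝ) i).continuous.measurable

theorem Sol_meas (k M : ℕ) (γ δ : ℝ) : MeasurableSet (Sol k M γ δ) := by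
  unfold Sol
  refine measurableSet_setOfPred.mpr (Measurable.or ?_ ?_)
  · exact Measurable.forall fun i =>
      p9_mle measurable_const (p9_mxi (4 * k) (p9_mcoord i)).abs
  · refine Measurable.exists fun w => Measurable.or ?_ ?_
    · exact p9_mwall k M γ δ 1 (p9_mcoord _) (p9_mcoord _) (p9_mcoord _)
    · exact p9_mwall k M γ δ (-1) (p9_mcoord _) (p9_mcoord _) (p9_mcoord _)

theorem CoreS_meas (k : ℕ) (δ : ℝ) : MeasurableSet (CoreS k δ) := by
  have h : CoreS k δ = {X : E3 |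
      ((∀ i, 3 ≤ |xi (4 * k) (X i)|) ∧ ∃ i, |xi (4 * k) (X i)| ≤ 5) ∨
      p9_C k δ 1 (X 0) (X 1) (X 2) ∨ p9_C k δ (-1) (X 1) (X 0) (X 2)} := by
    ext X
    exact p9_core_iff k δ X
  rw [h]
  refine measurableSet_setOfPred.mpr (Measurable.or (Measurable.and ?_ ?_) (Measurable.or ?_ ?_))
  · exact Measurable.forall fun i =>
      p9_mle measurable_const (p9_mxi (4 * k) (p9_mcoord i)).abs
  · exact Measurable.exists fun i =>
      p9_mle (p9_mxi (4 * k) (p9_mcoord i)).abs measurable_const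
  · exact p9_mC k δ 1 (p9_mcoord _) (p9_mcoord _) (p9_mcoord _)
  · exact p9_mC k δ (-1) (p9_mcoord _) (p9_mcoord _) (p9_mcoord _)

end Pool.Agent.ShearComposite.D3
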