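import Pool.Agent.ShearComposite3.Alg

/-!
# Stress fields from pairs of potentials
-/

set_option autoImplicit false

open MeasureTheory Metric
open scoped ContDiff

namespace Pool.Agent.ShearComposite.D3

/-- second derivatives -/
noncomputable def hs (A : E3 → ℝ) (x : E3) (i j : Fin 3) : ℝ := pd i (pd j A) x

/-- the mixed cofactor of the Hessians of two potentials -/
noncomputable def cof (A B : E3 → ℝ) (x : E3) : M3 :=
  !![hs A x 1 1 * hs B x 2 2 + hs A x 2 2 * hs B x 1 1 - 2 * (hs A x 1 2 * hs B x 1 2),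
     -(hs A x 0 1 * hs B x 2 2 + hs A x 2 2 * hs B x 0 1)
       + hs A x 0 2 * hs B x 1 2 + hs A x 1 2 * hs B x 0 2,
     -(hs A x 0 2 * hs B x 1 1 + hs A x 1 1 * hs B x 0 2)
       + hs A x 0 1 * hs B x 1 2 + hs A x 1 2 * hs B x 0 1;
     -(hs A x 0 1 * hs B x 2 2 + hs A x 2 2 * hs B x 0 1)
       + hs A x 0 2 * hs B x 1 2 + hs A x 1 2 * hs B x 0 2,
     hs A x 0 0 * hs B x 2 2 + hs A x 2 2 * hs B x 0 0 - 2 * (hs A x 0 2 * hs B x 0 2),
     -(hs A x 1 2 * hs B x 0 0 + hs A x 0 0 * hs B x 1 2)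
       + hs A x 0 1 * hs B x 0 2 + hs A x 0 2 * hs B x 0 1;
     -(hs A x 0 2 * hs B x 1 1 + hs A x 1 1 * hs B x 0 2)
       + hs A x 0 1 * hs B x 1 2 + hs A x 1 2 * hs B x 0 1,
     -(hs A x 1 2 * hs B x 0 0 + hs A x 0 0 * hs B x 1 2)
       + hs A x 0 1 * hs B x 0 2 + hs A x 0 2 * hs B x 0 1,
     hs A x 0 0 * hs B x 1 1 + hs A x 1 1 * hs B x 0 0 - 2 * (hs A x 0 1 * hs B x 0 1)]

/-! ### calculus of partial derivatives -/

theorem q1_pd_smooth (j : Fin 3) {f : E3 → ℝ} (hf : ContDiff ℝ ∞ f) : ContDiff ℝ ∞ (pd j f) := by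
  have h1 : ContDiff ℝ ∞ (fderiv ℝ f) := hf.fderiv_right (by simp)
  exact h1.clm_apply contDiff_const

theorem q1_diff {f : E3 → ℝ} (hf : ContDiff ℝ ∞ f) (x : E3) : DifferentiableAt ℝ f x :=
  (hf.differentiable (by simp)) x

theorem q1_pd_add (j : Fin 3) {f g : E3 → ℝ} (hf : ContDiff ℝ ∞ f) (hg : ContDiff ℝ ∞ g)
    (x : E3) : pd j (fun y => f y + g y) x = pd j f x + pd j g x := by
  unfold pd
  rw [fderiv_fun_add (q1_diff hf x) (q1_diff hg x)]
  rfl

theorem q1_pd_sub (j : Fin 3) {f g : E3 → ℝ} (hf : ContDiff ℝ ∞ f) (hg : ContDiff ℝ ∞ g)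
    (x : E3) : pd j (fun y => f y - g y) x = pd j f x - pd j g x := by
  unfold pd
  rw [fderiv_fun_sub (q1_diff hf x) (q1_diff hg x)]
  rfl

theorem q1_pd_neg (j : Fin 3) (f : E3 → ℝ) (x : E3) :
    pd j (fun y => -f y) x = -pd j f x := by
  unfold pd
  rw [fderiv_fun_neg]
  rfl

theorem q1_pd_mul (j : Fin 3) {f g : E3 → ℝ} (hf : ContDiff ℝ ∞ f) (hg : ContDiff ℝ ∞ g)
    (x : E3) : pd j (fun y => f y * g y) x = pd j f x * g x + f x * pd j g x := by
  unfold pd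
  rw [fderiv_fun_mul (q1_diff hf x) (q1_diff hg x)]
  simp only [_root_.add_apply, _root_.smul_apply, smul_eq_mul]
  ring

theorem q1_pd_cmul (j : Fin 3) (c : ℝ) {f : E3 → ℝ} (hf : ContDiff ℝ ∞ f) (x : E3) :
    pd j (fun y => c * f y) x = c * pd j f x := by
  unfold pd
  rw [fderiv_const_mul (q1_diff hf x)]
  simp only [_root_.smul_apply, smul_eq_mul]

theorem q1_pd_comm (i j : Fin 3) {f : E3 → ℝ} (hf : ContDiff ℝ ∞ f) (x : E3) :
    pd i (pd j f) x = pd j (pd i f) x := by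
  have h1 : ContDiff ℝ ∞ (fderiv ℝ f) := hf.fderiv_right (by simp)
  have h2 : DifferentiableAt ℝ (fderiv ℝ f) x := (h1.differentiable (by simp)) x
  have h3 : ∀ k l : Fin 3, pd k (pd l f) x = fderiv ℝ (fderiv ℝ f) x (ee k) (ee l) := by
    intro k l
    unfold pd
    rw [fderiv_clm_apply h2 (differentiableAt_const _)]
    simp
  have h4 : IsSymmSndFDerivAt ℝ f x := hf.contDiffAt.isSymmSndFDerivAt (by
    rw [minSmoothness_of_isRCLikeNormedField]
    exact WithTop.coe_le_coe.2 (le_top : (2 : ℕ∞) ≤ ⊤))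
  rw [h3, h3]
  exact h4 _ _

theorem q1_hs_smooth {A : E3 → ℝ} (hA : ContDiff ℝ ∞ A) (i j : Fin 3) :
    ContDiff ℝ ∞ fun x => hs A x i j := q1_pd_smooth i (q1_pd_smooth j hA)

/-- third derivatives are symmetric in the first two indices -/
theorem q1_T1 {A : E3 → ℝ} (hA : ContDiff ℝ ∞ A) (x : E3) (l i j : Fin 3) :
    pd l (fun y => hs A y i j) x = pd i (fun y => hs A y l j) x :=
  q1_pd_comm l i (q1_pd_smooth j hA) x

/-- third derivatives are symmetric in the last two indices -/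
theorem q1_T2 {A : E3 → ℝ} (hA : ContDiff ℝ ∞ A) (x : E3) (l i j : Fin 3) :
    pd l (fun y => hs A y i j) x = pd l (fun y => hs A y j i) x := by
  have h : (fun y => hs A y i j) = fun y => hs A y j i := by
    funext y
    exact q1_pd_comm i j hA y
  rw [h]

/-! ### the statements -/

theorem cof_symm (A B : E3 → ℝ) (x : E3) (i j : Fin 3) : cof A B x i j = cof A B x j i := by
  fin_cases i <;> fin_cases j <;> simp [cof]

/-- derivatives of the mixed products occurring in the cofactor -/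
theorem q1_pd_diag (l : Fin 3) {a b c e f g : E3 → ℝ} (ha : ContDiff ℝ ∞ a)
    (hb : ContDiff ℝ ∞ b) (hc : ContDiff ℝ ∞ c) (he : ContDiff ℝ ∞ e) (hf : ContDiff ℝ ∞ f)
    (hg : ContDiff ℝ ∞ g) (x : E3) :
    pd l (fun y => a y * b y + c y * e y - 2 * (f y * g y)) x =
      pd l a x * b x + a x * pd l b x + (pd l c x * e x + c x * pd l e x) -
        2 * (pd l f x * g x + f x * pd l g x) := by
  rw [q1_pd_sub l ((ha.mul hb).add (hc.mul he)) (contDiff_const.mul (hf.mul hg)),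
    q1_pd_add l (ha.mul hb) (hc.mul he), q1_pd_mul l ha hb, q1_pd_mul l hc he,
    q1_pd_cmul l 2 (hf.mul hg), q1_pd_mul l hf hg]

theorem q1_pd_off (l : Fin 3) {a b c e f g p q : E3 → ℝ} (ha : ContDiff ℝ ∞ a)
    (hb : ContDiff ℝ ∞ b) (hc : ContDiff ℝ ∞ c) (he : ContDiff ℝ ∞ e) (hf : ContDiff ℝ ∞ f)
    (hg : ContDiff ℝ ∞ g) (hp : ContDiff ℝ ∞ p) (hq : ContDiff ℝ ∞ q) (x : E3) :
    pd l (fun y => -(a y * b y + c y * e y) + f y * g y + p y * q y) x =
      -(pd l a x * b x + a x * pd l b x + (pd l c x * e x + c x * pd l e x)) +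
        (pd l f x * g x + f x * pd l g x) + (pd l p x * q x + p x * pd l q x) := by
  rw [q1_pd_add l (((ha.mul hb).add (hc.mul he)).neg.add (hf.mul hg)) (hp.mul hq),
    q1_pd_add l ((ha.mul hb).add (hc.mul he)).neg (hf.mul hg), q1_pd_neg,
    q1_pd_add l (ha.mul hb) (hc.mul he), q1_pd_mul l ha hb, q1_pd_mul l hc he,
    q1_pd_mul l hf hg, q1_pd_mul l hp hq]

theorem cof_contDiff (A B : E3 → ℝ) (hA : ContDiff ℝ ∞ A) (hB : ContDiff ℝ ∞ B) (i j : Fin 3) :
    ContDiff ℝ ∞ fun x => cof A B x i j := by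
  have a := fun i j => q1_hs_smooth hA i j
  have b := fun i j => q1_hs_smooth hB i j
  fin_cases i <;> fin_cases j
  · exact (((a 1 1).mul (b 2 2)).add ((a 2 2).mul (b 1 1))).sub
      (contDiff_const.mul ((a 1 2).mul (b 1 2)))
  · exact ((((a 0 1).mul (b 2 2)).add ((a 2 2).mul (b 0 1))).neg.add ((a 0 2).mul (b 1 2))).add
      ((a 1 2).mul (b 0 2))
  · exact ((((a 0 2).mul (b 1 1)).add ((a 1 1).mul (b 0 2))).neg.add ((a 0 1).mul (b 1 2))).add
      ((a 1 2).mul (b 0 1))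
  · exact ((((a 0 1).mul (b 2 2)).add ((a 2 2).mul (b 0 1))).neg.add ((a 0 2).mul (b 1 2))).add
      ((a 1 2).mul (b 0 2))
  · exact (((a 0 0).mul (b 2 2)).add ((a 2 2).mul (b 0 0))).sub
      (contDiff_const.mul ((a 0 2).mul (b 0 2)))
  · exact ((((a 1 2).mul (b 0 0)).add ((a 0 0).mul (b 1 2))).neg.add ((a 0 1).mul (b 0 2))).add
      ((a 0 2).mul (b 0 1))
  · exact ((((a 0 2).mul (b 1 1)).add ((a 1 1).mul (b 0 2))).neg.add ((a 0 1).mul (b 1 2))).add
      ((a 1 2).mul (b 0 1))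
  · exact ((((a 1 2).mul (b 0 0)).add ((a 0 0).mul (b 1 2))).neg.add ((a 0 1).mul (b 0 2))).add
      ((a 0 2).mul (b 0 1))
  · exact (((a 0 0).mul (b 1 1)).add ((a 1 1).mul (b 0 0))).sub
      (contDiff_const.mul ((a 0 1).mul (b 0 1)))

/-- the symmetries of the third derivatives used below -/
theorem q1_third {A : E3 → ℝ} (hA : ContDiff ℝ ∞ A) (x : E3) :
    pd 1 (fun y => hs A y 0 1) x = pd 0 (fun y => hs A y 1 1) x ∧
    pd 2 (fun y => hs A y 0 2) x = pd 0 (fun y => hs A y 2 2) x ∧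
    pd 1 (fun y => hs A y 0 0) x = pd 0 (fun y => hs A y 0 1) x ∧
    pd 2 (fun y => hs A y 0 0) x = pd 0 (fun y => hs A y 0 2) x ∧
    pd 2 (fun y => hs A y 0 1) x = pd 0 (fun y => hs A y 1 2) x ∧
    pd 1 (fun y => hs A y 0 2) x = pd 0 (fun y => hs A y 1 2) x ∧
    pd 2 (fun y => hs A y 1 1) x = pd 1 (fun y => hs A y 1 2) x ∧
    pd 2 (fun y => hs A y 1 2) x = pd 1 (fun y => hs A y 2 2) x := by
  refine ⟨?_, ?_, ?_, ?_, ?_, ?_, ?_, ?_⟩
  · exact q1_T1 hA x 1 0 1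
  · exact q1_T1 hA x 2 0 2
  · rw [q1_T1 hA x 1 0 0]; exact q1_T2 hA x 0 1 0
  · rw [q1_T1 hA x 2 0 0]; exact q1_T2 hA x 0 2 0
  · rw [q1_T1 hA x 2 0 1]; exact q1_T2 hA x 0 2 1
  · exact q1_T1 hA x 1 0 2
  · rw [q1_T1 hA x 2 1 1]; exact q1_T2 hA x 1 2 1
  · exact q1_T1 hA x 2 1 2

theorem cof_div (A B : E3 → ℝ) (hA : ContDiff ℝ ∞ A) (hB : ContDiff ℝ ∞ B) (i : Fin 3)
    (x : E3) : ∑ j, pd j (fun y => cof A B y i j) x = 0 := by
  have a := fun i j => q1_hs_smooth hA i j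
  have b := fun i j => q1_hs_smooth hB i j
  obtain ⟨a1, a2, a3, a4, a5, a6, a7, a8⟩ := q1_third hA x
  obtain ⟨b1, b2, b3, b4, b5, b6, b7, b8⟩ := q1_third hB x
  rw [Fin.sum_univ_three]
  fin_cases i
  · have e0 := q1_pd_diag 0 (a 1 1) (b 2 2) (a 2 2) (b 1 1) (a 1 2) (b 1 2) x
    have e1 := q1_pd_off 1 (a 0 1) (b 2 2) (a 2 2) (b 0 1) (a 0 2) (b 1 2) (a 1 2) (b 0 2) x
    have e2 := q1_pd_off 2 (a 0 2) (b 1 1) (a 1 1) (b 0 2) (a 0 1) (b 1 2) (a 1 2) (b 0 1) x
    have h : pd 0 (fun y => hs A y 1 1 * hs B y 2 2 + hs A y 2 2 * hs B y 1 1 -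
          2 * (hs A y 1 2 * hs B y 1 2)) x +
        pd 1 (fun y => -(hs A y 0 1 * hs B y 2 2 + hs A y 2 2 * hs B y 0 1)
          + hs A y 0 2 * hs B y 1 2 + hs A y 1 2 * hs B y 0 2) x +
        pd 2 (fun y => -(hs A y 0 2 * hs B y 1 1 + hs A y 1 1 * hs B y 0 2)
          + hs A y 0 1 * hs B y 1 2 + hs A y 1 2 * hs B y 0 1) x = 0 := by
      rw [e0, e1, e2, a1, a2, a5, a6, a7, a8, b1, b2, b5, b6, b7, b8]
      ring
    exact h
  · have e0 := q1_pd_off 0 (a 0 1) (b 2 2) (a 2 2) (b 0 1) (a 0 2) (b 1 2) (a 1 2) (b 0 2) x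
    have e1 := q1_pd_diag 1 (a 0 0) (b 2 2) (a 2 2) (b 0 0) (a 0 2) (b 0 2) x
    have e2 := q1_pd_off 2 (a 1 2) (b 0 0) (a 0 0) (b 1 2) (a 0 1) (b 0 2) (a 0 2) (b 0 1) x
    have h : pd 0 (fun y => -(hs A y 0 1 * hs B y 2 2 + hs A y 2 2 * hs B y 0 1)
          + hs A y 0 2 * hs B y 1 2 + hs A y 1 2 * hs B y 0 2) x +
        pd 1 (fun y => hs A y 0 0 * hs B y 2 2 + hs A y 2 2 * hs B y 0 0 -
          2 * (hs A y 0 2 * hs B y 0 2)) x +
        pd 2 (fun y => -(hs A y 1 2 * hs B y 0 0 + hs A y 0 0 * hs B y 1 2)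
          + hs A y 0 1 * hs B y 0 2 + hs A y 0 2 * hs B y 0 1) x = 0 := by
      rw [e0, e1, e2, a2, a3, a4, a5, a6, a8, b2, b3, b4, b5, b6, b8]
      ring
    exact h
  · have e0 := q1_pd_off 0 (a 0 2) (b 1 1) (a 1 1) (b 0 2) (a 0 1) (b 1 2) (a 1 2) (b 0 1) x
    have e1 := q1_pd_off 1 (a 1 2) (b 0 0) (a 0 0) (b 1 2) (a 0 1) (b 0 2) (a 0 2) (b 0 1) x
    have e2 := q1_pd_diag 2 (a 0 0) (b 1 1) (a 1 1) (b 0 0) (a 0 1) (b 0 1) x
    have h : pd 0 (fun y => -(hs A y 0 2 * hs B y 1 1 + hs A y 1 1 * hs B y 0 2)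
          + hs A y 0 1 * hs B y 1 2 + hs A y 1 2 * hs B y 0 1) x +
        pd 1 (fun y => -(hs A y 1 2 * hs B y 0 0 + hs A y 0 0 * hs B y 1 2)
          + hs A y 0 1 * hs B y 0 2 + hs A y 0 2 * hs B y 0 1) x +
        pd 2 (fun y => hs A y 0 0 * hs B y 1 1 + hs A y 1 1 * hs B y 0 0 -
          2 * (hs A y 0 1 * hs B y 0 1)) x = 0 := by
      rw [e0, e1, e2, a1, a3, a4, a5, a6, a7, b1, b3, b4, b5, b6, b7]
      ring
    exact h

theorem q1_hs_congr {A A' : E3 → ℝ} {x : E3} (h : A =ᶠ[nhds x] A') (i j : Fin 3) :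
    hs A x i j = hs A' x i j := by
  have h1 : pd j A =ᶠ[nhds x] pd j A' := by
    filter_upwards [h.fderiv (𝕜 := ℝ)] with y hy
    unfold pd
    rw [hy]
  unfold hs
  conv_lhs => unfold pd
  conv_rhs => unfold pd
  exact congrArg (fun L : E3 →L[ℝ] ℝ => L (ee i)) h1.fderiv_eq

theorem cof_congr (A B A' B' : E3 → ℝ) (x : E3) (hA : A =ᶠ[nhds x] A') (hB : B =ᶠ[nhds x] B') :
    cof A B x = cof A' B' x := by
  unfold cof
  simp only [q1_hs_congr hA, q1_hs_congr hB]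

theorem q1_int_pd_zero (j : Fin 3) {g : E3 → ℝ} (hg : ContDiff ℝ ∞ g) (hc : HasCompactSupport g) :
    ∫ x, pd j g x = 0 := by
  have h1 : Continuous (pd j g) := (q1_pd_smooth j hg).continuous
  have h2 : HasCompactSupport (pd j g) := by
    have := hc.fderiv_apply (𝕜 := ℝ) (ee j)
    exact this
  have i1 : Integrable (fun x => (1 : ℝ) * fderiv ℝ g x (ee j)) (volume : Measure E3) := by
    simp only [one_mul]
    exact h1.integrable_of_hasCompactSupport h2
  have i2 : Integrable (fun x => (1 : ℝ) * g x) (volume : Measure E3) := by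
    simp only [one_mul]
    exact hg.continuous.integrable_of_hasCompactSupport hc
  have i3 : Integrable (fun x => fderiv ℝ (fun _ : E3 => (1 : ℝ)) x (ee j) * g x)
      (volume : Measure E3) := by
    simp
  have h := integral_mul_fderiv_eq_neg_fderiv_mul_of_integrable i3 i1 i2
    (fun x _ => differentiableAt_const _) (fun x _ => q1_diff hg x)
  simpa [pd] using h

/-- A compactly supported divergence free symmetric field tests to zero. -/
theorem q1_test (T : E3 → M3) (hT : ∀ i j, ContDiff ℝ ∞ fun x => T x i j)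
    (hsym : ∀ x i j, T x i j = T x j i)
    (hdiv : ∀ i x, ∑ j, pd j (fun y => T y i j) x = 0)
    (D : Set E3) (K : Set E3) (hK : IsCompact K) (hKD : K ⊆ D)
    (hs' : ∀ x ∉ K, T x = 0) (v : E3 → E3) (hv : ContDiff ℝ ∞ v) :
    ∫ x in D, inn (T x) (strain v x) = 0 := by
  have hvi : ∀ i : Fin 3, ContDiff ℝ ∞ fun x => v x i := fun i =>
    (EuclideanSpace.proj (𝕜 := ℝ) i : E3 →L[ℝ] ℝ).contDiff.comp hv
  have h1 : ∫ x in D, inn (T x) (strain v x) = ∫ x, inn (T x) (strain v x) := by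
    apply setIntegral_eq_integral_of_forall_compl_eq_zero
    intro x hx
    rw [hs' x (fun h => hx (hKD h))]
    simp [inn]
  rw [h1]
  have hcs : ∀ i j : Fin 3, HasCompactSupport fun x => T x i j * v x i := by
    intro i j
    apply HasCompactSupport.intro hK
    intro x hx
    rw [hs' x hx]; simp
  have hsm : ∀ i j : Fin 3, ContDiff ℝ ∞ fun x => T x i j * v x i := fun i j =>
    (hT i j).mul (hvi i)
  have h2 : ∀ x, inn (T x) (strain v x) = ∑ i, ∑ j, pd j (fun y => T y i j * v y i) x := by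
    intro x
    have e1 : ∀ i j : Fin 3, pd j (fun y => T y i j * v y i) x =
        pd j (fun y => T y i j) x * v x i + T x i j * pd j (fun y => v y i) x := fun i j =>
      q1_pd_mul j (hT i j) (hvi i) x
    have e2 : ∀ i, ∑ j, pd j (fun y => T y i j * v y i) x = ∑ j, T x i j * pd j (fun y => v y i) x := by
      intro i
      simp only [e1, Finset.sum_add_distrib, ← Finset.sum_mul]
      rw [hdiv i x]; ring
    simp only [e2]
    unfold inn
    simp only [strain_apply v hv]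
    have e3 : ∑ i, ∑ j, T x i j * ((pd j (fun y => v y i) x + pd i (fun y => v y j) x) / 2) =
        (∑ i, ∑ j, T x i j * pd j (fun y => v y i) x) / 2 +
          (∑ i, ∑ j, T x i j * pd i (fun y => v y j) x) / 2 := by
      simp only [Finset.sum_div, ← Finset.sum_add_distrib]
      refine Finset.sum_congr rfl fun i _ => Finset.sum_congr rfl fun j _ => ?_
      ring
    have e4 : ∑ i, ∑ j, T x i j * pd i (fun y => v y j) x =
        ∑ i, ∑ j, T x i j * pd j (fun y => v y i) x := by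
      rw [Finset.sum_comm]
      refine Finset.sum_congr rfl fun i _ => Finset.sum_congr rfl fun j _ => ?_
      rw [hsym]
    rw [e3, e4]; ring
  simp only [h2]
  have hint : ∀ i j : Fin 3, Integrable (fun x => pd j (fun y => T y i j * v y i) x) := by
    intro i j
    apply (q1_pd_smooth j (hsm i j)).continuous.integrable_of_hasCompactSupport
    exact (hcs i j).fderiv_apply (𝕜 := ℝ) (ee j)
  rw [integral_finsetSum _ (fun i _ => integrable_finsetSum _ fun j _ => hint i j)]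
  apply Finset.sum_eq_zero
  intro i _
  rw [integral_finsetSum _ (fun j _ => hint i j)]
  apply Finset.sum_eq_zero
  intro j _
  exact q1_int_pd_zero j (hsm i j) (hcs i j)

/-- A stress field which is the constant `σ` plus finitely many compactly supported cofactor
fields tests to the same value as `σ` on a set containing the supports. -/
theorem cof_test (A B : E3 → ℝ) (hA : ContDiff ℝ ∞ A) (hB : ContDiff ℝ ∞ B)
    (D : Set E3) (hD : MeasurableSet D) (K : Set E3) (hK : IsCompact K) (hKD : K ⊆ D)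
    (hs' : ∀ x ∉ K, cof A B x = 0) (v : E3 → E3) (hv : ContDiff ℝ ∞ v) :
    ∫ x in D, inn (cof A B x) (strain v x) = 0 :=
  q1_test (cof A B) (fun i j => cof_contDiff A B hA hB i j) (fun x i j => cof_symm A B x i j)
    (fun i x => cof_div A B hA hB i x) D K hK hKD hs' v hv

end Pool.Agent.ShearComposite.D3
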