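import Pool.Agent.ShearComposite3.Base3
import Pool.Agent.ShearComposite3.Cof

/-!
# The base stress field
-/

set_option autoImplicit false

open MeasureTheory Metric
open scoped ContDiff

namespace Pool.Agent.ShearComposite.D3

/-! ### partial derivatives of products of functions of one variable -/

/-- a product of functions of one variable -/
noncomputable def p4_tp (u v w : ℝ → ℝ) (x : E3) : ℝ := u (x 0) * v (x 1) * w (x 2)

/-- coordinates -/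
noncomputable abbrev p4_pr (i : Fin 3) : E3 →L[ℝ] ℝ := EuclideanSpace.proj i

theorem p4_coord_contDiff {u : ℝ → ℝ} (hu : ContDiff ℝ ∞ u) (i : Fin 3) :
    ContDiff ℝ ∞ fun x : E3 => u (x i) :=
  hu.comp (p4_pr i).contDiff

theorem p4_tp_contDiff {u v w : ℝ → ℝ} (hu : ContDiff ℝ ∞ u) (hv : ContDiff ℝ ∞ v)
    (hw : ContDiff ℝ ∞ w) : ContDiff ℝ ∞ (p4_tp u v w) :=
  ((p4_coord_contDiff hu 0).mul (p4_coord_contDiff hv 1)).mul (p4_coord_contDiff hw 2)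

theorem p4_hasFDerivAt_coord {u : ℝ → ℝ} (hu : ContDiff ℝ ∞ u) (i : Fin 3) (x : E3) :
    HasFDerivAt (fun y : E3 => u (y i))
      (deriv u (x i) • (p4_pr i)) x := by
  have h1 : HasDerivAt u (deriv u (x i)) (x i) :=
    ((hu.differentiable (by simp)) (x i)).hasDerivAt
  exact h1.comp_hasFDerivAt x
    (p4_pr i).hasFDerivAt

theorem p4_pd_tp {u v w : ℝ → ℝ} (hu : ContDiff ℝ ∞ u) (hv : ContDiff ℝ ∞ v)
    (hw : ContDiff ℝ ∞ w) (j : Fin 3) (x : E3) :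
    pd j (p4_tp u v w) x = (if j = 0 then deriv u (x 0) * v (x 1) * w (x 2) else 0)
      + (if j = 1 then u (x 0) * deriv v (x 1) * w (x 2) else 0)
      + (if j = 2 then u (x 0) * v (x 1) * deriv w (x 2) else 0) := by
  have h := ((p4_hasFDerivAt_coord hu 0 x).mul (p4_hasFDerivAt_coord hv 1 x)).mul
    (p4_hasFDerivAt_coord hw 2 x)
  have h2 : HasFDerivAt (p4_tp u v w) _ x := h
  unfold pd
  rw [h2.fderiv]
  fin_cases j <;> simp <;> ring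

theorem p4_pd0 {u v w : ℝ → ℝ} (hu : ContDiff ℝ ∞ u) (hv : ContDiff ℝ ∞ v)
    (hw : ContDiff ℝ ∞ w) : pd 0 (p4_tp u v w) = p4_tp (deriv u) v w := by
  funext x
  rw [p4_pd_tp hu hv hw]
  simp [p4_tp]

theorem p4_pd1 {u v w : ℝ → ℝ} (hu : ContDiff ℝ ∞ u) (hv : ContDiff ℝ ∞ v)
    (hw : ContDiff ℝ ∞ w) : pd 1 (p4_tp u v w) = p4_tp u (deriv v) w := by
  funext x
  rw [p4_pd_tp hu hv hw]
  simp [p4_tp]

theorem p4_pd2 {u v w : ℝ → ℝ} (hu : ContDiff ℝ ∞ u) (hv : ContDiff ℝ ∞ v)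
    (hw : ContDiff ℝ ∞ w) : pd 2 (p4_tp u v w) = p4_tp u v (deriv w) := by
  funext x
  rw [p4_pd_tp hu hv hw]
  simp [p4_tp]

theorem p4_deriv_s {u : ℝ → ℝ} (hu : ContDiff ℝ ∞ u) : ContDiff ℝ ∞ (deriv u) := by
  have h := (contDiff_infty_iff_deriv (f := u)).1 hu
  exact h.2

/-- the Hessian of a product of functions of one variable -/
theorem p4_hs_tp {u v w : ℝ → ℝ} (hu : ContDiff ℝ ∞ u) (hv : ContDiff ℝ ∞ v)
    (hw : ContDiff ℝ ∞ w) (x : E3) :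
    hs (p4_tp u v w) x 0 0 = p4_tp (deriv (deriv u)) v w x ∧
    hs (p4_tp u v w) x 1 1 = p4_tp u (deriv (deriv v)) w x ∧
    hs (p4_tp u v w) x 2 2 = p4_tp u v (deriv (deriv w)) x ∧
    hs (p4_tp u v w) x 0 1 = p4_tp (deriv u) (deriv v) w x ∧
    hs (p4_tp u v w) x 0 2 = p4_tp (deriv u) v (deriv w) x ∧
    hs (p4_tp u v w) x 1 2 = p4_tp u (deriv v) (deriv w) x := by
  have hu' := p4_deriv_s hu
  have hv' := p4_deriv_s hv
  have hw' := p4_deriv_s hw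
  refine ⟨?_, ?_, ?_, ?_, ?_, ?_⟩
  · unfold hs; rw [p4_pd0 hu hv hw, p4_pd0 hu' hv hw]
  · unfold hs; rw [p4_pd1 hu hv hw, p4_pd1 hu hv' hw]
  · unfold hs; rw [p4_pd2 hu hv hw, p4_pd2 hu hv hw']
  · unfold hs; rw [p4_pd1 hu hv hw, p4_pd0 hu hv' hw]
  · unfold hs; rw [p4_pd2 hu hv hw, p4_pd0 hu hv hw']
  · unfold hs; rw [p4_pd2 hu hv hw, p4_pd1 hu hv hw']

theorem p4_pd_lin {A B : E3 → ℝ} (hA : ContDiff ℝ ∞ A) (hB : ContDiff ℝ ∞ B) (a b : ℝ)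
    (j : Fin 3) : pd j (fun x => a * A x + b * B x) = fun x => a * pd j A x + b * pd j B x := by
  funext x
  have h1 : HasFDerivAt A (fderiv ℝ A x) x := ((hA.differentiable (by simp)) x).hasFDerivAt
  have h2 : HasFDerivAt B (fderiv ℝ B x) x := ((hB.differentiable (by simp)) x).hasFDerivAt
  have h3 := (h1.const_mul a).add (h2.const_mul b)
  unfold pd
  have h4 : HasFDerivAt (fun x => a * A x + b * B x) _ x := h3
  rw [h4.fderiv]
  simp

theorem p4_pd_s {A : E3 → ℝ} (hA : ContDiff ℝ ∞ A) (j : Fin 3) : ContDiff ℝ ∞ (pd j A) := by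
  have h : ContDiff ℝ ∞ (fderiv ℝ A) := hA.fderiv_right (by simp)
  exact h.clm_apply contDiff_const

theorem p4_hs_lin {A B : E3 → ℝ} (hA : ContDiff ℝ ∞ A) (hB : ContDiff ℝ ∞ B) (a b : ℝ)
    (x : E3) (i j : Fin 3) :
    hs (fun x => a * A x + b * B x) x i j = a * hs A x i j + b * hs B x i j := by
  unfold hs
  rw [p4_pd_lin hA hB a b j, p4_pd_lin (p4_pd_s hA j) (p4_pd_s hB j) a b i]

theorem p4_lin_s {A B : E3 → ℝ} (hA : ContDiff ℝ ∞ A) (hB : ContDiff ℝ ∞ B) (a b : ℝ) :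
    ContDiff ℝ ∞ fun x => a * A x + b * B x :=
  (contDiff_const.mul hA).add (contDiff_const.mul hB)

/-! ### functions of one variable -/

/-- smooth and periodic -/
def p4_SP (k : ℕ) (f : ℝ → ℝ) : Prop := ContDiff ℝ ∞ f ∧ ∀ x, f (x + 4 * k) = f x

theorem p4_SP_deriv {k : ℕ} {f : ℝ → ℝ} (h : p4_SP k f) : p4_SP k (deriv f) := by
  refine ⟨p4_deriv_s h.1, fun x => ?_⟩
  have h1 : (fun y => f (y + 4 * k)) = f := funext h.2
  have h2 := congrFun (congrArg deriv h1) x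
  rw [← h2, deriv_comp_add_const]

theorem p4_SP_int {k : ℕ} {f : ℝ → ℝ} (h : p4_SP k f) (n : ℤ) (x : ℝ) :
    f (x - 4 * k * n) = f x := by
  have h1 : Function.Periodic f (4 * k) := h.2
  have h2 := h1.sub_zsmul_eq n (x := x)
  rw [← h2]
  congr 1
  simp [mul_comm]

theorem p4_SP_xi {k : ℕ} {f : ℝ → ℝ} (h : p4_SP k f) (x : ℝ) : f (xi (4 * k) x) = f x := by
  unfold xi
  exact p4_SP_int h _ x

theorem p4_deriv_eq {f g : ℝ → ℝ} (hf : ContDiff ℝ ∞ f) (hg : ContDiff ℝ ∞ g) {a b : ℝ}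
    (hab : a < b) (h : ∀ x, a ≤ x → x ≤ b → f x = g x) (x : ℝ) (h1 : a ≤ x) (h2 : x ≤ b) :
    deriv f x = deriv g x := by
  have hu : UniqueDiffWithinAt ℝ (Set.Icc a b) x := uniqueDiffOn_Icc hab x ⟨h1, h2⟩
  have e1 := ((hf.differentiable (by simp)) x).derivWithin hu
  have e2 := ((hg.differentiable (by simp)) x).derivWithin hu
  rw [← e1, ← e2]
  exact derivWithin_congr (fun y hy => h y hy.1 hy.2) (h x h1 h2)

/-- vanishing on `[a,b]` -/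
theorem p4_deriv_const {f : ℝ → ℝ} (hf : ContDiff ℝ ∞ f) {a b c : ℝ}
    (hab : a < b) (h : ∀ x, a ≤ x → x ≤ b → f x = c) (x : ℝ) (h1 : a ≤ x) (h2 : x ≤ b) :
    deriv f x = 0 := by
  rw [p4_deriv_eq hf (contDiff_const (c := c)) hab h x h1 h2]
  simp

/-- Outside of the walls a point is equivalent to a point of `[5, 4 k - 5]`. -/
theorem p4_far_rep {k : ℕ} (hk : 0 < k) {t : ℝ} (h : 5 ≤ |xi (4 * k) t|) :
    ∃ n : ℤ, 5 ≤ t - 4 * k * n ∧ t - 4 * k * n ≤ 4 * k - 5 := by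
  have hk' : (0 : ℝ) < k := by exact_mod_cast hk
  have h1 : |t / (4 * k) - round (t / (4 * k))| ≤ 1 / 2 := abs_sub_round _
  have h2 : |xi (4 * k) t| ≤ 2 * k := by
    have e : xi (4 * k) t = (4 * k) * (t / (4 * k) - round (t / (4 * k))) := by
      unfold xi
      field_simp
    rw [e, abs_mul, abs_of_pos (by positivity : (0 : ℝ) < 4 * k)]
    nlinarith
  have h3 : (3 : ℝ) ≤ k := by
    have : (2 : ℝ) < k := by linarith
    have : 2 < k := by exact_mod_cast this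
    have : 3 ≤ k := this
    exact_mod_cast this
  rcases le_total 0 (xi (4 * k) t) with h0 | h0
  · rw [abs_of_nonneg h0] at h h2
    refine ⟨round (t / (4 * k)), ?_, ?_⟩
    · exact h
    · have : t - 4 * k * round (t / (4 * k)) = xi (4 * k) t := rfl
      rw [this]; linarith
  · rw [abs_of_nonpos h0] at h h2
    have e : t - 4 * k * ((round (t / (4 * k)) - 1 : ℤ) : ℝ) = xi (4 * k) t + 4 * k := by
      unfold xi
      push_cast
      ring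
    refine ⟨round (t / (4 * k)) - 1, ?_, ?_⟩
    · rw [e]; linarith
    · rw [e]; linarith

section

variable {k : ℕ} {C : ℝ} (P : Prof k C)

theorem p4_th : p4_SP k P.th := ⟨P.th_s, fun x => (P.per x).1⟩
theorem p4_W : p4_SP k P.W := ⟨P.W_s, fun x => (P.per x).2.1⟩
theorem p4_K : p4_SP k P.K := ⟨P.K_s, fun x => (P.per x).2.2.1⟩
theorem p4_Kb : p4_SP k P.Kb := ⟨P.Kb_s, fun x => (P.per x).2.2.2⟩

theorem p4_near_th (t : ℝ) (h : |xi (4 * k) t| ≤ 3) :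
    P.th t = 1 ∧ deriv P.th t = 0 ∧ deriv (deriv P.th) t = 0 := by
  have h' := abs_le.1 h
  have e0 : ∀ x, (-3 : ℝ) ≤ x → x ≤ 3 → P.th x = 1 := fun x h1 h2 =>
    (P.near x (abs_le.2 ⟨h1, h2⟩)).1
  have e1 := p4_deriv_const P.th_s (by norm_num) e0
  have e2 := p4_deriv_const (p4_deriv_s P.th_s) (by norm_num) e1
  refine ⟨?_, ?_, ?_⟩
  · rw [← p4_SP_xi (p4_th P)]; exact e0 _ h'.1 h'.2
  · rw [← p4_SP_xi (p4_SP_deriv (p4_th P))]; exact e1 _ h'.1 h'.2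
  · rw [← p4_SP_xi (p4_SP_deriv (p4_SP_deriv (p4_th P)))]; exact e2 _ h'.1 h'.2

theorem p4_near_K (t : ℝ) (h : |xi (4 * k) t| ≤ 3) :
    P.K t = 0 ∧ deriv P.K t = 0 ∧ deriv (deriv P.K) t = 0 := by
  have h' := abs_le.1 h
  have e0 : ∀ x, (-3 : ℝ) ≤ x → x ≤ 3 → P.K x = 0 := fun x h1 h2 =>
    (P.near x (abs_le.2 ⟨h1, h2⟩)).2.2.1
  have e1 := p4_deriv_const P.K_s (by norm_num) e0
  have e2 := p4_deriv_const (p4_deriv_s P.K_s) (by norm_num) e1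
  refine ⟨?_, ?_, ?_⟩
  · rw [← p4_SP_xi (p4_K P)]; exact e0 _ h'.1 h'.2
  · rw [← p4_SP_xi (p4_SP_deriv (p4_K P))]; exact e1 _ h'.1 h'.2
  · rw [← p4_SP_xi (p4_SP_deriv (p4_SP_deriv (p4_K P)))]; exact e2 _ h'.1 h'.2

theorem p4_near_Kb (t : ℝ) (h : |xi (4 * k) t| ≤ 3) :
    P.Kb t = 0 ∧ deriv P.Kb t = 0 ∧ deriv (deriv P.Kb) t = 0 ∧
      deriv (deriv (deriv P.Kb)) t = 0 := by
  have h' := abs_le.1 h
  have e0 : ∀ x, (-3 : ℝ) ≤ x → x ≤ 3 → P.Kb x = 0 := fun x h1 h2 =>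
    (P.near x (abs_le.2 ⟨h1, h2⟩)).2.2.2
  have e1 := p4_deriv_const P.Kb_s (by norm_num) e0
  have e2 := p4_deriv_const (p4_deriv_s P.Kb_s) (by norm_num) e1
  have e3 := p4_deriv_const (p4_deriv_s (p4_deriv_s P.Kb_s)) (by norm_num) e2
  refine ⟨?_, ?_, ?_, ?_⟩
  · rw [← p4_SP_xi (p4_Kb P)]; exact e0 _ h'.1 h'.2
  · rw [← p4_SP_xi (p4_SP_deriv (p4_Kb P))]; exact e1 _ h'.1 h'.2
  · rw [← p4_SP_xi (p4_SP_deriv (p4_SP_deriv (p4_Kb P)))]; exact e2 _ h'.1 h'.2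
  · rw [← p4_SP_xi (p4_SP_deriv (p4_SP_deriv (p4_SP_deriv (p4_Kb P))))]; exact e3 _ h'.1 h'.2

theorem p4_near_W (t : ℝ) (h : |xi (4 * k) t| ≤ 3) :
    deriv P.W t = xi (4 * k) t ∧ deriv (deriv P.W) t = 1 ∧
      deriv (deriv (deriv P.W)) t = 0 := by
  have h' := abs_le.1 h
  have e0 : ∀ x, (-3 : ℝ) ≤ x → x ≤ 3 → P.W x = x ^ 2 / 2 := fun x h1 h2 =>
    (P.near x (abs_le.2 ⟨h1, h2⟩)).2.1
  have e1 : ∀ x, (-3 : ℝ) ≤ x → x ≤ 3 → deriv P.W x = x := fun x h1 h2 => by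
    rw [p4_deriv_eq P.W_s (by fun_prop) (by norm_num) e0 x h1 h2]
    simp
  have e2 : ∀ x, (-3 : ℝ) ≤ x → x ≤ 3 → deriv (deriv P.W) x = 1 := fun x h1 h2 => by
    rw [p4_deriv_eq (p4_deriv_s P.W_s) contDiff_id (by norm_num) e1 x h1 h2]
    simp
  have e3 := p4_deriv_const (p4_deriv_s (p4_deriv_s P.W_s)) (by norm_num) e2
  refine ⟨?_, ?_, ?_⟩
  · rw [← p4_SP_xi (p4_SP_deriv (p4_W P))]; exact e1 _ h'.1 h'.2
  · rw [← p4_SP_xi (p4_SP_deriv (p4_SP_deriv (p4_W P)))]; exact e2 _ h'.1 h'.2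
  · rw [← p4_SP_xi (p4_SP_deriv (p4_SP_deriv (p4_SP_deriv (p4_W P))))]; exact e3 _ h'.1 h'.2

theorem p4_far (hk : 0 < k) (t : ℝ) (h : 5 ≤ |xi (4 * k) t|) :
    P.th t = 0 ∧ deriv P.th t = 0 ∧ deriv (deriv P.th) t = 0 ∧
    P.W t = 0 ∧ deriv P.W t = 0 ∧ deriv (deriv P.W) t = 0 ∧
      deriv (deriv (deriv P.W)) t = 0 := by
  obtain ⟨n, h1, h2⟩ := p4_far_rep hk h
  have hlt : (5 : ℝ) < 4 * k - 5 := by
    by_contra hcon
    push Not at hcon
    have h3 : (4 : ℝ) * k ≤ 10 := by linarith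
    have h4 : (10 : ℝ) ≤ 4 * k := by linarith
    have h5 : ((4 * k : ℕ) : ℝ) = ((10 : ℕ) : ℝ) := by push_cast; linarith
    have h6 : 4 * k = 10 := by exact_mod_cast h5
    omega
  have a0 : ∀ x, (5 : ℝ) ≤ x → x ≤ 4 * k - 5 → P.th x = 0 := fun x h1 h2 => (P.far x h1 h2).1
  have a1 := p4_deriv_const P.th_s hlt a0
  have a2 := p4_deriv_const (p4_deriv_s P.th_s) hlt a1
  have b0 : ∀ x, (5 : ℝ) ≤ x → x ≤ 4 * k - 5 → P.W x = 0 := fun x h1 h2 => (P.far x h1 h2).2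
  have b1 := p4_deriv_const P.W_s hlt b0
  have b2 := p4_deriv_const (p4_deriv_s P.W_s) hlt b1
  have b3 := p4_deriv_const (p4_deriv_s (p4_deriv_s P.W_s)) hlt b2
  have T1 := p4_SP_deriv (p4_th P)
  have T2 := p4_SP_deriv T1
  have W1 := p4_SP_deriv (p4_W P)
  have W2 := p4_SP_deriv W1
  have W3 := p4_SP_deriv W2
  refine ⟨?_, ?_, ?_, ?_, ?_, ?_, ?_⟩
  · rw [← p4_SP_int (p4_th P) n]; exact a0 _ h1 h2
  · rw [← p4_SP_int T1 n]; exact a1 _ h1 h2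
  · rw [← p4_SP_int T2 n]; exact a2 _ h1 h2
  · rw [← p4_SP_int (p4_W P) n]; exact b0 _ h1 h2
  · rw [← p4_SP_int W1 n]; exact b1 _ h1 h2
  · rw [← p4_SP_int W2 n]; exact b2 _ h1 h2
  · rw [← p4_SP_int W3 n]; exact b3 _ h1 h2

/-- `pg'` -/
theorem p4_pg' (t : ℝ) :
    deriv (pg k) t = -(deriv (deriv (deriv P.W)) t) - deriv (deriv (deriv P.Kb)) t := by
  have e : pg k = fun x => 1 - deriv (deriv P.W) x - deriv (deriv P.Kb) x := by
    funext x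
    have h := P.Kb2 x
    rw [iteratedDeriv_succ, iteratedDeriv_one, iteratedDeriv_succ, iteratedDeriv_one] at h
    linarith
  have h1 : HasDerivAt (deriv (deriv P.W)) (deriv (deriv (deriv P.W)) t) t :=
    (((p4_deriv_s (p4_deriv_s P.W_s)).differentiable (by simp)) t).hasDerivAt
  have h2 : HasDerivAt (deriv (deriv P.Kb)) (deriv (deriv (deriv P.Kb)) t) t :=
    (((p4_deriv_s (p4_deriv_s P.Kb_s)).differentiable (by simp)) t).hasDerivAt
  have h3 : HasDerivAt (fun x => 1 - deriv (deriv P.W) x - deriv (deriv P.Kb) x) _ t :=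
    (h1.const_sub 1).sub h2
  rw [e, h3.deriv]

theorem p4_pg (t : ℝ) : pg k t = 1 - deriv (deriv P.W) t - deriv (deriv P.Kb) t := by
  have h := P.Kb2 t
  rw [iteratedDeriv_succ, iteratedDeriv_one, iteratedDeriv_succ, iteratedDeriv_one] at h
  linarith

theorem p4_pp (t : ℝ) : pp k t = 1 - deriv (deriv P.W) t - deriv (deriv P.K) t := by
  have h := P.K2 t
  rw [iteratedDeriv_succ, iteratedDeriv_one, iteratedDeriv_succ, iteratedDeriv_one] at h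
  linarith

end

/-! ### the potentials -/

section

variable {k : ℕ} {C : ℝ} (P : Prof k C)

/-- first potential -/
noncomputable def Apot (x : E3) : ℝ :=
  (x 2) ^ 2 / 2 - P.W (x 2) - (1 - (1 - P.th (x 0)) * (1 - P.th (x 1))) * P.K (x 2)

/-- second potential -/
noncomputable def phip (β τ : ℝ) (x : E3) : ℝ :=
  -β * ((x 1) ^ 2 / 2 - P.W (x 1) - P.th (x 0) * P.Kb (x 1))
    + β * ((x 0) ^ 2 / 2 - P.W (x 0) - P.th (x 1) * P.Kb (x 0))
    - τ * (x 0 * x 1 - deriv P.W (x 0) * deriv P.W (x 1) - deriv P.W (x 1) * deriv P.Kb (x 0)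
      - deriv P.W (x 0) * deriv P.Kb (x 1))

/-- the base stress field -/
noncomputable def FF (β τ : ℝ) (x : E3) : M3 := cof (Apot P) (phip P β τ) x

/-- constant one -/
def p4_one (_ : ℝ) : ℝ := 1

theorem p4_one_s : ContDiff ℝ ∞ p4_one := contDiff_const

theorem p4_one' : deriv p4_one = fun _ => 0 := by
  funext x
  exact deriv_const x 1

/-- `t ^ 2 / 2 - W t` -/
noncomputable def p4_q (t : ℝ) : ℝ := t ^ 2 / 2 - P.W t

/-- `1 - th t` -/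
noncomputable def p4_c (t : ℝ) : ℝ := 1 - P.th t

/-- the identity -/
def p4_id (t : ℝ) : ℝ := t

theorem p4_id_s : ContDiff ℝ ∞ p4_id := contDiff_id

theorem p4_id' : deriv p4_id = p4_one := by
  funext x
  exact deriv_id x

theorem p4_q_s : ContDiff ℝ ∞ (p4_q P) :=
  (by fun_prop : ContDiff ℝ ∞ fun t : ℝ => t ^ 2 / 2).sub P.W_s

theorem p4_c_s : ContDiff ℝ ∞ (p4_c P) := contDiff_const.sub P.th_s

theorem p4_q' : deriv (p4_q P) = fun t => t - deriv P.W t := by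
  funext t
  have h1 : HasDerivAt P.W (deriv P.W t) t := ((P.W_s.differentiable (by simp)) t).hasDerivAt
  have h2 : HasDerivAt (fun t : ℝ => t ^ 2 / 2) t t := by
    have h := ((hasDerivAt_id t).pow 2).div_const 2
    simpa using h
  exact (h2.sub h1).deriv

theorem p4_q'' : deriv (fun t => t - deriv P.W t) = fun t => 1 - deriv (deriv P.W) t := by
  funext t
  have h1 : HasDerivAt (deriv P.W) (deriv (deriv P.W) t) t :=
    (((p4_deriv_s P.W_s).differentiable (by simp)) t).hasDerivAt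
  exact ((hasDerivAt_id t).sub h1).deriv

theorem p4_c' : deriv (p4_c P) = fun t => -deriv P.th t := by
  funext t
  have h1 : HasDerivAt P.th (deriv P.th t) t := ((P.th_s.differentiable (by simp)) t).hasDerivAt
  exact (h1.const_sub 1).deriv

theorem p4_c'' : deriv (fun t => -deriv P.th t) = fun t => -deriv (deriv P.th) t := by
  funext t
  have h1 : HasDerivAt (deriv P.th) (deriv (deriv P.th) t) t :=
    (((p4_deriv_s P.th_s).differentiable (by simp)) t).hasDerivAt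
  exact h1.neg.deriv

theorem p4_Apot_eq : Apot P = fun x => 1 * (fun x => 1 * p4_tp p4_one p4_one (p4_q P) x
    + (-1) * p4_tp p4_one p4_one P.K x) x + 1 * p4_tp (p4_c P) (p4_c P) P.K x := by
  funext x
  simp only [Apot, p4_tp, p4_one, p4_q, p4_c]
  ring

theorem p4_phip_eq (β τ : ℝ) : phip P β τ = fun x =>
    1 * (fun x => β * (fun x => 1 * (fun x => 1 * p4_tp (p4_q P) p4_one p4_one x
      + (-1) * p4_tp P.Kb P.th p4_one x) x + (-1) * (fun x => 1 * p4_tp p4_one (p4_q P) p4_one x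
      + (-1) * p4_tp P.th P.Kb p4_one x) x) x
    + (-τ) * (fun x => 1 * p4_tp p4_id p4_id p4_one x
      + (-1) * p4_tp (deriv P.W) (deriv P.W) p4_one x) x) x
    + τ * (fun x => 1 * p4_tp (deriv P.Kb) (deriv P.W) p4_one x
      + 1 * p4_tp (deriv P.W) (deriv P.Kb) p4_one x) x := by
  funext x
  simp only [phip, p4_tp, p4_one, p4_q, p4_id]
  ring

theorem Apot_contDiff : ContDiff ℝ ∞ (Apot P) := by
  rw [p4_Apot_eq]
  exact p4_lin_s (p4_lin_s (p4_tp_contDiff p4_one_s p4_one_s (p4_q_s P))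
    (p4_tp_contDiff p4_one_s p4_one_s P.K_s) _ _)
    (p4_tp_contDiff (p4_c_s P) (p4_c_s P) P.K_s) _ _

theorem phip_contDiff (β τ : ℝ) : ContDiff ℝ ∞ (phip P β τ) := by
  rw [p4_phip_eq]
  have W1 := p4_deriv_s P.W_s
  have B1 := p4_deriv_s P.Kb_s
  exact p4_lin_s (p4_lin_s (p4_lin_s (p4_lin_s (p4_tp_contDiff (p4_q_s P) p4_one_s p4_one_s)
    (p4_tp_contDiff P.Kb_s P.th_s p4_one_s) _ _) (p4_lin_s
      (p4_tp_contDiff p4_one_s (p4_q_s P) p4_one_s) (p4_tp_contDiff P.th_s P.Kb_s p4_one_s) _ _)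
      _ _) (p4_lin_s (p4_tp_contDiff p4_id_s p4_id_s p4_one_s) (p4_tp_contDiff W1 W1 p4_one_s)
      _ _) _ _) (p4_lin_s (p4_tp_contDiff B1 W1 p4_one_s) (p4_tp_contDiff W1 B1 p4_one_s) _ _)
      _ _

theorem p4_hs_Apot (x : E3) :
    hs (Apot P) x 0 0 = -deriv (deriv P.th) (x 0) * (1 - P.th (x 1)) * P.K (x 2) ∧
    hs (Apot P) x 1 1 = -(1 - P.th (x 0)) * deriv (deriv P.th) (x 1) * P.K (x 2) ∧
    hs (Apot P) x 2 2 = 1 - deriv (deriv P.W) (x 2)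
      - (1 - (1 - P.th (x 0)) * (1 - P.th (x 1))) * deriv (deriv P.K) (x 2) ∧
    hs (Apot P) x 0 1 = deriv P.th (x 0) * deriv P.th (x 1) * P.K (x 2) ∧
    hs (Apot P) x 0 2 = -deriv P.th (x 0) * (1 - P.th (x 1)) * deriv P.K (x 2) ∧
    hs (Apot P) x 1 2 = -(1 - P.th (x 0)) * deriv P.th (x 1) * deriv P.K (x 2) := by
  have s1 := p4_tp_contDiff p4_one_s p4_one_s (p4_q_s P)
  have s2 := p4_tp_contDiff p4_one_s p4_one_s P.K_s
  have s3 := p4_tp_contDiff (p4_c_s P) (p4_c_s P) P.K_s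
  have h1 := p4_hs_tp p4_one_s p4_one_s (p4_q_s P) x
  have h2 := p4_hs_tp p4_one_s p4_one_s P.K_s x
  have h3 := p4_hs_tp (p4_c_s P) (p4_c_s P) P.K_s x
  obtain ⟨a1, a2, a3, a4, a5, a6⟩ := h1
  obtain ⟨b1, b2, b3, b4, b5, b6⟩ := h2
  obtain ⟨c1, c2, c3, c4, c5, c6⟩ := h3
  have key : ∀ i j, hs (Apot P) x i j = 1 * (1 * hs (p4_tp p4_one p4_one (p4_q P)) x i j
      + (-1) * hs (p4_tp p4_one p4_one P.K) x i j)
      + 1 * hs (p4_tp (p4_c P) (p4_c P) P.K) x i j := by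
    intro i j
    rw [p4_Apot_eq, p4_hs_lin (p4_lin_s s1 s2 _ _) s3, p4_hs_lin s1 s2]
  refine ⟨?_, ?_, ?_, ?_, ?_, ?_⟩
  · rw [key, a1, b1, c1]
    simp only [p4_tp, p4_one', p4_q', p4_q'', p4_c', p4_c'', deriv_const', p4_one, p4_c]; ring
  · rw [key, a2, b2, c2]
    simp only [p4_tp, p4_one', p4_q', p4_q'', p4_c', p4_c'', deriv_const', p4_one, p4_c]; ring
  · rw [key, a3, b3, c3]
    simp only [p4_tp, p4_one', p4_q', p4_q'', p4_c', p4_c'', deriv_const', p4_one, p4_c]; ring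
  · rw [key, a4, b4, c4]
    simp only [p4_tp, p4_one', p4_q', p4_q'', p4_c', p4_c'', deriv_const', p4_one, p4_c]; ring
  · rw [key, a5, b5, c5]
    simp only [p4_tp, p4_one', p4_q', p4_q'', p4_c', p4_c'', deriv_const', p4_one, p4_c]; ring
  · rw [key, a6, b6, c6]
    simp only [p4_tp, p4_one', p4_q', p4_q'', p4_c', p4_c'', deriv_const', p4_one, p4_c]; ring

theorem p4_hs_phip (β τ : ℝ) (x : E3) :
    hs (phip P β τ) x 0 0 = β * (deriv (deriv P.th) (x 0) * P.Kb (x 1)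
      + (1 - deriv (deriv P.W) (x 0) - P.th (x 1) * deriv (deriv P.Kb) (x 0)))
      + τ * (deriv (deriv (deriv P.W)) (x 0) * deriv P.W (x 1)
        + deriv (deriv (deriv P.Kb)) (x 0) * deriv P.W (x 1)
        + deriv (deriv (deriv P.W)) (x 0) * deriv P.Kb (x 1)) ∧
    hs (phip P β τ) x 1 1 = -β * (deriv (deriv P.th) (x 1) * P.Kb (x 0)
      + (1 - deriv (deriv P.W) (x 1) - P.th (x 0) * deriv (deriv P.Kb) (x 1)))
      + τ * (deriv (deriv (deriv P.W)) (x 1) * deriv P.W (x 0)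
        + deriv (deriv (deriv P.Kb)) (x 1) * deriv P.W (x 0)
        + deriv (deriv (deriv P.W)) (x 1) * deriv P.Kb (x 0)) ∧
    hs (phip P β τ) x 2 2 = 0 ∧
    hs (phip P β τ) x 0 1 = β * (deriv P.th (x 0) * deriv P.Kb (x 1)
        - deriv P.th (x 1) * deriv P.Kb (x 0))
      - τ * (1 - deriv (deriv P.W) (x 0) * deriv (deriv P.W) (x 1)
        - deriv (deriv P.W) (x 1) * deriv (deriv P.Kb) (x 0)
        - deriv (deriv P.W) (x 0) * deriv (deriv P.Kb) (x 1)) ∧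
    hs (phip P β τ) x 0 2 = 0 ∧ hs (phip P β τ) x 1 2 = 0 := by
  have W1 := p4_deriv_s P.W_s
  have B1 := p4_deriv_s P.Kb_s
  have s1 := p4_tp_contDiff (p4_q_s P) p4_one_s p4_one_s
  have s2 := p4_tp_contDiff P.Kb_s P.th_s p4_one_s
  have s3 := p4_tp_contDiff p4_one_s (p4_q_s P) p4_one_s
  have s4 := p4_tp_contDiff P.th_s P.Kb_s p4_one_s
  have s5 := p4_tp_contDiff p4_id_s p4_id_s p4_one_s
  have s6 := p4_tp_contDiff W1 W1 p4_one_s
  have s7 := p4_tp_contDiff B1 W1 p4_one_s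
  have s8 := p4_tp_contDiff W1 B1 p4_one_s
  obtain ⟨a1, a2, a3, a4, a5, a6⟩ := p4_hs_tp (p4_q_s P) p4_one_s p4_one_s x
  obtain ⟨b1, b2, b3, b4, b5, b6⟩ := p4_hs_tp P.Kb_s P.th_s p4_one_s x
  obtain ⟨c1, c2, c3, c4, c5, c6⟩ := p4_hs_tp p4_one_s (p4_q_s P) p4_one_s x
  obtain ⟨d1, d2, d3, d4, d5, d6⟩ := p4_hs_tp P.th_s P.Kb_s p4_one_s x
  obtain ⟨e1, e2, e3, e4, e5, e6⟩ := p4_hs_tp p4_id_s p4_id_s p4_one_s x
  obtain ⟨f1, f2, f3, f4, f5, f6⟩ := p4_hs_tp W1 W1 p4_one_s x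
  obtain ⟨g1, g2, g3, g4, g5, g6⟩ := p4_hs_tp B1 W1 p4_one_s x
  obtain ⟨l1, l2, l3, l4, l5, l6⟩ := p4_hs_tp W1 B1 p4_one_s x
  have key : ∀ i j, hs (phip P β τ) x i j =
      1 * (β * (1 * (1 * hs (p4_tp (p4_q P) p4_one p4_one) x i j
      + (-1) * hs (p4_tp P.Kb P.th p4_one) x i j)
      + (-1) * (1 * hs (p4_tp p4_one (p4_q P) p4_one) x i j
      + (-1) * hs (p4_tp P.th P.Kb p4_one) x i j))
    + (-τ) * (1 * hs (p4_tp p4_id p4_id p4_one) x i j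
      + (-1) * hs (p4_tp (deriv P.W) (deriv P.W) p4_one) x i j))
    + τ * (1 * hs (p4_tp (deriv P.Kb) (deriv P.W) p4_one) x i j
      + 1 * hs (p4_tp (deriv P.W) (deriv P.Kb) p4_one) x i j) := by
    intro i j
    rw [p4_phip_eq, p4_hs_lin (p4_lin_s (p4_lin_s (p4_lin_s s1 s2 _ _) (p4_lin_s s3 s4 _ _) _ _)
      (p4_lin_s s5 s6 _ _) _ _) (p4_lin_s s7 s8 _ _),
      p4_hs_lin (p4_lin_s (p4_lin_s s1 s2 _ _) (p4_lin_s s3 s4 _ _) _ _) (p4_lin_s s5 s6 _ _),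
      p4_hs_lin (p4_lin_s s1 s2 _ _) (p4_lin_s s3 s4 _ _), p4_hs_lin s1 s2, p4_hs_lin s3 s4,
      p4_hs_lin s5 s6, p4_hs_lin s7 s8]
  refine ⟨?_, ?_, ?_, ?_, ?_, ?_⟩
  · rw [key, a1, b1, c1, d1, e1, f1, g1, l1]
    simp only [p4_tp, p4_id', p4_one', p4_q', p4_q'', deriv_const', p4_one, p4_id]; ring
  · rw [key, a2, b2, c2, d2, e2, f2, g2, l2]
    simp only [p4_tp, p4_id', p4_one', p4_q', p4_q'', deriv_const', p4_one, p4_id]; ring
  · rw [key, a3, b3, c3, d3, e3, f3, g3, l3]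
    simp only [p4_tp, p4_id', p4_one', p4_q', p4_q'', deriv_const', p4_one, p4_id]; ring
  · rw [key, a4, b4, c4, d4, e4, f4, g4, l4]
    simp only [p4_tp, p4_id', p4_one', p4_q', p4_q'', deriv_const', p4_one, p4_id]; ring
  · rw [key, a5, b5, c5, d5, e5, f5, g5, l5]
    simp only [p4_tp, p4_id', p4_one', p4_q', p4_q'', deriv_const', p4_one, p4_id]; ring
  · rw [key, a6, b6, c6, d6, e6, f6, g6, l6]
    simp only [p4_tp, p4_id', p4_one', p4_q', p4_q'', deriv_const', p4_one, p4_id]; ring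

/-- entries of the stress field -/
theorem p4_FF (β τ : ℝ) (x : E3) : FF P β τ x =
    !![hs (Apot P) x 2 2 * hs (phip P β τ) x 1 1, -(hs (Apot P) x 2 2 * hs (phip P β τ) x 0 1),
        -(hs (Apot P) x 0 2 * hs (phip P β τ) x 1 1)
          + hs (Apot P) x 1 2 * hs (phip P β τ) x 0 1;
      -(hs (Apot P) x 2 2 * hs (phip P β τ) x 0 1), hs (Apot P) x 2 2 * hs (phip P β τ) x 0 0,
        -(hs (Apot P) x 1 2 * hs (phip P β τ) x 0 0)
          + hs (Apot P) x 0 2 * hs (phip P β τ) x 0 1;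
      -(hs (Apot P) x 0 2 * hs (phip P β τ) x 1 1)
          + hs (Apot P) x 1 2 * hs (phip P β τ) x 0 1,
      -(hs (Apot P) x 1 2 * hs (phip P β τ) x 0 0)
          + hs (Apot P) x 0 2 * hs (phip P β τ) x 0 1,
      hs (Apot P) x 0 0 * hs (phip P β τ) x 1 1 + hs (Apot P) x 1 1 * hs (phip P β τ) x 0 0
        - 2 * (hs (Apot P) x 0 1 * hs (phip P β τ) x 0 1)] := by
  obtain ⟨-, -, h1, -, h2, h3⟩ := p4_hs_phip P β τ x
  unfold FF cof
  rw [h1, h2, h3]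
  simp

include P in
theorem p4_pos : 0 < k := by
  rcases Nat.eq_zero_or_pos k with hk | hk
  · exfalso
    have hpp : ∀ x, pp k x = 0 := by
      intro x
      have hm : ∀ i : ℤ, mass k i = 0 := by
        intro i
        unfold mass
        rw [if_neg]
        unfold barIdx
        rw [hk]
        simp
        omega
      unfold pp barfun
      rw [hm, zero_mul]
    have h2 : ∀ x, deriv (deriv P.K) x + deriv (deriv P.W) x = 1 := by
      intro x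
      have h := p4_pp P x
      rw [hpp] at h
      linarith
    have W1 := p4_deriv_s P.W_s
    have K1 := p4_deriv_s P.K_s
    have a1 : ∀ x, HasDerivAt (fun x => deriv P.K x + deriv P.W x - x) 0 x := by
      intro x
      have e1 : HasDerivAt (deriv P.K) (deriv (deriv P.K) x) x :=
        ((K1.differentiable (by simp)) x).hasDerivAt
      have e2 : HasDerivAt (deriv P.W) (deriv (deriv P.W) x) x :=
        ((W1.differentiable (by simp)) x).hasDerivAt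
      have e3 := (e1.add e2).sub (hasDerivAt_id x)
      rw [h2 x, sub_self] at e3
      exact e3
    have a2 : ∀ x, deriv P.K x + deriv P.W x - x = 0 := by
      intro x
      have e := is_const_of_deriv_eq_zero (fun y => (a1 y).differentiableAt)
        (fun y => (a1 y).deriv) x 0
      have z : |xi (4 * k) 0| ≤ 3 := by simp [xi]
      have zz : xi (4 * k) 0 = 0 := by simp [xi]
      rw [e, (p4_near_K P 0 z).2.1, (p4_near_W P 0 z).1, zz]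
      simp
    have a3 : ∀ x, HasDerivAt (fun x => P.K x + P.W x - x ^ 2 / 2) 0 x := by
      intro x
      have e1 : HasDerivAt P.K (deriv P.K x) x := ((P.K_s.differentiable (by simp)) x).hasDerivAt
      have e2 : HasDerivAt P.W (deriv P.W x) x := ((P.W_s.differentiable (by simp)) x).hasDerivAt
      have e4 : HasDerivAt (fun t : ℝ => t ^ 2 / 2) x x := by
        have h := ((hasDerivAt_id x).pow 2).div_const 2
        simpa using h
      have e3 := (e1.add e2).sub e4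
      rw [a2 x] at e3
      exact e3
    have a4 : ∀ x, P.K x + P.W x - x ^ 2 / 2 = 0 := by
      intro x
      have e := is_const_of_deriv_eq_zero (fun y => (a3 y).differentiableAt)
        (fun y => (a3 y).deriv) x 0
      have z := P.near 0 (by simp)
      rw [e, z.2.2.1, z.2.1]
      simp
    have b0 := P.bd 0 (by norm_num)
    simp only [iteratedDeriv_zero] at b0
    have c0 : 0 ≤ C := (abs_nonneg _).trans (b0 0).1
    have b1 := (b0 (2 * (C + 1))).2.1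
    have b2 := (b0 (2 * (C + 1))).2.2.1
    have b3 := a4 (2 * (C + 1))
    have b4 := le_abs_self (P.W (2 * (C + 1)))
    have b5 := le_abs_self (P.K (2 * (C + 1)))
    nlinarith
  · exact hk

theorem FF_per (β τ : ℝ) : PerFun (4 * k) (FF P β τ) := by
  intro i x
  have T1 := p4_SP_deriv (p4_th P)
  have T2 := p4_SP_deriv T1
  have W1 := p4_SP_deriv (p4_W P)
  have W2 := p4_SP_deriv W1
  have W3 := p4_SP_deriv W2
  have K1 := p4_SP_deriv (p4_K P)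
  have K2 := p4_SP_deriv K1
  have B1 := p4_SP_deriv (p4_Kb P)
  have B2 := p4_SP_deriv B1
  have B3 := p4_SP_deriv B2
  have key : ∀ (f : ℝ → ℝ), p4_SP k f → ∀ j : Fin 3,
      f ((x + EuclideanSpace.single i (4 * (k : ℝ))) j) = f (x j) := by
    intro f hf j
    by_cases hij : j = i
    · subst hij
      simp only [PiLp.add_apply, PiLp.single_apply, if_true]
      exact hf.2 _
    · simp only [PiLp.add_apply, PiLp.single_apply, if_neg hij, add_zero]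
  obtain ⟨u1, u2, u3, u4, u5, u6⟩ := p4_hs_Apot P x
  obtain ⟨v1, v2, v3, v4, v5, v6⟩ := p4_hs_phip P β τ x
  obtain ⟨r1, r2, r3, r4, r5, r6⟩ := p4_hs_Apot P (x + EuclideanSpace.single i (4 * (k : ℝ)))
  obtain ⟨s1, s2, s3, s4, s5, s6⟩ := p4_hs_phip P β τ (x + EuclideanSpace.single i (4 * (k : ℝ)))
  rw [p4_FF, p4_FF, u1, u2, u3, u4, u5, u6, v1, v2, v4, r1, r2, r3, r4, r5, r6, s1, s2, s4]
  simp only [key _ (p4_th P), key _ T1, key _ T2, key _ W1, key _ W2, key _ W3,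
    key _ (p4_K P), key _ K1, key _ K2, key _ (p4_Kb P), key _ B1, key _ B2, key _ B3]

theorem FF_bulk (β τ : ℝ) (x : E3) (h : ∀ i, 5 ≤ |xi (4 * k) (x i)|) :
    FF P β τ x = !![-β, τ, 0; τ, β, 0; 0, 0, 0] := by
  have hk := p4_pos P
  obtain ⟨u1, u2, u3, u4, u5, u6⟩ := p4_hs_Apot P x
  obtain ⟨v1, v2, v3, v4, v5, v6⟩ := p4_hs_phip P β τ x
  obtain ⟨a1, a2, a3, a4, a5, a6, a7⟩ := p4_far P hk _ (h 0)
  obtain ⟨b1, b2, b3, b4, b5, b6, b7⟩ := p4_far P hk _ (h 1)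
  obtain ⟨c1, c2, c3, c4, c5, c6, c7⟩ := p4_far P hk _ (h 2)
  rw [p4_FF, u1, u2, u3, u4, u5, u6, v1, v2, v4, a1, a2, a3, a5, a6, a7, b1, b2, b3, b5, b6, b7,
    c6]
  ext i j
  fin_cases i <;> fin_cases j <;> simp

theorem FF_wall0 (β τ : ℝ) (x : E3) (h : |xi (4 * k) (x 0)| < 3) :
    FF P β τ x = pp k (x 2) •
      !![-β * pg k (x 1) - τ * deriv P.W (x 0) * deriv (pg k) (x 1), τ * pg k (x 1), 0;
         τ * pg k (x 1), 0, 0; 0, 0, 0] := by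
  obtain ⟨u1, u2, u3, u4, u5, u6⟩ := p4_hs_Apot P x
  obtain ⟨v1, v2, v3, v4, v5, v6⟩ := p4_hs_phip P β τ x
  obtain ⟨a1, a2, a3⟩ := p4_near_th P _ h.le
  obtain ⟨b1, b2, b3, b4⟩ := p4_near_Kb P _ h.le
  obtain ⟨c1, c2, c3⟩ := p4_near_W P _ h.le
  rw [p4_FF, u1, u2, u3, u4, u5, u6, v1, v2, v4, a1, a2, a3, b1, b2, b3, b4, c2, c3,
    p4_pp P, p4_pg P, p4_pg' P]
  ext i j
  fin_cases i <;> fin_cases j <;> simp [-mul_eq_mul_left_iff] <;> ring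

theorem FF_wall1 (β τ : ℝ) (x : E3) (h : |xi (4 * k) (x 1)| < 3) :
    FF P β τ x = pp k (x 2) •
      !![0, τ * pg k (x 0), 0;
         τ * pg k (x 0), β * pg k (x 0) - τ * deriv P.W (x 1) * deriv (pg k) (x 0), 0;
         0, 0, 0] := by
  obtain ⟨u1, u2, u3, u4, u5, u6⟩ := p4_hs_Apot P x
  obtain ⟨v1, v2, v3, v4, v5, v6⟩ := p4_hs_phip P β τ x
  obtain ⟨a1, a2, a3⟩ := p4_near_th P _ h.le
  obtain ⟨b1, b2, b3, b4⟩ := p4_near_Kb P _ h.le
  obtain ⟨c1, c2, c3⟩ := p4_near_W P _ h.le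
  rw [p4_FF, u1, u2, u3, u4, u5, u6, v1, v2, v4, a1, a2, a3, b1, b2, b3, b4, c2, c3,
    p4_pp P, p4_pg P, p4_pg' P]
  ext i j
  fin_cases i <;> fin_cases j <;> simp [-mul_eq_mul_left_iff] <;> ring

theorem FF_wall2 (β τ : ℝ) (x : E3) (h : |xi (4 * k) (x 2)| < 3) : FF P β τ x = 0 := by
  obtain ⟨u1, u2, u3, u4, u5, u6⟩ := p4_hs_Apot P x
  obtain ⟨a1, a2, a3⟩ := p4_near_K P _ h.le
  obtain ⟨c1, c2, c3⟩ := p4_near_W P _ h.le
  rw [p4_FF, u1, u2, u3, u4, u5, u6, a1, a2, a3, c2]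
  ext i j
  fin_cases i <;> fin_cases j <;> simp

end

/-! ### bounds -/

theorem p4_bmul {a b A B : ℝ} (ha : |a| ≤ A) (hb : |b| ≤ B) : |a * b| ≤ A * B := by
  rw [abs_mul]
  exact mul_le_mul ha hb (abs_nonneg _) ((abs_nonneg _).trans ha)

theorem p4_badd {a b A B : ℝ} (ha : |a| ≤ A) (hb : |b| ≤ B) : |a + b| ≤ A + B :=
  (abs_add_le a b).trans (add_le_add ha hb)

theorem p4_bsub {a b A B : ℝ} (ha : |a| ≤ A) (hb : |b| ≤ B) : |a - b| ≤ A + B :=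
  (abs_sub a b).trans (add_le_add ha hb)

theorem p4_bneg {a A : ℝ} (ha : |a| ≤ A) : |-a| ≤ A := by rwa [abs_neg]

theorem p4_bd {k : ℕ} {C : ℝ} (P : Prof k C) (t : ℝ) :
    |P.th t| ≤ C ∧ |deriv P.th t| ≤ C ∧ |deriv (deriv P.th) t| ≤ C ∧
    |deriv P.W t| ≤ C ∧ |deriv (deriv P.W) t| ≤ C ∧ |deriv (deriv (deriv P.W)) t| ≤ C ∧
    |P.K t| ≤ C ∧ |deriv P.K t| ≤ C ∧ |deriv (deriv P.K) t| ≤ C ∧
    |P.Kb t| ≤ C ∧ |deriv P.Kb t| ≤ C ∧ |deriv (deriv P.Kb) t| ≤ C ∧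
    |deriv (deriv (deriv P.Kb)) t| ≤ C := by
  have b0 := P.bd 0 (by norm_num) t
  have b1 := P.bd 1 (by norm_num) t
  have b2 := P.bd 2 (by norm_num) t
  have b3 := P.bd 3 (by norm_num) t
  have e2 : ∀ f : ℝ → ℝ, iteratedDeriv 2 f = deriv (deriv f) := by
    intro f
    rw [iteratedDeriv_succ, iteratedDeriv_one]
  have e3 : ∀ f : ℝ → ℝ, iteratedDeriv 3 f = deriv (deriv (deriv f)) := by
    intro f
    rw [iteratedDeriv_succ, e2]
  simp only [iteratedDeriv_zero] at b0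
  simp only [iteratedDeriv_one] at b1
  simp only [e2] at b2
  simp only [e3] at b3
  exact ⟨b0.1, b1.1, b2.1, b1.2.1, b2.2.1, b3.2.1, b0.2.2.1, b1.2.2.1, b2.2.2.1, b0.2.2.2,
    b1.2.2.2, b2.2.2.2, b3.2.2.2⟩

theorem p4_bd_Apot {k : ℕ} {C : ℝ} (hC : 0 < C) (P : Prof k C) (x : E3) :
    |hs (Apot P) x 0 0| ≤ (1 + C) ^ 3 ∧ |hs (Apot P) x 1 1| ≤ (1 + C) ^ 3 ∧
    |hs (Apot P) x 2 2| ≤ (1 + C) ^ 3 ∧ |hs (Apot P) x 0 1| ≤ (1 + C) ^ 3 ∧
    |hs (Apot P) x 0 2| ≤ (1 + C) ^ 3 ∧ |hs (Apot P) x 1 2| ≤ (1 + C) ^ 3 := by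
  obtain ⟨u1, u2, u3, u4, u5, u6⟩ := p4_hs_Apot P x
  obtain ⟨a0, a1, a2, -, -, -, -, -, -, -, -, -, -⟩ := p4_bd P (x 0)
  obtain ⟨b0, b1, b2, -, -, -, -, -, -, -, -, -, -⟩ := p4_bd P (x 1)
  obtain ⟨-, -, -, w1, w2, w3, k0, k1, k2, -, -, -, -⟩ := p4_bd P (x 2)
  have one : |(1 : ℝ)| ≤ 1 := by simp
  have a0' := p4_bsub one a0
  have b0' := p4_bsub one b0
  rw [u1, u2, u3, u4, u5, u6]
  refine ⟨?_, ?_, ?_, ?_, ?_, ?_⟩
  · refine (p4_bmul (p4_bmul (p4_bneg a2) b0') k0).trans ?_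
    nlinarith [mul_pos hC hC]
  · refine (p4_bmul (p4_bmul (p4_bneg a0') b2) k0).trans ?_
    nlinarith [mul_pos hC hC]
  · refine (p4_bsub (p4_bsub one w2) (p4_bmul (p4_bsub one (p4_bmul a0' b0')) k2)).trans ?_
    nlinarith [mul_pos hC hC]
  · refine (p4_bmul (p4_bmul a1 b1) k0).trans ?_
    nlinarith [mul_pos hC hC, mul_pos hC (mul_pos hC hC)]
  · refine (p4_bmul (p4_bmul (p4_bneg a1) b0') k1).trans ?_
    nlinarith [mul_pos hC hC]
  · refine (p4_bmul (p4_bmul (p4_bneg a0') b1) k1).trans ?_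
    nlinarith [mul_pos hC hC]

theorem p4_bd_phip {k : ℕ} {C : ℝ} (hC : 0 < C) (P : Prof k C) (β τ : ℝ) (x : E3) :
    |hs (phip P β τ) x 0 0| ≤ 3 * (1 + C) ^ 2 * (|β| + |τ|) ∧
    |hs (phip P β τ) x 1 1| ≤ 3 * (1 + C) ^ 2 * (|β| + |τ|) ∧
    |hs (phip P β τ) x 0 1| ≤ 3 * (1 + C) ^ 2 * (|β| + |τ|) := by
  obtain ⟨v1, v2, v3, v4, v5, v6⟩ := p4_hs_phip P β τ x
  obtain ⟨a0, a1, a2, w1, w2, w3, -, -, -, k0, k1, k2, k3⟩ := p4_bd P (x 0)
  obtain ⟨b0, b1, b2, y1, y2, y3, -, -, -, l0, l1, l2, l3⟩ := p4_bd P (x 1)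
  have one : |(1 : ℝ)| ≤ 1 := by simp
  have hβ : |β| ≤ |β| := le_rfl
  have hτ : |τ| ≤ |τ| := le_rfl
  have n1 := abs_nonneg β
  have n2 := abs_nonneg τ
  rw [v1, v2, v4]
  refine ⟨?_, ?_, ?_⟩
  · refine (p4_badd (p4_bmul hβ (p4_badd (p4_bmul a2 l0) (p4_bsub (p4_bsub one w2)
      (p4_bmul b0 k2)))) (p4_bmul hτ (p4_badd (p4_badd (p4_bmul w3 y1) (p4_bmul k3 y1))
      (p4_bmul w3 l1)))).trans ?_
    linarith [mul_nonneg n1 (mul_pos hC hC).le, mul_nonneg n2 (mul_pos hC hC).le,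
      mul_nonneg n1 hC.le, mul_nonneg n2 hC.le]
  · refine (p4_badd (p4_bmul (p4_bneg hβ) (p4_badd (p4_bmul b2 k0) (p4_bsub (p4_bsub one y2)
      (p4_bmul a0 l2)))) (p4_bmul hτ (p4_badd (p4_badd (p4_bmul y3 w1) (p4_bmul l3 w1))
      (p4_bmul y3 k1)))).trans ?_
    linarith [mul_nonneg n1 (mul_pos hC hC).le, mul_nonneg n2 (mul_pos hC hC).le,
      mul_nonneg n1 hC.le, mul_nonneg n2 hC.le]
  · refine (p4_bsub (p4_bmul hβ (p4_bsub (p4_bmul a1 l1) (p4_bmul b1 k1)))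
      (p4_bmul hτ (p4_bsub (p4_bsub (p4_bsub one (p4_bmul w2 y2)) (p4_bmul y2 k2))
        (p4_bmul w2 l2)))).trans ?_
    linarith [mul_nonneg n1 (mul_pos hC hC).le, mul_nonneg n2 (mul_pos hC hC).le,
      mul_nonneg n1 hC.le, mul_nonneg n2 hC.le]

theorem FF_bound (C : ℝ) (hC : 0 < C) : ∃ C' : ℝ, 0 < C' ∧ ∀ (k : ℕ) (P : Prof k C) (β τ : ℝ)
    (x : E3) (i j : Fin 3), |FF P β τ x i j| ≤ C' * (|β| + |τ|) := by
  refine ⟨12 * ((1 + C) ^ 3 * (1 + C) ^ 2), by positivity, ?_⟩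
  intro k P β τ x i j
  obtain ⟨u1, u2, u3, u4, u5, u6⟩ := p4_bd_Apot hC P x
  obtain ⟨v1, v2, v3⟩ := p4_bd_phip hC P β τ x
  have n : 0 ≤ |β| + |τ| := add_nonneg (abs_nonneg _) (abs_nonneg _)
  have n' : 0 ≤ (1 + C) ^ 3 * (3 * (1 + C) ^ 2 * (|β| + |τ|)) := by positivity
  have e : 12 * ((1 + C) ^ 3 * (1 + C) ^ 2) * (|β| + |τ|) =
      4 * ((1 + C) ^ 3 * (3 * (1 + C) ^ 2 * (|β| + |τ|))) := by ring
  rw [e, p4_FF]
  have two : |(2 : ℝ)| ≤ 2 := by simp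
  fin_cases i <;> fin_cases j
  · exact (p4_bmul u3 v2).trans (by linarith)
  · exact (p4_bneg (p4_bmul u3 v3)).trans (by linarith)
  · exact (p4_badd (p4_bneg (p4_bmul u5 v2)) (p4_bmul u6 v3)).trans (by linarith)
  · exact (p4_bneg (p4_bmul u3 v3)).trans (by linarith)
  · exact (p4_bmul u3 v1).trans (by linarith)
  · exact (p4_badd (p4_bneg (p4_bmul u6 v1)) (p4_bmul u5 v3)).trans (by linarith)
  · exact (p4_badd (p4_bneg (p4_bmul u5 v2)) (p4_bmul u6 v3)).trans (by linarith)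
  · exact (p4_badd (p4_bneg (p4_bmul u6 v1)) (p4_bmul u5 v3)).trans (by linarith)
  · exact (p4_bsub (p4_badd (p4_bmul u1 v2) (p4_bmul u2 v1))
      (p4_bmul two (p4_bmul u4 v3))).trans (by linarith)

end Pool.Agent.ShearComposite.D3
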