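import Pool.Agent.ShearComposite3.CellA
import Pool.Agent.ShearComposite3.CellB
import Pool.Agent.ShearComposite3.BaseField

/-!
# Mean values of the base field
-/

set_option autoImplicit false

open MeasureTheory Metric
open scoped ContDiff

namespace Pool.Agent.ShearComposite.D3

/-- `f` is differentiable with partial derivative `f'` in direction `j` -/
def p5_D (j : Fin 3) (f f' : E3 → ℝ) : Prop := Differentiable ℝ f ∧ ∀ x, pd j f x = f' x

theorem p5_congr {j : Fin 3} {f f' g' : E3 → ℝ} (h : p5_D j f f') (e : ∀ x, f' x = g' x) :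
    p5_D j f g' := ⟨h.1, fun x => (h.2 x).trans (e x)⟩

theorem p5_coord (i j : Fin 3) (g : ℝ → ℝ) (hg : Differentiable ℝ g) :
    p5_D j (fun x => g (x i)) (fun x => (if i = j then 1 else 0) * deriv g (x i)) := by
  have h : ∀ x : E3, HasFDerivAt (fun x : E3 => g (x i))
      (deriv g (x i) • (EuclideanSpace.proj i : E3 →L[ℝ] ℝ)) x := by
    intro x
    exact (hg (x i)).hasDerivAt.comp_hasFDerivAt x
      (EuclideanSpace.proj i : E3 →L[ℝ] ℝ).hasFDerivAt
  refine ⟨fun x => (h x).differentiableAt, fun x => ?_⟩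
  unfold pd
  rw [(h x).fderiv]
  by_cases hij : i = j
  · subst hij; simp [ee]
  · simp [ee, hij]

theorem p5_add {j : Fin 3} {f f' g g' : E3 → ℝ} (hf : p5_D j f f') (hg : p5_D j g g') :
    p5_D j (fun x => f x + g x) (fun x => f' x + g' x) := by
  refine ⟨hf.1.add hg.1, fun x => ?_⟩
  beta_reduce
  rw [← hf.2 x, ← hg.2 x]
  unfold pd
  rw [fderiv_fun_add (hf.1 x) (hg.1 x)]
  rfl

theorem p5_sub {j : Fin 3} {f f' g g' : E3 → ℝ} (hf : p5_D j f f') (hg : p5_D j g g') :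
    p5_D j (fun x => f x - g x) (fun x => f' x - g' x) := by
  refine ⟨hf.1.sub hg.1, fun x => ?_⟩
  beta_reduce
  rw [← hf.2 x, ← hg.2 x]
  unfold pd
  rw [fderiv_fun_sub (hf.1 x) (hg.1 x)]
  rfl

theorem p5_mul {j : Fin 3} {f f' g g' : E3 → ℝ} (hf : p5_D j f f') (hg : p5_D j g g') :
    p5_D j (fun x => f x * g x) (fun x => f' x * g x + f x * g' x) := by
  refine ⟨hf.1.mul hg.1, fun x => ?_⟩
  beta_reduce
  rw [← hf.2 x, ← hg.2 x]
  unfold pd
  rw [fderiv_fun_mul (hf.1 x) (hg.1 x)]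
  simp
  ring

theorem p5_const (j : Fin 3) (c : ℝ) : p5_D j (fun _ => c) (fun _ => 0) := by
  refine ⟨differentiable_const c, fun x => ?_⟩
  simp [pd]

theorem p5_deriv {g : ℝ → ℝ} (h : ContDiff ℝ ∞ g) : ContDiff ℝ ∞ (deriv g) :=
  (contDiff_infty_iff_deriv.mp h).2

theorem p5_diff {g : ℝ → ℝ} (h : ContDiff ℝ ∞ g) : Differentiable ℝ g :=
  h.differentiable (by simp)

theorem p5_c (i : Fin 3) {g : ℝ → ℝ} (h : ContDiff ℝ ∞ g) : ContDiff ℝ ∞ fun x : E3 => g (x i) :=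
  h.comp (EuclideanSpace.proj i : E3 →L[ℝ] ℝ).contDiff

theorem p5_dper {g : ℝ → ℝ} {p : ℝ} (h : ∀ x, g (x + p) = g x) (x : ℝ) :
    deriv g (x + p) = deriv g x := by
  have e : (fun x => g (x + p)) = g := funext h
  have := deriv_comp_add_const g p x
  rw [← this, e]

theorem p5_integrable {P : ℝ} {g : E3 → ℝ} (hg : Continuous g) : IntegrableOn g (cell P) := by
  have hb := (isBounded_cell P).isCompact_closure
  exact (hg.continuousOn.integrableOn_compact hb).mono_set subset_closure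

theorem p5_pd_cont {g : E3 → ℝ} (hg : ContDiff ℝ ∞ g) (j : Fin 3) : Continuous (pd j g) := by
  unfold pd
  exact (hg.continuous_fderiv (by simp)).clm_apply continuous_const

theorem p5_int {P : ℝ} (hP : 0 < P) {F G1 G2 : E3 → ℝ} (i j : Fin 3) (h1 : ContDiff ℝ ∞ G1)
    (h2 : ContDiff ℝ ∞ G2) (p1 : PerFun P G1) (p2 : PerFun P G2)
    (h : ∀ x, F x = pd i G1 x - pd j G2 x) : ∫ x in cell P, F x = 0 := by
  simp only [h]
  rw [integral_sub (p5_integrable (p5_pd_cont h1 i)) (p5_integrable (p5_pd_cont h2 j)),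
    integral_pd hP G1 (h1.of_le (by simp)) p1 i, integral_pd hP G2 (h2.of_le (by simp)) p2 j,
    sub_zero]

section

variable {k : ℕ} {C : ℝ} (P : Prof k C)

/-- periodicity of all profile functions with period `8 k` -/
theorem p5_per {g : ℝ → ℝ} (h : ∀ x, g (x + 4 * k) = g x) (x : ℝ) : g (x + 8 * k) = g x := by
  have := h (x + 4 * k)
  rw [show x + 8 * (k : ℝ) = x + 4 * k + 4 * k by ring, this, h]

/-- shifts of functions of one coordinate -/
theorem p5_shift {g : ℝ → ℝ} {p : ℝ} (h : ∀ x, g (x + p) = g x) (i j : Fin 3) (x : E3) :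
    g ((x + EuclideanSpace.single i p) j) = g (x j) := by
  by_cases hij : j = i
  · subst hij; simp [h]
  · simp [hij]

variable (β τ : ℝ)

theorem p5_gen (j : Fin 3) : p5_D j (phip P β τ) (fun x =>
    -β * ((if (1 : Fin 3) = j then 1 else 0) * x 1 -
        (if (1 : Fin 3) = j then 1 else 0) * deriv P.W (x 1) -
        ((if (0 : Fin 3) = j then 1 else 0) * deriv P.th (x 0) * P.Kb (x 1) +
          P.th (x 0) * ((if (1 : Fin 3) = j then 1 else 0) * deriv P.Kb (x 1))))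
    + β * ((if (0 : Fin 3) = j then 1 else 0) * x 0 -
        (if (0 : Fin 3) = j then 1 else 0) * deriv P.W (x 0) -
        ((if (1 : Fin 3) = j then 1 else 0) * deriv P.th (x 1) * P.Kb (x 0) +
          P.th (x 1) * ((if (0 : Fin 3) = j then 1 else 0) * deriv P.Kb (x 0))))
    - τ * (((if (0 : Fin 3) = j then 1 else 0) * x 1 + (if (1 : Fin 3) = j then 1 else 0) * x 0)
        - ((if (0 : Fin 3) = j then 1 else 0) * deriv (deriv P.W) (x 0) * deriv P.W (x 1) +
          deriv P.W (x 0) * ((if (1 : Fin 3) = j then 1 else 0) * deriv (deriv P.W) (x 1)))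
        - ((if (1 : Fin 3) = j then 1 else 0) * deriv (deriv P.W) (x 1) * deriv P.Kb (x 0) +
          deriv P.W (x 1) * ((if (0 : Fin 3) = j then 1 else 0) * deriv (deriv P.Kb) (x 0)))
        - ((if (0 : Fin 3) = j then 1 else 0) * deriv (deriv P.W) (x 0) * deriv P.Kb (x 1) +
          deriv P.W (x 0) * ((if (1 : Fin 3) = j then 1 else 0) * deriv (deriv P.Kb) (x 1))))) := by
  have hW := p5_diff P.W_s
  have hK := p5_diff P.Kb_s
  have ht := p5_diff P.th_s
  have hW1 := p5_diff (p5_deriv P.W_s)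
  have hK1 := p5_diff (p5_deriv P.Kb_s)
  have hsq : Differentiable ℝ fun s : ℝ => s ^ 2 / 2 := by fun_prop
  have hid : Differentiable ℝ fun s : ℝ => s := by fun_prop
  have dsq : ∀ s : ℝ, deriv (fun s : ℝ => s ^ 2 / 2) s = s := by
    intro s; simp
  refine p5_congr (p5_sub (p5_add
    (p5_mul (p5_const j (-β)) (p5_sub (p5_sub (p5_coord 1 j _ hsq) (p5_coord 1 j _ hW))
      (p5_mul (p5_coord 0 j _ ht) (p5_coord 1 j _ hK))))
    (p5_mul (p5_const j β) (p5_sub (p5_sub (p5_coord 0 j _ hsq) (p5_coord 0 j _ hW))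
      (p5_mul (p5_coord 1 j _ ht) (p5_coord 0 j _ hK)))))
    (p5_mul (p5_const j τ) (p5_sub (p5_sub (p5_sub
      (p5_mul (p5_coord 0 j _ hid) (p5_coord 1 j _ hid))
      (p5_mul (p5_coord 0 j _ hW1) (p5_coord 1 j _ hW1)))
      (p5_mul (p5_coord 1 j _ hW1) (p5_coord 0 j _ hK1)))
      (p5_mul (p5_coord 0 j _ hW1) (p5_coord 1 j _ hK1))))) ?_
  intro x
  simp only [dsq, deriv_id'']
  ring

/-- periodic part of the derivative of `phip` in direction `1` -/
noncomputable def p5_G1 (x : E3) : ℝ :=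
  β * (deriv P.W (x 1) + P.th (x 0) * deriv P.Kb (x 1)) - β * (deriv P.th (x 1) * P.Kb (x 0))
    + τ * (deriv P.W (x 0) * deriv (deriv P.W) (x 1) + deriv (deriv P.W) (x 1) * deriv P.Kb (x 0)
      + deriv P.W (x 0) * deriv (deriv P.Kb) (x 1))

/-- periodic part of the derivative of `phip` in direction `0` -/
noncomputable def p5_G0 (x : E3) : ℝ :=
  β * (deriv P.th (x 0) * P.Kb (x 1)) - β * (deriv P.W (x 0) + P.th (x 1) * deriv P.Kb (x 0))
    + τ * (deriv (deriv P.W) (x 0) * deriv P.W (x 1) + deriv P.W (x 1) * deriv (deriv P.Kb) (x 0)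
      + deriv (deriv P.W) (x 0) * deriv P.Kb (x 1))

/-- the function `V` -/
noncomputable def p5_V (x : E3) : ℝ :=
  deriv P.W (x 2) + (1 - (1 - P.th (x 0)) * (1 - P.th (x 1))) * deriv P.K (x 2)

theorem p5_G1_s : ContDiff ℝ ∞ (p5_G1 P β τ) := by
  have a1 := p5_c 1 (p5_deriv P.W_s)
  have a2 := p5_c 0 P.th_s
  have a3 := p5_c 1 (p5_deriv P.Kb_s)
  have a4 := p5_c 1 (p5_deriv P.th_s)
  have a5 := p5_c 0 P.Kb_s
  have a6 := p5_c 0 (p5_deriv P.W_s)
  have a7 := p5_c 1 (p5_deriv (p5_deriv P.W_s))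
  have a8 := p5_c 0 (p5_deriv P.Kb_s)
  have a9 := p5_c 1 (p5_deriv (p5_deriv P.Kb_s))
  exact ((contDiff_const.mul (a1.add (a2.mul a3))).sub (contDiff_const.mul (a4.mul a5))).add
    (contDiff_const.mul (((a6.mul a7).add (a7.mul a8)).add (a6.mul a9)))

theorem p5_G0_s : ContDiff ℝ ∞ (p5_G0 P β τ) := by
  have a1 := p5_c 0 (p5_deriv P.W_s)
  have a2 := p5_c 1 P.th_s
  have a3 := p5_c 0 (p5_deriv P.Kb_s)
  have a4 := p5_c 0 (p5_deriv P.th_s)
  have a5 := p5_c 1 P.Kb_s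
  have a6 := p5_c 1 (p5_deriv P.W_s)
  have a7 := p5_c 0 (p5_deriv (p5_deriv P.W_s))
  have a8 := p5_c 1 (p5_deriv P.Kb_s)
  have a9 := p5_c 0 (p5_deriv (p5_deriv P.Kb_s))
  exact ((contDiff_const.mul (a4.mul a5)).sub (contDiff_const.mul (a1.add (a2.mul a3)))).add
    (contDiff_const.mul (((a7.mul a6).add (a6.mul a9)).add (a7.mul a8)))

theorem p5_V_s : ContDiff ℝ ∞ (p5_V P) := by
  have a1 := p5_c 2 (p5_deriv P.W_s)
  have a2 := p5_c 0 P.th_s
  have a3 := p5_c 1 P.th_s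
  have a4 := p5_c 2 (p5_deriv P.K_s)
  exact a1.add ((contDiff_const.sub ((contDiff_const.sub a2).mul (contDiff_const.sub a3))).mul a4)

theorem p5_perW (x : ℝ) : P.W (x + 8 * k) = P.W x := p5_per (fun x => (P.per x).2.1) x
theorem p5_perth (x : ℝ) : P.th (x + 8 * k) = P.th x := p5_per (fun x => (P.per x).1) x
theorem p5_perK (x : ℝ) : P.K (x + 8 * k) = P.K x := p5_per (fun x => (P.per x).2.2.1) x
theorem p5_perKb (x : ℝ) : P.Kb (x + 8 * k) = P.Kb x := p5_per (fun x => (P.per x).2.2.2) x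

theorem p5_G1_p : PerFun (8 * k) (p5_G1 P β τ) := by
  intro i x
  unfold p5_G1
  rw [p5_shift (p5_dper (p5_perW P)) i 1, p5_shift (p5_dper (p5_perW P)) i 0,
    p5_shift (p5_perth P) i 0, p5_shift (p5_dper (p5_perth P)) i 1,
    p5_shift (p5_perKb P) i 0, p5_shift (p5_dper (p5_perKb P)) i 1,
    p5_shift (p5_dper (p5_perKb P)) i 0, p5_shift (p5_dper (p5_dper (p5_perW P))) i 1,
    p5_shift (p5_dper (p5_dper (p5_perKb P))) i 1]

theorem p5_G0_p : PerFun (8 * k) (p5_G0 P β τ) := by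
  intro i x
  unfold p5_G0
  rw [p5_shift (p5_dper (p5_perW P)) i 1, p5_shift (p5_dper (p5_perW P)) i 0,
    p5_shift (p5_perth P) i 1, p5_shift (p5_dper (p5_perth P)) i 0,
    p5_shift (p5_perKb P) i 1, p5_shift (p5_dper (p5_perKb P)) i 1,
    p5_shift (p5_dper (p5_perKb P)) i 0, p5_shift (p5_dper (p5_dper (p5_perW P))) i 0,
    p5_shift (p5_dper (p5_dper (p5_perKb P))) i 0]

theorem p5_V_p : PerFun (8 * k) (p5_V P) := by
  intro i x
  unfold p5_V
  rw [p5_shift (p5_dper (p5_perW P)) i 2, p5_shift (p5_perth P) i 0, p5_shift (p5_perth P) i 1,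
    p5_shift (p5_dper (p5_perK P)) i 2]

/-- invariance in direction `2` -/
def p5_inv (g : E3 → ℝ) : Prop := ∀ (x : E3) (t : ℝ), g (x + EuclideanSpace.single 2 t) = g x

theorem p5_pd_trans {g : E3 → ℝ} {a : E3} (h : ∀ x, g (x + a) = g x) (j : Fin 3) (x : E3) :
    pd j g (x + a) = pd j g x := by
  unfold pd
  have e : (fun y => g (y + a)) = g := funext h
  rw [← fderiv_comp_add_right, e]

theorem p5_inv_pd {g : E3 → ℝ} (h : p5_inv g) (j : Fin 3) : p5_inv (pd j g) :=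
  fun x t => p5_pd_trans (fun x => h x t) j x

theorem p5_per_pd {g : E3 → ℝ} {p : ℝ} (h : PerFun p g) (j : Fin 3) : PerFun p (pd j g) :=
  fun i x => p5_pd_trans (fun x => h i x) j x

theorem p5_inv_zero {g : E3 → ℝ} (hg : Differentiable ℝ g) (h : p5_inv g) (x : E3) :
    pd 2 g x = 0 := by
  have hc : HasDerivAt (fun t : ℝ => x + t • ee 2) (ee 2) 0 := by
    simpa using ((hasDerivAt_id (0 : ℝ)).smul_const (ee 2)).const_add x
  have h1 : HasFDerivAt g (fderiv ℝ g x) (x + (0 : ℝ) • ee 2) := by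
    rw [zero_smul, add_zero]
    exact (hg x).hasFDerivAt
  have h2 := h1.comp_hasDerivAt (0 : ℝ) hc
  have h3 : (g ∘ fun t : ℝ => x + t • ee 2) = fun _ => g x := by
    funext t
    have : t • ee 2 = (EuclideanSpace.single 2 t : E3) := by
      ext j
      by_cases hj : j = 2
      · subst hj; simp
      · simp [hj]
    simp only [Function.comp, this]
    exact h x t
  rw [h3] at h2
  exact h2.unique (hasDerivAt_const (0 : ℝ) (g x))

theorem p5_G1_inv : p5_inv (p5_G1 P β τ) := by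
  intro x t
  simp [p5_G1]

theorem p5_G0_inv : p5_inv (p5_G0 P β τ) := by
  intro x t
  simp [p5_G0]

theorem p5_phi1 (x : E3) : pd 1 (phip P β τ) x = p5_G1 P β τ x - β * x 1 - τ * x 0 := by
  rw [(p5_gen P β τ 1).2]
  simp [p5_G1]
  ring

theorem p5_phi0 (x : E3) : pd 0 (phip P β τ) x = p5_G0 P β τ x + β * x 0 - τ * x 1 := by
  rw [(p5_gen P β τ 0).2]
  simp [p5_G0]
  ring

theorem p5_phi2 (x : E3) : pd 2 (phip P β τ) x = 0 := by
  rw [(p5_gen P β τ 2).2]
  simp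

theorem p5_hs2 (x : E3) (i : Fin 3) : hs (phip P β τ) x i 2 = 0 := by
  have : pd 2 (phip P β τ) = fun _ => 0 := funext (p5_phi2 P β τ)
  unfold hs
  rw [this]
  simp [pd]

theorem p5_self {g : E3 → ℝ} (hg : ContDiff ℝ ∞ g) (j : Fin 3) : p5_D j g (pd j g) :=
  ⟨hg.differentiable (by simp), fun _ => rfl⟩

theorem p5_lin (i j : Fin 3) : p5_D j (fun x : E3 => x i) (fun _ => if i = j then 1 else 0) := by
  have hid : Differentiable ℝ fun s : ℝ => s := by fun_prop
  refine p5_congr (p5_coord i j _ hid) ?_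
  intro x
  simp

theorem p5_hs1 (x : E3) (i : Fin 3) : hs (phip P β τ) x i 1 = pd i (p5_G1 P β τ) x
    - β * (if (1 : Fin 3) = i then 1 else 0) - τ * (if (0 : Fin 3) = i then 1 else 0) := by
  have e : pd 1 (phip P β τ) = fun x => p5_G1 P β τ x - β * x 1 - τ * x 0 :=
    funext (p5_phi1 P β τ)
  unfold hs
  rw [e]
  have := p5_sub (p5_sub (p5_self (p5_G1_s P β τ) i) (p5_mul (p5_const i β) (p5_lin 1 i)))
    (p5_mul (p5_const i τ) (p5_lin 0 i))
  rw [this.2 x]
  ring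

theorem p5_hs0 (x : E3) (i : Fin 3) : hs (phip P β τ) x i 0 = pd i (p5_G0 P β τ) x
    + β * (if (0 : Fin 3) = i then 1 else 0) - τ * (if (1 : Fin 3) = i then 1 else 0) := by
  have e : pd 0 (phip P β τ) = fun x => p5_G0 P β τ x + β * x 0 - τ * x 1 :=
    funext (p5_phi0 P β τ)
  unfold hs
  rw [e]
  have := p5_sub (p5_add (p5_self (p5_G0_s P β τ) i) (p5_mul (p5_const i β) (p5_lin 0 i)))
    (p5_mul (p5_const i τ) (p5_lin 1 i))
  rw [this.2 x]
  ring

theorem p5_A (x : E3) : hs (Apot P) x 2 2 = 1 - pd 2 (p5_V P) x := by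
  have hW := p5_diff P.W_s
  have hK := p5_diff P.K_s
  have ht := p5_diff P.th_s
  have hW1 := p5_diff (p5_deriv P.W_s)
  have hK1 := p5_diff (p5_deriv P.K_s)
  have hsq : Differentiable ℝ fun s : ℝ => s ^ 2 / 2 := by fun_prop
  have dsq : ∀ s : ℝ, deriv (fun s : ℝ => s ^ 2 / 2) s = s := by
    intro s; simp
  have e : pd 2 (Apot P) = fun x => x 2 - p5_V P x := by
    funext x
    have := p5_sub (p5_sub (p5_coord 2 2 _ hsq) (p5_coord 2 2 _ hW))
      (p5_mul (p5_sub (p5_const 2 1) (p5_mul (p5_sub (p5_const 2 1) (p5_coord 0 2 _ ht))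
        (p5_sub (p5_const 2 1) (p5_coord 1 2 _ ht)))) (p5_coord 2 2 _ hK))
    have h2 := this.2 x
    have h3 : pd 2 (Apot P) x = _ := h2
    rw [h3]
    beta_reduce
    rw [dsq]
    simp [p5_V]
    ring
  unfold hs
  rw [e, (p5_sub (p5_lin 2 2) (p5_self (p5_V_s P) 2)).2 x]
  simp

theorem p5_prod {g : E3 → ℝ} (hg : ContDiff ℝ ∞ g) (hi : p5_inv g) (x : E3) :
    pd 2 (fun x => p5_V P x * g x) x = pd 2 (p5_V P) x * g x := by
  rw [(p5_mul (p5_self (p5_V_s P) 2) (p5_self hg 2)).2 x]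
  beta_reduce
  rw [p5_inv_zero (hg.differentiable (by simp)) hi x]
  ring

theorem p5_pd_s {g : E3 → ℝ} (hg : ContDiff ℝ ∞ g) (j : Fin 3) : ContDiff ℝ ∞ (pd j g) := by
  unfold pd
  exact (hg.fderiv_right (m := ∞) (by simp)).clm_apply contDiff_const

end

theorem FF_mean {k : ℕ} {C : ℝ} (hk : 0 < k) (P : Prof k C) (β τ : ℝ) :
    (∫ x in cell (8 * k), (FF P β τ x 0 0 + β) = 0) ∧
    (∫ x in cell (8 * k), (FF P β τ x 1 1 - β) = 0) ∧
    (∫ x in cell (8 * k), (FF P β τ x 0 1 - τ) = 0) := by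
  have hP : (0 : ℝ) < 8 * k := by
    have : (0 : ℝ) < k := by exact_mod_cast hk
    linarith
  -- smooth, periodic functions which do not depend on the last coordinate
  have key : ∀ (G : E3 → ℝ) (i : Fin 3) (c : ℝ), ContDiff ℝ ∞ G → PerFun (8 * k) G → p5_inv G →
      ContDiff ℝ ∞ (fun x => p5_V P x * (pd i G x - c)) ∧
      PerFun (8 * k) (fun x => p5_V P x * (pd i G x - c)) ∧
      ∀ x, pd 2 (fun x => p5_V P x * (pd i G x - c)) x = pd 2 (p5_V P) x * (pd i G x - c) := by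
    intro G i c h1 h2 h3
    have h4 : ContDiff ℝ ∞ fun x => pd i G x - c := (p5_pd_s h1 i).sub contDiff_const
    refine ⟨(p5_V_s P).mul h4, ?_, fun x => ?_⟩
    · intro j x
      show p5_V P _ * (pd i G _ - c) = _
      rw [p5_V_p P j x, p5_per_pd h2 i j x]
    · refine p5_prod P h4 ?_ x
      intro y t
      show pd i G _ - c = _
      rw [p5_inv_pd h3 i y t]
  have k11 := key _ 1 β (p5_G1_s P β τ) (p5_G1_p P β τ) (p5_G1_inv P β τ)
  have k01 := key _ 0 τ (p5_G1_s P β τ) (p5_G1_p P β τ) (p5_G1_inv P β τ)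
  have k00 := key _ 0 (-β) (p5_G0_s P β τ) (p5_G0_p P β τ) (p5_G0_inv P β τ)
  refine ⟨?_, ?_, ?_⟩
  · refine p5_int hP 1 2 (p5_G1_s P β τ) k11.1 (p5_G1_p P β τ) k11.2.1 fun x => ?_
    rw [k11.2.2 x]
    simp only [FF, cof, Matrix.of_apply, Matrix.cons_val', Matrix.cons_val_zero]
    rw [p5_hs2, p5_hs2, p5_hs1, p5_A]
    simp
    ring
  · refine p5_int hP 0 2 (p5_G0_s P β τ) k00.1 (p5_G0_p P β τ) k00.2.1 fun x => ?_
    rw [k00.2.2 x]
    simp only [FF, cof, Matrix.of_apply, Matrix.cons_val', Matrix.cons_val_one,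
      Matrix.cons_val_zero]
    rw [p5_hs2, p5_hs2, p5_hs0, p5_A]
    simp
    ring
  · refine p5_int hP 2 0 k01.1 (p5_G1_s P β τ) k01.2.1 (p5_G1_p P β τ) fun x => ?_
    rw [k01.2.2 x]
    simp only [FF, cof, Matrix.of_apply, Matrix.cons_val', Matrix.cons_val_one,
      Matrix.cons_val_zero]
    rw [p5_hs2, p5_hs2, p5_hs2, p5_hs1, p5_A]
    simp
    ring

end Pool.Agent.ShearComposite.D3
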