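import Pool.Agent.ShearComposite3.Base3

/-!
# The leaf profile
-/

set_option autoImplicit false

open MeasureTheory Metric
open scoped ContDiff

namespace Pool.Agent.ShearComposite.D3

theorem p2_st_contDiff : ContDiff ℝ ∞ st := by
  unfold st
  exact Real.smoothTransition.contDiff.comp (contDiff_id.add contDiff_const)

theorem p2_b2_contDiff : ContDiff ℝ ∞ b2 := by
  unfold b2
  exact contDiff_id.mul p2_st_contDiff

theorem p2_b2_low {x : ℝ} (h : x ≤ -1 / 2) : b2 x = 0 := by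
  unfold b2 st
  rw [Real.smoothTransition.zero_of_nonpos (by linarith), mul_zero]

theorem p2_b2_high {x : ℝ} (h : 1 / 2 ≤ x) : b2 x = x := by
  unfold b2 st
  rw [Real.smoothTransition.one_of_one_le (by linarith), mul_one]

theorem p2_st_neg (x : ℝ) : st (-x) = 1 - st x := by
  unfold st Real.smoothTransition
  have h1 : 1 - (-x + 1 / 2) = x + 1 / 2 := by ring
  have h2 : 1 - (x + 1 / 2) = -x + 1 / 2 := by ring
  rw [h1, h2]
  have h3 : 0 < expNegInvGlue (x + 1 / 2) + expNegInvGlue (-x + 1 / 2) := by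
    have := Real.smoothTransition.pos_denom (x + 1 / 2)
    rwa [h2] at this
  rw [add_comm (expNegInvGlue (-x + 1 / 2))]
  rw [div_eq_iff h3.ne', sub_mul, one_mul, div_mul_cancel₀ _ h3.ne']
  ring

theorem p2_b2_neg (x : ℝ) : b2 (-x) = b2 x - x := by
  unfold b2
  rw [p2_st_neg]
  ring

/-- the first derivative of `b2` -/
noncomputable def p2_b1 (x : ℝ) : ℝ := deriv b2 x

theorem p2_hasDeriv1 (x : ℝ) : HasDerivAt b2 (p2_b1 x) x :=
  (p2_b2_contDiff.differentiable (by norm_num) x).hasDerivAt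

theorem p2_b1_contDiff : ContDiff ℝ ∞ p2_b1 := by
  have : ContDiff ℝ ∞ (deriv b2) := (contDiff_infty_iff_deriv.1 p2_b2_contDiff).2
  exact this

theorem p2_b0_eq (x : ℝ) : b0 x = deriv p2_b1 x := by
  unfold b0
  rw [iteratedDeriv_succ, iteratedDeriv_one]
  rfl

theorem p2_hasDeriv2 (x : ℝ) : HasDerivAt p2_b1 (b0 x) x := by
  rw [p2_b0_eq]
  exact (p2_b1_contDiff.differentiable (by norm_num) x).hasDerivAt

theorem p2_b0_contDiff : ContDiff ℝ ∞ b0 := by
  have h1 : ContDiff ℝ ∞ (deriv p2_b1) := (contDiff_infty_iff_deriv.1 p2_b1_contDiff).2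
  have h2 : b0 = deriv p2_b1 := funext p2_b0_eq
  rw [h2]
  exact h1

theorem p2_b1_low {x : ℝ} (h : x < -1 / 2) : p2_b1 x = 0 := by
  have h1 : b2 =ᶠ[nhds x] fun _ => 0 := by
    filter_upwards [Iio_mem_nhds h] with y hy
    exact p2_b2_low (le_of_lt hy)
  unfold p2_b1
  rw [h1.deriv_eq]
  simp

theorem p2_b1_high {x : ℝ} (h : 1 / 2 < x) : p2_b1 x = 1 := by
  have h1 : b2 =ᶠ[nhds x] fun y => y := by
    filter_upwards [Ioi_mem_nhds h] with y hy
    exact p2_b2_high (le_of_lt hy)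
  unfold p2_b1
  rw [h1.deriv_eq]
  simp

theorem p2_b1_neg (x : ℝ) : p2_b1 (-x) = 1 - p2_b1 x := by
  have h1 : HasDerivAt (fun y => b2 (-y)) (p2_b1 (-x) * (-1)) x :=
    HasDerivAt.comp x (p2_hasDeriv1 (-x)) (hasDerivAt_neg x)
  have h2 : HasDerivAt (fun y => b2 y - y) (p2_b1 x - 1) x :=
    (p2_hasDeriv1 x).sub (hasDerivAt_id x)
  have h3 : (fun y => b2 (-y)) = fun y => b2 y - y := funext p2_b2_neg
  rw [h3] at h1
  have := h1.unique h2
  linarith

theorem p2_b1_low' {x : ℝ} (h : x ≤ -1 / 2) : p2_b1 x = 0 := by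
  rcases lt_or_eq_of_le h with h | h
  · exact p2_b1_low h
  · have hc : Continuous p2_b1 := p2_b1_contDiff.continuous
    have h1 : Set.EqOn p2_b1 (fun _ => 0) (closure (Set.Iio (-1 / 2))) :=
      Set.EqOn.closure (fun y hy => p2_b1_low hy) hc continuous_const
    rw [closure_Iio] at h1
    exact h1 (by rw [h]; exact Set.self_mem_Iic)

theorem p2_b1_high' {x : ℝ} (h : 1 / 2 ≤ x) : p2_b1 x = 1 := by
  have h1 := p2_b1_neg x
  rw [p2_b1_low' (by linarith)] at h1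
  linarith

theorem p2_b0_zero {x : ℝ} (h : 1 / 2 < |x|) : b0 x = 0 := by
  rcases lt_abs.1 h with h | h
  · have h1 : p2_b1 =ᶠ[nhds x] fun _ => 1 := by
      filter_upwards [Ioi_mem_nhds h] with y hy
      exact p2_b1_high hy
    rw [p2_b0_eq, h1.deriv_eq]
    simp
  · have h0 : x < -1 / 2 := by linarith
    have h1 : p2_b1 =ᶠ[nhds x] fun _ => 0 := by
      filter_upwards [Iio_mem_nhds h0] with y hy
      exact p2_b1_low hy
    rw [p2_b0_eq, h1.deriv_eq]
    simp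

theorem p2_b0_bound : ∃ C : ℝ, 0 < C ∧ ∀ x, |b0 x| ≤ C := by
  obtain ⟨C, hC⟩ := (isCompact_Icc (a := (-1 / 2 : ℝ)) (b := 1 / 2)).exists_bound_of_continuousOn
    (f := b0) p2_b0_contDiff.continuous.continuousOn
  refine ⟨max C 1, lt_max_of_lt_right one_pos, fun x => ?_⟩
  by_cases h : 1 / 2 < |x|
  · rw [p2_b0_zero h, abs_zero]
    exact le_max_of_le_right zero_le_one
  · refine le_max_of_le_left ?_
    have h1 := abs_le.1 (not_lt.1 h)
    exact hC x ⟨by linarith [h1.1], h1.2⟩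

theorem p2_b1_diff (C : ℝ) (hC : ∀ x, |b0 x| ≤ C) (x y : ℝ) :
    |p2_b1 x - p2_b1 y| ≤ C * |x - y| := by
  have h := Convex.norm_image_sub_le_of_norm_hasDerivWithin_le (s := Set.univ) (f := p2_b1)
    (f' := b0) (C := C) (x := y) (y := x) (fun z _ => (p2_hasDeriv2 z).hasDerivWithinAt)
    (fun z _ => hC z) convex_univ (Set.mem_univ _) (Set.mem_univ _)
  exact h

/-- the centres -/
noncomputable def p2_r (M : ℕ) (j : ℕ) : ℝ := -1 / 2 + (j + 1 / 2) * (1 / M)

/-- the masses of the leaves -/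
noncomputable def p2_c (M : ℕ) (j : ℕ) : ℝ :=
  p2_b1 (-1 / 2 + ((j + 1 : ℕ) : ℝ) * (1 / M)) - p2_b1 (-1 / 2 + (j : ℝ) * (1 / M))

/-- the leaf profile -/
noncomputable def p2_q (M : ℕ) (r : ℝ) : ℝ :=
  ∑ j ∈ Finset.range M, p2_c M j * (1 / (2 * M)) * b2 (2 * M * (r - p2_r M j)) - b2 r

noncomputable def p2_q1 (M : ℕ) (r : ℝ) : ℝ :=
  ∑ j ∈ Finset.range M, p2_c M j * p2_b1 (2 * M * (r - p2_r M j)) - p2_b1 r

noncomputable def p2_q2 (M : ℕ) (r : ℝ) : ℝ :=
  ∑ j ∈ Finset.range M, p2_c M j * (2 * M) * b0 (2 * M * (r - p2_r M j)) - b0 r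

theorem p2_inner (M : ℕ) (j : ℕ) (r : ℝ) :
    HasDerivAt (fun r => 2 * (M : ℝ) * (r - p2_r M j)) (2 * M) r := by
  have := ((hasDerivAt_id r).sub_const (p2_r M j)).const_mul (2 * (M : ℝ))
  simpa using this

theorem p2_q_deriv (M : ℕ) (hM : 1 ≤ M) (r : ℝ) : HasDerivAt (p2_q M) (p2_q1 M r) r := by
  have hM' : (M : ℝ) ≠ 0 := by positivity
  unfold p2_q p2_q1
  refine HasDerivAt.sub (HasDerivAt.fun_sum fun j _ => ?_) (p2_hasDeriv1 r)
  have h := (HasDerivAt.comp r (p2_hasDeriv1 (2 * M * (r - p2_r M j))) (p2_inner M j r)).const_mul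
    (p2_c M j * (1 / (2 * M)))
  refine h.congr_deriv ?_
  field_simp

theorem p2_q1_deriv (M : ℕ) (r : ℝ) : HasDerivAt (p2_q1 M) (p2_q2 M r) r := by
  unfold p2_q1 p2_q2
  refine HasDerivAt.sub (HasDerivAt.fun_sum fun j _ => ?_) (p2_hasDeriv2 r)
  have h := (HasDerivAt.comp r (p2_hasDeriv2 (2 * M * (r - p2_r M j))) (p2_inner M j r)).const_mul
    (p2_c M j)
  refine h.congr_deriv ?_
  ring

theorem p2_q_contDiff (M : ℕ) : ContDiff ℝ ∞ (p2_q M) := by
  unfold p2_q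
  refine ContDiff.sub (ContDiff.sum fun j _ => contDiff_const.mul ?_) p2_b2_contDiff
  exact p2_b2_contDiff.comp (contDiff_const.mul (contDiff_id.sub contDiff_const))

theorem p2_deriv_eq (M : ℕ) (hM : 1 ≤ M) : deriv (p2_q M) = p2_q1 M :=
  funext fun r => (p2_q_deriv M hM r).deriv

theorem p2_deriv2_eq (M : ℕ) (hM : 1 ≤ M) : iteratedDeriv 2 (p2_q M) = p2_q2 M := by
  rw [iteratedDeriv_succ, iteratedDeriv_one, p2_deriv_eq M hM]
  exact funext fun r => (p2_q1_deriv M r).deriv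

theorem p2_sum_c (M : ℕ) (hM : 1 ≤ M) : ∑ j ∈ Finset.range M, p2_c M j = 1 := by
  have hM' : (M : ℝ) ≠ 0 := by positivity
  unfold p2_c
  rw [Finset.sum_range_sub (fun j : ℕ => p2_b1 (-1 / 2 + (j : ℝ) * (1 / M)))]
  rw [p2_b1_high' (by field_simp; norm_num), p2_b1_low' (by simp)]
  norm_num

theorem p2_c_symm (M : ℕ) (hM : 1 ≤ M) (j : ℕ) (hj : j < M) : p2_c M (M - 1 - j) = p2_c M j := by
  have hM' : (M : ℝ) ≠ 0 := by positivity
  unfold p2_c
  have e1 : ((M - 1 - j : ℕ) : ℝ) = M - 1 - j := by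
    rw [Nat.cast_sub (by omega), Nat.cast_sub hM]; simp
  have e2 : -1 / 2 + ((M - 1 - j + 1 : ℕ) : ℝ) * (1 / M) = -(-1 / 2 + (j : ℝ) * (1 / M)) := by
    push_cast
    rw [e1]; field_simp; ring
  have e3 : -1 / 2 + ((M - 1 - j : ℕ) : ℝ) * (1 / M) = -(-1 / 2 + ((j + 1 : ℕ) : ℝ) * (1 / M)) := by
    rw [e1]; push_cast; field_simp; ring
  rw [e2, e3, p2_b1_neg, p2_b1_neg]
  ring

theorem p2_r_symm (M : ℕ) (hM : 1 ≤ M) (j : ℕ) (hj : j < M) : p2_r M (M - 1 - j) = -p2_r M j := by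
  have hM' : (M : ℝ) ≠ 0 := by positivity
  unfold p2_r
  have e1 : ((M - 1 - j : ℕ) : ℝ) = M - 1 - j := by
    rw [Nat.cast_sub (by omega), Nat.cast_sub hM]; simp
  rw [e1]; field_simp; ring

theorem p2_sum_cr (M : ℕ) (hM : 1 ≤ M) : ∑ j ∈ Finset.range M, p2_c M j * p2_r M j = 0 := by
  have h := Finset.sum_range_reflect (fun j => p2_c M j * p2_r M j) M
  have h2 : ∑ j ∈ Finset.range M, p2_c M (M - 1 - j) * p2_r M (M - 1 - j) =
      ∑ j ∈ Finset.range M, -(p2_c M j * p2_r M j) := by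
    refine Finset.sum_congr rfl fun j hj => ?_
    have hj' := Finset.mem_range.1 hj
    rw [p2_c_symm M hM j hj', p2_r_symm M hM j hj']
    ring
  rw [h2, Finset.sum_neg_distrib] at h
  linarith

theorem p2_r_bd (M : ℕ) (hM : 1 ≤ M) (j : ℕ) (hj : j < M) :
    M * p2_r M j ≤ M / 2 - 1 / 2 ∧ -(M / 2) + 1 / 2 ≤ M * p2_r M j := by
  have hM' : (M : ℝ) ≠ 0 := by positivity
  have e : (M : ℝ) * p2_r M j = -(M / 2) + j + 1 / 2 := by
    unfold p2_r; field_simp; ring
  have h1 : (j : ℝ) + 1 ≤ M := by exact_mod_cast hj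
  have h2 : (0 : ℝ) ≤ j := Nat.cast_nonneg _
  constructor <;> rw [e] <;> linarith

theorem p2_q_zero (M : ℕ) (hM : 1 ≤ M) (r : ℝ) (hr : 1 / 2 ≤ |r|) : p2_q M r = 0 := by
  have hM' : (0 : ℝ) < M := by positivity
  rcases le_abs.1 hr with h | h
  · unfold p2_q
    have h1 : ∀ j ∈ Finset.range M, p2_c M j * (1 / (2 * M)) * b2 (2 * M * (r - p2_r M j)) =
        r * p2_c M j - p2_c M j * p2_r M j := by
      intro j hj
      have h2 := (p2_r_bd M hM j (Finset.mem_range.1 hj)).1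
      have h3 : (M : ℝ) * (1 / 2) ≤ M * r := by gcongr
      rw [p2_b2_high (by nlinarith)]
      field_simp
    rw [Finset.sum_congr rfl h1, Finset.sum_sub_distrib, ← Finset.mul_sum, p2_sum_c M hM,
      p2_sum_cr M hM, p2_b2_high h]
    ring
  · unfold p2_q
    have h1 : ∀ j ∈ Finset.range M, p2_c M j * (1 / (2 * M)) * b2 (2 * M * (r - p2_r M j)) =
        0 := by
      intro j hj
      have h2 := (p2_r_bd M hM j (Finset.mem_range.1 hj)).2
      have h3 : (M : ℝ) * (1 / 2) ≤ M * (-r) := by gcongr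
      rw [p2_b2_low (by nlinarith)]
      ring
    rw [Finset.sum_congr rfl h1, Finset.sum_const_zero, p2_b2_low (by linarith)]
    ring

theorem p2_leaf (M : ℕ) (hM : 1 ≤ M) (j : ℕ) (r : ℝ)
    (h : b0 (2 * M * (r - p2_r M j)) ≠ 0) : |(r + 1 / 2) * M - (j + 1 / 2)| ≤ 1 / 4 := by
  have hM' : (M : ℝ) ≠ 0 := by positivity
  by_contra hlt
  apply h
  apply p2_b0_zero
  have e : 2 * (M : ℝ) * (r - p2_r M j) = 2 * ((r + 1 / 2) * M - (j + 1 / 2)) := by
    unfold p2_r; field_simp; ring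
  rw [e, abs_mul, abs_two]
  linarith [not_le.1 hlt]

theorem p2_sum_bd (M : ℕ) (hM : 1 ≤ M) (C : ℝ) (hC0 : 0 < C) (hC : ∀ x, |b0 x| ≤ C) (r : ℝ) :
    |∑ j ∈ Finset.range M, p2_c M j * (2 * M) * b0 (2 * M * (r - p2_r M j))| ≤ 2 * C * C := by
  have hM' : (0 : ℝ) < M := by positivity
  by_cases h : ∃ j ∈ Finset.range M, b0 (2 * M * (r - p2_r M j)) ≠ 0
  · obtain ⟨j, hj, hj0⟩ := h
    rw [Finset.sum_eq_single_of_mem j hj]
    · have h1 : |p2_c M j| ≤ C * (1 / M) := by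
        have h2 := p2_b1_diff C hC (-1 / 2 + ((j + 1 : ℕ) : ℝ) * (1 / M)) (-1 / 2 + (j : ℝ) * (1 / M))
        refine h2.trans (le_of_eq ?_)
        congr 1
        have : -1 / 2 + ((j + 1 : ℕ) : ℝ) * (1 / M) - (-1 / 2 + (j : ℝ) * (1 / M)) = 1 / M := by
          push_cast; ring
        rw [this, abs_of_pos (by positivity)]
      rw [abs_mul, abs_mul, abs_of_pos (show (0 : ℝ) < 2 * M by positivity)]
      calc |p2_c M j| * (2 * M) * |b0 (2 * M * (r - p2_r M j))|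
          ≤ C * (1 / M) * (2 * M) * C := by gcongr; exact hC _
        _ = 2 * C * C := by field_simp
    · intro i hi hij
      by_contra h0
      have h0' : b0 (2 * M * (r - p2_r M i)) ≠ 0 := fun h => h0 (by rw [h, mul_zero])
      have h1 := abs_le.1 (p2_leaf M hM j r hj0)
      have h2 := abs_le.1 (p2_leaf M hM i r h0')
      have h3 : (i : ℝ) < j + 1 := by linarith
      have h4 : (j : ℝ) < i + 1 := by linarith
      have h5 : i < j + 1 := by exact_mod_cast h3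
      have h6 : j < i + 1 := by exact_mod_cast h4
      omega
  · have h' : ∀ j ∈ Finset.range M, b0 (2 * M * (r - p2_r M j)) = 0 := by
      intro j hj
      by_contra hne
      exact h ⟨j, hj, hne⟩
    rw [Finset.sum_eq_zero (fun j hj => by rw [h' j hj, mul_zero]), abs_zero]
    positivity

theorem leaf_profile : ∃ C : ℝ, 0 < C ∧ ∀ M : ℕ, 1 ≤ M → ∃ q : ℝ → ℝ, ContDiff ℝ ∞ q ∧
    (∀ r, 1 / 2 ≤ |r| → q r = 0) ∧
    (∀ r, |q r| ≤ C ∧ |deriv q r| ≤ C ∧ |iteratedDeriv 2 q r| ≤ C) ∧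
    (∀ r, b0 r + iteratedDeriv 2 q r ≠ 0 →
      |r| ≤ 1 / 2 ∧ ∃ m : ℤ, |(r + 1 / 2) * M - (m + 1 / 2)| ≤ 1 / 4) := by
  obtain ⟨C, hC0, hC⟩ := p2_b0_bound
  set D : ℝ := 2 * C * C + C with hD
  have hD0 : 0 < D := by positivity
  refine ⟨4 * D, by positivity, fun M hM => ⟨p2_q M, p2_q_contDiff M, p2_q_zero M hM, ?_, ?_⟩⟩
  · have hb2 : ∀ r, |p2_q2 M r| ≤ D := by
      intro r
      unfold p2_q2
      refine (abs_sub _ _).trans ?_
      exact add_le_add (p2_sum_bd M hM C hC0 hC r) (hC r)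
    have hz : ∀ r, 1 / 2 < |r| → p2_q1 M r = 0 := by
      intro r hr
      have h1 : p2_q M =ᶠ[nhds r] fun _ => 0 := by
        have : {y : ℝ | 1 / 2 < |y|} ∈ nhds r :=
          (isOpen_lt continuous_const continuous_abs).mem_nhds hr
        filter_upwards [this] with y hy
        exact p2_q_zero M hM y (le_of_lt hy)
      rw [← p2_deriv_eq M hM, h1.deriv_eq]
      simp
    have hb1 : ∀ r, |p2_q1 M r| ≤ 2 * D := by
      intro r
      by_cases hr : 1 / 2 < |r|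
      · rw [hz r hr, abs_zero]; positivity
      · have h1 := Convex.norm_image_sub_le_of_norm_hasDerivWithin_le (s := Set.univ)
          (f := p2_q1 M) (f' := p2_q2 M) (C := D) (x := -1) (y := r)
          (fun z _ => (p2_q1_deriv M z).hasDerivWithinAt) (fun z _ => hb2 z) convex_univ
          (Set.mem_univ _) (Set.mem_univ _)
        rw [hz (-1) (by norm_num), sub_zero, Real.norm_eq_abs, Real.norm_eq_abs] at h1
        have h2 := abs_le.1 (not_lt.1 hr)
        have h3 : |r - -1| ≤ 2 := by rw [abs_le]; constructor <;> linarith [h2.1, h2.2]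
        nlinarith [abs_nonneg (r - -1)]
    intro r
    rw [p2_deriv_eq M hM, p2_deriv2_eq M hM]
    refine ⟨?_, (hb1 r).trans (by linarith), (hb2 r).trans (by linarith)⟩
    by_cases hr : 1 / 2 ≤ |r|
    · rw [p2_q_zero M hM r hr, abs_zero]; positivity
    · have h1 := Convex.norm_image_sub_le_of_norm_hasDerivWithin_le (s := Set.univ)
        (f := p2_q M) (f' := p2_q1 M) (C := 2 * D) (x := -1) (y := r)
        (fun z _ => (p2_q_deriv M hM z).hasDerivWithinAt) (fun z _ => hb1 z) convex_univ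
        (Set.mem_univ _) (Set.mem_univ _)
      rw [p2_q_zero M hM (-1) (by norm_num), sub_zero, Real.norm_eq_abs, Real.norm_eq_abs] at h1
      have h2 := abs_lt.1 (not_le.1 hr)
      have h3 : |r - -1| ≤ 2 := by rw [abs_le]; constructor <;> linarith [h2.1, h2.2]
      nlinarith [abs_nonneg (r - -1)]
  · intro r hr
    rw [p2_deriv2_eq M hM] at hr
    have h1 : ∑ j ∈ Finset.range M, p2_c M j * (2 * M) * b0 (2 * M * (r - p2_r M j)) ≠ 0 := by
      intro h; apply hr; unfold p2_q2; rw [h]; ring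
    obtain ⟨j, hj, hj0⟩ := Finset.exists_ne_zero_of_sum_ne_zero h1
    have hj1 : b0 (2 * M * (r - p2_r M j)) ≠ 0 := fun h => hj0 (by rw [h, mul_zero])
    have h2 := p2_leaf M hM j r hj1
    refine ⟨?_, j, by exact_mod_cast h2⟩
    have h3 := abs_le.1 h2
    have h4 : (j : ℝ) + 1 ≤ M := by exact_mod_cast Finset.mem_range.1 hj
    have h5 : (0 : ℝ) ≤ j := Nat.cast_nonneg _
    have hM' : (0 : ℝ) < M := by positivity
    rw [abs_le]
    constructor
    · by_contra hlt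
      have : (r + 1 / 2) * M < 0 := mul_neg_of_neg_of_pos (by linarith [not_le.1 hlt]) hM'
      linarith [h3.1]
    · by_contra hlt
      have : M < (r + 1 / 2) * M := by nlinarith [not_le.1 hlt]
      linarith [h3.2]

end Pool.Agent.ShearComposite.D3
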