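import Pool.Agent.ShearComposite3.Base3
import Pool.Agent.ShearComposite3.LeafQ

/-!
# The leaf functions
-/

set_option autoImplicit false

open MeasureTheory Filter Topology
open scoped ContDiff

namespace Pool.Agent.ShearComposite.D3

/-! ## derivatives and supports -/

theorem p3_it2 (f : ℝ → ℝ) : iteratedDeriv 2 f = deriv (deriv f) := by
  rw [iteratedDeriv_succ, iteratedDeriv_one]

theorem p3_cd_deriv {f : ℝ → ℝ} (h : ContDiff ℝ ∞ f) : ContDiff ℝ ∞ (deriv f) :=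
  ((contDiff_infty_iff_deriv (f := f)).1 h).2

theorem p3_hd {f : ℝ → ℝ} (h : ContDiff ℝ ∞ f) (x : ℝ) : HasDerivAt f (deriv f x) x :=
  (h.differentiable (by simp) x).hasDerivAt

/-- the derivative vanishes on the closed exterior of an interval -/
theorem p3_deriv_ext {f : ℝ → ℝ} (h : ContDiff ℝ ∞ f) {a c1 c2 : ℝ} 
    (h1 : ∀ x, a ≤ x → f x = c1 + c2 * x) : ∀ x, a ≤ x → deriv f x = c2 := by
  have hc : Continuous (deriv f) := (p3_cd_deriv h).continuous
  have hcl : IsClosed {x | deriv f x = c2} := isClosed_eq hc continuous_const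
  have hin : Set.Ioi a ⊆ {x | deriv f x = c2} := by
    intro x hx
    have : f =ᶠ[𝓝 x] fun x => c1 + c2 * x := by
      filter_upwards [Ioi_mem_nhds hx] with y hy using h1 y (le_of_lt hy)
    show deriv f x = c2
    rw [this.deriv_eq]
    have h2 : HasDerivAt (fun x : ℝ => c1 + c2 * x) c2 x := by
      simpa using ((hasDerivAt_id x).const_mul c2).const_add c1
    exact h2.deriv
  have := hcl.closure_subset_iff.2 hin
  rw [closure_Ioi] at this
  intro x hx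
  exact this hx

theorem p3_deriv_ext' {f : ℝ → ℝ} (h : ContDiff ℝ ∞ f) {a c1 c2 : ℝ} 
    (h1 : ∀ x, x ≤ a → f x = c1 + c2 * x) : ∀ x, x ≤ a → deriv f x = c2 := by
  have hc : Continuous (deriv f) := (p3_cd_deriv h).continuous
  have hcl : IsClosed {x | deriv f x = c2} := isClosed_eq hc continuous_const
  have hin : Set.Iio a ⊆ {x | deriv f x = c2} := by
    intro x hx
    have : f =ᶠ[𝓝 x] fun x => c1 + c2 * x := by
      filter_upwards [Iio_mem_nhds hx] with y hy using h1 y (le_of_lt hy)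
    show deriv f x = c2
    rw [this.deriv_eq]
    have h2 : HasDerivAt (fun x : ℝ => c1 + c2 * x) c2 x := by
      simpa using ((hasDerivAt_id x).const_mul c2).const_add c1
    exact h2.deriv
  have := hcl.closure_subset_iff.2 hin
  rw [closure_Iio] at this
  intro x hx
  exact this hx

theorem p3_le_abs {a x : ℝ} (h : a ≤ |x|) : a ≤ x ∨ x ≤ -a := by
  rcases le_abs.1 h with h | h
  · exact Or.inl h
  · exact Or.inr (by linarith)

theorem p3_zero_deriv {f : ℝ → ℝ} (h : ContDiff ℝ ∞ f) {a : ℝ}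
    (h1 : ∀ x, a ≤ |x| → f x = 0) : ∀ x, a ≤ |x| → deriv f x = 0 := by
  intro x hx
  rcases p3_le_abs hx with hx | hx
  · exact p3_deriv_ext h (a := a) (c1 := 0) (c2 := 0)
      (fun y hy => by rw [h1 y (hy.trans (le_abs_self y))]; simp) x hx
  · exact p3_deriv_ext' h (a := -a) (c1 := 0) (c2 := 0)
      (fun y hy => by rw [h1 y (le_trans (by linarith) (neg_le_abs y))]; simp) x hx

theorem p3_bdd {f : ℝ → ℝ} (h : Continuous f) {a : ℝ} (h1 : ∀ x, a ≤ |x| → f x = 0) :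
    ∃ B, 0 ≤ B ∧ ∀ x, |f x| ≤ B := by
  obtain ⟨B, hB⟩ := (isCompact_Icc (a := -a) (b := a)).exists_bound_of_continuousOn h.continuousOn
  refine ⟨max B 0, le_max_right _ _, fun x => ?_⟩
  rcases le_or_gt a |x| with hx | hx
  · rw [h1 x hx, abs_zero]; exact le_max_right _ _
  · exact (hB x (abs_le.1 hx.le)).trans (le_max_left _ _)

/-! ## the functions `st`, `b2` -/

theorem p3_st_cd : ContDiff ℝ ∞ st := by
  unfold st
  exact (Real.smoothTransition.contDiff (n := ⊤)).comp (by fun_prop)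

theorem p3_b2_cd : ContDiff ℝ ∞ b2 := by
  unfold b2
  exact contDiff_id.mul p3_st_cd

theorem p3_b2_right (x : ℝ) (h : 1 / 2 ≤ x) : b2 x = x := by
  unfold b2 st
  rw [Real.smoothTransition.one_of_one_le (by linarith), mul_one]

theorem p3_b2_left (x : ℝ) (h : x ≤ -(1 / 2)) : b2 x = 0 := by
  unfold b2 st
  rw [Real.smoothTransition.zero_of_nonpos (by linarith), mul_zero]

theorem p3_b1_right (x : ℝ) (h : 1 / 2 ≤ x) : deriv b2 x = 1 :=
  p3_deriv_ext p3_b2_cd (a := 1 / 2) (c1 := 0) (c2 := 1)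
    (fun y hy => by rw [p3_b2_right y hy]; ring) x h

theorem p3_b1_left (x : ℝ) (h : x ≤ -(1 / 2)) : deriv b2 x = 0 :=
  p3_deriv_ext' p3_b2_cd (a := -(1 / 2)) (c1 := 0) (c2 := 0)
    (fun y hy => by rw [p3_b2_left y hy]; ring) x h

theorem p3_b0_eq : b0 = deriv (deriv b2) := by
  funext x
  unfold b0
  rw [p3_it2]

theorem p3_b0_cd : ContDiff ℝ ∞ b0 := by
  rw [p3_b0_eq]; exact p3_cd_deriv (p3_cd_deriv p3_b2_cd)

theorem p3_b0_zero (x : ℝ) (h : 1 / 2 ≤ |x|) : b0 x = 0 := by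
  rw [p3_b0_eq]
  rcases p3_le_abs h with h | h
  · exact p3_deriv_ext (p3_cd_deriv p3_b2_cd) (a := 1 / 2) (c1 := 1) (c2 := 0)
      (fun y hy => by rw [p3_b1_right y hy]; ring) x h
  · exact p3_deriv_ext' (p3_cd_deriv p3_b2_cd) (a := -(1 / 2)) (c1 := 0) (c2 := 0)
      (fun y hy => by rw [p3_b1_left y hy]; ring) x h

/-! ## the cutoff and the shift -/

/-- the cutoff of the leaf zone -/
noncomputable def p3_t (y : ℝ) : ℝ := cut (21 / 10) (29 / 10) y

/-- the shift profile -/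
noncomputable def p3_h (y : ℝ) : ℝ := (rab y - 3 / 2) * cut (21 / 10) (29 / 10) y

theorem p3_t_cd : ContDiff ℝ ∞ p3_t := by
  unfold p3_t cut
  exact (Real.smoothTransition.contDiff (n := ⊤)).comp (by fun_prop)

theorem p3_h_cd : ContDiff ℝ ∞ p3_h := by
  have : ContDiff ℝ ∞ (fun y => (rab y - 3 / 2) * p3_t y) := by
    unfold rab
    exact (((contDiff_const.mul p3_b2_cd).sub contDiff_id).sub contDiff_const).mul p3_t_cd
  exact this

theorem p3_t_zero (y : ℝ) (h : 29 / 10 ≤ |y|) : p3_t y = 0 := by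
  unfold p3_t cut
  refine Real.smoothTransition.zero_of_nonpos ?_
  have : (29 / 10 : ℝ) ^ 2 ≤ y ^ 2 := by
    rw [← sq_abs y]; exact pow_le_pow_left₀ (by norm_num) h 2
  refine div_nonpos_of_nonpos_of_nonneg (by linarith) (by norm_num)

theorem p3_t_one (y : ℝ) (h : |y| ≤ 21 / 10) : p3_t y = 1 := by
  unfold p3_t cut
  refine Real.smoothTransition.one_of_one_le ?_
  have : y ^ 2 ≤ (21 / 10 : ℝ) ^ 2 := by
    rw [← sq_abs y]; exact pow_le_pow_left₀ (abs_nonneg _) h 2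
  rw [one_le_div (by norm_num)]
  linarith

theorem p3_h_zero (y : ℝ) (h : 29 / 10 ≤ |y|) : p3_h y = 0 := by
  have := p3_t_zero y h
  unfold p3_t at this
  unfold p3_h
  rw [this, mul_zero]

theorem p3_rab_nonneg (y : ℝ) : 0 ≤ rab y := by
  have key : ∀ x : ℝ, 0 ≤ x → 1 / 2 ≤ st x := by
    intro x hx
    have h1 : Real.smoothTransition (1 / 2) = 1 / 2 := by
      unfold Real.smoothTransition
      have e : (1:ℝ) - 1 / 2 = 1 / 2 := by norm_num
      rw [e]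
      have : 0 < expNegInvGlue (1 / 2) := expNegInvGlue.pos_of_pos (by norm_num)
      field_simp
      norm_num
    have h2 := Real.smoothTransition.monotone (show (1 / 2 : ℝ) ≤ x + 1 / 2 by linarith)
    unfold st
    linarith
  have key2 : ∀ x : ℝ, x ≤ 0 → st x ≤ 1 / 2 := by
    intro x hx
    have h1 : Real.smoothTransition (1 / 2) = 1 / 2 := by
      unfold Real.smoothTransition
      have e : (1:ℝ) - 1 / 2 = 1 / 2 := by norm_num
      rw [e]
      have : 0 < expNegInvGlue (1 / 2) := expNegInvGlue.pos_of_pos (by norm_num)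
      field_simp
      norm_num
    have h2 := Real.smoothTransition.monotone (show x + 1 / 2 ≤ (1 / 2 : ℝ) by linarith)
    unfold st
    linarith
  unfold rab b2
  rcases le_total 0 y with h | h
  · nlinarith [key y h]
  · nlinarith [key2 y h]

theorem p3_rab_le (y : ℝ) : rab y ≤ |y| := by
  have h1 : st y ≤ 1 := Real.smoothTransition.le_one _
  have h2 : 0 ≤ st y := Real.smoothTransition.nonneg _
  unfold rab b2
  rcases le_total 0 y with h | h
  · rw [abs_of_nonneg h]; nlinarith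
  · rw [abs_of_nonpos h]; nlinarith

theorem p3_h_bd (y : ℝ) : |p3_h y| ≤ 3 / 2 := by
  rcases le_or_gt (29 / 10) |y| with h | h
  · rw [p3_h_zero y h]; norm_num
  · unfold p3_h
    have h1 : 0 ≤ cut (21 / 10) (29 / 10) y := Real.smoothTransition.nonneg _
    have h2 : cut (21 / 10) (29 / 10) y ≤ 1 := Real.smoothTransition.le_one _
    have h3 := p3_rab_nonneg y
    have h4 := p3_rab_le y
    rw [abs_mul, abs_of_nonneg h1]
    have h5 : |rab y - 3 / 2| ≤ 3 / 2 := by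
      rw [abs_le]; constructor <;> linarith
    calc |rab y - 3 / 2| * cut (21 / 10) (29 / 10) y ≤ 3 / 2 * 1 :=
          mul_le_mul h5 h2 h1 (by norm_num)
      _ = 3 / 2 := by norm_num

theorem p3_t_loc (y : ℝ) (h : |y| < 21 / 10) : deriv p3_t y = 0 ∧ deriv (deriv p3_t) y = 0 := by
  have key : ∀ y : ℝ, |y| < 21 / 10 → deriv p3_t y = 0 := fun y h => by
    have : p3_t =ᶠ[𝓝 y] fun _ => 1 := by
      filter_upwards [(isOpen_lt continuous_abs continuous_const).mem_nhds h] with z hz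
      exact p3_t_one z (le_of_lt hz)
    rw [this.deriv_eq, deriv_const]
  refine ⟨key y h, ?_⟩
  have : deriv p3_t =ᶠ[𝓝 y] fun _ => 0 := by
    filter_upwards [(isOpen_lt continuous_abs continuous_const).mem_nhds h] with z hz
    exact key z hz
  rw [this.deriv_eq, deriv_const]

theorem p3_h_loc (y : ℝ) (h1 : 1 ≤ |y|) (h2 : |y| ≤ 2) : deriv (deriv p3_h) y = 0 := by
  have e : ∀ z : ℝ, |z| < 21 / 10 → p3_h z = rab z - 3 / 2 := fun z hz => by
    have := p3_t_one z hz.le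
    unfold p3_t at this
    unfold p3_h
    rw [this, mul_one]
  rcases p3_le_abs h1 with h | h
  · have key : ∀ z ∈ Set.Ioo (1 / 2 : ℝ) (21 / 10), deriv p3_h z = 1 := fun z hz => by
      have : p3_h =ᶠ[𝓝 z] fun w => w - 3 / 2 := by
        filter_upwards [Ioo_mem_nhds hz.1 hz.2] with w hw
        rw [e w (by rw [abs_of_pos (by linarith [hw.1])]; exact hw.2)]
        unfold rab
        rw [p3_b2_right w hw.1.le]
        ring
      rw [this.deriv_eq]
      exact ((hasDerivAt_id z).sub_const (3 / 2)).deriv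
    have hy : y ∈ Set.Ioo (1 / 2 : ℝ) (21 / 10) := ⟨by linarith, by
      have := le_abs_self y
      linarith⟩
    have : deriv p3_h =ᶠ[𝓝 y] fun _ => 1 := by
      filter_upwards [Ioo_mem_nhds hy.1 hy.2] with w hw using key w hw
    rw [this.deriv_eq, deriv_const]
  · have key : ∀ z ∈ Set.Ioo (-(21 / 10) : ℝ) (-(1 / 2)), deriv p3_h z = -1 := fun z hz => by
      have : p3_h =ᶠ[𝓝 z] fun w => -w - 3 / 2 := by
        filter_upwards [Ioo_mem_nhds hz.1 hz.2] with w hw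
        rw [e w (by rw [abs_of_neg (by linarith [hw.2])]; linarith [hw.1])]
        unfold rab
        rw [p3_b2_left w hw.2.le]
        ring
      rw [this.deriv_eq]
      exact (((hasDerivAt_id z).neg).sub_const (3 / 2)).deriv
    have hy : y ∈ Set.Ioo (-(21 / 10) : ℝ) (-(1 / 2)) := ⟨by
      have := neg_le_abs y
      linarith, by linarith⟩
    have : deriv p3_h =ᶠ[𝓝 y] fun _ => -1 := by
      filter_upwards [Ioo_mem_nhds hy.1 hy.2] with w hw using key w hw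
    rw [this.deriv_eq, deriv_const]

/-! ## periodization of compactly supported profiles -/

theorem p3_xi_add {L : ℝ} (hL : 0 < L) (x : ℝ) : xi L (x + L) = xi L x := by
  unfold xi
  have e : (x + L) / L = x / L + 1 := by field_simp
  rw [e, round_add_one]
  push_cast
  ring

theorem p3_xi_abs {L : ℝ} (hL : 0 < L) (x : ℝ) : |xi L x| = L * |x / L - round (x / L)| := by
  unfold xi
  have e : x - L * round (x / L) = L * (x / L - round (x / L)) := by field_simp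
  rw [e, abs_mul, abs_of_pos hL]

theorem p3_xi_lip {L : ℝ} (hL : 0 < L) (x y : ℝ) : |xi L x| ≤ |xi L y| + |x - y| := by
  rw [p3_xi_abs hL, p3_xi_abs hL]
  have h1 := round_le (x / L) (round (y / L))
  have h2 : |x / L - round (y / L)| ≤ |x / L - y / L| + |y / L - round (y / L)| := by
    have := abs_add_le (x / L - y / L) (y / L - round (y / L))
    simpa using this
  have h3 : |x - y| = L * |x / L - y / L| := by
    rw [← sub_div, abs_div, abs_of_pos hL]; field_simp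
  rw [h3]
  nlinarith

theorem p3_xi_cases {L : ℝ} (hL : 20 ≤ L) (x0 : ℝ) :
    (∀ᶠ x in 𝓝 x0, xi L x = x - L * round (x0 / L)) ∨
    (29 / 10 < |xi L x0| ∧ ∀ᶠ x in 𝓝 x0, 29 / 10 < |xi L x|) := by
  have hL0 : 0 < L := by linarith
  rcases lt_or_ge |x0 / L - round (x0 / L)| (1 / 2) with h | h
  · left
    have hc : Continuous fun x : ℝ => |x / L - round (x0 / L)| := by fun_prop
    filter_upwards [(isOpen_lt hc continuous_const).mem_nhds h] with x hx
    have hr : round (x / L) = round (x0 / L) := by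
      rw [round_eq_iff]
      have hx' : |x / L - round (x0 / L)| < 1 / 2 := hx
      rw [abs_lt] at hx'
      constructor <;> linarith [hx'.1, hx'.2]
    unfold xi
    rw [hr]
  · right
    have h1 : 10 ≤ |xi L x0| := by
      rw [p3_xi_abs hL0]; nlinarith
    refine ⟨by linarith, ?_⟩
    filter_upwards [Metric.ball_mem_nhds x0 one_pos] with x hx
    have h2 := p3_xi_lip hL0 x0 x
    rw [Metric.mem_ball, dist_comm, Real.dist_eq] at hx
    linarith

theorem p3_per_deriv {L : ℝ} (hL : 20 ≤ L) {f : ℝ → ℝ} (hf : ContDiff ℝ ∞ f)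
    (h0 : ∀ y, 29 / 10 ≤ |y| → f y = 0) (x : ℝ) :
    HasDerivAt (fun x => f (xi L x)) (deriv f (xi L x)) x := by
  rcases p3_xi_cases hL x with h | ⟨h1, h⟩
  · have e : xi L x = x - L * round (x / L) := rfl
    have h2 : HasDerivAt (fun y => f (y - L * round (x / L))) (deriv f (x - L * round (x / L))) x :=
      (p3_hd hf _).comp_sub_const x _
    rw [e]
    refine h2.congr_of_eventuallyEq ?_
    filter_upwards [h] with y hy
    rw [hy]
  · rw [p3_zero_deriv hf h0 _ h1.le]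
    refine (hasDerivAt_const x (0:ℝ)).congr_of_eventuallyEq ?_
    filter_upwards [h] with y hy
    exact h0 _ hy.le

theorem p3_per_cd {L : ℝ} (hL : 20 ≤ L) {f : ℝ → ℝ} (hf : ContDiff ℝ ∞ f)
    (h0 : ∀ y, 29 / 10 ≤ |y| → f y = 0) : ContDiff ℝ ∞ (fun x => f (xi L x)) := by
  refine contDiff_iff_contDiffAt.2 fun x => ?_
  rcases p3_xi_cases hL x with h | ⟨h1, h⟩
  · have h2 : ContDiffAt ℝ ∞ (fun y => f (y - L * round (x / L))) x :=
      (hf.comp (by fun_prop : ContDiff ℝ ∞ fun y : ℝ => y - L * round (x / L))).contDiffAt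
    refine h2.congr_of_eventuallyEq ?_
    filter_upwards [h] with y hy
    rw [hy]
  · refine (contDiffAt_const (c := (0:ℝ))).congr_of_eventuallyEq ?_
    filter_upwards [h] with y hy
    exact h0 _ hy.le

/-! ## functions made of one piece for each bar -/

/-- near the `i`-th bar this is `F i x (z - 4 i)` -/
noncomputable def p3_bar (F : ℤ → ℝ → ℝ → ℝ) (x z : ℝ) : ℝ :=
  F (round (z / 4)) x (z - 4 * round (z / 4))

theorem p3_round_far {z : ℝ} {i : ℤ} (h : i ≠ round (z / 4)) : 2 ≤ |z - 4 * i| := by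
  by_contra hlt
  push Not at hlt
  refine h (round_eq_iff.2 ?_).symm
  rw [abs_lt] at hlt
  constructor <;> linarith [hlt.1, hlt.2]

theorem p3_bar_loc {F : ℤ → ℝ → ℝ → ℝ} (h0 : ∀ i x y, 3 / 2 ≤ |y| → F i x y = 0) {z0 z : ℝ}
    (hz : |z - z0| < 1) (x : ℝ) : p3_bar F x z =
      ∑ i ∈ Finset.Icc (round (z0 / 4) - 1) (round (z0 / 4) + 1), F i x (z - 4 * i) := by
  have hmem : round (z / 4) ∈ Finset.Icc (round (z0 / 4) - 1) (round (z0 / 4) + 1) := by
    have h1 := abs_sub_round (z / 4)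
    have h2 := abs_sub_round (z0 / 4)
    rw [abs_le] at h1 h2
    rw [abs_lt] at hz
    rw [Finset.mem_Icc]
    constructor
    · have : (round (z0 / 4) : ℝ) - 2 < round (z / 4) := by linarith [h1.1, h1.2, h2.1, h2.2, hz.1]
      have : round (z0 / 4) - 2 < round (z / 4) := by exact_mod_cast this
      omega
    · have : (round (z / 4) : ℝ) < round (z0 / 4) + 2 := by linarith [h1.1, h1.2, h2.1, h2.2, hz.2]
      have : round (z / 4) < round (z0 / 4) + 2 := by exact_mod_cast this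
      omega
  rw [Finset.sum_eq_single_of_mem _ hmem]
  · rfl
  · intro i _ hi
    exact h0 _ _ _ (by linarith [p3_round_far hi])

theorem p3_bar_cd {F : ℤ → ℝ → ℝ → ℝ} (h0 : ∀ i x y, 3 / 2 ≤ |y| → F i x y = 0)
    (hF : ∀ i, ContDiff ℝ ∞ fun q : ℝ × ℝ => F i q.1 q.2) :
    ContDiff ℝ ∞ fun q : ℝ × ℝ => p3_bar F q.1 q.2 := by
  refine contDiff_iff_contDiffAt.2 fun q0 => ?_
  have h2 : ContDiffAt ℝ ∞ (fun q : ℝ × ℝ =>
      ∑ i ∈ Finset.Icc (round (q0.2 / 4) - 1) (round (q0.2 / 4) + 1), F i q.1 (q.2 - 4 * i)) q0 := by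
    refine (ContDiff.sum fun i _ => ?_).contDiffAt
    exact (hF i).comp (by fun_prop : ContDiff ℝ ∞ fun q : ℝ × ℝ => (q.1, q.2 - 4 * (i:ℝ)))
  refine h2.congr_of_eventuallyEq ?_
  have hc : Continuous fun q : ℝ × ℝ => |q.2 - q0.2| := by fun_prop
  filter_upwards [(isOpen_lt hc continuous_const).mem_nhds (by simp : |q0.2 - q0.2| < 1)] with q hq
  exact p3_bar_loc h0 hq q.1

theorem p3_bar_dz {F F' : ℤ → ℝ → ℝ → ℝ} (h0 : ∀ i x y, 3 / 2 ≤ |y| → F i x y = 0)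
    (x : ℝ) (hF : ∀ i y, HasDerivAt (F i x) (F' i x y) y) (z : ℝ) :
    HasDerivAt (fun z => p3_bar F x z) (p3_bar F' x z) z := by
  have h1 : ∀ i y, 3 / 2 < |y| → F' i x y = 0 := fun i y hy => by
    have h2 : HasDerivAt (F i x) 0 y := by
      refine (hasDerivAt_const y (0:ℝ)).congr_of_eventuallyEq ?_
      filter_upwards [(isOpen_lt continuous_const continuous_abs).mem_nhds hy] with w hw
      exact h0 i x w (le_of_lt hw)
    exact (hF i y).unique h2
  have h2 : HasDerivAt (fun w => ∑ i ∈ Finset.Icc (round (z / 4) - 1) (round (z / 4) + 1),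
      F i x (w - 4 * i)) (∑ i ∈ Finset.Icc (round (z / 4) - 1) (round (z / 4) + 1),
      F' i x (z - 4 * i)) z :=
    HasDerivAt.fun_sum fun i _ => (hF i (z - 4 * i)).comp_sub_const z (4 * i)
  have h3 : ∑ i ∈ Finset.Icc (round (z / 4) - 1) (round (z / 4) + 1), F' i x (z - 4 * i) =
      p3_bar F' x z := by
    rw [Finset.sum_eq_single_of_mem (round (z / 4)) (by simp)]
    · rfl
    · intro i _ hi
      exact h1 i _ (by linarith [p3_round_far hi])
  rw [h3] at h2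
  refine h2.congr_of_eventuallyEq ?_
  filter_upwards [Metric.ball_mem_nhds z one_pos] with w hw
  rw [Metric.mem_ball, Real.dist_eq] at hw
  exact p3_bar_loc h0 hw x

theorem p3_bar_dx {F F' : ℤ → ℝ → ℝ → ℝ} (z x : ℝ)
    (hF : ∀ i y, HasDerivAt (fun s => F i s y) (F' i x y) x) :
    HasDerivAt (fun s => p3_bar F s z) (p3_bar F' x z) x := hF _ _

theorem p3_bar_per {F : ℤ → ℝ → ℝ → ℝ} {k : ℕ} (hF : ∀ i x y, F (i + k) x y = F i x y)
    (x z : ℝ) : p3_bar F x (z + 4 * k) = p3_bar F x z := by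
  unfold p3_bar
  have e : (z + 4 * k) / 4 = z / 4 + (k : ℝ) := by ring
  rw [e, round_add_natCast]
  rw [hF]
  congr 1
  push_cast
  ring

/-! ## loads and directions -/

theorem p3_mass_per (k : ℕ) (i : ℤ) : mass k (i + k) = mass k i := by
  unfold mass barIdx
  have e : (i + k) % (k:ℤ) = i % k := Int.add_emod_right i k
  rw [e]

theorem p3_kap_per (k : ℕ) (i : ℤ) : kap k (i + k) = kap k i := by
  unfold kap
  have e : (i + k) % (k:ℤ) = i % k := Int.add_emod_right i k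
  rw [e]

theorem p3_mass_bd (k : ℕ) (i : ℤ) : |mass k i| ≤ 10 := by
  unfold mass
  split_ifs <;> norm_num

theorem p3_mass_ne (k : ℕ) (i : ℤ) (h : mass k i ≠ 0) : barIdx k i := by
  by_contra hb
  refine h ?_
  unfold mass
  rw [if_neg hb]

theorem p3_kap_abs (k : ℕ) (i : ℤ) : |kap k i| = 1 := by
  unfold kap
  split_ifs <;> norm_num

theorem p3_kap_sq (k : ℕ) (i : ℤ) : kap k i * kap k i = 1 := by
  unfold kap
  split_ifs <;> norm_num

/-! ## the pieces -/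

section pieces

variable (k : ℕ) (γ : ℝ) (q : ℝ → ℝ)

noncomputable def p3_t0k (x : ℝ) : ℝ := p3_t (xi (4 * k) x)
noncomputable def p3_t1k (x : ℝ) : ℝ := deriv p3_t (xi (4 * k) x)
noncomputable def p3_t2k (x : ℝ) : ℝ := deriv (deriv p3_t) (xi (4 * k) x)
noncomputable def p3_h1k (x : ℝ) : ℝ := deriv p3_h (xi (4 * k) x)
noncomputable def p3_h2k (x : ℝ) : ℝ := deriv (deriv p3_h) (xi (4 * k) x)

/-- the shift of the `i`-th bar -/
noncomputable def p3_S (i : ℤ) (x : ℝ) : ℝ := kap k i * γ * hh k x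

noncomputable def p3_A1 (i : ℤ) (x y : ℝ) : ℝ :=
  mass k i * (b0 (y - p3_S k γ i x) + p3_t0k k x * deriv (deriv q) (y - p3_S k γ i x))

noncomputable def p3_A2 (i : ℤ) (x y : ℝ) : ℝ :=
  mass k i * (kap k i * γ * p3_h1k k x *
      (b0 (y - p3_S k γ i x) + p3_t0k k x * deriv (deriv q) (y - p3_S k γ i x))
    - p3_t1k k x * deriv q (y - p3_S k γ i x))

noncomputable def p3_A3 (i : ℤ) (x y : ℝ) : ℝ :=
  mass k i * ((γ * p3_h1k k x) ^ 2 *
      (b0 (y - p3_S k γ i x) + p3_t0k k x * deriv (deriv q) (y - p3_S k γ i x))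
    - 2 * kap k i * γ * p3_h1k k x * p3_t1k k x * deriv q (y - p3_S k γ i x)
    + p3_t2k k x * q (y - p3_S k γ i x)
    - kap k i * γ * p3_h2k k x * p3_t0k k x * deriv q (y - p3_S k γ i x))

noncomputable def p3_B (i : ℤ) (x y : ℝ) : ℝ :=
  mass k i * (deriv b2 (y - p3_S k γ i x) - deriv b2 y
    + p3_t0k k x * deriv q (y - p3_S k γ i x))

noncomputable def p3_A1x (i : ℤ) (x y : ℝ) : ℝ :=
  mass k i * (deriv b0 (y - p3_S k γ i x) * (-(kap k i * γ * p3_h1k k x))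
    + (p3_t1k k x * deriv (deriv q) (y - p3_S k γ i x)
      + p3_t0k k x * (deriv (deriv (deriv q)) (y - p3_S k γ i x) * (-(kap k i * γ * p3_h1k k x)))))

noncomputable def p3_A2y (i : ℤ) (x y : ℝ) : ℝ :=
  mass k i * (kap k i * γ * p3_h1k k x *
      (deriv b0 (y - p3_S k γ i x) + p3_t0k k x * deriv (deriv (deriv q)) (y - p3_S k γ i x))
    - p3_t1k k x * deriv (deriv q) (y - p3_S k γ i x))

noncomputable def p3_A2x (i : ℤ) (x y : ℝ) : ℝ :=
  mass k i * ((kap k i * γ * p3_h2k k x *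
      (b0 (y - p3_S k γ i x) + p3_t0k k x * deriv (deriv q) (y - p3_S k γ i x))
    + kap k i * γ * p3_h1k k x * (deriv b0 (y - p3_S k γ i x) * (-(kap k i * γ * p3_h1k k x))
    + (p3_t1k k x * deriv (deriv q) (y - p3_S k γ i x)
      + p3_t0k k x * (deriv (deriv (deriv q)) (y - p3_S k γ i x) * (-(kap k i * γ * p3_h1k k x))))))
    - (p3_t2k k x * deriv q (y - p3_S k γ i x)
      + p3_t1k k x * (deriv (deriv q) (y - p3_S k γ i x) * (-(kap k i * γ * p3_h1k k x)))))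

noncomputable def p3_A3y (i : ℤ) (x y : ℝ) : ℝ :=
  mass k i * ((γ * p3_h1k k x) ^ 2 *
      (deriv b0 (y - p3_S k γ i x) + p3_t0k k x * deriv (deriv (deriv q)) (y - p3_S k γ i x))
    - 2 * kap k i * γ * p3_h1k k x * p3_t1k k x * deriv (deriv q) (y - p3_S k γ i x)
    + p3_t2k k x * deriv q (y - p3_S k γ i x)
    - kap k i * γ * p3_h2k k x * p3_t0k k x * deriv (deriv q) (y - p3_S k γ i x))

noncomputable def p3_By (i : ℤ) (x y : ℝ) : ℝ :=
  mass k i * (b0 (y - p3_S k γ i x) - b0 y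
    + p3_t0k k x * deriv (deriv q) (y - p3_S k γ i x))

theorem p3_id1 (i : ℤ) (x y : ℝ) : p3_A1x k γ q i x y + p3_A2y k γ q i x y = 0 := by
  unfold p3_A1x p3_A2y
  ring

theorem p3_id2 (i : ℤ) (x y : ℝ) : p3_A2x k γ q i x y + p3_A3y k γ q i x y =
    γ * (p3_h2k k x * (kap k i * mass k i * b0 (y - p3_S k γ i x))) := by
  have h := p3_kap_sq k i
  unfold p3_A2x p3_A3y
  have e : ∀ X : ℝ, kap k i * γ * p3_h1k k x * (X * (-(kap k i * γ * p3_h1k k x))) =
      -((γ * p3_h1k k x) ^ 2 * X) := fun X => by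
    have : kap k i * γ * p3_h1k k x * (X * (-(kap k i * γ * p3_h1k k x))) =
      -((kap k i * kap k i) * ((γ * p3_h1k k x) ^ 2 * X)) := by ring
    rw [this, h, one_mul]
  linear_combination mass k i * (e (deriv b0 (y - p3_S k γ i x))) +
    mass k i * (e (p3_t0k k x * deriv (deriv (deriv q)) (y - p3_S k γ i x)))

variable {k γ q} (hk : 5 ≤ k)
include hk

theorem p3_L : (20:ℝ) ≤ 4 * k := by
  have : (5:ℝ) ≤ k := by exact_mod_cast hk
  linarith

theorem p3_hh_d (x : ℝ) : HasDerivAt (hh k) (p3_h1k k x) x :=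
  p3_per_deriv (p3_L hk) p3_h_cd p3_h_zero x

theorem p3_h1_d (x : ℝ) : HasDerivAt (p3_h1k k) (p3_h2k k x) x :=
  p3_per_deriv (p3_L hk) (p3_cd_deriv p3_h_cd) (p3_zero_deriv p3_h_cd p3_h_zero) x

theorem p3_t0_d (x : ℝ) : HasDerivAt (p3_t0k k) (p3_t1k k x) x :=
  p3_per_deriv (p3_L hk) p3_t_cd p3_t_zero x

theorem p3_t1_d (x : ℝ) : HasDerivAt (p3_t1k k) (p3_t2k k x) x :=
  p3_per_deriv (p3_L hk) (p3_cd_deriv p3_t_cd) (p3_zero_deriv p3_t_cd p3_t_zero) x

theorem p3_hh_cd : ContDiff ℝ ∞ (hh k) :=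
  p3_per_cd (p3_L hk) p3_h_cd p3_h_zero

theorem p3_h1_cd : ContDiff ℝ ∞ (p3_h1k k) :=
  p3_per_cd (p3_L hk) (p3_cd_deriv p3_h_cd) (p3_zero_deriv p3_h_cd p3_h_zero)

theorem p3_h2_cd : ContDiff ℝ ∞ (p3_h2k k) :=
  p3_per_cd (p3_L hk) (p3_cd_deriv (p3_cd_deriv p3_h_cd))
    (p3_zero_deriv (p3_cd_deriv p3_h_cd) (p3_zero_deriv p3_h_cd p3_h_zero))

theorem p3_t0_cd : ContDiff ℝ ∞ (p3_t0k k) :=
  p3_per_cd (p3_L hk) p3_t_cd p3_t_zero

theorem p3_t1_cd : ContDiff ℝ ∞ (p3_t1k k) :=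
  p3_per_cd (p3_L hk) (p3_cd_deriv p3_t_cd) (p3_zero_deriv p3_t_cd p3_t_zero)

theorem p3_t2_cd : ContDiff ℝ ∞ (p3_t2k k) :=
  p3_per_cd (p3_L hk) (p3_cd_deriv (p3_cd_deriv p3_t_cd))
    (p3_zero_deriv (p3_cd_deriv p3_t_cd) (p3_zero_deriv p3_t_cd p3_t_zero))

theorem p3_hh2 (x : ℝ) : iteratedDeriv 2 (hh k) x = p3_h2k k x := by
  rw [p3_it2]
  have e : deriv (hh k) = p3_h1k k := funext fun y => (p3_hh_d hk y).deriv
  rw [e]
  exact (p3_h1_d hk x).deriv

theorem p3_S_d (i : ℤ) (x y : ℝ) :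
    HasDerivAt (fun s => y - p3_S k γ i s) (-(kap k i * γ * p3_h1k k x)) x := by
  have h := ((p3_hh_d hk x).const_mul (kap k i * γ)).const_sub y
  exact h

theorem p3_fx {f : ℝ → ℝ} (hf : ContDiff ℝ ∞ f) (i : ℤ) (x y : ℝ) :
    HasDerivAt (fun s => f (y - p3_S k γ i s))
      (deriv f (y - p3_S k γ i x) * (-(kap k i * γ * p3_h1k k x))) x :=
  (p3_hd hf (y - p3_S k γ i x)).comp x (p3_S_d hk i x y)

omit hk in
theorem p3_fy {f : ℝ → ℝ} (hf : ContDiff ℝ ∞ f) (i : ℤ) (x y : ℝ) :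
    HasDerivAt (fun s => f (s - p3_S k γ i x)) (deriv f (y - p3_S k γ i x)) y :=
  (p3_hd hf (y - p3_S k γ i x)).comp_sub_const y (p3_S k γ i x)

theorem p3_fcd {f : ℝ → ℝ} (hf : ContDiff ℝ ∞ f) (i : ℤ) :
    ContDiff ℝ ∞ fun p : ℝ × ℝ => f (p.2 - p3_S k γ i p.1) := by
  refine hf.comp (contDiff_snd.sub ?_)
  exact contDiff_const.mul ((p3_hh_cd hk).comp contDiff_fst)

variable (hq : ContDiff ℝ ∞ q)
include hq

theorem p3_A1_dx (i : ℤ) (x y : ℝ) :
    HasDerivAt (fun s => p3_A1 k γ q i s y) (p3_A1x k γ q i x y) x :=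
  ((p3_fx hk p3_b0_cd i x y).add ((p3_t0_d hk x).mul
    (p3_fx hk (p3_cd_deriv (p3_cd_deriv hq)) i x y))).const_mul (mass k i)

theorem p3_A2_dx (i : ℤ) (x y : ℝ) :
    HasDerivAt (fun s => p3_A2 k γ q i s y) (p3_A2x k γ q i x y) x :=
  ((((p3_h1_d hk x).const_mul (kap k i * γ)).mul
    ((p3_fx hk p3_b0_cd i x y).add ((p3_t0_d hk x).mul
    (p3_fx hk (p3_cd_deriv (p3_cd_deriv hq)) i x y)))).sub
    ((p3_t1_d hk x).mul (p3_fx hk (p3_cd_deriv hq) i x y))).const_mul (mass k i)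

omit hk in
theorem p3_A2_dy (i : ℤ) (x y : ℝ) :
    HasDerivAt (fun s => p3_A2 k γ q i x s) (p3_A2y k γ q i x y) y :=
  ((((p3_fy p3_b0_cd i x y).add
    ((p3_fy (p3_cd_deriv (p3_cd_deriv hq)) i x y).const_mul (p3_t0k k x))).const_mul
    (kap k i * γ * p3_h1k k x)).sub
    ((p3_fy (p3_cd_deriv hq) i x y).const_mul (p3_t1k k x))).const_mul (mass k i)

omit hk in
theorem p3_A3_dy (i : ℤ) (x y : ℝ) :
    HasDerivAt (fun s => p3_A3 k γ q i x s) (p3_A3y k γ q i x y) y :=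
  ((((((p3_fy p3_b0_cd i x y).add
    ((p3_fy (p3_cd_deriv (p3_cd_deriv hq)) i x y).const_mul (p3_t0k k x))).const_mul
    ((γ * p3_h1k k x) ^ 2)).sub
    ((p3_fy (p3_cd_deriv hq) i x y).const_mul
      (2 * kap k i * γ * p3_h1k k x * p3_t1k k x))).add
    ((p3_fy hq i x y).const_mul (p3_t2k k x))).sub
    ((p3_fy (p3_cd_deriv hq) i x y).const_mul
      (kap k i * γ * p3_h2k k x * p3_t0k k x))).const_mul (mass k i)

omit hk in
theorem p3_B_dy (i : ℤ) (x y : ℝ) :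
    HasDerivAt (fun s => p3_B k γ q i x s) (p3_By k γ q i x y) y := by
  have h1 : HasDerivAt (fun s => deriv b2 (s - p3_S k γ i x)) (b0 (y - p3_S k γ i x)) y := by
    have := p3_fy (k := k) (γ := γ) (p3_cd_deriv p3_b2_cd) i x y
    rwa [← p3_b0_eq] at this
  have h2 : HasDerivAt (fun s => deriv b2 s) (b0 y) y := by
    have := p3_hd (p3_cd_deriv p3_b2_cd) y
    rwa [← p3_b0_eq] at this
  exact ((h1.sub h2).add
    ((p3_fy (p3_cd_deriv hq) i x y).const_mul (p3_t0k k x))).const_mul (mass k i)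

theorem p3_A1_cd (i : ℤ) : ContDiff ℝ ∞ fun p : ℝ × ℝ => p3_A1 k γ q i p.1 p.2 := by
  have t := (p3_t0_cd hk).comp (contDiff_fst (𝕜 := ℝ) (E := ℝ) (F := ℝ) (n := ∞))
  exact contDiff_const.mul ((p3_fcd hk p3_b0_cd i).add
    (t.mul (p3_fcd hk (p3_cd_deriv (p3_cd_deriv hq)) i)))

theorem p3_A2_cd (i : ℤ) : ContDiff ℝ ∞ fun p : ℝ × ℝ => p3_A2 k γ q i p.1 p.2 := by
  have t := (p3_t0_cd hk).comp (contDiff_fst (𝕜 := ℝ) (E := ℝ) (F := ℝ) (n := ∞))
  have t1 := (p3_t1_cd hk).comp (contDiff_fst (𝕜 := ℝ) (E := ℝ) (F := ℝ) (n := ∞))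
  have h1 := (p3_h1_cd hk).comp (contDiff_fst (𝕜 := ℝ) (E := ℝ) (F := ℝ) (n := ∞))
  exact contDiff_const.mul (((contDiff_const.mul h1).mul ((p3_fcd hk p3_b0_cd i).add
    (t.mul (p3_fcd hk (p3_cd_deriv (p3_cd_deriv hq)) i)))).sub
    (t1.mul (p3_fcd hk (p3_cd_deriv hq) i)))

theorem p3_A3_cd (i : ℤ) : ContDiff ℝ ∞ fun p : ℝ × ℝ => p3_A3 k γ q i p.1 p.2 := by
  have t := (p3_t0_cd hk).comp (contDiff_fst (𝕜 := ℝ) (E := ℝ) (F := ℝ) (n := ∞))
  have t1 := (p3_t1_cd hk).comp (contDiff_fst (𝕜 := ℝ) (E := ℝ) (F := ℝ) (n := ∞))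
  have t2 := (p3_t2_cd hk).comp (contDiff_fst (𝕜 := ℝ) (E := ℝ) (F := ℝ) (n := ∞))
  have h1 := (p3_h1_cd hk).comp (contDiff_fst (𝕜 := ℝ) (E := ℝ) (F := ℝ) (n := ∞))
  have h2 := (p3_h2_cd hk).comp (contDiff_fst (𝕜 := ℝ) (E := ℝ) (F := ℝ) (n := ∞))
  exact contDiff_const.mul ((((((contDiff_const.mul h1).pow 2).mul ((p3_fcd hk p3_b0_cd i).add
    (t.mul (p3_fcd hk (p3_cd_deriv (p3_cd_deriv hq)) i)))).sub
    (((contDiff_const.mul h1).mul t1).mul (p3_fcd hk (p3_cd_deriv hq) i))).add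
    (t2.mul (p3_fcd hk hq i))).sub
    (((contDiff_const.mul h2).mul t).mul (p3_fcd hk (p3_cd_deriv hq) i)))

theorem p3_B_cd (i : ℤ) : ContDiff ℝ ∞ fun p : ℝ × ℝ => p3_B k γ q i p.1 p.2 := by
  have t := (p3_t0_cd hk).comp (contDiff_fst (𝕜 := ℝ) (E := ℝ) (F := ℝ) (n := ∞))
  exact contDiff_const.mul (((p3_fcd hk (p3_cd_deriv p3_b2_cd) i).sub
    ((p3_cd_deriv p3_b2_cd).comp contDiff_snd)).add
    (t.mul (p3_fcd hk (p3_cd_deriv hq) i)))

end pieces

/-! ## vanishing -/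

theorem p3_S_abs (k : ℕ) (γ : ℝ) (h0 : 0 ≤ γ) (h1 : γ ≤ 1 / 8) (i : ℤ) (x : ℝ) :
    |p3_S k γ i x| ≤ 3 / 16 := by
  unfold p3_S
  rw [abs_mul, abs_mul, p3_kap_abs, one_mul, abs_of_nonneg h0]
  have h2 : |hh k x| ≤ 3 / 2 := p3_h_bd (xi (4 * k) x)
  nlinarith [abs_nonneg (hh k x)]

theorem p3_supp {k : ℕ} {γ : ℝ} {q : ℝ → ℝ} (hq : ContDiff ℝ ∞ q)
    (hq0 : ∀ r, 1 / 2 ≤ |r| → q r = 0) (i : ℤ) (x y : ℝ) (h : 1 / 2 ≤ |y - p3_S k γ i x|) :
    p3_A1 k γ q i x y = 0 ∧ p3_A2 k γ q i x y = 0 ∧ p3_A3 k γ q i x y = 0 := by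
  have e0 := hq0 _ h
  have e1 := p3_zero_deriv hq hq0 _ h
  have e2 := p3_zero_deriv (p3_cd_deriv hq) (p3_zero_deriv hq hq0) _ h
  have e3 := p3_b0_zero _ h
  unfold p3_A1 p3_A2 p3_A3
  rw [e0, e1, e2, e3]
  refine ⟨by ring, by ring, by ring⟩

theorem p3_abs_sub {k : ℕ} {γ : ℝ} (h0 : 0 ≤ γ) (h1 : γ ≤ 1 / 8) (i : ℤ) (x y : ℝ)
    (h : 3 / 2 ≤ |y|) : 1 / 2 ≤ |y - p3_S k γ i x| := by
  have h2 := p3_S_abs k γ h0 h1 i x
  have h3 := abs_sub_abs_le_abs_sub y (p3_S k γ i x)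
  linarith

theorem p3_B_zero {k : ℕ} {γ : ℝ} {q : ℝ → ℝ} (hq : ContDiff ℝ ∞ q)
    (hq0 : ∀ r, 1 / 2 ≤ |r| → q r = 0) (h0 : 0 ≤ γ) (h1 : γ ≤ 1 / 8) (i : ℤ) (x y : ℝ)
    (h : 3 / 2 ≤ |y|) : p3_B k γ q i x y = 0 := by
  have h2 := abs_le.1 (p3_S_abs k γ h0 h1 i x)
  have e1 := p3_zero_deriv hq hq0 _ (p3_abs_sub (k := k) h0 h1 i x y h)
  unfold p3_B
  rw [e1]
  rcases p3_le_abs h with h | h
  · rw [p3_b1_right _ (by linarith), p3_b1_right _ (by linarith)]; ring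
  · rw [p3_b1_left _ (by linarith), p3_b1_left _ (by linarith)]; ring

/-! ## the theorem -/

theorem exists_tilt : ∃ C : ℝ, 0 < C ∧ ∀ (k M : ℕ) (γ : ℝ), 5 ≤ k → Odd k → 1 ≤ M → 0 ≤ γ →
    γ ≤ 1 / 8 → Nonempty (Tilt k M γ C) := by
  obtain ⟨Cq, hCq, hleaf⟩ := leaf_profile
  obtain ⟨Cb, hCb0, hCb⟩ := p3_bdd p3_b0_cd.continuous p3_b0_zero
  have zt1 := p3_zero_deriv p3_t_cd p3_t_zero
  have zt2 := p3_zero_deriv (p3_cd_deriv p3_t_cd) zt1
  have zh1 := p3_zero_deriv p3_h_cd p3_h_zero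
  have zh2 := p3_zero_deriv (p3_cd_deriv p3_h_cd) zh1
  obtain ⟨T0, hT00, hT0⟩ := p3_bdd p3_t_cd.continuous p3_t_zero
  obtain ⟨T1, hT10, hT1⟩ := p3_bdd (p3_cd_deriv p3_t_cd).continuous zt1
  obtain ⟨T2, hT20, hT2⟩ := p3_bdd (p3_cd_deriv (p3_cd_deriv p3_t_cd)).continuous zt2
  obtain ⟨H1, hH10, hH1⟩ := p3_bdd (p3_cd_deriv p3_h_cd).continuous zh1
  obtain ⟨H2, hH20, hH2⟩ := p3_bdd (p3_cd_deriv (p3_cd_deriv p3_h_cd)).continuous zh2
  obtain ⟨Kc, hKc⟩ : ∃ Kc : ℝ, Kc = 1 + Cq + Cb + T0 + T1 + T2 + H1 + H2 := ⟨_, rfl⟩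
  have hK1 : 1 ≤ Kc := by rw [hKc]; linarith
  refine ⟨60 * Kc ^ 4, by positivity, fun k M γ hk _ hM h0 h1 => ?_⟩
  obtain ⟨q, hq, hq0, hqb, hql⟩ := hleaf M hM
  have kc : ((4 * k : ℝ)) > 0 := by
    have : (5:ℝ) ≤ k := by exact_mod_cast hk
    linarith
  have vA : ∀ (i : ℤ) (x y : ℝ), 3 / 2 ≤ |y| →
      p3_A1 k γ q i x y = 0 ∧ p3_A2 k γ q i x y = 0 ∧ p3_A3 k γ q i x y = 0 := fun i x y h =>
    p3_supp hq hq0 i x y (p3_abs_sub h0 h1 i x y h)
  have v1 : ∀ (i : ℤ) (x y : ℝ), 3 / 2 ≤ |y| → p3_A1 k γ q i x y = 0 := fun i x y h => (vA i x y h).1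
  have v2 : ∀ (i : ℤ) (x y : ℝ), 3 / 2 ≤ |y| → p3_A2 k γ q i x y = 0 := fun i x y h => (vA i x y h).2.1
  have v3 : ∀ (i : ℤ) (x y : ℝ), 3 / 2 ≤ |y| → p3_A3 k γ q i x y = 0 := fun i x y h => (vA i x y h).2.2
  have vB : ∀ (i : ℤ) (x y : ℝ), 3 / 2 ≤ |y| → p3_B k γ q i x y = 0 := fun i x y h =>
    p3_B_zero hq hq0 h0 h1 i x y h
  have px : ∀ x : ℝ, hh k (x + 4 * k) = hh k x ∧ p3_t0k k (x + 4 * k) = p3_t0k k x ∧
      p3_t1k k (x + 4 * k) = p3_t1k k x ∧ p3_t2k k (x + 4 * k) = p3_t2k k x ∧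
      p3_h1k k (x + 4 * k) = p3_h1k k x ∧ p3_h2k k (x + 4 * k) = p3_h2k k x := fun x => by
    have e := p3_xi_add kc x
    unfold hh p3_t0k p3_t1k p3_t2k p3_h1k p3_h2k
    rw [e]
    exact ⟨rfl, rfl, rfl, rfl, rfl, rfl⟩
  have hr : ∀ z : ℝ, |z - 4 * round (z / 4)| ≤ 2 := fun z => by
    have := abs_sub_round (z / 4)
    rw [abs_le] at this ⊢
    constructor <;> linarith [this.1, this.2]
  refine ⟨{
    a1 := p3_bar (p3_A1 k γ q)
    a2 := p3_bar (p3_A2 k γ q)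
    a3 := p3_bar (p3_A3 k γ q)
    b := p3_bar (p3_B k γ q)
    a1_s := p3_bar_cd v1 (p3_A1_cd hk hq)
    a2_s := p3_bar_cd v2 (p3_A2_cd hk hq)
    a3_s := p3_bar_cd v3 (p3_A3_cd hk hq)
    b_s := p3_bar_cd vB (p3_B_cd hk hq)
    per1 := ?_
    per2 := ?_
    eq1 := ?_
    eq2 := ?_
    mean := ?_
    far := ?_
    supp := ?_
    leaf := ?_
    bd := ?_ }⟩
  · intro x z
    obtain ⟨e1, e2, e3, e4, e5, e6⟩ := px x
    unfold p3_bar p3_A1 p3_A2 p3_A3 p3_B p3_S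
    rw [e1, e2, e3, e4, e5, e6]
    exact ⟨rfl, rfl, rfl, rfl⟩
  · intro x z
    have m := p3_mass_per k
    have κ := p3_kap_per k
    refine ⟨p3_bar_per ?_ x z, p3_bar_per ?_ x z, p3_bar_per ?_ x z, p3_bar_per ?_ x z⟩
    · intro i x y; unfold p3_A1 p3_S; rw [m, κ]
    · intro i x y; unfold p3_A2 p3_S; rw [m, κ]
    · intro i x y; unfold p3_A3 p3_S; rw [m, κ]
    · intro i x y; unfold p3_B p3_S; rw [m, κ]
  · intro x z
    have d1 := p3_bar_dx (F := p3_A1 k γ q) (F' := p3_A1x k γ q) z x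
      (fun i y => p3_A1_dx hk hq i x y)
    have d2 := p3_bar_dz (F' := p3_A2y k γ q) v2 x (fun i y => p3_A2_dy hq i x y) z
    rw [d1.deriv, d2.deriv]
    exact p3_id1 k γ q _ _ _
  · intro x z
    have d1 := p3_bar_dx (F := p3_A2 k γ q) (F' := p3_A2x k γ q) z x
      (fun i y => p3_A2_dx hk hq i x y)
    have d2 := p3_bar_dz (F' := p3_A3y k γ q) v3 x (fun i y => p3_A3_dy hq i x y) z
    rw [d1.deriv, d2.deriv]
    refine (p3_id2 k γ q _ _ _).trans ?_
    unfold ff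
    rw [p3_hh2 hk]
    rfl
  · intro x z
    have d := p3_bar_dz (F' := p3_By k γ q) vB x (fun i y => p3_B_dy hq i x y) z
    rw [d.deriv]
    unfold p3_bar p3_A1 p3_By pp barfun
    rw [sub_zero]
    ring
  · intro x z hx
    have hx' : 29 / 10 ≤ |xi (4 * (k:ℝ)) x| := hx
    have eh : hh k x = 0 := p3_h_zero _ hx'
    have e1 : p3_h1k k x = 0 := zh1 _ hx'
    have e0 : p3_t0k k x = 0 := p3_t_zero _ hx'
    have e2 : p3_t1k k x = 0 := zt1 _ hx'
    have e3 : p3_t2k k x = 0 := zt2 _ hx'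
    have eS : ∀ i, p3_S k γ i x = 0 := fun i => by unfold p3_S; rw [eh, mul_zero]
    refine ⟨?_, ?_, ?_, ?_⟩
    · unfold p3_bar p3_B
      rw [eS, e0, sub_zero]; ring
    · unfold p3_bar p3_A1 pp barfun
      rw [eS, e0, sub_zero]; ring
    · unfold p3_bar p3_A2
      rw [e1, e2]; ring
    · unfold p3_bar p3_A3
      rw [e1, e2, e3, e0]; ring
  · intro x z hne
    refine ⟨round (z / 4), p3_mass_ne k _ fun hm => ?_, ?_⟩
    · rcases hne with h | h | h
      · exact h (by unfold p3_bar p3_A1; rw [hm, zero_mul])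
      · exact h (by unfold p3_bar p3_A2; rw [hm, zero_mul])
      · exact h (by unfold p3_bar p3_A3; rw [hm, zero_mul])
    · by_contra hlt
      push Not at hlt
      have hS := p3_S_abs k γ h0 h1 (round (z / 4)) x
      have h3 := abs_sub_abs_le_abs_sub (z - 4 * round (z / 4)) (p3_S k γ (round (z / 4)) x)
      have hv := p3_supp hq hq0 (round (z / 4)) x (z - 4 * round (z / 4)) (k := k) (γ := γ)
        (by linarith)
      rcases hne with h | h | h
      · exact h hv.1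
      · exact h hv.2.1
      · exact h hv.2.2
  · intro x z hx1 hx2 hne
    have hx2' : |xi (4 * (k:ℝ)) x| < 21 / 10 := by linarith
    have e0 : p3_t0k k x = 1 := p3_t_one _ hx2'.le
    have e1 : p3_t1k k x = 0 := (p3_t_loc _ hx2').1
    have e2 : p3_t2k k x = 0 := (p3_t_loc _ hx2').2
    have e3 : p3_h2k k x = 0 := p3_h_loc _ hx1 hx2
    have key : mass k (round (z / 4)) ≠ 0 ∧
        b0 (z - 4 * round (z / 4) - p3_S k γ (round (z / 4)) x) +
          iteratedDeriv 2 q (z - 4 * round (z / 4) - p3_S k γ (round (z / 4)) x) ≠ 0 := by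
      rw [p3_it2]
      constructor
      · intro hm
        rcases hne with h | h | h
        · exact h (by unfold p3_bar p3_A1; rw [hm, zero_mul])
        · exact h (by unfold p3_bar p3_A2; rw [hm, zero_mul])
        · exact h (by unfold p3_bar p3_A3; rw [hm, zero_mul])
      · intro hm
        rcases hne with h | h | h
        · exact h (by unfold p3_bar p3_A1; rw [e0, one_mul, hm, mul_zero])
        · exact h (by unfold p3_bar p3_A2; rw [e0, one_mul, hm, e1]; ring)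
        · exact h (by unfold p3_bar p3_A3; rw [e0, one_mul, hm, e1, e2, e3]; ring)
    obtain ⟨g1, m, g2⟩ := hql _ key.2
    exact ⟨round (z / 4), p3_mass_ne k _ key.1, g1, m, g2⟩
  · intro x z
    set i := round (z / 4) with hi
    set r := z - 4 * i - p3_S k γ i x with hrdef
    have hm := p3_mass_bd k i
    have hκ := p3_kap_abs k i
    have b_0 : |b0 r| ≤ Kc := (hCb r).trans (by rw [hKc]; linarith)
    have b_q : |q r| ≤ Kc := (hqb r).1.trans (by rw [hKc]; linarith)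
    have b_q1 : |deriv q r| ≤ Kc := (hqb r).2.1.trans (by rw [hKc]; linarith)
    have b_q2 : |deriv (deriv q) r| ≤ Kc := by
      have := (hqb r).2.2
      rw [p3_it2] at this
      exact this.trans (by rw [hKc]; linarith)
    have b_t0 : |p3_t0k k x| ≤ Kc := (hT0 _).trans (by rw [hKc]; linarith)
    have b_t1 : |p3_t1k k x| ≤ Kc := (hT1 _).trans (by rw [hKc]; linarith)
    have b_t2 : |p3_t2k k x| ≤ Kc := (hT2 _).trans (by rw [hKc]; linarith)
    have b_h1 : |p3_h1k k x| ≤ Kc := (hH1 _).trans (by rw [hKc]; linarith)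
    have b_h2 : |p3_h2k k x| ≤ Kc := (hH2 _).trans (by rw [hKc]; linarith)
    have hγ : |γ| ≤ 1 := by rw [abs_of_nonneg h0]; linarith
    have hK0 : 0 ≤ Kc := by linarith
    have mul2 : ∀ {a b A B : ℝ}, |a| ≤ A → |b| ≤ B → |a * b| ≤ A * B := fun {a b A B} ha hb => by
      rw [abs_mul]; exact mul_le_mul ha hb (abs_nonneg _) ((abs_nonneg _).trans ha)
    have b_s : |b0 r + p3_t0k k x * deriv (deriv q) r| ≤ Kc + Kc * Kc :=
      (abs_add_le _ _).trans (add_le_add b_0 (mul2 b_t0 b_q2))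
    have b_gh : |kap k i * γ * p3_h1k k x| ≤ 1 * 1 * Kc := mul2 (mul2 hκ.le hγ) b_h1
    have b_gh' : |γ * p3_h1k k x| ≤ 1 * Kc := mul2 hγ b_h1
    have pK2 : Kc ≤ Kc ^ 4 := by
      calc Kc = Kc ^ 1 := (pow_one _).symm
        _ ≤ Kc ^ 4 := pow_le_pow_right₀ hK1 (by norm_num)
    have pK3 : Kc ^ 2 ≤ Kc ^ 4 := pow_le_pow_right₀ hK1 (by norm_num)
    have pK4 : Kc ^ 3 ≤ Kc ^ 4 := pow_le_pow_right₀ hK1 (by norm_num)
    have pK0 : 0 ≤ Kc ^ 4 := by positivity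
    refine ⟨?_, ?_, ?_⟩
    · show |mass k i * (b0 r + p3_t0k k x * deriv (deriv q) r)| ≤ _
      refine (mul2 hm b_s).trans ?_
      nlinarith
    · show |mass k i * (kap k i * γ * p3_h1k k x * (b0 r + p3_t0k k x * deriv (deriv q) r)
        - p3_t1k k x * deriv q r)| ≤ _
      have h3 := mul2 b_gh b_s
      have h4 := mul2 b_t1 b_q1
      have h5 : |kap k i * γ * p3_h1k k x * (b0 r + p3_t0k k x * deriv (deriv q) r)
        - p3_t1k k x * deriv q r| ≤ 1 * 1 * Kc * (Kc + Kc * Kc) + Kc * Kc :=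
        (abs_sub _ _).trans (add_le_add h3 h4)
      refine (mul2 hm h5).trans ?_
      nlinarith
    · show |mass k i * ((γ * p3_h1k k x) ^ 2 * (b0 r + p3_t0k k x * deriv (deriv q) r)
        - 2 * kap k i * γ * p3_h1k k x * p3_t1k k x * deriv q r + p3_t2k k x * q r
        - kap k i * γ * p3_h2k k x * p3_t0k k x * deriv q r)| ≤ _
      have c1 : |(γ * p3_h1k k x) ^ 2 * (b0 r + p3_t0k k x * deriv (deriv q) r)| ≤
          (1 * Kc) * (1 * Kc) * (Kc + Kc * Kc) := by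
        rw [pow_two]; exact mul2 (mul2 b_gh' b_gh') b_s
      have c2 : |2 * kap k i * γ * p3_h1k k x * p3_t1k k x * deriv q r| ≤
          2 * 1 * 1 * Kc * Kc * Kc := by
        refine mul2 (mul2 (mul2 (mul2 (mul2 ?_ hκ.le) hγ) b_h1) b_t1) b_q1
        norm_num
      have c3 : |p3_t2k k x * q r| ≤ Kc * Kc := mul2 b_t2 b_q
      have c4 : |kap k i * γ * p3_h2k k x * p3_t0k k x * deriv q r| ≤ 1 * 1 * Kc * Kc * Kc :=
        mul2 (mul2 (mul2 (mul2 hκ.le hγ) b_h2) b_t0) b_q1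
      have c5 := (abs_sub ((γ * p3_h1k k x) ^ 2 * (b0 r + p3_t0k k x * deriv (deriv q) r)
        - 2 * kap k i * γ * p3_h1k k x * p3_t1k k x * deriv q r + p3_t2k k x * q r)
        (kap k i * γ * p3_h2k k x * p3_t0k k x * deriv q r))
      have c6 := (abs_add_le ((γ * p3_h1k k x) ^ 2 * (b0 r + p3_t0k k x * deriv (deriv q) r)
        - 2 * kap k i * γ * p3_h1k k x * p3_t1k k x * deriv q r) (p3_t2k k x * q r))
      have c7 := (abs_sub ((γ * p3_h1k k x) ^ 2 * (b0 r + p3_t0k k x * deriv (deriv q) r))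
        (2 * kap k i * γ * p3_h1k k x * p3_t1k k x * deriv q r))
      have c8 : |(γ * p3_h1k k x) ^ 2 * (b0 r + p3_t0k k x * deriv (deriv q) r)
        - 2 * kap k i * γ * p3_h1k k x * p3_t1k k x * deriv q r + p3_t2k k x * q r
        - kap k i * γ * p3_h2k k x * p3_t0k k x * deriv q r| ≤
          (1 * Kc) * (1 * Kc) * (Kc + Kc * Kc) + 2 * 1 * 1 * Kc * Kc * Kc + Kc * Kc +
            1 * 1 * Kc * Kc * Kc := by linarith
      refine (mul2 hm c8).trans ?_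
      nlinarith

end Pool.Agent.ShearComposite.D3
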