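import Pool.Agent.ShearComposite3.ProfEx
import Pool.Agent.ShearComposite3.TiltEx
import Pool.Agent.ShearComposite3.BaseMean
import Pool.Agent.ShearComposite3.CellB

set_option autoImplicit false

open MeasureTheory Metric
open scoped ContDiff

namespace Pool.Agent.ShearComposite.D3

/-- the small vertical force -/
noncomputable def fz (k : ℕ) (γ β τ : ℝ) (x : E3) : ℝ :=
  ff k γ (x 0) (x 2) * (-β * pg k (x 1) - τ * xi (4 * k) (x 0) * deriv (pg k) (x 1))
    + ff k γ (x 1) (x 2) * (β * pg k (x 0) - τ * xi (4 * k) (x 1) * deriv (pg k) (x 0))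

/-! ### distance to the walls -/

theorem p6_xi_le {L : ℝ} (hL : 0 < L) (x : ℝ) (n : ℤ) : |xi L x| ≤ |x - L * n| := by
  unfold xi
  have h := round_le (x / L) n
  have h1 : x - L * round (x / L) = L * (x / L - round (x / L)) := by field_simp
  have h2 : x - L * n = L * (x / L - n) := by field_simp
  rw [h1, h2, abs_mul, abs_mul]
  exact mul_le_mul_of_nonneg_left h (abs_nonneg _)

theorem p6_xi_lip {L : ℝ} (hL : 0 < L) (x y : ℝ) : |xi L x| ≤ |xi L y| + |x - y| := by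
  have h := p6_xi_le hL x (round (y / L))
  have h1 : x - L * round (y / L) = xi L y + (x - y) := by unfold xi; ring
  rw [h1] at h
  exact h.trans (abs_add_le _ _)

theorem p6_near_lt {L : ℝ} (hL : 0 < L) {x r : ℝ} (h : |xi L x| < r) :
    ∀ᶠ y in nhds x, |xi L y| < r := by
  have h1 : 0 < r - |xi L x| := by linarith
  filter_upwards [Metric.ball_mem_nhds x h1] with y hy
  rw [Metric.mem_ball, Real.dist_eq] at hy
  have := p6_xi_lip hL y x
  linarith

theorem p6_near_gt {L : ℝ} (hL : 0 < L) {x r : ℝ} (h : r < |xi L x|) :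
    ∀ᶠ y in nhds x, r < |xi L y| := by
  have h1 : 0 < |xi L x| - r := by linarith
  filter_upwards [Metric.ball_mem_nhds x h1] with y hy
  rw [Metric.mem_ball, Real.dist_eq] at hy
  have := p6_xi_lip hL x y
  rw [abs_sub_comm] at this
  linarith

theorem p6_per_int {φ : ℝ → ℝ} {L : ℝ} (h : ∀ x, φ (x + L) = φ x) (x : ℝ) (n : ℤ) :
    φ (x - L * n) = φ x := by
  have h1 : Function.Periodic φ L := h
  have h2 := h1.sub_int_mul_eq (x := x) n
  rw [mul_comm L]
  exact h2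

theorem p6_xi_per {φ : ℝ → ℝ} {L : ℝ} (h : ∀ x, φ (x + L) = φ x) (x : ℝ) :
    φ (xi L x) = φ x := p6_per_int h x _

/-! ### profiles -/

section prof

variable {k : ℕ} {C : ℝ} (P : Prof k C)

theorem p6_it_s {φ : ℝ → ℝ} (h : ContDiff ℝ ∞ φ) (n : ℕ) : ContDiff ℝ ∞ (iteratedDeriv n φ) := by
  rw [iteratedDeriv_eq_iterate]
  exact h.iterate_deriv n

theorem p6_deriv_s {φ : ℝ → ℝ} (h : ContDiff ℝ ∞ φ) : ContDiff ℝ ∞ (deriv φ) := by
  have := p6_it_s h 1
  rwa [iteratedDeriv_one] at this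

include P in
theorem p6_pp_s : ContDiff ℝ ∞ (pp k) := by
  have h : pp k = fun x => 1 - iteratedDeriv 2 P.W x - iteratedDeriv 2 P.K x := by
    ext x
    have := P.K2 x
    linarith
  rw [h]
  exact (contDiff_const.sub (p6_it_s P.W_s 2)).sub (p6_it_s P.K_s 2)

include P in
theorem p6_pg_s : ContDiff ℝ ∞ (pg k) := by
  have h : pg k = fun x => 1 - iteratedDeriv 2 P.W x - iteratedDeriv 2 P.Kb x := by
    ext x
    have := P.Kb2 x
    linarith
  rw [h]
  exact (contDiff_const.sub (p6_it_s P.W_s 2)).sub (p6_it_s P.Kb_s 2)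

theorem p6_deriv_per {φ : ℝ → ℝ} {L : ℝ} (h : ∀ x, φ (x + L) = φ x) (x : ℝ) :
    deriv φ (x + L) = deriv φ x := by
  have h1 : (fun y => φ (y + L)) = φ := funext h
  calc deriv φ (x + L) = deriv (fun y => φ (y + L)) x := (deriv_comp_add_const φ L x).symm
    _ = deriv φ x := by rw [h1]

theorem p6_it_per {φ : ℝ → ℝ} {L : ℝ} (h : ∀ x, φ (x + L) = φ x) (n : ℕ) (x : ℝ) :
    iteratedDeriv n φ (x + L) = iteratedDeriv n φ x := by
  induction n generalizing x with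
  | zero => simpa using h x
  | succ n ih =>
    rw [iteratedDeriv_succ]
    exact p6_deriv_per ih x

include P in
theorem p6_pp_per (x : ℝ) : pp k (x + 4 * k) = pp k x := by
  have h1 := P.K2 x
  have h2 := P.K2 (x + 4 * k)
  rw [p6_it_per (fun y => (P.per y).2.2.1), p6_it_per (fun y => (P.per y).2.1)] at h2
  linarith

include P in
theorem p6_pg_per (x : ℝ) : pg k (x + 4 * k) = pg k x := by
  have h1 := P.Kb2 x
  have h2 := P.Kb2 (x + 4 * k)
  rw [p6_it_per (fun y => (P.per y).2.2.2), p6_it_per (fun y => (P.per y).2.1)] at h2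
  linarith

theorem p6_sq (c x : ℝ) : HasDerivAt (fun y : ℝ => (y - c) ^ 2 / 2) (x - c) x := by
  have h : HasDerivAt (fun y : ℝ => (y - c) ^ 2 / 2) (((2 : ℕ) * (x - c) ^ (2 - 1) * 1) / 2) x :=
    (((hasDerivAt_id x).sub_const c).pow 2).div_const 2
  have h2 : (((2 : ℕ) * (x - c) ^ (2 - 1) * 1) / 2 : ℝ) = x - c := by
    norm_num
  rwa [h2] at h

/-- near a wall -/
theorem p6_W_near (hk : 0 < k) {x : ℝ} (h : |xi (4 * k) x| < 3) :
    ∃ n : ℤ, P.W =ᶠ[nhds x] (fun y : ℝ => (y - 4 * k * n) ^ 2 / 2) ∧ x - 4 * k * n = xi (4 * k) x := by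
  have hL : (0 : ℝ) < 4 * k := by positivity
  refine ⟨round (x / (4 * k)), ?_, rfl⟩
  have h0 : |x - 4 * k * round (x / (4 * k))| < 3 := h
  have h1 : ∀ᶠ y : ℝ in nhds x, |y - 4 * k * round (x / (4 * k))| < 3 := by
    have hc : Continuous fun y : ℝ => |y - 4 * k * round (x / (4 * k))| := by fun_prop
    exact hc.continuousAt.eventually_lt continuousAt_const h0
  filter_upwards [h1] with y hy
  rw [← p6_per_int (fun x => (P.per x).2.1) y (round (x / (4 * k)))]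
  exact (P.near _ hy.le).2.1

theorem p6_dW_near (hk : 0 < k) {x : ℝ} (h : |xi (4 * k) x| < 3) :
    deriv P.W x = xi (4 * k) x := by
  obtain ⟨n, hn, hx⟩ := p6_W_near P hk h
  rw [hn.deriv_eq, ← hx]
  exact (p6_sq (4 * k * n) x).deriv

theorem p6_ddW_near (hk : 0 < k) {x : ℝ} (h : |xi (4 * k) x| < 3) :
    deriv (deriv P.W) x = 1 := by
  obtain ⟨n, hn, hx⟩ := p6_W_near P hk h
  have h1 : deriv P.W =ᶠ[nhds x] fun y : ℝ => y - 4 * k * n := by
    filter_upwards [hn.eventuallyEq_nhds] with y hy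
    rw [hy.deriv_eq]
    exact (p6_sq (4 * k * n) y).deriv
  rw [h1.deriv_eq]
  have h1 : HasDerivAt (fun y : ℝ => y - 4 * k * n) 1 x :=
    (hasDerivAt_id x).sub_const (4 * k * n : ℝ)
  exact h1.deriv

theorem p6_zero_near (hk : 0 < k) {φ : ℝ → ℝ} (hφ : ∀ x, φ (x + 4 * k) = φ x)
    (h3 : ∀ x, |x| ≤ 3 → φ x = 0) {x : ℝ} (h : |xi (4 * k) x| < 3) : φ =ᶠ[nhds x] fun _ => 0 := by
  have hL : (0 : ℝ) < 4 * k := by positivity
  filter_upwards [p6_near_lt hL h] with y hy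
  rw [← p6_xi_per hφ]
  exact h3 _ hy.le

include P in
theorem p6_pp_near (hk : 0 < k) {x : ℝ} (h : |xi (4 * k) x| < 3) : pp k x = 0 := by
  have h1 := P.K2 x
  have h2 : iteratedDeriv 2 P.K x = 0 := by
    have := (p6_zero_near hk (fun y => (P.per y).2.2.1) (fun y hy => (P.near y hy).2.2.1) h)
    rw [(this.iteratedDeriv_eq 2)]
    simp
  have h3 : iteratedDeriv 2 P.W x = 1 := by
    rw [iteratedDeriv_succ, iteratedDeriv_one]
    exact p6_ddW_near P hk h
  linarith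

include P in
theorem p6_pg_near (hk : 0 < k) {x : ℝ} (h : |xi (4 * k) x| < 3) : pg k x = 0 := by
  have h1 := P.Kb2 x
  have h2 : iteratedDeriv 2 P.Kb x = 0 := by
    have := (p6_zero_near hk (fun y => (P.per y).2.2.2) (fun y hy => (P.near y hy).2.2.2) h)
    rw [(this.iteratedDeriv_eq 2)]
    simp
  have h3 : iteratedDeriv 2 P.W x = 1 := by
    rw [iteratedDeriv_succ, iteratedDeriv_one]
    exact p6_ddW_near P hk h
  linarith

include P in
theorem p6_dpg_near (hk : 0 < k) {x : ℝ} (h : |xi (4 * k) x| < 3) : deriv (pg k) x = 0 := by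
  have hL : (0 : ℝ) < 4 * k := by positivity
  have h1 : pg k =ᶠ[nhds x] fun _ => 0 := by
    filter_upwards [p6_near_lt hL h] with y hy
    exact p6_pg_near P hk hy
  rw [h1.deriv_eq, deriv_const]

end prof

/-! ### the density of the small force -/

theorem p6_hh_far {k : ℕ} (hk : 0 < k) {x : ℝ} (h : 29 / 10 < |xi (4 * k) x|) :
    iteratedDeriv 2 (hh k) x = 0 := by
  have hL : (0 : ℝ) < 4 * k := by positivity
  have h1 : hh k =ᶠ[nhds x] fun _ => 0 := by
    filter_upwards [p6_near_gt hL h] with y hy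
    unfold hh cut
    rw [Real.smoothTransition.zero_of_nonpos, mul_zero]
    apply div_nonpos_of_nonpos_of_nonneg _ (by norm_num)
    have h2 : (29 / 10 : ℝ) ^ 2 < xi (4 * k) y ^ 2 := by
      rw [← sq_abs (xi (4 * k) y)]
      gcongr
    linarith
  rw [h1.iteratedDeriv_eq 2]
  simp

theorem p6_ff_far {k : ℕ} (hk : 0 < k) (γ z : ℝ) {x : ℝ} (h : 29 / 10 < |xi (4 * k) x|) :
    ff k γ x z = 0 := by
  unfold ff
  rw [p6_hh_far hk h, zero_mul]

/-! ### partial derivatives -/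

theorem p6_pd_eq {f : E3 → ℝ} {x : E3} (hf : DifferentiableAt ℝ f x) (j : Fin 3) :
    pd j f x = deriv (fun s : ℝ => f (x + s • ee j)) 0 := by
  have := hf.lineDeriv_eq_fderiv (v := ee j)
  unfold pd
  rw [← this]
  rfl

theorem p6_pd_mul {f g : E3 → ℝ} {x : E3} (hf : DifferentiableAt ℝ f x)
    (hg : DifferentiableAt ℝ g x) (j : Fin 3) :
    pd j (fun y => f y * g y) x = pd j f x * g x + f x * pd j g x := by
  unfold pd
  rw [fderiv_fun_mul hf hg]
  simp
  ring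

theorem p6_pd_add {f g : E3 → ℝ} {x : E3} (hf : DifferentiableAt ℝ f x)
    (hg : DifferentiableAt ℝ g x) (j : Fin 3) :
    pd j (fun y => f y + g y) x = pd j f x + pd j g x := by
  unfold pd
  rw [fderiv_fun_add hf hg]
  simp

theorem p6_pd_sub {f g : E3 → ℝ} {x : E3} (hf : DifferentiableAt ℝ f x)
    (hg : DifferentiableAt ℝ g x) (j : Fin 3) :
    pd j (fun y => f y - g y) x = pd j f x - pd j g x := by
  unfold pd
  rw [fderiv_fun_sub hf hg]
  simp

theorem p6_pd_neg {f : E3 → ℝ} {x : E3} (j : Fin 3) :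
    pd j (fun y => -f y) x = -pd j f x := by
  unfold pd
  rw [fderiv_fun_neg]
  simp

theorem p6_pd_const (c : ℝ) (x : E3) (j : Fin 3) : pd j (fun _ => c) x = 0 := by
  unfold pd
  simp

theorem p6_coord (x : E3) (s : ℝ) (i j : Fin 3) :
    (x + s • ee j) i = if i = j then x i + s else x i := by
  simp only [PiLp.add_apply, PiLp.smul_apply, PiLp.single_apply, smul_eq_mul]
  split_ifs <;> simp

theorem p6_coord_s (i : Fin 3) : ContDiff ℝ ∞ fun x : E3 => x i :=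
  (EuclideanSpace.proj i : E3 →L[ℝ] ℝ).contDiff

theorem p6_diff {f : E3 → ℝ} (hf : ContDiff ℝ ∞ f) (x : E3) : DifferentiableAt ℝ f x :=
  (hf.differentiable (by simp)).differentiableAt

theorem p6_pd_one {φ : ℝ → ℝ} (hφ : ContDiff ℝ ∞ φ) (i j : Fin 3) (x : E3) :
    pd j (fun y => φ (y i)) x = if i = j then deriv φ (x i) else 0 := by
  have hs : ContDiff ℝ ∞ fun y : E3 => φ (y i) := hφ.comp (p6_coord_s i)
  rw [p6_pd_eq (p6_diff hs x)]
  by_cases h : i = j
  · subst h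
    simp only [p6_coord, if_true]
    rw [deriv_comp_const_add φ (x i) 0, add_zero]
  · simp only [p6_coord, if_neg h, deriv_const]

theorem p6_pd_two {a : ℝ → ℝ → ℝ} (ha : ContDiff ℝ ∞ fun q : ℝ × ℝ => a q.1 q.2) (i l j : Fin 3)
    (hil : i ≠ l) (x : E3) :
    pd j (fun y => a (y i) (y l)) x = (if i = j then deriv (fun s => a s (x l)) (x i) else 0) +
      (if l = j then deriv (fun s => a (x i) s) (x l) else 0) := by
  have hs : ContDiff ℝ ∞ fun y : E3 => a (y i) (y l) :=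
    ha.comp ((p6_coord_s i).prodMk (p6_coord_s l))
  rw [p6_pd_eq (p6_diff hs x)]
  by_cases h : i = j
  · subst h
    have hl : ¬ l = i := fun h => hil h.symm
    simp only [p6_coord, if_true, if_neg hl, add_zero]
    rw [deriv_comp_const_add (fun s => a s (x l)) (x i) 0, add_zero]
  · by_cases h' : l = j
    · subst h'
      simp only [p6_coord, if_true, if_neg h, zero_add]
      rw [deriv_comp_const_add (fun s => a (x i) s) (x l) 0, add_zero]
    · simp only [p6_coord, if_neg h, if_neg h', deriv_const, add_zero]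

/-! ### the leaf field -/

section leaf

variable {k M : ℕ} {γ C C' : ℝ} (P : Prof k C) (t : Tilt k M γ C')

/-- first component -/
noncomputable def p6A (i : Fin 3) (x : E3) : ℝ := t.a1 (x i) (x 2) - pp k (x 2)

/-- second component -/
noncomputable def p6B (i : Fin 3) (x : E3) : ℝ := t.a2 (x i) (x 2)

/-- third component -/
noncomputable def p6C (i : Fin 3) (x : E3) : ℝ := t.a3 (x i) (x 2)

/-- coefficient -/
noncomputable def p6G (b τ : ℝ) (i j : Fin 3) (x : E3) : ℝ :=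
  b * pg k (x j) - τ * deriv P.W (x i) * deriv (pg k) (x j)

/-- coefficient -/
noncomputable def p6H (k : ℕ) (τ : ℝ) (j : Fin 3) (x : E3) : ℝ := -τ * pg k (x j)

include P in
theorem p6A_s (i : Fin 3) : ContDiff ℝ ∞ (p6A t i) := by
  unfold p6A
  exact (t.a1_s.comp ((p6_coord_s i).prodMk (p6_coord_s 2))).sub
    ((p6_pp_s P).comp (p6_coord_s 2))

theorem p6B_s (i : Fin 3) : ContDiff ℝ ∞ (p6B t i) := by
  unfold p6B
  exact t.a2_s.comp ((p6_coord_s i).prodMk (p6_coord_s 2))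

theorem p6C_s (i : Fin 3) : ContDiff ℝ ∞ (p6C t i) := by
  unfold p6C
  exact t.a3_s.comp ((p6_coord_s i).prodMk (p6_coord_s 2))

theorem p6G_s (b τ : ℝ) (i j : Fin 3) : ContDiff ℝ ∞ (p6G P b τ i j) := by
  unfold p6G
  exact (contDiff_const.mul ((p6_pg_s P).comp (p6_coord_s j))).sub
    ((contDiff_const.mul ((p6_deriv_s P.W_s).comp (p6_coord_s i))).mul
      ((p6_deriv_s (p6_pg_s P)).comp (p6_coord_s j)))

include P in
theorem p6H_s (τ : ℝ) (j : Fin 3) : ContDiff ℝ ∞ (p6H k τ j) := by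
  unfold p6H
  exact contDiff_const.mul ((p6_pg_s P).comp (p6_coord_s j))

include P in
theorem p6_pdA (i j : Fin 3) (hi : i ≠ 2) (x : E3) : pd j (p6A t i) x =
    (if i = j then deriv (fun s => t.a1 s (x 2)) (x i) else 0) +
      (if 2 = j then deriv (fun s => t.a1 (x i) s) (x 2) - deriv (pp k) (x 2) else 0) := by
  have h1 : ContDiff ℝ ∞ fun y : E3 => t.a1 (y i) (y 2) :=
    t.a1_s.comp ((p6_coord_s i).prodMk (p6_coord_s 2))
  have h2 : ContDiff ℝ ∞ fun y : E3 => pp k (y 2) := (p6_pp_s P).comp (p6_coord_s 2)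
  unfold p6A
  rw [p6_pd_sub (p6_diff h1 x) (p6_diff h2 x), p6_pd_two t.a1_s i 2 j hi, p6_pd_one (p6_pp_s P)]
  split_ifs <;> ring

theorem p6_pdB (i j : Fin 3) (hi : i ≠ 2) (x : E3) : pd j (p6B t i) x =
    (if i = j then deriv (fun s => t.a2 s (x 2)) (x i) else 0) +
      (if 2 = j then deriv (fun s => t.a2 (x i) s) (x 2) else 0) := by
  unfold p6B
  rw [p6_pd_two t.a2_s i 2 j hi]

theorem p6_pdC (i j : Fin 3) (hi : i ≠ 2) (x : E3) : pd j (p6C t i) x =
    (if i = j then deriv (fun s => t.a3 s (x 2)) (x i) else 0) +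
      (if 2 = j then deriv (fun s => t.a3 (x i) s) (x 2) else 0) := by
  unfold p6C
  rw [p6_pd_two t.a3_s i 2 j hi]

theorem p6_pdG (b τ : ℝ) (i j l : Fin 3) (x : E3) : pd l (p6G P b τ i j) x =
    (if i = l then -τ * deriv (deriv P.W) (x i) * deriv (pg k) (x j) else 0) +
      (if j = l then b * deriv (pg k) (x j) -
        τ * deriv P.W (x i) * deriv (deriv (pg k)) (x j) else 0) := by
  have h1 : ContDiff ℝ ∞ fun y : E3 => pg k (y j) := (p6_pg_s P).comp (p6_coord_s j)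
  have h2 : ContDiff ℝ ∞ fun y : E3 => deriv P.W (y i) := (p6_deriv_s P.W_s).comp (p6_coord_s i)
  have h3 : ContDiff ℝ ∞ fun y : E3 => deriv (pg k) (y j) :=
    (p6_deriv_s (p6_pg_s P)).comp (p6_coord_s j)
  have h4 : ContDiff ℝ ∞ fun _ : E3 => b := contDiff_const
  have h5 : ContDiff ℝ ∞ fun _ : E3 => τ := contDiff_const
  unfold p6G
  rw [p6_pd_sub (p6_diff (h4.mul h1) x) (p6_diff ((h5.mul h2).mul h3) x),
    p6_pd_mul (p6_diff h4 x) (p6_diff h1 x), p6_pd_mul (p6_diff (h5.mul h2) x) (p6_diff h3 x),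
    p6_pd_mul (p6_diff h5 x) (p6_diff h2 x), p6_pd_const, p6_pd_const, p6_pd_one (p6_pg_s P),
    p6_pd_one (p6_deriv_s P.W_s), p6_pd_one (p6_deriv_s (p6_pg_s P))]
  split_ifs <;> ring

include P in
theorem p6_pdH (τ : ℝ) (j l : Fin 3) (x : E3) : pd l (p6H k τ j) x =
    if j = l then -τ * deriv (pg k) (x j) else 0 := by
  have h1 : ContDiff ℝ ∞ fun y : E3 => pg k (y j) := (p6_pg_s P).comp (p6_coord_s j)
  have h4 : ContDiff ℝ ∞ fun _ : E3 => -τ := contDiff_const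
  unfold p6H
  rw [p6_pd_mul (p6_diff h4 x) (p6_diff h1 x), p6_pd_const, p6_pd_one (p6_pg_s P)]
  split_ifs <;> ring

/-- the cancellation near the walls -/
theorem p6_cancel (hk : 0 < k) (i : Fin 3) (x : E3) (f : ℝ)
    (hf : 29 / 10 ≤ |xi (4 * k) (x i)| → f = 0) : f * (deriv (deriv P.W) (x i) - 1) = 0 := by
  rcases lt_or_ge (|xi (4 * k) (x i)|) 3 with h | h
  · rw [p6_ddW_near P hk h, sub_self, mul_zero]
  · rw [hf (by linarith), zero_mul]

theorem p6A_far (i : Fin 3) (x : E3) (h : 29 / 10 ≤ |xi (4 * k) (x i)|) : p6A t i x = 0 := by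
  unfold p6A
  rw [(t.far _ _ h).2.1, sub_self]

theorem p6B_far (i : Fin 3) (x : E3) (h : 29 / 10 ≤ |xi (4 * k) (x i)|) : p6B t i x = 0 :=
  (t.far _ _ h).2.2.1

theorem p6C_far (i : Fin 3) (x : E3) (h : 29 / 10 ≤ |xi (4 * k) (x i)|) : p6C t i x = 0 :=
  (t.far _ _ h).2.2.2

/-- first row -/
theorem p6_row1 (hk : 0 < k) (b τ : ℝ) (i j : Fin 3) (hij : i ≠ j) (hi : i ≠ 2) (hj : j ≠ 2)
    (x : E3) : pd i (fun y => p6A t i y * p6G P b τ i j y) x +
      pd j (fun y => -(p6A t i y * p6H k τ j y)) x +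
      pd 2 (fun y => p6B t i y * p6G P b τ i j y) x = 0 := by
  have dA := p6_diff (p6A_s P t i) x
  have dB := p6_diff (p6B_s t i) x
  have dG := p6_diff (p6G_s P b τ i j) x
  have dH := p6_diff (p6H_s P τ j) x
  rw [p6_pd_mul dA dG, p6_pd_neg, p6_pd_mul dA dH, p6_pd_mul dB dG, p6_pdA P t i _ hi,
    p6_pdA P t i _ hi, p6_pdB t i _ hi, p6_pdG P b τ i j, p6_pdG P b τ i j,
    p6_pdH P]
  have h1 := t.eq1 (x i) (x 2)
  have h2 := p6_cancel P hk i x (p6A t i x) (p6A_far t i x)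
  have hi' : ¬ (2 = i) := fun h => hi h.symm
  have hj' : ¬ (2 = j) := fun h => hj h.symm
  have hij' : ¬ (j = i) := fun h => hij h.symm
  simp only [if_true, if_neg hi, if_neg hi', if_neg hj, if_neg hj', if_neg hij, if_neg hij']
  linear_combination (p6G P b τ i j x) * h1 - τ * deriv (pg k) (x j) * h2

include P in
/-- second row -/
theorem p6_row2 (τ : ℝ) (i j : Fin 3) (hij : i ≠ j) (hi : i ≠ 2) (hj : j ≠ 2)
    (x : E3) : pd i (fun y => -(p6A t i y * p6H k τ j y)) x +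
      pd 2 (fun y => -(p6B t i y * p6H k τ j y)) x = 0 := by
  have dA := p6_diff (p6A_s P t i) x
  have dB := p6_diff (p6B_s t i) x
  have dH := p6_diff (p6H_s P τ j) x
  rw [p6_pd_neg, p6_pd_neg, p6_pd_mul dA dH, p6_pd_mul dB dH, p6_pdA P t i _ hi,
    p6_pdB t i _ hi, p6_pdH P, p6_pdH P]
  have h1 := t.eq1 (x i) (x 2)
  have hi' : ¬ (2 = i) := fun h => hi h.symm
  have hj' : ¬ (2 = j) := fun h => hj h.symm
  have hij' : ¬ (j = i) := fun h => hij h.symm
  simp only [if_true, if_neg hi, if_neg hi', if_neg hj, if_neg hij']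
  linear_combination -(p6H k τ j x) * h1

/-- third row -/
theorem p6_row3 (hk : 0 < k) (b τ : ℝ) (i j : Fin 3) (hij : i ≠ j) (hi : i ≠ 2) (hj : j ≠ 2)
    (x : E3) : pd i (fun y => p6B t i y * p6G P b τ i j y) x +
      pd j (fun y => -(p6B t i y * p6H k τ j y)) x +
      pd 2 (fun y => p6C t i y * p6G P b τ i j y) x = γ * (ff k γ (x i) (x 2) *
        (b * pg k (x j) - τ * xi (4 * k) (x i) * deriv (pg k) (x j))) := by
  have dB := p6_diff (p6B_s t i) x
  have dC := p6_diff (p6C_s t i) x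
  have dG := p6_diff (p6G_s P b τ i j) x
  have dH := p6_diff (p6H_s P τ j) x
  rw [p6_pd_mul dB dG, p6_pd_neg, p6_pd_mul dB dH, p6_pd_mul dC dG, p6_pdB t i _ hi,
    p6_pdB t i _ hi, p6_pdC t i _ hi, p6_pdG P b τ i j, p6_pdG P b τ i j,
    p6_pdH P]
  have h1 := t.eq2 (x i) (x 2)
  have h2 := p6_cancel P hk i x (p6B t i x) (p6B_far t i x)
  have hi' : ¬ (2 = i) := fun h => hi h.symm
  have hj' : ¬ (2 = j) := fun h => hj h.symm
  have hij' : ¬ (j = i) := fun h => hij h.symm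
  simp only [if_true, if_neg hi, if_neg hi', if_neg hj, if_neg hj', if_neg hij, if_neg hij']
  have h3 : ff k γ (x i) (x 2) * p6G P b τ i j x = ff k γ (x i) (x 2) *
        (b * pg k (x j) - τ * xi (4 * k) (x i) * deriv (pg k) (x j)) := by
    rcases lt_or_ge (|xi (4 * k) (x i)|) 3 with h | h
    · unfold p6G
      rw [p6_dW_near P hk h]
    · rw [p6_ff_far hk γ _ (by linarith), zero_mul, zero_mul]
  linear_combination (p6G P b τ i j x) * h1 - τ * deriv (pg k) (x j) * h2 + γ * h3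

/-- the stress field -/
noncomputable def p6T (β τ : ℝ) (x : E3) : M3 := FF P β τ x +
  !![p6A t 0 x * p6G P (-β) τ 0 1 x, -(p6A t 0 x * p6H k τ 1 x) + -(p6A t 1 x * p6H k τ 0 x),
      p6B t 0 x * p6G P (-β) τ 0 1 x + -(p6B t 1 x * p6H k τ 0 x);
     -(p6A t 0 x * p6H k τ 1 x) + -(p6A t 1 x * p6H k τ 0 x), p6A t 1 x * p6G P β τ 1 0 x,
      -(p6B t 0 x * p6H k τ 1 x) + p6B t 1 x * p6G P β τ 1 0 x;
     p6B t 0 x * p6G P (-β) τ 0 1 x + -(p6B t 1 x * p6H k τ 0 x),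
      -(p6B t 0 x * p6H k τ 1 x) + p6B t 1 x * p6G P β τ 1 0 x,
      p6C t 0 x * p6G P (-β) τ 0 1 x + p6C t 1 x * p6G P β τ 1 0 x]

theorem p6F_s (β τ : ℝ) (i j : Fin 3) : ContDiff ℝ ∞ fun x => FF P β τ x i j :=
  cof_contDiff _ _ (Apot_contDiff P) (phip_contDiff P β τ) i j

theorem p6T_s (β τ : ℝ) (i j : Fin 3) : ContDiff ℝ ∞ fun x => p6T P t β τ x i j := by
  have hA := p6A_s P t
  have hB := p6B_s t
  have hC := p6C_s t
  have hG := p6G_s P
  have hH := p6H_s P τ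
  have hF := p6F_s P β τ
  fin_cases i <;> fin_cases j
  · exact (hF 0 0).add ((hA 0).mul (hG (-β) τ 0 1))
  · exact (hF 0 1).add (((hA 0).mul (hH 1)).neg.add ((hA 1).mul (hH 0)).neg)
  · exact (hF 0 2).add (((hB 0).mul (hG (-β) τ 0 1)).add ((hB 1).mul (hH 0)).neg)
  · exact (hF 1 0).add (((hA 0).mul (hH 1)).neg.add ((hA 1).mul (hH 0)).neg)
  · exact (hF 1 1).add ((hA 1).mul (hG β τ 1 0))
  · exact (hF 1 2).add (((hB 0).mul (hH 1)).neg.add ((hB 1).mul (hG β τ 1 0)))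
  · exact (hF 2 0).add (((hB 0).mul (hG (-β) τ 0 1)).add ((hB 1).mul (hH 0)).neg)
  · exact (hF 2 1).add (((hB 0).mul (hH 1)).neg.add ((hB 1).mul (hG β τ 1 0)))
  · exact (hF 2 2).add (((hC 0).mul (hG (-β) τ 0 1)).add ((hC 1).mul (hG β τ 1 0)))

theorem p6T_symm (β τ : ℝ) (x : E3) (i j : Fin 3) : p6T P t β τ x i j = p6T P t β τ x j i := by
  have h : ∀ i j, FF P β τ x i j = FF P β τ x j i := cof_symm _ _ x
  unfold p6T
  rw [Matrix.add_apply, Matrix.add_apply, h i j]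
  congr 1
  fin_cases i <;> fin_cases j <;> rfl

theorem p6T_div0 (hk : 0 < k) (β τ : ℝ) (x : E3) :
    ∑ j, pd j (fun y => p6T P t β τ y 0 j) x = 0 := by
  have hF := p6F_s P β τ
  have hA := p6A_s P t
  have hB := p6B_s t
  have hG := p6G_s P
  have hH := p6H_s P τ
  rw [Fin.sum_univ_three]
  change pd 0 (fun y => FF P β τ y 0 0 + p6A t 0 y * p6G P (-β) τ 0 1 y) x +
    pd 1 (fun y => FF P β τ y 0 1 +
      (-(p6A t 0 y * p6H k τ 1 y) + -(p6A t 1 y * p6H k τ 0 y))) x +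
    pd 2 (fun y => FF P β τ y 0 2 +
      (p6B t 0 y * p6G P (-β) τ 0 1 y + -(p6B t 1 y * p6H k τ 0 y))) x = 0
  rw [p6_pd_add (p6_diff (hF 0 0) x) (p6_diff ((hA 0).mul (hG (-β) τ 0 1)) x),
    p6_pd_add (p6_diff (hF 0 1) x)
      (p6_diff (((hA 0).mul (hH 1)).neg.add ((hA 1).mul (hH 0)).neg) x),
    p6_pd_add (p6_diff ((hA 0).mul (hH 1)).neg x) (p6_diff ((hA 1).mul (hH 0)).neg x),
    p6_pd_add (p6_diff (hF 0 2) x)
      (p6_diff (((hB 0).mul (hG (-β) τ 0 1)).add ((hB 1).mul (hH 0)).neg) x),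
    p6_pd_add (p6_diff ((hB 0).mul (hG (-β) τ 0 1)) x) (p6_diff ((hB 1).mul (hH 0)).neg x)]
  have h1 := p6_row1 P t hk (-β) τ 0 1 (by decide) (by decide) (by decide) x
  have h2 := p6_row2 P t τ 1 0 (by decide) (by decide) (by decide) x
  have h3 := cof_div _ _ (Apot_contDiff P) (phip_contDiff P β τ) 0 x
  rw [Fin.sum_univ_three] at h3
  change pd 0 (fun y => FF P β τ y 0 0) x + pd 1 (fun y => FF P β τ y 0 1) x +
    pd 2 (fun y => FF P β τ y 0 2) x = 0 at h3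
  linear_combination h1 + h2 + h3

theorem p6T_div1 (hk : 0 < k) (β τ : ℝ) (x : E3) :
    ∑ j, pd j (fun y => p6T P t β τ y 1 j) x = 0 := by
  have hF := p6F_s P β τ
  have hA := p6A_s P t
  have hB := p6B_s t
  have hG := p6G_s P
  have hH := p6H_s P τ
  rw [Fin.sum_univ_three]
  change pd 0 (fun y => FF P β τ y 1 0 +
      (-(p6A t 0 y * p6H k τ 1 y) + -(p6A t 1 y * p6H k τ 0 y))) x +
    pd 1 (fun y => FF P β τ y 1 1 + p6A t 1 y * p6G P β τ 1 0 y) x +
    pd 2 (fun y => FF P β τ y 1 2 +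
      (-(p6B t 0 y * p6H k τ 1 y) + p6B t 1 y * p6G P β τ 1 0 y)) x = 0
  rw [p6_pd_add (p6_diff (hF 1 1) x) (p6_diff ((hA 1).mul (hG β τ 1 0)) x),
    p6_pd_add (p6_diff (hF 1 0) x)
      (p6_diff (((hA 0).mul (hH 1)).neg.add ((hA 1).mul (hH 0)).neg) x),
    p6_pd_add (p6_diff ((hA 0).mul (hH 1)).neg x) (p6_diff ((hA 1).mul (hH 0)).neg x),
    p6_pd_add (p6_diff (hF 1 2) x)
      (p6_diff (((hB 0).mul (hH 1)).neg.add ((hB 1).mul (hG β τ 1 0))) x),
    p6_pd_add (p6_diff ((hB 0).mul (hH 1)).neg x) (p6_diff ((hB 1).mul (hG β τ 1 0)) x)]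
  have h1 := p6_row1 P t hk β τ 1 0 (by decide) (by decide) (by decide) x
  have h2 := p6_row2 P t τ 0 1 (by decide) (by decide) (by decide) x
  have h3 := cof_div _ _ (Apot_contDiff P) (phip_contDiff P β τ) 1 x
  rw [Fin.sum_univ_three] at h3
  change pd 0 (fun y => FF P β τ y 1 0) x + pd 1 (fun y => FF P β τ y 1 1) x +
    pd 2 (fun y => FF P β τ y 1 2) x = 0 at h3
  linear_combination h1 + h2 + h3

theorem p6T_div2 (hk : 0 < k) (β τ : ℝ) (x : E3) :
    ∑ j, pd j (fun y => p6T P t β τ y 2 j) x = γ * fz k γ β τ x := by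
  have hF := p6F_s P β τ
  have hB := p6B_s t
  have hC := p6C_s t
  have hG := p6G_s P
  have hH := p6H_s P τ
  rw [Fin.sum_univ_three]
  change pd 0 (fun y => FF P β τ y 2 0 +
      (p6B t 0 y * p6G P (-β) τ 0 1 y + -(p6B t 1 y * p6H k τ 0 y))) x +
    pd 1 (fun y => FF P β τ y 2 1 +
      (-(p6B t 0 y * p6H k τ 1 y) + p6B t 1 y * p6G P β τ 1 0 y)) x +
    pd 2 (fun y => FF P β τ y 2 2 +
      (p6C t 0 y * p6G P (-β) τ 0 1 y + p6C t 1 y * p6G P β τ 1 0 y)) x = _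
  rw [p6_pd_add (p6_diff (hF 2 0) x)
      (p6_diff (((hB 0).mul (hG (-β) τ 0 1)).add ((hB 1).mul (hH 0)).neg) x),
    p6_pd_add (p6_diff ((hB 0).mul (hG (-β) τ 0 1)) x) (p6_diff ((hB 1).mul (hH 0)).neg x),
    p6_pd_add (p6_diff (hF 2 1) x)
      (p6_diff (((hB 0).mul (hH 1)).neg.add ((hB 1).mul (hG β τ 1 0))) x),
    p6_pd_add (p6_diff ((hB 0).mul (hH 1)).neg x) (p6_diff ((hB 1).mul (hG β τ 1 0)) x),
    p6_pd_add (p6_diff (hF 2 2) x)
      (p6_diff (((hC 0).mul (hG (-β) τ 0 1)).add ((hC 1).mul (hG β τ 1 0))) x),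
    p6_pd_add (p6_diff ((hC 0).mul (hG (-β) τ 0 1)) x) (p6_diff ((hC 1).mul (hG β τ 1 0)) x)]
  have h1 := p6_row3 P t hk (-β) τ 0 1 (by decide) (by decide) (by decide) x
  have h2 := p6_row3 P t hk β τ 1 0 (by decide) (by decide) (by decide) x
  have h3 := cof_div _ _ (Apot_contDiff P) (phip_contDiff P β τ) 2 x
  rw [Fin.sum_univ_three] at h3
  change pd 0 (fun y => FF P β τ y 2 0) x + pd 1 (fun y => FF P β τ y 2 1) x +
    pd 2 (fun y => FF P β τ y 2 2) x = 0 at h3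
  unfold fz
  linear_combination h1 + h2 + h3

end leaf

/-! ### supports -/

theorem p6_b0 {x : ℝ} (h : 1 / 2 < |x|) : b0 x = 0 := by
  unfold b0
  rcases lt_abs.1 h with h | h
  · have h1 : b2 =ᶠ[nhds x] fun y => y := by
      filter_upwards [lt_mem_nhds h] with y hy
      unfold b2 st
      rw [Real.smoothTransition.one_of_one_le (by linarith), mul_one]
    rw [h1.iteratedDeriv_eq 2, iteratedDeriv_succ, iteratedDeriv_one]
    simp
  · have h1 : b2 =ᶠ[nhds x] fun _ => 0 := by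
      have h2 : x < -(1 / 2) := by linarith
      filter_upwards [gt_mem_nhds h2] with y hy
      unfold b2 st
      rw [Real.smoothTransition.zero_of_nonpos (by linarith), mul_zero]
    rw [h1.iteratedDeriv_eq 2]
    simp

theorem p6_pg_supp {k : ℕ} {y : ℝ} (h : pg k y ≠ 0) :
    ∃ i : ℤ, gapIdx k i ∧ |y - (4 * i + 2)| ≤ 1 / 2 := by
  refine ⟨round ((y - 2) / 4), ?_, ?_⟩
  · by_contra h'
    apply h
    unfold pg barfun massg
    rw [if_neg h', zero_mul]
  · by_contra h'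
    push Not at h'
    apply h
    unfold pg barfun
    rw [p6_b0, mul_zero]
    have h1 : y - 2 - 4 * round ((y - 2) / 4) - 0 = y - (4 * round ((y - 2) / 4) + 2) := by ring
    rw [h1]
    exact h'

theorem p6_gap {k : ℕ} {y : ℝ} (h : ¬ InGap k y) : pg k y = 0 ∧ deriv (pg k) y = 0 := by
  have h1 : pg k =ᶠ[nhds y] fun _ => 0 := by
    filter_upwards [Metric.ball_mem_nhds y (by norm_num : (0 : ℝ) < 1 / 4)] with z hz
    rw [Metric.mem_ball, Real.dist_eq] at hz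
    by_contra h'
    obtain ⟨i, hi, hi'⟩ := p6_pg_supp h'
    apply h
    refine ⟨i, hi, ?_⟩
    have h2 : y - (4 * i + 2) = (z - (4 * i + 2)) - (z - y) := by ring
    rw [h2]
    exact (abs_sub _ _).trans (by linarith)
  refine ⟨h1.eq_of_nhds, ?_⟩
  rw [h1.deriv_eq, deriv_const]

theorem p6_bar_far {k : ℕ} (hk : 0 < k) {z : ℝ} (h : InBar k z) : 3 ≤ |xi (4 * k) z| := by
  obtain ⟨i, ⟨h1, h2⟩, h3⟩ := h
  set n := round (z / (4 * k)) with hn
  have h4 : xi (4 * k) z = (z - 4 * i) + 4 * ((i : ℝ) - k * n) := by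
    unfold xi
    rw [← hn]
    ring
  have hk' : (0 : ℤ) < k := by exact_mod_cast hk
  have h5 : i % k + k * (i / k) = i := Int.emod_add_mul_ediv i k
  have h6 : 2 ≤ |i - k * n| := by
    have h7 : i - k * n = i % k + k * (i / k - n) := by rw [mul_sub]; linarith
    rw [h7]
    rcases lt_trichotomy (i / k - n) 0 with h | h | h
    · have : (k : ℤ) * (i / k - n) ≤ -k := by nlinarith
      rw [le_abs]
      right
      linarith
    · rw [h, mul_zero, add_zero]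
      exact h1.trans (le_abs_self _)
    · have : (k : ℤ) ≤ k * (i / k - n) := by nlinarith
      rw [le_abs]
      left
      linarith
  have h8 : (2 : ℝ) ≤ |(i : ℝ) - k * n| := by exact_mod_cast h6
  rw [h4]
  have h9 := abs_sub_abs_le_abs_sub (4 * ((i : ℝ) - k * n)) (-(z - 4 * i))
  rw [abs_neg, abs_mul, sub_neg_eq_add, add_comm (4 * ((i : ℝ) - k * n))] at h9
  rw [show |(4 : ℝ)| = 4 by norm_num] at h9
  linarith

section main

variable {k M : ℕ} {γ C C' : ℝ} (P : Prof k C) (t : Tilt k M γ C')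

theorem p6_T_cases (β τ : ℝ) (x : E3) (h : ∀ i j, p6T P t β τ x i j = 0) : p6T P t β τ x = 0 := by
  ext i j
  exact h i j

/-- the field vanishes off the solid -/
theorem p6T_supp (hk : 0 < k) (β τ δ : ℝ) (x : E3) (hx : x ∉ Sol k M γ δ) :
    p6T P t β τ x = 0 := by
  have h0 : ¬ ∀ i, 3 ≤ |xi (4 * k) (x i)| := fun h => hx (Or.inl h)
  push Not at h0
  obtain ⟨i, hi⟩ := h0
  have h2 : 3 ≤ |xi (4 * k) (x 2)| ∨ |xi (4 * k) (x 2)| < 3 := le_or_gt _ _
  rcases h2 with h2 | h2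
  swap
  · -- near a wall normal to the third axis
    have hb : ¬ InBar k (x 2) := fun h => by
      have := p6_bar_far hk h
      linarith
    have ha : ∀ s, t.a1 s (x 2) = 0 ∧ t.a2 s (x 2) = 0 ∧ t.a3 s (x 2) = 0 := by
      intro s
      by_contra h
      apply hb
      apply t.supp s
      by_contra h'
      push Not at h'
      exact h h'
    have hp := p6_pp_near P hk h2
    have hA : ∀ i, p6A t i x = 0 := fun i => by unfold p6A; rw [(ha _).1, hp, sub_self]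
    have hB : ∀ i, p6B t i x = 0 := fun i => (ha _).2.1
    have hC : ∀ i, p6C t i x = 0 := fun i => (ha _).2.2
    unfold p6T
    rw [FF_wall2 P β τ x h2, hA, hA, hB, hB, hC, hC]
    ext i j
    fin_cases i <;> fin_cases j <;> simp
  have hi2 : i = 0 ∨ i = 1 := by
    fin_cases i
    · left; rfl
    · right; rfl
    · exfalso
      have : |xi (4 * k) (x 2)| < 3 := hi
      linarith
  rcases hi2 with rfl | rfl
  · -- near a wall normal to the first axis
    have hw := FF_wall0 P β τ x hi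
    have hH0 : p6H k τ 0 x = 0 := by unfold p6H; rw [p6_pg_near P hk hi, mul_zero]
    have hG0 : p6G P β τ 1 0 x = 0 := by
      unfold p6G
      rw [p6_pg_near P hk hi, p6_dpg_near P hk hi]
      ring
    have hG1 : p6G P (-β) τ 0 1 x = -β * pg k (x 1) - τ * deriv P.W (x 0) * deriv (pg k) (x 1) :=
      rfl
    have hH1 : p6H k τ 1 x = -τ * pg k (x 1) := rfl
    by_cases hg : InGap k (x 1)
    swap
    · obtain ⟨g1, g2⟩ := p6_gap hg
      rw [g1, g2] at hG1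
      rw [g1] at hH1
      have hG1' : p6G P (-β) τ 0 1 x = 0 := by rw [hG1]; ring
      have hH1' : p6H k τ 1 x = 0 := by rw [hH1]; ring
      unfold p6T
      rw [hw, hH0, hG0, hG1', hH1', g1, g2]
      ext i j
      fin_cases i <;> fin_cases j <;> simp
    by_cases ha : t.a1 (x 0) (x 2) ≠ 0 ∨ t.a2 (x 0) (x 2) ≠ 0 ∨ t.a3 (x 0) (x 2) ≠ 0
    · exfalso
      apply hx
      right
      refine ⟨2, Or.inl ?_⟩
      change Wall k M γ δ 1 (x 0) (x 1) (x 2)
      have hbar := t.supp _ _ ha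
      rcases le_or_gt (|xi (4 * k) (x 0)|) 1 with h1 | h1
      · exact Or.inl ⟨h1, hg, hbar⟩
      · rcases le_or_gt (|xi (4 * k) (x 0)|) 2 with h3 | h3
        · exact Or.inr (Or.inl ⟨h1.le, h3, hg, t.leaf _ _ h1.le h3 ha⟩)
        · exact Or.inr (Or.inr (Or.inl ⟨h3.le, hi.le, hg, hbar⟩))
    · push Not at ha
      obtain ⟨a1, a2, a3⟩ := ha
      have hA : p6A t 0 x = -pp k (x 2) := by unfold p6A; rw [a1]; ring
      have hB : p6B t 0 x = 0 := a2
      have hC : p6C t 0 x = 0 := a3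
      unfold p6T
      rw [hw, hH0, hG0, hA, hB, hC, hG1, hH1]
      ext i j
      fin_cases i <;> fin_cases j <;> simp
  · -- near a wall normal to the second axis
    have hw := FF_wall1 P β τ x hi
    have hH0 : p6H k τ 1 x = 0 := by unfold p6H; rw [p6_pg_near P hk hi, mul_zero]
    have hG0 : p6G P (-β) τ 0 1 x = 0 := by
      unfold p6G
      rw [p6_pg_near P hk hi, p6_dpg_near P hk hi]
      ring
    have hG1 : p6G P β τ 1 0 x = β * pg k (x 0) - τ * deriv P.W (x 1) * deriv (pg k) (x 0) :=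
      rfl
    have hH1 : p6H k τ 0 x = -τ * pg k (x 0) := rfl
    by_cases hg : InGap k (x 0)
    swap
    · obtain ⟨g1, g2⟩ := p6_gap hg
      rw [g1, g2] at hG1
      rw [g1] at hH1
      have hG1' : p6G P β τ 1 0 x = 0 := by rw [hG1]; ring
      have hH1' : p6H k τ 0 x = 0 := by rw [hH1]; ring
      unfold p6T
      rw [hw, hH0, hG0, hG1', hH1', g1, g2]
      ext i j
      fin_cases i <;> fin_cases j <;> simp
    by_cases ha : t.a1 (x 1) (x 2) ≠ 0 ∨ t.a2 (x 1) (x 2) ≠ 0 ∨ t.a3 (x 1) (x 2) ≠ 0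
    · exfalso
      apply hx
      right
      refine ⟨2, Or.inr ?_⟩
      change Wall k M γ δ (-1) (x 1) (x 0) (x 2)
      have hbar := t.supp _ _ ha
      rcases le_or_gt (|xi (4 * k) (x 1)|) 1 with h1 | h1
      · exact Or.inl ⟨h1, hg, hbar⟩
      · rcases le_or_gt (|xi (4 * k) (x 1)|) 2 with h3 | h3
        · exact Or.inr (Or.inl ⟨h1.le, h3, hg, t.leaf _ _ h1.le h3 ha⟩)
        · exact Or.inr (Or.inr (Or.inl ⟨h3.le, hi.le, hg, hbar⟩))
    · push Not at ha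
      obtain ⟨a1, a2, a3⟩ := ha
      have hA : p6A t 1 x = -pp k (x 2) := by unfold p6A; rw [a1]; ring
      have hB : p6B t 1 x = 0 := a2
      have hC : p6C t 1 x = 0 := a3
      unfold p6T
      rw [hw, hH0, hG0, hA, hB, hC, hG1, hH1]
      ext i j
      fin_cases i <;> fin_cases j <;> simp

/-- the field in the blocks -/
theorem p6T_bulk (hk : 0 < k) (β τ : ℝ) (x : E3) (h : ∀ i, 5 ≤ |xi (4 * k) (x i)|) :
    p6T P t β τ x = !![-β, τ, 0; τ, β, 0; 0, 0, 0] := by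
  have hF : FF P β τ x = !![-β, τ, 0; τ, β, 0; 0, 0, 0] := by
    have _ := hk
    first
      | exact FF_bulk P β τ x h
      | exact FF_bulk P hk β τ x h
  have hA : ∀ i, p6A t i x = 0 := fun i => p6A_far t i x (by linarith [h i])
  have hB : ∀ i, p6B t i x = 0 := fun i => p6B_far t i x (by linarith [h i])
  have hC : ∀ i, p6C t i x = 0 := fun i => p6C_far t i x (by linarith [h i])
  unfold p6T
  rw [hF, hA, hA, hB, hB, hC, hC]
  ext i j
  fin_cases i <;> fin_cases j <;> simp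

/-! ### periodicity -/

theorem p6_shift {α : Type} {φ : ℝ → α} {L : ℝ} (hφ : ∀ s, φ (s + L) = φ s) (i l : Fin 3)
    (x : E3) : φ ((x + EuclideanSpace.single i L) l) = φ (x l) := by
  by_cases h : l = i
  · subst h
    simp [hφ]
  · simp [h]

theorem p6_shift2 {φ : ℝ → ℝ → ℝ} {L : ℝ} (h1 : ∀ s r, φ (s + L) r = φ s r)
    (h2 : ∀ s r, φ s (r + L) = φ s r) (i l m : Fin 3)
    (x : E3) : φ ((x + EuclideanSpace.single i L) l) ((x + EuclideanSpace.single i L) m) =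
      φ (x l) (x m) := by
  rw [p6_shift (φ := φ) (fun s => funext fun r => h1 s r), p6_shift (φ := φ (x l)) (h2 _)]

theorem p6G_per (b τ : ℝ) (i j : Fin 3) : PerFun (4 * k) (p6G P b τ i j) := by
  intro l x
  unfold p6G
  rw [p6_shift (p6_pg_per P), p6_shift (φ := deriv P.W) (p6_deriv_per fun y => (P.per y).2.1),
    p6_shift (φ := deriv (pg k)) (p6_deriv_per (p6_pg_per P))]

include P in
theorem p6H_per (τ : ℝ) (j : Fin 3) : PerFun (4 * k) (p6H k τ j) := by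
  intro l x
  unfold p6H
  rw [p6_shift (p6_pg_per P)]

include P in
theorem p6A_per (i : Fin 3) : PerFun (4 * k) (p6A t i) := by
  intro l x
  unfold p6A
  rw [p6_shift2 (φ := t.a1) (fun s r => (t.per1 s r).1) (fun s r => (t.per2 s r).1),
    p6_shift (p6_pp_per P)]

theorem p6B_per (i : Fin 3) : PerFun (4 * k) (p6B t i) := by
  intro l x
  unfold p6B
  rw [p6_shift2 (φ := t.a2) (fun s r => (t.per1 s r).2.1) (fun s r => (t.per2 s r).2.1)]

theorem p6C_per (i : Fin 3) : PerFun (4 * k) (p6C t i) := by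
  intro l x
  unfold p6C
  rw [p6_shift2 (φ := t.a3) (fun s r => (t.per1 s r).2.2.1) (fun s r => (t.per2 s r).2.2.1)]

theorem p6T_per (β τ : ℝ) : PerFun (4 * k) (p6T P t β τ) := by
  intro l x
  unfold p6T
  rw [FF_per P β τ l x]
  simp only [p6A_per P t _ l x, p6B_per t _ l x, p6C_per t _ l x, p6G_per P _ _ _ _ l x,
    p6H_per P _ _ l x]

/-! ### bounds -/

include P in
theorem p6_pp_bd (x : ℝ) : |pp k x| ≤ 1 + 2 * C := by
  have h1 := P.K2 x
  obtain ⟨-, h2, h3, -⟩ := P.bd 2 (by norm_num) x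
  have h4 : pp k x = 1 - iteratedDeriv 2 P.W x - iteratedDeriv 2 P.K x := by linarith
  rw [h4]
  rw [abs_le] at *
  constructor <;> linarith [h2.1, h2.2, h3.1, h3.2]

include P in
theorem p6_pg_bd (x : ℝ) : |pg k x| ≤ 1 + 2 * C := by
  have h1 := P.Kb2 x
  obtain ⟨-, h2, -, h3⟩ := P.bd 2 (by norm_num) x
  have h4 : pg k x = 1 - iteratedDeriv 2 P.W x - iteratedDeriv 2 P.Kb x := by linarith
  rw [h4]
  rw [abs_le] at *
  constructor <;> linarith [h2.1, h2.2, h3.1, h3.2]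

include P in
theorem p6_dpg_bd (x : ℝ) : |deriv (pg k) x| ≤ 2 * C := by
  obtain ⟨-, h2, -, h3⟩ := P.bd 3 (by norm_num) x
  have h4 : pg k = fun y => 1 - iteratedDeriv 2 P.W y - iteratedDeriv 2 P.Kb y := by
    ext y
    have := P.Kb2 y
    linarith
  have h5 : deriv (pg k) x = -iteratedDeriv 3 P.W x - iteratedDeriv 3 P.Kb x := by
    have e1 : DifferentiableAt ℝ (iteratedDeriv 2 P.W) x :=
      ((p6_it_s P.W_s 2).differentiable (by simp)).differentiableAt
    have e2 : DifferentiableAt ℝ (iteratedDeriv 2 P.Kb) x :=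
      ((p6_it_s P.Kb_s 2).differentiable (by simp)).differentiableAt
    rw [h4, iteratedDeriv_succ (n := 2) (f := P.W), iteratedDeriv_succ (n := 2) (f := P.Kb)]
    exact ((e1.hasDerivAt.const_sub 1).sub e2.hasDerivAt).deriv
  rw [h5]
  rw [abs_le] at *
  constructor <;> linarith [h2.1, h2.2, h3.1, h3.2]

theorem p6G_bd (hC : 0 < C) (b τ : ℝ) (i j : Fin 3) (x : E3) :
    |p6G P b τ i j x| ≤ (|b| + |τ|) * (1 + 2 * C + 2 * C ^ 2) := by
  have h1 := p6_pg_bd P (x j)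
  have h2 := p6_dpg_bd P (x j)
  obtain ⟨-, h3, -, -⟩ := P.bd 1 (by norm_num) (x i)
  rw [iteratedDeriv_one] at h3
  unfold p6G
  refine (abs_sub _ _).trans ?_
  rw [abs_mul, abs_mul, abs_mul]
  have e1 : |b| * |pg k (x j)| ≤ |b| * (1 + 2 * C) := mul_le_mul_of_nonneg_left h1 (abs_nonneg _)
  have e2 : |τ| * |deriv P.W (x i)| ≤ |τ| * C := mul_le_mul_of_nonneg_left h3 (abs_nonneg _)
  have e3 : |τ| * |deriv P.W (x i)| * |deriv (pg k) (x j)| ≤ |τ| * C * (2 * C) :=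
    mul_le_mul e2 h2 (abs_nonneg _) (by positivity)
  nlinarith [abs_nonneg b, abs_nonneg τ, mul_nonneg (abs_nonneg b) (sq_nonneg C),
    mul_nonneg (abs_nonneg τ) hC.le]

include P in
theorem p6H_bd (hC : 0 < C) (b τ : ℝ) (j : Fin 3) (x : E3) :
    |p6H k τ j x| ≤ (|b| + |τ|) * (1 + 2 * C + 2 * C ^ 2) := by
  have h1 := p6_pg_bd P (x j)
  unfold p6H
  rw [abs_mul, abs_neg]
  have e1 : |τ| * |pg k (x j)| ≤ |τ| * (1 + 2 * C) := mul_le_mul_of_nonneg_left h1 (abs_nonneg _)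
  nlinarith [abs_nonneg b, abs_nonneg τ, mul_nonneg (abs_nonneg b) (sq_nonneg C),
    mul_nonneg (abs_nonneg τ) hC.le, mul_nonneg (abs_nonneg b) hC.le,
    mul_nonneg (abs_nonneg τ) (sq_nonneg C)]

theorem p6T_bd (hC : 0 < C) (hC' : 0 < C') (C₁ : ℝ) (β τ : ℝ) (x : E3)
    (hF : ∀ i j, |FF P β τ x i j| ≤ C₁ * (|β| + |τ|)) (i j : Fin 3) :
    |p6T P t β τ x i j| ≤
      (C₁ + 2 * ((C' + (1 + 2 * C)) * (1 + 2 * C + 2 * C ^ 2))) * (|β| + |τ|) := by
  set D := C' + (1 + 2 * C) with hD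
  set R := (|β| + |τ|) * (1 + 2 * C + 2 * C ^ 2) with hR
  have hR0 : 0 ≤ R := by positivity
  have hD0 : 0 ≤ D := by positivity
  have hA : ∀ i, |p6A t i x| ≤ D := by
    intro i
    unfold p6A
    exact (abs_sub _ _).trans (add_le_add (t.bd _ _).1 (p6_pp_bd P _))
  have hB : ∀ i, |p6B t i x| ≤ D := by
    intro i
    have := (t.bd (x i) (x 2)).2.1
    unfold p6B
    linarith
  have hCC : ∀ i, |p6C t i x| ≤ D := by
    intro i
    have := (t.bd (x i) (x 2)).2.2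
    unfold p6C
    linarith
  have hG1 : |p6G P (-β) τ 0 1 x| ≤ R := by
    have := p6G_bd P hC (-β) τ 0 1 x
    rwa [abs_neg] at this
  have hG2 : |p6G P β τ 1 0 x| ≤ R := p6G_bd P hC β τ 1 0 x
  have hH : ∀ j, |p6H k τ j x| ≤ R := fun j => p6H_bd P hC β τ j x
  have hm : ∀ a b : ℝ, |a| ≤ D → |b| ≤ R → |a * b| ≤ D * R := by
    intro a b ha hb
    rw [abs_mul]
    exact mul_le_mul ha hb (abs_nonneg _) hD0
  have hn : ∀ a b : ℝ, |a| ≤ D → |b| ≤ R → |-(a * b)| ≤ D * R := by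
    intro a b ha hb
    rw [abs_neg]
    exact hm a b ha hb
  have hDR : 0 ≤ D * R := mul_nonneg hD0 hR0
  have hfin : (C₁ + 2 * (D * (1 + 2 * C + 2 * C ^ 2))) * (|β| + |τ|) =
      C₁ * (|β| + |τ|) + (D * R + D * R) := by rw [hR]; ring
  rw [hfin]
  have hone : ∀ a b : ℝ, |a| ≤ C₁ * (|β| + |τ|) → |b| ≤ D * R →
      |a + b| ≤ C₁ * (|β| + |τ|) + (D * R + D * R) := by
    intro a b ha hb
    exact (abs_add_le _ _).trans (by linarith)
  have htwo : ∀ a b c : ℝ, |a| ≤ C₁ * (|β| + |τ|) → |b| ≤ D * R → |c| ≤ D * R →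
      |a + (b + c)| ≤ C₁ * (|β| + |τ|) + (D * R + D * R) := by
    intro a b c ha hb hc
    exact (abs_add_le _ _).trans (add_le_add ha ((abs_add_le _ _).trans (add_le_add hb hc)))
  fin_cases i <;> fin_cases j
  · exact hone _ _ (hF 0 0) (hm _ _ (hA _) hG1)
  · exact htwo _ _ _ (hF 0 1) (hn _ _ (hA _) (hH _)) (hn _ _ (hA _) (hH _))
  · exact htwo _ _ _ (hF 0 2) (hm _ _ (hB _) hG1) (hn _ _ (hB _) (hH _))
  · exact htwo _ _ _ (hF 1 0) (hn _ _ (hA _) (hH _)) (hn _ _ (hA _) (hH _))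
  · exact hone _ _ (hF 1 1) (hm _ _ (hA _) hG2)
  · exact htwo _ _ _ (hF 1 2) (hn _ _ (hB _) (hH _)) (hm _ _ (hB _) hG2)
  · exact htwo _ _ _ (hF 2 0) (hm _ _ (hB _) hG1) (hn _ _ (hB _) (hH _))
  · exact htwo _ _ _ (hF 2 1) (hn _ _ (hB _) (hH _)) (hm _ _ (hB _) hG2)
  · exact htwo _ _ _ (hF 2 2) (hm _ _ (hCC _) hG1) (hm _ _ (hCC _) hG2)

/-! ### mean values -/

theorem p6_mean_zero (hk : 0 < k) (i : Fin 3) (hi : i ≠ 2) (g : E3 → ℝ) (hg : ContDiff ℝ ∞ g)
    (hgp : PerFun (4 * k) g) (hg2 : ∀ x, pd 2 g x = 0) :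
    ∫ x in cell (8 * k), p6A t i x * g x = 0 := by
  have h8 : (0 : ℝ) < 8 * k := by positivity
  have hbs : ContDiff ℝ ∞ fun y : E3 => t.b (y i) (y 2) :=
    t.b_s.comp ((p6_coord_s i).prodMk (p6_coord_s 2))
  have h1 : ∀ x, p6A t i x * g x = pd 2 (fun y => t.b (y i) (y 2) * g y) x := by
    intro x
    rw [p6_pd_mul (p6_diff hbs x) (p6_diff hg x), hg2, p6_pd_two t.b_s i 2 2 hi]
    unfold p6A
    rw [t.mean]
    simp only [if_true, if_neg hi]
    ring
  simp only [h1]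
  apply integral_pd h8
  · exact (hbs.mul hg).of_le (by simp)
  · intro l x
    have h2 : EuclideanSpace.single l (8 * (k : ℝ)) =
        EuclideanSpace.single l (4 * (k : ℝ)) + EuclideanSpace.single l (4 * (k : ℝ)) := by
      ext m
      by_cases h : m = l <;> simp [h]
      ring
    rw [h2, ← add_assoc]
    have hb : PerFun (4 * k) fun y : E3 => t.b (y i) (y 2) := by
      intro l x
      exact p6_shift2 (φ := t.b) (fun s r => (t.per1 s r).2.2.2) (fun s r => (t.per2 s r).2.2.2)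
        l i 2 x
    have hb1 := hb l (x + EuclideanSpace.single l (4 * (k : ℝ)))
    have hb2 := hb l x
    have hg1 := hgp l (x + EuclideanSpace.single l (4 * (k : ℝ)))
    have hg2 := hgp l x
    simp only at hb1 hb2 ⊢
    rw [hb1, hb2, hg1, hg2]

theorem p6_int {g : E3 → ℝ} (hg : ContDiff ℝ ∞ g) (P : ℝ) : IntegrableOn g (cell P) :=
  (hg.continuous.continuousOn.integrableOn_compact (isBounded_cell P).isCompact_closure).mono_set
    subset_closure

end main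

theorem static_field : ∃ C : ℝ, 0 < C ∧ ∀ (k M : ℕ) (γ β τ : ℝ), 5 ≤ k → Odd k → 1 ≤ M →
    0 ≤ γ → γ ≤ 1 / 8 → ∃ T : E3 → M3, (∀ i j, ContDiff ℝ ∞ fun x => T x i j) ∧
      PerFun (4 * k) T ∧ (∀ x i j, T x i j = T x j i) ∧
      (∀ x, ∑ j, pd j (fun y => T y 0 j) x = 0) ∧ (∀ x, ∑ j, pd j (fun y => T y 1 j) x = 0) ∧
      (∀ x, ∑ j, pd j (fun y => T y 2 j) x = γ * fz k γ β τ x) ∧
      (∀ δ : ℝ, 0 < δ → ∀ x, x ∉ Sol k M γ δ → T x = 0) ∧
      (∀ x, (∀ i, 5 ≤ |xi (4 * k) (x i)|) → T x = !![-β, τ, 0; τ, β, 0; 0, 0, 0]) ∧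
      (∀ x i j, |T x i j| ≤ C * (|β| + |τ|)) ∧
      (∫ x in cell (8 * k), (T x 0 0 + β) = 0) ∧ (∫ x in cell (8 * k), (T x 1 1 - β) = 0) ∧
      (∫ x in cell (8 * k), (T x 0 1 - τ) = 0) := by
  obtain ⟨C, hC, hP⟩ := exists_prof
  obtain ⟨C', hC', hT⟩ := exists_tilt
  obtain ⟨C₁, hC₁, hF⟩ := FF_bound C hC
  refine ⟨C₁ + 2 * ((C' + (1 + 2 * C)) * (1 + 2 * C + 2 * C ^ 2)), by positivity, ?_⟩
  intro k M γ β τ hk hodd hM hγ hγ'
  obtain ⟨P⟩ := hP k hk hodd
  obtain ⟨t⟩ := hT k M γ hk hodd hM hγ hγ'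
  have hk0 : 0 < k := by omega
  obtain ⟨m1, m2, m3⟩ := FF_mean hk0 P β τ
  have n01 : (0 : Fin 3) ≠ 2 := by decide
  have n12 : (1 : Fin 3) ≠ 2 := by decide
  have g1 : ∀ x, pd 2 (p6G P (-β) τ 0 1) x = 0 := by
    intro x
    rw [p6_pdG, if_neg n01, if_neg n12, add_zero]
  have g2 : ∀ x, pd 2 (p6G P β τ 1 0) x = 0 := by
    intro x
    rw [p6_pdG, if_neg n01, if_neg n12, add_zero]
  have g3 : ∀ x, pd 2 (p6H k τ 0) x = 0 := by
    intro x
    rw [p6_pdH P, if_neg n01]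
  have g4 : ∀ x, pd 2 (p6H k τ 1) x = 0 := by
    intro x
    rw [p6_pdH P, if_neg n12]
  have z1 := p6_mean_zero t hk0 0 n01 _ (p6G_s P (-β) τ 0 1) (p6G_per P (-β) τ 0 1) g1
  have z2 := p6_mean_zero t hk0 1 n12 _ (p6G_s P β τ 1 0) (p6G_per P β τ 1 0) g2
  have z3 := p6_mean_zero t hk0 0 n01 _ (p6H_s P τ 1) (p6H_per P τ 1) g4
  have z4 := p6_mean_zero t hk0 1 n12 _ (p6H_s P τ 0) (p6H_per P τ 0) g3
  refine ⟨p6T P t β τ, p6T_s P t β τ, p6T_per P t β τ, p6T_symm P t β τ, p6T_div0 P t hk0 β τ,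
    p6T_div1 P t hk0 β τ, p6T_div2 P t hk0 β τ, fun δ _ x hx => p6T_supp P t hk0 β τ δ x hx,
    p6T_bulk P t hk0 β τ, fun x i j => p6T_bd P t hC hC' C₁ β τ x (fun i j => hF k P β τ x i j) i j,
    ?_, ?_, ?_⟩
  · have e : ∀ x, p6T P t β τ x 0 0 + β = (FF P β τ x 0 0 + β) +
        p6A t 0 x * p6G P (-β) τ 0 1 x := by
      intro x
      change FF P β τ x 0 0 + p6A t 0 x * p6G P (-β) τ 0 1 x + β = _
      ring
    simp only [e]
    rw [integral_add (p6_int ((p6F_s P β τ 0 0).add contDiff_const) _)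
      (p6_int ((p6A_s P t 0).mul (p6G_s P _ _ _ _)) _), m1, z1, add_zero]
  · have e : ∀ x, p6T P t β τ x 1 1 - β = (FF P β τ x 1 1 - β) +
        p6A t 1 x * p6G P β τ 1 0 x := by
      intro x
      change FF P β τ x 1 1 + p6A t 1 x * p6G P β τ 1 0 x - β = _
      ring
    simp only [e]
    rw [integral_add (p6_int ((p6F_s P β τ 1 1).sub contDiff_const) _)
      (p6_int ((p6A_s P t 1).mul (p6G_s P _ _ _ _)) _), m2, z2, add_zero]
  · have e : ∀ x, p6T P t β τ x 0 1 - τ = ((FF P β τ x 0 1 - τ) -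
        p6A t 0 x * p6H k τ 1 x) - p6A t 1 x * p6H k τ 0 x := by
      intro x
      change FF P β τ x 0 1 + (-(p6A t 0 x * p6H k τ 1 x) + -(p6A t 1 x * p6H k τ 0 x)) - τ = _
      ring
    simp only [e]
    rw [integral_sub (p6_int (((p6F_s P β τ 0 1).sub contDiff_const).sub
        ((p6A_s P t 0).mul (p6H_s P _ _))) _) (p6_int ((p6A_s P t 1).mul (p6H_s P _ _)) _),
      integral_sub (p6_int ((p6F_s P β τ 0 1).sub contDiff_const) _)
      (p6_int ((p6A_s P t 0).mul (p6H_s P _ _)) _), m3, z3, z4]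
    ring

end Pool.Agent.ShearComposite.D3
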