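import Pool.Agent.ShearComposite3.Base3
import Pool.Agent.ShearComposite3.KPlinked
import Pool.Agent.ShearComposite3.SolFacts
import Pool.Agent.ShearComposite3.CellA
import Pool.Agent.ShearComposite3.CellB
import Pool.Agent.ShearComposite3.Alg
import Pool.Agent.ShearComposite3.Static

/-!
# The small force is controlled by the strain in the core (task P7)
-/

set_option autoImplicit false

open MeasureTheory Metric
open scoped ContDiff

namespace Pool.Agent.ShearComposite.D3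


/-! ### one dimensional facts -/

theorem p7_st_s : ContDiff ℝ ∞ st := by
  unfold st
  exact Real.smoothTransition.contDiff.comp (contDiff_id.add contDiff_const)

theorem p7_b2_s : ContDiff ℝ ∞ b2 := by
  unfold b2
  exact contDiff_id.mul p7_st_s

theorem p7_st_neg (x : ℝ) : st (-x) = 1 - st x := by
  unfold st
  have h : -x + 1 / 2 = 1 - (x + 1 / 2) := by ring
  rw [h]
  set y := x + 1 / 2
  unfold Real.smoothTransition
  have h1 : 1 - (1 - y) = y := by ring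
  rw [h1]
  have h2 : expNegInvGlue y + expNegInvGlue (1 - y) ≠ 0 := by
    have := Real.smoothTransition.pos_denom y
    exact this.ne'
  have h3 : expNegInvGlue (1 - y) + expNegInvGlue y ≠ 0 := by rwa [add_comm]
  field_simp
  ring

theorem p7_iter {f : ℝ → ℝ} (hf : ContDiff ℝ ∞ f) (n : ℕ) :
    ContDiff ℝ ∞ (iteratedDeriv n f) := by
  rw [iteratedDeriv_eq_iterate]
  exact hf.iterate_deriv n

theorem p7_b0_s : ContDiff ℝ ∞ b0 := p7_iter p7_b2_s 2

theorem p7_b2_neg (x : ℝ) : b2 (-x) = b2 x - x := by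
  unfold b2
  rw [p7_st_neg]
  ring

theorem p7_b2_large {x : ℝ} (hx : 1 / 2 ≤ x) : b2 x = x := by
  unfold b2 st
  rw [Real.smoothTransition.one_of_one_le (by linarith)]
  ring

theorem p7_b2_small {x : ℝ} (hx : x ≤ -(1 / 2)) : b2 x = 0 := by
  unfold b2 st
  rw [Real.smoothTransition.zero_of_nonpos (by linarith)]
  ring

theorem p7_i2 (f : ℝ → ℝ) : iteratedDeriv 2 f = deriv (deriv f) := by
  rw [iteratedDeriv_succ, iteratedDeriv_one]

theorem p7_b0_neg (x : ℝ) : b0 (-x) = b0 x := by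
  have h1 : (fun y => b2 (-y)) = fun y => b2 y - y := by
    funext y
    exact p7_b2_neg y
  have h2 := iteratedDeriv_comp_neg 2 b2 x
  rw [h1] at h2
  have h3 : iteratedDeriv 2 (fun y => b2 y - y) x = iteratedDeriv 2 b2 x := by
    rw [p7_i2, p7_i2]
    have h4 : deriv (fun y => b2 y - y) = fun y => deriv b2 y - 1 := by
      funext y
      have h5 : DifferentiableAt ℝ b2 y := (p7_b2_s.differentiable (by simp)) y
      rw [show (fun y => b2 y - y) = fun y => b2 y - id y from rfl,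
        deriv_fun_sub h5 differentiableAt_id]
      simp
    rw [h4, deriv_sub_const]
  rw [h3] at h2
  unfold b0
  rw [h2]
  simp

/-- zero on a neighbourhood -/
theorem p7_b0_out {x : ℝ} (hx : 1 / 2 ≤ |x|) : b0 x = 0 := by
  have hc : Continuous b0 := p7_b0_s.continuous
  have key : ∀ y : ℝ, 1 / 2 < y → b0 y = 0 := by
    intro y hy
    have h1 : b2 =ᶠ[nhds y] fun z => z := by
      filter_upwards [lt_mem_nhds hy] with z hz
      exact p7_b2_large hz.le
    have h2 := h1.iteratedDeriv_eq 2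
    unfold b0
    rw [h2, iteratedDeriv_succ, iteratedDeriv_one]
    simp
  have key2 : ∀ y : ℝ, 1 / 2 ≤ y → b0 y = 0 := by
    intro y hy
    have h1 : Filter.Tendsto b0 (nhdsWithin y (Set.Ioi y)) (nhds (b0 y)) :=
      hc.continuousAt.tendsto.mono_left nhdsWithin_le_nhds
    have h2 : Filter.Tendsto b0 (nhdsWithin y (Set.Ioi y)) (nhds 0) := by
      apply tendsto_const_nhds.congr'
      filter_upwards [self_mem_nhdsWithin] with z hz
      exact (key z (lt_of_le_of_lt hy hz)).symm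
    exact tendsto_nhds_unique h1 h2
  rcases le_total 0 x with h | h
  · rw [abs_of_nonneg h] at hx
    exact key2 x hx
  · rw [abs_of_nonpos h] at hx
    rw [← p7_b0_neg]
    exact key2 _ hx

theorem p7_rab_s : ContDiff ℝ ∞ rab := by
  unfold rab
  exact (contDiff_const.mul p7_b2_s).sub contDiff_id

theorem p7_rab_neg (x : ℝ) : rab (-x) = rab x := by
  unfold rab
  rw [p7_b2_neg]
  ring

theorem p7_st_mem (x : ℝ) : 0 ≤ st x ∧ st x ≤ 1 :=
  ⟨Real.smoothTransition.nonneg _, Real.smoothTransition.le_one _⟩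

theorem p7_rab_pos {x : ℝ} (hx : 0 ≤ x) : 0 ≤ rab x := by
  have hm : Monotone st := by
    intro a b hab
    exact Real.smoothTransition.monotone (by linarith)
  have h1 : st (-x) ≤ st x := hm (by linarith)
  rw [p7_st_neg] at h1
  unfold rab b2
  have : 2 * (x * st x) - x = x * (2 * st x - 1) := by ring
  rw [this]
  exact mul_nonneg hx (by linarith)

theorem p7_rab_le {x : ℝ} (hx : 0 ≤ x) : rab x ≤ x := by
  unfold rab b2
  have := (p7_st_mem x).2
  nlinarith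

/-- the basic hat function -/
noncomputable def p7_h0 (x : ℝ) : ℝ := (rab x - 3 / 2) * cut (21 / 10) (29 / 10) x

theorem p7_cut_s (a b : ℝ) : ContDiff ℝ ∞ (cut a b) := by
  unfold cut
  exact Real.smoothTransition.contDiff.comp
    ((contDiff_const.sub (contDiff_id.pow 2)).div_const _)

theorem p7_h0_s : ContDiff ℝ ∞ p7_h0 := by
  unfold p7_h0
  exact (p7_rab_s.sub contDiff_const).mul (p7_cut_s _ _)

theorem p7_h0_neg (x : ℝ) : p7_h0 (-x) = p7_h0 x := by
  unfold p7_h0 cut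
  rw [p7_rab_neg]
  congr 2
  ring

theorem p7_cut_out {x : ℝ} (hx : 29 / 10 ≤ |x|) : cut (21 / 10) (29 / 10) x = 0 := by
  unfold cut
  apply Real.smoothTransition.zero_of_nonpos
  have h1 : (29 / 10 : ℝ) ^ 2 ≤ x ^ 2 := by
    rw [← sq_abs x]
    gcongr
  apply div_nonpos_of_nonpos_of_nonneg
  · linarith
  · norm_num

theorem p7_cut_in {x : ℝ} (hx : |x| ≤ 21 / 10) : cut (21 / 10) (29 / 10) x = 1 := by
  unfold cut
  apply Real.smoothTransition.one_of_one_le
  have h1 : x ^ 2 ≤ (21 / 10 : ℝ) ^ 2 := by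
    rw [← sq_abs x]
    gcongr
  rw [le_div_iff₀ (by norm_num)]
  linarith

theorem p7_h0_out {x : ℝ} (hx : 29 / 10 ≤ |x|) : p7_h0 x = 0 := by
  unfold p7_h0
  rw [p7_cut_out hx, mul_zero]

theorem p7_h0_bd (x : ℝ) : |p7_h0 x| ≤ 3 / 2 := by
  have main : ∀ y : ℝ, 0 ≤ y → |p7_h0 y| ≤ 3 / 2 := by
    intro y hy
    by_cases h : 29 / 10 ≤ y
    · rw [p7_h0_out (by rwa [abs_of_nonneg hy])]
      norm_num
    · push Not at h
      unfold p7_h0
      rw [abs_mul]
      have h1 : |rab y - 3 / 2| ≤ 3 / 2 := by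
        rw [abs_le]
        constructor
        · linarith [p7_rab_pos hy]
        · linarith [p7_rab_le hy]
      have h2 : |cut (21 / 10) (29 / 10) y| ≤ 1 := by
        unfold cut
        rw [abs_of_nonneg (Real.smoothTransition.nonneg _)]
        exact Real.smoothTransition.le_one _
      calc |rab y - 3 / 2| * |cut (21 / 10) (29 / 10) y| ≤ 3 / 2 * 1 := by gcongr
        _ = 3 / 2 := by ring
  rcases le_total 0 x with h | h
  · exact main x h
  · rw [← p7_h0_neg]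
    exact main _ (by linarith)

/-- its second derivative -/
noncomputable def p7_h2 (x : ℝ) : ℝ := iteratedDeriv 2 p7_h0 x

theorem p7_h2_cont : Continuous p7_h2 := (p7_iter p7_h0_s 2).continuous

theorem p7_h2_neg (x : ℝ) : p7_h2 (-x) = p7_h2 x := by
  have h1 : (fun y => p7_h0 (-y)) = p7_h0 := by
    funext y
    exact p7_h0_neg y
  have h2 := iteratedDeriv_comp_neg 2 p7_h0 x
  rw [h1] at h2
  unfold p7_h2
  rw [h2]
  simp

theorem p7_h2_out {x : ℝ} (hx : 29 / 10 < |x|) : p7_h2 x = 0 := by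
  have h1 : p7_h0 =ᶠ[nhds x] fun _ => 0 := by
    have : {y : ℝ | 29 / 10 < |y|} ∈ nhds x :=
      (isOpen_lt continuous_const continuous_abs).mem_nhds hx
    filter_upwards [this] with y hy
    exact p7_h0_out (le_of_lt hy)
  unfold p7_h2
  rw [h1.iteratedDeriv_eq 2]
  simp

theorem p7_h2_mid {x : ℝ} (hx : 1 / 2 < |x|) (hx' : |x| < 21 / 10) : p7_h2 x = 0 := by
  have main : ∀ y : ℝ, 1 / 2 < y → y < 21 / 10 → p7_h2 y = 0 := by
    intro y h1 h2
    have h3 : p7_h0 =ᶠ[nhds y] fun z => z - 3 / 2 := by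
      filter_upwards [lt_mem_nhds h1, gt_mem_nhds h2] with z hz1 hz2
      unfold p7_h0 rab
      rw [p7_b2_large hz1.le, p7_cut_in (by rw [abs_of_pos (by linarith)]; exact hz2.le)]
      ring
    unfold p7_h2
    rw [h3.iteratedDeriv_eq 2, iteratedDeriv_succ, iteratedDeriv_one]
    have h4 : deriv (fun z : ℝ => z - 3 / 2) = fun _ => 1 := by
      funext z
      simp
    rw [h4]
    simp
  rcases le_total 0 x with h | h
  · rw [abs_of_nonneg h] at hx hx'
    exact main x hx hx'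
  · rw [abs_of_nonpos h] at hx hx'
    rw [← p7_h2_neg]
    exact main _ hx hx'

/-- bounded -/
theorem p7_h2_bd : ∃ C : ℝ, 0 < C ∧ ∀ x, |p7_h2 x| ≤ C := by
  obtain ⟨C, hC⟩ := (isCompact_Icc (a := (-3 : ℝ)) (b := 3)).exists_bound_of_continuousOn
    p7_h2_cont.continuousOn
  refine ⟨|C| + 1, by positivity, fun x => ?_⟩
  by_cases h : |x| ≤ 3
  · have := hC x (by rw [Set.mem_Icc]; exact abs_le.mp h)
    rw [Real.norm_eq_abs] at this
    linarith [le_abs_self C]
  · push Not at h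
    rw [p7_h2_out (by linarith), abs_zero]
    positivity

theorem p7_b0_bd : ∃ C : ℝ, 0 < C ∧ ∀ x, |b0 x| ≤ C ∧ |deriv b0 x| ≤ C := by
  have hd : Continuous (deriv b0) := by
    have := p7_iter p7_b0_s 1
    rw [iteratedDeriv_one] at this
    exact this.continuous
  obtain ⟨C, hC⟩ := (isCompact_Icc (a := (-3 : ℝ)) (b := 3)).exists_bound_of_continuousOn
    p7_b0_s.continuous.continuousOn
  obtain ⟨C', hC'⟩ := (isCompact_Icc (a := (-3 : ℝ)) (b := 3)).exists_bound_of_continuousOn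
    hd.continuousOn
  refine ⟨|C| + |C'| + 1, by positivity, fun x => ?_⟩
  by_cases h : |x| ≤ 3
  · have h1 := hC x (by rw [Set.mem_Icc]; exact abs_le.mp h)
    have h2 := hC' x (by rw [Set.mem_Icc]; exact abs_le.mp h)
    rw [Real.norm_eq_abs] at h1 h2
    constructor
    · linarith [le_abs_self C, abs_nonneg C']
    · linarith [le_abs_self C', abs_nonneg C]
  · push Not at h
    rw [p7_b0_out (by linarith), abs_zero]
    have : b0 =ᶠ[nhds x] fun _ => 0 := by
      have : {y : ℝ | 3 < |y|} ∈ nhds x :=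
        (isOpen_lt continuous_const continuous_abs).mem_nhds h
      filter_upwards [this] with y hy
      exact p7_b0_out (by have : 3 < |y| := hy; linarith)
    rw [this.deriv_eq]
    simp only [deriv_const, abs_zero]
    constructor <;> positivity

theorem p7_db0_out {x : ℝ} (hx : 1 / 2 < |x|) : deriv b0 x = 0 := by
  have : b0 =ᶠ[nhds x] fun _ => 0 := by
    have : {y : ℝ | 1 / 2 < |y|} ∈ nhds x :=
      (isOpen_lt continuous_const continuous_abs).mem_nhds hx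
    filter_upwards [this] with y hy
    exact p7_b0_out (le_of_lt hy)
  rw [this.deriv_eq]
  simp

/-! ### the lattice -/

theorem p7_round {L : ℝ} (hL : 0 < L) (y : ℝ) (j : ℤ) (h : |y - L * j| < L / 2) :
    round (y / L) = j := by
  rw [round_eq, Int.floor_eq_iff]
  rw [abs_lt] at h
  have h1 : y / L * L = y := div_mul_cancel₀ y hL.ne'
  constructor
  · by_contra hc
    push Not at hc
    nlinarith
  · by_contra hc
    push Not at hc
    nlinarith

theorem p7_xi_eq {L : ℝ} (hL : 0 < L) (y : ℝ) (j : ℤ) (h : |y - L * j| < L / 2) :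
    xi L y = y - L * j := by
  unfold xi
  rw [p7_round hL y j h]

theorem p7_xi_bd {L : ℝ} (hL : 0 < L) (y : ℝ) : |xi L y| ≤ L / 2 := by
  unfold xi
  have h := abs_sub_round (y / L)
  have h1 : y - L * round (y / L) = L * (y / L - round (y / L)) := by
    field_simp
  rw [h1, abs_mul, abs_of_pos hL]
  nlinarith

theorem p7_loc {L : ℝ} (hL : 20 ≤ L) (q : ℝ → ℝ) (hq : ∀ x, 3 ≤ |x| → q x = 0) (y : ℝ) (j : ℤ)
    (h : |y - L * j| ≤ L / 2 + 1) : q (xi L y) = q (y - L * j) := by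
  by_cases hj : round (y / L) = j
  · unfold xi
    rw [hj]
  · have h0 : |xi L y| ≤ L / 2 := p7_xi_bd (by linarith) y
    have h1 : (1 : ℝ) ≤ |((round (y / L) : ℤ) : ℝ) - j| := by
      have : (1 : ℤ) ≤ |round (y / L) - j| := Int.one_le_abs (sub_ne_zero.mpr hj)
      exact_mod_cast this
    have h2 : xi L y - (y - L * j) = -(L * (((round (y / L) : ℤ) : ℝ) - j)) := by
      unfold xi
      ring
    have h3 : L ≤ |xi L y - (y - L * j)| := by
      rw [h2, abs_neg, abs_mul, abs_of_pos (by linarith)]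
      nlinarith
    have h4 := abs_sub (xi L y) (y - L * j)
    rw [hq (xi L y) (by linarith), hq (y - L * j) (by linarith)]

theorem p7_hh (k : ℕ) (x : ℝ) : hh k x = p7_h0 (xi (4 * k) x) := rfl

section

variable {k : ℕ} (hk : 5 ≤ k)

include hk in
theorem p7_L : (20 : ℝ) ≤ 4 * k := by
  have : (5 : ℝ) ≤ k := by exact_mod_cast hk
  linarith

include hk in
theorem p7_hh2 (x : ℝ) : iteratedDeriv 2 (hh k) x = p7_h2 (xi (4 * k) x) := by
  set L : ℝ := 4 * k with hLdef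
  have hL : 20 ≤ L := p7_L hk
  set j := round (x / L) with hj
  have h0 : |x - L * j| ≤ L / 2 := p7_xi_bd (by linarith) x
  have h1 : hh k =ᶠ[nhds x] fun y => p7_h0 (y - L * j) := by
    have : ball x 1 ∈ nhds x := ball_mem_nhds x one_pos
    filter_upwards [this] with y hy
    rw [p7_hh]
    apply p7_loc hL p7_h0 (fun z hz => p7_h0_out (by linarith))
    rw [mem_ball, Real.dist_eq] at hy
    have : y - L * j = (y - x) + (x - L * j) := by ring
    rw [this]
    have := abs_add_le (y - x) (x - L * j)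
    linarith
  rw [h1.iteratedDeriv_eq 2, iteratedDeriv_comp_sub_const]
  rfl

/-- reflections -/
theorem p7_refl {L : ℝ} (hL : 20 ≤ L) (q : ℝ → ℝ) (hq : ∀ x, 3 ≤ |x| → q x = 0) (n : ℤ) (x : ℝ) :
    q (xi L (L * n - x)) = q (-(xi L x)) := by
  have h0 : |xi L x| ≤ L / 2 := p7_xi_bd (by linarith) x
  have h1 : (L * n - x) - L * ((n - round (x / L) : ℤ) : ℝ) = -(xi L x) := by
    unfold xi
    push_cast
    ring
  rw [p7_loc hL q hq (L * n - x) (n - round (x / L)) (by rw [h1, abs_neg]; linarith), h1]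

theorem p7_tran {L : ℝ} (hL : 20 ≤ L) (q : ℝ → ℝ) (hq : ∀ x, 3 ≤ |x| → q x = 0) (n : ℤ) (x : ℝ) :
    q (xi L (x + L * n)) = q (xi L x) := by
  have h0 : |xi L x| ≤ L / 2 := p7_xi_bd (by linarith) x
  have h1 : (x + L * n) - L * ((n + round (x / L) : ℤ) : ℝ) = xi L x := by
    unfold xi
    push_cast
    ring
  rw [p7_loc hL q hq (x + L * n) (n + round (x / L)) (by rw [h1]; linarith), h1]

include hk in
theorem p7_hh_refl (n : ℤ) (x : ℝ) : hh k (4 * k * n - x) = hh k x := by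
  rw [p7_hh, p7_hh, p7_refl (p7_L hk) p7_h0 (fun z hz => p7_h0_out (by linarith)), p7_h0_neg]

include hk in
theorem p7_h2_refl (n : ℤ) (x : ℝ) :
    p7_h2 (xi (4 * k) (4 * k * n - x)) = p7_h2 (xi (4 * k) x) := by
  rw [p7_refl (p7_L hk) p7_h2 (fun z hz => p7_h2_out (by linarith)), p7_h2_neg]

include hk in
theorem p7_xh2_refl (n : ℤ) (x : ℝ) :
    xi (4 * k) (4 * k * n - x) * p7_h2 (xi (4 * k) (4 * k * n - x)) =
      -(xi (4 * k) x * p7_h2 (xi (4 * k) x)) := by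
  have h : xi (4 * k) (4 * k * n - x) * p7_h2 (xi (4 * k) (4 * k * n - x)) =
      -(xi (4 * k) x) * p7_h2 (-(xi (4 * k) x)) := p7_refl (p7_L hk) (fun y => y * p7_h2 y)
    (fun z hz => by rw [p7_h2_out (by linarith), mul_zero]) n x
  rw [h, p7_h2_neg]
  ring

/-- the gap profile near the `i`-th gap -/
theorem p7_pg_eq (y : ℝ) (i : ℤ) (h : |y - 2 - 4 * i| ≤ 3) :
    pg k y = massg k i * b0 (y - 2 - 4 * i) := by
  unfold pg barfun
  by_cases hi : round ((y - 2) / 4) = i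
  · rw [hi, sub_zero]
  · have h1 : (1 : ℝ) ≤ |((round ((y - 2) / 4) : ℤ) : ℝ) - i| := by
      have : (1 : ℤ) ≤ |round ((y - 2) / 4) - i| := Int.one_le_abs (sub_ne_zero.mpr hi)
      exact_mod_cast this
    have h0 : |y - 2 - 4 * round ((y - 2) / 4)| ≤ 2 := by
      have := p7_xi_bd (L := 4) (by norm_num) (y - 2)
      unfold xi at this
      linarith
    have h2 : (y - 2 - 4 * round ((y - 2) / 4)) - (y - 2 - 4 * i) =
        -(4 * (((round ((y - 2) / 4) : ℤ) : ℝ) - i)) := by ring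
    have h3 : 4 ≤ |(y - 2 - 4 * round ((y - 2) / 4)) - (y - 2 - 4 * i)| := by
      rw [h2, abs_neg, abs_mul, abs_of_pos (by norm_num)]
      linarith
    have h4 := abs_sub (y - 2 - 4 * round ((y - 2) / 4)) (y - 2 - 4 * (i : ℝ))
    rw [p7_b0_out (x := y - 2 - 4 * i) (by linarith), sub_zero,
      p7_b0_out (x := y - 2 - 4 * round ((y - 2) / 4)) (by linarith), mul_zero, mul_zero]

theorem p7_pg_bd0 (y : ℝ) : |y - 2 - 4 * round ((y - 2) / 4)| ≤ 2 := by
  have := p7_xi_bd (L := 4) (by norm_num) (y - 2)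
  unfold xi at this
  linarith

theorem p7_dpg_eq (y : ℝ) (i : ℤ) (h : |y - 2 - 4 * i| ≤ 2) :
    deriv (pg k) y = massg k i * deriv b0 (y - 2 - 4 * i) := by
  have h1 : pg k =ᶠ[nhds y] fun z => massg k i * b0 (z - 2 - 4 * i) := by
    have : ball y 1 ∈ nhds y := ball_mem_nhds y one_pos
    filter_upwards [this] with z hz
    apply p7_pg_eq
    rw [mem_ball, Real.dist_eq] at hz
    have h2 : z - 2 - 4 * i = (z - y) + (y - 2 - 4 * i) := by ring
    rw [h2]
    have := abs_add_le (z - y) (y - 2 - 4 * i)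
    linarith
  rw [h1.deriv_eq, deriv_const_mul_field]
  congr 1
  have h2 : (fun z => b0 (z - 2 - 4 * (i : ℝ))) = fun z => b0 (z - (2 + 4 * (i : ℝ))) := by
    funext z
    congr 1
    ring
  rw [h2, deriv_comp_sub_const]
  congr 1
  ring

theorem p7_emod_refl (hk0 : 0 < k) (n i : ℤ) : (k * n - 1 - i) % (k : ℤ) = k - 1 - i % k := by
  have hk1 : (0 : ℤ) < k := by exact_mod_cast hk0
  have h1 := Int.emod_add_mul_ediv i k
  have h2 := Int.emod_nonneg i hk1.ne'
  have h3 := Int.emod_lt_of_pos i hk1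
  have h4 : (k * n - 1 - i) = (k - 1 - i % k) + k * (n - 1 - i / k) := by
    have : i = i % k + k * (i / k) := h1.symm
    conv_lhs => rw [this]
    ring
  rw [h4, Int.add_mul_emod_self_left]
  apply Int.emod_eq_of_lt <;> omega

include hk in
theorem p7_massg_refl (n i : ℤ) : massg k (k * n - 1 - i) = massg k i := by
  have hk1 : (5 : ℤ) ≤ k := by exact_mod_cast hk
  have e0 := p7_emod_refl (k := k) (by omega) n i
  have e1 : (1 ≤ (k : ℤ) - 1 - i % k ∧ (k : ℤ) - 1 - i % k ≤ k - 2) ↔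
      (1 ≤ i % (k : ℤ) ∧ i % (k : ℤ) ≤ k - 2) := by omega
  have e2 : ((k : ℤ) - 1 - i % k = 1 ∨ (k : ℤ) - 1 - i % k = k - 2) ↔
      (i % (k : ℤ) = 1 ∨ i % (k : ℤ) = k - 2) := by omega
  rw [← e0] at e1 e2
  unfold massg
  by_cases c1 : gapIdx k i
  · have c1' : gapIdx k (k * n - 1 - i) := e1.mpr c1
    rw [if_pos c1', if_pos c1]
    by_cases c2 : i % (k : ℤ) = 1 ∨ i % (k : ℤ) = k - 2
    · rw [if_pos (e2.mpr c2), if_pos c2]
    · rw [if_neg (fun h => c2 (e2.mp h)), if_neg c2]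
  · have c1' : ¬ gapIdx k (k * n - 1 - i) := fun h => c1 (e1.mp h)
    rw [if_neg c1', if_neg c1]

include hk in
theorem p7_pg_refl (n : ℤ) (y : ℝ) : pg k (4 * k * n - y) = pg k y := by
  set i := round ((y - 2) / 4) with hi
  have h0 := p7_pg_bd0 y
  rw [← hi] at h0
  have h1 : (4 * k * n - y) - 2 - 4 * ((k * n - 1 - i : ℤ) : ℝ) = -(y - 2 - 4 * i) := by
    push_cast
    ring
  rw [p7_pg_eq (4 * k * n - y) (k * n - 1 - i) (by rw [h1, abs_neg]; linarith), h1,
    p7_massg_refl hk, p7_b0_neg, p7_pg_eq y i (by linarith)]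

include hk in
theorem p7_dpg_refl (n : ℤ) (y : ℝ) : deriv (pg k) (4 * k * n - y) = -deriv (pg k) y := by
  have h1 : (fun z => pg k (4 * k * n - z)) = pg k := by
    funext z
    exact p7_pg_refl hk n z
  have h2 := deriv_comp_const_sub (f := pg k) (a := 4 * k * n) (x := y)
  rw [h1] at h2
  rw [h2]
  simp

end

/-! ### the force density -/

theorem p7_kap_bd (k : ℕ) (i : ℤ) : |kap k i| ≤ 1 := by
  unfold kap
  split_ifs <;> simp

theorem p7_mass_bd (k : ℕ) (i : ℤ) : |mass k i| ≤ 10 := by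
  unfold mass
  split_ifs <;> norm_num

theorem p7_massg_bd (k : ℕ) (i : ℤ) : |massg k i| ≤ 8 := by
  unfold massg
  split_ifs <;> norm_num

theorem p7_mass_ne {k : ℕ} {i : ℤ} (h : mass k i ≠ 0) : barIdx k i := by
  by_contra hc
  apply h
  unfold mass
  rw [if_neg hc]

theorem p7_massg_ne {k : ℕ} {i : ℤ} (h : massg k i ≠ 0) : gapIdx k i := by
  by_contra hc
  apply h
  unfold massg
  rw [if_neg hc]

theorem p7_hh_bd (k : ℕ) (x : ℝ) : |hh k x| ≤ 3 / 2 := p7_h0_bd _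

/-- the bar factor of the force -/
noncomputable def p7_bf (k : ℕ) (γ h z : ℝ) : ℝ :=
  barfun (fun i => kap k i * mass k i) b0 (fun i => kap k i * γ * h) z

theorem p7_ff {k : ℕ} (hk : 5 ≤ k) (γ x z : ℝ) :
    ff k γ x z = p7_h2 (xi (4 * k) x) * p7_bf k γ (hh k x) z := by
  unfold ff p7_bf
  rw [p7_hh2 hk]

theorem p7_bf_ne {k : ℕ} {γ h z : ℝ} (hγ : 0 ≤ γ) (hγ' : γ ≤ 1 / 8) (hh : |h| ≤ 3 / 2)
    (hne : p7_bf k γ h z ≠ 0) : ∃ i : ℤ, barIdx k i ∧ |z - 4 * i| < 3 / 4 := by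
  unfold p7_bf barfun at hne
  set i := round (z / 4) with hi
  refine ⟨i, ?_, ?_⟩
  · apply p7_mass_ne
    intro hc
    apply hne
    change kap k i * mass k i * _ = 0
    rw [hc, mul_zero, zero_mul]
  · have h1 : |z - 4 * i - kap k i * γ * h| < 1 / 2 := by
      by_contra hc
      push Not at hc
      apply hne
      rw [p7_b0_out hc, mul_zero]
    have h2 : |kap k i * γ * h| ≤ 1 * (1 / 8) * (3 / 2) := by
      rw [abs_mul, abs_mul, abs_of_nonneg hγ]
      have := p7_kap_bd k i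
      gcongr
    have h3 : z - 4 * i = (z - 4 * i - kap k i * γ * h) + kap k i * γ * h := by ring
    rw [h3]
    have := abs_add_le (z - 4 * i - kap k i * γ * h) (kap k i * γ * h)
    linarith

theorem p7_bf_bd (C : ℝ) (hC : ∀ x, |b0 x| ≤ C ∧ |deriv b0 x| ≤ C) (k : ℕ) (γ h z : ℝ) :
    |p7_bf k γ h z| ≤ 10 * C := by
  unfold p7_bf barfun
  rw [abs_mul, abs_mul]
  have h1 := p7_kap_bd k (round (z / 4))
  have h2 := p7_mass_bd k (round (z / 4))
  have h3 := (hC (z - 4 * round (z / 4) - kap k (round (z / 4)) * γ * h)).1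
  have hC0 : 0 ≤ C := le_trans (abs_nonneg _) h3
  calc _ ≤ 1 * 10 * C := by gcongr
    _ = 10 * C := by ring

theorem p7_pg_ne {k : ℕ} {y : ℝ} (h : pg k y ≠ 0 ∨ deriv (pg k) y ≠ 0) :
    ∃ i : ℤ, gapIdx k i ∧ |y - (4 * i + 2)| < 3 / 4 := by
  set i := round ((y - 2) / 4) with hi
  have h0 := p7_pg_bd0 y
  rw [← hi] at h0
  have e1 := p7_pg_eq (k := k) y i (by linarith)
  have e2 := p7_dpg_eq (k := k) y i h0
  rw [e1, e2] at h
  have h1 : massg k i ≠ 0 := by
    intro hc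
    rw [hc] at h
    simp at h
  refine ⟨i, p7_massg_ne h1, ?_⟩
  by_contra hc
  push Not at hc
  have h2 : y - 2 - 4 * i = y - (4 * i + 2) := by ring
  rw [h2, p7_b0_out (by linarith), p7_db0_out (by linarith)] at h
  simp at h

theorem p7_pg_bd (C : ℝ) (hC : ∀ x, |b0 x| ≤ C ∧ |deriv b0 x| ≤ C) (k : ℕ) (y : ℝ) :
    |pg k y| ≤ 8 * C ∧ |deriv (pg k) y| ≤ 8 * C := by
  have h0 := p7_pg_bd0 y
  rw [p7_pg_eq (k := k) y _ (le_trans h0 (by norm_num)), p7_dpg_eq (k := k) y _ h0, abs_mul,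
    abs_mul]
  have h1 := p7_massg_bd k (round ((y - 2) / 4))
  have h2 := hC (y - 2 - 4 * round ((y - 2) / 4))
  constructor
  · have := h2.1
    gcongr
  · have := h2.2
    gcongr

/-! ### measurability -/

theorem p7_round_meas : Measurable (fun x : ℝ => round x) := by
  simp_rw [round_eq]
  exact Int.measurable_floor.comp (measurable_id.add_const _)

theorem p7_xi_meas (L : ℝ) : Measurable (xi L) := by
  unfold xi
  have : Measurable fun x : ℝ => ((round (x / L) : ℤ) : ℝ) :=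
    (measurable_from_top (f := fun n : ℤ => (n : ℝ))).comp
      (p7_round_meas.comp (measurable_id.div_const L))
  exact measurable_id.sub (this.const_mul L)

theorem p7_hh_meas (k : ℕ) : Measurable (hh k) := by
  have : hh k = fun x => p7_h0 (xi (4 * k) x) := rfl
  rw [this]
  exact p7_h0_s.continuous.measurable.comp (p7_xi_meas _)

theorem p7_bf_meas (k : ℕ) (γ : ℝ) : Measurable fun q : ℝ × ℝ => p7_bf k γ q.1 q.2 := by
  unfold p7_bf barfun
  have hr : Measurable fun q : ℝ × ℝ => round (q.2 / 4) :=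
    p7_round_meas.comp (measurable_snd.div_const 4)
  have h1 : Measurable fun q : ℝ × ℝ => kap k (round (q.2 / 4)) :=
    (measurable_from_top (f := kap k)).comp hr
  have h2 : Measurable fun q : ℝ × ℝ => mass k (round (q.2 / 4)) :=
    (measurable_from_top (f := mass k)).comp hr
  have h3 : Measurable fun q : ℝ × ℝ => ((round (q.2 / 4) : ℤ) : ℝ) :=
    (measurable_from_top (f := fun n : ℤ => (n : ℝ))).comp hr
  apply (h1.mul h2).mul
  apply p7_b0_s.continuous.measurable.comp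
  exact (measurable_snd.sub (h3.const_mul 4)).sub ((h1.mul_const γ).mul measurable_fst)

theorem p7_pg_meas (k : ℕ) : Measurable (pg k) := by
  unfold pg barfun
  have hr : Measurable fun y : ℝ => round ((y - 2) / 4) :=
    p7_round_meas.comp ((measurable_id.sub_const 2).div_const 4)
  have h2 : Measurable fun y : ℝ => massg k (round ((y - 2) / 4)) :=
    (measurable_from_top (f := massg k)).comp hr
  have h3 : Measurable fun y : ℝ => ((round ((y - 2) / 4) : ℤ) : ℝ) :=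
    (measurable_from_top (f := fun n : ℤ => (n : ℝ))).comp hr
  apply h2.mul
  apply p7_b0_s.continuous.measurable.comp
  exact ((measurable_id.sub_const 2).sub (h3.const_mul 4)).sub_const 0



/-- change one coordinate by a reflection -/
noncomputable def p7_rf (c : ℝ) (j : Fin 3) (x : E3) : E3 :=
  mk3 fun i => if i = j then c - x i else x i

/-- exchange of the first two coordinates -/
noncomputable def p7_sw (x : E3) : E3 := mk3 ![x 1, x 0, x 2]

theorem p7_rf_mp (c : ℝ) (j : Fin 3) : MeasurePreserving (p7_rf c j) volume volume := by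
  have h1 : MeasurePreserving (fun (y : Fin 3 → ℝ) (i : Fin 3) =>
      (if i = j then (fun t : ℝ => c - t) else id) (y i)) volume volume := by
    apply MeasureTheory.volume_preserving_pi
    intro i
    split_ifs
    · exact Measure.measurePreserving_sub_left volume c
    · exact MeasurePreserving.id _
  have h2 := (PiLp.volume_preserving_toLp (Fin 3)).comp
    (h1.comp (PiLp.volume_preserving_ofLp (Fin 3)))
  have e : p7_rf c j = (WithLp.toLp 2 ∘ (fun (y : Fin 3 → ℝ) (i : Fin 3) =>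
      (if i = j then (fun t : ℝ => c - t) else id) (y i)) ∘ WithLp.ofLp) := by
    funext x
    simp only [p7_rf, Function.comp_apply]
    congr 1
    funext i
    split_ifs <;> rfl
  rw [e]
  exact h2

theorem p7_sw_mp : MeasurePreserving p7_sw volume volume := by
  have h1 := (LinearIsometryEquiv.piLpCongrLeft 2 ℝ ℝ (Equiv.swap (0 : Fin 3) 1)).measurePreserving
  have e : p7_sw = ⇑(LinearIsometryEquiv.piLpCongrLeft 2 ℝ ℝ (Equiv.swap (0 : Fin 3) 1)) := by
    funext x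
    ext i
    simp only [p7_sw, LinearIsometryEquiv.piLpCongrLeft_apply]
    fin_cases i <;> simp [Equiv.piCongrLeft', Equiv.swap_apply_def]
  rw [e]
  exact h1

theorem p7_rf_apply (c : ℝ) (j : Fin 3) (x : E3) (i : Fin 3) :
    p7_rf c j x i = if i = j then c - x i else x i := rfl

theorem p7_sw_apply (x : E3) : p7_sw x 0 = x 1 ∧ p7_sw x 1 = x 0 ∧ p7_sw x 2 = x 2 :=
  ⟨rfl, rfl, rfl⟩

theorem p7_invol (φ : E3 → E3) (h : MeasurePreserving φ volume volume) (hi : ∀ x, φ (φ x) = x)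
    (f : E3 → ℝ) : ∫ x, f (φ x) = ∫ x, f x := by
  let e : E3 ≃ᵐ E3 :=
    { toFun := φ
      invFun := φ
      left_inv := hi
      right_inv := hi
      measurable_toFun := h.measurable
      measurable_invFun := h.measurable }
  exact MeasurePreserving.integral_comp' (f := e) h f

theorem p7_rf_invol (c : ℝ) (j : Fin 3) (x : E3) : p7_rf c j (p7_rf c j x) = x := by
  ext i
  rw [p7_rf_apply, p7_rf_apply]
  split_ifs <;> ring

theorem p7_sw_invol (x : E3) : p7_sw (p7_sw x) = x := by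
  ext i
  fin_cases i <;> rfl

/-- the general form of the forces -/
noncomputable def p7_F (u u1 : ℝ → ℝ → ℝ) (w w1 : ℝ → ℝ) (β τ : ℝ) (x : E3) : ℝ :=
  u (x 0) (x 2) * (-β * w (x 1)) - τ * (u1 (x 0) (x 2) * w1 (x 1)) +
    (u (x 1) (x 2) * (β * w (x 0)) - τ * (u1 (x 1) (x 2) * w1 (x 0)))

section

variable (u u1 : ℝ → ℝ → ℝ) (w w1 : ℝ → ℝ) (c : ℝ)
  (hu : Measurable fun q : ℝ × ℝ => u q.1 q.2) (hu1 : Measurable fun q : ℝ × ℝ => u1 q.1 q.2)
  (hw : Measurable w) (hw1 : Measurable w1) (A B : ℝ)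
  (bu : ∀ x z, |u x z| ≤ A) (bu1 : ∀ x z, |u1 x z| ≤ A) (bw : ∀ x, |w x| ≤ B)
  (bw1 : ∀ x, |w1 x| ≤ B)
  (su : ∀ x z, (c < |x| ∨ c < |z|) → u x z = 0) (su1 : ∀ x z, (c < |x| ∨ c < |z|) → u1 x z = 0)
  (sw : ∀ x, c < |x| → w x = 0) (sw1 : ∀ x, c < |x| → w1 x = 0)
  (ru : ∀ x z, u (c - x) z = u x z) (ru1 : ∀ x z, u1 (c - x) z = -u1 x z)
  (rw' : ∀ x, w (c - x) = w x) (rw1 : ∀ x, w1 (c - x) = -w1 x)

include hu hw in
theorem p7_meas1 (i j l : Fin 3) : Measurable fun x : E3 => u (x i) (x j) * w (x l) := by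
  have h1 : Measurable fun x : E3 => (x i, x j) :=
    (by fun_prop : Continuous fun x : E3 => (x i, x j)).measurable
  have h2 : Measurable fun x : E3 => x l := (by fun_prop : Continuous fun x : E3 => x l).measurable
  exact (hu.comp h1).mul (hw.comp h2)

include hu hw bu bw su sw in
theorem p7_int1 (i l : Fin 3) (hil : i ≠ l) (hi2 : i ≠ 2) (hl2 : l ≠ 2) (m : Fin 3) :
    Integrable (fun x : E3 => u (x i) (x 2) * w (x l)) volume ∧
    Integrable (fun x : E3 => u (x i) (x 2) * w (x l) * x m) volume := by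
  have hm := p7_meas1 u w hu hw i 2 l
  have hA : 0 ≤ A := le_trans (abs_nonneg _) (bu 0 0)
  have hB : 0 ≤ B := le_trans (abs_nonneg _) (bw 0)
  have hsup : ∀ x : E3, u (x i) (x 2) * w (x l) ≠ 0 → x ∈ Metric.closedBall (0 : E3) (2 * |c|) := by
    intro x hx
    have h1 : |x i| ≤ c ∧ |x 2| ≤ c := by
      by_contra hc
      apply hx
      rw [su (x i) (x 2) (by by_contra h; push Not at h; exact hc h), zero_mul]
    have h2 : |x l| ≤ c := by
      by_contra hc
      push Not at hc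
      apply hx
      rw [sw (x l) hc, mul_zero]
    have h3 : ∀ n : Fin 3, |x n| ≤ |c| := by
      intro n
      have : n = i ∨ n = l ∨ n = 2 := by omega
      rcases this with rfl | rfl | rfl
      · exact h1.1.trans (le_abs_self c)
      · exact h2.trans (le_abs_self c)
      · exact h1.2.trans (le_abs_self c)
    rw [mem_closedBall, dist_zero_right, EuclideanSpace.norm_eq]
    rw [Real.sqrt_le_left (by positivity)]
    rw [Fin.sum_univ_three]
    simp only [Real.norm_eq_abs]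
    have e0 := h3 0
    have e1 := h3 1
    have e2 := h3 2
    nlinarith [abs_nonneg (x 0), abs_nonneg (x 1), abs_nonneg (x 2), abs_nonneg c,
      mul_self_le_mul_self (abs_nonneg (x 0)) e0, mul_self_le_mul_self (abs_nonneg (x 1)) e1,
      mul_self_le_mul_self (abs_nonneg (x 2)) e2]
  have hfin : volume (Metric.closedBall (0 : E3) (2 * |c|)) < ⊤ := measure_closedBall_lt_top
  have key : ∀ g : E3 → ℝ, Measurable g → (∃ D : ℝ, ∀ x, |g x| ≤ D) →
      (∀ x, g x ≠ 0 → x ∈ Metric.closedBall (0 : E3) (2 * |c|)) → Integrable g volume := by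
    intro g hg ⟨D, hD⟩ hs
    have h1 : IntegrableOn g (Metric.closedBall (0 : E3) (2 * |c|)) volume :=
      Measure.integrableOn_of_bounded hfin.ne hg.aestronglyMeasurable
        (Filter.Eventually.of_forall fun x => by rw [Real.norm_eq_abs]; exact hD x)
    rw [← integrableOn_iff_integrable_of_support_subset (s := Metric.closedBall (0 : E3) (2 * |c|))]
    · exact h1
    · intro x hx
      exact hs x hx
  constructor
  · apply key _ hm
    · refine ⟨A * B, fun x => ?_⟩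
      rw [abs_mul]
      have := bu (x i) (x 2)
      have := bw (x l)
      gcongr
    · exact hsup
  · apply key (fun x : E3 => u (x i) (x 2) * w (x l) * x m)
      (hm.mul ((by fun_prop : Continuous fun x : E3 => x m).measurable))
    · refine ⟨A * B * (2 * |c|), fun x => ?_⟩
      by_cases hx : u (x i) (x 2) * w (x l) = 0
      · rw [hx, zero_mul, abs_zero]
        positivity
      · have h1 := hsup x hx
        rw [mem_closedBall, dist_zero_right] at h1
        have h2 : |x m| ≤ ‖x‖ := by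
          have := PiLp.norm_apply_le x m
          rwa [Real.norm_eq_abs] at this
        rw [abs_mul, abs_mul]
        have := bu (x i) (x 2)
        have := bw (x l)
        have h3 : |x m| ≤ 2 * |c| := h2.trans h1
        gcongr
    · intro x hx
      apply hsup x
      intro hc
      apply hx
      rw [hc, zero_mul]

theorem p7_rfv (c : ℝ) (x : E3) : p7_rf c 0 x 0 = c - x 0 ∧ p7_rf c 0 x 1 = x 1 ∧
    p7_rf c 0 x 2 = x 2 ∧ p7_rf c 1 x 0 = x 0 ∧ p7_rf c 1 x 1 = c - x 1 ∧ p7_rf c 1 x 2 = x 2 := by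
  refine ⟨?_, ?_, ?_, ?_, ?_, ?_⟩ <;> simp [p7_rf_apply]

theorem p7_odd (φ : E3 → E3) (h : MeasurePreserving φ volume volume) (hi : ∀ x, φ (φ x) = x)
    (G : E3 → ℝ) (hG : ∀ x, G (φ x) = -G x) : ∫ x, G x = 0 := by
  have h1 := p7_invol φ h hi G
  simp only [hG, integral_neg] at h1
  linarith

theorem p7_half (φ : E3 → E3) (h : MeasurePreserving φ volume volume) (hi : ∀ x, φ (φ x) = x)
    (G H : E3 → ℝ) (c : ℝ) (hG : ∀ x, G (φ x) = c * H x - G x) (iG : Integrable G volume)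
    (iH : Integrable H volume) : ∫ x, G x = c / 2 * ∫ x, H x := by
  have h1 := p7_invol φ h hi G
  simp only [hG] at h1
  rw [integral_sub (iH.const_mul c) iG, integral_const_mul] at h1
  linarith

theorem p7_lin4 (f1 f2 f3 f4 : E3 → ℝ) (h1 : Integrable f1 volume) (h2 : Integrable f2 volume)
    (h3 : Integrable f3 volume) (h4 : Integrable f4 volume) (a b c d : ℝ) :
    Integrable (fun x => a * f1 x + b * f2 x + (c * f3 x + d * f4 x)) volume ∧
    ∫ x, (a * f1 x + b * f2 x + (c * f3 x + d * f4 x)) =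
      a * (∫ x, f1 x) + b * (∫ x, f2 x) + (c * (∫ x, f3 x) + d * ∫ x, f4 x) := by
  have g1 : Integrable (fun x => a * f1 x) volume := h1.const_mul a
  have g2 : Integrable (fun x => b * f2 x) volume := h2.const_mul b
  have g3 : Integrable (fun x => c * f3 x) volume := h3.const_mul c
  have g4 : Integrable (fun x => d * f4 x) volume := h4.const_mul d
  have g12 : Integrable (fun x => a * f1 x + b * f2 x) volume := g1.add g2
  have g34 : Integrable (fun x => c * f3 x + d * f4 x) volume := g3.add g4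
  refine ⟨g12.add g34, ?_⟩
  rw [integral_add g12 g34, integral_add g1 g2, integral_add g3 g4, integral_const_mul,
    integral_const_mul, integral_const_mul, integral_const_mul]

include hu hu1 hw hw1 bu bu1 bw bw1 su su1 sw sw1 ru ru1 rw' rw1 in
theorem p7_moment (β τ : ℝ) : Integrable (p7_F u u1 w w1 β τ) volume ∧
    (∫ x : E3, p7_F u u1 w w1 β τ x = 0) ∧ (∫ x : E3, p7_F u u1 w w1 β τ x * x 0 = 0) ∧
    (∫ x : E3, p7_F u u1 w w1 β τ x * x 1 = 0) := by
  have U01 := p7_int1 u w c hu hw A B bu bw su sw 0 1 (by decide) (by decide) (by decide)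
  have U10 := p7_int1 u w c hu hw A B bu bw su sw 1 0 (by decide) (by decide) (by decide)
  have V01 := p7_int1 u1 w1 c hu1 hw1 A B bu1 bw1 su1 sw1 0 1 (by decide) (by decide) (by decide)
  have V10 := p7_int1 u1 w1 c hu1 hw1 A B bu1 bw1 su1 sw1 1 0 (by decide) (by decide) (by decide)
  have s1 : ∫ x : E3, u (x 1) (x 2) * w (x 0) = ∫ x : E3, u (x 0) (x 2) * w (x 1) := by
    have h := p7_invol p7_sw p7_sw_mp p7_sw_invol (fun x : E3 => u (x 1) (x 2) * w (x 0))
    rw [← h]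
    rfl
  have r0 := fun x => p7_rfv c x
  have z1 : ∫ x : E3, u1 (x 0) (x 2) * w1 (x 1) = 0 := by
    apply p7_odd (p7_rf c 0) (p7_rf_mp c 0) (p7_rf_invol c 0)
    intro x
    rw [(r0 x).1, (r0 x).2.1, (r0 x).2.2.1, ru1]
    ring
  have z2 : ∫ x : E3, u1 (x 1) (x 2) * w1 (x 0) = 0 := by
    apply p7_odd (p7_rf c 0) (p7_rf_mp c 0) (p7_rf_invol c 0)
    intro x
    rw [(r0 x).1, (r0 x).2.1, (r0 x).2.2.1, rw1]
    ring
  have z3 : ∫ x : E3, u1 (x 0) (x 2) * w1 (x 1) * x 0 = 0 := by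
    apply p7_odd (p7_rf c 1) (p7_rf_mp c 1) (p7_rf_invol c 1)
    intro x
    rw [(r0 x).2.2.2.1, (r0 x).2.2.2.2.1, (r0 x).2.2.2.2.2, rw1]
    ring
  have z4 : ∫ x : E3, u1 (x 1) (x 2) * w1 (x 0) * x 0 = 0 := by
    apply p7_odd (p7_rf c 1) (p7_rf_mp c 1) (p7_rf_invol c 1)
    intro x
    rw [(r0 x).2.2.2.1, (r0 x).2.2.2.2.1, (r0 x).2.2.2.2.2, ru1]
    ring
  have z5 : ∫ x : E3, u1 (x 0) (x 2) * w1 (x 1) * x 1 = 0 := by
    apply p7_odd (p7_rf c 0) (p7_rf_mp c 0) (p7_rf_invol c 0)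
    intro x
    rw [(r0 x).1, (r0 x).2.1, (r0 x).2.2.1, ru1]
    ring
  have z6 : ∫ x : E3, u1 (x 1) (x 2) * w1 (x 0) * x 1 = 0 := by
    apply p7_odd (p7_rf c 0) (p7_rf_mp c 0) (p7_rf_invol c 0)
    intro x
    rw [(r0 x).1, (r0 x).2.1, (r0 x).2.2.1, rw1]
    ring
  have y1 : ∫ x : E3, u (x 0) (x 2) * w (x 1) * x 0 = c / 2 * ∫ x : E3, u (x 0) (x 2) * w (x 1) := by
    apply p7_half (p7_rf c 0) (p7_rf_mp c 0) (p7_rf_invol c 0) _ _ _ _ (U01 0).2 (U01 0).1
    intro x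
    rw [(r0 x).1, (r0 x).2.1, (r0 x).2.2.1, ru]
    ring
  have y2 : ∫ x : E3, u (x 0) (x 2) * w (x 1) * x 1 = c / 2 * ∫ x : E3, u (x 0) (x 2) * w (x 1) := by
    apply p7_half (p7_rf c 1) (p7_rf_mp c 1) (p7_rf_invol c 1) _ _ _ _ (U01 1).2 (U01 0).1
    intro x
    rw [(r0 x).2.2.2.1, (r0 x).2.2.2.2.1, (r0 x).2.2.2.2.2, rw']
    ring
  have y3 : ∫ x : E3, u (x 1) (x 2) * w (x 0) * x 0 = c / 2 * ∫ x : E3, u (x 1) (x 2) * w (x 0) := by
    apply p7_half (p7_rf c 0) (p7_rf_mp c 0) (p7_rf_invol c 0) _ _ _ _ (U10 0).2 (U10 0).1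
    intro x
    rw [(r0 x).1, (r0 x).2.1, (r0 x).2.2.1, rw']
    ring
  have y4 : ∫ x : E3, u (x 1) (x 2) * w (x 0) * x 1 = c / 2 * ∫ x : E3, u (x 1) (x 2) * w (x 0) := by
    apply p7_half (p7_rf c 1) (p7_rf_mp c 1) (p7_rf_invol c 1) _ _ _ _ (U10 1).2 (U10 0).1
    intro x
    rw [(r0 x).2.2.2.1, (r0 x).2.2.2.2.1, (r0 x).2.2.2.2.2, ru]
    ring
  have e0 : p7_F u u1 w w1 β τ = fun x : E3 => (-β) * (u (x 0) (x 2) * w (x 1)) +
      (-τ) * (u1 (x 0) (x 2) * w1 (x 1)) + (β * (u (x 1) (x 2) * w (x 0)) +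
      (-τ) * (u1 (x 1) (x 2) * w1 (x 0))) := by
    funext x
    unfold p7_F
    ring
  have em : ∀ m : Fin 3, (fun x : E3 => p7_F u u1 w w1 β τ x * x m) =
      fun x : E3 => (-β) * (u (x 0) (x 2) * w (x 1) * x m) +
      (-τ) * (u1 (x 0) (x 2) * w1 (x 1) * x m) + (β * (u (x 1) (x 2) * w (x 0) * x m) +
      (-τ) * (u1 (x 1) (x 2) * w1 (x 0) * x m)) := by
    intro m
    funext x
    unfold p7_F
    ring
  have fin : ∀ m : Fin 3, ∫ x : E3, p7_F u u1 w w1 β τ x * x m =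
      (-β) * (∫ x : E3, u (x 0) (x 2) * w (x 1) * x m) +
      (-τ) * (∫ x : E3, u1 (x 0) (x 2) * w1 (x 1) * x m) +
      (β * (∫ x : E3, u (x 1) (x 2) * w (x 0) * x m) +
      (-τ) * (∫ x : E3, u1 (x 1) (x 2) * w1 (x 0) * x m)) := by
    intro m
    rw [em m]
    exact (p7_lin4 _ _ _ _ (U01 m).2 (V01 m).2 (U10 m).2 (V10 m).2 _ _ _ _).2
  have L0 := p7_lin4 _ _ _ _ (U01 0).1 (V01 0).1 (U10 0).1 (V10 0).1 (-β) (-τ) β (-τ)
  refine ⟨?_, ?_, ?_, ?_⟩
  · rw [e0]
    exact L0.1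
  · rw [e0, L0.2, z1, z2, s1]
    ring
  · rw [fin 0, z3, z4, y1, y3, s1]
    ring
  · rw [fin 1, z5, z6, y2, y4, s1]
    ring

end



/-! ### boxes -/

/-- open boxes -/
def p7_box (a b : Fin 3 → ℝ) : Set E3 := {x | ∀ i, a i < x i ∧ x i < b i}

theorem p7_box_linked (a b : Fin 3 → ℝ) (h : ∀ i, a i < b i) : Linked (p7_box a b) := by
  apply Linked.base
  · intro x hx y hy s t hs ht hst i
    have := (convex_Ioo (a i) (b i)) (Set.mem_Ioo.mpr (hx i)) (Set.mem_Ioo.mpr (hy i)) hs ht hst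
    exact this
  · have : p7_box a b = ⋂ i, {x : E3 | a i < x i ∧ x i < b i} := by
      ext x
      simp [p7_box]
    rw [this]
    apply isOpen_iInter_of_finite
    intro i
    have hc : Continuous fun x : E3 => x i := by fun_prop
    exact (isOpen_lt continuous_const hc).inter (isOpen_lt hc continuous_const)
  · rw [Metric.isBounded_iff_subset_closedBall 0]
    refine ⟨∑ i, (|a i| + |b i|), fun x hx => ?_⟩
    rw [mem_closedBall, dist_zero_right, EuclideanSpace.norm_eq]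
    have h0 : 0 ≤ ∑ i, (|a i| + |b i|) := Finset.sum_nonneg fun i _ => by positivity
    rw [Real.sqrt_le_left h0]
    have h1 : ∀ i, |x i| ≤ |a i| + |b i| := by
      intro i
      have := hx i
      rw [abs_le]
      constructor
      · linarith [neg_abs_le (a i), abs_nonneg (b i)]
      · linarith [le_abs_self (b i), abs_nonneg (a i)]
    rw [Fin.sum_univ_three, Fin.sum_univ_three]
    simp only [Real.norm_eq_abs]
    have e0 := h1 0
    have e1 := h1 1
    have e2 := h1 2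
    have p0 := abs_nonneg (x 0)
    have p1 := abs_nonneg (x 1)
    have p2 := abs_nonneg (x 2)
    set A := |a 0| + |b 0|
    set B := |a 1| + |b 1|
    set C := |a 2| + |b 2|
    nlinarith [mul_nonneg p0 p1, mul_nonneg p1 p2, mul_nonneg p0 p2,
      mul_self_le_mul_self p0 e0, mul_self_le_mul_self p1 e1, mul_self_le_mul_self p2 e2,
      mul_le_mul e0 e1 p1 (p0.trans e0), mul_le_mul e1 e2 p2 (p1.trans e1),
      mul_le_mul e0 e2 p2 (p0.trans e0)]
  · refine ⟨mk3 fun i => (a i + b i) / 2, fun i => ?_⟩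
    have := h i
    constructor
    · change a i < (a i + b i) / 2
      linarith
    · change (a i + b i) / 2 < b i
      linarith

theorem p7_box3 (a b : Fin 3 → ℝ) (x : E3) : x ∈ p7_box a b ↔
    (a 0 < x 0 ∧ x 0 < b 0) ∧ (a 1 < x 1 ∧ x 1 < b 1) ∧ (a 2 < x 2 ∧ x 2 < b 2) := by
  constructor
  · intro h
    exact ⟨h 0, h 1, h 2⟩
  · rintro ⟨h0, h1, h2⟩ i
    fin_cases i
    · exact h0
    · exact h1
    · exact h2

theorem p7_mem (a0 a1 a2 b0 b1 b2 : ℝ) (x : E3) : x ∈ p7_box ![a0, a1, a2] ![b0, b1, b2] ↔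
    (a0 < x 0 ∧ x 0 < b0) ∧ (a1 < x 1 ∧ x 1 < b1) ∧ (a2 < x 2 ∧ x 2 < b2) :=
  p7_box3 _ _ x

theorem p7_mem' (a0 a1 a2 b0 b1 b2 p q r : ℝ) : mk3 ![p, q, r] ∈ p7_box ![a0, a1, a2] ![b0, b1, b2] ↔
    (a0 < p ∧ p < b0) ∧ (a1 < q ∧ q < b1) ∧ (a2 < r ∧ r < b2) :=
  p7_box3 _ _ _

/-- thin bars of the walls normal to the first direction -/
def p7_T0 (k : ℕ) (δ : ℝ) (i : ℤ) (j : ℕ) : Set E3 :=
  p7_box ![((j : ℝ) * (4 * k) + (-1) ^ j / 2) - δ, -2, 4 * i - 3 / 4]
    ![((j : ℝ) * (4 * k) + (-1) ^ j / 2) + δ, 8 * k + 2, 4 * i + 3 / 4]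

/-- thin bars of the walls normal to the second direction -/
def p7_T1 (k : ℕ) (δ : ℝ) (i : ℤ) (j : ℕ) : Set E3 :=
  p7_box ![-2, ((j : ℝ) * (4 * k) - (-1) ^ j / 2) - δ, 4 * i - 3 / 4]
    ![8 * k + 2, ((j : ℝ) * (4 * k) - (-1) ^ j / 2) + δ, 4 * i + 3 / 4]

/-- posts -/
def p7_P0 (k : ℕ) (i : ℤ) (q : ℕ × ℕ) : Set E3 :=
  p7_box ![(q.1 : ℝ) * (4 * k) - 1, 4 * q.2 + 2 - 3 / 4, 4 * i - 3 / 4]
    ![(q.1 : ℝ) * (4 * k) + 1, 4 * q.2 + 2 + 3 / 4, 4 * i + 3 / 4]

/-- posts -/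
def p7_P1 (k : ℕ) (i : ℤ) (q : ℕ × ℕ) : Set E3 :=
  p7_box ![4 * q.2 + 2 - 3 / 4, (q.1 : ℝ) * (4 * k) - 1, 4 * i - 3 / 4]
    ![4 * q.2 + 2 + 3 / 4, (q.1 : ℝ) * (4 * k) + 1, 4 * i + 3 / 4]

open Classical in
/-- indices of posts -/
noncomputable def p7_idx (k : ℕ) : Finset (ℕ × ℕ) :=
  Finset.range 3 ×ˢ (Finset.range (2 * k)).filter fun g : ℕ => gapIdx k (g : ℤ)

theorem p7_idx_mem (k : ℕ) (q : ℕ × ℕ) :
    q ∈ p7_idx k ↔ q.1 < 3 ∧ q.2 < 2 * k ∧ gapIdx k (q.2 : ℤ) := by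
  simp [p7_idx, Finset.mem_product]

/-- the net of a slice -/
noncomputable def p7_net (k : ℕ) (δ : ℝ) (i : ℤ) : Set E3 :=
  (((p7_T0 k δ i 0 ∪ ⋃ j ∈ Finset.range 3, p7_T1 k δ i j) ∪
    ⋃ j ∈ Finset.range 3, p7_T0 k δ i j) ∪ ⋃ q ∈ p7_idx k, p7_P0 k i q) ∪
    ⋃ q ∈ p7_idx k, p7_P1 k i q

theorem p7_sign (j : ℕ) : ((-1 : ℝ) ^ j = 1 ∨ (-1 : ℝ) ^ j = -1) := neg_one_pow_eq_or ℝ j

theorem p7_net_linked (k : ℕ) (hk : 5 ≤ k) (δ : ℝ) (hδ : 0 < δ) (hδ' : δ ≤ 1 / 10) (i : ℤ) :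
    Linked (p7_net k δ i) := by
  have hk' : (5 : ℝ) ≤ k := by exact_mod_cast hk
  have lT0 : ∀ j, Linked (p7_T0 k δ i j) := by
    intro j
    apply p7_box_linked
    intro m
    fin_cases m <;> simp <;> linarith
  have lT1 : ∀ j, Linked (p7_T1 k δ i j) := by
    intro j
    apply p7_box_linked
    intro m
    fin_cases m <;> simp <;> linarith
  have lP0 : ∀ q, Linked (p7_P0 k i q) := by
    intro q
    apply p7_box_linked
    intro m
    fin_cases m <;> simp <;> linarith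
  have lP1 : ∀ q, Linked (p7_P1 k i q) := by
    intro q
    apply p7_box_linked
    intro m
    fin_cases m <;> simp <;> linarith
  have hj : ∀ j : ℕ, j ∈ Finset.range 3 → 0 ≤ (j : ℝ) * (4 * k) ∧ (j : ℝ) * (4 * k) ≤ 8 * k := by
    intro j hj
    have h1 : (j : ℝ) ≤ 2 := by
      rw [Finset.mem_range] at hj
      exact_mod_cast (by omega : j ≤ 2)
    constructor
    · positivity
    · nlinarith
  -- crossing points of thin bars
  have cross : ∀ j j', j ∈ Finset.range 3 → j' ∈ Finset.range 3 →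
      (p7_T0 k δ i j ∩ p7_T1 k δ i j').Nonempty := by
    intro j j' h h'
    refine ⟨mk3 ![(j : ℝ) * (4 * k) + (-1) ^ j / 2, (j' : ℝ) * (4 * k) - (-1) ^ j' / 2, 4 * i], ?_, ?_⟩
    · unfold p7_T0
      rw [p7_mem']
      have := hj j' h'
      rcases p7_sign j' with e | e <;> rw [e] <;>
        refine ⟨⟨by linarith, by linarith⟩, ⟨by linarith, by linarith⟩, by linarith, by linarith⟩
    · unfold p7_T1
      rw [p7_mem']
      have := hj j h
      rcases p7_sign j with e | e <;> rw [e] <;>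
        refine ⟨⟨by linarith, by linarith⟩, ⟨by linarith, by linarith⟩, by linarith, by linarith⟩
  unfold p7_net
  have l1 : Linked (p7_T0 k δ i 0 ∪ ⋃ j ∈ Finset.range 3, p7_T1 k δ i j) :=
    Linked.iUnion _ _ _ (lT0 0) (fun j _ => lT1 j) (fun j h => cross 0 j (by simp) h)
  have l2 : Linked ((p7_T0 k δ i 0 ∪ ⋃ j ∈ Finset.range 3, p7_T1 k δ i j) ∪
      ⋃ j ∈ Finset.range 3, p7_T0 k δ i j) := by
    apply Linked.iUnion _ _ _ l1 (fun j _ => lT0 j)
    intro j h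
    obtain ⟨x, h1, h2⟩ := cross j 0 h (by simp)
    refine ⟨x, Or.inr ?_, h1⟩
    simp only [Set.mem_iUnion]
    exact ⟨0, by simp, h2⟩
  have hq : ∀ q ∈ p7_idx k, q.1 ∈ Finset.range 3 ∧ 0 ≤ (q.2 : ℝ) ∧ (q.2 : ℝ) + 1 ≤ 2 * k := by
    intro q hq
    rw [p7_idx_mem] at hq
    refine ⟨Finset.mem_range.mpr hq.1, by positivity, ?_⟩
    exact_mod_cast hq.2.1
  have l3 : Linked (((p7_T0 k δ i 0 ∪ ⋃ j ∈ Finset.range 3, p7_T1 k δ i j) ∪
      ⋃ j ∈ Finset.range 3, p7_T0 k δ i j) ∪ ⋃ q ∈ p7_idx k, p7_P0 k i q) := by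
    apply Linked.iUnion _ _ _ l2 (fun q _ => lP0 q)
    intro q h
    have h1 := hq q h
    refine ⟨mk3 ![(q.1 : ℝ) * (4 * k) + (-1) ^ q.1 / 2, 4 * q.2 + 2, 4 * i], Or.inr ?_, ?_⟩
    · simp only [Set.mem_iUnion]
      refine ⟨q.1, h1.1, ?_⟩
      unfold p7_T0
      rw [p7_mem']
      refine ⟨⟨by linarith, by linarith⟩, ⟨by linarith, by linarith⟩, by linarith, by linarith⟩
    · unfold p7_P0
      rw [p7_mem']
      rcases p7_sign q.1 with e | e <;> rw [e] <;>
        refine ⟨⟨by linarith, by linarith⟩, ⟨by linarith, by linarith⟩, by linarith, by linarith⟩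
  apply Linked.iUnion _ _ _ l3 (fun q _ => lP1 q)
  intro q h
  have h1 := hq q h
  refine ⟨mk3 ![4 * q.2 + 2, (q.1 : ℝ) * (4 * k) - (-1) ^ q.1 / 2, 4 * i],
    Or.inl (Or.inl (Or.inr ?_)), ?_⟩
  · simp only [Set.mem_iUnion]
    refine ⟨q.1, h1.1, ?_⟩
    unfold p7_T1
    rw [p7_mem']
    refine ⟨⟨by linarith, by linarith⟩, ⟨by linarith, by linarith⟩, by linarith, by linarith⟩
  · unfold p7_P1
    rw [p7_mem']
    rcases p7_sign q.1 with e | e <;> rw [e] <;>
      refine ⟨⟨by linarith, by linarith⟩, ⟨by linarith, by linarith⟩, by linarith, by linarith⟩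

/-- posts and thin bars belong to the core -/
theorem p7_net_core (k : ℕ) (hk : 5 ≤ k) (δ : ℝ) (i : ℤ) (hi : barIdx k i) :
    p7_net k δ i ⊆ CoreS k δ := by
  have hk' : (5 : ℝ) ≤ k := by exact_mod_cast hk
  have hz : ∀ z : ℝ, 4 * i - 3 / 4 < z → z < 4 * i + 3 / 4 → InBar k z := by
    intro z h1 h2
    exact ⟨i, hi, by rw [abs_le]; constructor <;> linarith⟩
  have t0 : ∀ j, p7_T0 k δ i j ⊆ CoreS k δ := by
    intro j x hx
    unfold p7_T0 at hx
    rw [p7_mem] at hx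
    right
    refine ⟨x 0, x 1, 1, Or.inl ⟨rfl, rfl, rfl⟩, Or.inr (Or.inr ⟨⟨j, ?_⟩, hz _ hx.2.2.1 hx.2.2.2⟩)⟩
    rw [zpow_natCast, one_mul, Int.cast_natCast, abs_le]
    constructor <;> linarith [hx.1.1, hx.1.2]
  have t1 : ∀ j, p7_T1 k δ i j ⊆ CoreS k δ := by
    intro j x hx
    unfold p7_T1 at hx
    rw [p7_mem] at hx
    right
    refine ⟨x 1, x 0, -1, Or.inr ⟨rfl, rfl, rfl⟩, Or.inr (Or.inr ⟨⟨j, ?_⟩, hz _ hx.2.2.1 hx.2.2.2⟩)⟩
    rw [zpow_natCast, Int.cast_natCast, abs_le]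
    constructor <;> linarith [hx.2.1.1, hx.2.1.2]
  have hxi : ∀ (y : ℝ) (j : ℕ), (j : ℝ) * (4 * k) - 1 < y → y < (j : ℝ) * (4 * k) + 1 →
      |xi (4 * k) y| ≤ 1 := by
    intro y j h1 h2
    have h3 : |y - 4 * k * ((j : ℤ) : ℝ)| < 1 := by
      rw [Int.cast_natCast, abs_lt]
      constructor <;> linarith
    have h4 : xi (4 * k) y = y - 4 * k * ((j : ℤ) : ℝ) := by
      have : round (y / (4 * k)) = (j : ℤ) := by
        rw [round_eq, Int.floor_eq_iff]
        rw [abs_lt] at h3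
        have h5 : y / (4 * k) * (4 * k) = y := div_mul_cancel₀ y (by positivity)
        constructor
        · by_contra hc
          push Not at hc
          nlinarith
        · by_contra hc
          push Not at hc
          nlinarith
      unfold xi
      rw [this]
    rw [h4]
    exact h3.le
  have p0 : ∀ q ∈ p7_idx k, p7_P0 k i q ⊆ CoreS k δ := by
    intro q hq x hx
    rw [p7_idx_mem] at hq
    unfold p7_P0 at hx
    rw [p7_mem] at hx
    right
    refine ⟨x 0, x 1, 1, Or.inl ⟨rfl, rfl, rfl⟩, Or.inl ⟨hxi _ q.1 hx.1.1 hx.1.2,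
      ⟨q.2, hq.2.2, ?_⟩, hz _ hx.2.2.1 hx.2.2.2⟩⟩
    rw [Int.cast_natCast, abs_le]
    constructor <;> linarith [hx.2.1.1, hx.2.1.2]
  have p1 : ∀ q ∈ p7_idx k, p7_P1 k i q ⊆ CoreS k δ := by
    intro q hq x hx
    rw [p7_idx_mem] at hq
    unfold p7_P1 at hx
    rw [p7_mem] at hx
    right
    refine ⟨x 1, x 0, -1, Or.inr ⟨rfl, rfl, rfl⟩, Or.inl ⟨hxi _ q.1 hx.2.1.1 hx.2.1.2,
      ⟨q.2, hq.2.2, ?_⟩, hz _ hx.2.2.1 hx.2.2.2⟩⟩
    rw [Int.cast_natCast, abs_le]
    constructor <;> linarith [hx.1.1, hx.1.2]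
  unfold p7_net
  intro x hx
  rcases hx with (((hx | hx) | hx) | hx) | hx
  · exact t0 0 hx
  · simp only [Set.mem_iUnion] at hx
    obtain ⟨j, _, hx⟩ := hx
    exact t1 j hx
  · simp only [Set.mem_iUnion] at hx
    obtain ⟨j, _, hx⟩ := hx
    exact t0 j hx
  · simp only [Set.mem_iUnion] at hx
    obtain ⟨q, hq, hx⟩ := hx
    exact p0 q hq hx
  · simp only [Set.mem_iUnion] at hx
    obtain ⟨q, hq, hx⟩ := hx
    exact p1 q hq hx

/-! ### the shell of a block with its columns -/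

/-- slabs of the shell -/
def p7_sl (k : ℕ) (q : Fin 3 × Bool) : Set E3 :=
  p7_box (fun i => if i = q.1 then (if q.2 then 4 * k - 5 else 3) else 3)
    (fun i => if i = q.1 then (if q.2 then 4 * k - 3 else 5) else 4 * k - 3)

/-- columns -/
def p7_C0 (q : (Bool × ℕ × ℕ)) (k : ℕ) : Set E3 :=
  p7_box ![if q.1 then 4 * k - 4 else 2, 4 * q.2.1 + 2 - 3 / 4, 4 * q.2.2 - 3 / 4]
    ![if q.1 then 4 * k - 2 else 4, 4 * q.2.1 + 2 + 3 / 4, 4 * q.2.2 + 3 / 4]

/-- columns -/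
def p7_C1 (q : (Bool × ℕ × ℕ)) (k : ℕ) : Set E3 :=
  p7_box ![4 * q.2.1 + 2 - 3 / 4, if q.1 then 4 * k - 4 else 2, 4 * q.2.2 - 3 / 4]
    ![4 * q.2.1 + 2 + 3 / 4, if q.1 then 4 * k - 2 else 4, 4 * q.2.2 + 3 / 4]

open Classical in
/-- indices of columns -/
noncomputable def p7_cdx (k : ℕ) : Finset (Bool × ℕ × ℕ) :=
  Finset.univ ×ˢ ((Finset.range k).filter fun g : ℕ => gapIdx k (g : ℤ)) ×ˢ
    ((Finset.range k).filter fun g : ℕ => barIdx k (g : ℤ))

theorem p7_cdx_mem (k : ℕ) (q : Bool × ℕ × ℕ) :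
    q ∈ p7_cdx k ↔ (q.2.1 < k ∧ gapIdx k (q.2.1 : ℤ)) ∧ (q.2.2 < k ∧ barIdx k (q.2.2 : ℤ)) := by
  simp [p7_cdx, Finset.mem_product]

/-- shell and columns of the first block -/
noncomputable def p7_shell (k : ℕ) : Set E3 :=
  (((p7_sl k (0, false) ∪ ⋃ b ∈ (Finset.univ : Finset Bool), p7_sl k (1, b)) ∪
    ⋃ q ∈ (Finset.univ : Finset (Fin 3 × Bool)), p7_sl k q) ∪ ⋃ q ∈ p7_cdx k, p7_C0 q k) ∪
    ⋃ q ∈ p7_cdx k, p7_C1 q k

theorem p7_idxb {k : ℕ} {g : ℕ} (hg : g < k) (h : gapIdx k (g : ℤ)) :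
    (1 : ℝ) ≤ g ∧ (g : ℝ) ≤ k - 2 := by
  unfold gapIdx at h
  rw [Int.emod_eq_of_lt (by positivity) (by exact_mod_cast hg)] at h
  constructor
  · exact_mod_cast h.1
  · exact_mod_cast h.2

theorem p7_idxb' {k : ℕ} {g : ℕ} (hg : g < k) (h : barIdx k (g : ℤ)) :
    (2 : ℝ) ≤ g ∧ (g : ℝ) ≤ k - 2 := by
  unfold barIdx at h
  rw [Int.emod_eq_of_lt (by positivity) (by exact_mod_cast hg)] at h
  constructor
  · exact_mod_cast h.1
  · exact_mod_cast h.2

theorem p7_shell_linked (k : ℕ) (hk : 5 ≤ k) : Linked (p7_shell k) := by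
  have hk' : (5 : ℝ) ≤ k := by exact_mod_cast hk
  have ls : ∀ q, Linked (p7_sl k q) := by
    intro q
    apply p7_box_linked
    intro i
    split_ifs <;> linarith
  have l0 : ∀ q, Linked (p7_C0 q k) := by
    intro q
    apply p7_box_linked
    intro m
    fin_cases m
    · change (if q.1 then (4 * k - 4 : ℝ) else 2) < if q.1 then (4 * k - 2 : ℝ) else 4
      split_ifs <;> linarith
    · change (4 * q.2.1 + 2 - 3 / 4 : ℝ) < 4 * q.2.1 + 2 + 3 / 4
      linarith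
    · change (4 * q.2.2 - 3 / 4 : ℝ) < 4 * q.2.2 + 3 / 4
      linarith
  have l1 : ∀ q, Linked (p7_C1 q k) := by
    intro q
    apply p7_box_linked
    intro m
    fin_cases m
    · change (4 * q.2.1 + 2 - 3 / 4 : ℝ) < 4 * q.2.1 + 2 + 3 / 4
      linarith
    · change (if q.1 then (4 * k - 4 : ℝ) else 2) < if q.1 then (4 * k - 2 : ℝ) else 4
      split_ifs <;> linarith
    · change (4 * q.2.2 - 3 / 4 : ℝ) < 4 * q.2.2 + 3 / 4
      linarith
  -- two slabs in different directions meet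
  have cross : ∀ q q' : Fin 3 × Bool, q.1 ≠ q'.1 → (p7_sl k q ∩ p7_sl k q').Nonempty := by
    intro q q' h
    refine ⟨mk3 fun i => if i = q.1 then (if q.2 then 4 * k - 4 else 4) else
      (if i = q'.1 then (if q'.2 then 4 * k - 4 else 4) else 4), ?_, ?_⟩
    · intro i
      change _ < (if i = q.1 then (if q.2 then (4 * k - 4 : ℝ) else 4) else
        (if i = q'.1 then (if q'.2 then 4 * k - 4 else 4) else 4)) ∧
        (if i = q.1 then (if q.2 then (4 * k - 4 : ℝ) else 4) else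
        (if i = q'.1 then (if q'.2 then 4 * k - 4 else 4) else 4)) < _
      dsimp only
      split_ifs <;> constructor <;> linarith
    · intro i
      change _ < (if i = q.1 then (if q.2 then (4 * k - 4 : ℝ) else 4) else
        (if i = q'.1 then (if q'.2 then 4 * k - 4 else 4) else 4)) ∧
        (if i = q.1 then (if q.2 then (4 * k - 4 : ℝ) else 4) else
        (if i = q'.1 then (if q'.2 then 4 * k - 4 else 4) else 4)) < _
      dsimp only
      by_cases h1 : i = q.1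
      · have h2 : ¬ i = q'.1 := fun e => h (h1.symm.trans e)
        rw [if_pos h1, if_neg h2, if_neg h2]
        split_ifs <;> constructor <;> linarith
      · rw [if_neg h1]
        split_ifs <;> constructor <;> linarith
  unfold p7_shell
  have a1 : Linked (p7_sl k (0, false) ∪ ⋃ b ∈ (Finset.univ : Finset Bool), p7_sl k (1, b)) :=
    Linked.iUnion _ _ _ (ls _) (fun b _ => ls _) (fun b _ => cross _ _ (by simp))
  have a2 : Linked ((p7_sl k (0, false) ∪ ⋃ b ∈ (Finset.univ : Finset Bool), p7_sl k (1, b)) ∪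
      ⋃ q ∈ (Finset.univ : Finset (Fin 3 × Bool)), p7_sl k q) := by
    apply Linked.iUnion _ _ _ a1 (fun q _ => ls _)
    intro q _
    by_cases h : q.1 = 0
    · obtain ⟨x, h1, h2⟩ := cross (1, false) q (by simp [h])
      refine ⟨x, Or.inr ?_, h2⟩
      simp only [Set.mem_iUnion]
      exact ⟨false, by simp, h1⟩
    · obtain ⟨x, h1, h2⟩ := cross (0, false) q (fun e => h e.symm)
      exact ⟨x, Or.inl h1, h2⟩
  have a3 : Linked (((p7_sl k (0, false) ∪ ⋃ b ∈ (Finset.univ : Finset Bool), p7_sl k (1, b)) ∪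
      ⋃ q ∈ (Finset.univ : Finset (Fin 3 × Bool)), p7_sl k q) ∪ ⋃ q ∈ p7_cdx k, p7_C0 q k) := by
    apply Linked.iUnion _ _ _ a2 (fun q _ => l0 q)
    intro q hq
    rw [p7_cdx_mem] at hq
    have hg := p7_idxb hq.1.1 hq.1.2
    have hb := p7_idxb' hq.2.1 hq.2.2
    refine ⟨mk3 ![if q.1 then 4 * k - 7 / 2 else 7 / 2, 4 * q.2.1 + 2, 4 * q.2.2], Or.inr ?_, ?_⟩
    · simp only [Set.mem_iUnion]
      refine ⟨(0, q.1), by simp, ?_⟩
      unfold p7_sl
      rw [p7_box3]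
      refine ⟨?_, ?_, ?_⟩
      · change (if q.1 then (4 * k - 5 : ℝ) else 3) < (if q.1 then (4 * k - 7 / 2 : ℝ) else 7 / 2) ∧
          (if q.1 then (4 * k - 7 / 2 : ℝ) else 7 / 2) < (if q.1 then (4 * k - 3 : ℝ) else 5)
        split_ifs <;> constructor <;> linarith
      · change (3 : ℝ) < 4 * q.2.1 + 2 ∧ (4 * q.2.1 + 2 : ℝ) < 4 * k - 3
        constructor <;> linarith
      · change (3 : ℝ) < 4 * q.2.2 ∧ (4 * q.2.2 : ℝ) < 4 * k - 3
        constructor <;> linarith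
    · unfold p7_C0
      rw [p7_mem']
      refine ⟨?_, ⟨by linarith, by linarith⟩, by linarith, by linarith⟩
      split_ifs <;> constructor <;> linarith
  apply Linked.iUnion _ _ _ a3 (fun q _ => l1 q)
  intro q hq
  rw [p7_cdx_mem] at hq
  have hg := p7_idxb hq.1.1 hq.1.2
  have hb := p7_idxb' hq.2.1 hq.2.2
  refine ⟨mk3 ![4 * q.2.1 + 2, if q.1 then 4 * k - 7 / 2 else 7 / 2, 4 * q.2.2],
    Or.inl (Or.inr ?_), ?_⟩
  · simp only [Set.mem_iUnion]
    refine ⟨(1, q.1), by simp, ?_⟩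
    unfold p7_sl
    rw [p7_box3]
    refine ⟨?_, ?_, ?_⟩
    · change (3 : ℝ) < 4 * q.2.1 + 2 ∧ (4 * q.2.1 + 2 : ℝ) < 4 * k - 3
      constructor <;> linarith
    · change (if q.1 then (4 * k - 5 : ℝ) else 3) < (if q.1 then (4 * k - 7 / 2 : ℝ) else 7 / 2) ∧
        (if q.1 then (4 * k - 7 / 2 : ℝ) else 7 / 2) < (if q.1 then (4 * k - 3 : ℝ) else 5)
      split_ifs <;> constructor <;> linarith
    · change (3 : ℝ) < 4 * q.2.2 ∧ (4 * q.2.2 : ℝ) < 4 * k - 3
      constructor <;> linarith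
  · unfold p7_C1
    rw [p7_mem']
    refine ⟨⟨by linarith, by linarith⟩, ?_, by linarith, by linarith⟩
    split_ifs <;> constructor <;> linarith

theorem p7_dist_ge {k : ℕ} (hk : 5 ≤ k) (y : ℝ) (n : ℤ) (h1 : 3 ≤ y - 4 * k * n)
    (h2 : y - 4 * k * n ≤ 4 * k - 3) : 3 ≤ |xi (4 * k) y| := by
  have hk' : (5 : ℝ) ≤ k := by exact_mod_cast hk
  unfold xi
  set m := round (y / (4 * k))
  rcases le_or_gt m n with h | h
  · have h3 : (m : ℝ) ≤ n := by exact_mod_cast h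
    have h4 : (4 * k : ℝ) * m ≤ 4 * k * n := by gcongr
    rw [abs_of_nonneg (by linarith)]
    linarith
  · have h3 : (n : ℝ) + 1 ≤ m := by exact_mod_cast h
    have h4 : (4 * k : ℝ) * (n + 1) ≤ 4 * k * m := by gcongr
    rw [abs_of_nonpos (by linarith)]
    linarith

theorem p7_near {k : ℕ} (hk : 5 ≤ k) (y : ℝ) (n : ℤ) (h : |y - 4 * k * n| < 10) :
    xi (4 * k) y = y - 4 * k * n := by
  have hk' : (5 : ℝ) ≤ k := by exact_mod_cast hk
  have : round (y / (4 * k)) = n := by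
    rw [round_eq, Int.floor_eq_iff]
    rw [abs_lt] at h
    have h5 : y / (4 * k) * (4 * k) = y := div_mul_cancel₀ y (by positivity)
    constructor
    · by_contra hc
      push Not at hc
      nlinarith
    · by_contra hc
      push Not at hc
      nlinarith
  unfold xi
  rw [this]

theorem p7_gap_shift {k : ℕ} {y : ℝ} {g n : ℤ} (hg : gapIdx k g)
    (h : |y - 4 * k * n - (4 * g + 2)| ≤ 3 / 4) : InGap k y := by
  refine ⟨g + k * n, ?_, ?_⟩
  · unfold gapIdx at *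
    rwa [Int.add_mul_emod_self_left]
  · push_cast
    rw [show y - (4 * ((g : ℝ) + k * n) + 2) = y - 4 * k * n - (4 * g + 2) by ring]
    exact h

theorem p7_bar_shift {k : ℕ} {y : ℝ} {g n : ℤ} (hg : barIdx k g)
    (h : |y - 4 * k * n - 4 * g| ≤ 3 / 4) : InBar k y := by
  refine ⟨g + k * n, ?_, ?_⟩
  · unfold barIdx at *
    rwa [Int.add_mul_emod_self_left]
  · push_cast
    rw [show y - 4 * ((g : ℝ) + k * n) = y - 4 * k * n - 4 * g by ring]
    exact h

/-- translates of the shell belong to the core -/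
theorem p7_shell_core (k : ℕ) (hk : 5 ≤ k) (δ : ℝ) (n : Fin 3 → ℤ) (x : E3)
    (hx : x ∈ p7_shell k) : x + mk3 (fun i => 4 * k * (n i : ℝ)) ∈ CoreS k δ := by
  have hk' : (5 : ℝ) ≤ k := by exact_mod_cast hk
  set X : E3 := x + mk3 (fun i => 4 * k * (n i : ℝ)) with hX
  have e : ∀ i, X i - 4 * k * (n i : ℝ) = x i := by
    intro i
    rw [hX]
    change x i + 4 * k * (n i : ℝ) - 4 * k * (n i : ℝ) = x i
    ring
  have sl : ∀ q, x ∈ p7_sl k q → X ∈ CoreS k δ := by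
    intro q hq
    left
    refine ⟨fun i => ?_, q.1, ?_⟩
    · have := hq i
      dsimp only at this
      apply p7_dist_ge hk _ (n i)
      · rw [e]
        split_ifs at this <;> linarith
      · rw [e]
        split_ifs at this <;> linarith
    · have := hq q.1
      simp only [if_true] at this
      by_cases hb : q.2
      · simp only [hb, if_true] at this
        rw [p7_near hk _ (n q.1 + 1)]
        · push_cast
          rw [show X q.1 - 4 * k * ((n q.1 : ℝ) + 1) = X q.1 - 4 * k * (n q.1 : ℝ) - 4 * k by ring, e,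
            abs_le]
          constructor <;> linarith
        · push_cast
          rw [show X q.1 - 4 * k * ((n q.1 : ℝ) + 1) = X q.1 - 4 * k * (n q.1 : ℝ) - 4 * k by ring, e,
            abs_lt]
          constructor <;> linarith
      · simp only [hb, if_false, Bool.false_eq_true] at this
        rw [p7_near hk _ (n q.1)]
        · rw [e, abs_le]
          constructor <;> linarith
        · rw [e, abs_lt]
          constructor <;> linarith
  -- a column normal to the direction `m`, with lateral direction `l`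
  have col : ∀ (m l : Fin 3) (s : ℝ) (b : Bool) (g i : ℕ), (m ≠ 2 ∧ l ≠ 2 ∧ m ≠ l) →
      (s = 1 ∧ X m = X 0 ∧ X l = X 1 ∨ s = -1 ∧ X m = X 1 ∧ X l = X 0) →
      (g < k ∧ gapIdx k (g : ℤ)) → (i < k ∧ barIdx k (i : ℤ)) →
      ((if b then (4 * k - 4 : ℝ) else 2) < x m ∧ x m < if b then (4 * k - 2 : ℝ) else 4) →
      (4 * g + 2 - 3 / 4 < x l ∧ x l < 4 * g + 2 + 3 / 4) →
      (4 * i - 3 / 4 < x 2 ∧ x 2 < 4 * i + 3 / 4) → X ∈ CoreS k δ := by
    intro m l s b g i hml hs hg hi hm hl h2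
    have hgb := p7_idxb hg.1 hg.2
    have hib := p7_idxb' hi.1 hi.2
    have gl : InGap k (X l) := p7_gap_shift (n := n l) hg.2 (by
      rw [e, Int.cast_natCast, abs_le]; constructor <;> linarith [hl.1, hl.2])
    have bz : InBar k (X 2) := p7_bar_shift (n := n 2) hi.2 (by
      rw [e, Int.cast_natCast, abs_le]; constructor <;> linarith [h2.1, h2.2])
    obtain ⟨j, hj1, hj2⟩ : ∃ j : ℤ, 2 ≤ |X m - 4 * k * j| ∧ |X m - 4 * k * j| < 4 := by
      cases b
      · simp only [Bool.false_eq_true, if_false] at hm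
        refine ⟨n m, ?_, ?_⟩
        · rw [e, le_abs]
          left
          linarith [hm.1]
        · rw [e, abs_lt]
          constructor <;> linarith [hm.1, hm.2]
      · simp only [if_true] at hm
        refine ⟨n m + 1, ?_, ?_⟩
        · push_cast
          rw [show X m - 4 * k * ((n m : ℝ) + 1) = X m - 4 * k * (n m : ℝ) - 4 * k by ring, e,
            le_abs]
          right
          linarith [hm.2]
        · push_cast
          rw [show X m - 4 * k * ((n m : ℝ) + 1) = X m - 4 * k * (n m : ℝ) - 4 * k by ring, e,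
            abs_lt]
          constructor <;> linarith [hm.1, hm.2]
    have hxm := p7_near hk (X m) j (by linarith)
    by_cases h3 : |X m - 4 * k * j| ≤ 3
    · right
      refine ⟨X m, X l, s, hs, Or.inr (Or.inl ⟨by rw [hxm]; exact hj1, by rw [hxm]; exact h3, gl, bz⟩)⟩
    · push Not at h3
      left
      refine ⟨fun r => ?_, m, by rw [hxm]; linarith⟩
      have hr : r = m ∨ r = l ∨ r = 2 := by
        have := hml.1
        have := hml.2.1
        have := hml.2.2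
        omega
      rcases hr with rfl | rfl | rfl
      · rw [hxm]
        linarith
      · apply p7_dist_ge hk _ (n r)
        · rw [e]
          linarith [hl.1]
        · rw [e]
          linarith [hl.2]
      · apply p7_dist_ge hk _ (n 2)
        · rw [e]
          linarith [h2.1]
        · rw [e]
          linarith [h2.2]
  rcases hx with (((hx | hx) | hx) | hx) | hx
  · exact sl _ hx
  · simp only [Set.mem_iUnion] at hx
    obtain ⟨b, _, hx⟩ := hx
    exact sl _ hx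
  · simp only [Set.mem_iUnion] at hx
    obtain ⟨q, _, hx⟩ := hx
    exact sl _ hx
  · simp only [Set.mem_iUnion] at hx
    obtain ⟨q, hq, hx⟩ := hx
    rw [p7_cdx_mem] at hq
    unfold p7_C0 at hx
    rw [p7_mem] at hx
    exact col 0 1 1 q.1 q.2.1 q.2.2 (by decide) (Or.inl ⟨rfl, rfl, rfl⟩) hq.1 hq.2 hx.1 hx.2.1
      hx.2.2
  · simp only [Set.mem_iUnion] at hx
    obtain ⟨q, hq, hx⟩ := hx
    rw [p7_cdx_mem] at hq
    unfold p7_C1 at hx
    rw [p7_mem] at hx
    exact col 1 0 (-1) q.1 q.2.1 q.2.2 (by decide) (Or.inr ⟨rfl, rfl, rfl⟩) hq.1 hq.2 hx.2.1 hx.1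
      hx.2.2


/-! ### the pieces of the force -/

theorem p7_xi_add {L : ℝ} (hL : 0 < L) (n : ℤ) (y : ℝ) : xi L (y + L * n) = xi L y := by
  unfold xi
  have h : (y + L * n) / L = y / L + n := by
    field_simp
  rw [h, round_add_intCast]
  push_cast
  ring

theorem p7_xi_le {L : ℝ} (hL : 0 < L) (x : ℝ) (m : ℤ) : |xi L x| ≤ |x - L * m| := by
  have h := round_le (x / L) m
  have h1 : xi L x = L * (x / L - round (x / L)) := by
    unfold xi
    field_simp
  have h2 : x - L * m = L * (x / L - m) := by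
    field_simp
  rw [h1, h2, abs_mul, abs_mul]
  gcongr

theorem p7_xi_refl {L : ℝ} (hL : 0 < L) (n : ℤ) (x : ℝ) : |xi L (L * n - x)| = |xi L x| := by
  apply le_antisymm
  · have h := p7_xi_le hL (L * n - x) (n - round (x / L))
    have e : L * n - x - L * ((n - round (x / L) : ℤ) : ℝ) = -(xi L x) := by
      unfold xi
      push_cast
      ring
    rwa [e, abs_neg] at h
  · have h := p7_xi_le hL x (n - round ((L * n - x) / L))
    have e : x - L * ((n - round ((L * n - x) / L) : ℤ) : ℝ) = -(xi L (L * n - x)) := by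
      unfold xi
      push_cast
      ring
    rwa [e, abs_neg] at h

open Classical in
/-- the force of a wall restricted to a region -/
noncomputable def p7_u (k : ℕ) (γ c : ℝ) (D Z : Set ℝ) (x z : ℝ) : ℝ :=
  if (0 < x ∧ x < c) ∧ |xi (4 * k) x| ∈ D ∧ z ∈ Z then ff k γ x z else 0

/-- weighted version -/
noncomputable def p7_u1 (k : ℕ) (γ c : ℝ) (D Z : Set ℝ) (x z : ℝ) : ℝ :=
  xi (4 * k) x * p7_u k γ c D Z x z

open Classical in
/-- restriction of a function to an interval -/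
noncomputable def p7_w (c : ℝ) (w : ℝ → ℝ) (y : ℝ) : ℝ := if 0 < y ∧ y < c then w y else 0

/-- the force of a region -/
noncomputable def p7_FD (k : ℕ) (γ c : ℝ) (D Z : Set ℝ) (β τ : ℝ) : E3 → ℝ :=
  p7_F (p7_u k γ c D Z) (p7_u1 k γ c D Z) (p7_w c (pg k)) (p7_w c (deriv (pg k))) β τ

open Classical in
/-- the force of a kind of wall regions -/
noncomputable def p7_v (k : ℕ) (γ : ℝ) (D : Set ℝ) (x z : ℝ) : ℝ :=
  if |xi (4 * k) x| ∈ D then ff k γ x z else 0

/-- the periodic force of a kind of region -/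
noncomputable def p7_fD (k : ℕ) (γ : ℝ) (D : Set ℝ) (β τ : ℝ) : E3 → ℝ :=
  p7_F (p7_v k γ D) (fun x z => xi (4 * k) x * p7_v k γ D x z) (pg k) (deriv (pg k)) β τ

theorem p7_ff_meas {k : ℕ} (hk : 5 ≤ k) (γ : ℝ) : Measurable fun q : ℝ × ℝ => ff k γ q.1 q.2 := by
  have h : (fun q : ℝ × ℝ => ff k γ q.1 q.2) =
      fun q : ℝ × ℝ => p7_h2 (xi (4 * k) q.1) * p7_bf k γ (hh k q.1) q.2 := by
    funext q
    exact p7_ff hk γ q.1 q.2
  rw [h]
  apply Measurable.mul
  · exact p7_h2_cont.measurable.comp ((p7_xi_meas _).comp measurable_fst)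
  · exact (p7_bf_meas k γ).comp (((p7_hh_meas k).comp measurable_fst).prodMk measurable_snd)

theorem p7_u_meas {k : ℕ} (hk : 5 ≤ k) (γ c : ℝ) (D Z : Set ℝ) (hD : MeasurableSet D)
    (hZ : MeasurableSet Z) : Measurable fun q : ℝ × ℝ => p7_u k γ c D Z q.1 q.2 := by
  classical
  unfold p7_u
  apply Measurable.ite _ (p7_ff_meas hk γ) measurable_const
  have h1 : MeasurableSet {q : ℝ × ℝ | 0 < q.1 ∧ q.1 < c} :=
    (measurableSet_Ioo (a := (0 : ℝ)) (b := c)).preimage measurable_fst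
  have h2 : MeasurableSet {q : ℝ × ℝ | |xi (4 * k) q.1| ∈ D} :=
    hD.preimage (((p7_xi_meas (4 * k)).comp measurable_fst).abs)
  have h3 : MeasurableSet {q : ℝ × ℝ | q.2 ∈ Z} := hZ.preimage measurable_snd
  exact h1.inter (h2.inter h3)

theorem p7_u1_meas {k : ℕ} (hk : 5 ≤ k) (γ c : ℝ) (D Z : Set ℝ) (hD : MeasurableSet D)
    (hZ : MeasurableSet Z) : Measurable fun q : ℝ × ℝ => p7_u1 k γ c D Z q.1 q.2 :=
  ((p7_xi_meas (4 * k)).comp measurable_fst).mul (p7_u_meas hk γ c D Z hD hZ)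

theorem p7_w_meas (c : ℝ) (w : ℝ → ℝ) (hw : Measurable w) : Measurable (p7_w c w) := by
  classical
  unfold p7_w
  exact Measurable.ite (measurableSet_Ioo (a := (0 : ℝ)) (b := c)) hw measurable_const

theorem p7_dpg_meas (k : ℕ) : Measurable (deriv (pg k)) := measurable_deriv _

/-- uniform bounds -/
theorem p7_bounds : ∃ A : ℝ, 0 < A ∧ ∀ (k : ℕ), 5 ≤ k → ∀ (γ x z : ℝ), |ff k γ x z| ≤ A ∧
    |xi (4 * k) x * ff k γ x z| ≤ A ∧ |pg k x| ≤ A ∧ |deriv (pg k) x| ≤ A := by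
  obtain ⟨C, hC, hC'⟩ := p7_h2_bd
  obtain ⟨B, hB, hB'⟩ := p7_b0_bd
  refine ⟨3 * C * (10 * B) + 8 * B, by positivity, fun k hk γ x z => ?_⟩
  have h1 := hC' (xi (4 * k) x)
  have h2 := p7_bf_bd B hB' k γ (hh k x) z
  have h3 := p7_pg_bd B hB' k x
  have h4 : |ff k γ x z| ≤ C * (10 * B) := by
    rw [p7_ff hk, abs_mul]
    gcongr
  have h5 : |xi (4 * k) x * ff k γ x z| ≤ 3 * (C * (10 * B)) := by
    by_cases h : |xi (4 * k) x| ≤ 3
    · rw [abs_mul]
      gcongr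
    · push Not at h
      rw [p7_ff hk, p7_h2_out (by linarith)]
      simp only [zero_mul, mul_zero, abs_zero]
      positivity
  have h6 : 0 ≤ C * (10 * B) := by positivity
  refine ⟨?_, ?_, ?_, ?_⟩ <;> nlinarith [h3.1, h3.2]

theorem p7_u_bd {k : ℕ} (A : ℝ) (hA : 0 < A) (h : ∀ γ x z : ℝ, |ff k γ x z| ≤ A ∧
    |xi (4 * k) x * ff k γ x z| ≤ A ∧ |pg k x| ≤ A ∧ |deriv (pg k) x| ≤ A) (γ c : ℝ)
    (D Z : Set ℝ) (x z : ℝ) : |p7_u k γ c D Z x z| ≤ A ∧ |p7_u1 k γ c D Z x z| ≤ A ∧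
    |p7_w c (pg k) x| ≤ A ∧ |p7_w c (deriv (pg k)) x| ≤ A := by
  have h1 := h γ x z
  unfold p7_u1 p7_u p7_w
  refine ⟨?_, ?_, ?_, ?_⟩
  · split_ifs
    · exact h1.1
    · rw [abs_zero]; exact hA.le
  · split_ifs
    · exact h1.2.1
    · rw [mul_zero, abs_zero]; exact hA.le
  · split_ifs
    · exact h1.2.2.1
    · rw [abs_zero]; exact hA.le
  · split_ifs
    · exact h1.2.2.2
    · rw [abs_zero]; exact hA.le

theorem p7_F_bd (A : ℝ) (u u1 : ℝ → ℝ → ℝ) (w w1 : ℝ → ℝ) (bu : ∀ x z, |u x z| ≤ A)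
    (bu1 : ∀ x z, |u1 x z| ≤ A) (bw : ∀ x, |w x| ≤ A) (bw1 : ∀ x, |w1 x| ≤ A) (β τ : ℝ) (x : E3) :
    |p7_F u u1 w w1 β τ x| ≤ 2 * A ^ 2 * (|β| + |τ|) := by
  have hA : 0 ≤ A := le_trans (abs_nonneg _) (bw 0)
  unfold p7_F
  have e1 : |u (x 0) (x 2) * (-β * w (x 1))| ≤ A * (|β| * A) := by
    rw [abs_mul, abs_mul, abs_neg]
    have := bu (x 0) (x 2)
    have := bw (x 1)
    gcongr
  have e2 : |τ * (u1 (x 0) (x 2) * w1 (x 1))| ≤ |τ| * (A * A) := by
    rw [abs_mul, abs_mul]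
    have := bu1 (x 0) (x 2)
    have := bw1 (x 1)
    gcongr
  have e3 : |u (x 1) (x 2) * (β * w (x 0))| ≤ A * (|β| * A) := by
    rw [abs_mul, abs_mul]
    have := bu (x 1) (x 2)
    have := bw (x 0)
    gcongr
  have e4 : |τ * (u1 (x 1) (x 2) * w1 (x 0))| ≤ |τ| * (A * A) := by
    rw [abs_mul, abs_mul]
    have := bu1 (x 1) (x 2)
    have := bw1 (x 0)
    gcongr
  rw [abs_le] at *
  constructor <;> nlinarith [e1.1, e1.2, e2.1, e2.2, e3.1, e3.2, e4.1, e4.2]

theorem p7_F_meas (u u1 : ℝ → ℝ → ℝ) (w w1 : ℝ → ℝ) (hu : Measurable fun q : ℝ × ℝ => u q.1 q.2)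
    (hu1 : Measurable fun q : ℝ × ℝ => u1 q.1 q.2) (hw : Measurable w) (hw1 : Measurable w1)
    (β τ : ℝ) : Measurable (p7_F u u1 w w1 β τ) := by
  have U01 := p7_meas1 u w hu hw 0 2 1
  have U10 := p7_meas1 u w hu hw 1 2 0
  have V01 := p7_meas1 u1 w1 hu1 hw1 0 2 1
  have V10 := p7_meas1 u1 w1 hu1 hw1 1 2 0
  have e0 : p7_F u u1 w w1 β τ = fun x : E3 => (-β) * (u (x 0) (x 2) * w (x 1)) +
      (-τ) * (u1 (x 0) (x 2) * w1 (x 1)) + (β * (u (x 1) (x 2) * w (x 0)) +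
      (-τ) * (u1 (x 1) (x 2) * w1 (x 0))) := by
    funext x
    unfold p7_F
    ring
  rw [e0]
  exact ((U01.const_mul _).add (V01.const_mul _)).add ((U10.const_mul _).add (V10.const_mul _))

/-- all the properties of the force of a region -/
theorem p7_FD_props {k : ℕ} (hk : 5 ≤ k) (A : ℝ) (hA : 0 < A) (h : ∀ γ x z : ℝ, |ff k γ x z| ≤ A ∧
    |xi (4 * k) x * ff k γ x z| ≤ A ∧ |pg k x| ≤ A ∧ |deriv (pg k) x| ≤ A) (γ : ℝ) (n : ℤ)
    (hn : 0 ≤ n) (D Z : Set ℝ) (hD : MeasurableSet D) (hZ : MeasurableSet Z)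
    (hZ' : ∀ z ∈ Z, |z| ≤ 4 * k * n) (β τ : ℝ) :
    Measurable (p7_FD k γ (4 * k * n) D Z β τ) ∧
    (∀ x, |p7_FD k γ (4 * k * n) D Z β τ x| ≤ 2 * A ^ 2 * (|β| + |τ|)) ∧
    Integrable (p7_FD k γ (4 * k * n) D Z β τ) volume ∧
    (∫ x : E3, p7_FD k γ (4 * k * n) D Z β τ x = 0) ∧
    (∫ x : E3, p7_FD k γ (4 * k * n) D Z β τ x * x 0 = 0) ∧
    (∫ x : E3, p7_FD k γ (4 * k * n) D Z β τ x * x 1 = 0) := by
  have hk' : (20 : ℝ) ≤ 4 * k := p7_L hk
  have hn' : (0 : ℝ) ≤ n := by exact_mod_cast hn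
  set c : ℝ := 4 * k * n with hc
  have hc0 : 0 ≤ c := by positivity
  have mu := p7_u_meas hk γ c D Z hD hZ
  have mu1 := p7_u1_meas hk γ c D Z hD hZ
  have mw := p7_w_meas c (pg k) (p7_pg_meas k)
  have mw1 := p7_w_meas c (deriv (pg k)) (p7_dpg_meas k)
  have bd := fun x z => p7_u_bd A hA h γ c D Z x z
  have su : ∀ x z, (c < |x| ∨ c < |z|) → p7_u k γ c D Z x z = 0 := by
    intro x z hxz
    unfold p7_u
    apply if_neg
    rintro ⟨⟨h1, h2⟩, h3, h4⟩
    rcases hxz with hx | hz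
    · rw [abs_of_pos h1] at hx
      linarith
    · exact absurd (hZ' z h4) (not_le.mpr hz)
  have sw : ∀ w : ℝ → ℝ, ∀ x, c < |x| → p7_w c w x = 0 := by
    intro w x hx
    unfold p7_w
    apply if_neg
    rintro ⟨h1, h2⟩
    rw [abs_of_pos h1] at hx
    linarith
  have rff : ∀ x z, ff k γ (c - x) z = ff k γ x z := by
    intro x z
    rw [p7_ff hk, p7_ff hk, hc, p7_h2_refl hk, p7_hh_refl hk]
  have rxff : ∀ x z, xi (4 * k) (c - x) * ff k γ (c - x) z = -(xi (4 * k) x * ff k γ x z) := by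
    intro x z
    rw [p7_ff hk, p7_ff hk, ← mul_assoc, hc, p7_xh2_refl hk, p7_hh_refl hk]
    ring
  have rcond : ∀ x z, ((0 < c - x ∧ c - x < c) ∧ |xi (4 * k) (c - x)| ∈ D ∧ z ∈ Z) ↔
      ((0 < x ∧ x < c) ∧ |xi (4 * k) x| ∈ D ∧ z ∈ Z) := by
    intro x z
    rw [hc, p7_xi_refl (by linarith)]
    constructor
    · rintro ⟨⟨h1, h2⟩, h3⟩
      exact ⟨⟨by linarith, by linarith⟩, h3⟩
    · rintro ⟨⟨h1, h2⟩, h3⟩
      exact ⟨⟨by linarith, by linarith⟩, h3⟩
  have ru : ∀ x z, p7_u k γ c D Z (c - x) z = p7_u k γ c D Z x z := by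
    intro x z
    unfold p7_u
    by_cases hh : (0 < x ∧ x < c) ∧ |xi (4 * k) x| ∈ D ∧ z ∈ Z
    · rw [if_pos ((rcond x z).mpr hh), if_pos hh, rff]
    · rw [if_neg (fun e => hh ((rcond x z).mp e)), if_neg hh]
  have ru1 : ∀ x z, p7_u1 k γ c D Z (c - x) z = -p7_u1 k γ c D Z x z := by
    intro x z
    unfold p7_u1 p7_u
    by_cases hh : (0 < x ∧ x < c) ∧ |xi (4 * k) x| ∈ D ∧ z ∈ Z
    · rw [if_pos ((rcond x z).mpr hh), if_pos hh, rxff]
    · rw [if_neg (fun e => hh ((rcond x z).mp e)), if_neg hh]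
      ring
  have rw0 : ∀ x, p7_w c (pg k) (c - x) = p7_w c (pg k) x := by
    intro x
    unfold p7_w
    by_cases hh : 0 < x ∧ x < c
    · rw [if_pos ⟨by linarith [hh.2], by linarith [hh.1]⟩, if_pos hh, hc, p7_pg_refl hk]
    · rw [if_neg (fun e => hh ⟨by linarith [e.2], by linarith [e.1]⟩), if_neg hh]
  have rw1 : ∀ x, p7_w c (deriv (pg k)) (c - x) = -p7_w c (deriv (pg k)) x := by
    intro x
    unfold p7_w
    by_cases hh : 0 < x ∧ x < c
    · rw [if_pos ⟨by linarith [hh.2], by linarith [hh.1]⟩, if_pos hh, hc, p7_dpg_refl hk]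
    · rw [if_neg (fun e => hh ⟨by linarith [e.2], by linarith [e.1]⟩), if_neg hh, neg_zero]
  have M := p7_moment (p7_u k γ c D Z) (p7_u1 k γ c D Z) (p7_w c (pg k)) (p7_w c (deriv (pg k))) c
    mu mu1 mw mw1 A A (fun x z => (bd x z).1) (fun x z => (bd x z).2.1)
    (fun x => (bd x 0).2.2.1) (fun x => (bd x 0).2.2.2) su
    (fun x z hxz => by unfold p7_u1; rw [su x z hxz, mul_zero]) (sw _) (sw _) ru ru1 rw0 rw1 β τ
  refine ⟨p7_F_meas _ _ _ _ mu mu1 mw mw1 β τ, fun x => ?_, M.1, M.2.1, M.2.2.1, M.2.2.2⟩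
  exact p7_F_bd A _ _ _ _ (fun x z => (bd x z).1) (fun x z => (bd x z).2.1)
    (fun x => (bd x 0).2.2.1) (fun x => (bd x 0).2.2.2) β τ x



/-! ### pointwise decomposition -/

theorem p7_fz_split (k : ℕ) (γ β τ : ℝ) (x : E3) (hfz : E3 → ℝ)
    (hdef : hfz = fun x => ff k γ (x 0) (x 2) * (-β * pg k (x 1) - τ * xi (4 * k) (x 0) * deriv (pg k) (x 1))
      + ff k γ (x 1) (x 2) * (β * pg k (x 0) - τ * xi (4 * k) (x 1) * deriv (pg k) (x 0))) :
    hfz x = p7_fD k γ (Set.Iio (3 / 2)) β τ x + p7_fD k γ (Set.Ici (3 / 2)) β τ x := by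
  rw [hdef]
  unfold p7_fD p7_F
  have key : ∀ a z : ℝ, ff k γ a z = p7_v k γ (Set.Iio (3 / 2)) a z +
      p7_v k γ (Set.Ici (3 / 2)) a z := by
    intro a z
    unfold p7_v
    by_cases h : |xi (4 * k) a| < 3 / 2
    · rw [if_pos (Set.mem_Iio.mpr h), if_neg (by rw [Set.mem_Ici]; exact not_le.mpr h), add_zero]
    · rw [if_neg (by rw [Set.mem_Iio]; exact h), if_pos (Set.mem_Ici.mpr (not_lt.mp h)), zero_add]
  dsimp only
  rw [key (x 0) (x 2), key (x 1) (x 2)]
  ring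

/-- inside of the region -/
theorem p7_FD_in (k : ℕ) (γ c : ℝ) (D Z : Set ℝ) (β τ : ℝ) (x : E3) (h0 : 0 < x 0 ∧ x 0 < c)
    (h1 : 0 < x 1 ∧ x 1 < c) (hz : x 2 ∈ Z) :
    p7_FD k γ c D Z β τ x = p7_fD k γ D β τ x := by
  have key : ∀ a z : ℝ, (0 < a ∧ a < c) → z ∈ Z → p7_u k γ c D Z a z = p7_v k γ D a z := by
    intro a z ha hz
    unfold p7_u p7_v
    by_cases h : |xi (4 * k) a| ∈ D
    · rw [if_pos h, if_pos ⟨ha, h, hz⟩]
    · rw [if_neg h, if_neg (fun e => h e.2.1)]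
  unfold p7_FD p7_fD p7_F p7_u1 p7_w
  rw [key _ _ h0 hz, key _ _ h1 hz, if_pos h0, if_pos h1, if_pos h0, if_pos h1]

/-- outside of the region -/
theorem p7_FD_out (k : ℕ) (γ c : ℝ) (D Z : Set ℝ) (β τ : ℝ) (x : E3)
    (h : ¬ ((0 < x 0 ∧ x 0 < c) ∧ (0 < x 1 ∧ x 1 < c) ∧ x 2 ∈ Z)) :
    p7_FD k γ c D Z β τ x = 0 := by
  unfold p7_FD p7_F p7_u1 p7_u p7_w
  by_cases h0 : 0 < x 0 ∧ x 0 < c
  · by_cases h1 : 0 < x 1 ∧ x 1 < c
    · have hz : x 2 ∉ Z := fun e => h ⟨h0, h1, e⟩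
      simp only [hz, and_false, if_false]
      ring
    · simp only [h1, false_and, if_false]
      ring
  · simp only [h0, false_and, if_false]
    ring

/-- where the periodic force does not vanish -/
theorem p7_fD_ne {k : ℕ} (hk : 5 ≤ k) {γ : ℝ} (hγ : 0 ≤ γ) (hγ' : γ ≤ 1 / 8) (D : Set ℝ)
    (β τ : ℝ) (x : E3) (h : p7_fD k γ D β τ x ≠ 0) :
    (∃ i : ℤ, barIdx k i ∧ |x 2 - 4 * i| < 3 / 4) ∧
    ((|xi (4 * k) (x 0)| ∈ D ∧ p7_h2 (xi (4 * k) (x 0)) ≠ 0 ∧
      ∃ g : ℤ, gapIdx k g ∧ |x 1 - (4 * g + 2)| < 3 / 4) ∨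
     (|xi (4 * k) (x 1)| ∈ D ∧ p7_h2 (xi (4 * k) (x 1)) ≠ 0 ∧
      ∃ g : ℤ, gapIdx k g ∧ |x 0 - (4 * g + 2)| < 3 / 4)) := by
  have key : ∀ a b z : ℝ, (∀ w : ℝ, w = 0 ∨ w = 1 → True) →
      (p7_v k γ D a z ≠ 0 ∧ (pg k b ≠ 0 ∨ deriv (pg k) b ≠ 0)) →
      (∃ i : ℤ, barIdx k i ∧ |z - 4 * i| < 3 / 4) ∧ (|xi (4 * k) a| ∈ D ∧
        p7_h2 (xi (4 * k) a) ≠ 0 ∧ ∃ g : ℤ, gapIdx k g ∧ |b - (4 * g + 2)| < 3 / 4) := by
    intro a b z _ ⟨h1, h2⟩
    unfold p7_v at h1
    by_cases hD : |xi (4 * k) a| ∈ D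
    · rw [if_pos hD, p7_ff hk] at h1
      have h3 : p7_h2 (xi (4 * k) a) ≠ 0 := left_ne_zero_of_mul h1
      have h4 : p7_bf k γ (hh k a) z ≠ 0 := right_ne_zero_of_mul h1
      exact ⟨p7_bf_ne hγ hγ' (p7_hh_bd k a) h4, hD, h3, p7_pg_ne h2⟩
    · rw [if_neg hD] at h1
      exact absurd rfl h1
  unfold p7_fD p7_F at h
  dsimp only at h
  by_cases c0 : p7_v k γ D (x 0) (x 2) ≠ 0 ∧
      (pg k (x 1) ≠ 0 ∨ deriv (pg k) (x 1) ≠ 0)
  · have := key (x 0) (x 1) (x 2) (fun _ _ => trivial) c0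
    exact ⟨this.1, Or.inl this.2⟩
  · by_cases c1 : p7_v k γ D (x 1) (x 2) ≠ 0 ∧
      (pg k (x 0) ≠ 0 ∨ deriv (pg k) (x 0) ≠ 0)
    · have := key (x 1) (x 0) (x 2) (fun _ _ => trivial) c1
      exact ⟨this.1, Or.inr this.2⟩
    · exfalso
      apply h
      have z0 : ∀ (a p q : ℝ), ¬ (a ≠ 0 ∧ (p ≠ 0 ∨ q ≠ 0)) → ∀ (b s t r : ℝ),
          a * (b * p) = 0 ∧ r * (s * a * q) = 0 := by
        intro a p q hc b s t r
        by_cases ha : a = 0
        · rw [ha]
          constructor <;> ring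
        · have hp : p = 0 := by
            by_contra hp
            exact hc ⟨ha, Or.inl hp⟩
          have hq : q = 0 := by
            by_contra hq
            exact hc ⟨ha, Or.inr hq⟩
          rw [hp, hq]
          constructor <;> ring
      have e1 := z0 _ _ _ c0 (-β) (xi (4 * k) (x 0)) 0 τ
      have e2 := z0 _ _ _ c1 β (xi (4 * k) (x 1)) 0 τ
      rw [e1.1, e1.2, e2.1, e2.2]
      ring

/-! ### supports -/

theorem p7_supp_post {k : ℕ} (hk : 5 ≤ k) {y : ℝ} (h0 : 0 < y ∧ y < 8 * k)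
    (h1 : |xi (4 * k) y| < 3 / 2) (h2 : p7_h2 (xi (4 * k) y) ≠ 0) :
    ∃ j : ℕ, j < 3 ∧ (j : ℝ) * (4 * k) - 1 < y ∧ y < (j : ℝ) * (4 * k) + 1 := by
  have hk' : (5 : ℝ) ≤ k := by exact_mod_cast hk
  have h3 : |xi (4 * k) y| ≤ 1 / 2 := by
    by_contra hc
    push Not at hc
    exact h2 (p7_h2_mid hc (by linarith))
  unfold xi at h3
  set j := round (y / (4 * k)) with hj
  rw [abs_le] at h3
  have hj0 : 0 ≤ j := by
    by_contra hc
    push Not at hc
    have : (j : ℝ) + 1 ≤ 0 := by exact_mod_cast hc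
    nlinarith
  have hj3 : j < 3 := by
    by_contra hc
    push Not at hc
    have : (3 : ℝ) ≤ j := by exact_mod_cast hc
    nlinarith
  obtain ⟨m, hm⟩ := Int.eq_ofNat_of_zero_le hj0
  have hm' : (j : ℝ) = (m : ℝ) := by rw [hm]; push_cast; rfl
  refine ⟨m, by omega, ?_, ?_⟩ <;> rw [← hm'] <;> linarith [h3.1, h3.2]

theorem p7_supp_col {k : ℕ} (hk : 5 ≤ k) {y : ℝ} (h0 : 0 < y ∧ y < 4 * k)
    (h1 : 3 / 2 ≤ |xi (4 * k) y|) (h2 : p7_h2 (xi (4 * k) y) ≠ 0) :
    ∃ b : Bool, (if b then (4 * k - 4 : ℝ) else 2) < y ∧ y < if b then (4 * k - 2 : ℝ) else 4 := by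
  have hk' : (5 : ℝ) ≤ k := by exact_mod_cast hk
  have h3 : 21 / 10 ≤ |xi (4 * k) y| := by
    by_contra hc
    push Not at hc
    exact h2 (p7_h2_mid (by linarith) hc)
  have h4 : |xi (4 * k) y| ≤ 29 / 10 := by
    by_contra hc
    push Not at hc
    exact h2 (p7_h2_out hc)
  have h5 := p7_xi_le (L := 4 * k) (by linarith) y 0
  have h6 := p7_xi_le (L := 4 * k) (by linarith) y 1
  have e : |xi (4 * k) y| = y ∨ |xi (4 * k) y| = 4 * k - y := by
    unfold xi at h4 ⊢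
    set j := round (y / (4 * k)) with hj
    rw [abs_le] at h4
    have hj0 : 0 ≤ j := by
      by_contra hc
      push Not at hc
      have : (j : ℝ) + 1 ≤ 0 := by exact_mod_cast hc
      nlinarith
    have hj3 : j < 2 := by
      by_contra hc
      push Not at hc
      have : (2 : ℝ) ≤ j := by exact_mod_cast hc
      nlinarith
    have : j = 0 ∨ j = 1 := by omega
    rcases this with h | h
    · left
      rw [h, Int.cast_zero, mul_zero, sub_zero, abs_of_pos h0.1]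
    · right
      rw [h, Int.cast_one, mul_one, abs_of_neg (by linarith [h0.2])]
      ring
  rcases e with e | e
  · refine ⟨false, ?_, ?_⟩ <;> simp only [Bool.false_eq_true, if_false] <;> linarith
  · refine ⟨true, ?_, ?_⟩ <;> simp only [if_true] <;> linarith

theorem p7_supp_gap {k : ℕ} (n : ℕ) {y : ℝ} (h0 : 0 < y ∧ y < 4 * k * n) {g : ℤ}
    (h1 : |y - (4 * g + 2)| < 3 / 4) : ∃ m : ℕ, (m : ℤ) = g ∧ m < k * n := by
  rw [abs_lt] at h1
  have hg0 : 0 ≤ g := by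
    by_contra hc
    push Not at hc
    have : (g : ℝ) + 1 ≤ 0 := by exact_mod_cast hc
    linarith [h1.1, h1.2, h0.1]
  have hg1 : g < k * n := by
    by_contra hc
    push Not at hc
    have : (k : ℝ) * n ≤ g := by exact_mod_cast hc
    linarith [h1.1, h1.2, h0.2]
  obtain ⟨m, hm⟩ := Int.eq_ofNat_of_zero_le hg0
  refine ⟨m, hm.symm, ?_⟩
  rw [hm] at hg1
  exact_mod_cast hg1

theorem p7_supp_bar {k : ℕ} (n : ℕ) {z : ℝ} (h0 : 0 ≤ z ∧ z < 4 * k * n) {i : ℤ}
    (hi : barIdx k i) (h1 : |z - 4 * i| < 3 / 4) : ∃ m : ℕ, (m : ℤ) = i ∧ m < k * n := by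
  rw [abs_lt] at h1
  have hg0 : 0 ≤ i := by
    by_contra hc
    push Not at hc
    have : (i : ℝ) + 1 ≤ 0 := by exact_mod_cast hc
    linarith [h1.1, h1.2, h0.1]
  have hg1 : i ≤ k * n := by
    by_contra hc
    push Not at hc
    have : (k : ℝ) * n + 1 ≤ i := by exact_mod_cast hc
    linarith [h1.1, h1.2, h0.2]
  have hg2 : i ≠ k * n := by
    intro e
    unfold barIdx at hi
    rw [e, Int.mul_emod_right] at hi
    omega
  obtain ⟨m, hm⟩ := Int.eq_ofNat_of_zero_le hg0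
  refine ⟨m, hm.symm, ?_⟩
  have : i < k * n := lt_of_le_of_ne hg1 hg2
  rw [hm] at this
  exact_mod_cast this

/-- window of a bar -/
def p7_Z (i : ℕ) : Set ℝ := Set.Ioo (4 * i - 3 / 4 : ℝ) (4 * i + 3 / 4)

/-- support of the forces of the posts -/
theorem p7_post_supp {k : ℕ} (hk : 5 ≤ k) {γ : ℝ} (hγ : 0 ≤ γ) (hγ' : γ ≤ 1 / 8) (δ : ℝ) (i : ℕ)
    (β τ : ℝ) (x : E3) (hx : x ∉ p7_net k δ i) :
    p7_FD k γ (4 * k * (2 : ℤ)) (Set.Iio (3 / 2)) (p7_Z i) β τ x = 0 := by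
  by_contra hne
  apply hx
  have e8 : (4 * k * ((2 : ℤ) : ℝ) : ℝ) = 8 * k := by push_cast; ring
  have hin : (0 < x 0 ∧ x 0 < 4 * k * ((2 : ℤ) : ℝ)) ∧ (0 < x 1 ∧ x 1 < 4 * k * ((2 : ℤ) : ℝ)) ∧
      x 2 ∈ p7_Z i := by
    by_contra hc
    exact hne (p7_FD_out k γ _ _ _ β τ x hc)
  obtain ⟨h0, h1, hz⟩ := hin
  rw [p7_FD_in k γ _ _ _ β τ x h0 h1 hz] at hne
  obtain ⟨-, h⟩ := p7_fD_ne hk hγ hγ' _ β τ x hne
  unfold p7_Z at hz
  rcases h with ⟨hD, h2, g, hg, hg'⟩ | ⟨hD, h2, g, hg, hg'⟩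
  · obtain ⟨j, hj, hj1, hj2⟩ := p7_supp_post hk (by rw [← e8]; exact h0) hD h2
    obtain ⟨m, hm, hm'⟩ := p7_supp_gap 2 (by push_cast at h1 ⊢; exact h1) hg'
    unfold p7_net
    refine Or.inl (Or.inr ?_)
    simp only [Set.mem_iUnion]
    refine ⟨(j, m), (p7_idx_mem k _).mpr ⟨hj, by dsimp only; omega, by rw [hm]; exact hg⟩, ?_⟩
    unfold p7_P0
    rw [p7_mem]
    rw [← hm, abs_lt, Int.cast_natCast] at hg'
    refine ⟨⟨hj1, hj2⟩, ⟨by linarith [hg'.1], by linarith [hg'.2]⟩, ?_, ?_⟩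
    · push_cast
      exact hz.1
    · push_cast
      exact hz.2
  · obtain ⟨j, hj, hj1, hj2⟩ := p7_supp_post hk (by rw [← e8]; exact h1) hD h2
    obtain ⟨m, hm, hm'⟩ := p7_supp_gap 2 (by push_cast at h0 ⊢; exact h0) hg'
    unfold p7_net
    refine Or.inr ?_
    simp only [Set.mem_iUnion]
    refine ⟨(j, m), (p7_idx_mem k _).mpr ⟨hj, by dsimp only; omega, by rw [hm]; exact hg⟩, ?_⟩
    unfold p7_P1
    rw [p7_mem]
    rw [← hm, abs_lt, Int.cast_natCast] at hg'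
    refine ⟨⟨by linarith [hg'.1], by linarith [hg'.2]⟩, ⟨hj1, hj2⟩, ?_, ?_⟩
    · push_cast
      exact hz.1
    · push_cast
      exact hz.2

/-- support of the forces of the columns -/
theorem p7_col_supp {k : ℕ} (hk : 5 ≤ k) {γ : ℝ} (hγ : 0 ≤ γ) (hγ' : γ ≤ 1 / 8)
    (β τ : ℝ) (x : E3) (hx : x ∉ p7_shell k) :
    p7_FD k γ (4 * k * (1 : ℤ)) (Set.Ici (3 / 2)) (Set.Ioo 0 (4 * k)) β τ x = 0 := by
  by_contra hne
  apply hx
  have e8 : (4 * k * ((1 : ℤ) : ℝ) : ℝ) = 4 * k := by push_cast; ring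
  have hin : (0 < x 0 ∧ x 0 < 4 * k * ((1 : ℤ) : ℝ)) ∧ (0 < x 1 ∧ x 1 < 4 * k * ((1 : ℤ) : ℝ)) ∧
      x 2 ∈ Set.Ioo (0 : ℝ) (4 * k) := by
    by_contra hc
    exact hne (p7_FD_out k γ _ _ _ β τ x hc)
  obtain ⟨h0, h1, hz⟩ := hin
  rw [p7_FD_in k γ _ _ _ β τ x h0 h1 hz] at hne
  obtain ⟨⟨i, hi, hi'⟩, h⟩ := p7_fD_ne hk hγ hγ' _ β τ x hne
  obtain ⟨n, hn, hn'⟩ := p7_supp_bar 1 (z := x 2)
    (by push_cast; rw [mul_one]; exact ⟨hz.1.le, hz.2⟩) hi hi'
  rw [← hn, abs_lt, Int.cast_natCast] at hi'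
  rcases h with ⟨hD, h2, g, hg, hg'⟩ | ⟨hD, h2, g, hg, hg'⟩
  · obtain ⟨b, hb1, hb2⟩ := p7_supp_col hk (by rw [← e8]; exact h0) hD h2
    obtain ⟨m, hm, hm'⟩ := p7_supp_gap 1 (by push_cast at h1 ⊢; exact h1) hg'
    unfold p7_shell
    refine Or.inl (Or.inr ?_)
    simp only [Set.mem_iUnion]
    refine ⟨(b, m, n), (p7_cdx_mem k _).mpr ⟨⟨by dsimp only; omega, by rw [hm]; exact hg⟩,
      by dsimp only; omega, by rw [hn]; exact hi⟩, ?_⟩
    unfold p7_C0
    rw [p7_mem]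
    rw [← hm, abs_lt, Int.cast_natCast] at hg'
    exact ⟨⟨hb1, hb2⟩, ⟨by linarith [hg'.1], by linarith [hg'.2]⟩, by linarith [hi'.1],
      by linarith [hi'.2]⟩
  · obtain ⟨b, hb1, hb2⟩ := p7_supp_col hk (by rw [← e8]; exact h1) hD h2
    obtain ⟨m, hm, hm'⟩ := p7_supp_gap 1 (by push_cast at h0 ⊢; exact h0) hg'
    unfold p7_shell
    refine Or.inr ?_
    simp only [Set.mem_iUnion]
    refine ⟨(b, m, n), (p7_cdx_mem k _).mpr ⟨⟨by dsimp only; omega, by rw [hm]; exact hg⟩,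
      by dsimp only; omega, by rw [hn]; exact hi⟩, ?_⟩
    unfold p7_C1
    rw [p7_mem]
    rw [← hm, abs_lt, Int.cast_natCast] at hg'
    exact ⟨⟨by linarith [hg'.1], by linarith [hg'.2]⟩, ⟨hb1, hb2⟩, by linarith [hi'.1],
      by linarith [hi'.2]⟩


/-! ### strains -/

theorem p7_strain_add (v : E3 → E3) (t x : E3) :
    strain (fun y => v (y + t)) x = strain v (x + t) := by
  unfold strain
  rw [fderiv_comp_add_right]

theorem p7_strain_per {P : ℝ} {ε₀ : M3} {v : E3 → E3} (hv : v ∈ Adm P ε₀) :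
    PerFun P (strain v) := by
  intro i x
  have h : (fun y => v (y + EuclideanSpace.single i P)) =
      fun y => v y + mk3 (fun j => P * ε₀ j i) := by
    funext y
    ext j
    rw [hv.2 i j y]
    rfl
  have h1 := p7_strain_add v (EuclideanSpace.single i P) x
  rw [h] at h1
  rw [← h1]
  unfold strain
  rw [fderiv_add_const]

theorem p7_strain_cont {v : E3 → E3} (hv : ContDiff ℝ ∞ v) :
    Continuous fun x => inn (strain v x) (strain v x) := by
  have h := continuous_strain v hv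
  unfold inn
  have h2 : ∀ i j, Continuous fun x => strain v x i j := fun i j =>
    (continuous_apply_apply i j).comp h
  exact continuous_finsetSum _ fun i _ => continuous_finsetSum _ fun j _ => (h2 i j).mul (h2 i j)

theorem p7_inn_nonneg (A : M3) : 0 ≤ inn A A := by
  unfold inn
  exact Finset.sum_nonneg fun i _ => Finset.sum_nonneg fun j _ => mul_self_nonneg _

theorem p7_energy (k : ℕ) (hk : 5 ≤ k) (δ : ℝ) (S : Set E3) (hS : Bornology.IsBounded S)
    (hm : MeasurableSet S) (t : E3) (hSt : ∀ x ∈ S, x + t ∈ CoreS k δ) :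
    ∃ N : ℝ, 0 < N ∧ ∀ ε₀ : M3, ∀ v ∈ Adm (8 * k) ε₀,
      ∫ x in S, inn (strain v (x + t)) (strain v (x + t)) ≤
        N * ∫ x in cell (8 * k) ∩ CoreS k δ, inn (strain v x) (strain v x) := by
  have hk' : (5 : ℝ) ≤ k := by exact_mod_cast hk
  have hP : (0 : ℝ) < 8 * k := by linarith
  obtain ⟨N, hN, hN'⟩ := setIntegral_le_cell hP S hS hm
  refine ⟨N, hN, fun ε₀ v hv => ?_⟩
  set G : E3 → ℝ := (CoreS k δ).indicator fun y => inn (strain v y) (strain v y) with hG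
  have hcm := CoreS_meas k δ
  have hper : PerSet (8 * k) (CoreS k δ) := by
    have := CoreS_per k (by omega) δ
    rwa [show (2 * (4 * k) : ℝ) = 8 * k by ring] at this
  have hGper : PerFun (8 * k) G := by
    intro i x
    rw [hG]
    by_cases h : x ∈ CoreS k δ
    · rw [Set.indicator_of_mem h, Set.indicator_of_mem ((hper i x).mpr h), p7_strain_per hv i x]
    · rw [Set.indicator_of_notMem h, Set.indicator_of_notMem (fun e => h ((hper i x).mp e))]
  have hcont := p7_strain_cont hv.1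
  have hbint : ∀ B : Set E3, Bornology.IsBounded B → ∀ s : E3,
      IntegrableOn (fun x => G (x + s)) B volume := by
    intro B hB s
    obtain ⟨R, hR⟩ := (Metric.isBounded_iff_subset_closedBall 0).mp hB
    have h1 : IntegrableOn (fun x => inn (strain v (x + s)) (strain v (x + s)))
        (closedBall 0 R) volume :=
      (hcont.comp (continuous_id.add continuous_const)).continuousOn.integrableOn_compact
        (isCompact_closedBall 0 R)
    have h2 : (fun x => G (x + s)) = ((fun x => x + s) ⁻¹' CoreS k δ).indicator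
        fun x => inn (strain v (x + s)) (strain v (x + s)) := by
      funext x
      rfl
    rw [h2]
    exact (h1.indicator (hcm.preimage (measurable_id.add_const s))).mono_set hR
  have hGt : ∀ x, 0 ≤ G (x + t) := fun x => Set.indicator_nonneg (fun y _ => p7_inn_nonneg _) _
  have hGtper : PerFun (8 * k) fun x => G (x + t) := by
    intro i x
    have := hGper i (x + t)
    change G (x + EuclideanSpace.single i (8 * k : ℝ) + t) = G (x + t)
    rw [show x + EuclideanSpace.single i (8 * k : ℝ) + t = x + t + EuclideanSpace.single i (8 * k : ℝ)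
      by abel]
    exact this
  have h1 : ∫ x in S, inn (strain v (x + t)) (strain v (x + t)) = ∫ x in S, G (x + t) := by
    apply setIntegral_congr_fun hm
    intro x hx
    change inn (strain v (x + t)) (strain v (x + t)) =
      (CoreS k δ).indicator (fun y => inn (strain v y) (strain v y)) (x + t)
    rw [Set.indicator_of_mem (hSt x hx)]
  have h2 := hN' (fun x => G (x + t)) hGt hGtper (hbint _ (isBounded_cell _) t)
  have h3 := integral_cell_translate hP G hGper t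
  have h4 : ∫ x in cell (8 * k), G x =
      ∫ x in cell (8 * k) ∩ CoreS k δ, inn (strain v x) (strain v x) := by
    rw [hG, setIntegral_indicator hcm]
  rw [h1, ← h4, ← h3]
  exact h2

/-! ### one piece -/

theorem p7_intv (F : E3 → ℝ) (hm : Measurable F) (B : ℝ) (hB : ∀ x, |F x| ≤ B) (S : Set E3)
    (hS : Bornology.IsBounded S) (h0 : ∀ x, x ∉ S → F x = 0) (g : E3 → ℝ) (hg : Continuous g) :
    Integrable (fun x => F x * g x) volume := by
  obtain ⟨R, hR⟩ := (Metric.isBounded_iff_subset_closedBall 0).mp hS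
  have h1 : IntegrableOn g (closedBall 0 R) volume :=
    hg.continuousOn.integrableOn_compact (isCompact_closedBall 0 R)
  have h2 : IntegrableOn (fun x => F x * g x) (closedBall 0 R) volume := by
    apply Integrable.bdd_mul (c := B) h1 hm.aestronglyMeasurable
    exact Filter.Eventually.of_forall fun x => by rw [Real.norm_eq_abs]; exact hB x
  rw [← integrableOn_iff_integrable_of_support_subset (s := closedBall (0 : E3) R)]
  · exact h2
  · intro x hx
    by_contra hc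
    apply hx
    change F x * g x = 0
    rw [h0 x (fun e => hc (hR e)), zero_mul]

theorem p7_piece (S : Set E3) (hS : Linked S) : ∃ C : ℝ, 0 < C ∧ ∀ (f : E3 → ℝ) (B : ℝ),
    Measurable f → (∀ x, |f x| ≤ B) → (∀ x, x ∉ S → f x = 0) → ∫ x, f x = 0 →
    ∫ x, f x * x 0 = 0 → ∫ x, f x * x 1 = 0 → ∀ v : E3 → E3, ContDiff ℝ ∞ v →
    |∫ x, f x * v x 2| ≤ C * B * √(∫ x in S, inn (strain v x) (strain v x)) := by
  obtain ⟨C, hC, h⟩ := kp_dual S hS
  refine ⟨C, hC, fun f B hm hB h0 i0 i1 i2 v hv => ?_⟩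
  have e : ∀ g : E3 → ℝ, ∫ x in S, f x * g x = ∫ x, f x * g x := by
    intro g
    apply setIntegral_eq_integral_of_forall_compl_eq_zero
    intro x hx
    rw [h0 x hx, zero_mul]
  have e0 : ∫ x in S, f x = ∫ x, f x := by
    apply setIntegral_eq_integral_of_forall_compl_eq_zero
    intro x hx
    exact h0 x hx
  have := h f B hm hB h0 (by rw [e0, i0]) (by rw [e fun x => x 0, i1]) (by rw [e fun x => x 1, i2])
    v hv
  rwa [e fun x => v x 2] at this

/-! ### planes -/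

theorem p7_plane (i : Fin 3) (c : ℝ) : ∀ᵐ x : E3 ∂volume, x i ≠ c := by
  have h1 : ∀ᵐ y : Fin 3 → ℝ ∂volume, y i ≠ c := by
    rw [ae_iff]
    have h2 : {y : Fin 3 → ℝ | ¬ y i ≠ c} = {y | y i = c} := by
      ext y
      simp
    rw [h2]
    exact Measure.pi_hyperplane (fun _ : Fin 3 => (volume : Measure ℝ)) i (c : ℝ)
  exact (PiLp.volume_preserving_ofLp (Fin 3)).quasiMeasurePreserving.ae h1

/-! ### decomposition on the cell -/

open Classical in
/-- bars in the cell -/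
noncomputable def p7_bars (k : ℕ) : Finset ℕ :=
  (Finset.range (2 * k)).filter fun i : ℕ => barIdx k (i : ℤ)

theorem p7_bars_mem (k i : ℕ) : i ∈ p7_bars k ↔ i < 2 * k ∧ barIdx k (i : ℤ) := by
  simp [p7_bars]

/-- translation vectors of the blocks -/
noncomputable def p7_t (k : ℕ) (n : Fin 3 → ℤ) : E3 := mk3 fun i => 4 * k * (n i : ℝ)

/-- the blocks of the cell -/
def p7_blocks : Finset (Fin 3 → ℤ) := Fintype.piFinset fun _ => ({0, 1} : Finset ℤ)

theorem p7_sum_post {k : ℕ} (hk : 5 ≤ k) {γ : ℝ} (hγ : 0 ≤ γ) (hγ' : γ ≤ 1 / 8) (β τ : ℝ) (x : E3)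
    (hx : ∀ i, 0 < x i ∧ x i < 8 * k) :
    ∑ i ∈ p7_bars k, p7_FD k γ (4 * k * (2 : ℤ)) (Set.Iio (3 / 2)) (p7_Z i) β τ x =
      p7_fD k γ (Set.Iio (3 / 2)) β τ x := by
  have e8 : (4 * k * ((2 : ℤ) : ℝ) : ℝ) = 8 * k := by push_cast; ring
  have hin : ∀ i, x 2 ∈ p7_Z i → p7_FD k γ (4 * k * (2 : ℤ)) (Set.Iio (3 / 2)) (p7_Z i) β τ x =
      p7_fD k γ (Set.Iio (3 / 2)) β τ x := fun i hi =>
    p7_FD_in k γ _ _ _ β τ x (by rw [e8]; exact hx 0) (by rw [e8]; exact hx 1) hi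
  have hout : ∀ i, x 2 ∉ p7_Z i → p7_FD k γ (4 * k * (2 : ℤ)) (Set.Iio (3 / 2)) (p7_Z i) β τ x =
      0 := fun i hi => p7_FD_out k γ _ _ _ β τ x fun e => hi e.2.2
  by_cases h : p7_fD k γ (Set.Iio (3 / 2)) β τ x = 0
  · rw [h]
    apply Finset.sum_eq_zero
    intro i _
    by_cases hi : x 2 ∈ p7_Z i
    · rw [hin i hi, h]
    · exact hout i hi
  · obtain ⟨⟨i, hi, hi'⟩, -⟩ := p7_fD_ne hk hγ hγ' _ β τ x h
    obtain ⟨m, hm, hm'⟩ := p7_supp_bar (k := k) 2 (z := x 2)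
      ⟨(hx 2).1.le, by have := (hx 2).2; push_cast; linarith⟩ hi hi'
    have hmZ : x 2 ∈ p7_Z m := by
      rw [← hm, abs_lt, Int.cast_natCast] at hi'
      unfold p7_Z
      exact ⟨by linarith [hi'.1], by linarith [hi'.2]⟩
    rw [Finset.sum_eq_single m]
    · exact hin m hmZ
    · intro j _ hj
      apply hout
      intro hjZ
      apply hj
      unfold p7_Z at hmZ hjZ
      have h1 : (j : ℝ) < m + 1 := by linarith [hmZ.1, hmZ.2, hjZ.1, hjZ.2]
      have h2 : (m : ℝ) < j + 1 := by linarith [hmZ.1, hmZ.2, hjZ.1, hjZ.2]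
      have h3 : j < m + 1 := by exact_mod_cast h1
      have h4 : m < j + 1 := by exact_mod_cast h2
      omega
    · intro hc
      exact absurd ((p7_bars_mem k m).mpr ⟨by omega, by rw [hm]; exact hi⟩) hc

section

variable {k : ℕ} (hk : 5 ≤ k)

include hk in
theorem p7_ff_per (γ x z : ℝ) (a b : ℤ) :
    ff k γ (x - 4 * k * a) (z - 4 * k * b) = ff k γ x z := by
  have hk' : (5 : ℝ) ≤ k := by exact_mod_cast hk
  have h1 : xi (4 * k) (x - 4 * k * a) = xi (4 * k) x := by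
    have := p7_xi_add (L := 4 * k) (by linarith) (-a) x
    push_cast at this
    rw [← this]
    congr 1
    ring
  rw [p7_ff hk, p7_ff hk, p7_hh, p7_hh, h1]
  congr 1
  unfold p7_bf barfun
  have h2 : round ((z - 4 * k * b) / 4) = round (z / 4) + k * (-b) := by
    have : (z - 4 * k * b) / 4 = z / 4 + ((k * (-b) : ℤ) : ℝ) := by
      push_cast
      ring
    rw [this, round_add_intCast]
  rw [h2]
  set j := round (z / 4)
  have h3 : kap k (j + k * (-b)) = kap k j := by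
    unfold kap
    rw [Int.add_mul_emod_self_left]
  have h4 : mass k (j + k * (-b)) = mass k j := by
    unfold mass barIdx
    rw [Int.add_mul_emod_self_left]
  simp only [h3, h4]
  congr 2
  push_cast
  ring

include hk in
theorem p7_pg_per (y : ℝ) (a : ℤ) : pg k (y - 4 * k * a) = pg k y ∧
    deriv (pg k) (y - 4 * k * a) = deriv (pg k) y := by
  have h1 := p7_pg_refl hk 0 (y - 4 * k * a)
  have h2 := p7_pg_refl hk a y
  have h3 := p7_dpg_refl hk 0 (y - 4 * k * a)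
  have h4 := p7_dpg_refl hk a y
  have e : 4 * (k : ℝ) * ((0 : ℤ) : ℝ) - (y - 4 * k * a) = 4 * k * a - y := by
    push_cast
    ring
  rw [e] at h1 h3
  rw [h2] at h1
  rw [h4] at h3
  exact ⟨h1.symm, by linarith⟩

include hk in
theorem p7_fD_per (γ : ℝ) (D : Set ℝ) (β τ : ℝ) (x : E3) (n : Fin 3 → ℤ) :
    p7_fD k γ D β τ (x - p7_t k n) = p7_fD k γ D β τ x := by
  have hk' : (5 : ℝ) ≤ k := by exact_mod_cast hk
  have e : ∀ i, (x - p7_t k n) i = x i - 4 * k * (n i : ℝ) := fun i => rfl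
  have h1 : ∀ (a : ℤ) (y : ℝ), xi (4 * k) (y - 4 * k * a) = xi (4 * k) y := by
    intro a y
    have := p7_xi_add (L := 4 * k) (by linarith) (-a) y
    push_cast at this
    rw [← this]
    congr 1
    ring
  have h2 : ∀ (a b : ℤ) (y z : ℝ), p7_v k γ D (y - 4 * k * a) (z - 4 * k * b) = p7_v k γ D y z := by
    intro a b y z
    unfold p7_v
    rw [h1, p7_ff_per hk]
  unfold p7_fD p7_F
  dsimp only
  rw [e, e, e, h2, h2, h1, h1, (p7_pg_per hk _ _).1, (p7_pg_per hk _ _).1, (p7_pg_per hk _ _).2,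
    (p7_pg_per hk _ _).2]

include hk in
theorem p7_sum_col (γ : ℝ) (β τ : ℝ) (x : E3)
    (hx : ∀ i, 0 < x i ∧ x i < 8 * k ∧ x i ≠ 4 * k) :
    ∑ n ∈ p7_blocks, p7_FD k γ (4 * k * (1 : ℤ)) (Set.Ici (3 / 2)) (Set.Ioo 0 (4 * k)) β τ
      (x - p7_t k n) = p7_fD k γ (Set.Ici (3 / 2)) β τ x := by
  have e4 : (4 * k * ((1 : ℤ) : ℝ) : ℝ) = 4 * k := by push_cast; ring
  have e : ∀ n i, (x - p7_t k n) i = x i - 4 * k * (n i : ℝ) := fun n i => rfl
  set m : Fin 3 → ℤ := fun i => if x i < 4 * k then 0 else 1 with hm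
  rw [Finset.sum_eq_single m]
  · have hi : ∀ i, 0 < (x - p7_t k m) i ∧ (x - p7_t k m) i < 4 * k := by
      intro i
      rw [e, hm]
      dsimp only
      split_ifs with h
      · simp only [Int.cast_zero, mul_zero, sub_zero]
        exact ⟨(hx i).1, h⟩
      · simp only [Int.cast_one, mul_one]
        have := lt_of_le_of_ne (not_lt.mp h) (hx i).2.2.symm
        constructor
        · linarith
        · linarith [(hx i).2.1]
    rw [p7_FD_in k γ _ _ _ β τ _ (by rw [e4]; exact hi 0) (by rw [e4]; exact hi 1) (hi 2),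
      p7_fD_per hk]
  · intro n hn hne
    apply p7_FD_out
    rintro ⟨h0, h1, h2⟩
    apply hne
    rw [e4] at h0 h1
    have hall : ∀ i, 0 < (x - p7_t k n) i ∧ (x - p7_t k n) i < 4 * k := by
      intro i
      fin_cases i
      · exact h0
      · exact h1
      · exact h2
    unfold p7_blocks at hn
    rw [Fintype.mem_piFinset] at hn
    funext i
    have hni := hn i
    rw [Finset.mem_insert, Finset.mem_singleton] at hni
    have hai := hall i
    rw [e] at hai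
    rw [hm]
    dsimp only
    rcases hni with hni | hni
    · rw [hni] at hai ⊢
      simp only [Int.cast_zero, mul_zero, sub_zero] at hai
      rw [if_pos hai.2]
    · rw [hni] at hai ⊢
      simp only [Int.cast_one, mul_one] at hai
      rw [if_neg (by linarith)]
  · intro hc
    exfalso
    apply hc
    unfold p7_blocks
    rw [Fintype.mem_piFinset]
    intro i
    rw [hm]
    dsimp only
    split_ifs <;> simp

end


/-! ### assembly -/

theorem p7_generic (k : ℕ) (hk : 5 ≤ k) (δ : ℝ) (S : Set E3) (hS : Linked S) (t : E3)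
    (hSt : ∀ x ∈ S, x + t ∈ CoreS k δ) : ∃ C : ℝ, 0 < C ∧ ∀ (f : E3 → ℝ) (B : ℝ), 0 ≤ B →
    Measurable f → (∀ x, |f x| ≤ B) → (∀ x, x ∉ S → f x = 0) → ∫ x, f x = 0 →
    ∫ x, f x * x 0 = 0 → ∫ x, f x * x 1 = 0 → ∀ ε₀ : M3, ∀ v ∈ Adm (8 * k) ε₀,
    Integrable (fun x => f (x - t) * v x 2) volume ∧
    |∫ x, f (x - t) * v x 2| ≤ C * B *
      √(∫ x in cell (8 * k) ∩ CoreS k δ, inn (strain v x) (strain v x)) := by
  obtain ⟨C, hC, h⟩ := p7_piece S hS
  obtain ⟨N, hN, hN'⟩ := p7_energy k hk δ S hS.isBounded hS.isOpen.measurableSet t hSt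
  refine ⟨C * √N, by positivity, fun f B hB0 hm hB h0 i0 i1 i2 ε₀ v hv => ?_⟩
  have hw : ContDiff ℝ ∞ fun y => v (y + t) := hv.1.comp (contDiff_id.add contDiff_const)
  have hint : Integrable (fun x => f x * v (x + t) 2) volume := by
    refine p7_intv f hm B hB S hS.isBounded h0 (fun x => v (x + t) 2) ?_
    exact (EuclideanSpace.proj (𝕜 := ℝ) (2 : Fin 3)).continuous.comp hw.continuous
  have e1 : (fun x => f (x - t) * v x 2) = fun x => (fun y => f y * v (y + t) 2) (x - t) := by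
    funext x
    change f (x - t) * v x 2 = f (x - t) * v (x - t + t) 2
    rw [sub_add_cancel]
  constructor
  · rw [e1]
    exact hint.comp_sub_right t
  · rw [e1, integral_sub_right_eq_self (fun y => f y * v (y + t) 2) t]
    have h1 := h f B hm hB h0 i0 i1 i2 (fun y => v (y + t)) hw
    have h2 : ∫ x in S, inn (strain (fun y => v (y + t)) x) (strain (fun y => v (y + t)) x) =
        ∫ x in S, inn (strain v (x + t)) (strain v (x + t)) := by
      simp only [p7_strain_add]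
    rw [h2] at h1
    have h3 := Real.sqrt_le_sqrt (hN' ε₀ v hv)
    rw [Real.sqrt_mul hN.le] at h3
    calc _ ≤ _ := h1
      _ ≤ C * B * (√N * √(∫ x in cell (8 * k) ∩ CoreS k δ, inn (strain v x) (strain v x))) := by
        gcongr
      _ = _ := by ring

theorem p7_post_bound (k : ℕ) (hk : 5 ≤ k) (δ : ℝ) (hδ : 0 < δ) (hδ' : δ ≤ 1 / 10) (i : ℕ)
    (hi : i ∈ p7_bars k) : ∃ C : ℝ, 0 < C ∧ ∀ γ β τ : ℝ, 0 ≤ γ → γ ≤ 1 / 8 → ∀ ε₀ : M3,
    ∀ v ∈ Adm (8 * k) ε₀,
      Integrable (fun x => p7_FD k γ (4 * k * (2 : ℤ)) (Set.Iio (3 / 2)) (p7_Z i) β τ x * v x 2)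
        volume ∧
      |∫ x, p7_FD k γ (4 * k * (2 : ℤ)) (Set.Iio (3 / 2)) (p7_Z i) β τ x * v x 2| ≤
        C * (|β| + |τ|) *
          √(∫ x in cell (8 * k) ∩ CoreS k δ, inn (strain v x) (strain v x)) := by
  obtain ⟨A, hA, hA'⟩ := p7_bounds
  have hk' : (5 : ℝ) ≤ k := by exact_mod_cast hk
  obtain ⟨hi1, hi2⟩ := (p7_bars_mem k i).mp hi
  obtain ⟨C, hC, h⟩ := p7_generic k hk δ (p7_net k δ i) (p7_net_linked k hk δ hδ hδ' i) 0
    (fun x hx => by rw [add_zero]; exact p7_net_core k hk δ i hi2 hx)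
  refine ⟨C * (2 * A ^ 2), by positivity, fun γ β τ hγ hγ' ε₀ v hv => ?_⟩
  have hZ : ∀ z ∈ p7_Z i, |z| ≤ 4 * k * ((2 : ℤ) : ℝ) := by
    intro z hz
    unfold p7_Z at hz
    have h1 : (i : ℝ) + 1 ≤ 2 * k := by exact_mod_cast hi1
    have h2 : (0 : ℝ) ≤ i := Nat.cast_nonneg i
    rw [abs_le]
    push_cast
    constructor
    · linarith [hz.1]
    · linarith [hz.2]
  obtain ⟨q1, q2, -, q4, q5, q6⟩ := p7_FD_props hk A hA (hA' k hk) γ 2 (by norm_num)
    (Set.Iio (3 / 2)) (p7_Z i) measurableSet_Iio measurableSet_Ioo hZ β τ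
  have := h _ (2 * A ^ 2 * (|β| + |τ|)) (by positivity) q1 q2
    (fun x hx => p7_post_supp hk hγ hγ' δ i β τ x hx) q4 q5 q6 ε₀ v hv
  simp only [sub_zero] at this
  refine ⟨this.1, this.2.trans (le_of_eq ?_)⟩
  ring

theorem p7_col_bound (k : ℕ) (hk : 5 ≤ k) (δ : ℝ) (n : Fin 3 → ℤ) :
    ∃ C : ℝ, 0 < C ∧ ∀ γ β τ : ℝ, 0 ≤ γ → γ ≤ 1 / 8 → ∀ ε₀ : M3,
    ∀ v ∈ Adm (8 * k) ε₀,
      Integrable (fun x => p7_FD k γ (4 * k * (1 : ℤ)) (Set.Ici (3 / 2)) (Set.Ioo 0 (4 * k)) β τ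
        (x - p7_t k n) * v x 2) volume ∧
      |∫ x, p7_FD k γ (4 * k * (1 : ℤ)) (Set.Ici (3 / 2)) (Set.Ioo 0 (4 * k)) β τ
        (x - p7_t k n) * v x 2| ≤ C * (|β| + |τ|) *
          √(∫ x in cell (8 * k) ∩ CoreS k δ, inn (strain v x) (strain v x)) := by
  obtain ⟨A, hA, hA'⟩ := p7_bounds
  have hk' : (5 : ℝ) ≤ k := by exact_mod_cast hk
  obtain ⟨C, hC, h⟩ := p7_generic k hk δ (p7_shell k) (p7_shell_linked k hk) (p7_t k n)
    (fun x hx => p7_shell_core k hk δ n x hx)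
  refine ⟨C * (2 * A ^ 2), by positivity, fun γ β τ hγ hγ' ε₀ v hv => ?_⟩
  have hZ : ∀ z ∈ Set.Ioo (0 : ℝ) (4 * k), |z| ≤ 4 * k * ((1 : ℤ) : ℝ) := by
    intro z hz
    rw [abs_le]
    push_cast
    constructor
    · linarith [hz.1]
    · linarith [hz.2]
  obtain ⟨q1, q2, -, q4, q5, q6⟩ := p7_FD_props hk A hA (hA' k hk) γ 1 (by norm_num)
    (Set.Ici (3 / 2)) (Set.Ioo 0 (4 * k)) measurableSet_Ici measurableSet_Ioo hZ β τ
  have := h _ (2 * A ^ 2 * (|β| + |τ|)) (by positivity) q1 q2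
    (fun x hx => p7_col_supp hk hγ hγ' β τ x hx) q4 q5 q6 ε₀ v hv
  refine ⟨this.1, this.2.trans (le_of_eq ?_)⟩
  ring

/-- almost everywhere decomposition -/
theorem p7_decomp (k : ℕ) (hk : 5 ≤ k) {γ : ℝ} (hγ : 0 ≤ γ) (hγ' : γ ≤ 1 / 8) (β τ : ℝ)
    (g : E3 → ℝ) :
    ∀ᵐ x : E3 ∂volume, (cell (8 * k)).indicator (fun x => fz k γ β τ x * g x) x =
      ∑ i ∈ p7_bars k, p7_FD k γ (4 * k * (2 : ℤ)) (Set.Iio (3 / 2)) (p7_Z i) β τ x * g x +
      ∑ n ∈ p7_blocks, p7_FD k γ (4 * k * (1 : ℤ)) (Set.Ici (3 / 2)) (Set.Ioo 0 (4 * k)) β τ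
        (x - p7_t k n) * g x := by
  have hk' : (5 : ℝ) ≤ k := by exact_mod_cast hk
  have e8 : (4 * k * ((2 : ℤ) : ℝ) : ℝ) = 8 * k := by push_cast; ring
  have e4 : (4 * k * ((1 : ℤ) : ℝ) : ℝ) = 4 * k := by push_cast; ring
  have p0 := ae_all_iff.mpr fun i : Fin 3 => p7_plane i 0
  have p1 := ae_all_iff.mpr fun i : Fin 3 => p7_plane i (4 * k)
  filter_upwards [p0, p1] with x h0 h1
  by_cases hx : x ∈ cell (8 * k)
  · have hx0 : ∀ i, 0 < x i ∧ x i < 8 * k := fun i =>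
      ⟨lt_of_le_of_ne (hx i).1 (h0 i).symm, (hx i).2⟩
    rw [Set.indicator_of_mem hx, ← Finset.sum_mul, ← Finset.sum_mul,
      p7_sum_post hk hγ hγ' β τ x hx0, p7_sum_col hk γ β τ x
        (fun i => ⟨(hx0 i).1, (hx0 i).2, h1 i⟩), ← add_mul,
      p7_fz_split k γ β τ x (fz k γ β τ) rfl]
  · rw [Set.indicator_of_notMem hx]
    symm
    have s1 : ∑ i ∈ p7_bars k,
        p7_FD k γ (4 * k * (2 : ℤ)) (Set.Iio (3 / 2)) (p7_Z i) β τ x * g x = 0 := by
      apply Finset.sum_eq_zero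
      intro i hi
      rw [p7_FD_out, zero_mul]
      rintro ⟨a0, a1, a2⟩
      apply hx
      obtain ⟨hi1, hi2⟩ := (p7_bars_mem k i).mp hi
      rw [e8] at a0 a1
      unfold p7_Z at a2
      have b1 : (i : ℝ) + 1 ≤ 2 * k := by exact_mod_cast hi1
      have b2 : 1 ≤ i := by
        rcases Nat.eq_zero_or_pos i with hz | hz
        · exfalso
          rw [hz] at hi2
          unfold barIdx at hi2
          simp at hi2
        · exact hz
      have b3 : (1 : ℝ) ≤ i := by exact_mod_cast b2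
      intro j
      fin_cases j
      · exact ⟨a0.1.le, a0.2⟩
      · exact ⟨a1.1.le, a1.2⟩
      · constructor
        · change 0 ≤ x 2
          linarith [a2.1]
        · change x 2 < 8 * k
          linarith [a2.2]
    have s2 : ∑ n ∈ p7_blocks, p7_FD k γ (4 * k * (1 : ℤ)) (Set.Ici (3 / 2))
        (Set.Ioo 0 (4 * k)) β τ (x - p7_t k n) * g x = 0 := by
      apply Finset.sum_eq_zero
      intro n hn
      rw [p7_FD_out, zero_mul]
      rintro ⟨a0, a1, a2⟩
      apply hx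
      rw [e4] at a0 a1
      have hall : ∀ i, 0 < (x - p7_t k n) i ∧ (x - p7_t k n) i < 4 * k := by
        intro i
        fin_cases i
        · exact a0
        · exact a1
        · exact a2
      unfold p7_blocks at hn
      rw [Fintype.mem_piFinset] at hn
      intro i
      have hni := hn i
      rw [Finset.mem_insert, Finset.mem_singleton] at hni
      have hai := hall i
      have e : (x - p7_t k n) i = x i - 4 * k * (n i : ℝ) := rfl
      rw [e] at hai
      rcases hni with hni | hni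
      · rw [hni] at hai
        simp only [Int.cast_zero, mul_zero, sub_zero] at hai
        exact ⟨hai.1.le, by linarith [hai.2]⟩
      · rw [hni] at hai
        simp only [Int.cast_one, mul_one] at hai
        exact ⟨by linarith [hai.1], by linarith [hai.2]⟩
    rw [s1, s2, add_zero]

/-- the small force is controlled by the strain in the core -/
theorem force_bound (k : ℕ) (hk : 5 ≤ k) (hk' : Odd k) (δ : ℝ) (hδ : 0 < δ) (hδ' : δ ≤ 1 / 10) :
    ∃ C : ℝ, 0 < C ∧ ∀ γ β τ : ℝ, 0 ≤ γ → γ ≤ 1 / 8 → ∀ ε₀ : M3, ∀ v ∈ Adm (8 * k) ε₀,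
      |∫ x in cell (8 * k), fz k γ β τ x * v x 2| ≤
        C * (|β| + |τ|) * √(∫ x in cell (8 * k) ∩ CoreS k δ, inn (strain v x) (strain v x)) := by
  classical
  have hp := fun i (hi : i ∈ p7_bars k) => p7_post_bound k hk δ hδ hδ' i hi
  choose! Cp hCp hCp' using hp
  have hc := fun n => p7_col_bound k hk δ n
  choose Cc hCc hCc' using hc
  refine ⟨∑ i ∈ p7_bars k, Cp i + ∑ n ∈ p7_blocks, Cc n + 1, ?_,
    fun γ β τ hγ hγ' ε₀ v hv => ?_⟩
  · have s1 : 0 ≤ ∑ i ∈ p7_bars k, Cp i := Finset.sum_nonneg fun i hi => (hCp i hi).le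
    have s2 : 0 ≤ ∑ n ∈ p7_blocks, Cc n := Finset.sum_nonneg fun n _ => (hCc n).le
    linarith
  · set E := √(∫ x in cell (8 * k) ∩ CoreS k δ, inn (strain v x) (strain v x)) with hE
    have hE0 : 0 ≤ E := Real.sqrt_nonneg _
    have e1 : ∫ x in cell (8 * k), fz k γ β τ x * v x 2 =
        ∑ i ∈ p7_bars k, (∫ x, p7_FD k γ (4 * k * (2 : ℤ)) (Set.Iio (3 / 2)) (p7_Z i) β τ x *
          v x 2) + ∑ n ∈ p7_blocks, ∫ x, p7_FD k γ (4 * k * (1 : ℤ)) (Set.Ici (3 / 2))
          (Set.Ioo 0 (4 * k)) β τ (x - p7_t k n) * v x 2 := by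
      rw [← integral_indicator (measurableSet_cell _),
        integral_congr_ae (p7_decomp k hk hγ hγ' β τ fun x => v x 2), integral_add,
        integral_finsetSum, integral_finsetSum]
      · intro n _
        exact (hCc' n γ β τ hγ hγ' ε₀ v hv).1
      · intro i hi
        exact (hCp' i hi γ β τ hγ hγ' ε₀ v hv).1
      · exact integrable_finsetSum _ fun i hi => (hCp' i hi γ β τ hγ hγ' ε₀ v hv).1
      · exact integrable_finsetSum _ fun n _ => (hCc' n γ β τ hγ hγ' ε₀ v hv).1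
    rw [e1]
    refine (abs_add_le _ _).trans ?_
    have b1 : |∑ i ∈ p7_bars k, ∫ x, p7_FD k γ (4 * k * (2 : ℤ)) (Set.Iio (3 / 2)) (p7_Z i) β τ x *
        v x 2| ≤ ∑ i ∈ p7_bars k, Cp i * (|β| + |τ|) * E :=
      (Finset.abs_sum_le_sum_abs _ _).trans
        (Finset.sum_le_sum fun i hi => (hCp' i hi γ β τ hγ hγ' ε₀ v hv).2)
    have b2 : |∑ n ∈ p7_blocks, ∫ x, p7_FD k γ (4 * k * (1 : ℤ)) (Set.Ici (3 / 2))
        (Set.Ioo 0 (4 * k)) β τ (x - p7_t k n) * v x 2| ≤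
          ∑ n ∈ p7_blocks, Cc n * (|β| + |τ|) * E :=
      (Finset.abs_sum_le_sum_abs _ _).trans
        (Finset.sum_le_sum fun n _ => (hCc' n γ β τ hγ hγ' ε₀ v hv).2)
    rw [← Finset.sum_mul, ← Finset.sum_mul] at b1 b2
    have b3 : 0 ≤ (|β| + |τ|) * E := by positivity
    calc _ ≤ _ := add_le_add b1 b2
      _ ≤ _ := by nlinarith

end Pool.Agent.ShearComposite.D3
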