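import Pool.Agent.ShearComposite3.Base3

/-!
# The base structure: the mechanism

The displacement which realises the dilation: the blocks are translated, the bars slide, and on the
leaves a correction of size one over the number of leaves cancels the shear.
-/

set_option autoImplicit false

open MeasureTheory
open scoped ContDiff Topology

namespace Pool.Agent.ShearComposite.D3

/-! ### gluing of local functions -/

/-- gluing of local functions -/
noncomputable def p8_glue (L : ℝ) (f : ℤ → ℝ → ℝ) (x : ℝ) : ℝ :=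
  f (round (x / L)) (x - L * round (x / L))

/-- compatibility of local functions -/
def p8_gc (L r : ℝ) (f : ℤ → ℝ → ℝ) : Prop :=
  ∀ (j : ℤ) (s : ℝ), r < s → s < L - r → f j s = f (j + 1) (s - L)

theorem p8_abs_sub_round {L : ℝ} (hL : 0 < L) (x : ℝ) : |x - L * round (x / L)| ≤ L / 2 := by
  have h := abs_sub_round (x / L)
  have h2 : x - L * round (x / L) = L * (x / L - round (x / L)) := by
    field_simp
  rw [h2, abs_mul, abs_of_pos hL]
  nlinarith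

theorem p8_glue_eq {L r : ℝ} {f : ℤ → ℝ → ℝ} (hL : 0 < L) (hr0 : 0 ≤ r) (h : p8_gc L r f)
    (x : ℝ) (j : ℤ) (hx : |x - L * j| < L - r) : p8_glue L f x = f j (x - L * j) := by
  have h1 := abs_le.mp (p8_abs_sub_round hL x)
  have hx' := abs_lt.mp hx
  unfold p8_glue
  set n : ℤ := round (x / L) with hn
  rcases lt_trichotomy n j with hlt | heq | hgt
  · -- n ≤ j - 1
    have h3 : j = n + 1 := by
      have : (j : ℝ) < n + 2 := by
        by_contra hcon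
        push Not at hcon
        nlinarith [hx'.1, h1.2]
      have h4 : j < n + 2 := by exact_mod_cast this
      omega
    subst h3
    have hc : (((n + 1 : ℤ)) : ℝ) = (n : ℝ) + 1 := by push_cast; ring
    rw [hc] at hx' ⊢
    have := h n (x - L * n) (by nlinarith [hx'.1]) (by nlinarith [h1.2])
    rw [this]
    congr 1
    ring
  · rw [heq]
  · have h3 : n = j + 1 := by
      have : (n : ℝ) < j + 2 := by
        by_contra hcon
        push Not at hcon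
        nlinarith [hx'.2, h1.1]
      have h4 : n < j + 2 := by exact_mod_cast this
      omega
    have hc : (n : ℝ) = (j : ℝ) + 1 := by rw [h3]; push_cast; ring
    rw [hc] at h1 ⊢
    have := h j (x - L * j) (by nlinarith [h1.1]) (by nlinarith [hx'.2])
    rw [this, h3]
    congr 1
    ring

theorem p8_glue_ev {L r : ℝ} {f : ℤ → ℝ → ℝ} (hL : 0 < L) (hr0 : 0 ≤ r) (h : p8_gc L r f)
    (x : ℝ) (j : ℤ) (hx : |x - L * j| < L - r) :
    p8_glue L f =ᶠ[𝓝 x] fun y => f j (y - L * j) := by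
  have hc : Continuous fun y : ℝ => |y - L * j| := by fun_prop
  have := hc.continuousAt.eventually_lt (continuousAt_const (y := L - r)) hx
  filter_upwards [this] with y hy
  exact p8_glue_eq hL hr0 h y j hy

theorem p8_glue_smooth {L r : ℝ} {f : ℤ → ℝ → ℝ} (hL : 0 < L) (hr0 : 0 ≤ r) (hr : r < L / 2) (h : p8_gc L r f)
    (hf : ∀ j, ContDiff ℝ ∞ (f j)) : ContDiff ℝ ∞ (p8_glue L f) := by
  rw [contDiff_iff_contDiffAt]
  intro x
  have h1 := p8_abs_sub_round hL x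
  have hev := p8_glue_ev hL hr0 h x (round (x / L)) (by linarith)
  refine ContDiffAt.congr_of_eventuallyEq ?_ hev
  exact ((hf _).comp (contDiff_id.sub contDiff_const)).contDiffAt

theorem p8_glue_hasDerivAt {L r : ℝ} {f : ℤ → ℝ → ℝ} (hL : 0 < L) (hr0 : 0 ≤ r) (hr : r < L / 2)
    (h : p8_gc L r f) (hf : ∀ j, ContDiff ℝ ∞ (f j)) (x : ℝ) :
    HasDerivAt (p8_glue L f) (p8_glue L (fun j => deriv (f j)) x) x := by
  have h1 := p8_abs_sub_round hL x
  have hev := p8_glue_ev hL hr0 h x (round (x / L)) (by linarith)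
  have hd : HasDerivAt (f (round (x / L))) (deriv (f (round (x / L))) (x - L * round (x / L)))
      (x - L * round (x / L)) :=
    ((hf _).differentiable (by simp)).differentiableAt.hasDerivAt
  have hd2 := HasDerivAt.comp_sub_const x (L * round (x / L)) hd
  exact hd2.congr_of_eventuallyEq hev

theorem p8_gc_deriv {L r : ℝ} {f : ℤ → ℝ → ℝ} (h : p8_gc L r f) :
    p8_gc L r (fun j => deriv (f j)) := by
  intro j s h1 h2
  have hev : f j =ᶠ[𝓝 s] fun y => f (j + 1) (y - L) := by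
    have h3 : ∀ᶠ y in 𝓝 s, r < y ∧ y < L - r :=
      (isOpen_Ioi.inter isOpen_Iio).mem_nhds ⟨h1, h2⟩
    filter_upwards [h3] with y hy
    exact h j y hy.1 hy.2
  have := hev.deriv_eq
  simp only
  rw [this]
  exact deriv_comp_sub_const _ _ _

theorem p8_round_add (x : ℝ) (n : ℤ) : round (x + n) = round x + n := round_add_intCast x n

theorem p8_glue_shift {L : ℝ} (hL : 0 < L) (f : ℤ → ℝ → ℝ) (n : ℤ) (x : ℝ) :
    p8_glue L f (x + L * n) = p8_glue L (fun j => f (j + n)) x := by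
  unfold p8_glue
  have h1 : (x + L * n) / L = x / L + n := by field_simp
  rw [h1, round_add_intCast]
  congr 1
  push_cast
  ring

/-! ### cutoff functions -/

theorem p8_cut_smooth (a b : ℝ) : ContDiff ℝ ∞ (cut a b) := by
  unfold cut
  exact Real.smoothTransition.contDiff.comp
    ((contDiff_const.sub (contDiff_id.pow 2)).div_const _)

theorem p8_cut_one {a b s : ℝ} (ha : 0 ≤ a) (hab : a < b) (hs : |s| ≤ a) : cut a b s = 1 := by
  unfold cut
  apply Real.smoothTransition.one_of_one_le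
  have h1 : 0 < b ^ 2 - a ^ 2 := by nlinarith
  rw [le_div_iff₀ h1]
  have : s ^ 2 ≤ a ^ 2 := by
    rw [← sq_abs s]
    nlinarith [abs_nonneg s]
  linarith

theorem p8_cut_zero {a b s : ℝ} (ha : 0 ≤ a) (hab : a < b) (hs : b ≤ |s|) : cut a b s = 0 := by
  unfold cut
  apply Real.smoothTransition.zero_of_nonpos
  have h1 : 0 < b ^ 2 - a ^ 2 := by nlinarith
  apply div_nonpos_of_nonpos_of_nonneg _ h1.le
  have : b ^ 2 ≤ s ^ 2 := by
    rw [← sq_abs s]
    nlinarith [abs_nonneg s]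
  linarith

theorem p8_cut_nonneg (a b s : ℝ) : 0 ≤ cut a b s := Real.smoothTransition.nonneg _

theorem p8_cut_le_one (a b s : ℝ) : cut a b s ≤ 1 := Real.smoothTransition.le_one _

theorem p8_dcut {a b s : ℝ} (ha : 0 ≤ a) (hab : a < b) (hs : |s| ≤ a ∨ b ≤ |s|) :
    deriv (cut a b) s = 0 := by
  rcases hs with hs | hs
  · apply IsLocalMax.deriv_eq_zero
    apply Filter.Eventually.of_forall
    intro y
    rw [p8_cut_one ha hab hs]
    exact p8_cut_le_one _ _ _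
  · apply IsLocalMin.deriv_eq_zero
    apply Filter.Eventually.of_forall
    intro y
    rw [p8_cut_zero ha hab hs]
    exact p8_cut_nonneg _ _ _

theorem p8_ddcut {a b s : ℝ} (ha : 0 ≤ a) (hab : a < b) (hs : b < |s|) :
    deriv (deriv (cut a b)) s = 0 := by
  have hev : deriv (cut a b) =ᶠ[𝓝 s] fun _ => (0 : ℝ) := by
    have h3 : ∀ᶠ y : ℝ in 𝓝 s, b < |y| :=
      (continuous_abs.isOpen_preimage _ isOpen_Ioi).mem_nhds hs
    filter_upwards [h3] with y hy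
    exact p8_dcut ha hab (Or.inr hy.le)
  rw [hev.deriv_eq]
  simp

/-! ### the step -/

theorem p8_st_smooth : ContDiff ℝ ∞ st := by
  unfold st
  exact Real.smoothTransition.contDiff.comp (contDiff_id.add contDiff_const)

theorem p8_st_zero {x : ℝ} (hx : x ≤ -1 / 2) : st x = 0 := by
  unfold st
  exact Real.smoothTransition.zero_of_nonpos (by linarith)

theorem p8_st_one {x : ℝ} (hx : 1 / 2 ≤ x) : st x = 1 := by
  unfold st
  exact Real.smoothTransition.one_of_one_le (by linarith)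

theorem p8_dst {x : ℝ} (hx : 1 / 2 < |x|) : deriv st x = 0 := by
  rcases lt_abs.mp hx with h | h
  · have hev : st =ᶠ[𝓝 x] fun _ => (1 : ℝ) := by
      filter_upwards [isOpen_Ioi.mem_nhds h] with y hy
      exact p8_st_one (le_of_lt hy)
    rw [hev.deriv_eq]
    simp
  · have hev : st =ᶠ[𝓝 x] fun _ => (0 : ℝ) := by
      have h' : x < -1 / 2 := by linarith
      filter_upwards [isOpen_Iio.mem_nhds h'] with y hy
      exact p8_st_zero (le_of_lt hy)
    rw [hev.deriv_eq]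
    simp

/-! ### the profile functions of the mechanism -/

/-- sliding direction of a bar, zero if there is no bar -/
noncomputable def p8_kb (k : ℕ) (i : ℤ) : ℝ := by
  classical exact if barIdx k i then kap k i else 0

noncomputable def p8_zeF (k : ℕ) (i : ℤ) (s : ℝ) : ℝ := p8_kb k i * cut (3 / 4) 1 s
noncomputable def p8_gF (_ : ℤ) (s : ℝ) : ℝ := cut (3 / 4) 1 s
noncomputable def p8_psF (_ : ℤ) (s : ℝ) : ℝ := cut 1 2 s
noncomputable def p8_sg (s : ℝ) : ℝ := (1 - cut 1 2 s) * (2 * st s - 1)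
noncomputable def p8_cF (k : ℕ) (j : ℤ) (s : ℝ) : ℝ := 4 * k * j + 2 * k * p8_sg s
noncomputable def p8_PF (σ : ℝ) (j : ℤ) (s : ℝ) : ℝ := cut (1 / 5) (2 / 5) (s - σ * (-1) ^ j / 2)
noncomputable def p8_hF (_ : ℤ) (s : ℝ) : ℝ := (rab s - 3 / 2) * cut (21 / 10) (29 / 10) s
noncomputable def p8_GF (_ : ℤ) (s : ℝ) : ℝ := s * cut (3 / 10) (2 / 5) s

theorem p8_abs_cases {s r : ℝ} (h : r ≤ s ∨ s ≤ -r) : r ≤ |s| := le_abs.mpr (by
  rcases h with h | h
  · exact Or.inl h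
  · exact Or.inr (by linarith))

theorem p8_zeF_gc (k : ℕ) : p8_gc 4 1 (p8_zeF k) := by
  intro j s h1 h2
  unfold p8_zeF
  rw [p8_cut_zero (by norm_num) (by norm_num) (p8_abs_cases (Or.inl h1.le)),
    p8_cut_zero (by norm_num) (by norm_num) (p8_abs_cases (Or.inr (by linarith)))]
  simp

theorem p8_gF_gc : p8_gc 4 1 p8_gF := by
  intro j s h1 h2
  unfold p8_gF
  rw [p8_cut_zero (by norm_num) (by norm_num) (p8_abs_cases (Or.inl h1.le)),
    p8_cut_zero (by norm_num) (by norm_num) (p8_abs_cases (Or.inr (by linarith)))]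

theorem p8_psF_gc (L : ℝ) : p8_gc L 2 p8_psF := by
  intro j s h1 h2
  unfold p8_psF
  rw [p8_cut_zero (by norm_num) (by norm_num) (p8_abs_cases (Or.inl h1.le)),
    p8_cut_zero (by norm_num) (by norm_num) (p8_abs_cases (Or.inr (by linarith)))]

theorem p8_sg_pos {s : ℝ} (h : 2 ≤ s) : p8_sg s = 1 := by
  unfold p8_sg
  rw [p8_cut_zero (by norm_num) (by norm_num) (p8_abs_cases (Or.inl h)), p8_st_one (by linarith)]
  norm_num

theorem p8_sg_neg {s : ℝ} (h : s ≤ -2) : p8_sg s = -1 := by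
  unfold p8_sg
  rw [p8_cut_zero (by norm_num) (by norm_num) (p8_abs_cases (Or.inr h)), p8_st_zero (by linarith)]
  norm_num

theorem p8_cF_gc (k : ℕ) : p8_gc (4 * k) 2 (p8_cF k) := by
  intro j s h1 h2
  unfold p8_cF
  rw [p8_sg_pos h1.le, p8_sg_neg (by linarith)]
  push_cast
  ring

theorem p8_sgn_zpow (j : ℤ) : ((-1 : ℝ) ^ j) = 1 ∨ ((-1 : ℝ) ^ j) = -1 := by
  rcases Int.even_or_odd j with h | h
  · left; exact h.neg_one_zpow
  · right; exact h.neg_one_zpow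

theorem p8_PF_gc (L σ : ℝ) (hσ : σ = 1 ∨ σ = -1) : p8_gc L 1 (p8_PF σ) := by
  intro j s h1 h2
  unfold p8_PF
  have e1 := p8_sgn_zpow j
  have e2 := p8_sgn_zpow (j + 1)
  rw [p8_cut_zero (by norm_num) (by norm_num) (p8_abs_cases (Or.inl _)),
    p8_cut_zero (by norm_num) (by norm_num) (p8_abs_cases (Or.inr _))]
  · rcases hσ with rfl | rfl <;> rcases e2 with e | e <;> rw [e] <;> linarith
  · rcases hσ with rfl | rfl <;> rcases e1 with e | e <;> rw [e] <;> linarith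

theorem p8_hF_gc (L : ℝ) : p8_gc L 3 p8_hF := by
  intro j s h1 h2
  unfold p8_hF
  rw [p8_cut_zero (by norm_num) (by norm_num) (p8_abs_cases (Or.inl (by linarith))),
    p8_cut_zero (by norm_num) (by norm_num) (p8_abs_cases (Or.inr (by linarith)))]
  simp

theorem p8_GF_gc : p8_gc 1 (2 / 5) p8_GF := by
  intro j s h1 h2
  unfold p8_GF
  rw [p8_cut_zero (by norm_num) (by norm_num) (p8_abs_cases (Or.inl (by linarith))),
    p8_cut_zero (by norm_num) (by norm_num) (p8_abs_cases (Or.inr (by linarith)))]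
  simp

theorem p8_zeF_s (k : ℕ) (j : ℤ) : ContDiff ℝ ∞ (p8_zeF k j) :=
  contDiff_const.mul (p8_cut_smooth _ _)

theorem p8_gF_s (j : ℤ) : ContDiff ℝ ∞ (p8_gF j) := p8_cut_smooth _ _

theorem p8_psF_s (j : ℤ) : ContDiff ℝ ∞ (p8_psF j) := p8_cut_smooth _ _

theorem p8_sg_s : ContDiff ℝ ∞ p8_sg :=
  (contDiff_const.sub (p8_cut_smooth _ _)).mul ((contDiff_const.mul p8_st_smooth).sub
    contDiff_const)

theorem p8_cF_s (k : ℕ) (j : ℤ) : ContDiff ℝ ∞ (p8_cF k j) :=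
  contDiff_const.add (contDiff_const.mul p8_sg_s)

theorem p8_PF_s (σ : ℝ) (j : ℤ) : ContDiff ℝ ∞ (p8_PF σ j) :=
  (p8_cut_smooth _ _).comp (contDiff_id.sub contDiff_const)

theorem p8_rab_s : ContDiff ℝ ∞ rab := by
  have : rab = fun x => 2 * (x * st x) - x := rfl
  rw [this]
  exact (contDiff_const.mul (contDiff_id.mul p8_st_smooth)).sub contDiff_id

theorem p8_hF_s (j : ℤ) : ContDiff ℝ ∞ (p8_hF j) :=
  (p8_rab_s.sub contDiff_const).mul (p8_cut_smooth _ _)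

theorem p8_GF_s (j : ℤ) : ContDiff ℝ ∞ (p8_GF j) := contDiff_id.mul (p8_cut_smooth _ _)

theorem p8_deriv_s {f : ℝ → ℝ} (hf : ContDiff ℝ ∞ f) : ContDiff ℝ ∞ (deriv f) :=
  (contDiff_infty_iff_deriv.mp hf).2

/-! ### glued functions -/

noncomputable def p8_ze (k : ℕ) (x : ℝ) : ℝ := p8_glue 4 (p8_zeF k) x
noncomputable def p8_zed (k : ℕ) (x : ℝ) : ℝ := p8_glue 4 (fun i => deriv (p8_zeF k i)) x
noncomputable def p8_g (x : ℝ) : ℝ := p8_glue 4 p8_gF (x - 2)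
noncomputable def p8_gd (x : ℝ) : ℝ := p8_glue 4 (fun i => deriv (p8_gF i)) (x - 2)
noncomputable def p8_ps (k : ℕ) (x : ℝ) : ℝ := p8_glue (4 * k) p8_psF x
noncomputable def p8_ps1 (k : ℕ) (x : ℝ) : ℝ := p8_glue (4 * k) (fun i => deriv (p8_psF i)) x
noncomputable def p8_ps2 (k : ℕ) (x : ℝ) : ℝ :=
  p8_glue (4 * k) (fun i => deriv (deriv (p8_psF i))) x
noncomputable def p8_c (k : ℕ) (x : ℝ) : ℝ := p8_glue (4 * k) (p8_cF k) x
noncomputable def p8_cd (k : ℕ) (x : ℝ) : ℝ := p8_glue (4 * k) (fun i => deriv (p8_cF k i)) x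
noncomputable def p8_P (k : ℕ) (σ x : ℝ) : ℝ := p8_glue (4 * k) (p8_PF σ) x
noncomputable def p8_Pd (k : ℕ) (σ x : ℝ) : ℝ := p8_glue (4 * k) (fun i => deriv (p8_PF σ i)) x
noncomputable def p8_hd (k : ℕ) (x : ℝ) : ℝ := p8_glue (4 * k) (fun i => deriv (p8_hF i)) x
noncomputable def p8_G (x : ℝ) : ℝ := p8_glue 1 p8_GF (x - 1 / 2)
noncomputable def p8_Gd (x : ℝ) : ℝ := p8_glue 1 (fun i => deriv (p8_GF i)) (x - 1 / 2)

theorem p8_hh_eq (k : ℕ) : hh k = p8_glue (4 * k) p8_hF := rfl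

theorem p8_L {k : ℕ} (hk : 5 ≤ k) : (20 : ℝ) ≤ 4 * k := by
  have : (5 : ℝ) ≤ k := by exact_mod_cast hk
  linarith

section smooth

variable {k : ℕ} (hk : 5 ≤ k)
include hk

theorem p8_ps_s : ContDiff ℝ ∞ (p8_ps k) :=
  p8_glue_smooth (by linarith [p8_L hk]) (by norm_num) (by linarith [p8_L hk]) (p8_psF_gc _)
    p8_psF_s

theorem p8_ps1_s : ContDiff ℝ ∞ (p8_ps1 k) :=
  p8_glue_smooth (by linarith [p8_L hk]) (by norm_num) (by linarith [p8_L hk])
    (p8_gc_deriv (p8_psF_gc _)) (fun j => p8_deriv_s (p8_psF_s j))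

theorem p8_c_s : ContDiff ℝ ∞ (p8_c k) :=
  p8_glue_smooth (by linarith [p8_L hk]) (by norm_num) (by linarith [p8_L hk]) (p8_cF_gc _)
    (p8_cF_s k)

theorem p8_P_s {σ : ℝ} (hσ : σ = 1 ∨ σ = -1) : ContDiff ℝ ∞ (p8_P k σ) :=
  p8_glue_smooth (by linarith [p8_L hk]) (by norm_num) (by linarith [p8_L hk])
    (p8_PF_gc _ σ hσ) (p8_PF_s σ)

theorem p8_hh_s : ContDiff ℝ ∞ (hh k) := by
  rw [p8_hh_eq]
  exact p8_glue_smooth (by linarith [p8_L hk]) (by norm_num) (by linarith [p8_L hk])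
    (p8_hF_gc _) p8_hF_s

theorem p8_ps_d (x : ℝ) : HasDerivAt (p8_ps k) (p8_ps1 k x) x :=
  p8_glue_hasDerivAt (by linarith [p8_L hk]) (by norm_num) (by linarith [p8_L hk])
    (p8_psF_gc _) p8_psF_s x

theorem p8_ps1_d (x : ℝ) : HasDerivAt (p8_ps1 k) (p8_ps2 k x) x :=
  p8_glue_hasDerivAt (by linarith [p8_L hk]) (by norm_num) (by linarith [p8_L hk])
    (p8_gc_deriv (p8_psF_gc _)) (fun j => p8_deriv_s (p8_psF_s j)) x

theorem p8_c_d (x : ℝ) : HasDerivAt (p8_c k) (p8_cd k x) x :=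
  p8_glue_hasDerivAt (by linarith [p8_L hk]) (by norm_num) (by linarith [p8_L hk])
    (p8_cF_gc _) (p8_cF_s k) x

theorem p8_P_d {σ : ℝ} (hσ : σ = 1 ∨ σ = -1) (x : ℝ) :
    HasDerivAt (p8_P k σ) (p8_Pd k σ x) x :=
  p8_glue_hasDerivAt (by linarith [p8_L hk]) (by norm_num) (by linarith [p8_L hk])
    (p8_PF_gc _ σ hσ) (p8_PF_s σ) x

theorem p8_hh_d (x : ℝ) : HasDerivAt (hh k) (p8_hd k x) x :=
  p8_glue_hasDerivAt (by linarith [p8_L hk]) (by norm_num) (by linarith [p8_L hk])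
    (p8_hF_gc _) p8_hF_s x

end smooth

theorem p8_ze_s (k : ℕ) : ContDiff ℝ ∞ (p8_ze k) :=
  p8_glue_smooth (by norm_num) (by norm_num) (by norm_num) (p8_zeF_gc k) (p8_zeF_s k)

theorem p8_g_s : ContDiff ℝ ∞ p8_g :=
  (p8_glue_smooth (by norm_num) (by norm_num) (by norm_num) p8_gF_gc p8_gF_s).comp
    (contDiff_id.sub contDiff_const)

theorem p8_G_s : ContDiff ℝ ∞ p8_G :=
  (p8_glue_smooth (by norm_num) (by norm_num) (by norm_num) p8_GF_gc p8_GF_s).comp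
    (contDiff_id.sub contDiff_const)

theorem p8_ze_d (k : ℕ) (x : ℝ) : HasDerivAt (p8_ze k) (p8_zed k x) x :=
  p8_glue_hasDerivAt (by norm_num) (by norm_num) (by norm_num) (p8_zeF_gc k) (p8_zeF_s k) x

theorem p8_g_d (x : ℝ) : HasDerivAt p8_g (p8_gd x) x :=
  HasDerivAt.comp_sub_const x 2 (p8_glue_hasDerivAt (by norm_num) (by norm_num) (by norm_num)
    p8_gF_gc p8_gF_s (x - 2))

theorem p8_G_d (x : ℝ) : HasDerivAt p8_G (p8_Gd x) x :=
  HasDerivAt.comp_sub_const x (1 / 2) (p8_glue_hasDerivAt (by norm_num) (by norm_num)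
    (by norm_num) p8_GF_gc p8_GF_s (x - 1 / 2))

/-! ### values -/

theorem p8_xi_ge {L x r : ℝ} (hL : 0 < L) (j : ℤ) (h1 : r ≤ x - L * j)
    (h2 : x - L * j ≤ L - r) : r ≤ |xi L x| := by
  unfold xi
  set n : ℤ := round (x / L) with hn
  rcases le_or_gt n j with h | h
  · have h' : (n : ℝ) ≤ j := by exact_mod_cast h
    apply le_abs.mpr
    left
    nlinarith
  · have h' : (j : ℝ) + 1 ≤ n := by exact_mod_cast h
    apply le_abs.mpr
    right
    nlinarith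

theorem p8_xi_le {L x : ℝ} (hL : 0 < L) (j : ℤ) : |xi L x| ≤ |x - L * j| := by
  have h := round_le (x / L) j
  have e1 : xi L x = L * (x / L - round (x / L)) := by unfold xi; field_simp
  have e2 : x - L * j = L * (x / L - j) := by field_simp
  rw [e1, e2, abs_mul, abs_mul, abs_of_pos hL]
  exact mul_le_mul_of_nonneg_left h hL.le

theorem p8_abs_cases' {s r : ℝ} (h : r ≤ |s|) : r ≤ s ∨ s ≤ -r := by
  rcases le_abs.mp h with h | h
  · exact Or.inl h
  · exact Or.inr (by linarith)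

/-- derivative of the level profile -/
theorem p8_PF_deriv (σ : ℝ) (j : ℤ) (s : ℝ) :
    deriv (p8_PF σ j) s = deriv (cut (1 / 5) (2 / 5)) (s - σ * (-1) ^ j / 2) := by
  have : p8_PF σ j = fun s => cut (1 / 5) (2 / 5) (s - σ * (-1) ^ j / 2) := rfl
  rw [this, deriv_comp_sub_const]

theorem p8_sg_deriv (s : ℝ) : deriv p8_sg s =
    -(deriv (cut 1 2) s) * (2 * st s - 1) + (1 - cut 1 2 s) * (2 * deriv st s) := by
  have h1 : HasDerivAt (cut 1 2) (deriv (cut 1 2) s) s :=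
    ((p8_cut_smooth 1 2).differentiable (by simp)).differentiableAt.hasDerivAt
  have h2 : HasDerivAt st (deriv st s) s :=
    (p8_st_smooth.differentiable (by simp)).differentiableAt.hasDerivAt
  have h3 := (h1.const_sub 1).mul ((h2.const_mul 2).sub_const 1)
  exact h3.deriv

theorem p8_cF_deriv (k : ℕ) (j : ℤ) (s : ℝ) : deriv (p8_cF k j) s = 2 * k * deriv p8_sg s := by
  have h1 : HasDerivAt p8_sg (deriv p8_sg s) s :=
    (p8_sg_s.differentiable (by simp)).differentiableAt.hasDerivAt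
  exact ((h1.const_mul (2 * (k : ℝ))).const_add (4 * (k : ℝ) * j)).deriv

theorem p8_sgd_zero {s : ℝ} (h : |s| ≤ 1 ∨ 2 ≤ |s|) : deriv p8_sg s = 0 := by
  rw [p8_sg_deriv, p8_dcut (by norm_num) (by norm_num) h]
  rcases h with h | h
  · rw [p8_cut_one (by norm_num) (by norm_num) h]; ring
  · rw [p8_dst (by linarith)]; ring

/-- values far from the walls -/
structure p8_Far (k : ℕ) (x : ℝ) : Prop where
  ps : p8_ps k x = 0
  ps1 : p8_ps1 k x = 0
  cd : p8_cd k x = 0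
  P : ∀ σ : ℝ, σ = 1 ∨ σ = -1 → p8_P k σ x = 0
  Pd : ∀ σ : ℝ, σ = 1 ∨ σ = -1 → p8_Pd k σ x = 0

theorem p8_far {k : ℕ} {x : ℝ} (hx : 2 ≤ |xi (4 * k) x|) : p8_Far k x := by
  refine ⟨?_, ?_, ?_, ?_, ?_⟩
  · exact p8_cut_zero (by norm_num) (by norm_num) hx
  · exact p8_dcut (by norm_num) (by norm_num) (Or.inr hx)
  · have : p8_cd k x = deriv (p8_cF k (round (x / (4 * k)))) (xi (4 * k) x) := rfl
    rw [this, p8_cF_deriv, p8_sgd_zero (Or.inr hx), mul_zero]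
  · intro σ hσ
    have e : p8_P k σ x = cut (1 / 5) (2 / 5)
      (xi (4 * k) x - σ * (-1) ^ (round (x / (4 * k))) / 2) := rfl
    rw [e]
    apply p8_cut_zero (by norm_num) (by norm_num)
    apply p8_abs_cases
    rcases p8_abs_cases' hx with h | h <;> rcases hσ with rfl | rfl <;>
      rcases p8_sgn_zpow (round (x / (4 * k))) with e | e <;> rw [e]
    all_goals first | (left; linarith) | (right; linarith)
  · intro σ hσ
    have e : p8_Pd k σ x = deriv (p8_PF σ (round (x / (4 * k)))) (xi (4 * k) x) := rfl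
    rw [e, p8_PF_deriv]
    apply p8_dcut (by norm_num) (by norm_num)
    right
    apply p8_abs_cases
    rcases p8_abs_cases' hx with h | h <;> rcases hσ with rfl | rfl <;>
      rcases p8_sgn_zpow (round (x / (4 * k))) with e | e <;> rw [e]
    all_goals first | (left; linarith) | (right; linarith)

theorem p8_far_ps2 {k : ℕ} {x : ℝ} (hx : 3 ≤ |xi (4 * k) x|) : p8_ps2 k x = 0 :=
  p8_ddcut (a := 1) (b := 2) (by norm_num) (by norm_num) (lt_of_lt_of_le (by norm_num) hx)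

theorem p8_near {k : ℕ} {x : ℝ} (hx : |xi (4 * k) x| ≤ 1) :
    p8_ps k x = 1 ∧ p8_ps1 k x = 0 ∧ p8_cd k x = 0 := by
  refine ⟨?_, ?_, ?_⟩
  · exact p8_cut_one (by norm_num) (by norm_num) hx
  · exact p8_dcut (by norm_num) (by norm_num) (Or.inl hx)
  · have : p8_cd k x = deriv (p8_cF k (round (x / (4 * k)))) (xi (4 * k) x) := rfl
    rw [this, p8_cF_deriv, p8_sgd_zero (Or.inl hx), mul_zero]

theorem p8_kb_zero {k : ℕ} {i : ℤ} (h : ¬ barIdx k i) : p8_kb k i = 0 := by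
  unfold p8_kb
  simp [h]

theorem p8_kb_bar {k : ℕ} {i : ℤ} (h : barIdx k i) : p8_kb k i = kap k i := by
  unfold p8_kb
  simp [h]

theorem p8_kap_abs (k : ℕ) (i : ℤ) : kap k i = -1 ∨ kap k i = 1 := by
  unfold kap
  split_ifs <;> simp

theorem p8_kb_abs (k : ℕ) (i : ℤ) : |p8_kb k i| ≤ 1 := by
  by_cases h : barIdx k i
  · rw [p8_kb_bar h]
    rcases p8_kap_abs k i with e | e <;> rw [e] <;> norm_num
  · rw [p8_kb_zero h]
    norm_num

/-- position of a bar -/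
theorem p8_bar_pos {k : ℕ} (hk : 5 ≤ k) {i : ℤ} (h : barIdx k i) {z r : ℝ}
    (hz : |z - 4 * i| ≤ r) : 8 - r ≤ |xi (4 * k) z| := by
  have hL := p8_L hk
  have hz' := abs_le.mp hz
  have hi : (i : ℝ) = k * ((i / (k : ℤ) : ℤ) : ℝ) + ((i % (k : ℤ) : ℤ) : ℝ) := by
    have := Int.mul_ediv_add_emod i (k : ℤ)
    exact_mod_cast this.symm
  have h1 : (2 : ℝ) ≤ ((i % (k : ℤ) : ℤ) : ℝ) := by exact_mod_cast h.1
  have h2 : ((i % (k : ℤ) : ℤ) : ℝ) ≤ k - 2 := by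
    have := h.2
    exact_mod_cast this
  apply p8_xi_ge (by linarith) (i / (k : ℤ))
  · rw [hi] at hz'
    linarith [hz'.1]
  · rw [hi] at hz'
    linarith [hz'.2]

theorem p8_gap_pos {k : ℕ} (hk : 5 ≤ k) {i : ℤ} (h : gapIdx k i) {z r : ℝ}
    (hz : |z - (4 * i + 2)| ≤ r) : 6 - r ≤ |xi (4 * k) z| := by
  have hL := p8_L hk
  have hz' := abs_le.mp hz
  have hi : (i : ℝ) = k * ((i / (k : ℤ) : ℤ) : ℝ) + ((i % (k : ℤ) : ℤ) : ℝ) := by
    have := Int.mul_ediv_add_emod i (k : ℤ)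
    exact_mod_cast this.symm
  have h1 : (1 : ℝ) ≤ ((i % (k : ℤ) : ℤ) : ℝ) := by exact_mod_cast h.1
  have h2 : ((i % (k : ℤ) : ℤ) : ℝ) ≤ k - 2 := by
    have := h.2
    exact_mod_cast this
  apply p8_xi_ge (by linarith) (i / (k : ℤ))
  · rw [hi] at hz'
    linarith [hz'.1]
  · rw [hi] at hz'
    linarith [hz'.2]

theorem p8_zeF_deriv (k : ℕ) (i : ℤ) (s : ℝ) :
    deriv (p8_zeF k i) s = p8_kb k i * deriv (cut (3 / 4) 1) s := by
  have h1 : HasDerivAt (cut (3 / 4) 1) (deriv (cut (3 / 4) 1) s) s :=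
    ((p8_cut_smooth _ _).differentiable (by simp)).differentiableAt.hasDerivAt
  exact (h1.const_mul (p8_kb k i)).deriv

/-- near the walls there are no bars -/
theorem p8_ze_near {k : ℕ} (hk : 5 ≤ k) {x : ℝ} (hx : |xi (4 * k) x| ≤ 3) :
    p8_ze k x = 0 ∧ p8_zed k x = 0 := by
  have h : ¬ barIdx k (round (x / 4)) := by
    intro hb
    have h1 : |x - 4 * ((round (x / 4) : ℤ) : ℝ)| ≤ 2 := by
      have := p8_abs_sub_round (L := 4) (by norm_num) x
      linarith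
    have := p8_bar_pos hk hb h1
    linarith
  constructor
  · have e : p8_ze k x = p8_zeF k (round (x / 4)) (x - 4 * round (x / 4)) := rfl
    rw [e]
    unfold p8_zeF
    rw [p8_kb_zero h, zero_mul]
  · have e : p8_zed k x = deriv (p8_zeF k (round (x / 4))) (x - 4 * round (x / 4)) := rfl
    rw [e, p8_zeF_deriv, p8_kb_zero h, zero_mul]

/-- values in the bars -/
structure p8_Bar (k : ℕ) (x : ℝ) : Prop where
  far : p8_Far k x
  ps2 : p8_ps2 k x = 0
  zed : p8_zed k x = 0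
  g : p8_g x = 0
  gd : p8_gd x = 0

theorem p8_ze_at (k : ℕ) (i : ℤ) {x : ℝ} (hx : |x - 4 * i| < 3) :
    p8_ze k x = p8_zeF k i (x - 4 * i) := by
  have := p8_glue_eq (by norm_num) (by norm_num) (p8_zeF_gc k) x i (by linarith)
  exact this

theorem p8_zed_at (k : ℕ) (i : ℤ) {x : ℝ} (hx : |x - 4 * i| < 3) :
    p8_zed k x = p8_kb k i * deriv (cut (3 / 4) 1) (x - 4 * i) := by
  have := p8_glue_eq (by norm_num) (by norm_num) (p8_gc_deriv (p8_zeF_gc k)) x i (by linarith)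
  rw [← p8_zeF_deriv]
  exact this

theorem p8_g_at (i : ℤ) {x : ℝ} (hx : |x - 2 - 4 * i| < 3) :
    p8_g x = cut (3 / 4) 1 (x - 2 - 4 * i) :=
  p8_glue_eq (by norm_num) (by norm_num) p8_gF_gc (x - 2) i (by linarith)

theorem p8_gd_at (i : ℤ) {x : ℝ} (hx : |x - 2 - 4 * i| < 3) :
    p8_gd x = deriv (cut (3 / 4) 1) (x - 2 - 4 * i) :=
  p8_glue_eq (by norm_num) (by norm_num) (p8_gc_deriv p8_gF_gc) (x - 2) i (by linarith)

theorem p8_bar {k : ℕ} (hk : 5 ≤ k) {x : ℝ} (hx : InBar k x) : p8_Bar k x := by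
  obtain ⟨i, hi, hx⟩ := hx
  have hpos := p8_bar_pos hk hi hx
  have hx' := abs_le.mp hx
  have h3 : |x - 2 - 4 * i| < 3 := by
    rw [abs_lt]; constructor <;> linarith
  have h4 : 1 ≤ |x - 2 - 4 * i| := p8_abs_cases (Or.inr (by linarith))
  refine ⟨p8_far (by linarith), p8_far_ps2 (by linarith), ?_, ?_, ?_⟩
  · rw [p8_zed_at k i (by linarith), p8_dcut (by norm_num) (by norm_num) (Or.inl hx), mul_zero]
  · rw [p8_g_at i h3]
    exact p8_cut_zero (by norm_num) (by norm_num) h4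
  · rw [p8_gd_at i h3]
    exact p8_dcut (by norm_num) (by norm_num) (Or.inr h4)

/-- values in the gaps -/
structure p8_Gap (k : ℕ) (x : ℝ) : Prop where
  far : p8_Far k x
  ps2 : p8_ps2 k x = 0
  ze : p8_ze k x = 0
  zed : p8_zed k x = 0
  g : p8_g x = 1
  gd : p8_gd x = 0

theorem p8_gap {k : ℕ} (hk : 5 ≤ k) {x : ℝ} (hx : InGap k x) : p8_Gap k x := by
  obtain ⟨i, hi, hx⟩ := hx
  have hpos := p8_gap_pos hk hi hx
  have hx' := abs_le.mp hx
  have h3 : |x - 2 - 4 * i| ≤ 3 / 4 := by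
    rw [abs_le]; constructor <;> linarith
  have h5 : |x - 4 * i| < 3 := by
    rw [abs_lt]; constructor <;> linarith
  have h4 : 1 ≤ |x - 4 * i| := p8_abs_cases (Or.inl (by linarith))
  refine ⟨p8_far (by linarith), p8_far_ps2 (by linarith), ?_, ?_, ?_, ?_⟩
  · rw [p8_ze_at k i h5]
    unfold p8_zeF
    rw [p8_cut_zero (by norm_num) (by norm_num) h4, mul_zero]
  · rw [p8_zed_at k i h5, p8_dcut (by norm_num) (by norm_num) (Or.inr h4), mul_zero]
  · rw [p8_g_at i (by linarith)]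
    exact p8_cut_one (by norm_num) (by norm_num) h3
  · rw [p8_gd_at i (by linarith)]
    exact p8_dcut (by norm_num) (by norm_num) (Or.inl h3)

/-- values at the levels -/
structure p8_Level (k : ℕ) (σ x : ℝ) : Prop where
  xi_le : |xi (4 * k) x| ≤ 1
  P : p8_P k σ x = 1
  Pd : p8_Pd k σ x = 0
  P' : p8_P k (-σ) x = 0
  Pd' : p8_Pd k (-σ) x = 0
  g : p8_g x = 0
  gd : p8_gd x = 0

theorem p8_level {k : ℕ} (hk : 5 ≤ k) {δ σ x : ℝ} (hδ : δ ≤ 1 / 10) (hσ : σ = 1 ∨ σ = -1)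
    (hx : Lev k δ σ x) : p8_Level k σ x := by
  obtain ⟨j, hx⟩ := hx
  have hL := p8_L hk
  have hx1 := abs_le.mp hx
  have hj := p8_sgn_zpow j
  have hσ' : -σ = 1 ∨ -σ = -1 := by rcases hσ with rfl | rfl <;> simp
  have h1 : |x - 4 * k * j| ≤ 3 / 5 := by
    rw [abs_le]
    rcases hσ with rfl | rfl <;> rcases hj with e | e <;> rw [e] at hx1 <;> constructor <;>
      linarith [hx1.1, hx1.2]
  have h1' := abs_le.mp h1
  have h2 : |x - 4 * k * j| < 4 * k - 1 := by linarith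
  have g1 : |x - 2 - 4 * ((k * j : ℤ) : ℝ)| < 3 := by
    push_cast
    rw [abs_lt]; constructor <;> linarith
  have g2 : 1 ≤ |x - 2 - 4 * ((k * j : ℤ) : ℝ)| := by
    push_cast
    exact p8_abs_cases (Or.inr (by linarith))
  refine ⟨?_, ?_, ?_, ?_, ?_, ?_, ?_⟩
  · have := p8_xi_le (L := 4 * k) (x := x) (by linarith) j
    linarith
  · have := p8_glue_eq (by linarith) (by norm_num) (p8_PF_gc (4 * k) σ hσ) x j h2
    unfold p8_P
    rw [this]
    unfold p8_PF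
    apply p8_cut_one (by norm_num) (by norm_num)
    rw [abs_le]; constructor <;> linarith
  · have := p8_glue_eq (by linarith) (by norm_num) (p8_gc_deriv (p8_PF_gc (4 * k) σ hσ)) x j h2
    unfold p8_Pd
    rw [this, p8_PF_deriv]
    apply p8_dcut (by norm_num) (by norm_num)
    left
    rw [abs_le]; constructor <;> linarith
  · have := p8_glue_eq (by linarith) (by norm_num) (p8_PF_gc (4 * k) (-σ) hσ') x j h2
    unfold p8_P
    rw [this]
    unfold p8_PF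
    apply p8_cut_zero (by norm_num) (by norm_num)
    apply p8_abs_cases
    rcases hσ with rfl | rfl <;> rcases hj with e | e <;> rw [e] at hx1 ⊢
    all_goals first | (left; linarith) | (right; linarith)
  · have := p8_glue_eq (by linarith) (by norm_num) (p8_gc_deriv (p8_PF_gc (4 * k) (-σ) hσ')) x
      j h2
    unfold p8_Pd
    rw [this, p8_PF_deriv]
    apply p8_dcut (by norm_num) (by norm_num)
    right
    apply p8_abs_cases
    rcases hσ with rfl | rfl <;> rcases hj with e | e <;> rw [e] at hx1 ⊢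
    all_goals first | (left; linarith) | (right; linarith)
  · rw [p8_g_at _ g1]
    exact p8_cut_zero (by norm_num) (by norm_num) g2
  · rw [p8_gd_at _ g1]
    exact p8_dcut (by norm_num) (by norm_num) (Or.inr g2)

/-! ### the leaf zone -/

theorem p8_rab_deriv {s : ℝ} (hs : 1 / 2 < |s|) : deriv rab s = 2 * st s - 1 := by
  have h2 : HasDerivAt st (deriv st s) s :=
    (p8_st_smooth.differentiable (by simp)).differentiableAt.hasDerivAt
  have e : rab = fun x => 2 * (x * st x) - x := rfl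
  have h3 : HasDerivAt rab (2 * (1 * st s + s * deriv st s) - 1) s := by
    rw [e]
    exact (((hasDerivAt_id s).mul h2).const_mul 2).sub (hasDerivAt_id s)
  rw [h3.deriv, p8_dst hs]
  ring

theorem p8_hd_leaf {k : ℕ} {x : ℝ} (h1 : 1 ≤ |xi (4 * k) x|) (h2 : |xi (4 * k) x| ≤ 2) :
    p8_hd k x = 2 * st (xi (4 * k) x) - 1 := by
  have e : p8_hd k x = deriv (p8_hF (round (x / (4 * k)))) (xi (4 * k) x) := rfl
  rw [e]
  set s := xi (4 * k) x with hs
  have h3 : HasDerivAt (cut (21 / 10) (29 / 10)) 0 s := by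
    have := ((p8_cut_smooth (21 / 10) (29 / 10)).differentiable
      (by simp)).differentiableAt.hasDerivAt (x := s)
    rwa [p8_dcut (by norm_num) (by norm_num) (Or.inl (by linarith))] at this
  have h4 : HasDerivAt rab (2 * st s - 1) s := by
    have := (p8_rab_s.differentiable (by simp)).differentiableAt.hasDerivAt (x := s)
    rwa [p8_rab_deriv (by linarith)] at this
  have h5 : HasDerivAt (p8_hF (round (x / (4 * k))))
      ((2 * st s - 1) * cut (21 / 10) (29 / 10) s + (rab s - 3 / 2) * 0) s :=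
    (h4.sub_const (3 / 2)).mul h3
  rw [h5.deriv, p8_cut_one (by norm_num) (by norm_num) (by linarith)]
  ring

theorem p8_cd_leaf {k : ℕ} {x : ℝ} (h1 : 1 ≤ |xi (4 * k) x|) (h2 : |xi (4 * k) x| ≤ 2) :
    p8_cd k x = -(2 * k * p8_hd k x * p8_ps1 k x) := by
  have e : p8_cd k x = deriv (p8_cF k (round (x / (4 * k)))) (xi (4 * k) x) := rfl
  have e2 : p8_ps1 k x = deriv (cut 1 2) (xi (4 * k) x) := rfl
  rw [e, e2, p8_hd_leaf h1 h2, p8_cF_deriv, p8_sg_deriv, p8_dst (by linarith)]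
  ring

theorem p8_rab_abs {s : ℝ} (hs : 1 / 2 ≤ |s|) : rab s = |s| := by
  have e : rab s = 2 * (s * st s) - s := rfl
  rw [e]
  rcases p8_abs_cases' hs with h | h
  · rw [p8_st_one h, abs_of_nonneg (by linarith)]
    ring
  · rw [p8_st_zero (by linarith), abs_of_neg (by linarith)]
    ring

theorem p8_hh_leaf {k : ℕ} {x : ℝ} (h1 : 1 ≤ |xi (4 * k) x|) (h2 : |xi (4 * k) x| ≤ 2) :
    |hh k x| ≤ 1 / 2 := by
  unfold hh
  rw [p8_cut_one (by norm_num) (by norm_num) (by linarith), p8_rab_abs (by linarith)]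
  rw [abs_le]; constructor <;> linarith

/-! ### the correction in the leaves -/

noncomputable def p8_zsF (k M : ℕ) (γ x : ℝ) (i : ℤ) (s : ℝ) : ℝ :=
  p8_kb k i * cut (3 / 4) 1 s * (1 / M * p8_G ((s - kap k i * γ * hh k x + 1 / 2) * M))

noncomputable def p8_zs (k M : ℕ) (γ z x : ℝ) : ℝ := p8_glue 4 (p8_zsF k M γ x) z

theorem p8_zsF_gc (k M : ℕ) (γ x : ℝ) : p8_gc 4 1 (p8_zsF k M γ x) := by
  intro j s h1 h2
  unfold p8_zsF
  rw [p8_cut_zero (by norm_num) (by norm_num) (p8_abs_cases (Or.inl h1.le)),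
    p8_cut_zero (by norm_num) (by norm_num) (p8_abs_cases (Or.inr (by linarith)))]
  simp

theorem p8_zsF_s {k : ℕ} (hk : 5 ≤ k) (M : ℕ) (γ : ℝ) (i : ℤ) :
    ContDiff ℝ ∞ fun q : ℝ × ℝ => p8_zsF k M γ q.2 i q.1 := by
  unfold p8_zsF
  have h1 : ContDiff ℝ ∞ fun q : ℝ × ℝ => cut (3 / 4) 1 q.1 := (p8_cut_smooth _ _).comp contDiff_fst
  have h2 : ContDiff ℝ ∞ fun q : ℝ × ℝ => hh k q.2 := (p8_hh_s hk).comp contDiff_snd
  have h3 : ContDiff ℝ ∞ fun q : ℝ × ℝ =>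
      p8_G ((q.1 - kap k i * γ * hh k q.2 + 1 / 2) * M) :=
    p8_G_s.comp (((contDiff_fst.sub (contDiff_const.mul h2)).add contDiff_const).mul
      contDiff_const)
  exact (contDiff_const.mul h1).mul (contDiff_const.mul h3)

theorem p8_zs_s {k : ℕ} (hk : 5 ≤ k) (M : ℕ) (γ : ℝ) :
    ContDiff ℝ ∞ fun q : ℝ × ℝ => p8_zs k M γ q.1 q.2 := by
  rw [contDiff_iff_contDiffAt]
  intro q
  have h1 := p8_abs_sub_round (L := 4) (by norm_num) q.1
  set n : ℤ := round (q.1 / 4) with hn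
  have hev : (fun q : ℝ × ℝ => p8_zs k M γ q.1 q.2) =ᶠ[𝓝 q]
      fun q => p8_zsF k M γ q.2 n (q.1 - 4 * n) := by
    have hc : Continuous fun y : ℝ × ℝ => |y.1 - 4 * n| := by fun_prop
    have := hc.continuousAt.eventually_lt (continuousAt_const (y := (4 : ℝ) - 1)) (x₀ := q)
      (by linarith)
    filter_upwards [this] with y hy
    exact p8_glue_eq (by norm_num) (by norm_num) (p8_zsF_gc k M γ y.2) y.1 n hy
  refine ContDiffAt.congr_of_eventuallyEq ?_ hev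
  have h2 : ContDiff ℝ ∞ fun q : ℝ × ℝ => ((q.1 - 4 * n, q.2) : ℝ × ℝ) :=
    (contDiff_fst.sub contDiff_const).prodMk contDiff_snd
  exact ((p8_zsF_s hk M γ n).comp h2).contDiffAt

theorem p8_G_abs (x : ℝ) : |p8_G x| ≤ 1 := by
  have e : p8_G x = (x - 1 / 2 - 1 * round ((x - 1 / 2) / 1)) *
    cut (3 / 10) (2 / 5) (x - 1 / 2 - 1 * round ((x - 1 / 2) / 1)) := rfl
  rw [e, abs_mul]
  have h1 := p8_abs_sub_round (L := 1) (by norm_num) (x - 1 / 2)
  have h2 : |cut (3 / 10) (2 / 5) (x - 1 / 2 - 1 * round ((x - 1 / 2) / 1))| ≤ 1 := by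
    rw [abs_of_nonneg (p8_cut_nonneg _ _ _)]
    exact p8_cut_le_one _ _ _
  calc _ ≤ (1 / 2 : ℝ) * 1 := mul_le_mul h1 h2 (abs_nonneg _) (by norm_num)
    _ ≤ 1 := by norm_num

theorem p8_zs_abs (k M : ℕ) (γ z x : ℝ) : |p8_zs k M γ z x| ≤ 1 / M := by
  have e : p8_zs k M γ z x = p8_zsF k M γ x (round (z / 4)) (z - 4 * round (z / 4)) := rfl
  rw [e]
  unfold p8_zsF
  rw [abs_mul, abs_mul, abs_mul]
  have h1 := p8_kb_abs k (round (z / 4))
  have h2 : |cut (3 / 4) 1 (z - 4 * round (z / 4))| ≤ 1 := by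
    rw [abs_of_nonneg (p8_cut_nonneg _ _ _)]
    exact p8_cut_le_one _ _ _
  have h3 : |p8_kb k (round (z / 4))| * |cut (3 / 4) 1 (z - 4 * round (z / 4))| ≤ 1 * 1 :=
    mul_le_mul h1 h2 (abs_nonneg _) (by norm_num)
  have h4 : |(1 : ℝ) / M| = 1 / M := abs_of_nonneg (by positivity)
  rw [h4]
  have h5 : (1 : ℝ) / M * |p8_G ((z - 4 * round (z / 4) - kap k (round (z / 4)) * γ * hh k x
      + 1 / 2) * M)| ≤ 1 / M * 1 :=
    mul_le_mul_of_nonneg_left (p8_G_abs _) (by positivity)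
  calc _ ≤ (1 * 1) * (1 / (M : ℝ) * 1) := mul_le_mul h3 h5 (by positivity) (by norm_num)
    _ = 1 / M := by ring

theorem p8_Gd_leaf {y : ℝ} {m : ℤ} (h : |y - (m + 1 / 2)| ≤ 1 / 4) : p8_Gd y = 1 := by
  have h' : |y - 1 / 2 - 1 * m| ≤ 1 / 4 := by
    have : y - 1 / 2 - 1 * m = y - (m + 1 / 2) := by ring
    rwa [this]
  have h1 := p8_glue_eq (by norm_num) (by norm_num) (p8_gc_deriv p8_GF_gc) (y - 1 / 2) m
    (by linarith)
  unfold p8_Gd
  rw [h1]
  set s := y - 1 / 2 - 1 * (m : ℝ) with hs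
  have h3 : HasDerivAt (cut (3 / 10) (2 / 5)) 0 s := by
    have := ((p8_cut_smooth (3 / 10) (2 / 5)).differentiable
      (by simp)).differentiableAt.hasDerivAt (x := s)
    rwa [p8_dcut (by norm_num) (by norm_num) (Or.inl (by linarith))] at this
  have h4 : HasDerivAt (p8_GF m) (1 * cut (3 / 10) (2 / 5) s + s * 0) s :=
    (hasDerivAt_id s).mul h3
  rw [h4.deriv, p8_cut_one (by norm_num) (by norm_num) (by linarith)]
  ring

/-- partial derivatives of `p8_zs` -/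
noncomputable def p8_zsz (k M : ℕ) (γ z x : ℝ) : ℝ := deriv (fun s => p8_zs k M γ s x) z
noncomputable def p8_zsx (k M : ℕ) (γ z x : ℝ) : ℝ := deriv (fun s => p8_zs k M γ z s) x

theorem p8_zs_dz {k : ℕ} (hk : 5 ≤ k) (M : ℕ) (γ z x : ℝ) :
    HasDerivAt (fun s => p8_zs k M γ s x) (p8_zsz k M γ z x) z := by
  have h0 : ContDiff ℝ ∞ ((fun q : ℝ × ℝ => p8_zs k M γ q.1 q.2) ∘ fun s : ℝ => (s, x)) :=
    (p8_zs_s hk M γ).comp (contDiff_id.prodMk contDiff_const)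
  have h : ContDiff ℝ ∞ fun s : ℝ => p8_zs k M γ s x := h0
  exact (h.differentiable (by simp)).differentiableAt.hasDerivAt

theorem p8_zs_dx {k : ℕ} (hk : 5 ≤ k) (M : ℕ) (γ z x : ℝ) :
    HasDerivAt (fun s => p8_zs k M γ z s) (p8_zsx k M γ z x) x := by
  have h0 : ContDiff ℝ ∞ ((fun q : ℝ × ℝ => p8_zs k M γ q.1 q.2) ∘ fun s : ℝ => (z, s)) :=
    (p8_zs_s hk M γ).comp (contDiff_const.prodMk contDiff_id)
  have h : ContDiff ℝ ∞ fun s : ℝ => p8_zs k M γ z s := h0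
  exact (h.differentiable (by simp)).differentiableAt.hasDerivAt

/-- leaf zones are in the bars -/
theorem p8_leaf_bar {k M : ℕ} {γ x z : ℝ} (hγ : 0 < γ) (hγ' : γ ≤ 1 / 8)
    (h1 : 1 ≤ |xi (4 * k) x|) (h2 : |xi (4 * k) x| ≤ 2) (h : Leaf k M γ x z) : InBar k z := by
  obtain ⟨i, hi, h3, -⟩ := h
  refine ⟨i, hi, ?_⟩
  have h4 := abs_le.mp (p8_hh_leaf h1 h2)
  have h5 : |kap k i * γ * hh k x| ≤ 1 / 16 := by
    rw [abs_le]
    rcases p8_kap_abs k i with e | e <;> rw [e] <;> constructor <;> nlinarith [h4.1, h4.2]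
  have h3' := abs_le.mp h3
  have h5' := abs_le.mp h5
  rw [abs_le]; constructor <;> linarith

theorem p8_leaf_deriv {k M : ℕ} (hk : 5 ≤ k) (hM : 1 ≤ M) {γ x z : ℝ} (hγ : 0 < γ)
    (hγ' : γ ≤ 1 / 8) (h1 : 1 ≤ |xi (4 * k) x|) (h2 : |xi (4 * k) x| ≤ 2)
    (h : Leaf k M γ x z) :
    p8_zsz k M γ z x = p8_ze k z ∧ p8_zsx k M γ z x = -(γ * p8_hd k x) := by
  obtain ⟨i, hi, h3, m, hm⟩ := h
  have h4 := abs_le.mp (p8_hh_leaf h1 h2)
  have h5 : |kap k i * γ * hh k x| ≤ 1 / 16 := by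
    rw [abs_le]
    rcases p8_kap_abs k i with e | e <;> rw [e] <;> constructor <;> nlinarith [h4.1, h4.2]
  have h3' := abs_le.mp h3
  have h5' := abs_le.mp h5
  have hz : |z - 4 * i| ≤ 3 / 4 := by
    rw [abs_le]; constructor <;> linarith
  have hM0 : (M : ℝ) ≠ 0 := by positivity
  have hG := p8_G_d ((z - 4 * i - kap k i * γ * hh k x + 1 / 2) * M)
  rw [p8_Gd_leaf hm] at hG
  have hze : p8_ze k z = kap k i := by
    rw [p8_ze_at k i (by linarith)]
    unfold p8_zeF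
    rw [p8_kb_bar hi, p8_cut_one (by norm_num) (by norm_num) hz, mul_one]
  constructor
  · rw [hze]
    unfold p8_zsz
    have hev : (fun s => p8_zs k M γ s x) =ᶠ[𝓝 z] fun s => p8_zsF k M γ x i (s - 4 * i) :=
      p8_glue_ev (by norm_num) (by norm_num) (p8_zsF_gc k M γ x) z i (by linarith)
    rw [hev.deriv_eq]
    have hc : HasDerivAt (fun s => cut (3 / 4) 1 (s - 4 * i)) 0 z := by
      have := ((p8_cut_smooth (3 / 4) 1).differentiable
        (by simp)).differentiableAt.hasDerivAt (x := z - 4 * i)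
      rw [p8_dcut (by norm_num) (by norm_num) (Or.inl hz)] at this
      exact HasDerivAt.comp_sub_const z (4 * (i : ℝ)) this
    have hin : HasDerivAt (fun s : ℝ => (s - 4 * i - kap k i * γ * hh k x + 1 / 2) * M)
        (1 * M) z :=
      ((((hasDerivAt_id z).sub_const (4 * (i : ℝ))).sub_const _).add_const _).mul_const _
    have hG2 : HasDerivAt (fun s : ℝ => p8_G ((s - 4 * i - kap k i * γ * hh k x + 1 / 2) * M))
        (1 * (1 * M)) z := HasDerivAt.comp (h₂ := p8_G) z hG hin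
    have hall : HasDerivAt (fun s => p8_zsF k M γ x i (s - 4 * i))
        ((p8_kb k i * 0) * (1 / M * p8_G ((z - 4 * i - kap k i * γ * hh k x + 1 / 2) * M))
          + (p8_kb k i * cut (3 / 4) 1 (z - 4 * i)) * (1 / M * (1 * (1 * M)))) z :=
      (hc.const_mul (p8_kb k i)).mul (hG2.const_mul (1 / (M : ℝ)))
    rw [hall.deriv, p8_kb_bar hi, p8_cut_one (by norm_num) (by norm_num) hz]
    field_simp
    ring
  · unfold p8_zsx
    have hev : (fun s => p8_zs k M γ z s) = fun s => p8_zsF k M γ s i (z - 4 * i) := by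
      funext s
      exact p8_glue_eq (by norm_num) (by norm_num) (p8_zsF_gc k M γ s) z i (by linarith)
    rw [hev]
    have hin : HasDerivAt (fun s : ℝ => (z - 4 * i - kap k i * γ * hh k s + 1 / 2) * M)
        (-(kap k i * γ * p8_hd k x) * M) x :=
      ((((p8_hh_d hk x).const_mul (kap k i * γ)).const_sub _).add_const _).mul_const _
    have hG2 : HasDerivAt (fun s : ℝ => p8_G ((z - 4 * i - kap k i * γ * hh k s + 1 / 2) * M))
        (1 * (-(kap k i * γ * p8_hd k x) * M)) x := HasDerivAt.comp (h₂ := p8_G) x hG hin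
    have hall : HasDerivAt (fun s => p8_zsF k M γ s i (z - 4 * i))
        (p8_kb k i * cut (3 / 4) 1 (z - 4 * i) * (1 / M * (1 * (-(kap k i * γ * p8_hd k x) * M))))
        x := (hG2.const_mul (1 / (M : ℝ))).const_mul _
    rw [hall.deriv, p8_kb_bar hi, p8_cut_one (by norm_num) (by norm_num) hz]
    have hkap : kap k i * kap k i = 1 := by
      rcases p8_kap_abs k i with e | e <;> rw [e] <;> norm_num
    have e1 : (1 : ℝ) / M * (1 * (-(kap k i * γ * p8_hd k x) * M)) =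
        -(kap k i * γ * p8_hd k x) := by
      field_simp
    rw [e1]
    linear_combination (-(γ * p8_hd k x)) * hkap

/-! ### the displacement -/

/-- the factor of the sliding displacement -/
noncomputable def p8_J (k : ℕ) (σ a b : ℝ) : ℝ :=
  1 - (1 - (p8_g b * p8_ps k a + (1 - p8_g b) * p8_P k σ a)) *
    (1 - (p8_g a * p8_ps k b + (1 - p8_g a) * p8_P k (-σ) b))

noncomputable def p8_Ja (k : ℕ) (σ a b : ℝ) : ℝ :=
  (p8_g b * p8_ps1 k a + (1 - p8_g b) * p8_Pd k σ a) *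
    (1 - (p8_g a * p8_ps k b + (1 - p8_g a) * p8_P k (-σ) b)) +
  (1 - (p8_g b * p8_ps k a + (1 - p8_g b) * p8_P k σ a)) *
    (p8_gd a * (p8_ps k b - p8_P k (-σ) b))

noncomputable def p8_Jb (k : ℕ) (σ a b : ℝ) : ℝ :=
  (p8_gd b * (p8_ps k a - p8_P k σ a)) *
    (1 - (p8_g a * p8_ps k b + (1 - p8_g a) * p8_P k (-σ) b)) +
  (1 - (p8_g b * p8_ps k a + (1 - p8_g b) * p8_P k σ a)) *
    (p8_g a * p8_ps1 k b + (1 - p8_g a) * p8_Pd k (-σ) b)

theorem p8_J_da {k : ℕ} (hk : 5 ≤ k) {σ : ℝ} (hσ : σ = 1 ∨ σ = -1) (a b : ℝ) :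
    HasDerivAt (fun s => p8_J k σ s b) (p8_Ja k σ a b) a := by
  unfold p8_J
  have h1 := ((p8_ps_d hk a).const_mul (p8_g b)).add
    ((p8_P_d hk hσ a).const_mul (1 - p8_g b))
  have h2 := ((p8_g_d a).mul_const (p8_ps k b)).add
    (((p8_g_d a).const_sub 1).mul_const (p8_P k (-σ) b))
  have h3 := ((h1.const_sub 1).mul (h2.const_sub 1)).const_sub 1
  refine h3.congr_deriv ?_
  unfold p8_Ja
  simp only [Pi.add_apply]
  ring

theorem p8_J_db {k : ℕ} (hk : 5 ≤ k) {σ : ℝ} (hσ : σ = 1 ∨ σ = -1) (a b : ℝ) :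
    HasDerivAt (fun s => p8_J k σ a s) (p8_Jb k σ a b) b := by
  have hσ' : -σ = 1 ∨ -σ = -1 := by rcases hσ with rfl | rfl <;> simp
  unfold p8_J
  have h1 := ((p8_ps_d hk b).const_mul (p8_g a)).add
    ((p8_P_d hk hσ' b).const_mul (1 - p8_g a))
  have h2 := ((p8_g_d b).mul_const (p8_ps k a)).add
    (((p8_g_d b).const_sub 1).mul_const (p8_P k σ a))
  have h3 := ((h2.const_sub 1).mul (h1.const_sub 1)).const_sub 1
  refine h3.congr_deriv ?_
  unfold p8_Jb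
  simp only [Pi.add_apply]
  ring

/-- components of the displacement -/
noncomputable def p8_V (k M : ℕ) (γ S σ p q r : ℝ) : ℝ :=
  p8_c k p + S * p8_ze k p * p8_J k σ q r
    - S * p8_ps1 k p * (p8_g q * p8_zs k M γ r p + p8_g r * p8_zs k M γ q p)

noncomputable def p8_Vp (k M : ℕ) (γ S σ p q r : ℝ) : ℝ :=
  p8_cd k p + S * p8_zed k p * p8_J k σ q r
    - (S * p8_ps2 k p * (p8_g q * p8_zs k M γ r p + p8_g r * p8_zs k M γ q p)
      + S * p8_ps1 k p * (p8_g q * p8_zsx k M γ r p + p8_g r * p8_zsx k M γ q p))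

noncomputable def p8_Vq (k M : ℕ) (γ S σ p q r : ℝ) : ℝ :=
  S * p8_ze k p * p8_Ja k σ q r
    - S * p8_ps1 k p * (p8_gd q * p8_zs k M γ r p + p8_g r * p8_zsz k M γ q p)

noncomputable def p8_Vr (k M : ℕ) (γ S σ p q r : ℝ) : ℝ :=
  S * p8_ze k p * p8_Jb k σ q r
    - S * p8_ps1 k p * (p8_g q * p8_zsz k M γ r p + p8_gd r * p8_zs k M γ q p)

theorem p8_V_dp {k : ℕ} (hk : 5 ≤ k) (M : ℕ) (γ S σ p q r : ℝ) :
    HasDerivAt (fun s => p8_V k M γ S σ s q r) (p8_Vp k M γ S σ p q r) p := by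
  unfold p8_V
  have h1 := ((p8_ze_d k p).const_mul S).mul_const (p8_J k σ q r)
  have h2 := ((p8_zs_dx hk M γ r p).const_mul (p8_g q)).add
    ((p8_zs_dx hk M γ q p).const_mul (p8_g r))
  have h3 := ((p8_ps1_d hk p).const_mul S).mul h2
  have h4 := ((p8_c_d hk p).add h1).sub h3
  refine h4.congr_deriv ?_
  unfold p8_Vp
  simp only [Pi.add_apply]

theorem p8_V_dq {k : ℕ} (hk : 5 ≤ k) (M : ℕ) (γ S : ℝ) {σ : ℝ} (hσ : σ = 1 ∨ σ = -1)
    (p q r : ℝ) : HasDerivAt (fun s => p8_V k M γ S σ p s r) (p8_Vq k M γ S σ p q r) q := by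
  unfold p8_V
  have h1 := ((p8_J_da hk hσ q r).const_mul (S * p8_ze k p)).const_add (p8_c k p)
  have h2 := ((p8_g_d q).mul_const (p8_zs k M γ r p)).add
    ((p8_zs_dz hk M γ q p).const_mul (p8_g r))
  exact h1.sub (h2.const_mul (S * p8_ps1 k p))

theorem p8_V_dr {k : ℕ} (hk : 5 ≤ k) (M : ℕ) (γ S : ℝ) {σ : ℝ} (hσ : σ = 1 ∨ σ = -1)
    (p q r : ℝ) : HasDerivAt (fun s => p8_V k M γ S σ p q s) (p8_Vr k M γ S σ p q r) r := by
  unfold p8_V
  have h1 := ((p8_J_db hk hσ q r).const_mul (S * p8_ze k p)).const_add (p8_c k p)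
  have h2 := ((p8_zs_dz hk M γ r p).const_mul (p8_g q)).add
    ((p8_g_d r).mul_const (p8_zs k M γ q p))
  exact h1.sub (h2.const_mul (S * p8_ps1 k p))

/-! ### the squared norm of the strain -/

noncomputable def p8_E (k M : ℕ) (γ S σ a b c : ℝ) : ℝ :=
  p8_Vp k M γ S σ a b c ^ 2 + p8_Vp k M γ S σ b c a ^ 2 + p8_Vp k M γ S σ c a b ^ 2 +
  1 / 2 * ((p8_Vq k M γ S σ a b c + p8_Vr k M γ S σ b c a) ^ 2 +
    (p8_Vq k M γ S σ b c a + p8_Vr k M γ S σ c a b) ^ 2 +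
    (p8_Vq k M γ S σ c a b + p8_Vr k M γ S σ a b c) ^ 2)

theorem p8_E_cyc (k M : ℕ) (γ S σ a b c : ℝ) :
    p8_E k M γ S σ b c a = p8_E k M γ S σ a b c := by
  unfold p8_E
  ring

theorem p8_J_swap (k : ℕ) (σ a b : ℝ) : p8_J k (-σ) b a = p8_J k σ a b := by
  unfold p8_J
  rw [neg_neg]
  ring

theorem p8_Ja_swap (k : ℕ) (σ a b : ℝ) : p8_Ja k (-σ) b a = p8_Jb k σ a b := by
  unfold p8_Ja p8_Jb
  rw [neg_neg]
  ring

theorem p8_Jb_swap (k : ℕ) (σ a b : ℝ) : p8_Jb k (-σ) b a = p8_Ja k σ a b := by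
  unfold p8_Ja p8_Jb
  rw [neg_neg]
  ring

theorem p8_E_swap (k M : ℕ) (γ S σ a b c : ℝ) :
    p8_E k M γ S (-σ) a c b = p8_E k M γ S σ a b c := by
  have h1 : ∀ p q r, p8_Vp k M γ S (-σ) p r q = p8_Vp k M γ S σ p q r := by
    intro p q r
    unfold p8_Vp
    rw [p8_J_swap]
    ring
  have h2 : ∀ p q r, p8_Vq k M γ S (-σ) p r q = p8_Vr k M γ S σ p q r := by
    intro p q r
    unfold p8_Vq p8_Vr
    rw [p8_Ja_swap]
    ring
  have h3 : ∀ p q r, p8_Vr k M γ S (-σ) p r q = p8_Vq k M γ S σ p q r := by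
    intro p q r
    unfold p8_Vq p8_Vr
    rw [p8_Jb_swap]
    ring
  unfold p8_E
  rw [h1 a b c, h1 c a b, h1 b c a, h2 a b c, h3 c a b, h2 c a b, h3 b c a, h2 b c a, h3 a b c]
  ring

theorem p8_E_block {k M : ℕ} {γ S a b c : ℝ} (ha : 3 ≤ |xi (4 * k) a|)
    (hb : 3 ≤ |xi (4 * k) b|) (hc : 3 ≤ |xi (4 * k) c|) : p8_E k M γ S 1 a b c = 0 := by
  have fa := p8_far (show 2 ≤ |xi (4 * k) a| by linarith)
  have fb := p8_far (show 2 ≤ |xi (4 * k) b| by linarith)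
  have fc := p8_far (show 2 ≤ |xi (4 * k) c| by linarith)
  have h1 : (1 : ℝ) = 1 ∨ (1 : ℝ) = -1 := Or.inl rfl
  have h2 : -(1 : ℝ) = 1 ∨ -(1 : ℝ) = -1 := Or.inr rfl
  unfold p8_E p8_Vp p8_Vq p8_Vr p8_J p8_Ja p8_Jb
  simp only [fa.ps, fb.ps, fc.ps, fa.ps1, fb.ps1, fc.ps1, fa.cd, fb.cd, fc.cd, fa.P _ h1, fb.P _ h1,
    fc.P _ h1, fa.P _ h2, fb.P _ h2, fc.P _ h2, fa.Pd _ h1, fb.Pd _ h1, fc.Pd _ h1, fa.Pd _ h2,
    fb.Pd _ h2, fc.Pd _ h2, p8_far_ps2 ha, p8_far_ps2 hb, p8_far_ps2 hc]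
  ring

theorem p8_E_gap {k M : ℕ} (hk : 5 ≤ k) {γ S σ z x u : ℝ} (hS : S * γ = 2 * k)
    (hσ : σ = 1 ∨ σ = -1) (hz : InBar k z) (hu : InGap k u) (hx : |xi (4 * k) x| ≤ 3)
    (h : (p8_ps1 k x = 0 ∧ p8_cd k x = 0) ∨
      (p8_zsz k M γ z x = p8_ze k z ∧ p8_zsx k M γ z x = -(γ * p8_hd k x) ∧
        p8_cd k x = -(2 * k * p8_hd k x * p8_ps1 k x))) :
    p8_E k M γ S σ z x u = (S * p8_ps2 k x * p8_zs k M γ z x) ^ 2 := by
  have bz := p8_bar hk hz
  have gu := p8_gap hk hu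
  have hσ' : -σ = 1 ∨ -σ = -1 := by rcases hσ with rfl | rfl <;> simp
  have nx := p8_ze_near hk hx
  unfold p8_E p8_Vp p8_Vq p8_Vr p8_J p8_Ja p8_Jb
  simp only [bz.far.ps, bz.far.ps1, bz.far.cd, bz.far.P _ hσ, bz.far.P _ hσ', bz.far.Pd _ hσ,
    bz.far.Pd _ hσ', bz.ps2, bz.zed, bz.g, bz.gd, gu.far.ps, gu.far.ps1, gu.far.cd,
    gu.far.P _ hσ, gu.far.P _ hσ', gu.far.Pd _ hσ, gu.far.Pd _ hσ', gu.ps2, gu.ze, gu.zed, gu.g,
    gu.gd, nx.1, nx.2]
  rcases h with ⟨h1, h2⟩ | ⟨h1, h2, h3⟩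
  · rw [h1, h2]
    ring
  · rw [h1, h2, h3, ← hS]
    ring

theorem p8_E_thin {k M : ℕ} (hk : 5 ≤ k) {γ S σ z x u : ℝ}
    (hσ : σ = 1 ∨ σ = -1) (hz : InBar k z) (hx : p8_Level k σ x) :
    p8_E k M γ S σ z x u =
      (S * p8_ps2 k x * (p8_g u * p8_zs k M γ z x)) ^ 2 + p8_cd k u ^ 2 := by
  have bz := p8_bar hk hz
  have hσ' : -σ = 1 ∨ -σ = -1 := by rcases hσ with rfl | rfl <;> simp
  have nx := p8_ze_near hk (show |xi (4 * k) x| ≤ 3 by linarith [hx.xi_le])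
  have mx := p8_near hx.xi_le
  unfold p8_E p8_Vp p8_Vq p8_Vr p8_J p8_Ja p8_Jb
  simp only [bz.far.ps, bz.far.ps1, bz.far.cd, bz.far.P _ hσ, bz.far.P _ hσ', bz.far.Pd _ hσ,
    bz.far.Pd _ hσ', bz.ps2, bz.zed, bz.g, bz.gd, nx.1, nx.2, mx.1, mx.2.1, mx.2.2,
    hx.P, hx.Pd, hx.P', hx.Pd', hx.g, hx.gd]
  ring

/-! ### the displacement and its derivatives -/

noncomputable def p8_v (k M : ℕ) (γ S : ℝ) (x : E3) : E3 :=
  mk3 fun i => p8_V k M γ S 1 (x i) (x (i + 1)) (x (i + 2))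

theorem p8_coord_s (i : Fin 3) : ContDiff ℝ ∞ fun x : E3 => x i :=
  (EuclideanSpace.proj (𝕜 := ℝ) i : E3 →L[ℝ] ℝ).contDiff

theorem p8_v_s {k : ℕ} (hk : 5 ≤ k) (M : ℕ) (γ S : ℝ) : ContDiff ℝ ∞ (p8_v k M γ S) := by
  rw [contDiff_euclidean]
  intro i
  have c0 := p8_coord_s i
  have c1 := p8_coord_s (i + 1)
  have c2 := p8_coord_s (i + 2)
  have h1 : (1 : ℝ) = 1 ∨ (1 : ℝ) = -1 := Or.inl rfl
  have h2 : -(1 : ℝ) = 1 ∨ -(1 : ℝ) = -1 := Or.inr rfl
  have e : (fun x : E3 => (p8_v k M γ S x) i) =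
      fun x : E3 => p8_V k M γ S 1 (x i) (x (i + 1)) (x (i + 2)) := rfl
  rw [e]
  unfold p8_V p8_J
  have zs1 : ContDiff ℝ ∞ fun x : E3 => p8_zs k M γ (x (i + 2)) (x i) := by
    have : ContDiff ℝ ∞ ((fun q : ℝ × ℝ => p8_zs k M γ q.1 q.2) ∘
      fun x : E3 => (x (i + 2), x i)) := (p8_zs_s hk M γ).comp (c2.prodMk c0)
    exact this
  have zs2 : ContDiff ℝ ∞ fun x : E3 => p8_zs k M γ (x (i + 1)) (x i) := by
    have : ContDiff ℝ ∞ ((fun q : ℝ × ℝ => p8_zs k M γ q.1 q.2) ∘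
      fun x : E3 => (x (i + 1), x i)) := (p8_zs_s hk M γ).comp (c1.prodMk c0)
    exact this
  have g1 : ContDiff ℝ ∞ fun x : E3 => p8_g (x (i + 1)) := p8_g_s.comp c1
  have g2 : ContDiff ℝ ∞ fun x : E3 => p8_g (x (i + 2)) := p8_g_s.comp c2
  have a1 : ContDiff ℝ ∞ fun x : E3 => p8_ps k (x (i + 1)) := (p8_ps_s hk).comp c1
  have a2 : ContDiff ℝ ∞ fun x : E3 => p8_ps k (x (i + 2)) := (p8_ps_s hk).comp c2
  have b1 : ContDiff ℝ ∞ fun x : E3 => p8_P k 1 (x (i + 1)) := (p8_P_s hk h1).comp c1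
  have b2 : ContDiff ℝ ∞ fun x : E3 => p8_P k (-1) (x (i + 2)) := (p8_P_s hk h2).comp c2
  have d0 : ContDiff ℝ ∞ fun x : E3 => p8_ps1 k (x i) := (p8_ps1_s hk).comp c0
  have d1 : ContDiff ℝ ∞ fun x : E3 => p8_ze k (x i) := (p8_ze_s k).comp c0
  have d2 : ContDiff ℝ ∞ fun x : E3 => p8_c k (x i) := (p8_c_s hk).comp c0
  exact ((d2.add ((contDiff_const.mul d1).mul (contDiff_const.sub
    ((contDiff_const.sub ((g2.mul a1).add ((contDiff_const.sub g2).mul b1))).mul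
      (contDiff_const.sub ((g1.mul a2).add ((contDiff_const.sub g1).mul b2))))))).sub
    ((contDiff_const.mul d0).mul ((g1.mul zs1).add (g2.mul zs2))))

theorem p8_pd_eq {v : E3 → E3} (hv : ContDiff ℝ ∞ v) (x : E3) (i j : Fin 3) {d : ℝ}
    (h : HasDerivAt (fun t : ℝ => v (x + t • ee j) i) d 0) : fderiv ℝ v x (ee j) i = d := by
  have h1 : HasFDerivAt v (fderiv ℝ v x) x :=
    (hv.differentiable (by simp)).differentiableAt.hasFDerivAt
  have h2 : HasDerivAt (fun t : ℝ => x + t • ee j) (ee j) 0 := by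
    have := ((hasDerivAt_id (0 : ℝ)).smul_const (ee j)).const_add x
    simpa using this
  have h1' : HasFDerivAt v (fderiv ℝ v x) (x + (0 : ℝ) • ee j) := by simpa using h1
  have h3 : HasDerivAt (fun t : ℝ => v (x + t • ee j)) (fderiv ℝ v x (ee j)) 0 :=
    h1'.comp_hasDerivAt (0 : ℝ) h2
  have h4 := (EuclideanSpace.proj (𝕜 := ℝ) i : E3 →L[ℝ] ℝ).hasFDerivAt.comp_hasDerivAt (0 : ℝ) h3
  exact h4.unique h

theorem p8_line (x : E3) (j m : Fin 3) (t : ℝ) :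
    (x + t • ee j) m = x m + t * (if m = j then 1 else 0) := by
  simp

theorem p8_D0 {k : ℕ} (hk : 5 ≤ k) (M : ℕ) (γ S : ℝ) (x : E3) (i : Fin 3) :
    fderiv ℝ (p8_v k M γ S) x (ee i) i =
      p8_Vp k M γ S 1 (x i) (x (i + 1)) (x (i + 2)) := by
  apply p8_pd_eq (p8_v_s hk M γ S)
  have e : (fun t : ℝ => (p8_v k M γ S (x + t • ee i)) i) =
      fun t : ℝ => p8_V k M γ S 1 (x i + t) (x (i + 1)) (x (i + 2)) := by
    funext t
    have : (p8_v k M γ S (x + t • ee i)) i = p8_V k M γ S 1 ((x + t • ee i) i)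
      ((x + t • ee i) (i + 1)) ((x + t • ee i) (i + 2)) := rfl
    rw [this, p8_line, p8_line, p8_line]
    have n1 : ¬ (i + 1 = i) := by fin_cases i <;> decide
    have n2 : ¬ (i + 2 = i) := by fin_cases i <;> decide
    simp [n1, n2]
  rw [e]
  have h := p8_V_dp hk M γ S 1 (x i) (x (i + 1)) (x (i + 2))
  have h' : HasDerivAt (fun s => p8_V k M γ S 1 s (x (i + 1)) (x (i + 2)))
      (p8_Vp k M γ S 1 (x i) (x (i + 1)) (x (i + 2))) (x i + 0) := by simpa using h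
  exact HasDerivAt.comp_const_add (x i) 0 h'

theorem p8_D1 {k : ℕ} (hk : 5 ≤ k) (M : ℕ) (γ S : ℝ) (x : E3) (i : Fin 3) :
    fderiv ℝ (p8_v k M γ S) x (ee (i + 1)) i =
      p8_Vq k M γ S 1 (x i) (x (i + 1)) (x (i + 2)) := by
  apply p8_pd_eq (p8_v_s hk M γ S)
  have e : (fun t : ℝ => (p8_v k M γ S (x + t • ee (i + 1))) i) =
      fun t : ℝ => p8_V k M γ S 1 (x i) (x (i + 1) + t) (x (i + 2)) := by
    funext t
    have : (p8_v k M γ S (x + t • ee (i + 1))) i = p8_V k M γ S 1 ((x + t • ee (i + 1)) i)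
      ((x + t • ee (i + 1)) (i + 1)) ((x + t • ee (i + 1)) (i + 2)) := rfl
    rw [this, p8_line, p8_line, p8_line]
    have n1 : ¬ (i = i + 1) := by fin_cases i <;> decide
    have n2 : ¬ (i + 2 = i + 1) := by fin_cases i <;> decide
    simp [n1, n2]
  rw [e]
  have h := p8_V_dq hk M γ S (Or.inl rfl) (x i) (x (i + 1)) (x (i + 2))
  have h' : HasDerivAt (fun s => p8_V k M γ S 1 (x i) s (x (i + 2)))
      (p8_Vq k M γ S 1 (x i) (x (i + 1)) (x (i + 2))) (x (i + 1) + 0) := by simpa using h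
  exact HasDerivAt.comp_const_add (x (i + 1)) 0 h'

theorem p8_D2 {k : ℕ} (hk : 5 ≤ k) (M : ℕ) (γ S : ℝ) (x : E3) (i : Fin 3) :
    fderiv ℝ (p8_v k M γ S) x (ee (i + 2)) i =
      p8_Vr k M γ S 1 (x i) (x (i + 1)) (x (i + 2)) := by
  apply p8_pd_eq (p8_v_s hk M γ S)
  have e : (fun t : ℝ => (p8_v k M γ S (x + t • ee (i + 2))) i) =
      fun t : ℝ => p8_V k M γ S 1 (x i) (x (i + 1)) (x (i + 2) + t) := by
    funext t
    have : (p8_v k M γ S (x + t • ee (i + 2))) i = p8_V k M γ S 1 ((x + t • ee (i + 2)) i)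
      ((x + t • ee (i + 2)) (i + 1)) ((x + t • ee (i + 2)) (i + 2)) := rfl
    rw [this, p8_line, p8_line, p8_line]
    have n1 : ¬ (i = i + 2) := by fin_cases i <;> decide
    have n2 : ¬ (i + 1 = i + 2) := by fin_cases i <;> decide
    simp [n1, n2]
  rw [e]
  have h := p8_V_dr hk M γ S (Or.inl rfl) (x i) (x (i + 1)) (x (i + 2))
  have h' : HasDerivAt (fun s => p8_V k M γ S 1 (x i) (x (i + 1)) s)
      (p8_Vr k M γ S 1 (x i) (x (i + 1)) (x (i + 2))) (x (i + 2) + 0) := by simpa using h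
  exact HasDerivAt.comp_const_add (x (i + 2)) 0 h'

theorem p8_inn_strain {k : ℕ} (hk : 5 ≤ k) (M : ℕ) (γ S : ℝ) (x : E3) :
    inn (strain (p8_v k M γ S) x) (strain (p8_v k M γ S) x) =
      p8_E k M γ S 1 (x 0) (x 1) (x 2) := by
  have a0 := p8_D0 hk M γ S x 0
  have a1 := p8_D0 hk M γ S x 1
  have a2 := p8_D0 hk M γ S x 2
  have b0 := p8_D1 hk M γ S x 0
  have b1 := p8_D1 hk M γ S x 1
  have b2 := p8_D1 hk M γ S x 2
  have c0 := p8_D2 hk M γ S x 0
  have c1 := p8_D2 hk M γ S x 1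
  have c2 := p8_D2 hk M γ S x 2
  have e1 : (0 : Fin 3) + 1 = 1 := rfl
  have e2 : (0 : Fin 3) + 2 = 2 := rfl
  have e3 : (1 : Fin 3) + 1 = 2 := rfl
  have e4 : (1 : Fin 3) + 2 = 0 := rfl
  have e5 : (2 : Fin 3) + 1 = 0 := rfl
  have e6 : (2 : Fin 3) + 2 = 1 := rfl
  simp only [e1, e2, e3, e4, e5, e6] at a0 a1 a2 b0 b1 b2 c0 c1 c2
  unfold inn strain p8_E
  simp only [Fin.sum_univ_three, Matrix.of_apply]
  rw [a0, a1, a2, b0, b1, b2, c0, c1, c2]
  ring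

theorem p8_inn_zero {A : M3} (h : inn A A = 0) : A = 0 := by
  unfold inn at h
  have h0 : ∀ i ∈ (Finset.univ : Finset (Fin 3)), 0 ≤ ∑ j, A i j * A i j :=
    fun i _ => Finset.sum_nonneg fun j _ => mul_self_nonneg _
  have h1 := (Finset.sum_eq_zero_iff_of_nonneg h0).mp h
  ext i j
  have h2 := (Finset.sum_eq_zero_iff_of_nonneg (fun j _ => mul_self_nonneg (A i j))).mp
    (h1 i (Finset.mem_univ i)) j (Finset.mem_univ j)
  simpa using h2

/-! ### periodicity -/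

theorem p8_bar_per (k : ℕ) (i : ℤ) : p8_kb k (i + 2 * k) = p8_kb k i ∧
    kap k (i + 2 * k) = kap k i := by
  have h : (i + 2 * (k : ℤ)) % (k : ℤ) = i % (k : ℤ) := by
    rw [mul_comm]
    exact Int.add_mul_emod_self_left i k 2
  have h2 : kap k (i + 2 * k) = kap k i := by
    unfold kap
    rw [h]
  have h3 : barIdx k (i + 2 * k) ↔ barIdx k i := by
    unfold barIdx
    rw [h]
  refine ⟨?_, h2⟩
  by_cases hb : barIdx k i
  · rw [p8_kb_bar hb, p8_kb_bar (h3.mpr hb), h2]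
  · rw [p8_kb_zero hb, p8_kb_zero (fun hh => hb (h3.mp hh))]

theorem p8_zpow_two (j : ℤ) : ((-1 : ℝ) ^ (j + 2)) = (-1) ^ j := by
  rw [zpow_add₀ (by norm_num)]
  norm_num

section per

variable {k : ℕ} (hk : 5 ≤ k)
include hk

theorem p8_ps_per (x : ℝ) : p8_ps k (x + 8 * k) = p8_ps k x := by
  have h := p8_glue_shift (L := 4 * k) (by linarith [p8_L hk]) p8_psF 2 x
  have e : x + 4 * k * ((2 : ℤ) : ℝ) = x + 8 * k := by push_cast; ring
  rw [e] at h
  exact h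

theorem p8_ps1_per (x : ℝ) : p8_ps1 k (x + 8 * k) = p8_ps1 k x := by
  have h := p8_glue_shift (L := 4 * k) (by linarith [p8_L hk]) (fun i => deriv (p8_psF i)) 2 x
  have e : x + 4 * k * ((2 : ℤ) : ℝ) = x + 8 * k := by push_cast; ring
  rw [e] at h
  exact h

theorem p8_hh_per (x : ℝ) : hh k (x + 8 * k) = hh k x := by
  have h := p8_glue_shift (L := 4 * k) (by linarith [p8_L hk]) p8_hF 2 x
  have e : x + 4 * k * ((2 : ℤ) : ℝ) = x + 8 * k := by push_cast; ring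
  rw [e] at h
  exact h

theorem p8_P_per (σ x : ℝ) : p8_P k σ (x + 8 * k) = p8_P k σ x := by
  have h := p8_glue_shift (L := 4 * k) (by linarith [p8_L hk]) (p8_PF σ) 2 x
  have e : x + 4 * k * ((2 : ℤ) : ℝ) = x + 8 * k := by push_cast; ring
  rw [e] at h
  unfold p8_P
  rw [h]
  congr 1
  funext j s
  unfold p8_PF
  rw [p8_zpow_two]

theorem p8_c_per (x : ℝ) : p8_c k (x + 8 * k) = p8_c k x + 8 * k := by
  have h := p8_glue_shift (L := 4 * k) (by linarith [p8_L hk]) (p8_cF k) 2 x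
  have e : x + 4 * k * ((2 : ℤ) : ℝ) = x + 8 * k := by push_cast; ring
  rw [e] at h
  unfold p8_c
  rw [h]
  unfold p8_glue p8_cF
  push_cast
  ring

omit hk in
theorem p8_ze_per (x : ℝ) : p8_ze k (x + 8 * k) = p8_ze k x := by
  have h := p8_glue_shift (L := 4) (by norm_num) (p8_zeF k) (2 * k) x
  have e : x + 4 * ((2 * (k : ℤ) : ℤ) : ℝ) = x + 8 * k := by push_cast; ring
  rw [e] at h
  unfold p8_ze
  rw [h]
  congr 1
  funext j s
  unfold p8_zeF
  rw [(p8_bar_per k j).1]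

omit hk in
theorem p8_g_per (x : ℝ) : p8_g (x + 8 * k) = p8_g x := by
  have h := p8_glue_shift (L := 4) (by norm_num) p8_gF (2 * k) (x - 2)
  have e : x - 2 + 4 * ((2 * (k : ℤ) : ℤ) : ℝ) = x + 8 * k - 2 := by push_cast; ring
  rw [e] at h
  exact h

omit hk in
theorem p8_zs_per1 (M : ℕ) (γ z x : ℝ) : p8_zs k M γ (z + 8 * k) x = p8_zs k M γ z x := by
  have h := p8_glue_shift (L := 4) (by norm_num) (p8_zsF k M γ x) (2 * k) z
  have e : z + 4 * ((2 * (k : ℤ) : ℤ) : ℝ) = z + 8 * k := by push_cast; ring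
  rw [e] at h
  unfold p8_zs
  rw [h]
  congr 1
  funext j s
  unfold p8_zsF
  rw [(p8_bar_per k j).1, (p8_bar_per k j).2]

theorem p8_zs_per2 (M : ℕ) (γ z x : ℝ) : p8_zs k M γ z (x + 8 * k) = p8_zs k M γ z x := by
  unfold p8_zs
  congr 1
  funext j s
  unfold p8_zsF
  rw [p8_hh_per hk]

theorem p8_V_per (M : ℕ) (γ S σ p q r : ℝ) :
    p8_V k M γ S σ (p + 8 * k) q r = p8_V k M γ S σ p q r + 8 * k ∧
    p8_V k M γ S σ p (q + 8 * k) r = p8_V k M γ S σ p q r ∧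
    p8_V k M γ S σ p q (r + 8 * k) = p8_V k M γ S σ p q r := by
  unfold p8_V p8_J
  refine ⟨?_, ?_, ?_⟩
  · rw [p8_c_per hk, p8_ze_per, p8_ps1_per hk, p8_zs_per2 hk, p8_zs_per2 hk]
    ring
  · rw [p8_ps_per hk, p8_g_per, p8_P_per hk, p8_zs_per1]
  · rw [p8_ps_per hk, p8_g_per, p8_P_per hk, p8_zs_per1]

theorem p8_v_adm (M : ℕ) (γ S : ℝ) : p8_v k M γ S ∈ Adm (8 * k) 1 := by
  refine ⟨p8_v_s hk M γ S, ?_⟩
  intro i j x
  have e : ∀ y : E3, (p8_v k M γ S y) j = p8_V k M γ S 1 (y j) (y (j + 1)) (y (j + 2)) :=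
    fun _ => rfl
  rw [e, e]
  have hl : ∀ m : Fin 3, (x + EuclideanSpace.single i (8 * k : ℝ)) m =
      x m + (if m = i then 8 * (k : ℝ) else 0) := by
    intro m
    simp
  rw [hl, hl, hl, Matrix.one_apply]
  obtain ⟨h1, h2, h3⟩ := p8_V_per hk M γ S 1 (x j) (x (j + 1)) (x (j + 2))
  have hcases : i = j ∨ i = j + 1 ∨ i = j + 2 := by
    fin_cases i <;> fin_cases j <;> simp
  have n1 : ¬ (j + 1 = j) := by fin_cases j <;> decide
  have n2 : ¬ (j + 2 = j) := by fin_cases j <;> decide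
  have n3 : ¬ (j = j + 1) := fun h => n1 h.symm
  have n4 : ¬ (j = j + 2) := fun h => n2 h.symm
  have n5 : ¬ (j + 1 = j + 2) := by fin_cases j <;> decide
  have n6 : ¬ (j + 2 = j + 1) := fun h => n5 h.symm
  rcases hcases with rfl | rfl | rfl
  · rw [if_pos rfl, if_neg n1, if_neg n2, add_zero, add_zero, if_pos rfl, mul_one]
    exact h1
  · rw [if_neg n3, if_pos rfl, if_neg n6, if_neg n3, add_zero, add_zero, mul_zero, add_zero]
    exact h2
  · rw [if_neg n4, if_neg n5, if_pos rfl, if_neg n4, add_zero, add_zero, mul_zero, add_zero]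
    exact h3

end per

/-! ### bounds -/

theorem p8_g_abs (x : ℝ) : |p8_g x| ≤ 1 := by
  have e : p8_g x = cut (3 / 4) 1 (x - 2 - 4 * round ((x - 2) / 4)) := rfl
  rw [e, abs_of_nonneg (p8_cut_nonneg _ _ _)]
  exact p8_cut_le_one _ _ _

theorem p8_bound {f : ℝ → ℝ} (hf : Continuous f) {k : ℕ} (hk : 5 ≤ k) :
    ∃ B : ℝ, 0 < B ∧ ∀ x, |f (xi (4 * k) x)| ≤ B := by
  obtain ⟨B, hB⟩ := (isCompact_Icc (a := -(2 * k : ℝ)) (b := 2 * k)).exists_bound_of_continuousOn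
    hf.continuousOn
  refine ⟨max B 1, by positivity, fun x => ?_⟩
  have h := abs_le.mp (p8_abs_sub_round (L := 4 * k) (by linarith [p8_L hk]) x)
  refine le_trans (hB (xi (4 * k) x) ?_) (le_max_left _ _)
  unfold xi
  constructor <;> linarith

theorem p8_sq_le {a b c d : ℝ} (hb : |a| ≤ b) (hd : |c| ≤ d) : (a * c) ^ 2 ≤ (b * d) ^ 2 := by
  apply sq_le_sq'
  · have : |a * c| ≤ b * d := by
      rw [abs_mul]
      exact mul_le_mul hb hd (abs_nonneg _) (le_trans (abs_nonneg _) hb)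
    exact (abs_le.mp this).1
  · have : |a * c| ≤ b * d := by
      rw [abs_mul]
      exact mul_le_mul hb hd (abs_nonneg _) (le_trans (abs_nonneg _) hb)
    exact (abs_le.mp this).2

theorem p8_wall {k M : ℕ} (hk : 5 ≤ k) (hM : 1 ≤ M) {γ S σ δ : ℝ} (hγ : 0 < γ)
    (hγ' : γ ≤ 1 / 8) (hS0 : 0 < S) (hS : S * γ = 2 * k) (hσ : σ = 1 ∨ σ = -1)
    (hδ : δ ≤ 1 / 10) {B B2 : ℝ} (hB : ∀ x, |p8_cd k x| ≤ B)
    (hB2 : ∀ x, |p8_ps2 k x| ≤ B2) {x u z : ℝ} (h : Wall k M γ δ σ x u z) :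
    p8_E k M γ S σ z x u ≤ B ^ 2 + (S * B2) ^ 2 / M ^ 2 ∧
      (¬ Lev k δ σ x → p8_E k M γ S σ z x u ≤ (S * B2) ^ 2 / M ^ 2) := by
  have hgap : p8_E k M γ S σ z x u = (S * p8_ps2 k x * p8_zs k M γ z x) ^ 2 →
      p8_E k M γ S σ z x u ≤ (S * B2) ^ 2 / M ^ 2 := by
    intro h
    rw [h]
    have h1 : |S * p8_ps2 k x| ≤ S * B2 := by
      rw [abs_mul, abs_of_pos hS0]
      exact mul_le_mul_of_nonneg_left (hB2 x) hS0.le
    calc _ ≤ (S * B2 * (1 / M)) ^ 2 := p8_sq_le h1 (p8_zs_abs k M γ z x)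
      _ = (S * B2) ^ 2 / M ^ 2 := by ring
  have hB0 : 0 ≤ B ^ 2 := sq_nonneg B
  rcases h with ⟨h1, hu, hz⟩ | ⟨h1, h2, hu, hz⟩ | ⟨h1, h2, hu, hz⟩ | ⟨hlev, hz⟩
  · have hn := p8_near h1
    have := hgap (p8_E_gap hk hS hσ hz hu (by linarith) (Or.inl ⟨hn.2.1, hn.2.2⟩))
    exact ⟨by linarith, fun _ => this⟩
  · have hl := p8_leaf_deriv hk hM hγ hγ' h1 h2 hz
    have := hgap (p8_E_gap hk hS hσ (p8_leaf_bar hγ hγ' h1 h2 hz) hu (by linarith)
      (Or.inr ⟨hl.1, hl.2, p8_cd_leaf h1 h2⟩))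
    exact ⟨by linarith, fun _ => this⟩
  · have hf := p8_far h1
    have := hgap (p8_E_gap hk hS hσ hz hu (by linarith) (Or.inl ⟨hf.ps1, hf.cd⟩))
    exact ⟨by linarith, fun _ => this⟩
  · refine ⟨?_, fun hn => absurd hlev hn⟩
    rw [p8_E_thin hk hσ hz (p8_level hk hδ hσ hlev)]
    have h1 : |S * p8_ps2 k x| ≤ S * B2 := by
      rw [abs_mul, abs_of_pos hS0]
      exact mul_le_mul_of_nonneg_left (hB2 x) hS0.le
    have h2 : |p8_g u * p8_zs k M γ z x| ≤ 1 / M := by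
      rw [abs_mul]
      calc _ ≤ 1 * (1 / (M : ℝ)) :=
            mul_le_mul (p8_g_abs u) (p8_zs_abs k M γ z x) (abs_nonneg _) (by norm_num)
        _ = 1 / M := by ring
    have h3 : (S * p8_ps2 k x * (p8_g u * p8_zs k M γ z x)) ^ 2 ≤ (S * B2) ^ 2 / M ^ 2 := by
      calc _ ≤ (S * B2 * (1 / M)) ^ 2 := p8_sq_le h1 h2
        _ = (S * B2) ^ 2 / M ^ 2 := by ring
    have h4 : p8_cd k u ^ 2 ≤ B ^ 2 := by
      have := abs_le.mp (hB u)
      exact sq_le_sq' this.1 this.2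
    linarith

/-- The mechanism. -/
theorem mech (k : ℕ) (hk : 5 ≤ k) (hk' : Odd k) : ∃ C₀ : ℝ, 0 < C₀ ∧ ∀ γ : ℝ, 0 < γ →
    γ ≤ 1 / 8 → ∃ C₁ : ℝ, 0 < C₁ ∧ ∀ (M : ℕ) (δ : ℝ), 1 ≤ M → 0 < δ → δ ≤ 1 / 10 →
    ∃ v ∈ Adm (8 * k) 1, (∀ x : E3, (∀ i, 3 ≤ |xi (4 * k) (x i)|) → strain v x = 0) ∧
      (∀ x ∈ Sol k M γ δ, inn (strain v x) (strain v x) ≤ C₀ + C₁ / M ^ 2) ∧
      (∀ x ∈ Sol k M γ δ, (∀ i, ¬ Lev k δ 1 (x i) ∧ ¬ Lev k δ (-1) (x i)) →
        inn (strain v x) (strain v x) ≤ C₁ / M ^ 2) := by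
  have _ := hk'
  obtain ⟨B1, hB1, hB1'⟩ := p8_bound (k := k) (p8_deriv_s p8_sg_s).continuous hk
  obtain ⟨B2, hB2, hB2'⟩ := p8_bound (k := k)
    (p8_deriv_s (p8_deriv_s (p8_cut_smooth 1 2))).continuous hk
  have hkpos : (0 : ℝ) < k := by linarith [p8_L hk]
  have hB : ∀ x, |p8_cd k x| ≤ 2 * k * B1 := by
    intro x
    have e : p8_cd k x = deriv (p8_cF k (round (x / (4 * k)))) (xi (4 * k) x) := rfl
    rw [e, p8_cF_deriv, abs_mul, abs_of_pos (show (0 : ℝ) < 2 * k by linarith)]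
    exact mul_le_mul_of_nonneg_left (hB1' x) (by linarith)
  have hB2'' : ∀ x, |p8_ps2 k x| ≤ B2 := fun x => hB2' x
  refine ⟨(2 * k * B1) ^ 2, by positivity, fun γ hγ hγ' => ?_⟩
  set S : ℝ := 2 * k / γ with hSdef
  have hS0 : 0 < S := by positivity
  have hS : S * γ = 2 * k := by rw [hSdef]; field_simp
  refine ⟨(S * B2) ^ 2, by positivity, fun M δ hM hδ hδ' => ?_⟩
  have key : ∀ x ∈ Sol k M γ δ,
      p8_E k M γ S 1 (x 0) (x 1) (x 2) ≤ (2 * k * B1) ^ 2 + (S * B2) ^ 2 / M ^ 2 ∧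
      ((∀ i, ¬ Lev k δ 1 (x i) ∧ ¬ Lev k δ (-1) (x i)) →
        p8_E k M γ S 1 (x 0) (x 1) (x 2) ≤ (S * B2) ^ 2 / M ^ 2) := by
    intro x hx
    have hcyc : ∀ w : Fin 3, p8_E k M γ S 1 (x w) (x (w + 1)) (x (w + 2)) =
        p8_E k M γ S 1 (x 0) (x 1) (x 2) := by
      intro w
      fin_cases w
      · rfl
      · exact p8_E_cyc k M γ S 1 (x 0) (x 1) (x 2)
      · exact (p8_E_cyc k M γ S 1 (x 1) (x 2) (x 0)).trans
          (p8_E_cyc k M γ S 1 (x 0) (x 1) (x 2))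
    rcases hx with hx | ⟨w, hx | hx⟩
    · rw [p8_E_block (hx 0) (hx 1) (hx 2)]
      exact ⟨by positivity, fun _ => by positivity⟩
    · have h := p8_wall hk hM hγ hγ' hS0 hS (Or.inl rfl) hδ' hB hB2'' hx
      rw [hcyc w] at h
      exact ⟨h.1, fun hl => h.2 (hl _).1⟩
    · have h := p8_wall hk hM hγ hγ' hS0 hS (Or.inr rfl) hδ' hB hB2'' hx
      rw [p8_E_swap k M γ S 1, hcyc w] at h
      exact ⟨h.1, fun hl => h.2 (hl _).2⟩
  refine ⟨p8_v k M γ S, p8_v_adm hk M γ S, ?_, ?_, ?_⟩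
  · intro x hx
    apply p8_inn_zero
    rw [p8_inn_strain hk]
    exact p8_E_block (hx 0) (hx 1) (hx 2)
  · intro x hx
    rw [p8_inn_strain hk]
    exact (key x hx).1
  · intro x hx hl
    rw [p8_inn_strain hk]
    exact (key x hx).2 hl

end Pool.Agent.ShearComposite.D3
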