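import Pool.Agent.ShearComposite3.Base3

/-!
# Volumes of slabs in the cell
-/

set_option autoImplicit false

open MeasureTheory Metric
open scoped ContDiff

namespace Pool.Agent.ShearComposite.D3

/-- the volume of a slab in the cell -/
theorem p10_slab (P : ℝ) (hP : 0 < P) (i : Fin 3) (c r : ℝ) :
    volume {x : E3 | x ∈ cell P ∧ |x i - c| ≤ r} ≤ ENNReal.ofReal (2 * r * P ^ 2) := by
  have hmp := EuclideanSpace.volume_preserving_symm_measurableEquiv_toLp (Fin 3)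
  set e := (MeasurableEquiv.toLp 2 (Fin 3 → ℝ)).symm with he
  have hsub : {x : E3 | x ∈ cell P ∧ |x i - c| ≤ r} ⊆
      e ⁻¹' (Set.univ.pi fun j => if j = i then Set.Icc (c - r) (c + r) else Set.Ico 0 P) := by
    rintro x ⟨hx, hxi⟩
    simp only [Set.mem_preimage, Set.mem_univ_pi]
    intro j
    have hej : e x j = x j := rfl
    rw [hej]
    by_cases hj : j = i
    · subst hj
      simp only [if_true, Set.mem_Icc]
      have := abs_le.1 hxi
      constructor <;> linarith [this.1, this.2]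
    · simp only [hj, if_false, Set.mem_Ico]
      exact ⟨(hx j).1, (hx j).2⟩
  refine (measure_mono hsub).trans ?_
  rw [hmp.measure_preimage_equiv, MeasureTheory.volume_pi_pi]
  have hprod : ∏ j : Fin 3, volume (if j = i then Set.Icc (c - r) (c + r) else Set.Ico 0 P) =
      ENNReal.ofReal (2 * r) * ENNReal.ofReal P ^ 2 := by
    have h1 : ∀ j : Fin 3, volume (if j = i then Set.Icc (c - r) (c + r) else Set.Ico 0 P) =
        if j = i then ENNReal.ofReal (2 * r) else ENNReal.ofReal P := by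
      intro j
      by_cases hj : j = i
      · simp only [hj, if_true, Real.volume_Icc]
        congr 1
        ring
      · simp [hj, Real.volume_Ico]
    rw [Finset.prod_congr rfl fun j _ => h1 j]
    fin_cases i <;> simp [Fin.prod_univ_three] <;> ring
  rw [hprod]
  rcases le_or_gt 0 r with hr | hr
  · rw [← ENNReal.ofReal_pow hP.le, ← ENNReal.ofReal_mul (by linarith)]
  · rw [ENNReal.ofReal_of_nonpos (by linarith : 2 * r ≤ 0)]
    simp

/-- a union of finitely many slabs -/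
theorem p10_union {ι : Type} (s : Finset ι) (P : ℝ) (hP : 0 < P) (c : ι → ℝ) (r : ℝ)
    (hr : 0 ≤ r) (S : Set E3)
    (hS : ∀ x ∈ S, x ∈ cell P ∧ ∃ i : Fin 3, ∃ a ∈ s, |x i - c a| ≤ r) :
    volume S ≤ ENNReal.ofReal (3 * (s.card * (2 * r * P ^ 2))) := by
  have hsub : S ⊆ ⋃ i : Fin 3, ⋃ a ∈ s, {x : E3 | x ∈ cell P ∧ |x i - c a| ≤ r} := by
    intro x hx
    obtain ⟨h1, i, a, ha, h2⟩ := hS x hx
    exact Set.mem_iUnion.2 ⟨i, Set.mem_iUnion₂.2 ⟨a, ha, h1, h2⟩⟩
  have hpos : 0 ≤ 2 * r * P ^ 2 := by positivity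
  calc volume S ≤ volume (⋃ i : Fin 3, ⋃ a ∈ s, {x : E3 | x ∈ cell P ∧ |x i - c a| ≤ r}) :=
        measure_mono hsub
    _ ≤ ∑ i : Fin 3, volume (⋃ a ∈ s, {x : E3 | x ∈ cell P ∧ |x i - c a| ≤ r}) := by
        rw [← tsum_fintype (L := .unconditional _)]
        exact measure_iUnion_le _
    _ ≤ ∑ _i : Fin 3, ∑ _a ∈ s, ENNReal.ofReal (2 * r * P ^ 2) := by
        refine Finset.sum_le_sum fun i _ => ?_
        exact (measure_biUnion_finset_le s _).trans
          (Finset.sum_le_sum fun a _ => p10_slab P hP i (c a) r)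
    _ = ENNReal.ofReal (3 * (s.card * (2 * r * P ^ 2))) := by
        rw [Finset.sum_const, Finset.sum_const, Finset.card_univ, Fintype.card_fin]
        generalize 2 * r * P ^ 2 = t at hpos ⊢
        rw [ENNReal.ofReal_mul (by norm_num : (0 : ℝ) ≤ 3),
          ENNReal.ofReal_mul (by positivity : (0 : ℝ) ≤ (s.card : ℝ)), nsmul_eq_mul,
          nsmul_eq_mul, ENNReal.ofReal_natCast]
        norm_num

theorem p10_round (L x : ℝ) (hL : 0 < L) (h0 : 0 ≤ x) (h1 : x < 2 * L) (j : ℤ) (r : ℝ)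
    (hr : r < L) (h : |x - L * j| ≤ r) : j ∈ ({0, 1, 2} : Finset ℤ) := by
  have h2 := abs_le.1 h
  have h3 : (-1 : ℝ) < j := by
    by_contra hc
    rw [not_lt] at hc
    nlinarith [h2.2]
  have h4 : (j : ℝ) < 3 := by
    by_contra hc
    rw [not_lt] at hc
    nlinarith [h2.1]
  have h5 : -1 < j := by exact_mod_cast h3
  have h6 : j < 3 := by exact_mod_cast h4
  simp only [Finset.mem_insert, Finset.mem_singleton]
  omega

theorem vol_slab (k : ℕ) (hk : 5 ≤ k) (ε : ℝ) (hε : 0 < ε) : ∃ δ₀ : ℝ, 0 < δ₀ ∧ ∀ δ : ℝ,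
    δ ≤ δ₀ → volume {x : E3 | x ∈ cell (8 * k) ∧ ∃ i, Lev k δ 1 (x i) ∨ Lev k δ (-1) (x i)} ≤
      ENNReal.ofReal ε := by
  have hk' : (5 : ℝ) ≤ k := by exact_mod_cast hk
  have hP : (0 : ℝ) < 8 * k := by linarith
  refine ⟨min 1 (ε / (36 * (8 * k) ^ 2)), ?_, ?_⟩
  · refine lt_min one_pos (by positivity)
  intro δ hδ
  set d := min 1 (ε / (36 * (8 * (k : ℝ)) ^ 2)) with hd
  have hd0 : 0 < d := lt_min one_pos (by positivity)
  have hd1 : d ≤ 1 := min_le_left _ _
  have hd2 : d ≤ ε / (36 * (8 * (k : ℝ)) ^ 2) := min_le_right _ _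
  have h := p10_union (({0, 1, 2} : Finset ℤ) ×ˢ ({1, -1} : Finset ℤ)) (8 * k) hP
    (fun a => a.1 * (4 * k) + a.2 * (-1) ^ a.1 / 2) d hd0.le
    {x : E3 | x ∈ cell (8 * k) ∧ ∃ i, Lev k δ 1 (x i) ∨ Lev k δ (-1) (x i)} ?_
  · refine h.trans (ENNReal.ofReal_le_ofReal ?_)
    have hcard : (({0, 1, 2} : Finset ℤ) ×ˢ ({1, -1} : Finset ℤ)).card = 6 := by decide
    rw [hcard]
    rw [le_div_iff₀ (by positivity)] at hd2
    push_cast
    linarith
  rintro x ⟨hx, i, hi⟩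
  refine ⟨hx, i, ?_⟩
  have hone : ∀ j : ℤ, |((-1 : ℝ)) ^ j| = 1 := by
    intro j
    rw [abs_zpow, abs_neg, abs_one, one_zpow]
  have key : ∀ s : ℤ, s ∈ ({1, -1} : Finset ℤ) → Lev k δ (s : ℝ) (x i) →
      ∃ a ∈ (({0, 1, 2} : Finset ℤ) ×ˢ ({1, -1} : Finset ℤ)),
        |x i - (a.1 * (4 * k) + a.2 * (-1) ^ a.1 / 2)| ≤ d := by
    rintro s hs ⟨j, hj⟩
    refine ⟨(j, s), ?_, hj.trans (hδ)⟩
    refine Finset.mem_product.2 ⟨?_, hs⟩
    refine p10_round (4 * k) (x i) (by linarith) (hx i).1 ?_ j 2 (by linarith) ?_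
    · have := (hx i).2
      linarith
    · have hs1 : |(s : ℝ)| = 1 := by
        simp only [Finset.mem_insert, Finset.mem_singleton] at hs
        rcases hs with rfl | rfl <;> simp
      have h3 : |(s : ℝ) * (-1) ^ j / 2| = 1 / 2 := by
        rw [abs_div, abs_mul, hs1, hone]
        norm_num
      have h4 : x i - 4 * k * j = (x i - (j * (4 * k) + s * (-1) ^ j / 2)) +
          (s : ℝ) * (-1) ^ j / 2 := by ring
      rw [h4]
      refine (abs_add_le _ _).trans ?_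
      rw [h3]
      linarith [hj, hδ, hd1]
  rcases hi with hi | hi
  · exact key 1 (by simp) (by simpa using hi)
  · exact key (-1) (by simp) (by simpa using hi)

theorem vol_wall : ∃ C : ℝ, 0 < C ∧ ∀ k : ℕ, 5 ≤ k →
    volume {x : E3 | x ∈ cell (8 * k) ∧ ∃ i, |xi (4 * k) (x i)| ≤ 5} ≤
      ENNReal.ofReal (C * k ^ 2) := by
  refine ⟨5760, by norm_num, fun k hk => ?_⟩
  have hk' : (5 : ℝ) ≤ k := by exact_mod_cast hk
  have hP : (0 : ℝ) < 8 * k := by linarith
  have h := p10_union ({0, 1, 2} : Finset ℤ) (8 * k) hP (fun a => (4 * k) * a) 5 (by norm_num)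
    {x : E3 | x ∈ cell (8 * k) ∧ ∃ i, |xi (4 * k) (x i)| ≤ 5} ?_
  · refine h.trans (ENNReal.ofReal_le_ofReal ?_)
    have hcard : ({0, 1, 2} : Finset ℤ).card = 3 := by decide
    rw [hcard]
    push_cast
    ring_nf
    exact le_refl _
  rintro x ⟨hx, i, hi⟩
  refine ⟨hx, i, round (x i / (4 * k)), ?_, hi⟩
  refine p10_round (4 * k) (x i) (by linarith) (hx i).1 ?_ _ 5 (by linarith) hi
  have := (hx i).2
  linarith

end Pool.Agent.ShearComposite.D3
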