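import Pool.Agent.ShearComposite3.Alg
import Pool.Agent.ShearComposite3.CellA
import Pool.Agent.ShearComposite3.CellB
import Pool.Agent.ShearComposite3.Static
import Pool.Agent.ShearComposite3.Force
import Pool.Agent.ShearComposite3.Mech
import Pool.Agent.ShearComposite3.SolFacts
import Pool.Agent.ShearComposite3.Vol3

/-!
# Existence of the base structure
-/

set_option autoImplicit false

open MeasureTheory Metric
open scoped ContDiff

namespace Pool.Agent.ShearComposite.D3

theorem z_integrableOn (P : ℝ) (g : E3 → ℝ) (hg : Continuous g) (A : Set E3) :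
    IntegrableOn g (cell P ∩ A) := by
  have h1 : IsCompact (closure (cell P)) := (isBounded_cell P).isCompact_closure
  exact (hg.continuousOn.integrableOn_compact h1).mono_set
    (Set.inter_subset_left.trans subset_closure)

theorem z_integrableOn' (P : ℝ) (g : E3 → ℝ) (hg : Continuous g) (A : Set E3)
    (hA : A ⊆ cell P) : IntegrableOn g A := by
  have h := z_integrableOn P g hg A
  rwa [Set.inter_eq_right.2 hA] at h

theorem z_continuous_inn (T S : E3 → M3) (hT : ∀ i j, Continuous fun x => T x i j)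
    (hS : ∀ i j, Continuous fun x => S x i j) : Continuous fun x => inn (T x) (S x) := by
  unfold inn
  exact continuous_finsetSum _ fun i _ => continuous_finsetSum _ fun j _ => (hT i j).mul (hS i j)

theorem z_continuous_cden (κ μ : ℝ) (T : E3 → M3) (hT : ∀ i j, Continuous fun x => T x i j) :
    Continuous fun x => cden κ μ (T x) := by
  unfold cden
  have h1 : Continuous fun x => (T x).trace := by
    unfold Matrix.trace
    exact continuous_finsetSum _ fun i _ => hT i i
  have h2 := z_continuous_inn T T hT hT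
  fun_prop

theorem z_continuous_density (κ μ : ℝ) (T : E3 → M3) (hT : ∀ i j, Continuous fun x => T x i j) :
    Continuous fun x => density κ μ (T x) := by
  simp_rw [density_eq]
  have h1 : Continuous fun x => (T x).trace := by
    unfold Matrix.trace
    exact continuous_finsetSum _ fun i _ => hT i i
  have h2 := z_continuous_inn T T hT hT
  fun_prop

theorem z_strain_entry (v : E3 → E3) (hv : ContDiff ℝ ∞ v) (i j : Fin 3) :
    Continuous fun x => strain v x i j :=
  (continuous_apply_apply i j).comp (continuous_strain v hv)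

theorem z_inn_nonneg (A : M3) : 0 ≤ inn A A :=
  Finset.sum_nonneg fun i _ => Finset.sum_nonneg fun j _ => mul_self_nonneg _

/-- bound for `inn` by the entries -/
theorem z_inn_le (A : M3) (c : ℝ) (h : ∀ i j, |A i j| ≤ c) : inn A A ≤ 9 * c ^ 2 := by
  have h1 : ∀ i j, A i j * A i j ≤ c ^ 2 := by
    intro i j
    rw [← sq, ← sq_abs]
    exact pow_le_pow_left₀ (abs_nonneg _) (h i j) 2
  unfold inn
  calc ∑ i, ∑ j, A i j * A i j ≤ ∑ _i : Fin 3, ∑ _j : Fin 3, c ^ 2 :=
        Finset.sum_le_sum fun i _ => Finset.sum_le_sum fun j _ => h1 i j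
    _ = 9 * c ^ 2 := by simp [Finset.sum_const]; ring

/-- the stress part of the argument for one load -/
theorem z_stiff {κ μ : ℝ} (hκ : 0 < κ) (hμ : 0 < μ) (k M : ℕ) (hk : 5 ≤ k) (γ δ η β τ : ℝ)
    (hδ : 0 < δ) (hη : 0 < η) (hηk : 5 < η * (4 * k)) (ε₀ : M3) (hε : ε₀.IsSymm)
    (hσ : (2 * μ) • ε₀ = !![-β, τ, 0; τ, β, 0; 0, 0, 0]) (hin : inn ε₀ ε₀ = 2)
    (htr : ε₀.trace = 0)
    (T : E3 → M3) (hT : ∀ i j, ContDiff ℝ ∞ fun x => T x i j) (hper : PerFun (4 * k) T)
    (hsym : ∀ x i j, T x i j = T x j i)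
    (hd0 : ∀ x, ∑ j, pd j (fun y => T y 0 j) x = 0)
    (hd1 : ∀ x, ∑ j, pd j (fun y => T y 1 j) x = 0)
    (hd2 : ∀ x, ∑ j, pd j (fun y => T y 2 j) x = γ * fz k γ β τ x)
    (hoff : ∀ x, x ∉ Sol k M γ δ → T x = 0)
    (hbulk : ∀ x, (∀ i, 5 ≤ |xi (4 * k) (x i)|) → T x = !![-β, τ, 0; τ, β, 0; 0, 0, 0])
    (Bd : ℝ) (hBd : ∀ x, cden κ μ (T x) ≤ Bd) (hBd0 : 0 ≤ Bd)
    (hm0 : ∫ x in cell (8 * k), (T x 0 0 + β) = 0)
    (hm1 : ∫ x in cell (8 * k), (T x 1 1 - β) = 0)
    (hm2 : ∫ x in cell (8 * k), (T x 0 1 - τ) = 0)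
    (v : E3 → E3) (hv : v ∈ Adm (8 * k) ε₀) :
    2 * (∫ x in cell (8 * k) \ inner (4 * k) η, inn ((2 * μ) • ε₀) (strain v x)) ≤
      en κ μ ((cell (8 * k) \ inner (4 * k) η) ∩ Sol k M γ δ) v
      + 4 * μ * (volume (cell (8 * k) \ inner (4 * k) η)).toReal
      + Bd * (volume {x : E3 | x ∈ cell (8 * k) ∧ ∃ i, |xi (4 * k) (x i)| ≤ 5}).toReal
      + 2 * γ * ∫ x in cell (8 * k), fz k γ β τ x * v x 2 := by
  have hk0 : (0 : ℝ) < k := by exact_mod_cast (by omega : 0 < k)
  have hP : (0 : ℝ) < 8 * k := by positivity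
  set Y : Set E3 := cell (8 * k) with hY
  set I : Set E3 := inner (4 * k) η with hI
  set σ : M3 := (2 * μ) • ε₀ with hσ'
  have hYm : MeasurableSet Y := measurableSet_cell _
  have hIc : IsClosed I := by
    have : I = ⋂ i, {x : E3 | |x i - 4 * k / 2| ≤ (1 / 2 - η) * (4 * k)} := by
      ext x; simp [hI, inner]
    rw [this]
    exact isClosed_iInter fun i => isClosed_le (by fun_prop) continuous_const
  have hIm : MeasurableSet I := hIc.measurableSet
  have hvc : ContDiff ℝ ∞ v := hv.1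
  have hTc : ∀ i j, Continuous fun x => T x i j := fun i j => (hT i j).continuous
  have hSc := fun i j => z_strain_entry v hvc i j
  -- periodicity
  have hper8 : PerFun (8 * k) T := by
    intro i x
    have : (EuclideanSpace.single i (8 * k : ℝ) : E3) =
        EuclideanSpace.single i (4 * k : ℝ) + EuclideanSpace.single i (4 * k : ℝ) := by
      ext l
      by_cases h : l = i
      · subst h
        simp
        ring
      · simp [h]
    rw [this, ← add_assoc, hper, hper]
  -- the weak identities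
  have hrow : ∀ j, ε₀ 2 j = 0 := by
    intro j
    have h := congrFun (congrFun hσ 2) j
    rw [hσ'] at h
    simp only [Matrix.smul_apply, smul_eq_mul] at h
    have h2 : (2 * μ) * ε₀ 2 j = 0 := by
      rw [h]
      fin_cases j <;> simp
    rcases mul_eq_zero.1 h2 with h3 | h3
    · linarith
    · exact h3
  have hw1 := weak_identity hP T hT hper8 hsym
    ![fun _ => 0, fun _ => 0, fun x => γ * fz k γ β τ x]
    (by
      intro i x
      fin_cases i
      · simpa using hd0 x
      · simpa using hd1 x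
      · simpa using hd2 x) ε₀ hε v hv
  have hw2 := weak_identity hP (fun _ => σ) (fun i j => contDiff_const) (fun i x => rfl)
    (fun x i j => by rw [hσ']; exact (hε.smul (2 * μ)).apply j i)
    (fun _ _ => 0) (by
      intro i x
      refine Finset.sum_eq_zero fun j _ => ?_
      simp [pd]) ε₀ hε v hv
  have e1 : ∀ x : E3, ∑ i, (![fun _ => 0, fun _ => 0, fun x => γ * fz k γ β τ x] : Fin 3 → E3 → ℝ)
      i x * (v x i - mact ε₀ x i) = γ * (fz k γ β τ x * v x 2) := by
    intro x
    have : mact ε₀ x 2 = 0 := by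
      simp only [mact]
      exact Finset.sum_eq_zero fun j _ => by rw [hrow, zero_mul]
    simp only [Fin.sum_univ_three, Matrix.cons_val_zero, Matrix.cons_val_one, Matrix.cons_val,
      this, sub_zero, zero_mul]
    ring
  simp_rw [e1] at hw1
  rw [integral_const_mul] at hw1
  simp only [zero_mul, Finset.sum_const_zero, integral_zero, sub_zero] at hw2
  -- the means agree
  have hε00 : (2 * μ) * ε₀ 0 0 = -β := by simpa [hσ'] using congrFun (congrFun hσ 0) 0
  have hε01 : (2 * μ) * ε₀ 0 1 = τ := by simpa [hσ'] using congrFun (congrFun hσ 0) 1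
  have hε10 : (2 * μ) * ε₀ 1 0 = τ := by simpa [hσ'] using congrFun (congrFun hσ 1) 0
  have hε11 : (2 * μ) * ε₀ 1 1 = β := by simpa [hσ'] using congrFun (congrFun hσ 1) 1
  have hε02 : ε₀ 0 2 = 0 := (hε.apply 2 0).trans (hrow 0)
  have hε12 : ε₀ 1 2 = 0 := (hε.apply 2 1).trans (hrow 1)
  have hYint : ∀ g : E3 → ℝ, Continuous g → IntegrableOn g Y := fun g hg =>
    z_integrableOn' _ g hg Y subset_rfl
  have hmean : ∫ x in Y, inn (T x) ε₀ = ∫ x in Y, inn σ ε₀ := by
    have h1 : ∀ x, inn (T x) ε₀ = inn σ ε₀ + (ε₀ 0 0 * (T x 0 0 + β) + ε₀ 1 1 * (T x 1 1 - β)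
        + 2 * ε₀ 0 1 * (T x 0 1 - τ)) := by
      intro x
      have h2 : σ 0 0 = -β := by rw [hσ]; simp
      have h3 : σ 0 1 = τ := by rw [hσ]; simp
      have h4 : σ 1 0 = τ := by rw [hσ]; simp
      have h5 : σ 1 1 = β := by rw [hσ]; simp
      have h6 : ε₀ 1 0 = ε₀ 0 1 := hε.apply 0 1
      simp only [inn, Fin.sum_univ_three, hrow, hε02, hε12, h2, h3, h4, h5, h6, hsym x 1 0]
      ring
    simp_rw [h1]
    have c1 : Continuous fun x => ε₀ 0 0 * (T x 0 0 + β) :=
      continuous_const.mul ((hTc 0 0).add continuous_const)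
    have c2 : Continuous fun x => ε₀ 1 1 * (T x 1 1 - β) :=
      continuous_const.mul ((hTc 1 1).sub continuous_const)
    have c3 : Continuous fun x => 2 * ε₀ 0 1 * (T x 0 1 - τ) :=
      continuous_const.mul ((hTc 0 1).sub continuous_const)
    have c12 : Continuous fun x => ε₀ 0 0 * (T x 0 0 + β) + ε₀ 1 1 * (T x 1 1 - β) := c1.add c2
    have c123 : Continuous fun x => ε₀ 0 0 * (T x 0 0 + β) + ε₀ 1 1 * (T x 1 1 - β)
        + 2 * ε₀ 0 1 * (T x 0 1 - τ) := c12.add c3
    rw [integral_add (hYint (fun _ => inn σ ε₀) continuous_const) (hYint _ c123),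
      integral_add (hYint _ c12) (hYint _ c3), integral_add (hYint _ c1) (hYint _ c2),
      integral_const_mul, integral_const_mul, integral_const_mul, hm0, hm1, hm2]
    ring
  have hTS : Continuous fun x => inn (T x) (strain v x) := z_continuous_inn _ _ hTc hSc
  have hσS : Continuous fun x => inn σ (strain v x) :=
    z_continuous_inn (fun _ => σ) _ (fun i j => continuous_const) hSc
  have hY1 : ∫ x in Y, inn (T x) (strain v x) = (∫ x in Y, inn σ (strain v x)) -
      γ * ∫ x in Y, fz k γ β τ x * v x 2 := by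
    rw [hw1, hw2, hmean]
  -- cut off the inner block
  have hsplit : ∀ g : E3 → ℝ, Continuous g → ∫ x in Y, g x =
      (∫ x in Y ∩ I, g x) + ∫ x in Y \ I, g x := fun g hg =>
    (integral_inter_add_sdiff hIm (hYint g hg)).symm
  have hYI : ∫ x in Y ∩ I, inn (T x) (strain v x) = ∫ x in Y ∩ I, inn σ (strain v x) := by
    refine setIntegral_congr_fun (hYm.inter hIm) fun x hx => ?_
    rw [hbulk x fun i => ?_, ← hσ]
    exact (hηk.le).trans (inner_xi k (by omega) η hη x hx.2 i)
  have hmain : ∫ x in Y \ I, inn (T x) (strain v x) = (∫ x in Y \ I, inn σ (strain v x)) -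
      γ * ∫ x in Y, fz k γ β τ x * v x 2 := by
    have h1 := hsplit _ hTS
    have h2 := hsplit _ hσS
    rw [hY1, h2, hYI] at h1
    linarith
  -- pointwise duality
  have hSolm := Sol_meas k M γ δ
  have hdc : Continuous fun x => density κ μ (strain v x) := z_continuous_density κ μ _ hSc
  have hcc : Continuous fun x => cden κ μ (T x) := z_continuous_cden κ μ T hTc
  have hdual : 2 * (∫ x in Y \ I, inn (T x) (strain v x)) ≤
      en κ μ ((Y \ I) ∩ Sol k M γ δ) v + ∫ x in Y \ I, cden κ μ (T x) := by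
    have hYI' : (Y \ I) ⊆ Y := Set.sdiff_subset
    have i1 : IntegrableOn (fun x => inn (T x) (strain v x)) (Y \ I) :=
      z_integrableOn' _ _ hTS _ hYI'
    have i2 : IntegrableOn (fun x => density κ μ (strain v x)) (Y \ I) :=
      z_integrableOn' _ _ hdc _ hYI'
    have i3 : IntegrableOn (fun x => cden κ μ (T x)) (Y \ I) := z_integrableOn' _ _ hcc _ hYI'
    unfold en
    rw [← setIntegral_indicator hSolm, ← integral_const_mul, ← integral_add (i2.indicator hSolm) i3]
    refine integral_mono (i1.const_mul 2) ((i2.indicator hSolm).add i3) fun x => ?_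
    simp only
    by_cases hx : x ∈ Sol k M γ δ
    · rw [Set.indicator_of_mem hx]
      exact density_dual hκ hμ _ _
    · rw [Set.indicator_of_notMem hx, hoff x hx]
      simp [inn, cden]
  -- the complementary energy
  set Wl : Set E3 := {x : E3 | ∃ i, |xi (4 * k) (x i)| ≤ 5} with hWl
  have hWlm : MeasurableSet Wl := by
    have : Wl = ⋃ i, {x : E3 | |xi (4 * k) (x i)| ≤ 5} := by ext x; simp [hWl]
    rw [this]
    refine MeasurableSet.iUnion fun i => ?_
    have h1 : Measurable fun y : ℝ => |xi (4 * k) y| := by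
      unfold xi
      have h2 : Measurable fun y : ℝ => (round (y / (4 * k)) : ℝ) := by
        have : Measurable fun y : ℝ => round (y / (4 * (k : ℝ))) := by
          have h3 : (fun y : ℝ => round (y / (4 * (k : ℝ)))) =
              fun y : ℝ => ⌊y / (4 * (k : ℝ)) + 1 / 2⌋ := by
            funext y
            exact round_eq _
          rw [h3]
          exact Int.measurable_floor.comp (by fun_prop)
        exact (measurable_from_top (f := fun n : ℤ => (n : ℝ))).comp this
      have h4 : Measurable fun y : ℝ => y - 4 * k * (round (y / (4 * k)) : ℝ) :=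
        measurable_id.sub (h2.const_mul _)
      exact h4.abs
    exact measurableSet_le (h1.comp (by fun_prop)) measurable_const
  have hcdσ : cden κ μ σ = 4 * μ := by
    have h1 : σ.trace = 0 := by rw [hσ', Matrix.trace_smul, htr, smul_zero]
    have h2 : inn σ σ = (2 * μ) ^ 2 * inn ε₀ ε₀ := by
      rw [hσ']
      unfold inn
      simp only [Matrix.smul_apply, smul_eq_mul, Finset.mul_sum]
      refine Finset.sum_congr rfl fun i _ => Finset.sum_congr rfl fun j _ => ?_
      ring
    rw [cden_trace_zero κ μ σ h1, h2, hin]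
    field_simp
    ring
  have hcd : ∫ x in Y \ I, cden κ μ (T x) ≤ 4 * μ * (volume (Y \ I)).toReal +
      Bd * (volume {x : E3 | x ∈ Y ∧ ∃ i, |xi (4 * k) (x i)| ≤ 5}).toReal := by
    have hfin : volume (Y \ I) < ⊤ := lt_of_le_of_lt (measure_mono Set.sdiff_subset)
      (isBounded_cell _).measure_lt_top
    have hfinY : volume Y < ⊤ := (isBounded_cell _).measure_lt_top
    have i3 : IntegrableOn (fun x => cden κ μ (T x)) (Y \ I) :=
      z_integrableOn' _ _ hcc _ Set.sdiff_subset
    have i4 : IntegrableOn (fun _ : E3 => 4 * μ) (Y \ I) := integrableOn_const hfin.ne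
    have i5 : IntegrableOn (Wl.indicator fun _ : E3 => Bd) (Y \ I) :=
      (integrableOn_const hfin.ne).indicator hWlm
    have h1 : ∫ x in Y \ I, cden κ μ (T x) ≤
        ∫ x in Y \ I, (4 * μ + Wl.indicator (fun _ : E3 => Bd) x) := by
      refine integral_mono i3 (i4.add i5) fun x => ?_
      simp only
      by_cases hx : x ∈ Wl
      · rw [Set.indicator_of_mem hx]
        have := hBd x
        linarith
      · rw [Set.indicator_of_notMem hx]
        have h2 : ∀ i, 5 ≤ |xi (4 * k) (x i)| := by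
          intro i
          by_contra h3
          exact hx ⟨i, (not_le.1 h3).le⟩
        rw [hbulk x h2, ← hσ, hcdσ, add_zero]
    refine h1.trans ?_
    rw [integral_add i4 i5, setIntegral_indicator hWlm, setIntegral_const, setIntegral_const]
    simp only [smul_eq_mul]
    have h3 : volume.real (Y \ I ∩ Wl) ≤
        (volume {x : E3 | x ∈ Y ∧ ∃ i, |xi (4 * k) (x i)| ≤ 5}).toReal := by
      refine ENNReal.toReal_mono ?_ (measure_mono ?_)
      · exact (lt_of_le_of_lt (measure_mono fun x hx => hx.1) hfinY).ne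
      · rintro x ⟨⟨hx1, -⟩, hx2⟩
        exact ⟨hx1, hx2⟩
    have h4 := mul_le_mul_of_nonneg_left h3 hBd0
    have h5 : volume.real (Y \ I) = (volume (Y \ I)).toReal := rfl
    rw [h5]
    linarith
  have e2 : 2 * (∫ x in Y \ I, inn σ (strain v x)) = 2 * (∫ x in Y \ I, inn (T x) (strain v x)) +
      2 * γ * ∫ x in Y, fz k γ β τ x * v x 2 := by
    rw [hmain]; ring
  rw [e2]
  linarith

theorem z_energy {κ μ : ℝ} (k M : ℕ) (hk : 5 ≤ k) (γ δ Cu C₀ C₁ e : ℝ) (hCu : 0 < Cu)
    (hup : ∀ A : M3, density κ μ A ≤ Cu * inn A A) (hC₀ : 0 < C₀)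
    (hvol : (volume {x : E3 | x ∈ cell (8 * k) ∧
      ∃ i, Lev k δ 1 (x i) ∨ Lev k δ (-1) (x i)}).toReal ≤ e)
    (v : E3 → E3) (hv : v ∈ Adm (8 * k) 1)
    (h1 : ∀ x ∈ Sol k M γ δ, inn (strain v x) (strain v x) ≤ C₀ + C₁ / M ^ 2)
    (h2 : ∀ x ∈ Sol k M γ δ, (∀ i, ¬ Lev k δ 1 (x i) ∧ ¬ Lev k δ (-1) (x i)) →
      inn (strain v x) (strain v x) ≤ C₁ / M ^ 2) (hC₁ : 0 < C₁) :
    en κ μ (cell (8 * k) ∩ Sol k M γ δ) v ≤ Cu * (C₁ / M ^ 2 * (8 * k) ^ 3 + C₀ * e) := by
  have hk0 : (0 : ℝ) < k := by exact_mod_cast (by omega : 0 < k)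
  have hP : (0 : ℝ) < 8 * k := by positivity
  set Y : Set E3 := cell (8 * k) with hY
  have hYm : MeasurableSet Y := measurableSet_cell _
  have hSm := Sol_meas k M γ δ
  have hYfin : volume Y < ⊤ := (isBounded_cell _).measure_lt_top
  have hSc := fun i j => z_strain_entry v hv.1 i j
  have hdc : Continuous fun x => density κ μ (strain v x) := z_continuous_density κ μ _ hSc
  set Sl : Set E3 := {x : E3 | x ∈ Y ∧ ∃ i, Lev k δ 1 (x i) ∨ Lev k δ (-1) (x i)} with hSl
  have hSlm : MeasurableSet Sl := by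
    have hlev : ∀ s : ℝ, MeasurableSet {y : ℝ | Lev k δ s y} := by
      intro s
      have : {y : ℝ | Lev k δ s y} =
          ⋃ j : ℤ, {y : ℝ | |y - (j * (4 * k) + s * (-1) ^ j / 2)| ≤ δ} := by
        ext y; simp [Lev]
      rw [this]
      exact MeasurableSet.iUnion fun j => measurableSet_le (by fun_prop) measurable_const
    have : Sl = Y ∩ ⋃ i : Fin 3, ({x : E3 | Lev k δ 1 (x i)} ∪ {x : E3 | Lev k δ (-1) (x i)}) := by
      ext x; simp [hSl]
    rw [this]
    refine hYm.inter (MeasurableSet.iUnion fun i => MeasurableSet.union ?_ ?_)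
    · exact (hlev 1).preimage (by fun_prop)
    · exact (hlev (-1)).preimage (by fun_prop)
  have hM0 : 0 ≤ C₁ / (M : ℝ) ^ 2 := by positivity
  have hpt : ∀ x ∈ Y ∩ Sol k M γ δ, density κ μ (strain v x) ≤
      Cu * (C₁ / M ^ 2) + Sl.indicator (fun _ => Cu * C₀) x := by
    rintro x ⟨hx1, hx2⟩
    by_cases hx : x ∈ Sl
    · rw [Set.indicator_of_mem hx]
      calc density κ μ (strain v x) ≤ Cu * inn (strain v x) (strain v x) := hup _
        _ ≤ Cu * (C₀ + C₁ / M ^ 2) := mul_le_mul_of_nonneg_left (h1 x hx2) hCu.le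
        _ = _ := by ring
    · rw [Set.indicator_of_notMem hx, add_zero]
      refine (hup _).trans (mul_le_mul_of_nonneg_left (h2 x hx2 ?_) hCu.le)
      intro i
      constructor
      · intro h
        exact hx ⟨hx1, i, Or.inl h⟩
      · intro h
        exact hx ⟨hx1, i, Or.inr h⟩
  have hfin' : volume (Y ∩ Sol k M γ δ) < ⊤ :=
    lt_of_le_of_lt (measure_mono Set.inter_subset_left) hYfin
  have i1 : IntegrableOn (fun x => density κ μ (strain v x)) (Y ∩ Sol k M γ δ) :=
    z_integrableOn _ _ hdc _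
  have i2 : IntegrableOn (fun _ : E3 => Cu * (C₁ / M ^ 2)) (Y ∩ Sol k M γ δ) :=
    integrableOn_const hfin'.ne
  have i3 : IntegrableOn (Sl.indicator fun _ => Cu * C₀) (Y ∩ Sol k M γ δ) :=
    (integrableOn_const hfin'.ne).indicator hSlm
  unfold en
  have h3 := setIntegral_mono_on i1 (i2.add i3) (hYm.inter hSm) hpt
  refine h3.trans ?_
  rw [integral_add' i2 i3, setIntegral_indicator hSlm, setIntegral_const, setIntegral_const]
  simp only [smul_eq_mul]
  have h4 : volume.real (Y ∩ Sol k M γ δ) ≤ (8 * k) ^ 3 := by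
    have : volume.real (Y ∩ Sol k M γ δ) ≤ volume.real Y :=
      measureReal_mono Set.inter_subset_left hYfin.ne
    refine this.trans ?_
    rw [hY, Measure.real, volume_cell _ hP, ENNReal.toReal_ofReal (by positivity)]
  have h5 : volume.real (Y ∩ Sol k M γ δ ∩ Sl) ≤ e := by
    refine le_trans ?_ hvol
    refine measureReal_mono Set.inter_subset_right ?_
    exact (lt_of_le_of_lt (measure_mono fun x hx => hx.1) hYfin).ne
  have h6 : volume.real (Y ∩ Sol k M γ δ) * (Cu * (C₁ / M ^ 2)) ≤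
      (8 * k) ^ 3 * (Cu * (C₁ / M ^ 2)) := mul_le_mul_of_nonneg_right h4 (by positivity)
  have h7 : volume.real (Y ∩ Sol k M γ δ ∩ Sl) * (Cu * C₀) ≤ e * (Cu * C₀) :=
    mul_le_mul_of_nonneg_right h5 (by positivity)
  calc _ ≤ (8 * (k : ℝ)) ^ 3 * (Cu * (C₁ / M ^ 2)) + e * (Cu * C₀) := add_le_add h6 h7
    _ = _ := by ring

theorem base_exists {κ μ : ℝ} (hκ : 0 < κ) (hμ : 0 < μ) : BaseExists κ μ := by
  intro η hη
  obtain ⟨cl, hcl, hlow⟩ := density_lower hκ hμ
  obtain ⟨Cu, hCu, hup⟩ := density_upper hκ hμ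
  obtain ⟨Cc, hCc, hcden⟩ := cden_upper hκ hμ
  obtain ⟨Cs, hCs, hstat⟩ := static_field
  obtain ⟨Cv, hCv, hvolw⟩ := vol_wall
  set B : ℝ := Cc * (9 * (Cs * (2 * μ)) ^ 2) with hB
  have hB0 : 0 < B := by positivity
  -- the size of the block
  obtain ⟨k, hk, hko, hkη, hkB⟩ : ∃ k : ℕ, 5 ≤ k ∧ Odd k ∧ 5 < η * (4 * k) ∧
      B * (Cv * k ^ 2) ≤ η / 2 * (4 * k) ^ 3 := by
    obtain ⟨m, hm⟩ := exists_nat_gt (5 / η + B * Cv / (32 * η))
    refine ⟨2 * m + 5, by omega, ⟨m + 2, by ring⟩, ?_, ?_⟩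
    · have h1 : 5 / η < m := lt_of_le_of_lt (by
        have : 0 ≤ B * Cv / (32 * η) := by positivity
        linarith) hm
      rw [div_lt_iff₀ hη] at h1
      push_cast
      nlinarith
    · have h1 : B * Cv / (32 * η) < m := lt_of_le_of_lt (by
        have : 0 ≤ 5 / η := by positivity
        linarith) hm
      rw [div_lt_iff₀ (by positivity)] at h1
      push_cast
      have h2 : B * Cv ≤ 32 * η * (2 * m + 5) := by nlinarith [Nat.cast_nonneg (α := ℝ) m]
      have h3 : (0 : ℝ) ≤ (2 * m + 5) ^ 2 := by positivity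
      calc B * (Cv * (2 * (m : ℝ) + 5) ^ 2) = B * Cv * (2 * m + 5) ^ 2 := by ring
        _ ≤ 32 * η * (2 * m + 5) * (2 * m + 5) ^ 2 := mul_le_mul_of_nonneg_right h2 h3
        _ = η / 2 * (4 * (2 * m + 5)) ^ 3 := by ring
  have hk0 : (0 : ℝ) < k := by exact_mod_cast (by omega : 0 < k)
  set L : ℝ := 4 * k with hL
  have hL0 : 0 < L := by positivity
  have h8 : 2 * L = 8 * k := by rw [hL]; ring
  -- the thin bars
  obtain ⟨C₀, hC₀, hmech⟩ := mech k hk hko
  obtain ⟨δ₀, hδ₀, hslab⟩ := vol_slab k hk (η * L ^ 3 / (2 * Cu * C₀)) (by positivity)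
  set δ : ℝ := min (1 / 10) δ₀ with hδ
  have hδ0 : 0 < δ := by positivity
  have hδ1 : δ ≤ 1 / 10 := min_le_left _ _
  obtain ⟨Cf, hCf, hforce⟩ := force_bound k hk hko δ hδ0 hδ1
  -- the tilt
  set G : ℝ := Cf * (2 * μ) with hG
  have hG0 : 0 < G := by positivity
  set γ : ℝ := min (1 / 8) (min (η * L ^ 3 / (2 * G)) (η * cl / G)) with hγ
  have hγ0 : 0 < γ := by positivity
  have hγ1 : γ ≤ 1 / 8 := min_le_left _ _
  have hγ2 : γ * G ≤ η / 2 * L ^ 3 := by
    have : γ ≤ η * L ^ 3 / (2 * G) := (min_le_right _ _).trans (min_le_left _ _)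
    rw [le_div_iff₀ (by positivity)] at this
    linarith
  have hγ3 : γ * G ≤ η * cl := by
    have : γ ≤ η * cl / G := (min_le_right _ _).trans (min_le_right _ _)
    rwa [le_div_iff₀ (by positivity)] at this
  obtain ⟨C₁, hC₁, hmech'⟩ := hmech γ hγ0 hγ1
  -- the number of leaves
  obtain ⟨M, hM1, hM⟩ : ∃ M : ℕ, 1 ≤ M ∧ Cu * (C₁ / M ^ 2 * (8 * k) ^ 3) ≤ η / 2 * L ^ 3 := by
    obtain ⟨m, hm⟩ := exists_nat_gt (16 * Cu * C₁ / η)
    refine ⟨m + 1, by omega, ?_⟩
    rw [div_lt_iff₀ hη] at hm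
    push_cast
    have h1 : (0 : ℝ) < (m + 1) ^ 2 := by positivity
    have h2 : 16 * Cu * C₁ ≤ η * ((m : ℝ) + 1) ^ 2 := by
      have h3 : (0 : ℝ) ≤ m := Nat.cast_nonneg m
      have h4 := mul_nonneg hη.le h3
      have h5 := mul_nonneg h4 h3
      calc 16 * Cu * C₁ ≤ m * η := hm.le
        _ ≤ η * ((m : ℝ) + 1) ^ 2 := by
          have h6 : η * ((m : ℝ) + 1) ^ 2 = m * η + (η * m * m + η * m + η) := by ring
          rw [h6]
          linarith
    have h4 : C₁ / ((m : ℝ) + 1) ^ 2 * (16 * Cu) ≤ η := by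
      rw [div_mul_eq_mul_div, div_le_iff₀ h1]
      linarith
    have h5 : (8 * (k : ℝ)) ^ 3 = 8 * L ^ 3 := by rw [hL]; ring
    rw [h5]
    have h6 : 0 < L ^ 3 := by positivity
    calc Cu * (C₁ / ((m : ℝ) + 1) ^ 2 * (8 * L ^ 3)) =
        C₁ / ((m : ℝ) + 1) ^ 2 * (16 * Cu) * (L ^ 3 / 2) := by ring
      _ ≤ η * (L ^ 3 / 2) := mul_le_mul_of_nonneg_right h4 (by positivity)
      _ = η / 2 * L ^ 3 := by ring
  obtain ⟨v, hv, hv0, hv1, hv2⟩ := hmech' M δ hM1 hδ0 hδ1
  have hηk : 5 < η * (4 * k) := hkη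
  refine ⟨L, Sol k M γ δ, hL0, Sol_meas k M γ δ, Sol_per k M (by omega) γ δ,
    Sol_cyc k M γ δ, Sol_flip k M hk hko γ δ, ?_, ⟨v, ?_, ?_, ?_⟩, ?_⟩
  · intro x hx
    left
    intro i
    have := inner_xi k (by omega) η hη x hx i
    linarith
  · rw [h8]
    exact hv
  · intro x hx
    refine hv0 x fun i => ?_
    have := inner_xi k (by omega) η hη x hx i
    linarith
  · rw [h8]
    have h1 := z_energy k M hk γ δ Cu C₀ C₁ (η * L ^ 3 / (2 * Cu * C₀)) hCu hup hC₀
      (ENNReal.toReal_le_of_le_ofReal (by positivity) (hslab δ (min_le_right _ _))) v hv hv1 hv2 hC₁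
    refine h1.trans ?_
    have h2 : Cu * (C₀ * (η * L ^ 3 / (2 * Cu * C₀))) = η / 2 * L ^ 3 := by
      field_simp
    calc _ = Cu * (C₁ / M ^ 2 * (8 * k) ^ 3) + Cu * (C₀ * (η * L ^ 3 / (2 * Cu * C₀))) := by ring
      _ ≤ η / 2 * L ^ 3 + η / 2 * L ^ 3 := by rw [h2]; exact add_le_add hM le_rfl
      _ = _ := by ring
  · intro ε₀ hε v hv
    rw [h8] at hv ⊢
    obtain ⟨β, τ, hσ, hsym, hin, htr, hβτ⟩ : ∃ β τ : ℝ,
        (2 * μ) • ε₀ = !![-β, τ, 0; τ, β, 0; 0, 0, 0] ∧ ε₀.IsSymm ∧ inn ε₀ ε₀ = 2 ∧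
        ε₀.trace = 0 ∧ |β| + |τ| = 2 * μ := by
      rcases hε with rfl | rfl
      · refine ⟨-(2 * μ), 0, ?_, ?_, ?_, ?_, ?_⟩
        · ext i j
          fin_cases i <;> fin_cases j <;> simp [NA]
        · ext i j
          fin_cases i <;> fin_cases j <;> simp [NA, Matrix.transpose_apply]
        · simp [inn, NA, Fin.sum_univ_three]; norm_num
        · simp [NA, Matrix.trace, Fin.sum_univ_three]
        · rw [abs_neg, abs_zero, add_zero, abs_of_pos (by positivity)]
      · refine ⟨0, 2 * μ, ?_, ?_, ?_, ?_, ?_⟩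
        · ext i j
          fin_cases i <;> fin_cases j <;> simp [E12]
        · ext i j
          fin_cases i <;> fin_cases j <;> simp [E12, Matrix.transpose_apply]
        · simp [inn, E12, Fin.sum_univ_three]; norm_num
        · simp [E12, Matrix.trace, Fin.sum_univ_three]
        · rw [abs_zero, zero_add, abs_of_pos (by positivity)]
    obtain ⟨T, hT, hper, hsymT, hd0, hd1, hd2, hoff, hbulk, hbd, hm0, hm1, hm2⟩ :=
      hstat k M γ β τ hk hko hM1 hγ0.le hγ1
    have hBd : ∀ x, cden κ μ (T x) ≤ B := by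
      intro x
      refine (hcden _).trans ?_
      rw [hB]
      refine mul_le_mul_of_nonneg_left ?_ hCc.le
      refine z_inn_le _ _ fun i j => ?_
      rw [← hβτ]
      exact hbd x i j
    have hmain := z_stiff hκ hμ k M hk γ δ η β τ hδ0 hη hηk ε₀ hsym hσ hin htr T hT hper hsymT
      hd0 hd1 hd2 (hoff δ hδ0) hbulk B hBd hB0.le hm0 hm1 hm2 v hv
    have hf := hforce γ β τ hγ0.le hγ1 ε₀ v hv
    set X : ℝ := ∫ x in cell (8 * k) ∩ CoreS k δ, inn (strain v x) (strain v x) with hX
    set E : ℝ := en κ μ ((cell (8 * k) \ inner (4 * k) η) ∩ Sol k M γ δ) v with hE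
    have hSc := fun i j => z_strain_entry v hv.1 i j
    have hX0 : 0 ≤ X := by
      refine setIntegral_nonneg ((measurableSet_cell _).inter (CoreS_meas k δ)) fun x _ => ?_
      exact z_inn_nonneg _
    have hXE : cl * X ≤ E := by
      rw [hX, hE, en, ← integral_const_mul]
      have hsub : cell (8 * k) ∩ CoreS k δ ⊆
          (cell (8 * k) \ inner (4 * k) η) ∩ Sol k M γ δ := by
        rintro x ⟨hx1, hx2⟩
        refine ⟨⟨hx1, fun hx3 => ?_⟩, CoreS_subset k M γ δ hx2⟩
        exact (Set.disjoint_left.1 (inner_CoreS k (by omega) η δ hηk hδ1)) hx3 hx2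
      have hdc : Continuous fun x => density κ μ (strain v x) := z_continuous_density κ μ _ hSc
      have hic : Continuous fun x => inn (strain v x) (strain v x) :=
        z_continuous_inn _ _ hSc hSc
      have i2 : IntegrableOn (fun x => density κ μ (strain v x))
          ((cell (8 * k) \ inner (4 * k) η) ∩ Sol k M γ δ) :=
        z_integrableOn' _ _ hdc _ (fun x hx => hx.1.1)
      calc ∫ x in cell (8 * k) ∩ CoreS k δ, cl * inn (strain v x) (strain v x)
          ≤ ∫ x in cell (8 * k) ∩ CoreS k δ, density κ μ (strain v x) := by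
            refine integral_mono ?_ ?_ fun x => hlow _
            · exact z_integrableOn _ _ (continuous_const.mul hic) _
            · exact z_integrableOn _ _ hdc _
        _ ≤ _ := by
            refine setIntegral_mono_set i2 ?_ hsub.eventuallyLE
            exact Filter.Eventually.of_forall fun x => density_nonneg hκ hμ _
    have hwall : (volume {x : E3 | x ∈ cell (8 * k) ∧ ∃ i, |xi (4 * k) (x i)| ≤ 5}).toReal ≤
        Cv * k ^ 2 := ENNReal.toReal_le_of_le_ofReal (by positivity) (hvolw k hk)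
    have h1 : B * (volume {x : E3 | x ∈ cell (8 * k) ∧ ∃ i, |xi (4 * k) (x i)| ≤ 5}).toReal ≤
        η / 2 * L ^ 3 := (mul_le_mul_of_nonneg_left hwall hB0.le).trans hkB
    have h2 : 2 * γ * ∫ x in cell (8 * k), fz k γ β τ x * v x 2 ≤ η / 2 * L ^ 3 + η * E := by
      have h3 : (∫ x in cell (8 * k), fz k γ β τ x * v x 2) ≤ G * √X := by
        refine (le_abs_self _).trans (hf.trans ?_)
        rw [hβτ]
      have h4 : 2 * √X ≤ 1 + X := by
        nlinarith [Real.sq_sqrt hX0, sq_nonneg (√X - 1)]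
      have h5 : 2 * γ * ∫ x in cell (8 * k), fz k γ β τ x * v x 2 ≤ γ * G * (1 + X) := by
        have h6 : 2 * γ * ∫ x in cell (8 * k), fz k γ β τ x * v x 2 ≤ 2 * γ * (G * √X) :=
          mul_le_mul_of_nonneg_left h3 (by positivity)
        have h7 : 2 * γ * (G * √X) ≤ γ * G * (1 + X) := by
          have h9 : 0 < γ * G := mul_pos hγ0 hG0
          calc 2 * γ * (G * √X) = γ * G * (2 * √X) := by ring
            _ ≤ γ * G * (1 + X) := mul_le_mul_of_nonneg_left h4 h9.le
        exact h6.trans h7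
      have h8 : γ * G * X ≤ η * E := by
        calc γ * G * X ≤ η * cl * X := mul_le_mul_of_nonneg_right hγ3 hX0
          _ = η * (cl * X) := by ring
          _ ≤ η * E := mul_le_mul_of_nonneg_left hXE hη.le
      have h10 : γ * G * (1 + X) = γ * G + γ * G * X := by ring
      rw [h10] at h5
      exact h5.trans (add_le_add hγ2 h8)
    have h11 : (1 + η) * E = E + η * E := by ring
    rw [h11]
    have h12 : η / 2 * L ^ 3 + η / 2 * L ^ 3 = η * L ^ 3 := by ring
    clear_value E X B G γ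
    linarith [hmain, h1, h2, h12]

end Pool.Agent.ShearComposite.D3
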