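import Pool.Agent.ShearComposite3.Base3
import Pool.Agent.ShearComposite3.Alg
import Pool.Agent.ShearComposite3.Cof

/-!
# The corrector: one thin wall with leaves

The wall is `|x₀| ≤ e`, `|x₁|, |x₂| ≤ 1/2`; everything is removed from it except thin leaves
normal to the direction `x₁` (period `t`).
-/

set_option autoImplicit false

open MeasureTheory Metric
open scoped ContDiff

namespace Pool.Agent.ShearComposite.D3


/-! ### one dimensional profiles -/

theorem q3_cut_one {a b x : ℝ} (ha : 0 ≤ a) (hab : a < b) (hx : |x| ≤ a) : cut a b x = 1 := by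
  unfold cut
  apply Real.smoothTransition.one_of_one_le
  have h1 : x ^ 2 ≤ a ^ 2 := by
    rw [← sq_abs x]
    exact pow_le_pow_left₀ (abs_nonneg x) hx 2
  have h2 : 0 < b ^ 2 - a ^ 2 := by nlinarith
  rw [le_div_iff₀ h2]
  linarith

theorem q3_cut_zero {a b x : ℝ} (ha : 0 ≤ a) (hab : a < b) (hx : b ≤ |x|) : cut a b x = 0 := by
  unfold cut
  apply Real.smoothTransition.zero_of_nonpos
  have h1 : b ^ 2 ≤ x ^ 2 := by
    rw [← sq_abs x]
    exact pow_le_pow_left₀ (by linarith) hx 2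
  have h2 : 0 < b ^ 2 - a ^ 2 := by nlinarith
  exact div_nonpos_of_nonpos_of_nonneg (by linarith) h2.le

theorem q3_cut_nonneg (a b x : ℝ) : 0 ≤ cut a b x := Real.smoothTransition.nonneg _

theorem q3_cut_le (a b x : ℝ) : cut a b x ≤ 1 := Real.smoothTransition.le_one _

theorem q3_cut_smooth (a b : ℝ) : ContDiff ℝ ∞ (cut a b) := by
  unfold cut
  exact Real.smoothTransition.contDiff.comp
    ((contDiff_const.sub (contDiff_id.pow 2)).div_const _)

theorem q3_floor_eventually {s : ℝ} (hs : Int.fract s ≠ 0) :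
    ∀ᶠ s' in nhds s, ⌊s'⌋ = ⌊s⌋ := by
  have h1 : (⌊s⌋ : ℝ) < s := by
    rcases lt_or_eq_of_le (Int.floor_le s) with h | h
    · exact h
    · exfalso
      apply hs
      rw [Int.fract, h, sub_self]
  have h2 := Int.lt_floor_add_one s
  filter_upwards [Ioo_mem_nhds h1 h2] with s' hs'
  rw [Int.floor_eq_iff]
  exact ⟨hs'.1.le, hs'.2⟩

theorem q3_fract_right {n : ℤ} {s : ℝ} (h1 : (n : ℝ) ≤ s) (h2 : s < n + 1) :
    Int.fract s = s - n := by
  have : ⌊s⌋ = n := Int.floor_eq_iff.2 ⟨h1, h2⟩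
  rw [Int.fract, this]

theorem q3_fract_left {n : ℤ} {s : ℝ} (h1 : (n : ℝ) - 1 ≤ s) (h2 : s < n) :
    Int.fract s = 1 + (s - n) := by
  have : ⌊s⌋ = n - 1 := Int.floor_eq_iff.2 ⟨by push_cast; exact h1, by push_cast; linarith⟩
  rw [Int.fract, this]
  push_cast
  ring

/-- gluing: local form near an integer -/
theorem q3_glue_int (f φ : ℝ → ℝ) (ρ : ℝ) (hρ1 : ρ ≤ 1)
    (h1 : ∀ r, 0 ≤ r → r < ρ → f r = φ r) (h2 : ∀ r, -ρ < r → r < 0 → f (1 + r) = φ r)
    (n : ℤ) {s : ℝ} (hs : |s - n| < ρ) :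
    (fun s' => f (Int.fract s')) =ᶠ[nhds s] fun s' => φ (s' - n) := by
  have ho : IsOpen {s' : ℝ | |s' - n| < ρ} :=
    isOpen_lt (by fun_prop) continuous_const
  filter_upwards [ho.mem_nhds hs] with s' hs'
  have h3 : |s' - n| < ρ := hs'
  rw [abs_lt] at h3
  rcases lt_or_ge s' n with h | h
  · rw [q3_fract_left (by linarith) h, h2 _ (by linarith) (by linarith)]
  · rw [q3_fract_right h (by linarith), h1 _ (by linarith) (by linarith)]

theorem q3_glue_mid (f : ℝ → ℝ) {s : ℝ} (hs : Int.fract s ≠ 0) :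
    (fun s' => f (Int.fract s')) =ᶠ[nhds s] fun s' => f (s' - ⌊s⌋) := by
  filter_upwards [q3_floor_eventually hs] with s' hs'
  rw [Int.fract, hs']

theorem q3_glue (f φ : ℝ → ℝ) (hf : ContDiff ℝ ∞ f) (hφ : ContDiff ℝ ∞ φ) (ρ : ℝ) (hρ : 0 < ρ)
    (hρ1 : ρ ≤ 1) (h1 : ∀ r, 0 ≤ r → r < ρ → f r = φ r)
    (h2 : ∀ r, -ρ < r → r < 0 → f (1 + r) = φ r) : ContDiff ℝ ∞ fun s => f (Int.fract s) := by
  rw [contDiff_iff_contDiffAt]
  intro s
  by_cases hs : Int.fract s = 0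
  · have hn : s = ⌊s⌋ := by
      rw [Int.fract] at hs
      linarith
    have := q3_glue_int f φ ρ hρ1 h1 h2 ⌊s⌋ (s := s) (by rw [← hn, sub_self, abs_zero]; exact hρ)
    exact (hφ.comp (contDiff_id.sub contDiff_const)).contDiffAt.congr_of_eventuallyEq this
  · exact (hf.comp (contDiff_id.sub contDiff_const)).contDiffAt.congr_of_eventuallyEq
      (q3_glue_mid f hs)

theorem q3_periodic_bdd (f : ℝ → ℝ) (hf : Continuous f) (hp : ∀ x, f (x + 1) = f x) :
    ∃ C : ℝ, ∀ x, |f x| ≤ C := by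
  have hb := Function.Periodic.isBounded_of_continuous (f := f) (c := 1) hp one_ne_zero hf
  obtain ⟨C, hC⟩ := hb.exists_norm_le
  exact ⟨C, fun x => by simpa using hC (f x) ⟨x, rfl⟩⟩

theorem q3_periodic_deriv (f : ℝ → ℝ) (hp : ∀ x, f (x + 1) = f x) (x : ℝ) :
    deriv f (x + 1) = deriv f x := by
  have e : (fun y => f (y + 1)) = f := funext hp
  rw [← deriv_comp_add_const, e]

theorem q3_compact_bdd (f : ℝ → ℝ) (hf : Continuous f) (a b : ℝ)
    (h0 : ∀ x, a ≤ x → x ≤ b ∨ f x = 0) (h1 : ∀ x, x < a → f x = 0) :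
    ∃ C : ℝ, ∀ x, |f x| ≤ C := by
  obtain ⟨C, hC⟩ := (isCompact_Icc (a := a) (b := b)).exists_bound_of_continuousOn hf.continuousOn
  refine ⟨max C 0, fun x => ?_⟩
  rcases lt_or_ge x a with h | h
  · rw [h1 x h, abs_zero]
    exact le_max_right _ _
  · rcases h0 x h with h' | h'
    · exact le_trans (hC x ⟨h, h'⟩) (le_max_left _ _)
    · rw [h', abs_zero]
      exact le_max_right _ _

/-- the sawtooth of the leaves: slope one on the leaves -/
noncomputable def q3_G (s : ℝ) : ℝ :=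
  (Int.fract s - 1 / 2) * cut (5 / 16) (3 / 8) (Int.fract s - 1 / 2)

theorem q3_G_smooth : ContDiff ℝ ∞ q3_G := by
  refine q3_glue (fun r => (r - 1 / 2) * cut (5 / 16) (3 / 8) (r - 1 / 2)) (fun _ => 0) ?_
    contDiff_const (1 / 8) (by norm_num) (by norm_num) ?_ ?_
  · exact (contDiff_id.sub contDiff_const).mul
      ((q3_cut_smooth _ _).comp (contDiff_id.sub contDiff_const))
  · intro r h1 h2
    rw [q3_cut_zero (by norm_num) (by norm_num), mul_zero]
    rw [abs_of_neg (by linarith)]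
    linarith
  · intro r h1 h2
    rw [q3_cut_zero (by norm_num) (by norm_num), mul_zero]
    rw [abs_of_pos (by linarith)]
    linarith

theorem q3_G_leaf {s : ℝ} (hs : |Int.fract s - 1 / 2| ≤ 1 / 4) : deriv q3_G s = 1 := by
  have h0 : Int.fract s ≠ 0 := by
    intro h
    rw [h, abs_of_neg (by norm_num)] at hs
    norm_num at hs
  have e1 := q3_glue_mid (fun r => (r - 1 / 2) * cut (5 / 16) (3 / 8) (r - 1 / 2)) h0
  have e2 : (fun s' : ℝ => (s' - ⌊s⌋ - 1 / 2) * cut (5 / 16) (3 / 8) (s' - ⌊s⌋ - 1 / 2))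
      =ᶠ[nhds s] fun s' => s' - ⌊s⌋ - 1 / 2 := by
    have ho : IsOpen {s' : ℝ | |s' - ⌊s⌋ - 1 / 2| < 5 / 16} :=
      isOpen_lt (by fun_prop) continuous_const
    have hm : s ∈ {s' : ℝ | |s' - ⌊s⌋ - 1 / 2| < 5 / 16} := by
      have : |s - ⌊s⌋ - 1 / 2| ≤ 1 / 4 := hs
      exact lt_of_le_of_lt this (by norm_num)
    filter_upwards [ho.mem_nhds hm] with s' hs'
    rw [q3_cut_one (by norm_num) (by norm_num) (le_of_lt hs'), mul_one]
  have e3 : q3_G =ᶠ[nhds s] fun s' => s' - ⌊s⌋ - 1 / 2 := e1.trans e2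
  rw [e3.deriv_eq]
  have : HasDerivAt (fun s' : ℝ => s' - ⌊s⌋ - 1 / 2) 1 s :=
    ((hasDerivAt_id s).sub_const _).sub_const _
  exact this.deriv

theorem q3_G_bdd : ∃ C : ℝ, 0 ≤ C ∧ (∀ s, |q3_G s| ≤ C) ∧ ∀ s, |deriv q3_G s| ≤ C := by
  have hp : ∀ x, q3_G (x + 1) = q3_G x := by
    intro x
    unfold q3_G
    rw [Int.fract_add_one]
  obtain ⟨C1, h1⟩ := q3_periodic_bdd q3_G q3_G_smooth.continuous hp
  obtain ⟨C2, h2⟩ := q3_periodic_bdd (deriv q3_G)
    (q3_G_smooth.continuous_deriv (by simp)) (q3_periodic_deriv _ hp)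
  have h0 := le_trans (abs_nonneg _) (h1 0)
  exact ⟨max C1 C2, le_trans h0 (le_max_left _ _), fun s => le_trans (h1 s) (le_max_left _ _),
    fun s => le_trans (h2 s) (le_max_right _ _)⟩

theorem q3_st_one {x : ℝ} (hx : 1 / 2 ≤ x) : st x = 1 :=
  Real.smoothTransition.one_of_one_le (by linarith)

theorem q3_st_zero {x : ℝ} (hx : x ≤ -(1 / 2)) : st x = 0 :=
  Real.smoothTransition.zero_of_nonpos (by linarith)

theorem q3_st_smooth : ContDiff ℝ ∞ st := by
  unfold st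
  exact Real.smoothTransition.contDiff.comp (contDiff_id.add contDiff_const)

theorem q3_rab_smooth : ContDiff ℝ ∞ rab := by
  unfold rab b2
  exact (contDiff_const.mul (contDiff_id.mul q3_st_smooth)).sub contDiff_id

theorem q3_rab_eq {x : ℝ} (hx : 1 / 2 ≤ |x|) : rab x = |x| := by
  unfold rab b2
  rcases le_total 0 x with h | h
  · rw [abs_of_nonneg h] at hx ⊢
    rw [q3_st_one hx]
    ring
  · rw [abs_of_nonpos h] at hx ⊢
    rw [q3_st_zero (by linarith)]
    ring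

/-- the potential of the leaves: second derivative `-1` off the leaves -/
noncomputable def q3_W (s : ℝ) : ℝ :=
  -(Int.fract s - 1 / 2) ^ 2 / 2 + rab (2 * (Int.fract s - 1 / 2)) / 4 - 1 / 8

theorem q3_W_h1 : ∀ r : ℝ, 0 ≤ r → r < 1 / 4 →
    (fun r : ℝ => -(r - 1 / 2) ^ 2 / 2 + rab (2 * (r - 1 / 2)) / 4 - 1 / 8) r =
      (fun r : ℝ => -r ^ 2 / 2) r := by
  intro r h1 h2
  simp only
  rw [q3_rab_eq (by rw [abs_of_neg (by linarith)]; linarith), abs_of_neg (by linarith)]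
  ring

theorem q3_W_h2 : ∀ r : ℝ, -(1 / 4) < r → r < 0 →
    (fun r : ℝ => -(r - 1 / 2) ^ 2 / 2 + rab (2 * (r - 1 / 2)) / 4 - 1 / 8) (1 + r) =
      (fun r : ℝ => -r ^ 2 / 2) r := by
  intro r h1 h2
  simp only
  rw [q3_rab_eq (by rw [abs_of_pos (by linarith)]; linarith), abs_of_pos (by linarith)]
  ring

theorem q3_W_smooth : ContDiff ℝ ∞ q3_W := by
  refine q3_glue (fun r => -(r - 1 / 2) ^ 2 / 2 + rab (2 * (r - 1 / 2)) / 4 - 1 / 8)
    (fun r => -r ^ 2 / 2) ?_ ?_ (1 / 4) (by norm_num) (by norm_num) q3_W_h1 q3_W_h2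
  · have h := q3_rab_smooth.comp (contDiff_const.mul (contDiff_id.sub contDiff_const) :
      ContDiff ℝ ∞ fun r : ℝ => 2 * (r - 1 / 2))
    have h' : ContDiff ℝ ∞ fun r : ℝ => rab (2 * (r - 1 / 2)) := h
    fun_prop
  · fun_prop

theorem q3_W_void {s : ℝ} (hs : 1 / 4 < |Int.fract s - 1 / 2|) : deriv (deriv q3_W) s = -1 := by
  have hn : ∃ n : ℤ, |s - n| < 1 / 4 := by
    have h1 := Int.fract_nonneg s
    have h2 := Int.fract_lt_one s
    have h3 : Int.fract s = s - ⌊s⌋ := rfl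
    rcases lt_abs.1 hs with h | h
    · refine ⟨⌊s⌋ + 1, ?_⟩
      rw [abs_lt]
      push_cast
      constructor <;> linarith
    · refine ⟨⌊s⌋, ?_⟩
      rw [abs_lt]
      constructor <;> linarith
  obtain ⟨n, hn⟩ := hn
  have e1 : q3_W =ᶠ[nhds s] fun s' : ℝ => -(s' - n) ^ 2 / 2 :=
    q3_glue_int _ (fun r : ℝ => -r ^ 2 / 2) (1 / 4) (by norm_num) q3_W_h1 q3_W_h2 n hn
  have e2 : deriv q3_W =ᶠ[nhds s] deriv fun s' : ℝ => -(s' - n) ^ 2 / 2 := e1.deriv
  rw [e2.deriv_eq]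
  have h1 : (deriv fun s' : ℝ => -(s' - n) ^ 2 / 2) = fun s' : ℝ => -(s' - n) := by
    funext x
    have h : HasDerivAt (fun s' : ℝ => -(s' - n) ^ 2 / 2)
        (-((2 : ℕ) * (x - n) ^ (2 - 1) * 1) / 2) x :=
      ((((hasDerivAt_id x).sub_const (n : ℝ)).pow 2).neg).div_const 2
    rw [h.deriv]
    norm_num
    ring
  rw [h1]
  have h : HasDerivAt (fun s' : ℝ => -(s' - n)) (-1) s := ((hasDerivAt_id s).sub_const _).neg
  exact h.deriv

theorem q3_W_bdd : ∃ C : ℝ, 0 ≤ C ∧ (∀ s, |q3_W s| ≤ C) ∧ (∀ s, |deriv q3_W s| ≤ C) ∧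
    ∀ s, |deriv (deriv q3_W) s| ≤ C := by
  have hp : ∀ x, q3_W (x + 1) = q3_W x := by
    intro x
    unfold q3_W
    rw [Int.fract_add_one]
  have hd : ContDiff ℝ ∞ (deriv q3_W) := by
    have : ContDiff ℝ (∞ + 1) q3_W := by simpa using q3_W_smooth
    exact (contDiff_succ_iff_deriv.1 this).2.2
  obtain ⟨C1, h1⟩ := q3_periodic_bdd q3_W q3_W_smooth.continuous hp
  obtain ⟨C2, h2⟩ := q3_periodic_bdd (deriv q3_W) hd.continuous (q3_periodic_deriv _ hp)
  obtain ⟨C3, h3⟩ := q3_periodic_bdd (deriv (deriv q3_W))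
    (hd.continuous_deriv (by simp)) (q3_periodic_deriv _ (q3_periodic_deriv _ hp))
  have h0 := le_trans (abs_nonneg _) (h1 0)
  refine ⟨max C1 (max C2 C3), le_trans h0 (le_max_left _ _),
    fun s => le_trans (h1 s) (le_max_left _ _),
    fun s => le_trans (h2 s) (le_trans (le_max_left _ _) (le_max_right _ _)),
    fun s => le_trans (h3 s) (le_trans (le_max_right _ _) (le_max_right _ _))⟩


/-- product of functions of the coordinates -/
noncomputable def q3_pr (a b c : ℝ → ℝ) (x : E3) : ℝ := a (x 0) * b (x 1) * c (x 2)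

theorem q3_coord_smooth (i : Fin 3) : ContDiff ℝ ∞ fun x : E3 => x i :=
  (EuclideanSpace.proj i : E3 →L[ℝ] ℝ).contDiff

theorem q3_pr_smooth {a b c : ℝ → ℝ} (ha : ContDiff ℝ ∞ a) (hb : ContDiff ℝ ∞ b)
    (hc : ContDiff ℝ ∞ c) : ContDiff ℝ ∞ (q3_pr a b c) :=
  ((ha.comp (q3_coord_smooth 0)).mul (hb.comp (q3_coord_smooth 1))).mul
    (hc.comp (q3_coord_smooth 2))

theorem q3_coord_fderiv (i : Fin 3) (x : E3) :
    HasFDerivAt (fun x : E3 => x i) (EuclideanSpace.proj i : E3 →L[ℝ] ℝ) x :=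
  (EuclideanSpace.proj i : E3 →L[ℝ] ℝ).hasFDerivAt

theorem q3_pr_fderiv {a b c : ℝ → ℝ} (ha : Differentiable ℝ a) (hb : Differentiable ℝ b)
    (hc : Differentiable ℝ c) (x : E3) (j : Fin 3) : pd j (q3_pr a b c) x =
      (if j = 0 then deriv a (x 0) * b (x 1) * c (x 2) else 0) +
      (if j = 1 then a (x 0) * deriv b (x 1) * c (x 2) else 0) +
      (if j = 2 then a (x 0) * b (x 1) * deriv c (x 2) else 0) := by
  have h0 := (ha (x 0)).hasDerivAt.comp_hasFDerivAt x (q3_coord_fderiv 0 x)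
  have h1 := (hb (x 1)).hasDerivAt.comp_hasFDerivAt x (q3_coord_fderiv 1 x)
  have h2 := (hc (x 2)).hasDerivAt.comp_hasFDerivAt x (q3_coord_fderiv 2 x)
  have h := (h0.mul h1).mul h2
  have e : HasFDerivAt (q3_pr a b c) _ x := h
  unfold pd
  rw [e.fderiv]
  fin_cases j <;> simp [ee] <;> ring

theorem q3_pd0 {a b c : ℝ → ℝ} (ha : Differentiable ℝ a) (hb : Differentiable ℝ b)
    (hc : Differentiable ℝ c) : pd 0 (q3_pr a b c) = q3_pr (deriv a) b c := by
  funext x
  rw [q3_pr_fderiv ha hb hc]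
  simp [q3_pr]

theorem q3_pd1 {a b c : ℝ → ℝ} (ha : Differentiable ℝ a) (hb : Differentiable ℝ b)
    (hc : Differentiable ℝ c) : pd 1 (q3_pr a b c) = q3_pr a (deriv b) c := by
  funext x
  rw [q3_pr_fderiv ha hb hc]
  simp [q3_pr]

theorem q3_pd2 {a b c : ℝ → ℝ} (ha : Differentiable ℝ a) (hb : Differentiable ℝ b)
    (hc : Differentiable ℝ c) : pd 2 (q3_pr a b c) = q3_pr a b (deriv c) := by
  funext x
  rw [q3_pr_fderiv ha hb hc]
  simp [q3_pr]

theorem q3_deriv_smooth {f : ℝ → ℝ} (hf : ContDiff ℝ ∞ f) : ContDiff ℝ ∞ (deriv f) := by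
  have : ContDiff ℝ (∞ + 1) f := by simpa using hf
  exact (contDiff_succ_iff_deriv.1 this).2.2

/-- second derivatives of a product of functions of the coordinates -/
theorem q3_hs_pr {a b c : ℝ → ℝ} (ha : ContDiff ℝ ∞ a) (hb : ContDiff ℝ ∞ b)
    (hc : ContDiff ℝ ∞ c) (x : E3) :
    hs (q3_pr a b c) x 0 0 = deriv (deriv a) (x 0) * b (x 1) * c (x 2) ∧
    hs (q3_pr a b c) x 1 1 = a (x 0) * deriv (deriv b) (x 1) * c (x 2) ∧
    hs (q3_pr a b c) x 2 2 = a (x 0) * b (x 1) * deriv (deriv c) (x 2) ∧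
    hs (q3_pr a b c) x 0 1 = deriv a (x 0) * deriv b (x 1) * c (x 2) ∧
    hs (q3_pr a b c) x 0 2 = deriv a (x 0) * b (x 1) * deriv c (x 2) ∧
    hs (q3_pr a b c) x 1 2 = a (x 0) * deriv b (x 1) * deriv c (x 2) := by
  have ha1 := ha.differentiable (by simp)
  have hb1 := hb.differentiable (by simp)
  have hc1 := hc.differentiable (by simp)
  have ha2 := (q3_deriv_smooth ha).differentiable (by simp)
  have hb2 := (q3_deriv_smooth hb).differentiable (by simp)
  have hc2 := (q3_deriv_smooth hc).differentiable (by simp)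
  unfold hs
  rw [q3_pd0 ha1 hb1 hc1, q3_pd1 ha1 hb1 hc1, q3_pd2 ha1 hb1 hc1]
  rw [q3_pd0 ha2 hb1 hc1, q3_pd1 ha1 hb2 hc1, q3_pd2 ha1 hb1 hc2, q3_pd0 ha1 hb2 hc1,
    q3_pd0 ha1 hb1 hc2, q3_pd1 ha1 hb1 hc2]
  exact ⟨rfl, rfl, rfl, rfl, rfl, rfl⟩

/-- a bound for all second derivatives which occur in `cof` -/
def q3_HB (A : E3 → ℝ) (x : E3) (C : ℝ) : Prop :=
  |hs A x 0 0| ≤ C ∧ |hs A x 1 1| ≤ C ∧ |hs A x 2 2| ≤ C ∧ |hs A x 0 1| ≤ C ∧
    |hs A x 0 2| ≤ C ∧ |hs A x 1 2| ≤ C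

theorem q3_mul_bd {p q C D : ℝ} (hp : |p| ≤ C) (hq : |q| ≤ D) : |p * q| ≤ C * D := by
  rw [abs_mul]
  exact mul_le_mul hp hq (abs_nonneg _) (le_trans (abs_nonneg _) hp)

theorem q3_cof_bd {A B : E3 → ℝ} {x : E3} {C D : ℝ} (hA : q3_HB A x C) (hB : q3_HB B x D)
    (i j : Fin 3) : |cof A B x i j| ≤ 4 * (C * D) := by
  obtain ⟨a1, a2, a3, a4, a5, a6⟩ := hA
  obtain ⟨b1, b2, b3, b4, b5, b6⟩ := hB
  obtain ⟨m11, n11⟩ := abs_le.1 (q3_mul_bd a1 b1)
  obtain ⟨m12, n12⟩ := abs_le.1 (q3_mul_bd a1 b2)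
  obtain ⟨m13, n13⟩ := abs_le.1 (q3_mul_bd a1 b3)
  obtain ⟨m14, n14⟩ := abs_le.1 (q3_mul_bd a1 b4)
  obtain ⟨m15, n15⟩ := abs_le.1 (q3_mul_bd a1 b5)
  obtain ⟨m16, n16⟩ := abs_le.1 (q3_mul_bd a1 b6)
  obtain ⟨m21, n21⟩ := abs_le.1 (q3_mul_bd a2 b1)
  obtain ⟨m22, n22⟩ := abs_le.1 (q3_mul_bd a2 b2)
  obtain ⟨m23, n23⟩ := abs_le.1 (q3_mul_bd a2 b3)
  obtain ⟨m24, n24⟩ := abs_le.1 (q3_mul_bd a2 b4)
  obtain ⟨m25, n25⟩ := abs_le.1 (q3_mul_bd a2 b5)
  obtain ⟨m26, n26⟩ := abs_le.1 (q3_mul_bd a2 b6)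
  obtain ⟨m31, n31⟩ := abs_le.1 (q3_mul_bd a3 b1)
  obtain ⟨m32, n32⟩ := abs_le.1 (q3_mul_bd a3 b2)
  obtain ⟨m33, n33⟩ := abs_le.1 (q3_mul_bd a3 b3)
  obtain ⟨m34, n34⟩ := abs_le.1 (q3_mul_bd a3 b4)
  obtain ⟨m35, n35⟩ := abs_le.1 (q3_mul_bd a3 b5)
  obtain ⟨m36, n36⟩ := abs_le.1 (q3_mul_bd a3 b6)
  obtain ⟨m41, n41⟩ := abs_le.1 (q3_mul_bd a4 b1)
  obtain ⟨m42, n42⟩ := abs_le.1 (q3_mul_bd a4 b2)
  obtain ⟨m43, n43⟩ := abs_le.1 (q3_mul_bd a4 b3)
  obtain ⟨m44, n44⟩ := abs_le.1 (q3_mul_bd a4 b4)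
  obtain ⟨m45, n45⟩ := abs_le.1 (q3_mul_bd a4 b5)
  obtain ⟨m46, n46⟩ := abs_le.1 (q3_mul_bd a4 b6)
  obtain ⟨m51, n51⟩ := abs_le.1 (q3_mul_bd a5 b1)
  obtain ⟨m52, n52⟩ := abs_le.1 (q3_mul_bd a5 b2)
  obtain ⟨m53, n53⟩ := abs_le.1 (q3_mul_bd a5 b3)
  obtain ⟨m54, n54⟩ := abs_le.1 (q3_mul_bd a5 b4)
  obtain ⟨m55, n55⟩ := abs_le.1 (q3_mul_bd a5 b5)
  obtain ⟨m56, n56⟩ := abs_le.1 (q3_mul_bd a5 b6)
  obtain ⟨m61, n61⟩ := abs_le.1 (q3_mul_bd a6 b1)
  obtain ⟨m62, n62⟩ := abs_le.1 (q3_mul_bd a6 b2)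
  obtain ⟨m63, n63⟩ := abs_le.1 (q3_mul_bd a6 b3)
  obtain ⟨m64, n64⟩ := abs_le.1 (q3_mul_bd a6 b4)
  obtain ⟨m65, n65⟩ := abs_le.1 (q3_mul_bd a6 b5)
  obtain ⟨m66, n66⟩ := abs_le.1 (q3_mul_bd a6 b6)
  fin_cases i <;> fin_cases j <;>
    simp only [cof, Fin.zero_eta, Fin.mk_one, Fin.reduceFinMk, Matrix.of_apply, Matrix.cons_val',
      Matrix.cons_val] <;> rw [abs_le] <;> constructor <;> linarith


/-! ### scaled profiles -/

theorem q3_deriv_scale (g : ℝ → ℝ) (hg : Differentiable ℝ g) (e : ℝ) :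
    deriv (fun y => g (y / e)) = fun y => deriv g (y / e) / e := by
  funext y
  have h1 : HasDerivAt (fun y : ℝ => y / e) (1 / e) y := (hasDerivAt_id y).div_const e
  have h := (hg (y / e)).hasDerivAt.comp y h1
  have h' : HasDerivAt (fun y => g (y / e)) (deriv g (y / e) * (1 / e)) y := h
  rw [h'.deriv]
  ring

theorem q3_scale_smooth {g : ℝ → ℝ} (hg : ContDiff ℝ ∞ g) (e : ℝ) :
    ContDiff ℝ ∞ fun y => g (y / e) :=
  hg.comp (contDiff_id.div_const e)

theorem q3_deriv2_scale (g : ℝ → ℝ) (hg : ContDiff ℝ ∞ g) (e : ℝ) :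
    deriv (deriv fun y => g (y / e)) = fun y => deriv (deriv g) (y / e) / e / e := by
  rw [q3_deriv_scale g (hg.differentiable (by simp))]
  have h := q3_deriv_scale (deriv g) ((q3_deriv_smooth hg).differentiable (by simp)) e
  funext y
  have h2 : HasDerivAt (fun y => deriv g (y / e)) (deriv (deriv g) (y / e) / e) y := by
    have h3 := (((q3_scale_smooth (q3_deriv_smooth hg) e).differentiable (by simp)) y).hasDerivAt
    rwa [h] at h3
  exact (h2.div_const e).deriv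

/-- functions with compact support and their first two derivatives are bounded -/
theorem q3_bdd2 (f : ℝ → ℝ) (hf : ContDiff ℝ ∞ f) (R : ℝ) (h0 : ∀ x, R < |x| → f x = 0) :
    ∃ C : ℝ, 0 ≤ C ∧ (∀ x, |f x| ≤ C) ∧ (∀ x, |deriv f x| ≤ C) ∧
      ∀ x, |deriv (deriv f) x| ≤ C := by
  have hz : ∀ g : ℝ → ℝ, (∀ x, R < |x| → g x = 0) → ∀ x, R < |x| → deriv g x = 0 := by
    intro g hg x hx
    have ho : IsOpen {y : ℝ | R < |y|} := isOpen_lt continuous_const continuous_abs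
    have : g =ᶠ[nhds x] fun _ => 0 := by
      filter_upwards [ho.mem_nhds hx] with y hy
      exact hg y hy
    rw [this.deriv_eq]
    simp
  have hb : ∀ g : ℝ → ℝ, Continuous g → (∀ x, R < |x| → g x = 0) → ∃ C : ℝ, ∀ x, |g x| ≤ C := by
    intro g hg h
    refine q3_compact_bdd g hg (-R) R ?_ ?_
    · intro x hx
      rcases le_or_gt x R with h' | h'
      · exact Or.inl h'
      · exact Or.inr (h x (lt_of_lt_of_le h' (le_abs_self x)))
    · intro x hx
      exact h x (by rw [lt_abs]; right; linarith)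
  have h1 := hz f h0
  have h2 := hz _ h1
  obtain ⟨C1, k1⟩ := hb f hf.continuous h0
  obtain ⟨C2, k2⟩ := hb _ (q3_deriv_smooth hf).continuous h1
  obtain ⟨C3, k3⟩ := hb _ (q3_deriv_smooth (q3_deriv_smooth hf)).continuous h2
  exact ⟨max C1 (max C2 C3), le_trans (le_trans (abs_nonneg _) (k1 0)) (le_max_left _ _),
    fun s => le_trans (k1 s) (le_max_left _ _),
    fun s => le_trans (k2 s) (le_trans (le_max_left _ _) (le_max_right _ _)),
    fun s => le_trans (k3 s) (le_trans (le_max_right _ _) (le_max_right _ _))⟩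

/-- the cutoff in direction `x₀` -/
noncomputable def q3_a1 (e : ℝ) (y : ℝ) : ℝ := y ^ 2 / 2 * cut 2 3 (y / e)

noncomputable def q3_b2 (t : ℝ) (y : ℝ) : ℝ := t ^ 2 * q3_W (y / t) * cut 1 2 y

noncomputable def q3_A1 (e : ℝ) : E3 → ℝ := q3_pr (q3_a1 e) (cut 1 2) (cut 1 2)

noncomputable def q3_A2 (e t : ℝ) : E3 → ℝ :=
  q3_pr (fun y => cut 2 3 (y / e)) (q3_b2 t) (cut 1 2)

theorem q3_a1_smooth (e : ℝ) : ContDiff ℝ ∞ (q3_a1 e) := by
  have := q3_scale_smooth (q3_cut_smooth 2 3) e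
  unfold q3_a1
  fun_prop

theorem q3_b2_smooth (t : ℝ) : ContDiff ℝ ∞ (q3_b2 t) := by
  have := q3_scale_smooth q3_W_smooth t
  have := q3_cut_smooth 1 2
  unfold q3_b2
  fun_prop

theorem q3_A1_smooth (e : ℝ) : ContDiff ℝ ∞ (q3_A1 e) :=
  q3_pr_smooth (q3_a1_smooth e) (q3_cut_smooth _ _) (q3_cut_smooth _ _)

theorem q3_A2_smooth (e t : ℝ) : ContDiff ℝ ∞ (q3_A2 e t) :=
  q3_pr_smooth (q3_scale_smooth (q3_cut_smooth _ _) e) (q3_b2_smooth t) (q3_cut_smooth _ _)

/-- bounds for `q3_a1` -/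
theorem q3_a1_bd : ∃ C : ℝ, 0 ≤ C ∧ ∀ e : ℝ, 0 < e → e ≤ 1 → ∀ y, |q3_a1 e y| ≤ C ∧
    |deriv (q3_a1 e) y| ≤ C ∧ |deriv (deriv (q3_a1 e)) y| ≤ C := by
  have hs : ContDiff ℝ ∞ fun z : ℝ => z ^ 2 / 2 * cut 2 3 z := by
    have := q3_cut_smooth 2 3
    fun_prop
  obtain ⟨C, hC, h1, h2, h3⟩ := q3_bdd2 (fun z : ℝ => z ^ 2 / 2 * cut 2 3 z) hs 3 (by
    intro x hx
    rw [q3_cut_zero (by norm_num) (by norm_num) hx.le, mul_zero])
  refine ⟨C, hC, fun e he he1 y => ?_⟩
  have e1 : q3_a1 e = fun y => e ^ 2 * ((y / e) ^ 2 / 2 * cut 2 3 (y / e)) := by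
    funext y
    unfold q3_a1
    field_simp
  have hd := q3_deriv_scale _ (hs.differentiable (by simp)) e
  have hd2 := q3_deriv2_scale _ hs e
  have e2 : deriv (q3_a1 e) = fun y => e ^ 2 * (deriv (fun z : ℝ => z ^ 2 / 2 * cut 2 3 z)
      (y / e) / e) := by
    rw [e1]
    funext y
    rw [deriv_const_mul_field, hd]
  have e3 : deriv (deriv (q3_a1 e)) = fun y => e ^ 2 *
      (deriv (deriv (fun z : ℝ => z ^ 2 / 2 * cut 2 3 z)) (y / e) / e / e) := by
    rw [e1]
    funext y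
    have : deriv (fun y => e ^ 2 * ((y / e) ^ 2 / 2 * cut 2 3 (y / e))) =
        fun y => e ^ 2 * deriv (fun y => (y / e) ^ 2 / 2 * cut 2 3 (y / e)) y := by
      funext y
      rw [deriv_const_mul_field]
    rw [this, deriv_const_mul_field, hd2]
  have he2 : e ^ 2 ≤ 1 := by nlinarith
  refine ⟨?_, ?_, ?_⟩
  · rw [e1, abs_mul, abs_of_nonneg (by positivity)]
    calc e ^ 2 * _ ≤ 1 * C := mul_le_mul he2 (h1 _) (abs_nonneg _) (by norm_num)
      _ = C := one_mul _
  · rw [e2]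
    have : e ^ 2 * (deriv (fun z : ℝ => z ^ 2 / 2 * cut 2 3 z) (y / e) / e) =
        e * deriv (fun z : ℝ => z ^ 2 / 2 * cut 2 3 z) (y / e) := by
      field_simp
    simp only [this]
    rw [abs_mul, abs_of_nonneg he.le]
    calc e * _ ≤ 1 * C := mul_le_mul he1 (h2 _) (abs_nonneg _) (by norm_num)
      _ = C := one_mul _
  · rw [e3]
    have : e ^ 2 * (deriv (deriv (fun z : ℝ => z ^ 2 / 2 * cut 2 3 z)) (y / e) / e / e) =
        deriv (deriv (fun z : ℝ => z ^ 2 / 2 * cut 2 3 z)) (y / e) := by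
      field_simp
    simp only [this]
    exact h3 _

/-- bounds for the scaled cutoff -/
theorem q3_c_bd : ∃ C : ℝ, 0 ≤ C ∧ ∀ e : ℝ, 0 < e → ∀ y, |cut 2 3 (y / e)| ≤ C ∧
    |deriv (fun y => cut 2 3 (y / e)) y| ≤ C / e ∧
    |deriv (deriv (fun y => cut 2 3 (y / e))) y| ≤ C / e ^ 2 := by
  obtain ⟨C, hC, h1, h2, h3⟩ := q3_bdd2 (cut 2 3) (q3_cut_smooth 2 3) 3 (by
    intro x hx
    exact q3_cut_zero (by norm_num) (by norm_num) hx.le)
  refine ⟨C, hC, fun e he y => ⟨h1 _, ?_, ?_⟩⟩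
  · rw [q3_deriv_scale _ ((q3_cut_smooth 2 3).differentiable (by simp))]
    simp only
    rw [abs_div, abs_of_pos he]
    exact div_le_div_of_nonneg_right (h2 _) he.le
  · rw [q3_deriv2_scale _ (q3_cut_smooth 2 3)]
    simp only
    rw [abs_div, abs_div, abs_of_pos he, div_div, ← sq]
    exact div_le_div_of_nonneg_right (h3 _) (by positivity)

theorem q3_c2_bd : ∃ C : ℝ, 0 ≤ C ∧ ∀ y, |cut 1 2 y| ≤ C ∧ |deriv (cut 1 2) y| ≤ C ∧
    |deriv (deriv (cut 1 2)) y| ≤ C := by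
  obtain ⟨C, hC, h1, h2, h3⟩ := q3_bdd2 (cut 1 2) (q3_cut_smooth 1 2) 2 (by
    intro x hx
    exact q3_cut_zero (by norm_num) (by norm_num) hx.le)
  exact ⟨C, hC, fun y => ⟨h1 y, h2 y, h3 y⟩⟩

theorem q3_b2_deriv (t : ℝ) (ht : 0 < t) : deriv (q3_b2 t) = fun y =>
    t * deriv q3_W (y / t) * cut 1 2 y + t ^ 2 * q3_W (y / t) * deriv (cut 1 2) y := by
  funext y
  have h1 := (((q3_scale_smooth q3_W_smooth t).differentiable (by simp)) y).hasDerivAt
  rw [q3_deriv_scale _ (q3_W_smooth.differentiable (by simp))] at h1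
  have h2 := (((q3_cut_smooth 1 2).differentiable (by simp)) y).hasDerivAt
  have h3 := (h1.const_mul (t ^ 2)).mul h2
  have h4 : HasDerivAt (q3_b2 t) _ y := h3
  rw [h4.deriv]
  field_simp

theorem q3_b2_deriv2 (t : ℝ) (ht : 0 < t) : deriv (deriv (q3_b2 t)) = fun y =>
    deriv (deriv q3_W) (y / t) * cut 1 2 y + 2 * t * deriv q3_W (y / t) * deriv (cut 1 2) y +
      t ^ 2 * q3_W (y / t) * deriv (deriv (cut 1 2)) y := by
  rw [q3_b2_deriv t ht]
  funext y
  have h1 := (((q3_scale_smooth q3_W_smooth t).differentiable (by simp)) y).hasDerivAt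
  rw [q3_deriv_scale _ (q3_W_smooth.differentiable (by simp))] at h1
  have h1' := (((q3_scale_smooth (q3_deriv_smooth q3_W_smooth) t).differentiable
    (by simp)) y).hasDerivAt
  rw [q3_deriv_scale _ ((q3_deriv_smooth q3_W_smooth).differentiable (by simp))] at h1'
  have h2 := (((q3_cut_smooth 1 2).differentiable (by simp)) y).hasDerivAt
  have h2' := (((q3_deriv_smooth (q3_cut_smooth 1 2)).differentiable (by simp)) y).hasDerivAt
  have h3 := ((h1'.const_mul t).mul h2).add ((h1.const_mul (t ^ 2)).mul h2')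
  have h4 : HasDerivAt (fun y => t * deriv q3_W (y / t) * cut 1 2 y +
    t ^ 2 * q3_W (y / t) * deriv (cut 1 2) y) _ y := h3
  rw [h4.deriv]
  field_simp
  ring

theorem q3_b2_bd : ∃ C : ℝ, 0 ≤ C ∧ ∀ t : ℝ, 0 < t → t ≤ 1 → ∀ y, |q3_b2 t y| ≤ C * t ^ 2 ∧
    |deriv (q3_b2 t) y| ≤ C * t ∧ |deriv (deriv (q3_b2 t)) y| ≤ C := by
  obtain ⟨C1, hC1, w1, w2, w3⟩ := q3_W_bdd
  obtain ⟨C2, hC2, c⟩ := q3_c2_bd
  refine ⟨4 * (C1 * C2), by positivity, fun t ht ht1 y => ?_⟩
  obtain ⟨c1, c2, c3⟩ := c y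
  have m1 := abs_le.1 (q3_mul_bd (w1 (y / t)) c1)
  have m2 := abs_le.1 (q3_mul_bd (w2 (y / t)) c1)
  have m3 := abs_le.1 (q3_mul_bd (w3 (y / t)) c1)
  have m4 := abs_le.1 (q3_mul_bd (w1 (y / t)) c2)
  have m5 := abs_le.1 (q3_mul_bd (w2 (y / t)) c2)
  have m6 := abs_le.1 (q3_mul_bd (w1 (y / t)) c3)
  have hP : 0 ≤ C1 * C2 := by positivity
  have ht2 : t ^ 2 ≤ t := by nlinarith
  have ht2' : 0 ≤ t ^ 2 := by positivity
  refine ⟨?_, ?_, ?_⟩
  · unfold q3_b2
    rw [abs_le]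
    constructor <;> nlinarith [m1.1, m1.2]
  · rw [q3_b2_deriv t ht]
    simp only
    rw [abs_le]
    constructor
    · nlinarith [m2.1, m4.1, mul_le_mul_of_nonneg_left m2.1 ht.le,
        mul_le_mul_of_nonneg_left m4.1 ht2', mul_le_mul_of_nonneg_right ht2 hP]
    · nlinarith [m2.2, m4.2, mul_le_mul_of_nonneg_left m2.2 ht.le,
        mul_le_mul_of_nonneg_left m4.2 ht2', mul_le_mul_of_nonneg_right ht2 hP]
  · rw [q3_b2_deriv2 t ht]
    simp only
    have ht21 : t ^ 2 ≤ 1 := by nlinarith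
    rw [abs_le]
    constructor
    · nlinarith [m3.1, mul_le_mul_of_nonneg_left m5.1 ht.le,
        mul_le_mul_of_nonneg_left m6.1 ht2', mul_le_mul_of_nonneg_right ht21 hP,
        mul_le_mul_of_nonneg_right ht1 hP]
    · nlinarith [m3.2, mul_le_mul_of_nonneg_left m5.2 ht.le,
        mul_le_mul_of_nonneg_left m6.2 ht2', mul_le_mul_of_nonneg_right ht21 hP,
        mul_le_mul_of_nonneg_right ht1 hP]

theorem q3_mul3_bd {p q r C D F : ℝ} (hp : |p| ≤ C) (hq : |q| ≤ D) (hr : |r| ≤ F) :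
    |p * q * r| ≤ C * D * F := q3_mul_bd (q3_mul_bd hp hq) hr

/-- the second derivatives of the potentials are bounded independently of the parameters -/
theorem q3_A_bd : ∃ C : ℝ, 0 ≤ C ∧ ∀ e t : ℝ, 0 < e → e ≤ 1 → 0 < t → t ≤ e → ∀ x : E3,
    q3_HB (q3_A1 e) x C ∧ q3_HB (q3_A2 e t) x C := by
  obtain ⟨C1, hC1, h1⟩ := q3_a1_bd
  obtain ⟨C2, hC2, h2⟩ := q3_c_bd
  obtain ⟨C3, hC3, h3⟩ := q3_c2_bd
  obtain ⟨C4, hC4, h4⟩ := q3_b2_bd
  refine ⟨C1 * C3 * C3 + C2 * C4 * C3, by positivity, fun e t he he1 ht hte x => ?_⟩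
  have hA := q3_hs_pr (q3_a1_smooth e) (q3_cut_smooth 1 2) (q3_cut_smooth 1 2) x
  have hB := q3_hs_pr (q3_scale_smooth (q3_cut_smooth 2 3) e) (q3_b2_smooth t)
    (q3_cut_smooth 1 2) x
  obtain ⟨a1, a2, a3⟩ := h1 e he he1 (x 0)
  obtain ⟨b1, b2, b3⟩ := h3 (x 1)
  obtain ⟨c1, c2, c3⟩ := h3 (x 2)
  obtain ⟨d1, d2, d3⟩ := h2 e he (x 0)
  obtain ⟨f1, f2, f3⟩ := h4 t ht (by linarith) (x 1)
  have hp : 0 ≤ C2 * C4 * C3 := by positivity
  have hq : 0 ≤ C1 * C3 * C3 := by positivity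
  have hte2 : t ^ 2 ≤ e ^ 2 := by nlinarith
  have ht2 : t ^ 2 ≤ e := by nlinarith
  have r1 : t ^ 2 / e ^ 2 ≤ 1 := (div_le_one (by positivity)).2 hte2
  have r2 : t / e ≤ 1 := (div_le_one he).2 hte
  have r3 : t ^ 2 / e ≤ 1 := (div_le_one he).2 ht2
  have ht21 : t ^ 2 ≤ 1 := by nlinarith
  have ht1 : t ≤ 1 := by linarith
  have fin : ∀ s : ℝ, s ≤ 1 → C2 * C4 * C3 * s ≤ C1 * C3 * C3 + C2 * C4 * C3 := by
    intro s hs
    nlinarith
  unfold q3_A1 q3_A2 q3_HB
  obtain ⟨A00, A11, A22, A01, A02, A12⟩ := hA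
  obtain ⟨B00, B11, B22, B01, B02, B12⟩ := hB
  rw [A00, A11, A22, A01, A02, A12, B00, B11, B22, B01, B02, B12]
  refine ⟨⟨?_, ?_, ?_, ?_, ?_, ?_⟩, ?_, ?_, ?_, ?_, ?_, ?_⟩
  · linarith [q3_mul3_bd a3 b1 c1]
  · linarith [q3_mul3_bd a1 b3 c1]
  · linarith [q3_mul3_bd a1 b1 c3]
  · linarith [q3_mul3_bd a2 b2 c1]
  · linarith [q3_mul3_bd a2 b1 c2]
  · linarith [q3_mul3_bd a1 b2 c2]
  · refine le_trans (q3_mul3_bd d3 f1 c1) (le_trans (le_of_eq ?_) (fin _ r1))
    ring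
  · refine le_trans (q3_mul3_bd d1 f3 c1) (le_trans (le_of_eq ?_) (fin _ le_rfl))
    ring
  · refine le_trans (q3_mul3_bd d1 f1 c3) (le_trans (le_of_eq ?_) (fin _ ht21))
    ring
  · refine le_trans (q3_mul3_bd d2 f2 c1) (le_trans (le_of_eq ?_) (fin _ r2))
    ring
  · refine le_trans (q3_mul3_bd d2 f1 c2) (le_trans (le_of_eq ?_) (fin _ r3))
    ring
  · refine le_trans (q3_mul3_bd d1 f2 c2) (le_trans (le_of_eq ?_) (fin _ ht1))
    ring


/-! ### quadratic potentials -/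

/-- a quadratic polynomial in the coordinates -/
noncomputable def q3_quad (a b c p q r : ℝ) (x : E3) : ℝ :=
  a * (x 0 * x 0) + b * (x 1 * x 1) + c * (x 2 * x 2) + p * (x 0 * x 1) + q * (x 0 * x 2) +
    r * (x 1 * x 2)

theorem q3_quad_smooth (a b c p q r : ℝ) : ContDiff ℝ ∞ (q3_quad a b c p q r) := by
  have h0 := q3_coord_smooth 0
  have h1 := q3_coord_smooth 1
  have h2 := q3_coord_smooth 2
  unfold q3_quad
  fun_prop

/-- linear polynomial -/
noncomputable def q3_lin (a b c : ℝ) (x : E3) : ℝ := a * x 0 + b * x 1 + c * x 2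

theorem q3_pd_lin (a b c : ℝ) (j : Fin 3) (x : E3) :
    pd j (q3_lin a b c) x = ![a, b, c] j := by
  have h0 := q3_coord_fderiv 0 x
  have h1 := q3_coord_fderiv 1 x
  have h2 := q3_coord_fderiv 2 x
  have h : HasFDerivAt (q3_lin a b c) _ x := ((h0.const_mul a).add (h1.const_mul b)).add (h2.const_mul c)
  unfold pd
  rw [h.fderiv]
  fin_cases j <;> simp [ee]

theorem q3_pd_quad (a b c p q r : ℝ) (j : Fin 3) :
    pd j (q3_quad a b c p q r) =
      ![q3_lin (2 * a) p q, q3_lin p (2 * b) r, q3_lin q r (2 * c)] j := by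
  funext x
  have h0 := q3_coord_fderiv 0 x
  have h1 := q3_coord_fderiv 1 x
  have h2 := q3_coord_fderiv 2 x
  have h : HasFDerivAt (q3_quad a b c p q r) _ x :=
    ((((((h0.mul h0).const_mul a).add ((h1.mul h1).const_mul b)).add
      ((h2.mul h2).const_mul c)).add ((h0.mul h1).const_mul p)).add
      ((h0.mul h2).const_mul q)).add ((h1.mul h2).const_mul r)
  unfold pd
  rw [h.fderiv]
  fin_cases j <;> simp [ee, q3_lin] <;> ring

theorem q3_hs_quad (a b c p q r : ℝ) (x : E3) :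
    hs (q3_quad a b c p q r) x 0 0 = 2 * a ∧ hs (q3_quad a b c p q r) x 1 1 = 2 * b ∧
    hs (q3_quad a b c p q r) x 2 2 = 2 * c ∧ hs (q3_quad a b c p q r) x 0 1 = p ∧
    hs (q3_quad a b c p q r) x 0 2 = q ∧ hs (q3_quad a b c p q r) x 1 2 = r := by
  unfold hs
  simp only [q3_pd_quad, Matrix.cons_val, q3_pd_lin]
  exact ⟨trivial, trivial, trivial, trivial, trivial, trivial⟩

/-- the stress field -/
noncomputable def q3_q (σ : M3) : E3 → ℝ := q3_quad 0 (-(σ 2 2) / 2) (-(σ 1 1) / 2) 0 0 (σ 1 2)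

noncomputable def q3_r (σ : M3) : E3 → ℝ := q3_quad 0 0 (σ 0 0 / 2) 0 (-(σ 0 2)) 0

noncomputable def q3_T (σ : M3) (e t : ℝ) (x : E3) : M3 :=
  σ + cof (q3_A1 e) (q3_q σ) x + cof (q3_A2 e t) (q3_r σ) x

/-- the void -/
def q3_V (e t : ℝ) : Set E3 :=
  {x | |x 0| ≤ e ∧ |x 1| ≤ 1 / 2 ∧ |x 2| ≤ 1 / 2 ∧ 1 / 4 < |Int.fract (x 1 / t) - 1 / 2|}

/-- local constancy -/
theorem q3_loc (f g : ℝ → ℝ) (y ρ : ℝ) (hy : |y| < ρ) (h : ∀ z, |z| < ρ → f z = g z) :
    f y = g y ∧ deriv f y = deriv g y ∧ deriv (deriv f) y = deriv (deriv g) y := by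
  have ho : IsOpen {z : ℝ | |z| < ρ} := isOpen_lt continuous_abs continuous_const
  have he : f =ᶠ[nhds y] g := by
    filter_upwards [ho.mem_nhds hy] with z hz
    exact h z hz
  exact ⟨he.eq_of_nhds, he.deriv_eq, he.deriv.deriv_eq⟩

theorem q3_T_void {σ : M3} (hσ : σ.IsSymm) (h01 : σ 0 1 = 0) {e t : ℝ} (he : 0 < e) (ht : 0 < t)
    {x : E3} (hx : x ∈ q3_V e t) : q3_T σ e t x = 0 := by
  obtain ⟨x0, x1, x2, x3⟩ := hx
  have hA := q3_hs_pr (q3_a1_smooth e) (q3_cut_smooth 1 2) (q3_cut_smooth 1 2) x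
  have hB := q3_hs_pr (q3_scale_smooth (q3_cut_smooth 2 3) e) (q3_b2_smooth t)
    (q3_cut_smooth 1 2) x
  -- one dimensional values
  have hcut : ∀ z : ℝ, |z| < 2 * e → cut 2 3 (z / e) = 1 := by
    intro z hz
    apply q3_cut_one (by norm_num) (by norm_num)
    rw [abs_div, abs_of_pos he, div_le_iff₀ he]
    exact hz.le
  have k1 := q3_loc (q3_a1 e) (fun y => y ^ 2 / 2) (x 0) (2 * e) (by linarith) (by
    intro z hz
    unfold q3_a1
    rw [hcut z hz, mul_one])
  have k2 := q3_loc (fun y => cut 2 3 (y / e)) (fun _ => 1) (x 0) (2 * e) (by linarith) hcut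
  have k3 := q3_loc (cut 1 2) (fun _ => 1) (x 1) 1 (by linarith) (by
    intro z hz
    exact q3_cut_one (by norm_num) (by norm_num) hz.le)
  have k4 := q3_loc (cut 1 2) (fun _ => 1) (x 2) 1 (by linarith) (by
    intro z hz
    exact q3_cut_one (by norm_num) (by norm_num) hz.le)
  have d1 : deriv (fun y : ℝ => y ^ 2 / 2) = fun y => y := by
    funext y
    have h : HasDerivAt (fun y : ℝ => y ^ 2 / 2) ((2 : ℕ) * y ^ (2 - 1) * 1 / 2) y :=
      ((hasDerivAt_id y).pow 2).div_const 2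
    rw [h.deriv]
    norm_num
  have d2 : deriv (fun y : ℝ => y) = fun _ => 1 := by
    funext y
    exact (hasDerivAt_id y).deriv
  have d3 : deriv (fun _ : ℝ => (1 : ℝ)) = fun _ => 0 := by
    funext y
    simp
  have d4 : deriv (fun _ : ℝ => (0 : ℝ)) = fun _ => 0 := by
    funext y
    simp
  rw [d1, d2] at k1
  rw [d3, d4] at k2 k3 k4
  simp only at k1 k2 k3 k4
  have k5 : deriv (deriv (q3_b2 t)) (x 1) = -1 := by
    rw [q3_b2_deriv2 t ht]
    simp only
    rw [k3.1, k3.2.1, k3.2.2, q3_W_void x3]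
    ring
  obtain ⟨A00, A11, A22, A01, A02, A12⟩ := hA
  obtain ⟨B00, B11, B22, B01, B02, B12⟩ := hB
  rw [k1.2.2, k3.1, k4.1] at A00
  rw [k1.1, k3.2.2, k4.1] at A11
  rw [k1.1, k3.1, k4.2.2] at A22
  rw [k1.2.1, k3.2.1, k4.1] at A01
  rw [k1.2.1, k3.1, k4.2.1] at A02
  rw [k1.1, k3.2.1, k4.2.1] at A12
  rw [k2.2.2, k4.1] at B00
  rw [k2.1, k5, k4.1] at B11
  rw [k2.1, k4.2.2] at B22
  rw [k2.2.1, k4.1] at B01
  rw [k2.2.1, k4.2.1] at B02
  rw [k2.1, k4.2.1] at B12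
  obtain ⟨q00, q11, q22, q01, q02, q12⟩ :=
    q3_hs_quad 0 (-(σ 2 2) / 2) (-(σ 1 1) / 2) 0 0 (σ 1 2) x
  obtain ⟨r00, r11, r22, r01, r02, r12⟩ := q3_hs_quad 0 0 (σ 0 0 / 2) 0 (-(σ 0 2)) 0 x
  have s10 : σ 1 0 = σ 0 1 := hσ.apply 0 1
  have s20 : σ 2 0 = σ 0 2 := hσ.apply 0 2
  have s21 : σ 2 1 = σ 1 2 := hσ.apply 1 2
  unfold q3_T q3_A1 q3_A2 q3_q q3_r
  ext i j
  fin_cases i <;> fin_cases j <;>
    simp only [cof, Fin.zero_eta, Fin.mk_one, Fin.reduceFinMk, Matrix.add_apply, Matrix.of_apply,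
      Matrix.cons_val', Matrix.cons_val, Matrix.zero_apply, A00, A11, A22, A01, A02, A12, B00,
      B11, B22, B01, B02, B12, q00, q11, q22, q01, q02, q12, r00, r11, r22, r01, r02, r12, s10,
      s20, s21, h01] <;> ring


/-! ### the box -/

/-- a box -/
def q3_box (a b c : ℝ) : Set E3 := {x | |x 0| ≤ a ∧ |x 1| ≤ b ∧ |x 2| ≤ c}

theorem q3_coord_cont (i : Fin 3) : Continuous fun x : E3 => x i := (q3_coord_smooth i).continuous

theorem q3_box_closed (a b c : ℝ) : IsClosed (q3_box a b c) := by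
  have h0 := q3_coord_cont 0
  have h1 := q3_coord_cont 1
  have h2 := q3_coord_cont 2
  have e : q3_box a b c = {x : E3 | |x 0| ≤ a} ∩ ({x : E3 | |x 1| ≤ b} ∩ {x : E3 | |x 2| ≤ c}) := rfl
  rw [e]
  exact (isClosed_le h0.abs continuous_const).inter
    ((isClosed_le h1.abs continuous_const).inter (isClosed_le h2.abs continuous_const))

theorem q3_norm_le {x : E3} {a b c r : ℝ} (hr : 0 ≤ r) (h : x ∈ q3_box a b c)
    (hab : a ^ 2 + b ^ 2 + c ^ 2 ≤ r ^ 2) : x ∈ cb r := by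
  obtain ⟨h0, h1, h2⟩ := h
  rw [mem_closedBall, dist_zero_right, EuclideanSpace.norm_eq, Real.sqrt_le_left hr,
    Fin.sum_univ_three]
  simp only [Real.norm_eq_abs, sq_abs]
  have k0 : x 0 ^ 2 ≤ a ^ 2 := by rw [← sq_abs]; exact pow_le_pow_left₀ (abs_nonneg _) h0 2
  have k1 : x 1 ^ 2 ≤ b ^ 2 := by rw [← sq_abs]; exact pow_le_pow_left₀ (abs_nonneg _) h1 2
  have k2 : x 2 ^ 2 ≤ c ^ 2 := by rw [← sq_abs]; exact pow_le_pow_left₀ (abs_nonneg _) h2 2
  linarith

theorem q3_box_compact (a b c : ℝ) : IsCompact (q3_box a b c) := by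
  apply isCompact_of_isClosed_isBounded (q3_box_closed a b c)
  refine (isBounded_closedBall (x := (0 : E3)) (r := √(a ^ 2 + b ^ 2 + c ^ 2))).subset ?_
  intro x hx
  exact q3_norm_le (Real.sqrt_nonneg _) hx (by rw [Real.sq_sqrt (by positivity)])

theorem q3_box_vol {a b c : ℝ} (ha : 0 ≤ a) (hb : 0 ≤ b) (hc : 0 ≤ c) :
    (volume (q3_box a b c)).toReal = 8 * (a * b * c) := by
  have e : q3_box a b c = (MeasurableEquiv.toLp 2 (Fin 3 → ℝ)).symm ⁻¹'
      (Set.pi Set.univ fun i => Set.Icc (-(![a, b, c] i)) (![a, b, c] i)) := by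
    ext x
    simp only [q3_box, Set.mem_ofPred_eq, Set.mem_preimage, Set.mem_pi, Set.mem_univ, forall_const,
      Set.mem_Icc, Fin.forall_fin_succ, abs_le]
    simp
  rw [e, (EuclideanSpace.volume_preserving_symm_measurableEquiv_toLp (Fin 3)).measure_preimage
    (MeasurableSet.univ_pi fun i => measurableSet_Icc).nullMeasurableSet, volume_pi_pi,
    Fin.prod_univ_three]
  simp only [Real.volume_Icc, Matrix.cons_val]
  rw [ENNReal.toReal_mul, ENNReal.toReal_mul, ENNReal.toReal_ofReal (by linarith),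
    ENNReal.toReal_ofReal (by linarith), ENNReal.toReal_ofReal (by linarith)]
  ring

/-! ### the stress field outside of the box -/

theorem q3_zero_off {a b c : ℝ → ℝ} {ra rb rc : ℝ} (ha : ∀ y, ra < |y| → a y = 0)
    (hb : ∀ y, rb < |y| → b y = 0) (hc : ∀ y, rc < |y| → c y = 0) {x : E3}
    (hx : x ∉ q3_box ra rb rc) : q3_pr a b c =ᶠ[nhds x] fun _ => 0 := by
  have ho := (q3_box_closed ra rb rc).isOpen_compl
  filter_upwards [ho.mem_nhds hx] with y hy
  have hy' : ¬ (|y 0| ≤ ra ∧ |y 1| ≤ rb ∧ |y 2| ≤ rc) := hy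
  unfold q3_pr
  by_cases h0 : |y 0| ≤ ra
  · by_cases h1 : |y 1| ≤ rb
    · have h2 : rc < |y 2| := by
        by_contra h
        push Not at h
        exact hy' ⟨h0, h1, h⟩
      rw [hc _ h2, mul_zero]
    · push Not at h1
      rw [hb _ h1, mul_zero, zero_mul]
  · push Not at h0
    rw [ha _ h0, zero_mul, zero_mul]

theorem q3_hs_zero (x : E3) (i j : Fin 3) : hs (fun _ => 0) x i j = 0 := by
  unfold hs
  have : pd j (fun _ : E3 => (0 : ℝ)) = fun _ => 0 := by
    funext y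
    unfold pd
    simp
  rw [this]
  unfold pd
  simp

theorem q3_cof_off {A B : E3 → ℝ} {x : E3} (hA : A =ᶠ[nhds x] fun _ => 0) : cof A B x = 0 := by
  rw [cof_congr A B (fun _ => 0) B x hA (Filter.EventuallyEq.refl _ _)]
  ext i j
  fin_cases i <;> fin_cases j <;> simp [cof, q3_hs_zero]

theorem q3_A1_off {e : ℝ} (he : 0 < e) {x : E3} (hx : x ∉ q3_box (3 * e) 2 2) :
    q3_A1 e =ᶠ[nhds x] fun _ => 0 := by
  refine q3_zero_off ?_ ?_ ?_ hx
  · intro y hy
    unfold q3_a1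
    rw [q3_cut_zero (by norm_num) (by norm_num), mul_zero]
    rw [abs_div, abs_of_pos he, le_div_iff₀ he]
    exact hy.le
  · intro y hy
    exact q3_cut_zero (by norm_num) (by norm_num) hy.le
  · intro y hy
    exact q3_cut_zero (by norm_num) (by norm_num) hy.le

theorem q3_A2_off {e t : ℝ} (he : 0 < e) {x : E3} (hx : x ∉ q3_box (3 * e) 2 2) :
    q3_A2 e t =ᶠ[nhds x] fun _ => 0 := by
  refine q3_zero_off ?_ ?_ ?_ hx
  · intro y hy
    rw [q3_cut_zero (by norm_num) (by norm_num)]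
    rw [abs_div, abs_of_pos he, le_div_iff₀ he]
    exact hy.le
  · intro y hy
    unfold q3_b2
    rw [q3_cut_zero (by norm_num) (by norm_num) hy.le, mul_zero]
  · intro y hy
    exact q3_cut_zero (by norm_num) (by norm_num) hy.le

theorem q3_T_off {σ : M3} {e t : ℝ} (he : 0 < e) {x : E3} (hx : x ∉ q3_box (3 * e) 2 2) :
    q3_T σ e t x = σ := by
  unfold q3_T
  rw [q3_cof_off (q3_A1_off he hx), q3_cof_off (q3_A2_off he hx), add_zero, add_zero]

/-! ### size of the stress field -/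

theorem q3_entry_le (σ : M3) (i j : Fin 3) : |σ i j| ≤ √(inn σ σ) := by
  apply Real.abs_le_sqrt
  unfold inn
  have h1 : σ i j ^ 2 ≤ ∑ j, σ i j * σ i j := by
    rw [sq]
    exact Finset.single_le_sum (f := fun j => σ i j * σ i j) (fun _ _ => mul_self_nonneg _)
      (Finset.mem_univ j)
  exact le_trans h1 (Finset.single_le_sum (f := fun i => ∑ j, σ i j * σ i j)
    (fun _ _ => Finset.sum_nonneg fun _ _ => mul_self_nonneg _) (Finset.mem_univ i))

theorem q3_inn_nonneg (σ : M3) : 0 ≤ inn σ σ :=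
  Finset.sum_nonneg fun _ _ => Finset.sum_nonneg fun _ _ => mul_self_nonneg _

theorem q3_inn_le {T : M3} {C : ℝ} (h : ∀ i j, |T i j| ≤ C) : inn T T ≤ 9 * C ^ 2 := by
  unfold inn
  have h1 : ∀ i j, T i j * T i j ≤ C ^ 2 := by
    intro i j
    rw [← sq, ← sq_abs]
    exact pow_le_pow_left₀ (abs_nonneg _) (h i j) 2
  calc ∑ i, ∑ j, T i j * T i j ≤ ∑ i : Fin 3, ∑ j : Fin 3, C ^ 2 :=
        Finset.sum_le_sum fun i _ => Finset.sum_le_sum fun j _ => h1 i j
    _ = 9 * C ^ 2 := by simp; ring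

theorem q3_T_bd : ∃ C : ℝ, 0 ≤ C ∧ ∀ (σ : M3) (e t : ℝ), 0 < e → e ≤ 1 → 0 < t → t ≤ e →
    ∀ x : E3, inn (q3_T σ e t x) (q3_T σ e t x) ≤ C * inn σ σ := by
  obtain ⟨C, hC, h⟩ := q3_A_bd
  refine ⟨9 * (1 + 8 * C) ^ 2, by positivity, fun σ e t he he1 ht hte x => ?_⟩
  obtain ⟨hA, hB⟩ := h e t he he1 ht hte x
  set m := √(inn σ σ) with hm
  have hm0 : 0 ≤ m := Real.sqrt_nonneg _
  have hq : q3_HB (q3_q σ) x m := by
    obtain ⟨q00, q11, q22, q01, q02, q12⟩ :=
      q3_hs_quad 0 (-(σ 2 2) / 2) (-(σ 1 1) / 2) 0 0 (σ 1 2) x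
    unfold q3_HB q3_q
    rw [q00, q11, q22, q01, q02, q12]
    have e1 : 2 * (-(σ 2 2) / 2) = -(σ 2 2) := by ring
    have e2 : 2 * (-(σ 1 1) / 2) = -(σ 1 1) := by ring
    rw [e1, e2, abs_neg, abs_neg]
    simp only [mul_zero, abs_zero]
    exact ⟨hm0, q3_entry_le σ 2 2, q3_entry_le σ 1 1, hm0, hm0, q3_entry_le σ 1 2⟩
  have hr : q3_HB (q3_r σ) x m := by
    obtain ⟨r00, r11, r22, r01, r02, r12⟩ := q3_hs_quad 0 0 (σ 0 0 / 2) 0 (-(σ 0 2)) 0 x
    unfold q3_HB q3_r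
    rw [r00, r11, r22, r01, r02, r12]
    have e1 : 2 * (σ 0 0 / 2) = σ 0 0 := by ring
    rw [e1, abs_neg]
    simp only [mul_zero, abs_zero]
    exact ⟨hm0, hm0, q3_entry_le σ 0 0, hm0, q3_entry_le σ 0 2, hm0⟩
  have hT : ∀ i j, |q3_T σ e t x i j| ≤ (1 + 8 * C) * m := by
    intro i j
    unfold q3_T
    rw [Matrix.add_apply, Matrix.add_apply]
    have h1 := q3_entry_le σ i j
    have h2 := q3_cof_bd hA hq i j
    have h3 := q3_cof_bd hB hr i j
    calc |σ i j + cof (q3_A1 e) (q3_q σ) x i j + cof (q3_A2 e t) (q3_r σ) x i j| ≤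
        |σ i j| + |cof (q3_A1 e) (q3_q σ) x i j| + |cof (q3_A2 e t) (q3_r σ) x i j| :=
          abs_add_three _ _ _
      _ ≤ m + 4 * (C * m) + 4 * (C * m) := by linarith
      _ = _ := by ring
  calc inn (q3_T σ e t x) (q3_T σ e t x) ≤ 9 * ((1 + 8 * C) * m) ^ 2 := q3_inn_le hT
    _ = 9 * (1 + 8 * C) ^ 2 * m ^ 2 := by ring
    _ = _ := by rw [hm, Real.sq_sqrt (q3_inn_nonneg σ)]

/-! ### integrals -/

theorem q3_inn_add (A B S : M3) : inn (A + B) S = inn A S + inn B S := by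
  unfold inn
  simp only [Matrix.add_apply, add_mul, Finset.sum_add_distrib]

theorem q3_inn_cont {T : E3 → M3} (hT : ∀ i j, Continuous fun x => T x i j) {v : E3 → E3}
    (hv : ContDiff ℝ ∞ v) : Continuous fun x => inn (T x) (strain v x) := by
  have hs := continuous_strain v hv
  unfold inn
  refine continuous_finsetSum _ fun i _ => continuous_finsetSum _ fun j _ => (hT i j).mul ?_
  exact (continuous_apply j).comp ((continuous_apply i).comp hs)

theorem q3_intOn {f : E3 → ℝ} (hf : Continuous f) {A : Set E3} {r : ℝ} (hA : A ⊆ cb r) :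
    IntegrableOn f A :=
  (hf.continuousOn.integrableOn_compact (isCompact_closedBall (0 : E3) r)).mono_set hA

theorem q3_box_sub {e : ℝ} (he0 : 0 ≤ e) (he : e ≤ 1) : q3_box (3 * e) 2 2 ⊆ cb 6 := by
  intro x hx
  exact q3_norm_le (by norm_num) hx (by nlinarith)

theorem q3_T_cont (σ : M3) (e t : ℝ) (i j : Fin 3) : Continuous fun x => q3_T σ e t x i j := by
  unfold q3_T
  simp only [Matrix.add_apply]
  exact (continuous_const.add (cof_contDiff _ _ (q3_A1_smooth e) (q3_quad_smooth _ _ _ _ _ _)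
    i j).continuous).add (cof_contDiff _ _ (q3_A2_smooth e t) (q3_quad_smooth _ _ _ _ _ _)
    i j).continuous

theorem q3_T_test (σ : M3) {e t : ℝ} (he0 : 0 < e) (he : e ≤ 1) (v : E3 → E3)
    (hv : ContDiff ℝ ∞ v) : ∫ x in cb 6, inn (q3_T σ e t x) (strain v x) =
      ∫ x in cb 6, inn σ (strain v x) := by
  have hK := q3_box_compact (3 * e) 2 2
  have hKD := q3_box_sub he0.le he
  have hq : ContDiff ℝ ∞ (q3_q σ) := q3_quad_smooth _ _ _ _ _ _
  have hr : ContDiff ℝ ∞ (q3_r σ) := q3_quad_smooth _ _ _ _ _ _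
  have t1 := cof_test (q3_A1 e) (q3_q σ) (q3_A1_smooth e) hq (cb 6)
    measurableSet_closedBall _ hK hKD (fun x hx => q3_cof_off (q3_A1_off he0 hx)) v hv
  have t2 := cof_test (q3_A2 e t) (q3_r σ) (q3_A2_smooth e t) hr (cb 6)
    measurableSet_closedBall _ hK hKD (fun x hx => q3_cof_off (q3_A2_off he0 hx)) v hv
  have e1 : ∀ x, inn (q3_T σ e t x) (strain v x) = inn σ (strain v x) +
      inn (cof (q3_A1 e) (q3_q σ) x) (strain v x) +
      inn (cof (q3_A2 e t) (q3_r σ) x) (strain v x) := by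
    intro x
    unfold q3_T
    rw [q3_inn_add, q3_inn_add]
  simp only [e1]
  have i0 : IntegrableOn (fun x => inn σ (strain v x)) (cb 6) :=
    q3_intOn (q3_inn_cont (T := fun _ => σ) (fun i j => continuous_const) hv) subset_rfl
  have i1 : IntegrableOn (fun x => inn (cof (q3_A1 e) (q3_q σ) x) (strain v x)) (cb 6) :=
    q3_intOn (q3_inn_cont (fun i j => (cof_contDiff _ _ (q3_A1_smooth e) hq i j).continuous) hv)
      subset_rfl
  have i2 : IntegrableOn (fun x => inn (cof (q3_A2 e t) (q3_r σ) x) (strain v x)) (cb 6) :=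
    q3_intOn (q3_inn_cont (fun i j => (cof_contDiff _ _ (q3_A2_smooth e t) hr i j).continuous) hv)
      subset_rfl
  have i01 : IntegrableOn (fun x => inn σ (strain v x) +
      inn (cof (q3_A1 e) (q3_q σ) x) (strain v x)) (cb 6) := i0.add i1
  rw [integral_add i01 i2, integral_add i0 i1, t1, t2, add_zero, add_zero]

theorem q3_V_meas (e t : ℝ) : MeasurableSet (q3_V e t) := by
  have h0 := (q3_coord_cont 0).measurable
  have h1 := (q3_coord_cont 1).measurable
  have h2 := (q3_coord_cont 2).measurable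
  have h3 : Measurable fun x : E3 => |Int.fract (x 1 / t) - 1 / 2| := by
    have := measurable_fract.comp (h1.div_const t)
    exact (this.sub_const _).abs
  exact (measurableSet_le h0.abs measurable_const).inter
    ((measurableSet_le h1.abs measurable_const).inter
      ((measurableSet_le h2.abs measurable_const).inter (measurableSet_lt measurable_const h3)))

theorem q3_V_sub {e t : ℝ} (he : e ≤ 1 / 2) : q3_V e t ⊆ cb 1 := by
  intro x hx
  exact q3_norm_le (a := 1 / 2) (b := 1 / 2) (c := 1 / 2) (by norm_num)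
    ⟨le_trans hx.1 he, hx.2.1, hx.2.2.1⟩ (by norm_num)

/-- the stiffness of the wall with leaves -/
theorem q3_stiff {κ μ : ℝ} (hκ : 0 < κ) (hμ : 0 < μ) : ∃ C : ℝ, 0 ≤ C ∧ ∀ e t : ℝ, 0 < e →
    e ≤ 1 / 2 → 0 < t → t ≤ e → ∀ σ : M3, σ.IsSymm → σ.trace = 0 → σ 0 1 = 0 →
    Stiff κ μ (cb 6) (q3_V e t) σ (inn σ σ * ((volume (cb 6)).toReal / (2 * μ) + C * e)) := by
  obtain ⟨C0, hC0, hc⟩ := cden_upper hκ hμ
  obtain ⟨C1, hC1, hT⟩ := q3_T_bd
  refine ⟨96 * (C0 * C1), by positivity, fun e t he he1 ht hte σ hσ htr h01 v hv => ?_⟩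
  have he2 : e ≤ 1 := by linarith
  set V := q3_V e t with hV
  have hVm : MeasurableSet V := q3_V_meas e t
  have hV6 : V ⊆ cb 6 := (q3_V_sub he1).trans (closedBall_subset_closedBall (by norm_num))
  have hTc := q3_T_cont σ e t
  have hdc : Continuous fun x => density κ μ (strain v x) := by
    have h1 := continuous_strain v hv
    have h2 : ∀ i j, Continuous fun x => strain v x i j := fun i j =>
      (continuous_apply j).comp ((continuous_apply i).comp h1)
    simp only [density_eq, Matrix.trace, Matrix.diag, inn]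
    fun_prop
  have hcc : Continuous fun x => cden κ μ (q3_T σ e t x) := by
    simp only [cden, Matrix.trace, Matrix.diag, inn]
    fun_prop
  have hic : Continuous fun x => inn (q3_T σ e t x) (strain v x) := q3_inn_cont hTc hv
  -- restrict to the complement of the void
  have h1 : ∫ x in cb 6, inn (q3_T σ e t x) (strain v x) =
      ∫ x in cb 6 \ V, inn (q3_T σ e t x) (strain v x) := by
    rw [setIntegral_sdiff hVm (q3_intOn hic subset_rfl) hV6]
    have : ∫ x in V, inn (q3_T σ e t x) (strain v x) = 0 := by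
      apply setIntegral_eq_zero_of_forall_eq_zero
      intro x hx
      rw [q3_T_void hσ h01 he ht hx]
      simp [inn]
    rw [this, sub_zero]
  have hi1 := q3_intOn hic (Set.sdiff_subset : cb 6 \ V ⊆ cb 6)
  have hi2 := q3_intOn hdc (Set.sdiff_subset : cb 6 \ V ⊆ cb 6)
  have hi3 := q3_intOn hcc (Set.sdiff_subset : cb 6 \ V ⊆ cb 6)
  have hi4 := q3_intOn hcc (subset_rfl : cb 6 ⊆ cb 6)
  have h2 : 2 * ∫ x in cb 6 \ V, inn (q3_T σ e t x) (strain v x) ≤
      en κ μ (cb 6 \ V) v + ∫ x in cb 6 \ V, cden κ μ (q3_T σ e t x) := by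
    unfold en
    rw [← integral_add hi2 hi3, ← integral_const_mul]
    exact integral_mono (hi1.const_mul 2) (hi2.add hi3) fun x => density_dual hκ hμ _ _
  have hcn : ∀ x, 0 ≤ cden κ μ (q3_T σ e t x) := by
    intro x
    have h1 := density_dual hκ hμ 0 (q3_T σ e t x)
    have h2 : density κ μ (0 : M3) = 0 := by
      rw [density_eq]
      simp [inn]
    have h3 : inn (q3_T σ e t x) (0 : M3) = 0 := by simp [inn]
    rw [h2, h3] at h1
    linarith
  have h3 : ∫ x in cb 6 \ V, cden κ μ (q3_T σ e t x) ≤ ∫ x in cb 6, cden κ μ (q3_T σ e t x) :=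
    setIntegral_mono_set hi4 (ae_of_all _ hcn) (Filter.Eventually.of_forall Set.sdiff_subset)
  -- the complementary energy
  set B := q3_box (3 * e) 2 2 with hB
  have hBm : MeasurableSet B := (q3_box_closed _ _ _).measurableSet
  have hB6 : B ⊆ cb 6 := q3_box_sub he.le he2
  set k := C0 * C1 * inn σ σ with hk
  have hsn := q3_inn_nonneg σ
  have hk0 : 0 ≤ k := by positivity
  have hpt : ∀ x, cden κ μ (q3_T σ e t x) ≤ inn σ σ / (2 * μ) + B.indicator (fun _ => k) x := by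
    intro x
    by_cases hx : x ∈ B
    · rw [Set.indicator_of_mem hx]
      have h4 := hc (q3_T σ e t x)
      have h5 := hT σ e t he he2 ht hte x
      have h6 : C0 * inn (q3_T σ e t x) (q3_T σ e t x) ≤ k := by
        rw [hk, mul_assoc]
        exact mul_le_mul_of_nonneg_left h5 hC0.le
      have h7 : 0 ≤ inn σ σ / (2 * μ) := by positivity
      linarith
    · rw [Set.indicator_of_notMem hx, q3_T_off he hx, cden_trace_zero κ μ σ htr, add_zero]
  have hind : IntegrableOn (B.indicator fun _ => k) (cb 6) := by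
    have : IntegrableOn (fun _ : E3 => k) (cb 6) := q3_intOn continuous_const subset_rfl
    exact Integrable.indicator this hBm
  have hcst : IntegrableOn (fun _ : E3 => inn σ σ / (2 * μ)) (cb 6) :=
    q3_intOn continuous_const subset_rfl
  have h8 : ∫ x in cb 6, cden κ μ (q3_T σ e t x) ≤
      inn σ σ / (2 * μ) * (volume (cb 6)).toReal + k * (96 * e) := by
    calc ∫ x in cb 6, cden κ μ (q3_T σ e t x) ≤
        ∫ x in cb 6, (inn σ σ / (2 * μ) + B.indicator (fun _ => k) x) :=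
          integral_mono hi4 (hcst.add hind) hpt
      _ = (∫ x in cb 6, inn σ σ / (2 * μ)) + ∫ x in cb 6, B.indicator (fun _ => k) x :=
          integral_add hcst hind
      _ = _ := by
          rw [setIntegral_indicator hBm, Set.inter_eq_right.2 hB6, setIntegral_const,
            setIntegral_const]
          simp only [smul_eq_mul, Measure.real]
          rw [hB, q3_box_vol (by linarith) (by norm_num) (by norm_num)]
          ring
  have h9 := q3_T_test σ (t := t) he he2 v hv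
  rw [h1] at h9
  rw [← h9]
  have e1 : inn σ σ * ((volume (cb 6)).toReal / (2 * μ) + 96 * (C0 * C1) * e) =
      inn σ σ / (2 * μ) * (volume (cb 6)).toReal + k * (96 * e) := by
    rw [hk]
    ring
  rw [e1]
  linarith


/-! ### the test field -/

/-- bump -/
noncomputable def q3_β : ℝ → ℝ := cut (1 / 4) (1 / 2)

/-- step from `-1/2` to `1/2` -/
noncomputable def q3_S (z : ℝ) : ℝ := Real.smoothTransition ((z + 1) / 2) - 1 / 2

theorem q3_β_smooth : ContDiff ℝ ∞ q3_β := q3_cut_smooth _ _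

theorem q3_S_smooth : ContDiff ℝ ∞ q3_S := by
  unfold q3_S
  exact (Real.smoothTransition.contDiff.comp
    ((contDiff_id.add contDiff_const).div_const 2)).sub contDiff_const

theorem q3_S_le (z : ℝ) : |q3_S z| ≤ 1 / 2 := by
  have h1 := Real.smoothTransition.nonneg ((z + 1) / 2)
  have h2 := Real.smoothTransition.le_one ((z + 1) / 2)
  unfold q3_S
  rw [abs_le]
  constructor <;> linarith

theorem q3_S_right {z : ℝ} (hz : 1 < z) : q3_S z = 1 / 2 ∧ deriv q3_S z = 0 ∧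
    deriv (deriv q3_S) z = 0 := by
  have ho : IsOpen {y : ℝ | 1 < y} := isOpen_lt continuous_const continuous_id
  have he : q3_S =ᶠ[nhds z] fun _ => 1 / 2 := by
    filter_upwards [ho.mem_nhds hz] with y hy
    have hy' : 1 < y := hy
    unfold q3_S
    rw [Real.smoothTransition.one_of_one_le (by linarith)]
    norm_num
  refine ⟨he.eq_of_nhds, by rw [he.deriv_eq]; simp, ?_⟩
  rw [he.deriv.deriv_eq]
  simp

theorem q3_S_left {z : ℝ} (hz : z < -1) : q3_S z = -(1 / 2) ∧ deriv q3_S z = 0 ∧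
    deriv (deriv q3_S) z = 0 := by
  have ho : IsOpen {y : ℝ | y < -1} := isOpen_lt continuous_id continuous_const
  have he : q3_S =ᶠ[nhds z] fun _ => -(1 / 2) := by
    filter_upwards [ho.mem_nhds hz] with y hy
    have hy' : y < -1 := hy
    unfold q3_S
    rw [Real.smoothTransition.zero_of_nonpos (by linarith)]
    norm_num
  refine ⟨he.eq_of_nhds, by rw [he.deriv_eq]; simp, ?_⟩
  rw [he.deriv.deriv_eq]
  simp

theorem q3_S_bdd : ∃ C : ℝ, 0 ≤ C ∧ (∀ z, |deriv q3_S z| ≤ C) ∧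
    ∀ z, |deriv (deriv q3_S) z| ≤ C := by
  have h1 := q3_deriv_smooth q3_S_smooth
  obtain ⟨C, hC, k1, k2, _⟩ := q3_bdd2 (deriv q3_S) h1 1 (by
    intro x hx
    rcases lt_abs.1 hx with h | h
    · exact (q3_S_right h).2.1
    · exact (q3_S_left (by linarith)).2.1)
  exact ⟨C, hC, k1, k2⟩

theorem q3_β_bdd : ∃ C : ℝ, 0 ≤ C ∧ ∀ y, |deriv q3_β y| ≤ C := by
  obtain ⟨C, hC, _, k2, _⟩ := q3_bdd2 q3_β q3_β_smooth (1 / 2) (by
    intro x hx
    exact q3_cut_zero (by norm_num) (by norm_num) hx.le)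
  exact ⟨C, hC, k2⟩

theorem q3_β_abs (y : ℝ) : |q3_β y| ≤ 1 := by
  unfold q3_β
  rw [abs_of_nonneg (q3_cut_nonneg _ _ _)]
  exact q3_cut_le _ _ _

theorem q3_β_in {y : ℝ} (hy : |y| < 1 / 4) : q3_β y = 1 ∧ deriv q3_β y = 0 := by
  have h := q3_loc q3_β (fun _ => 1) y (1 / 4) hy fun z hz =>
    q3_cut_one (by norm_num) (by norm_num) hz.le
  refine ⟨h.1, ?_⟩
  rw [h.2.1]
  simp

theorem q3_β_out {y : ℝ} (hy : 1 / 2 < |y|) : q3_β y = 0 ∧ deriv q3_β y = 0 := by
  have ho : IsOpen {z : ℝ | 1 / 2 < |z|} := isOpen_lt continuous_const continuous_abs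
  have he : q3_β =ᶠ[nhds y] fun _ => 0 := by
    filter_upwards [ho.mem_nhds hy] with z hz
    exact q3_cut_zero (by norm_num) (by norm_num) (le_of_lt hz)
  refine ⟨he.eq_of_nhds, ?_⟩
  rw [he.deriv_eq]
  simp

noncomputable def q3_fA (e : ℝ) (y : ℝ) : ℝ := q3_S (y / e) * q3_β y
noncomputable def q3_fA0 (e : ℝ) (y : ℝ) : ℝ := deriv q3_S (y / e) * q3_β y
noncomputable def q3_fB0 (t : ℝ) (y : ℝ) : ℝ := q3_G (y / t) * q3_β y

theorem q3_fA_smooth (e : ℝ) : ContDiff ℝ ∞ (q3_fA e) :=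
  (q3_scale_smooth q3_S_smooth e).mul q3_β_smooth

theorem q3_fA0_smooth (e : ℝ) : ContDiff ℝ ∞ (q3_fA0 e) :=
  (q3_scale_smooth (q3_deriv_smooth q3_S_smooth) e).mul q3_β_smooth

theorem q3_fB0_smooth (t : ℝ) : ContDiff ℝ ∞ (q3_fB0 t) :=
  (q3_scale_smooth q3_G_smooth t).mul q3_β_smooth

theorem q3_deriv_mul (f g : ℝ → ℝ) (hf : ContDiff ℝ ∞ f) (hg : ContDiff ℝ ∞ g) (e y : ℝ) :
    deriv (fun y => f (y / e) * g y) y = deriv f (y / e) / e * g y + f (y / e) * deriv g y := by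
  have h1 := (((q3_scale_smooth hf e).differentiable (by simp)) y).hasDerivAt
  rw [q3_deriv_scale _ (hf.differentiable (by simp))] at h1
  have h2 := ((hg.differentiable (by simp)) y).hasDerivAt
  exact (h1.mul h2).deriv

/-- the test field -/
noncomputable def q3_w (g e t : ℝ) (x : E3) : E3 :=
  mk3 ![-(g * (t / e)) * q3_pr (q3_fA0 e) (q3_fB0 t) q3_β x, g * q3_pr (q3_fA e) q3_β q3_β x, 0]

theorem q3_w_smooth (g e t : ℝ) : ContDiff ℝ ∞ (q3_w g e t) := by
  have h1 := q3_pr_smooth (q3_fA0_smooth e) (q3_fB0_smooth t) q3_β_smooth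
  have h2 := q3_pr_smooth (q3_fA_smooth e) q3_β_smooth q3_β_smooth
  unfold q3_w
  rw [contDiff_euclidean]
  intro i
  fin_cases i
  · exact contDiff_const.mul h1
  · exact contDiff_const.mul h2
  · exact contDiff_const

theorem q3_w_off (g e t : ℝ) {x : E3} (hx : x ∉ cb 1) : q3_w g e t x = 0 := by
  have hb : x ∉ q3_box (1 / 2) (1 / 2) (1 / 2) := fun h =>
    hx (q3_norm_le (by norm_num) h (by norm_num))
  have hz : ∀ y : ℝ, 1 / 2 < |y| → q3_β y = 0 := fun y hy => (q3_β_out hy).1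
  have h1 : q3_pr (q3_fA0 e) (q3_fB0 t) q3_β x = 0 :=
    (q3_zero_off (fun y hy => by unfold q3_fA0; rw [hz y hy, mul_zero])
      (fun y hy => by unfold q3_fB0; rw [hz y hy, mul_zero]) hz hb).eq_of_nhds
  have h2 : q3_pr (q3_fA e) q3_β q3_β x = 0 :=
    (q3_zero_off (fun y hy => by unfold q3_fA; rw [hz y hy, mul_zero]) hz hz hb).eq_of_nhds
  unfold q3_w
  rw [h1, h2]
  ext i
  fin_cases i <;> simp

theorem q3_pd_const_mul (c : ℝ) (f : E3 → ℝ) (hf : ContDiff ℝ ∞ f) (j : Fin 3) (x : E3) :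
    pd j (fun y => c * f y) x = c * pd j f x := by
  unfold pd
  rw [fderiv_const_mul ((hf.differentiable (by simp)) x)]
  rfl

/-- the entries of the strain of the test field -/
theorem q3_strain_w (g e t : ℝ) (x : E3) :
    strain (q3_w g e t) x 0 0 =
      -(g * (t / e)) * (deriv (q3_fA0 e) (x 0) * q3_fB0 t (x 1) * q3_β (x 2)) ∧
    strain (q3_w g e t) x 0 1 =
      (-(g * (t / e)) * (q3_fA0 e (x 0) * deriv (q3_fB0 t) (x 1) * q3_β (x 2)) +
        g * (deriv (q3_fA e) (x 0) * q3_β (x 1) * q3_β (x 2))) / 2 ∧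
    strain (q3_w g e t) x 0 2 =
      -(g * (t / e)) * (q3_fA0 e (x 0) * q3_fB0 t (x 1) * deriv q3_β (x 2)) / 2 ∧
    strain (q3_w g e t) x 1 1 =
      g * (q3_fA e (x 0) * deriv q3_β (x 1) * q3_β (x 2)) ∧
    strain (q3_w g e t) x 1 2 =
      g * (q3_fA e (x 0) * q3_β (x 1) * deriv q3_β (x 2)) / 2 ∧
    strain (q3_w g e t) x 2 2 = 0 := by
  have h1 := q3_pr_smooth (q3_fA0_smooth e) (q3_fB0_smooth t) q3_β_smooth
  have h2 := q3_pr_smooth (q3_fA_smooth e) q3_β_smooth q3_β_smooth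
  have c0 : (fun y => q3_w g e t y 0) =
      fun y => -(g * (t / e)) * q3_pr (q3_fA0 e) (q3_fB0 t) q3_β y := rfl
  have c1 : (fun y => q3_w g e t y 1) = fun y => g * q3_pr (q3_fA e) q3_β q3_β y := rfl
  have c2 : (fun y => q3_w g e t y 2) = fun _ => 0 := rfl
  have p2 : ∀ j, pd j (fun _ : E3 => (0 : ℝ)) x = 0 := by
    intro j
    unfold pd
    simp
  have ha := (q3_fA_smooth e).differentiable (by simp)
  have ha0 := (q3_fA0_smooth e).differentiable (by simp)
  have hb0 := (q3_fB0_smooth t).differentiable (by simp)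
  have hβ := q3_β_smooth.differentiable (by simp)
  simp only [strain_apply _ (q3_w_smooth g e t), c0, c1, c2, p2, q3_pd_const_mul _ _ h1,
    q3_pd_const_mul _ _ h2, q3_pd0 ha0 hb0 hβ, q3_pd1 ha0 hb0 hβ, q3_pd2 ha0 hb0 hβ,
    q3_pd0 ha hβ hβ, q3_pd1 ha hβ hβ, q3_pd2 ha hβ hβ]
  unfold q3_pr
  refine ⟨?_, ?_, ?_, ?_, ?_, ?_⟩ <;> ring

/-- The strain of the test field outside of the void. -/
theorem q3_strain_bd : ∃ C : ℝ, 0 ≤ C ∧ ∀ g e t : ℝ, 0 < g → 0 < e → e ≤ 1 / 8 → 0 < t →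
    t ≤ e ^ 2 → ∀ x : E3, x ∉ q3_V e t →
    (∀ i j, |strain (q3_w g e t) x i j| ≤ C * g) ∧
    (e < x 0 → strain (q3_w g e t) x 0 1 =
      g / 4 * (deriv q3_β (x 0) * q3_β (x 1) * q3_β (x 2))) ∧
    (x 0 < -e → strain (q3_w g e t) x 0 1 =
      -(g / 4) * (deriv q3_β (x 0) * q3_β (x 1) * q3_β (x 2))) := by
  obtain ⟨C1, hC1, s1, s2⟩ := q3_S_bdd
  obtain ⟨C2, hC2, b1⟩ := q3_β_bdd
  obtain ⟨C3, hC3, g1, g2⟩ := q3_G_bdd
  refine ⟨C2 + C1 * C3 * (C2 + 1), by positivity, fun g e t hg he he1 ht hte x hx => ?_⟩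
  obtain ⟨e00, e01, e02, e11, e12, e22⟩ := q3_strain_w g e t x
  have hsym := strain_symm (q3_w g e t) x
  have hte1 : t / e ≤ 1 := by
    rw [div_le_one he]
    nlinarith
  have hte0 : 0 ≤ t / e := by positivity
  have hte2 : t / e / e ≤ 1 := by
    rw [div_div, div_le_one (by positivity)]
    nlinarith
  -- reduce to the six entries
  have six : |strain (q3_w g e t) x 0 0| ≤ (C2 + C1 * C3 * (C2 + 1)) * g ∧
      |strain (q3_w g e t) x 0 1| ≤ (C2 + C1 * C3 * (C2 + 1)) * g ∧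
      |strain (q3_w g e t) x 0 2| ≤ (C2 + C1 * C3 * (C2 + 1)) * g ∧
      |strain (q3_w g e t) x 1 1| ≤ (C2 + C1 * C3 * (C2 + 1)) * g ∧
      |strain (q3_w g e t) x 1 2| ≤ (C2 + C1 * C3 * (C2 + 1)) * g ∧
      |strain (q3_w g e t) x 2 2| ≤ (C2 + C1 * C3 * (C2 + 1)) * g →
      ∀ i j, |strain (q3_w g e t) x i j| ≤ (C2 + C1 * C3 * (C2 + 1)) * g := by
    rintro ⟨q1, q2, q3, q4, q5, q6⟩ i j
    fin_cases i <;> fin_cases j
    · exact q1
    · exact q2
    · exact q3
    · exact (hsym 1 0) ▸ q2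
    · exact q4
    · exact q5
    · exact (hsym 2 0) ▸ q3
    · exact (hsym 2 1) ▸ q5
    · exact q6
  have hβ0 := q3_β_abs (x 0)
  have hβ1 := q3_β_abs (x 1)
  have hβ2 := q3_β_abs (x 2)
  have hA : |q3_fA e (x 0)| ≤ 1 / 2 := by
    unfold q3_fA
    have := q3_mul_bd (q3_S_le (x 0 / e)) hβ0
    linarith
  have k11 : |q3_fA e (x 0) * deriv q3_β (x 1) * q3_β (x 2)| ≤ 1 / 2 * C2 * 1 :=
    q3_mul3_bd hA (b1 _) hβ2
  have k12 : |q3_fA e (x 0) * q3_β (x 1) * deriv q3_β (x 2)| ≤ 1 / 2 * 1 * C2 :=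
    q3_mul3_bd hA hβ1 (b1 _)
  have hpos : 0 ≤ C1 * C3 * (C2 + 1) := by positivity
  have r11 : |strain (q3_w g e t) x 1 1| ≤ (C2 + C1 * C3 * (C2 + 1)) * g := by
    rw [e11, abs_mul, abs_of_pos hg, mul_comm g]
    exact mul_le_mul_of_nonneg_right (by linarith) hg.le
  have r12 : |strain (q3_w g e t) x 1 2| ≤ (C2 + C1 * C3 * (C2 + 1)) * g := by
    rw [e12, abs_div, abs_mul, abs_of_pos hg, abs_of_pos (by norm_num : (0 : ℝ) < 2)]
    have : |q3_fA e (x 0) * q3_β (x 1) * deriv q3_β (x 2)| * g ≤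
      (C2 + C1 * C3 * (C2 + 1)) * g := mul_le_mul_of_nonneg_right (by linarith) hg.le
    have h0 : 0 ≤ |q3_fA e (x 0) * q3_β (x 1) * deriv q3_β (x 2)| * g := by positivity
    linarith
  have r22 : |strain (q3_w g e t) x 2 2| ≤ (C2 + C1 * C3 * (C2 + 1)) * g := by
    rw [e22, abs_zero]
    positivity
  -- outside of the wall
  have outside : ∀ s : ℝ, |s| ≤ 1 / 2 → q3_fA0 e (x 0) = 0 → deriv (q3_fA0 e) (x 0) = 0 →
      deriv (q3_fA e) (x 0) = s * deriv q3_β (x 0) →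
      (∀ i j, |strain (q3_w g e t) x i j| ≤ (C2 + C1 * C3 * (C2 + 1)) * g) ∧
      strain (q3_w g e t) x 0 1 = g / 2 * s * (deriv q3_β (x 0) * q3_β (x 1) * q3_β (x 2)) := by
    intro s hs z1 z2 z3
    have h01 : strain (q3_w g e t) x 0 1 =
        g / 2 * s * (deriv q3_β (x 0) * q3_β (x 1) * q3_β (x 2)) := by
      rw [e01, z1, z3]
      ring
    refine ⟨six ⟨?_, ?_, ?_, r11, r12, r22⟩, h01⟩
    · rw [e00, z2]
      simp only [zero_mul, mul_zero, abs_zero]
      positivity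
    · have k : |deriv q3_β (x 0) * q3_β (x 1) * q3_β (x 2)| ≤ C2 * 1 * 1 :=
        q3_mul3_bd (b1 _) hβ1 hβ2
      rw [h01, mul_assoc, abs_mul, abs_of_pos (by positivity : (0 : ℝ) < g / 2)]
      have k2 := q3_mul_bd hs k
      have k3 : g / 2 * |s * (deriv q3_β (x 0) * q3_β (x 1) * q3_β (x 2))| ≤
          g / 2 * (1 / 2 * (C2 * 1 * 1)) := mul_le_mul_of_nonneg_left k2 (by positivity)
      nlinarith [mul_nonneg hpos hg.le, mul_nonneg hC2 hg.le]
    · rw [e02, z1]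
      simp only [zero_mul, mul_zero, zero_div, abs_zero]
      positivity
  have dA := q3_deriv_mul q3_S q3_β q3_S_smooth q3_β_smooth e (x 0)
  have dA0 := q3_deriv_mul (deriv q3_S) q3_β (q3_deriv_smooth q3_S_smooth) q3_β_smooth e (x 0)
  have right : e < x 0 → (∀ i j, |strain (q3_w g e t) x i j| ≤ (C2 + C1 * C3 * (C2 + 1)) * g) ∧
      strain (q3_w g e t) x 0 1 =
        g / 2 * (1 / 2) * (deriv q3_β (x 0) * q3_β (x 1) * q3_β (x 2)) := by
    intro h
    have hz : 1 < x 0 / e := by rwa [lt_div_iff₀ he, one_mul]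
    obtain ⟨z1, z2, z3⟩ := q3_S_right hz
    refine outside (1 / 2) (by norm_num) ?_ ?_ ?_
    · unfold q3_fA0
      rw [z2, zero_mul]
    · have : deriv (q3_fA0 e) (x 0) = _ := dA0
      rw [this, z2, z3]
      simp
    · have : deriv (q3_fA e) (x 0) = _ := dA
      rw [this, z1, z2]
      simp
  have left : x 0 < -e → (∀ i j, |strain (q3_w g e t) x i j| ≤ (C2 + C1 * C3 * (C2 + 1)) * g) ∧
      strain (q3_w g e t) x 0 1 =
        g / 2 * (-(1 / 2)) * (deriv q3_β (x 0) * q3_β (x 1) * q3_β (x 2)) := by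
    intro h
    have hz : x 0 / e < -1 := by rw [div_lt_iff₀ he]; linarith
    obtain ⟨z1, z2, z3⟩ := q3_S_left hz
    refine outside (-(1 / 2)) (by norm_num) ?_ ?_ ?_
    · unfold q3_fA0
      rw [z2, zero_mul]
    · have : deriv (q3_fA0 e) (x 0) = _ := dA0
      rw [this, z2, z3]
      simp
    · have : deriv (q3_fA e) (x 0) = _ := dA
      rw [this, z1, z2]
      simp
  refine ⟨?_, fun h => by rw [(right h).2]; ring, fun h => by rw [(left h).2]; ring⟩
  by_cases h1 : e < x 0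
  · exact (right h1).1
  · by_cases h2 : x 0 < -e
    · exact (left h2).1
    · push Not at h1 h2
      have hx0 : |x 0| ≤ e := abs_le.2 ⟨h2, h1⟩
      by_cases h3 : |x 1| ≤ 1 / 2 ∧ |x 2| ≤ 1 / 2
      · -- on a leaf
        have hleaf : |Int.fract (x 1 / t) - 1 / 2| ≤ 1 / 4 := by
          by_contra hc
          push Not at hc
          exact hx ⟨hx0, h3.1, h3.2, hc⟩
        have hG := q3_G_leaf hleaf
        obtain ⟨β0, β0'⟩ := q3_β_in (lt_of_le_of_lt hx0 (by linarith : e < 1 / 4))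
        have v1 : deriv (q3_fA e) (x 0) = deriv q3_S (x 0 / e) / e := by
          have : deriv (q3_fA e) (x 0) = _ := dA
          rw [this, β0, β0']
          ring
        have v2 : deriv (q3_fA0 e) (x 0) = deriv (deriv q3_S) (x 0 / e) / e := by
          have : deriv (q3_fA0 e) (x 0) = _ := dA0
          rw [this, β0, β0']
          ring
        have v3 : q3_fA0 e (x 0) = deriv q3_S (x 0 / e) := by
          unfold q3_fA0
          rw [β0, mul_one]
        have v4 : deriv (q3_fB0 t) (x 1) = 1 / t * q3_β (x 1) + q3_G (x 1 / t) * deriv q3_β (x 1) := by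
          have := q3_deriv_mul q3_G q3_β q3_G_smooth q3_β_smooth t (x 1)
          rw [hG] at this
          exact this
        have hB : |q3_fB0 t (x 1)| ≤ C3 := by
          unfold q3_fB0
          have := q3_mul_bd (g1 (x 1 / t)) hβ1
          linarith
        refine six ⟨?_, ?_, ?_, r11, r12, r22⟩
        · rw [e00, v2]
          have k := q3_mul3_bd (s2 (x 0 / e)) hB hβ2
          have e1 : -(g * (t / e)) * (deriv (deriv q3_S) (x 0 / e) / e * q3_fB0 t (x 1) *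
              q3_β (x 2)) = -(g * (t / e / e)) * (deriv (deriv q3_S) (x 0 / e) * q3_fB0 t (x 1) *
              q3_β (x 2)) := by
            field_simp
          rw [e1, abs_mul, abs_neg, abs_of_nonneg (by positivity)]
          have k2 : g * (t / e / e) ≤ g * 1 := mul_le_mul_of_nonneg_left hte2 hg.le
          have k3 := mul_le_mul k2 k (abs_nonneg _) (by positivity)
          nlinarith [mul_nonneg (mul_nonneg hC1 hC3) hg.le,
            mul_nonneg (mul_nonneg (mul_nonneg hC1 hC3) hC2) hg.le, mul_nonneg hC2 hg.le]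
        · rw [e01, v1, v3, v4]
          have e1 : (-(g * (t / e)) * (deriv q3_S (x 0 / e) * (1 / t * q3_β (x 1) +
              q3_G (x 1 / t) * deriv q3_β (x 1)) * q3_β (x 2)) +
              g * (deriv q3_S (x 0 / e) / e * q3_β (x 1) * q3_β (x 2))) / 2 =
              -(g * (t / e)) / 2 * (deriv q3_S (x 0 / e) * (q3_G (x 1 / t) *
                deriv q3_β (x 1)) * q3_β (x 2)) := by
            field_simp
            ring
          rw [e1]
          have k := q3_mul3_bd (s1 (x 0 / e)) (q3_mul_bd (g1 (x 1 / t)) (b1 (x 1))) hβ2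
          rw [abs_mul, abs_div, abs_neg, abs_of_nonneg (by positivity : 0 ≤ g * (t / e)),
            abs_of_pos (by norm_num : (0 : ℝ) < 2)]
          have k2 : g * (t / e) / 2 ≤ g * 1 := by nlinarith
          have k3 := mul_le_mul k2 k (abs_nonneg _) (by positivity)
          nlinarith [mul_nonneg (mul_nonneg hC1 hC3) hg.le,
            mul_nonneg (mul_nonneg (mul_nonneg hC1 hC3) hC2) hg.le, mul_nonneg hC2 hg.le]
        · rw [e02, v3]
          have k := q3_mul3_bd (s1 (x 0 / e)) hB (b1 (x 2))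
          rw [abs_div, abs_mul, abs_neg, abs_of_nonneg (by positivity : 0 ≤ g * (t / e)),
            abs_of_pos (by norm_num : (0 : ℝ) < 2)]
          have k2 : g * (t / e) ≤ g * 1 := by nlinarith
          have k3 := mul_le_mul k2 k (abs_nonneg _) (by positivity)
          nlinarith [mul_nonneg (mul_nonneg hC1 hC3) hg.le,
            mul_nonneg (mul_nonneg (mul_nonneg hC1 hC3) hC2) hg.le, mul_nonneg hC2 hg.le]
      · -- the test field vanishes
        have hz : (q3_β (x 1) = 0 ∧ deriv q3_β (x 1) = 0) ∨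
            (q3_β (x 2) = 0 ∧ deriv q3_β (x 2) = 0) := by
          by_cases h4 : |x 1| ≤ 1 / 2
          · right
            apply q3_β_out
            by_contra hc
            push Not at hc
            exact h3 ⟨h4, hc⟩
          · left
            push Not at h4
            exact q3_β_out h4
        have hB0 : q3_β (x 1) = 0 ∧ deriv q3_β (x 1) = 0 →
            q3_fB0 t (x 1) = 0 ∧ deriv (q3_fB0 t) (x 1) = 0 := by
          rintro ⟨u1, u2⟩
          constructor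
          · unfold q3_fB0
            rw [u1, mul_zero]
          · have := q3_deriv_mul q3_G q3_β q3_G_smooth q3_β_smooth t (x 1)
            have h : deriv (q3_fB0 t) (x 1) = _ := this
            rw [h, u1, u2]
            ring
        refine six ⟨?_, ?_, ?_, r11, r12, r22⟩
        all_goals
          rcases hz with h | h
          · obtain ⟨u1, u2⟩ := hB0 h
            simp only [e00, e01, e02, u1, u2, h.1, mul_zero, zero_mul, add_zero, zero_div,
              abs_zero]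
            positivity
          · simp only [e00, e01, e02, h.1, h.2, mul_zero, add_zero, zero_div, abs_zero]
            positivity


/-! ### integrals of products -/

theorem q3_integral_pr (a b c : ℝ → ℝ) :
    ∫ x : E3, q3_pr a b c x = (∫ y, a y) * (∫ y, b y) * ∫ y, c y := by
  have h := (EuclideanSpace.volume_preserving_symm_measurableEquiv_toLp (Fin 3)).integral_comp
    (MeasurableEquiv.measurableEmbedding _)
    (fun y : Fin 3 → ℝ => a (y 0) * b (y 1) * c (y 2))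
  have e1 : (fun x : E3 => q3_pr a b c x) = fun x : E3 =>
      (fun y : Fin 3 → ℝ => a (y 0) * b (y 1) * c (y 2))
        ((MeasurableEquiv.toLp 2 (Fin 3 → ℝ)).symm x) := rfl
  rw [e1, h]
  have h2 := integral_fintype_prod_eq_prod (𝕜 := ℝ) (ι := Fin 3) (E := fun _ => ℝ)
    (f := ![a, b, c]) (μ := fun _ => volume)
  rw [Fin.prod_univ_three] at h2
  rw [← volume_pi] at h2
  simp only [Fin.prod_univ_three, Matrix.cons_val] at h2
  exact h2

/-- outward derivative of the bump -/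
noncomputable def q3_ν (y : ℝ) : ℝ := if 0 ≤ y then deriv q3_β y else -deriv q3_β y

theorem q3_ν_in {y : ℝ} (hy : |y| < 1 / 4) : q3_ν y = 0 := by
  unfold q3_ν
  rw [(q3_β_in hy).2]
  simp

theorem q3_ν_out {y : ℝ} (hy : 1 / 2 < |y|) : q3_ν y = 0 := by
  unfold q3_ν
  rw [(q3_β_out hy).2]
  simp

theorem q3_dβ_cont : Continuous (deriv q3_β) := (q3_deriv_smooth q3_β_smooth).continuous

theorem q3_dβ_int : Integrable (deriv q3_β) := by
  apply q3_dβ_cont.integrable_of_hasCompactSupport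
  apply HasCompactSupport.of_support_subset_isCompact (isCompact_Icc (a := (-(1 / 2) : ℝ))
    (b := 1 / 2))
  intro y hy
  by_contra hc
  apply hy
  apply (q3_β_out _).2
  by_contra h
  push Not at h
  exact hc (abs_le.1 h)

theorem q3_ν_meas : Measurable q3_ν := by
  unfold q3_ν
  exact Measurable.ite measurableSet_Ici q3_dβ_cont.measurable q3_dβ_cont.measurable.neg

theorem q3_ν_integral : ∫ y, q3_ν y = -2 := by
  have hν : Integrable q3_ν := by
    refine q3_dβ_int.mono q3_ν_meas.aestronglyMeasurable (ae_of_all _ fun y => ?_)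
    unfold q3_ν
    split_ifs <;> simp
  rw [← integral_add_compl (measurableSet_Ioi (a := (0 : ℝ))) hν, Set.compl_Ioi]
  have hd : ∀ y : ℝ, HasDerivAt q3_β (deriv q3_β y) y := fun y =>
    ((q3_β_smooth.differentiable (by simp)) y).hasDerivAt
  have h1 : ∫ y in Set.Ioi (0 : ℝ), q3_ν y = -1 := by
    have e : ∫ y in Set.Ioi (0 : ℝ), q3_ν y = ∫ y in Set.Ioi (0 : ℝ), deriv q3_β y := by
      apply setIntegral_congr_fun measurableSet_Ioi
      intro y hy
      have : (0 : ℝ) ≤ y := le_of_lt hy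
      simp [q3_ν, this]
    have ht : Filter.Tendsto q3_β Filter.atTop (nhds 0) := by
      apply tendsto_const_nhds.congr'
      filter_upwards [Filter.eventually_gt_atTop 1] with y hy
      exact ((q3_β_out (by rw [lt_abs]; left; linarith)).1).symm
    rw [e, integral_Ioi_of_hasDerivAt_of_tendsto' (fun y _ => hd y) q3_dβ_int.integrableOn ht,
      (q3_β_in (y := 0) (by norm_num)).1]
    norm_num
  have h2 : ∫ y in Set.Iic (0 : ℝ), q3_ν y = -1 := by
    have e : ∫ y in Set.Iic (0 : ℝ), q3_ν y = ∫ y in Set.Iic (0 : ℝ), -deriv q3_β y := by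
      apply setIntegral_congr_fun measurableSet_Iic
      intro y hy
      have hy' : y ≤ 0 := hy
      rcases lt_or_eq_of_le hy' with h | h
      · simp [q3_ν, not_le.2 h]
      · rw [h, q3_ν_in (by norm_num)]
        change (0 : ℝ) = -deriv q3_β 0
        rw [(q3_β_in (y := 0) (by norm_num)).2, neg_zero]
    have ht : Filter.Tendsto q3_β Filter.atBot (nhds 0) := by
      apply tendsto_const_nhds.congr'
      filter_upwards [Filter.eventually_lt_atBot (-1)] with y hy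
      exact ((q3_β_out (by rw [lt_abs]; right; linarith)).1).symm
    rw [e, integral_neg, integral_Iic_of_hasDerivAt_of_tendsto' (fun y _ => hd y)
      q3_dβ_int.integrableOn ht, (q3_β_in (y := 0) (by norm_num)).1]
    norm_num
  rw [h1, h2]
  norm_num

theorem q3_β_pos : 0 < ∫ y, q3_β y := by
  refine q3_β_smooth.continuous.integral_pos_of_hasCompactSupport_nonneg_nonzero ?_
    (fun y => q3_cut_nonneg _ _ _) (x := 0) ?_
  · apply HasCompactSupport.of_support_subset_isCompact (isCompact_Icc (a := (-(1 / 2) : ℝ))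
      (b := 1 / 2))
    intro y hy
    by_contra hc
    apply hy
    apply (q3_β_out _).1
    by_contra h
    push Not at h
    exact hc (abs_le.1 h)
  · rw [(q3_β_in (y := 0) (by norm_num)).1]
    norm_num

/-! ### the energy of the test field -/

theorem q3_density_E12 {κ μ : ℝ} (S : M3) (hS : ∀ i j, S i j = S j i) :
    density κ μ (E12 + S) = 4 * μ + 8 * μ * S 0 1 + density κ μ S := by
  rw [density_eq, density_eq]
  simp only [Matrix.trace, Matrix.diag, inn, Fin.sum_univ_three, Matrix.add_apply, E12,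
    Matrix.of_apply, Matrix.cons_val', Matrix.cons_val]
  have := hS 1 0
  rw [this]
  ring

theorem q3_E12_symm : E12.IsSymm := by
  ext i j
  fin_cases i <;> fin_cases j <;> simp [E12]

theorem q3_density_12 (κ μ : ℝ) : density κ μ E12 = 4 * μ := by
  rw [density_eq]
  simp only [Matrix.trace, Matrix.diag, inn, Fin.sum_univ_three, E12,
    Matrix.of_apply, Matrix.cons_val', Matrix.cons_val]
  ring

noncomputable def q3_D : E3 → ℝ := q3_pr q3_ν q3_β q3_β

theorem q3_D_off {x : E3} (hx : x ∉ cb 6) : q3_D x = 0 := by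
  have hb : x ∉ q3_box (1 / 2) (1 / 2) (1 / 2) := fun h =>
    hx (q3_norm_le (by norm_num) h (by norm_num))
  exact (q3_zero_off (fun y hy => q3_ν_out hy) (fun y hy => (q3_β_out hy).1)
    (fun y hy => (q3_β_out hy).1) hb).eq_of_nhds

theorem q3_D_meas : Measurable q3_D := by
  have h0 := (q3_coord_cont 0).measurable
  have h1 := (q3_coord_cont 1).measurable
  have h2 := (q3_coord_cont 2).measurable
  have hβ := q3_β_smooth.continuous.measurable
  exact ((q3_ν_meas.comp h0).mul (hβ.comp h1)).mul (hβ.comp h2)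

theorem q3_D_bd : ∃ C : ℝ, ∀ x, |q3_D x| ≤ C := by
  obtain ⟨C, hC, h⟩ := q3_β_bdd
  refine ⟨C * 1 * 1, fun x => q3_mul3_bd ?_ (q3_β_abs _) (q3_β_abs _)⟩
  unfold q3_ν
  split_ifs
  · exact h _
  · rw [abs_neg]
    exact h _

theorem q3_D_intOn : IntegrableOn q3_D (cb 6) := by
  obtain ⟨C, hC⟩ := q3_D_bd
  have hc : IntegrableOn (fun _ : E3 => C) (cb 6) := q3_intOn continuous_const subset_rfl
  refine Integrable.mono hc q3_D_meas.aestronglyMeasurable (ae_of_all _ fun x => ?_)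
  rw [Real.norm_eq_abs]
  exact le_trans (hC x) (le_abs_self C)

theorem q3_D_integral : ∫ x in cb 6, q3_D x = -2 * (∫ y, q3_β y) ^ 2 := by
  rw [setIntegral_eq_integral_of_forall_compl_eq_zero (fun x hx => q3_D_off hx)]
  unfold q3_D
  rw [q3_integral_pr, q3_ν_integral]
  ring

/-- the gain of the test field -/
theorem q3_gain {κ μ : ℝ} (hκ : 0 < κ) (hμ : 0 < μ) : ∃ c₁ e₁ g : ℝ, 0 < c₁ ∧ 0 < e₁ ∧ 0 < g ∧
    ∀ e t : ℝ, 0 < e → e ≤ e₁ → e ≤ 1 / 8 → 0 < t → t ≤ e ^ 2 →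
    en κ μ (cb 6 \ q3_V e t) (fun x => mact E12 x + q3_w g e t x) ≤
      density κ μ E12 * (volume (cb 6)).toReal - c₁ := by
  obtain ⟨C0, hC0, hup⟩ := density_upper hκ hμ
  obtain ⟨C1, hC1, hst⟩ := q3_strain_bd
  have hI := q3_β_pos
  set I := (∫ y, q3_β y) ^ 2 with hIdef
  have hI2 : 0 < I := by positivity
  set v6 := (volume (cb 6)).toReal with hv6
  have hv0 : 0 ≤ v6 := ENNReal.toReal_nonneg
  set C := C0 * (9 * C1 ^ 2) with hC
  have hCn : 0 ≤ C := by positivity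
  set g := μ * I / (C * v6 + 1) with hg
  have hg0 : 0 < g := by positivity
  have hg1 : C * g * v6 ≤ μ * I := by
    have : g * (C * v6 + 1) = μ * I := by
      rw [hg]
      field_simp
    nlinarith
  set e1 := μ * I / (2304 * μ * C1 + 1) with he1
  have he10 : 0 < e1 := by positivity
  refine ⟨2 * μ * g * I, e1, g, by positivity, he10, hg0, fun e t he hee he8 ht hte => ?_⟩
  have he2 : 2304 * μ * C1 * e ≤ μ * I := by
    have h1 : e1 * (2304 * μ * C1 + 1) = μ * I := by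
      rw [he1]
      field_simp
    have h2 : e * (2304 * μ * C1 + 1) ≤ e1 * (2304 * μ * C1 + 1) :=
      mul_le_mul_of_nonneg_right hee (by positivity)
    nlinarith
  set V := q3_V e t with hV
  have hVm : MeasurableSet V := q3_V_meas e t
  set B := q3_box e 6 6 with hB
  have hBm : MeasurableSet B := (q3_box_closed _ _ _).measurableSet
  have hw := q3_w_smooth g e t
  have hm : ContDiff ℝ ∞ fun x : E3 => mact E12 x := by
    have h0 := q3_coord_smooth 0
    have h1 := q3_coord_smooth 1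
    have h2 := q3_coord_smooth 2
    unfold mact
    rw [contDiff_euclidean]
    intro i
    change ContDiff ℝ ∞ fun x : E3 => ∑ j, E12 i j * x j
    simp only [Fin.sum_univ_three]
    fun_prop
  have hstr : ∀ x, strain (fun x => mact E12 x + q3_w g e t x) x = E12 + strain (q3_w g e t) x := by
    intro x
    rw [strain_add _ _ hm hw, strain_mact _ q3_E12_symm]
  -- pointwise bound
  set F : E3 → ℝ := fun x => 4 * μ + C * g ^ 2 + 2 * μ * g * q3_D x +
    B.indicator (fun _ => 8 * μ * (C1 * g)) x with hF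
  have hD0 : ∀ x : E3, |x 0| ≤ e → q3_D x = 0 := by
    intro x hx
    unfold q3_D q3_pr
    rw [q3_ν_in (lt_of_le_of_lt hx (by linarith)), zero_mul, zero_mul]
  have hpt : ∀ x ∈ cb 6 \ V, density κ μ (strain (fun x => mact E12 x + q3_w g e t x) x) ≤ F x := by
    rintro x ⟨hx6, hxV⟩
    obtain ⟨s1, s2, s3⟩ := hst g e t hg0 he he8 ht hte x hxV
    rw [hstr, q3_density_E12 _ (strain_symm _ x)]
    have h1 : density κ μ (strain (q3_w g e t) x) ≤ C * g ^ 2 := by
      have h2 := hup (strain (q3_w g e t) x)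
      have h3 := q3_inn_le s1
      calc density κ μ (strain (q3_w g e t) x) ≤ C0 * (9 * (C1 * g) ^ 2) :=
            le_trans h2 (mul_le_mul_of_nonneg_left h3 hC0.le)
        _ = C * g ^ 2 := by rw [hC]; ring
    have hind : 0 ≤ B.indicator (fun _ : E3 => 8 * μ * (C1 * g)) x := by
      apply Set.indicator_nonneg
      intro _ _
      positivity
    rw [hF]
    simp only
    by_cases h4 : e < x 0
    · have h5 : q3_D x = deriv q3_β (x 0) * q3_β (x 1) * q3_β (x 2) := by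
        unfold q3_D q3_pr q3_ν
        rw [if_pos (by linarith)]
      rw [s2 h4, h5]
      nlinarith
    · by_cases h6 : x 0 < -e
      · have h5 : q3_D x = -(deriv q3_β (x 0) * q3_β (x 1) * q3_β (x 2)) := by
          unfold q3_D q3_pr q3_ν
          rw [if_neg (by linarith)]
          ring
        rw [s3 h6, h5]
        nlinarith
      · push Not at h4 h6
        have hx0 : |x 0| ≤ e := abs_le.2 ⟨h6, h4⟩
        have hxB : x ∈ B := by
          have hn : ∀ i : Fin 3, |x i| ≤ 6 := by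
            intro i
            have h7 : ‖x i‖ ≤ ‖x‖ := PiLp.norm_apply_le x i
            have h8 : ‖x‖ ≤ 6 := by simpa using hx6
            rw [← Real.norm_eq_abs]
            exact le_trans h7 h8
          exact ⟨hx0, hn 1, hn 2⟩
        rw [hD0 x hx0, Set.indicator_of_mem hxB]
        have h9 := (abs_le.1 (s1 0 1)).2
        nlinarith
  have hFV : ∀ x ∈ V, 0 ≤ F x := by
    intro x hx
    have hx0 : |x 0| ≤ e := hx.1
    have hind : 0 ≤ B.indicator (fun _ : E3 => 8 * μ * (C1 * g)) x := by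
      apply Set.indicator_nonneg
      intro _ _
      positivity
    rw [hF]
    simp only
    rw [hD0 x hx0]
    have : 0 ≤ C * g ^ 2 := by positivity
    nlinarith
  -- integrate
  have hVc : V ⊆ cb 6 := (q3_V_sub (by linarith)).trans (closedBall_subset_closedBall (by norm_num))
  have hc1 : IntegrableOn (fun _ : E3 => 4 * μ + C * g ^ 2) (cb 6) :=
    q3_intOn continuous_const subset_rfl
  have hc2 : IntegrableOn (fun x => 2 * μ * g * q3_D x) (cb 6) := q3_D_intOn.const_mul _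
  have hc3 : IntegrableOn (B.indicator fun _ => 8 * μ * (C1 * g)) (cb 6) := by
    have : IntegrableOn (fun _ : E3 => 8 * μ * (C1 * g)) (cb 6) :=
      q3_intOn continuous_const subset_rfl
    exact Integrable.indicator this hBm
  have hc12 : IntegrableOn (fun x => 4 * μ + C * g ^ 2 + 2 * μ * g * q3_D x) (cb 6) := hc1.add hc2
  have hFi : IntegrableOn F (cb 6) := hc12.add hc3
  have hdc : Continuous fun x => density κ μ (strain (fun x => mact E12 x + q3_w g e t x) x) := by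
    have h1 := continuous_strain _ (hm.add hw)
    have h2 : ∀ i j, Continuous fun x => strain (fun x => mact E12 x + q3_w g e t x) x i j :=
      fun i j => (continuous_apply j).comp ((continuous_apply i).comp h1)
    simp only [density_eq, Matrix.trace, Matrix.diag, inn]
    fun_prop
  have i1 : en κ μ (cb 6 \ V) (fun x => mact E12 x + q3_w g e t x) ≤ ∫ x in cb 6 \ V, F x := by
    unfold en
    exact setIntegral_mono_on (q3_intOn hdc Set.sdiff_subset) (hFi.mono_set Set.sdiff_subset)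
      (measurableSet_closedBall.diff hVm) hpt
  have i2 : ∫ x in cb 6 \ V, F x ≤ ∫ x in cb 6, F x := by
    rw [setIntegral_sdiff hVm hFi hVc]
    have : 0 ≤ ∫ x in V, F x := setIntegral_nonneg hVm hFV
    linarith
  have i3 : ∫ x in cb 6, F x = (4 * μ + C * g ^ 2) * v6 + 2 * μ * g * (-2 * I) +
      ∫ x in cb 6, B.indicator (fun _ => 8 * μ * (C1 * g)) x := by
    rw [hF]
    rw [integral_add hc12 hc3, integral_add hc1 hc2, integral_const_mul, q3_D_integral,
      setIntegral_const]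
    simp only [smul_eq_mul, Measure.real]
    ring
  have i4 : ∫ x in cb 6, B.indicator (fun _ => 8 * μ * (C1 * g)) x ≤ 2304 * μ * C1 * g * e := by
    rw [setIntegral_indicator hBm, setIntegral_const]
    have h1 : (volume (cb 6 ∩ B)).toReal ≤ (volume B).toReal :=
      ENNReal.toReal_mono (q3_box_compact _ _ _).measure_lt_top.ne
        (measure_mono Set.inter_subset_right)
    rw [hB, q3_box_vol he.le (by norm_num) (by norm_num)] at h1
    simp only [smul_eq_mul, Measure.real]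
    calc (volume (cb 6 ∩ q3_box e 6 6)).toReal * (8 * μ * (C1 * g)) ≤
        8 * (e * 6 * 6) * (8 * μ * (C1 * g)) := mul_le_mul_of_nonneg_right h1 (by positivity)
      _ = 2304 * μ * C1 * g * e := by ring
  rw [q3_density_12]
  have j1 : C * g ^ 2 * v6 ≤ g * (μ * I) := by
    have := mul_le_mul_of_nonneg_left hg1 hg0.le
    nlinarith
  have j2 : 2304 * μ * C1 * g * e ≤ g * (μ * I) := by
    have := mul_le_mul_of_nonneg_left he2 hg0.le
    nlinarith
  nlinarith

theorem corrector {κ μ : ℝ} (hκ : 0 < κ) (hμ : 0 < μ) : CorrectorExists κ μ := by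
  obtain ⟨c₁, e₁, g, hc₁, he₁, hg, hgain⟩ := q3_gain hκ hμ
  obtain ⟨C, hC, hstiff⟩ := q3_stiff hκ hμ
  refine ⟨c₁, hc₁, fun ε hε => ?_⟩
  set e := min (min e₁ (1 / 8)) (ε / (C + 1)) with he
  have he0 : 0 < e := lt_min (lt_min he₁ (by norm_num)) (by positivity)
  have hea : e ≤ e₁ := le_trans (min_le_left _ _) (min_le_left _ _)
  have heb : e ≤ 1 / 8 := le_trans (min_le_left _ _) (min_le_right _ _)
  have hec : C * e ≤ ε := by
    have h1 : e ≤ ε / (C + 1) := min_le_right _ _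
    rw [le_div_iff₀ (by positivity)] at h1
    nlinarith
  refine ⟨q3_V e (e ^ 2), q3_V_meas _ _, q3_V_sub (by linarith), ?_, ?_⟩
  · exact ⟨q3_w g e (e ^ 2), q3_w_smooth _ _ _, fun x hx => q3_w_off _ _ _ hx,
      hgain e (e ^ 2) he0 hea heb (by positivity) le_rfl⟩
  · intro σ hσ htr h01 v hv
    have h := hstiff e (e ^ 2) he0 (by linarith) (by positivity) (by nlinarith) σ hσ htr h01 v hv
    have h2 : inn σ σ * ((volume (cb 6)).toReal / (2 * μ) + C * e) ≤
        inn σ σ * ((volume (cb 6)).toReal / (2 * μ) + ε) :=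
      mul_le_mul_of_nonneg_left (by linarith) (q3_inn_nonneg σ)
    linarith

end Pool.Agent.ShearComposite.D3
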