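import Pool.Agent.ShearComposite3.Final3
import Pool.Agent.ShearComposite3.BaseEx
import Pool.Agent.ShearComposite3.Corrector

/-!
# Dimension three
-/

namespace Pool.Agent.ShearComposite.D3

/-- In dimension three the corner `(0, μ)` is in the closure of the attainable pairs. -/
theorem main3 {κ μ : ℝ} (hκ : 0 < κ) (hμ : 0 < μ) : ((0 : ℝ), μ) ∈ closure (attainable 3 κ μ) :=
  final3 hκ hμ (base_exists hκ hμ) (corrector hκ hμ)

end Pool.Agent.ShearComposite.D3
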