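import Pool.Agent.ShearComposite3.Core

/-!
# The base structure: definitions

Block size `L = 4 k` with `k` odd, `k ≥ 5`; period `8 k`; walls at `x_i ∈ 4 k ℤ`.
-/

set_option autoImplicit false

open MeasureTheory
open scoped ContDiff

namespace Pool.Agent.ShearComposite.D3

/-- smooth step: `0` for `x ≤ -1/2`, `1` for `1/2 ≤ x` -/
noncomputable def st (x : ℝ) : ℝ := Real.smoothTransition (x + 1 / 2)

/-- `0` for `x ≤ -1/2`, `x` for `1/2 ≤ x` -/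
noncomputable def b2 (x : ℝ) : ℝ := x * st x

/-- the stress profile of a bar: even, supported in `[-1/2,1/2]`, of mass one -/
noncomputable def b0 (x : ℝ) : ℝ := iteratedDeriv 2 b2 x

/-- even cutoff: `1` for `|x| ≤ a`, `0` for `b ≤ |x|` -/
noncomputable def cut (a b x : ℝ) : ℝ := Real.smoothTransition ((b ^ 2 - x ^ 2) / (b ^ 2 - a ^ 2))

/-- signed distance to the nearest point of `L ℤ` -/
noncomputable def xi (L x : ℝ) : ℝ := x - L * round (x / L)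

/-- the bars are centered at `4 i` -/
def barIdx (k : ℕ) (i : ℤ) : Prop := 2 ≤ i % k ∧ i % k ≤ k - 2

/-- the gaps are centered at `4 i + 2` -/
def gapIdx (k : ℕ) (i : ℤ) : Prop := 1 ≤ i % k ∧ i % k ≤ k - 2

/-- loads of the bars -/
noncomputable def mass (k : ℕ) (i : ℤ) : ℝ := by
  classical exact if barIdx k i then (if i % k = 2 ∨ i % k = k - 2 then 10 else 4) else 0

/-- loads of the gaps -/
noncomputable def massg (k : ℕ) (i : ℤ) : ℝ := by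
  classical exact if gapIdx k i then (if i % k = 1 ∨ i % k = k - 2 then 8 else 4) else 0

/-- sliding directions -/
noncomputable def kap (k : ℕ) (i : ℤ) : ℝ := by
  classical exact if 2 * (i % k) < k then -1 else 1

/-- A function which is near the `i`-th bar equal to `c i * q (z - 4 i - s i)`. -/
noncomputable def barfun (c : ℤ → ℝ) (q : ℝ → ℝ) (s : ℤ → ℝ) (z : ℝ) : ℝ :=
  c (round (z / 4)) * q (z - 4 * round (z / 4) - s (round (z / 4)))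

/-- bar profile -/
noncomputable def pp (k : ℕ) (z : ℝ) : ℝ := barfun (mass k) b0 (fun _ => 0) z

/-- gap profile -/
noncomputable def pg (k : ℕ) (y : ℝ) : ℝ := barfun (massg k) b0 (fun _ => 0) (y - 2)

/-- smooth modulus -/
noncomputable def rab (x : ℝ) : ℝ := 2 * b2 x - x

/-- the shift of the leaves -/
noncomputable def hh (k : ℕ) (x : ℝ) : ℝ :=
  (rab (xi (4 * k) x) - 3 / 2) * cut (21 / 10) (29 / 10) (xi (4 * k) x)

/-- density of the small vertical forces -/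
noncomputable def ff (k : ℕ) (γ x z : ℝ) : ℝ :=
  iteratedDeriv 2 (hh k) x *
    barfun (fun i => kap k i * mass k i) b0 (fun i => kap k i * γ * hh k x) z

/-! ### the solid -/

def InBar (k : ℕ) (z : ℝ) : Prop := ∃ i : ℤ, barIdx k i ∧ |z - 4 * i| ≤ 3 / 4

def InGap (k : ℕ) (y : ℝ) : Prop := ∃ i : ℤ, gapIdx k i ∧ |y - (4 * i + 2)| ≤ 3 / 4

/-- the leaves (`M` leaves per bar) -/
def Leaf (k M : ℕ) (γ x z : ℝ) : Prop := ∃ i : ℤ, barIdx k i ∧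
  |z - 4 * i - kap k i * γ * hh k x| ≤ 1 / 2 ∧
  ∃ m : ℤ, |(z - 4 * i - kap k i * γ * hh k x + 1 / 2) * M - (m + 1 / 2)| ≤ 1 / 4

/-- the levels of the thin bars, `s = 1` or `s = -1` -/
def Lev (k : ℕ) (δ s x : ℝ) : Prop := ∃ j : ℤ, |x - (j * (4 * k) + s * (-1) ^ j / 2)| ≤ δ

/-- the part of a family at a wall; `x` is the coordinate normal to the wall, `u` the lateral
coordinate, `z` the coordinate of the sliding direction -/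
def Wall (k M : ℕ) (γ δ s x u z : ℝ) : Prop :=
  (|xi (4 * k) x| ≤ 1 ∧ InGap k u ∧ InBar k z) ∨
  (1 ≤ |xi (4 * k) x| ∧ |xi (4 * k) x| ≤ 2 ∧ InGap k u ∧ Leaf k M γ x z) ∨
  (2 ≤ |xi (4 * k) x| ∧ |xi (4 * k) x| ≤ 3 ∧ InGap k u ∧ InBar k z) ∨
  (Lev k δ s x ∧ InBar k z)

/-- the solid of the base structure -/
def Sol (k M : ℕ) (γ δ : ℝ) : Set E3 := {X |
  (∀ i, 3 ≤ |xi (4 * k) (X i)|) ∨
  ∃ w : Fin 3, Wall k M γ δ 1 (X (w + 1)) (X (w + 2)) (X w) ∨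
    Wall k M γ δ (-1) (X (w + 2)) (X (w + 1)) (X w)}

/-- a part of the solid which does not depend on the leaves, away from the blocks -/
def CoreS (k : ℕ) (δ : ℝ) : Set E3 := {X |
  ((∀ i, 3 ≤ |xi (4 * k) (X i)|) ∧ ∃ i, |xi (4 * k) (X i)| ≤ 5) ∨
  ∃ x u : ℝ, ∃ s : ℝ, ((s = 1 ∧ x = X 0 ∧ u = X 1) ∨ (s = -1 ∧ x = X 1 ∧ u = X 0)) ∧
    ((|xi (4 * k) x| ≤ 1 ∧ InGap k u ∧ InBar k (X 2)) ∨
     (2 ≤ |xi (4 * k) x| ∧ |xi (4 * k) x| ≤ 3 ∧ InGap k u ∧ InBar k (X 2)) ∨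
     (Lev k δ s x ∧ InBar k (X 2)))}

/-! ### profiles -/

/-- The one dimensional profile functions. -/
structure Prof (k : ℕ) (C : ℝ) where
  th : ℝ → ℝ
  W : ℝ → ℝ
  K : ℝ → ℝ
  Kb : ℝ → ℝ
  th_s : ContDiff ℝ ∞ th
  W_s : ContDiff ℝ ∞ W
  K_s : ContDiff ℝ ∞ K
  Kb_s : ContDiff ℝ ∞ Kb
  per : ∀ x, th (x + 4 * k) = th x ∧ W (x + 4 * k) = W x ∧ K (x + 4 * k) = K x ∧
    Kb (x + 4 * k) = Kb x
  even : ∀ x, th (-x) = th x ∧ W (-x) = W x ∧ K (-x) = K x ∧ Kb (-x) = Kb x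
  near : ∀ x : ℝ, |x| ≤ 3 → th x = 1 ∧ W x = x ^ 2 / 2 ∧ K x = 0 ∧ Kb x = 0
  far : ∀ x : ℝ, 5 ≤ x → x ≤ 4 * (k : ℝ) - 5 → th x = 0 ∧ W x = 0
  bd : ∀ j : ℕ, j ≤ 3 → ∀ x, |iteratedDeriv j th x| ≤ C ∧ |iteratedDeriv j W x| ≤ C ∧
    |iteratedDeriv j K x| ≤ C ∧ |iteratedDeriv j Kb x| ≤ C
  K2 : ∀ x, iteratedDeriv 2 K x = 1 - iteratedDeriv 2 W x - pp k x
  Kb2 : ∀ x, iteratedDeriv 2 Kb x = 1 - iteratedDeriv 2 W x - pg k x

/-- The leaf functions. -/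
structure Tilt (k M : ℕ) (γ C : ℝ) where
  a1 : ℝ → ℝ → ℝ
  a2 : ℝ → ℝ → ℝ
  a3 : ℝ → ℝ → ℝ
  b : ℝ → ℝ → ℝ
  a1_s : ContDiff ℝ ∞ fun q : ℝ × ℝ => a1 q.1 q.2
  a2_s : ContDiff ℝ ∞ fun q : ℝ × ℝ => a2 q.1 q.2
  a3_s : ContDiff ℝ ∞ fun q : ℝ × ℝ => a3 q.1 q.2
  b_s : ContDiff ℝ ∞ fun q : ℝ × ℝ => b q.1 q.2
  per1 : ∀ x z, a1 (x + 4 * k) z = a1 x z ∧ a2 (x + 4 * k) z = a2 x z ∧
    a3 (x + 4 * k) z = a3 x z ∧ b (x + 4 * k) z = b x z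
  per2 : ∀ x z, a1 x (z + 4 * k) = a1 x z ∧ a2 x (z + 4 * k) = a2 x z ∧
    a3 x (z + 4 * k) = a3 x z ∧ b x (z + 4 * k) = b x z
  eq1 : ∀ x z, deriv (fun s => a1 s z) x + deriv (fun s => a2 x s) z = 0
  eq2 : ∀ x z, deriv (fun s => a2 s z) x + deriv (fun s => a3 x s) z = γ * ff k γ x z
  mean : ∀ x z, a1 x z = pp k z + deriv (fun s => b x s) z
  far : ∀ x z, 29 / 10 ≤ |xi (4 * k) x| → b x z = 0 ∧ a1 x z = pp k z ∧ a2 x z = 0 ∧ a3 x z = 0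
  supp : ∀ x z, (a1 x z ≠ 0 ∨ a2 x z ≠ 0 ∨ a3 x z ≠ 0) → InBar k z
  leaf : ∀ x z, 1 ≤ |xi (4 * k) x| → |xi (4 * k) x| ≤ 2 →
    (a1 x z ≠ 0 ∨ a2 x z ≠ 0 ∨ a3 x z ≠ 0) → Leaf k M γ x z
  bd : ∀ x z, |a1 x z| ≤ C ∧ |a2 x z| ≤ C ∧ |a3 x z| ≤ C

end Pool.Agent.ShearComposite.D3
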