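import Pool.Agent.ShearComposite3.Core

/-!
# Behaviour under similarities
-/

set_option autoImplicit false

open MeasureTheory Metric
open scoped ContDiff Pointwise

namespace Pool.Agent.ShearComposite.D3

/-! ### the action of a matrix -/

theorem v1_apply (R : M3) (x : E3) (i : Fin 3) : mact R x i = ∑ j, R i j * x j := rfl

theorem v1_add (R : M3) (x y : E3) : mact R (x + y) = mact R x + mact R y := by
  ext i
  simp only [v1_apply, PiLp.add_apply, mul_add, Finset.sum_add_distrib]

theorem v1_smul (R : M3) (c : ℝ) (x : E3) : mact R (c • x) = c • mact R x := by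
  ext i
  simp only [v1_apply, PiLp.smul_apply, smul_eq_mul, Finset.mul_sum]
  exact Finset.sum_congr rfl fun j _ => by ring

/-- the action as a linear map -/
noncomputable def v1_lin (R : M3) : E3 →ₗ[ℝ] E3 where
  toFun := mact R
  map_add' := v1_add R
  map_smul' c x := v1_smul R c x

/-- the action as a continuous linear map -/
noncomputable def v1_clm (R : M3) : E3 →L[ℝ] E3 := LinearMap.toContinuousLinearMap (v1_lin R)

theorem v1_clm_apply (R : M3) (x : E3) : v1_clm R x = mact R x := rfl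

theorem v1_mul (R S : M3) (x : E3) : mact (R * S) x = mact R (mact S x) := by
  ext i
  simp only [v1_apply, Matrix.mul_apply, Finset.sum_mul, Finset.mul_sum]
  rw [Finset.sum_comm]
  exact Finset.sum_congr rfl fun j _ => Finset.sum_congr rfl fun k _ => by ring

theorem v1_one (x : E3) : mact 1 x = x := by
  ext i
  simp [v1_apply, Matrix.one_apply]

theorem v1_norm (R : M3) (hR : R.transpose * R = 1) (x : E3) : ‖mact R x‖ = ‖x‖ := by
  have h : ‖mact R x‖ ^ 2 = ‖x‖ ^ 2 := by
    rw [EuclideanSpace.norm_sq_eq, EuclideanSpace.norm_sq_eq]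
    simp only [Real.norm_eq_abs, sq_abs]
    have h1 : ∀ j k : Fin 3, ∑ i, R i j * R i k = if j = k then 1 else 0 := by
      intro j k
      have := congrFun (congrFun hR j) k
      rw [Matrix.mul_apply, Matrix.one_apply] at this
      simpa [Matrix.transpose_apply] using this
    have h2 : ∑ i, (mact R x i) ^ 2 = ∑ j, ∑ k, (∑ i, R i j * R i k) * (x j * x k) := by
      simp only [v1_apply, sq, Finset.sum_mul_sum]
      simp only [Finset.sum_mul]
      rw [Finset.sum_comm]
      refine Finset.sum_congr rfl fun j _ => ?_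
      rw [Finset.sum_comm]
      refine Finset.sum_congr rfl fun k _ => Finset.sum_congr rfl fun i _ => by ring
    rw [h2]
    simp only [h1]
    refine Finset.sum_congr rfl fun j _ => ?_
    simp [sq]
  exact (sq_eq_sq₀ (norm_nonneg _) (norm_nonneg _)).1 h

theorem v1_tr_mul (R : M3) (hR : R ∈ Matrix.orthogonalGroup (Fin 3) ℝ) : R.transpose * R = 1 := by
  have := (Matrix.mem_orthogonalGroup_iff' (Fin 3) ℝ).1 hR
  simpa [Matrix.star_eq_conjTranspose] using this

theorem v1_mul_tr (R : M3) (hR : R ∈ Matrix.orthogonalGroup (Fin 3) ℝ) : R * R.transpose = 1 := by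
  have := (Matrix.mem_orthogonalGroup_iff (Fin 3) ℝ).1 hR
  simpa [Matrix.star_eq_conjTranspose] using this

/-- the action of an orthogonal matrix -/
noncomputable def v1_iso (R : M3) (hR : R ∈ Matrix.orthogonalGroup (Fin 3) ℝ) : E3 ≃ₗᵢ[ℝ] E3 where
  toFun := mact R
  invFun := mact R.transpose
  map_add' := v1_add R
  map_smul' c x := v1_smul R c x
  left_inv x := by
    rw [← v1_mul, v1_tr_mul R hR, v1_one]
  right_inv x := by
    rw [← v1_mul, v1_mul_tr R hR, v1_one]
  norm_map' x := v1_norm R (v1_tr_mul R hR) x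

theorem v1_iso_apply (R : M3) (hR : R ∈ Matrix.orthogonalGroup (Fin 3) ℝ) (x : E3) :
    v1_iso R hR x = mact R x := rfl

/-! ### similarities -/

/-- the inverse of a similarity -/
theorem v1_sim_inv (a : E3) {lam : ℝ} (hl : 0 < lam) (R : M3)
    (hR : R ∈ Matrix.orthogonalGroup (Fin 3) ℝ) (x : E3) :
    sim a lam R (lam⁻¹ • mact R.transpose (x - a)) = x := by
  rw [sim, v1_smul, smul_smul, mul_inv_cancel₀ hl.ne', one_smul, ← v1_mul, v1_mul_tr R hR, v1_one,
    add_sub_cancel]

theorem v1_inv_sim (a : E3) {lam : ℝ} (hl : 0 < lam) (R : M3)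
    (hR : R ∈ Matrix.orthogonalGroup (Fin 3) ℝ) (x : E3) :
    lam⁻¹ • mact R.transpose (sim a lam R x - a) = x := by
  rw [sim, add_sub_cancel_left, v1_smul, smul_smul, inv_mul_cancel₀ hl.ne', one_smul, ← v1_mul,
    v1_tr_mul R hR, v1_one]

theorem v1_sim_injective (a : E3) {lam : ℝ} (hl : 0 < lam) (R : M3)
    (hR : R ∈ Matrix.orthogonalGroup (Fin 3) ℝ) : Function.Injective (sim a lam R) :=
  Function.LeftInverse.injective (g := fun x => lam⁻¹ • mact R.transpose (x - a))
    (v1_inv_sim a hl R hR)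

theorem v1_dist (a : E3) {lam : ℝ} (hl : 0 < lam) (R : M3)
    (hR : R ∈ Matrix.orthogonalGroup (Fin 3) ℝ) (x : E3) :
    dist (sim a lam R x) a = lam * ‖x‖ := by
  rw [dist_eq_norm, sim, add_sub_cancel_left, norm_smul, v1_norm R (v1_tr_mul R hR),
    Real.norm_of_nonneg hl.le]

theorem sim_closedBall (a : E3) {lam : ℝ} (hl : 0 < lam) (R : M3)
    (hR : R ∈ Matrix.orthogonalGroup (Fin 3) ℝ) (r : ℝ) (hr : 0 ≤ r) :
    sim a lam R '' cb r = closedBall a (lam * r) := by
  ext x
  constructor
  · rintro ⟨y, hy, rfl⟩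
    rw [mem_closedBall, v1_dist a hl R hR]
    rw [mem_closedBall, dist_zero_right] at hy
    exact mul_le_mul_of_nonneg_left hy hl.le
  · intro hx
    refine ⟨lam⁻¹ • mact R.transpose (x - a), ?_, v1_sim_inv a hl R hR x⟩
    rw [mem_closedBall, dist_zero_right]
    rw [← v1_sim_inv a hl R hR x, mem_closedBall, v1_dist a hl R hR] at hx
    exact le_of_mul_le_mul_left hx hl

/-- change of variables -/
theorem v1_integral (a : E3) {lam : ℝ} (hl : 0 < lam) (R : M3)
    (hR : R ∈ Matrix.orthogonalGroup (Fin 3) ℝ) (S : Set E3) (g : E3 → ℝ) :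
    ∫ x in sim a lam R '' S, g x = lam ^ 3 * ∫ y in S, g (sim a lam R y) := by
  have h1 : sim a lam R '' S = (fun x => a + x) '' (lam • (v1_iso R hR '' S)) := by
    rw [← Set.image_smul, Set.image_image, Set.image_image]
    rfl
  rw [h1, (measurePreserving_add_left (volume : Measure E3) a).setIntegral_image_emb
    (measurableEmbedding_addLeft a)]
  have h2 := Measure.setIntegral_comp_smul_of_pos (volume : Measure E3) (fun x => g (a + x))
    (v1_iso R hR '' S) hl
  rw [finrank_euclideanSpace_fin] at h2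
  have h3 : ∫ x in lam • (v1_iso R hR '' S), g (a + x) =
      lam ^ 3 * ∫ x in v1_iso R hR '' S, g (a + lam • x) := by
    rw [h2, smul_eq_mul, ← mul_assoc, mul_inv_cancel₀ (by positivity), one_mul]
  rw [h3, (v1_iso R hR).measurePreserving.setIntegral_image_emb
    (v1_iso R hR).toHomeomorph.measurableEmbedding]
  rfl

/-! ### gradients -/

/-- the gradient matrix -/
noncomputable def v1_grad (v : E3 → E3) (x : E3) : M3 :=
  Matrix.of fun i j => fderiv ℝ v x (ee j) i

theorem v1_strain (v : E3 → E3) (x : E3) :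
    strain v x = (1 / 2 : ℝ) • (v1_grad v x + (v1_grad v x).transpose) := by
  ext i j
  simp only [strain, v1_grad, Matrix.of_apply, Matrix.smul_apply, Matrix.add_apply,
    Matrix.transpose_apply, smul_eq_mul]
  ring

theorem v1_fderiv_mact (v : E3 → E3) (x y : E3) (i : Fin 3) :
    fderiv ℝ v x y i = ∑ j, v1_grad v x i j * y j := by
  have h : y = ∑ j, y j • ee j := by
    ext k
    simp [Finset.sum_apply, Pi.single_apply]
  conv_lhs => rw [h, map_sum]
  simp only [map_smul, v1_grad, Matrix.of_apply]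
  rw [WithLp.ofLp_sum, Finset.sum_apply]
  refine Finset.sum_congr rfl fun j _ => ?_
  rw [PiLp.smul_apply, smul_eq_mul, mul_comm]

/-- pull back of a displacement -/
noncomputable def v1_pull (a : E3) (lam : ℝ) (R : M3) (v : E3 → E3) (y : E3) : E3 :=
  lam⁻¹ • mact R.transpose (v (sim a lam R y))

theorem v1_contDiff_sim (a : E3) (lam : ℝ) (R : M3) : ContDiff ℝ ∞ (sim a lam R) := by
  have : sim a lam R = fun x => a + lam • v1_clm R x := rfl
  rw [this]
  fun_prop

theorem v1_contDiff_pull (a : E3) (lam : ℝ) (R : M3) {v : E3 → E3} (hv : ContDiff ℝ ∞ v) :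
    ContDiff ℝ ∞ (v1_pull a lam R v) := by
  have h : v1_pull a lam R v = fun y => lam⁻¹ • v1_clm R.transpose (v (sim a lam R y)) := rfl
  rw [h]
  have h2 := hv.comp (v1_contDiff_sim a lam R)
  have h3 : ContDiff ℝ ∞ fun y => v (sim a lam R y) := h2
  exact ((v1_clm R.transpose).contDiff.comp h3).const_smul lam⁻¹

theorem v1_grad_pull (a : E3) {lam : ℝ} (hl : 0 < lam) (R : M3) {v : E3 → E3}
    (hv : ContDiff ℝ ∞ v) (y : E3) :
    v1_grad (v1_pull a lam R v) y = R.transpose * v1_grad v (sim a lam R y) * R := by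
  have hsim : HasFDerivAt (sim a lam R) (lam • v1_clm R) y := by
    have : sim a lam R = fun x => a + lam • v1_clm R x := rfl
    rw [this]
    exact (((v1_clm R).hasFDerivAt).const_smul lam).const_add a
  have hvd : HasFDerivAt v (fderiv ℝ v (sim a lam R y)) (sim a lam R y) :=
    (hv.differentiable (by simp) _).hasFDerivAt
  have hpull : HasFDerivAt (v1_pull a lam R v)
      (lam⁻¹ • ((v1_clm R.transpose).comp ((fderiv ℝ v (sim a lam R y)).comp
        (lam • v1_clm R)))) y := by
    have h : v1_pull a lam R v = fun y => lam⁻¹ • v1_clm R.transpose (v (sim a lam R y)) := rfl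
    rw [h]
    exact (((v1_clm R.transpose).hasFDerivAt).comp y (hvd.comp y hsim)).const_smul lam⁻¹
  ext i j
  simp only [v1_grad, Matrix.of_apply]
  rw [hpull.fderiv]
  simp only [ContinuousLinearMap.smul_apply, ContinuousLinearMap.comp_apply, map_smul,
    v1_clm_apply]
  rw [smul_smul, inv_mul_cancel₀ hl.ne', one_smul, v1_apply, Matrix.mul_assoc, Matrix.mul_apply]
  refine Finset.sum_congr rfl fun k _ => ?_
  rw [v1_fderiv_mact, Matrix.mul_apply]
  congr 1
  refine Finset.sum_congr rfl fun l _ => ?_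
  congr 1
  rw [v1_apply]
  simp [Pi.single_apply]

theorem v1_strain_pull (a : E3) {lam : ℝ} (hl : 0 < lam) (R : M3) {v : E3 → E3}
    (hv : ContDiff ℝ ∞ v) (y : E3) :
    strain (v1_pull a lam R v) y = R.transpose * strain v (sim a lam R y) * R := by
  rw [v1_strain, v1_strain, v1_grad_pull a hl R hv, Matrix.mul_smul, Matrix.smul_mul,
    Matrix.mul_add, Matrix.add_mul, Matrix.transpose_mul, Matrix.transpose_mul,
    Matrix.transpose_transpose, Matrix.mul_assoc R.transpose (v1_grad v (sim a lam R y)).transpose R]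

/-! ### energies -/

theorem v1_inn_trace (A B : M3) : inn A B = (A.transpose * B).trace := by
  simp only [inn, Matrix.trace, Matrix.diag_apply, Matrix.mul_apply, Matrix.transpose_apply]
  rw [Finset.sum_comm]

theorem v1_inn_orth (R A B : M3) (hR : R ∈ Matrix.orthogonalGroup (Fin 3) ℝ) :
    inn (R.transpose * A * R) (R.transpose * B * R) = inn A B := by
  rw [v1_inn_trace, v1_inn_trace, Matrix.transpose_mul, Matrix.transpose_mul,
    Matrix.transpose_transpose]
  have h : R.transpose * (A.transpose * R) * (R.transpose * B * R) =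
      R.transpose * (A.transpose * (R * R.transpose) * B * R) := by
    simp only [Matrix.mul_assoc]
  rw [h, v1_mul_tr R hR, Matrix.mul_one, Matrix.trace_mul_comm, Matrix.mul_assoc, Matrix.mul_assoc,
    v1_mul_tr R hR, Matrix.mul_one]

theorem v1_trace_orth (R A : M3) (hR : R ∈ Matrix.orthogonalGroup (Fin 3) ℝ) :
    (R.transpose * A * R).trace = A.trace := by
  rw [Matrix.trace_mul_comm, ← Matrix.mul_assoc, v1_mul_tr R hR, Matrix.one_mul]

theorem v1_density (κ μ : ℝ) (A : M3) :
    density κ μ A = κ * A.trace ^ 2 + 2 * μ * (inn A A - A.trace ^ 2 / 3) := by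
  simp only [density, stress, inn, Matrix.trace, Matrix.diag_apply, Fin.sum_univ_three,
    Matrix.add_apply, Matrix.smul_apply, Matrix.sub_apply, Matrix.one_apply, smul_eq_mul]
  simp
  ring

theorem v1_density_orth (κ μ : ℝ) (R A : M3) (hR : R ∈ Matrix.orthogonalGroup (Fin 3) ℝ) :
    density κ μ (R.transpose * A * R) = density κ μ A := by
  rw [v1_density, v1_density, v1_inn_orth R A A hR, v1_trace_orth R A hR]

/-- energy and similarities -/
theorem v1_en {κ μ : ℝ} (a : E3) {lam : ℝ} (hl : 0 < lam) (R : M3)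
    (hR : R ∈ Matrix.orthogonalGroup (Fin 3) ℝ) (S : Set E3) {v : E3 → E3}
    (hv : ContDiff ℝ ∞ v) :
    en κ μ (sim a lam R '' S) v = lam ^ 3 * en κ μ S (v1_pull a lam R v) := by
  unfold en
  rw [v1_integral a hl R hR]
  congr 2
  funext y
  rw [v1_strain_pull a hl R hv, v1_density_orth κ μ R _ hR]

theorem stiff_sim {κ μ : ℝ} (a : E3) {lam : ℝ} (hl : 0 < lam) (R : M3)
    (hR : R ∈ Matrix.orthogonalGroup (Fin 3) ℝ) (A V : Set E3) (hA : MeasurableSet A)
    (hV : MeasurableSet V) (σ : M3) (c : ℝ) (h : Stiff κ μ A V (R.transpose * σ * R) c) :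
    Stiff κ μ (sim a lam R '' A) (sim a lam R '' V) σ (lam ^ 3 * c) := by
  intro v hv
  have h1 := h (v1_pull a lam R v) (v1_contDiff_pull a lam R hv)
  rw [← Set.image_sdiff (v1_sim_injective a hl R hR), v1_en a hl R hR _ hv, v1_integral a hl R hR]
  have h2 : ∫ x in A, inn (R.transpose * σ * R) (strain (v1_pull a lam R v) x) =
      ∫ y in A, inn σ (strain v (sim a lam R y)) := by
    congr 1
    funext y
    rw [v1_strain_pull a hl R hv, v1_inn_orth R _ _ hR]
  rw [h2] at h1
  have h3 : 0 < lam ^ 3 := by positivity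
  nlinarith [mul_le_mul_of_nonneg_left h1 h3.le]

/-! ### the inverse similarity -/

theorem v1_orth_tr (R : M3) (hR : R ∈ Matrix.orthogonalGroup (Fin 3) ℝ) :
    R.transpose ∈ Matrix.orthogonalGroup (Fin 3) ℝ := by
  rw [Matrix.mem_orthogonalGroup_iff, Matrix.transpose_transpose]
  exact v1_tr_mul R hR

theorem v1_inverse (a : E3) (lam : ℝ) (R : M3) (x : E3) :
    sim (-(lam⁻¹ • mact R.transpose a)) lam⁻¹ R.transpose x = lam⁻¹ • mact R.transpose (x - a) := by
  rw [sim, sub_eq_add_neg x a, v1_add, smul_add]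
  have : mact R.transpose (-a) = - mact R.transpose a := by
    have := v1_smul R.transpose (-1) a
    simpa using this
  rw [this, smul_neg, add_comm]

/-- push forward of a displacement -/
noncomputable def v1_push (a : E3) (lam : ℝ) (R : M3) (u : E3 → E3) (x : E3) : E3 :=
  lam • mact R (u (lam⁻¹ • mact R.transpose (x - a)))

theorem v1_push_eq (a : E3) (lam : ℝ) (R : M3) (u : E3 → E3) :
    v1_push a lam R u = v1_pull (-(lam⁻¹ • mact R.transpose a)) lam⁻¹ R.transpose u := by
  funext x
  rw [v1_pull, v1_inverse, inv_inv, Matrix.transpose_transpose]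
  rfl

theorem v1_pull_push (a : E3) {lam : ℝ} (hl : 0 < lam) (R : M3)
    (hR : R ∈ Matrix.orthogonalGroup (Fin 3) ℝ) (u : E3 → E3) :
    v1_pull a lam R (v1_push a lam R u) = u := by
  funext y
  rw [v1_pull, v1_push, v1_inv_sim a hl R hR, v1_smul, smul_smul, inv_mul_cancel₀ hl.ne', one_smul,
    ← v1_mul, v1_tr_mul R hR, v1_one]

theorem v1_contDiff_push (a : E3) (lam : ℝ) (R : M3) {u : E3 → E3} (hu : ContDiff ℝ ∞ u) :
    ContDiff ℝ ∞ (v1_push a lam R u) := by
  rw [v1_push_eq]
  exact v1_contDiff_pull _ _ _ hu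

theorem v1_en_push {κ μ : ℝ} (a : E3) {lam : ℝ} (hl : 0 < lam) (R : M3)
    (hR : R ∈ Matrix.orthogonalGroup (Fin 3) ℝ) (S : Set E3) {u : E3 → E3}
    (hu : ContDiff ℝ ∞ u) :
    en κ μ (sim a lam R '' S) (v1_push a lam R u) = lam ^ 3 * en κ μ S u := by
  rw [v1_en a hl R hR S (v1_contDiff_push a lam R hu), v1_pull_push a hl R hR]

theorem rot_sim {κ μ : ℝ} (C α : ℝ) (V V' : Set E3) (hV : MeasurableSet V)
    (hV' : MeasurableSet V')
    (h : ∀ v : E3 → E3, ContDiff ℝ ∞ v → ∃ v' : E3 → E3, ContDiff ℝ ∞ v' ∧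
      (∀ x ∉ cb 3, v' x = v x) ∧
      en κ μ (cb 6 \ V') v' ≤ (1 + C * |α|) * en κ μ (cb 6 \ V) v)
    (a : E3) {lam : ℝ} (hl : 0 < lam) (R : M3) (hR : R ∈ Matrix.orthogonalGroup (Fin 3) ℝ)
    (v : E3 → E3) (hv : ContDiff ℝ ∞ v) : ∃ v' : E3 → E3, ContDiff ℝ ∞ v' ∧
      (∀ x ∉ closedBall a (lam * 3), v' x = v x) ∧
      en κ μ (sim a lam R '' (cb 6 \ V')) v' ≤
        (1 + C * |α|) * en κ μ (sim a lam R '' (cb 6 \ V)) v := by
  obtain ⟨u, hu, hout, hen⟩ := h (v1_pull a lam R v) (v1_contDiff_pull a lam R hv)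
  refine ⟨v1_push a lam R u, v1_contDiff_push a lam R hu, ?_, ?_⟩
  · intro x hx
    have hx' : lam⁻¹ • mact R.transpose (x - a) ∉ cb 3 := by
      intro hc
      refine hx ?_
      rw [← sim_closedBall a hl R hR 3 (by norm_num)]
      exact ⟨_, hc, v1_sim_inv a hl R hR x⟩
    rw [v1_push, hout _ hx', v1_pull, v1_sim_inv a hl R hR, v1_smul, smul_smul,
      mul_inv_cancel₀ hl.ne', one_smul, ← v1_mul, v1_mul_tr R hR, v1_one]
  · rw [v1_en_push a hl R hR _ hu, v1_en a hl R hR _ hv]
    have h3 : 0 < lam ^ 3 := by positivity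
    nlinarith [mul_le_mul_of_nonneg_left hen h3.le]

theorem v1_strain_add_const (v : E3 → E3) (b x : E3) :
    strain (fun y => v y + b) x = strain v x := by
  ext i j
  simp only [strain, Matrix.of_apply, fderiv_add_const]

theorem gain_sim {κ μ : ℝ} (a : E3) {lam : ℝ} (hl : 0 < lam) (R : M3)
    (hR : R ∈ Matrix.orthogonalGroup (Fin 3) ℝ) (V : Set E3) (hV : MeasurableSet V)
    (ε₀ : M3) (hε : ε₀.IsSymm) (c : ℝ) (w : E3 → E3) (hw : ContDiff ℝ ∞ w) (hs : ∀ x ∉ cb 1, w x = 0)
    (h : en κ μ (cb 6 \ V) (fun x => mact ε₀ x + w x) ≤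
      density κ μ ε₀ * (volume (cb 6)).toReal - c) (b : E3) :
    ∃ w' : E3 → E3, ContDiff ℝ ∞ w' ∧ (∀ x ∉ closedBall a lam, w' x = 0) ∧
      en κ μ (sim a lam R '' (cb 6 \ V)) (fun x => mact (R * ε₀ * R.transpose) x + b + w' x) ≤
      density κ μ ε₀ * (volume (closedBall a (lam * 6))).toReal - lam ^ 3 * c := by
  refine ⟨v1_push a lam R w, v1_contDiff_push a lam R hw, ?_, ?_⟩
  · intro x hx
    have hx' : lam⁻¹ • mact R.transpose (x - a) ∉ cb 1 := by
      intro hc
      refine hx ?_
      have := sim_closedBall a hl R hR 1 (by norm_num)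
      rw [mul_one] at this
      rw [← this]
      exact ⟨_, hc, v1_sim_inv a hl R hR x⟩
    rw [v1_push, hs _ hx']
    have h0 : mact R 0 = 0 := by
      have := v1_smul R 0 0
      simpa using this
    rw [h0, smul_zero]
  · have hmc : ContDiff ℝ ∞ fun x => mact ε₀ x := (v1_clm ε₀).contDiff
    have hu : ContDiff ℝ ∞ fun x => mact ε₀ x + w x := hmc.add hw
    have h1 : (fun x => mact (R * ε₀ * R.transpose) x + b + v1_push a lam R w x) =
        fun x => v1_push a lam R (fun x => mact ε₀ x + w x) x +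
          (b + mact (R * ε₀ * R.transpose) a) := by
      funext x
      simp only [v1_push]
      rw [v1_add, smul_add, v1_smul ε₀, v1_smul R, smul_smul, mul_inv_cancel₀ hl.ne', one_smul,
        ← v1_mul, ← v1_mul]
      have h2 : mact (R * ε₀ * R.transpose) x = mact (R * ε₀ * R.transpose) (x - a) +
          mact (R * ε₀ * R.transpose) a := by
        rw [← v1_add, sub_add_cancel]
      rw [h2]
      abel
    have h2 : en κ μ (sim a lam R '' (cb 6 \ V))
        (fun x => mact (R * ε₀ * R.transpose) x + b + v1_push a lam R w x) =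
        en κ μ (sim a lam R '' (cb 6 \ V)) (v1_push a lam R (fun x => mact ε₀ x + w x)) := by
      rw [h1]
      unfold en
      simp only [v1_strain_add_const]
    rw [h2, v1_en_push a hl R hR _ hu]
    have h3 : (volume (closedBall a (lam * 6))).toReal = lam ^ 3 * (volume (cb 6)).toReal := by
      have h4 := v1_integral a hl R hR (cb 6) (fun _ => 1)
      rw [sim_closedBall a hl R hR 6 (by norm_num)] at h4
      simpa [Measure.real] using h4
    rw [h3]
    have h5 : 0 < lam ^ 3 := by positivity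
    nlinarith [mul_le_mul_of_nonneg_left h h5.le]

end Pool.Agent.ShearComposite.D3
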