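import Pool.Agent.ShearComposite3.Core

set_option autoImplicit false

open MeasureTheory Metric
open scoped ContDiff

namespace Pool.Agent.ShearComposite.D3

/-! ## TASK G1 (Glue.lean) -/

/-- the lattice point below `x` -/
noncomputable def g1_fl (P : ℝ) (x : E3) : E3 := mk3 fun i => P * (⌊x i / P⌋ : ℝ)

theorem g1_fl_apply (P : ℝ) (x : E3) (i : Fin 3) : g1_fl P x i = P * (⌊x i / P⌋ : ℝ) := rfl

/-- the open cell -/
def g1_oc (P : ℝ) : Set E3 := {x | ∀ j, 0 < x j ∧ x j < P}

theorem g1_cont (j : Fin 3) : Continuous fun x : E3 => x j := by fun_prop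

theorem g1_oc_open (P : ℝ) : IsOpen (g1_oc P) := by
  have h : g1_oc P = ⋂ j : Fin 3, {x : E3 | 0 < x j ∧ x j < P} := by
    ext x
    simp [g1_oc]
  rw [h]
  refine isOpen_iInter_of_finite fun j => ?_
  exact (isOpen_lt continuous_const (g1_cont j)).inter (isOpen_lt (g1_cont j) continuous_const)

theorem g1_floor {P : ℝ} (hP : 0 < P) {s : ℝ} {n : ℤ} (h1 : 0 ≤ s - P * n)
    (h2 : s - P * n < P) : ⌊s / P⌋ = n := by
  rw [Int.floor_eq_iff]
  constructor
  · rw [le_div_iff₀ hP]
    linarith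
  · rw [div_lt_iff₀ hP]
    linarith

theorem g1_fl_eq {P : ℝ} (hP : 0 < P) {x y : E3} (h : x - g1_fl P y ∈ cell P) :
    g1_fl P x = g1_fl P y := by
  ext i
  rw [g1_fl_apply, g1_fl_apply]
  have h1 := h i
  rw [PiLp.sub_apply, g1_fl_apply] at h1
  rw [g1_floor hP h1.1 h1.2]

theorem g1_oc_cell (P : ℝ) : g1_oc P ⊆ cell P := fun _ hx i => ⟨(hx i).1.le, (hx i).2⟩

theorem g1_fl_zero {P : ℝ} (hP : 0 < P) {x : E3} (h : x ∈ cell P) : g1_fl P x = 0 := by
  ext i
  rw [g1_fl_apply, g1_floor (n := 0) hP]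
  · simp
  · simpa using (h i).1
  · simpa using (h i).2

theorem g1_fl_add {P : ℝ} (hP : 0 < P) (x : E3) (i : Fin 3) :
    g1_fl P (x + EuclideanSpace.single i P) = g1_fl P x + EuclideanSpace.single i P := by
  ext j
  rw [PiLp.add_apply, g1_fl_apply, g1_fl_apply, PiLp.add_apply]
  by_cases h : j = i
  · subst h
    simp only [PiLp.single_apply, if_true]
    rw [add_div, div_self hP.ne', Int.floor_add_one]
    push_cast
    ring
  · simp [h]

theorem g1_local {P : ℝ} (hP : 0 < P) (u : E3 → E3) (K : Set E3) (hK : IsCompact K)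
    (hKP : K ⊆ g1_oc P) (hu : ∀ x ∉ K, u x = 0) (x₀ : E3) :
    (fun x => u (x - g1_fl P x)) =ᶠ[nhds x₀] fun x => u (x - g1_fl P x₀) := by
  obtain ⟨δ, hδ, hδ'⟩ := hK.exists_thickening_subset_open (g1_oc_open P) hKP
  filter_upwards [Metric.ball_mem_nhds x₀ hδ] with x hx
  rw [Metric.mem_ball] at hx
  by_cases h1 : u (x - g1_fl P x₀) = 0
  · rw [h1]
    by_contra h2
    have h3 : x - g1_fl P x ∈ K := by
      by_contra h
      exact h2 (hu _ h)
    have h4 : x₀ - g1_fl P x ∈ Metric.thickening δ K := by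
      rw [Metric.mem_thickening_iff]
      refine ⟨x - g1_fl P x, h3, ?_⟩
      rw [dist_sub_right, dist_comm]
      exact hx
    have h5 := g1_fl_eq hP (g1_oc_cell P (hδ' h4))
    rw [← h5] at h2
    exact h2 h1
  · have h3 : x - g1_fl P x₀ ∈ K := by
      by_contra h
      exact h1 (hu _ h)
    rw [g1_fl_eq hP (g1_oc_cell P (hKP h3))]

theorem g1_strain_congr {v w : E3 → E3} {x : E3} (h : v =ᶠ[nhds x] w) :
    strain v x = strain w x := by
  unfold strain
  rw [h.fderiv_eq]

theorem glue {P : ℝ} (hP : 0 < P) (ε₀ : M3) (v : E3 → E3) (hv : v ∈ Adm P ε₀) {ι : Type}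
    [Fintype ι] (c : ι → E3) (r r' : ℝ) (hr' : 0 < r') (hr : r' < r)
    (hin : ∀ i, closedBall (c i) r ⊆ {x | ∀ j, 0 < x j ∧ x j < P})
    (hdisj : ∀ i j, i ≠ j → Disjoint (closedBall (c i) r) (closedBall (c j) r))
    (w : ι → E3 → E3) (hw : ∀ i, ContDiff ℝ ∞ (w i))
    (hoff : ∀ i x, x ∉ closedBall (c i) r' → w i x = v x) :
    ∃ v' ∈ Adm P ε₀, (∀ i, ∀ x ∈ closedBall (c i) r, strain v' x = strain (w i) x) ∧
      (∀ x ∈ cell P, (∀ i, x ∉ closedBall (c i) r) → strain v' x = strain v x) := by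
  classical
  obtain ⟨hv1, hv2⟩ := hv
  let u : E3 → E3 := fun x => ∑ i, (w i x - v x)
  have hu1 : ContDiff ℝ ∞ u := ContDiff.sum fun i _ => (hw i).sub hv1
  let K : Set E3 := ⋃ i, closedBall (c i) r'
  have hK : IsCompact K := isCompact_iUnion fun i => isCompact_closedBall _ _
  have hsub : ∀ i, closedBall (c i) r' ⊆ closedBall (c i) r := fun i =>
    closedBall_subset_closedBall hr.le
  have hKP : K ⊆ g1_oc P := Set.iUnion_subset fun i => (hsub i).trans (hin i)
  have hu : ∀ x ∉ K, u x = 0 := by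
    intro x hx
    refine Finset.sum_eq_zero fun i _ => ?_
    rw [hoff i x fun h => hx (Set.mem_iUnion.2 ⟨i, h⟩), sub_self]
  have hloc := g1_local hP u K hK hKP hu
  refine ⟨fun x => v x + u (x - g1_fl P x), ⟨?_, ?_⟩, ?_, ?_⟩
  · refine hv1.add ?_
    rw [contDiff_iff_contDiffAt]
    intro x₀
    refine ContDiffAt.congr_of_eventuallyEq ?_ (hloc x₀)
    exact (hu1.comp (contDiff_id.sub contDiff_const)).contDiffAt
  · intro i j x
    simp only
    rw [g1_fl_add hP, add_sub_add_right_eq_sub, PiLp.add_apply, PiLp.add_apply, hv2]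
    ring
  · intro i x hx
    apply g1_strain_congr
    have hxo : x ∈ g1_oc P := hin i hx
    have h1 : ∀ k, k ≠ i → ∀ᶠ y in nhds x, w k y = v y := by
      intro k hk
      have h2 : x ∉ closedBall (c k) r' := fun h =>
        Set.disjoint_left.1 (hdisj k i hk) (hsub k h) hx
      filter_upwards [isClosed_closedBall.isOpen_compl.mem_nhds h2] with y hy
      exact hoff k y hy
    have h3 : ∀ᶠ y in nhds x, ∀ k, k ≠ i → w k y = v y := by
      rw [Filter.eventually_all]
      intro k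
      by_cases hk : k = i
      · exact Filter.Eventually.of_forall fun y h => absurd hk h
      · filter_upwards [h1 k hk] with y hy _
        exact hy
    filter_upwards [(g1_oc_open P).mem_nhds hxo, h3] with y hy hy2
    rw [g1_fl_zero hP (g1_oc_cell P hy), sub_zero]
    have h4 : u y = w i y - v y := by
      refine Finset.sum_eq_single i (fun k _ hk => ?_) (fun h => absurd (Finset.mem_univ i) h)
      rw [hy2 k hk, sub_self]
    rw [h4]
    abel
  · intro x hx hx2
    apply g1_strain_congr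
    have h1 : x ∉ K := by
      intro h
      obtain ⟨i, hi⟩ := Set.mem_iUnion.1 h
      exact hx2 i (hsub i hi)
    filter_upwards [hloc x, hK.isClosed.isOpen_compl.mem_nhds h1] with y hy hy2
    rw [hy, g1_fl_zero hP hx, sub_zero, hu y hy2, add_zero]

end Pool.Agent.ShearComposite.D3
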