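import Pool.Agent.ShearComposite3.Alg
import Pool.Agent.ShearComposite3.CellA
import Pool.Agent.ShearComposite3.CellB
import Pool.Agent.ShearComposite.Quad

/-!
# The effective energy is a quadratic form; isotropy from cubic symmetry and one equation
-/

set_option autoImplicit false

open MeasureTheory Metric
open scoped ContDiff

namespace Pool.Agent.ShearComposite.D3

/-! ### Quadratic forms from the parallelogram law -/

theorem a4_polar {V : Type} [AddCommGroup V] [Module ℝ V] (Q : V → ℝ) (h0 : ∀ v, 0 ≤ Q v)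
    (hs : ∀ (t : ℝ) v, Q (t • v) = t ^ 2 * Q v)
    (hp : ∀ v w, Q (v + w) + Q (v - w) = 2 * Q v + 2 * Q w) :
    ∃ B : V →ₗ[ℝ] V →ₗ[ℝ] ℝ, (∀ v, Q v = B v v) ∧
      ∀ v w, B v w = (Q (v + w) - Q v - Q w) / 2 := by
  -- the three term identity
  have h3 : ∀ a b c : V, Q (a + b + c) = Q (a + b) + Q (b + c) + Q (c + a) - Q a - Q b - Q c := by
    intro a b c
    have e1 := hp (a + c) b
    have e2 := hp a (b - c)
    have e3 := hp (a + b) c
    have e4 := hp b c
    have r1 : a + c + b = a + b + c := by abel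
    have r3 : a + c - b = a - (b - c) := by abel
    have r5 : a + b - c = a + (b - c) := by abel
    have r7 : c + a = a + c := by abel
    rw [r1, r3] at e1
    rw [r5] at e3
    rw [r7]
    linarith
  set F : V → V → ℝ := fun v w => (Q (v + w) - Q v - Q w) / 2 with hF
  have hcomm : ∀ v w, F v w = F w v := by
    intro v w
    simp only [hF, add_comm v w]
    ring
  have hadd : ∀ v w w', F v (w + w') = F v w + F v w' := by
    intro v w w'
    have := h3 v w w'
    simp only [hF]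
    rw [← add_assoc, this, add_comm w' v]
    ring
  have hsmul : ∀ (t : ℝ) v w, F v (t • w) = t * F v w := by
    intro t v w
    have hb : ∀ s : ℝ, 0 ≤ s → s ≤ 1 → |F v (s • w)| ≤ Q v + Q w := by
      intro s hs0 hs1
      have e1 := hp v (s • w)
      have n1 := h0 (v + s • w)
      have n2 := h0 (v - s • w)
      have n3 := h0 v
      have n4 := h0 w
      rw [hs] at e1
      have s2 : s ^ 2 ≤ 1 := by nlinarith
      have s3 : 0 ≤ s ^ 2 := by positivity
      have n5 : s ^ 2 * Q w ≤ Q w := by nlinarith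
      have n6 : 0 ≤ s ^ 2 * Q w := by positivity
      rw [abs_le]
      simp only [hF, hs]
      constructor <;> linarith
    have := additive_linear (fun s => F v (s • w)) (by
      intro s s'
      rw [add_smul, hadd]) _ hb t
    simpa using this
  have hadd' : ∀ v v' w, F (v + v') w = F v w + F v' w := by
    intro v v' w
    rw [hcomm, hadd, hcomm w v, hcomm w v']
  have hsmul' : ∀ (t : ℝ) v w, F (t • v) w = t * F v w := by
    intro t v w
    rw [hcomm, hsmul, hcomm w v]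
  refine ⟨LinearMap.mk₂ ℝ F hadd' hsmul' hadd hsmul, ?_, ?_⟩
  · intro v
    rw [LinearMap.mk₂_apply]
    simp only [hF]
    have := hs 2 v
    rw [two_smul] at this
    rw [this]
    ring
  · intro v w
    rw [LinearMap.mk₂_apply]

/-! ### The displacement space -/

/-- the linear space of periodic smooth displacements -/
def a4Per (P : ℝ) : Submodule ℝ (E3 → E3) where
  carrier := {u | ContDiff ℝ ∞ u ∧ ∀ (i : Fin 3) (x : E3),
    u (x + EuclideanSpace.single i P) = u x}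
  add_mem' := by
    intro u u' hu hu'
    refine ⟨hu.1.add hu'.1, fun i x => ?_⟩
    simp only [Pi.add_apply, hu.2, hu'.2]
  zero_mem' := ⟨contDiff_const, fun _ _ => rfl⟩
  smul_mem' := by
    intro t u hu
    refine ⟨hu.1.const_smul t, fun i x => ?_⟩
    simp only [Pi.smul_apply, hu.2]

theorem a4_mact_apply (R : M3) (x : E3) (i : Fin 3) : mact R x i = ∑ j, R i j * x j := rfl

theorem a4_mact_add (R : M3) (x y : E3) : mact R (x + y) = mact R x + mact R y := by
  ext i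
  simp only [a4_mact_apply, PiLp.add_apply, mul_add, Finset.sum_add_distrib]

theorem a4_mact_smul (R : M3) (t : ℝ) (x : E3) : mact R (t • x) = t • mact R x := by
  ext i
  simp only [a4_mact_apply, PiLp.smul_apply, smul_eq_mul, Finset.mul_sum]
  exact Finset.sum_congr rfl fun j _ => by ring

theorem a4_mact_add_left (R S : M3) (x : E3) : mact (R + S) x = mact R x + mact S x := by
  ext i
  simp only [a4_mact_apply, PiLp.add_apply, Matrix.add_apply, add_mul, Finset.sum_add_distrib]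

theorem a4_mact_sub_left (R S : M3) (x : E3) : mact (R - S) x = mact R x - mact S x := by
  ext i
  simp only [a4_mact_apply, PiLp.sub_apply, Matrix.sub_apply, sub_mul, Finset.sum_sub_distrib]

theorem a4_mact_smul_left (R : M3) (t : ℝ) (x : E3) : mact (t • R) x = t • mact R x := by
  ext i
  simp only [a4_mact_apply, PiLp.smul_apply, Matrix.smul_apply, smul_eq_mul, Finset.mul_sum,
    mul_assoc]

theorem a4_mact_single (R : M3) (i : Fin 3) (P : ℝ) (j : Fin 3) :
    mact R (EuclideanSpace.single i P) j = P * R j i := by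
  rw [a4_mact_apply, Finset.sum_eq_single i]
  · simp [mul_comm]
  · intro k _ hk
    simp [hk]
  · simp

/-- the action of a matrix as a continuous linear map -/
noncomputable def a4L (R : M3) : E3 →L[ℝ] E3 :=
  LinearMap.toContinuousLinearMap
    { toFun := mact R
      map_add' := a4_mact_add R
      map_smul' := a4_mact_smul R }

theorem a4L_apply (R : M3) (x : E3) : a4L R x = mact R x := rfl

theorem a4_contDiff_mact (R : M3) : ContDiff ℝ ∞ (mact R) := (a4L R).contDiff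

theorem a4_adm (P : ℝ) (ε₀ : M3) (u : E3 → E3) (hu : u ∈ a4Per P) :
    (fun x => mact ε₀ x + u x) ∈ Adm P ε₀ := by
  refine ⟨(a4_contDiff_mact ε₀).add hu.1, fun i j x => ?_⟩
  simp only [PiLp.add_apply, hu.2, a4_mact_add, a4_mact_single]
  ring

theorem a4_per (P : ℝ) (ε₀ : M3) (v : E3 → E3) (hv : v ∈ Adm P ε₀) :
    (fun x => v x - mact ε₀ x) ∈ a4Per P := by
  refine ⟨hv.1.sub (a4_contDiff_mact ε₀), fun i x => ?_⟩
  ext j
  simp only [PiLp.sub_apply, hv.2, a4_mact_add, PiLp.add_apply, a4_mact_single]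
  ring

/-- the energy as a functional of the mean strain and the periodic part -/
noncomputable def a4En (κ μ P : ℝ) (Ω : Set E3) (ε₀ : M3) (u : a4Per P) : ℝ :=
  (P ^ 3)⁻¹ * en κ μ (cell P ∩ Ω) (fun x => mact ε₀ x + (u : E3 → E3) x)

theorem a4_en_nonneg {κ μ : ℝ} (hκ : 0 < κ) (hμ : 0 < μ) (A : Set E3) (v : E3 → E3) :
    0 ≤ en κ μ A v :=
  integral_nonneg fun _ => density_nonneg hκ hμ _

theorem a4_En_nonneg {κ μ P : ℝ} (hκ : 0 < κ) (hμ : 0 < μ) (hP : 0 < P) (Ω : Set E3) (ε₀ : M3)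
    (u : a4Per P) : 0 ≤ a4En κ μ P Ω ε₀ u :=
  mul_nonneg (by positivity) (a4_en_nonneg hκ hμ _ _)

theorem a4_Wq_eq {κ μ P : ℝ} (hκ : 0 < κ) (hμ : 0 < μ) (hP : 0 < P) (Ω : Set E3) (ε₀ : M3) :
    Wq κ μ P Ω ε₀ = infQ (a4En κ μ P Ω) ε₀ := by
  unfold Wq infQ
  apply Function.Surjective.iInf_congr
    (fun v : Adm P ε₀ => (⟨fun x => (v : E3 → E3) x - mact ε₀ x, a4_per P ε₀ v v.2⟩ : a4Per P))
  · intro u
    refine ⟨⟨fun x => mact ε₀ x + (u : E3 → E3) x, a4_adm P ε₀ u u.2⟩, ?_⟩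
    apply Subtype.ext
    funext x
    simp
  · intro v
    simp only [a4En]
    congr 2
    funext x
    simp

theorem Wq_le {κ μ P : ℝ} (hκ : 0 < κ) (hμ : 0 < μ) (hP : 0 < P) (Ω : Set E3) (ε₀ : M3)
    (v : E3 → E3) (hv : v ∈ Adm P ε₀) : Wq κ μ P Ω ε₀ ≤ (P ^ 3)⁻¹ * en κ μ (cell P ∩ Ω) v := by
  refine ciInf_le ⟨0, ?_⟩ (⟨v, hv⟩ : Adm P ε₀)
  rintro _ ⟨w, rfl⟩
  exact mul_nonneg (by positivity) (a4_en_nonneg hκ hμ _ _)

theorem a4_mact_mem (P : ℝ) (ε₀ : M3) : mact ε₀ ∈ Adm P ε₀ := by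
  have := a4_adm P ε₀ 0 (Submodule.zero_mem _)
  simpa using this

theorem le_Wq {κ μ P : ℝ} (Ω : Set E3) (ε₀ : M3) (hε : ε₀.IsSymm) (c : ℝ)
    (h : ∀ v ∈ Adm P ε₀, c ≤ (P ^ 3)⁻¹ * en κ μ (cell P ∩ Ω) v) : c ≤ Wq κ μ P Ω ε₀ := by
  have : Nonempty (Adm P ε₀) := ⟨⟨mact ε₀, a4_mact_mem P ε₀⟩⟩
  exact le_ciInf fun v => h v v.2

theorem Wq_nonneg {κ μ P : ℝ} (hκ : 0 < κ) (hμ : 0 < μ) (hP : 0 < P) (Ω : Set E3) (ε₀ : M3) :
    0 ≤ Wq κ μ P Ω ε₀ := by
  rw [a4_Wq_eq hκ hμ hP]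
  exact infQ_nonneg (a4_En_nonneg hκ hμ hP Ω) ε₀

/-! ### Strains -/

theorem a4_strain_smul (t : ℝ) (v : E3 → E3) (hv : Differentiable ℝ v) (x : E3) :
    strain (fun y => t • v y) x = t • strain v x := by
  ext i j
  simp only [strain, Matrix.of_apply, Matrix.smul_apply, fderiv_fun_const_smul (hv x),
    smul_apply, PiLp.smul_apply, smul_eq_mul]
  ring

theorem a4_strain_add (v w : E3 → E3) (hv : Differentiable ℝ v) (hw : Differentiable ℝ w)
    (x : E3) : strain (fun y => v y + w y) x = strain v x + strain w x := by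
  ext i j
  simp only [strain, Matrix.of_apply, Matrix.add_apply, fderiv_fun_add (hv x) (hw x),
    add_apply, PiLp.add_apply]
  ring

theorem a4_strain_sub (v w : E3 → E3) (hv : Differentiable ℝ v) (hw : Differentiable ℝ w)
    (x : E3) : strain (fun y => v y - w y) x = strain v x - strain w x := by
  ext i j
  simp only [strain, Matrix.of_apply, Matrix.sub_apply, fderiv_fun_sub (hv x) (hw x),
    sub_apply, PiLp.sub_apply]
  ring

theorem a4_continuous_strain (v : E3 → E3) (hv : ContDiff ℝ ∞ v) (i j : Fin 3) :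
    Continuous fun x => strain v x i j := by
  have h : Continuous (fderiv ℝ v) := hv.continuous_fderiv (by simp)
  simp only [strain, Matrix.of_apply]
  fun_prop

theorem a4_density_smul (κ μ t : ℝ) (A : M3) : density κ μ (t • A) = t ^ 2 * density κ μ A := by
  simp only [density_eq, inn, Matrix.trace, Matrix.diag_apply, Matrix.smul_apply, smul_eq_mul,
    Fin.sum_univ_three]
  ring

theorem a4_density_par (κ μ : ℝ) (A B : M3) :
    density κ μ (A + B) + density κ μ (A - B) = 2 * density κ μ A + 2 * density κ μ B := by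
  simp only [density_eq, inn, Matrix.trace, Matrix.diag_apply, Matrix.add_apply, Matrix.sub_apply,
    Fin.sum_univ_three]
  ring

theorem a4_continuous_density (κ μ : ℝ) (v : E3 → E3) (hv : ContDiff ℝ ∞ v) :
    Continuous fun x => density κ μ (strain v x) := by
  have h := a4_continuous_strain v hv
  simp only [density_eq, inn, Matrix.trace, Matrix.diag_apply]
  fun_prop

theorem a4_integrableOn (κ μ P : ℝ) (Ω : Set E3) (v : E3 → E3) (hv : ContDiff ℝ ∞ v) :
    IntegrableOn (fun x => density κ μ (strain v x)) (cell P ∩ Ω) := by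
  obtain ⟨R, hR⟩ := (isBounded_cell P).subset_closedBall 0
  exact ((a4_continuous_density κ μ v hv).continuousOn.integrableOn_compact
    (isCompact_closedBall 0 R)).mono_set (Set.inter_subset_left.trans hR)

/-! ### The quadratic functional -/

theorem a4_En_smul (κ μ P : ℝ) (Ω : Set E3) (t : ℝ) (ε₀ : M3) (u : a4Per P) :
    a4En κ μ P Ω (t • ε₀) (t • u) = t ^ 2 * a4En κ μ P Ω ε₀ u := by
  unfold a4En en
  have hd : Differentiable ℝ fun x => mact ε₀ x + (u : E3 → E3) x :=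
    ((a4_contDiff_mact ε₀).add u.2.1).differentiable (by simp)
  have h : ∀ x, density κ μ (strain (fun x => mact (t • ε₀) x + ((t • u : a4Per P) : E3 → E3) x) x)
      = t ^ 2 * density κ μ (strain (fun x => mact ε₀ x + (u : E3 → E3) x) x) := by
    intro x
    rw [← a4_density_smul, ← a4_strain_smul t _ hd]
    congr 2
    funext y
    simp [a4_mact_smul_left]
  simp_rw [h]
  rw [integral_const_mul]
  ring

theorem a4_En_par (κ μ P : ℝ) (Ω : Set E3) (ε₀ : M3) (u : a4Per P) (ε₁ : M3) (u' : a4Per P) :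
    a4En κ μ P Ω (ε₀ + ε₁) (u + u') + a4En κ μ P Ω (ε₀ - ε₁) (u - u')
      = 2 * a4En κ μ P Ω ε₀ u + 2 * a4En κ μ P Ω ε₁ u' := by
  unfold a4En en
  have c0 : ContDiff ℝ ∞ fun x => mact ε₀ x + (u : E3 → E3) x :=
    (a4_contDiff_mact ε₀).add u.2.1
  have c1 : ContDiff ℝ ∞ fun x => mact ε₁ x + (u' : E3 → E3) x :=
    (a4_contDiff_mact ε₁).add u'.2.1
  have hd0 := c0.differentiable (by simp)
  have hd1 := c1.differentiable (by simp)
  have c2 : ContDiff ℝ ∞ fun x => mact (ε₀ + ε₁) x + ((u + u' : a4Per P) : E3 → E3) x :=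
    (a4_contDiff_mact _).add (u + u').2.1
  have c3 : ContDiff ℝ ∞ fun x => mact (ε₀ - ε₁) x + ((u - u' : a4Per P) : E3 → E3) x :=
    (a4_contDiff_mact _).add (u - u').2.1
  have h : ∀ x, density κ μ
        (strain (fun x => mact (ε₀ + ε₁) x + ((u + u' : a4Per P) : E3 → E3) x) x)
      + density κ μ
        (strain (fun x => mact (ε₀ - ε₁) x + ((u - u' : a4Per P) : E3 → E3) x) x)
      = 2 * density κ μ (strain (fun x => mact ε₀ x + (u : E3 → E3) x) x)
        + 2 * density κ μ (strain (fun x => mact ε₁ x + (u' : E3 → E3) x) x) := by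
    intro x
    rw [← a4_density_par, ← a4_strain_add _ _ hd0 hd1, ← a4_strain_sub _ _ hd0 hd1]
    congr 3
    · funext y
      simp only [a4_mact_add_left, Submodule.coe_add, Pi.add_apply]
      abel
    · funext y
      simp only [a4_mact_sub_left, Submodule.coe_sub, Pi.sub_apply]
      abel
  rw [← mul_add, ← integral_add (a4_integrableOn κ μ P Ω _ c2) (a4_integrableOn κ μ P Ω _ c3)]
  simp_rw [h]
  rw [integral_add ((a4_integrableOn κ μ P Ω _ c0).const_mul 2)
    ((a4_integrableOn κ μ P Ω _ c1).const_mul 2), integral_const_mul, integral_const_mul]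
  ring

theorem Wq_smul {κ μ P : ℝ} (hκ : 0 < κ) (hμ : 0 < μ) (hP : 0 < P) (Ω : Set E3)
    (hΩ : MeasurableSet Ω) (t : ℝ) (ε₀ : M3) :
    Wq κ μ P Ω (t • ε₀) = t ^ 2 * Wq κ μ P Ω ε₀ := by
  rw [a4_Wq_eq hκ hμ hP, a4_Wq_eq hκ hμ hP]
  have := @infQ_smul M3 (a4Per P) _ _ _ _ (a4En κ μ P Ω) (a4_En_nonneg hκ hμ hP Ω)
    (a4_En_smul κ μ P Ω)
  exact this t ε₀

theorem a4_Wq_par {κ μ P : ℝ} (hκ : 0 < κ) (hμ : 0 < μ) (hP : 0 < P) (Ω : Set E3) (ε₀ ε₁ : M3) :
    Wq κ μ P Ω (ε₀ + ε₁) + Wq κ μ P Ω (ε₀ - ε₁) = 2 * Wq κ μ P Ω ε₀ + 2 * Wq κ μ P Ω ε₁ := by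
  simp only [a4_Wq_eq hκ hμ hP]
  have := @infQ_parallelogram M3 (a4Per P) _ _ _ _ (a4En κ μ P Ω) (a4_En_nonneg hκ hμ hP Ω)
    (a4_En_smul κ μ P Ω) (a4_En_par κ μ P Ω)
  exact this ε₀ ε₁

/-! ### Isometries -/

theorem a4_strain_conj (R : M3) (a : E3) (v : E3 → E3) (hv : Differentiable ℝ v) (x : E3) :
    strain (fun y => mact R.transpose (v (mact R y + a))) x
      = R.transpose * strain v (mact R x + a) * R := by
  have h1 : HasFDerivAt v (fderiv ℝ v (mact R x + a)) (mact R x + a) := (hv _).hasFDerivAt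
  have h2 : HasFDerivAt (fun y => mact R y + a) (a4L R) x := (a4L R).hasFDerivAt.add_const a
  have h3 : HasFDerivAt (fun y => mact R.transpose (v (mact R y + a)))
      ((a4L R.transpose).comp ((fderiv ℝ v (mact R x + a)).comp (a4L R))) x :=
    (a4L R.transpose).hasFDerivAt.comp x (h1.comp x h2)
  have h4 : ∀ i j : Fin 3, fderiv ℝ (fun y => mact R.transpose (v (mact R y + a))) x
      (EuclideanSpace.single j 1) i
      = ∑ k, ∑ l, R k i * R l j * fderiv ℝ v (mact R x + a) (EuclideanSpace.single l 1) k := by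
    intro i j
    rw [h3.fderiv, ContinuousLinearMap.comp_apply, ContinuousLinearMap.comp_apply, a4L_apply,
      a4L_apply, a4_mact_apply]
    have e : mact R (EuclideanSpace.single j 1) = ∑ l, R l j • EuclideanSpace.single l (1 : ℝ) := by
      ext k
      rw [a4_mact_single]
      fin_cases k <;> simp [Fin.sum_univ_three]
    rw [e]
    simp only [Fin.sum_univ_three, map_add, map_smul, Matrix.transpose_apply, PiLp.add_apply,
      PiLp.smul_apply, smul_eq_mul]
    ring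
  ext i j
  simp only [strain, Matrix.of_apply, h4, Matrix.mul_apply, Matrix.transpose_apply,
    Fin.sum_univ_three]
  ring

/-- the matrix of `cyc` -/
def a4C : M3 := fun i j => if j = i + 1 then 1 else 0

/-- the matrix of the linear part of `flip` -/
def a4F (j : Fin 3) : M3 := fun i k => if k = i then (if i = j then -1 else 1) else 0

theorem a4C_orth : a4C ∈ Matrix.orthogonalGroup (Fin 3) ℝ := by
  rw [Matrix.mem_orthogonalGroup_iff']
  ext i j
  fin_cases i <;> fin_cases j <;> simp [Matrix.mul_apply, a4C, Fin.sum_univ_three]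

theorem a4F_orth (j : Fin 3) : a4F j ∈ Matrix.orthogonalGroup (Fin 3) ℝ := by
  rw [Matrix.mem_orthogonalGroup_iff']
  ext i k
  fin_cases j <;> fin_cases i <;> fin_cases k <;> simp [Matrix.mul_apply, a4F]

theorem a4_cyc_eq (x : E3) : cyc x = mact a4C x + 0 := by
  ext i
  fin_cases i <;> simp [cyc, a4_mact_apply, a4C]

theorem a4_flip_eq (L : ℝ) (j : Fin 3) (x : E3) :
    flip L j x = mact (a4F j) x + EuclideanSpace.single j L := by
  ext i
  fin_cases j <;> fin_cases i <;> simp [flip, a4_mact_apply, a4F] <;> ring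

theorem a4_adm_sub (P : ℝ) (ε₀ : M3) (v : E3 → E3) (hv : v ∈ Adm P ε₀) (i j : Fin 3) (x : E3) :
    v (x - EuclideanSpace.single i P) j = v x j - P * ε₀ j i := by
  have := hv.2 i j (x - EuclideanSpace.single i P)
  rw [sub_add_cancel] at this
  linarith

theorem a4_strain_per (P : ℝ) (ε₀ : M3) (v : E3 → E3) (hv : v ∈ Adm P ε₀) :
    PerFun P (strain v) := by
  intro i x
  have h : fderiv ℝ v (x + EuclideanSpace.single i P) = fderiv ℝ v x := by
    have e : (fun y => v (y + EuclideanSpace.single i P))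
        = fun y => v y + mk3 fun j => P * ε₀ j i := by
      funext y
      ext j
      simp [hv.2]
    have h1 : fderiv ℝ (fun y => v (y + EuclideanSpace.single i P)) x
        = fderiv ℝ v (x + EuclideanSpace.single i P) := fderiv_comp_add_right _
    rw [← h1, e, fderiv_add_const]
  simp only [strain, h]

theorem a4_Wq_inv {κ μ P : ℝ} (hκ : 0 < κ) (hμ : 0 < μ) (hP : 0 < P) (Ω : Set E3)
    (hΩ : MeasurableSet Ω) (hper : PerSet P Ω) (R : M3) (hR : R ∈ Matrix.orthogonalGroup (Fin 3) ℝ)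
    (a : E3) (hint : ∀ g : E3 → ℝ, PerFun P g →
      ∫ x in cell P, g (mact R x + a) = ∫ x in cell P, g x)
    (hinv : ∀ x, mact R x + a ∈ Ω ↔ x ∈ Ω) (ε₀ : M3)
    (hadm : ∀ v ∈ Adm P ε₀, (fun y => mact R.transpose (v (mact R y + a))) ∈
      Adm P (R.transpose * ε₀ * R)) :
    Wq κ μ P Ω (R.transpose * ε₀ * R) ≤ Wq κ μ P Ω ε₀ := by
  have : Nonempty (Adm P ε₀) := ⟨⟨mact ε₀, a4_mact_mem P ε₀⟩⟩
  refine le_ciInf fun v => ?_
  obtain ⟨v, hv⟩ := v
  refine (Wq_le hκ hμ hP Ω _ _ (hadm v hv)).trans (le_of_eq ?_)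
  congr 1
  unfold en
  rw [← setIntegral_indicator hΩ, ← setIntegral_indicator hΩ]
  have key := hint (Ω.indicator fun x => density κ μ (strain v x)) (by
    intro i x
    by_cases hx : x ∈ Ω
    · rw [Set.indicator_of_mem hx, Set.indicator_of_mem ((hper i x).2 hx), a4_strain_per P ε₀ v hv]
    · rw [Set.indicator_of_notMem hx, Set.indicator_of_notMem (fun h => hx ((hper i x).1 h))])
  rw [← key]
  congr 1
  funext x
  by_cases hx : x ∈ Ω
  · rw [Set.indicator_of_mem hx, Set.indicator_of_mem ((hinv x).2 hx),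
      a4_strain_conj R a v (hv.1.differentiable (by simp)), density_orth κ μ R _ hR]
  · rw [Set.indicator_of_notMem hx, Set.indicator_of_notMem (fun h => hx ((hinv x).1 h))]

theorem a4_conj_contDiff (R : M3) (a : E3) (v : E3 → E3) (hv : ContDiff ℝ ∞ v) :
    ContDiff ℝ ∞ fun y => mact R.transpose (v (mact R y + a)) :=
  (a4_contDiff_mact _).comp (hv.comp ((a4_contDiff_mact R).add contDiff_const))

theorem a4_Wq_cyc {κ μ P : ℝ} (hκ : 0 < κ) (hμ : 0 < μ) (hP : 0 < P) (Ω : Set E3)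
    (hΩ : MeasurableSet Ω) (hper : PerSet P Ω) (hcyc : ∀ x, cyc x ∈ Ω ↔ x ∈ Ω) (ε₀ : M3) :
    Wq κ μ P Ω (a4C.transpose * ε₀ * a4C) ≤ Wq κ μ P Ω ε₀ := by
  apply a4_Wq_inv hκ hμ hP Ω hΩ hper a4C a4C_orth 0
  · intro g hg
    simp_rw [← a4_cyc_eq]
    exact integral_cell_cyc hP g hg
  · intro x
    rw [← a4_cyc_eq]
    exact hcyc x
  · intro v hv
    refine ⟨a4_conj_contDiff _ _ v hv.1, ?_⟩
    intro i j x
    have e : mact a4C (x + EuclideanSpace.single i P) + 0
        = mact a4C x + 0 + EuclideanSpace.single (i + 2) P := by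
      rw [a4_mact_add]
      ext k
      simp only [PiLp.add_apply, a4_mact_single]
      fin_cases i <;> fin_cases k <;> simp [a4C]
    simp only [e, a4_mact_apply, hv.2]
    fin_cases i <;> fin_cases j <;>
      simp [a4C, Fin.sum_univ_three, Matrix.mul_apply]

theorem a4_Wq_flip {κ μ P L : ℝ} (hκ : 0 < κ) (hμ : 0 < μ) (hP : 0 < P) (Ω : Set E3)
    (hΩ : MeasurableSet Ω) (hper : PerSet P Ω) (j : Fin 3) (hflip : ∀ x, flip L j x ∈ Ω ↔ x ∈ Ω)
    (ε₀ : M3) : Wq κ μ P Ω ((a4F j).transpose * ε₀ * a4F j) ≤ Wq κ μ P Ω ε₀ := by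
  apply a4_Wq_inv hκ hμ hP Ω hΩ hper (a4F j) (a4F_orth j) (EuclideanSpace.single j L)
  · intro g hg
    simp_rw [← a4_flip_eq]
    exact integral_cell_flip hP g hg L j
  · intro x
    rw [← a4_flip_eq]
    exact hflip x
  · intro v hv
    refine ⟨a4_conj_contDiff _ _ v hv.1, ?_⟩
    intro i k x
    by_cases hij : i = j
    · have e : mact (a4F j) (x + EuclideanSpace.single i P) + EuclideanSpace.single j L
          = mact (a4F j) x + EuclideanSpace.single j L - EuclideanSpace.single i P := by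
        rw [a4_mact_add]
        ext l
        simp only [PiLp.add_apply, PiLp.sub_apply, a4_mact_single]
        subst hij
        fin_cases i <;> fin_cases l <;> simp [a4F] <;> ring
      simp only [e, a4_mact_apply, a4_adm_sub P ε₀ v hv]
      subst hij
      fin_cases i <;> fin_cases k <;>
        simp [a4F, Matrix.mul_apply] <;> ring
    · have e : mact (a4F j) (x + EuclideanSpace.single i P) + EuclideanSpace.single j L
          = mact (a4F j) x + EuclideanSpace.single j L + EuclideanSpace.single i P := by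
        rw [a4_mact_add]
        ext l
        simp only [PiLp.add_apply, a4_mact_single]
        revert hij
        fin_cases i <;> fin_cases j <;> fin_cases l <;> simp [a4F]
      simp only [e, a4_mact_apply, hv.2]
      revert hij
      fin_cases i <;> fin_cases j <;> fin_cases k <;>
        simp [a4F, Matrix.mul_apply] <;> ring

/-! ### Isotropy -/

def a4D0 : M3 := !![1, 0, 0; 0, 0, 0; 0, 0, 0]
def a4D1 : M3 := !![0, 0, 0; 0, 1, 0; 0, 0, 0]
def a4D2 : M3 := !![0, 0, 0; 0, 0, 0; 0, 0, 1]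
def a4E13 : M3 := !![0, 0, 1; 0, 0, 0; 1, 0, 0]
def a4E23 : M3 := !![0, 0, 0; 0, 0, 1; 0, 1, 0]

theorem a4_formula (Q : M3 → ℝ) (h0 : ∀ v, 0 ≤ Q v)
    (hs : ∀ (t : ℝ) v, Q (t • v) = t ^ 2 * Q v)
    (hp : ∀ v w, Q (v + w) + Q (v - w) = 2 * Q v + 2 * Q w)
    (hC : ∀ A, Q (a4C.transpose * A * a4C) = Q A)
    (hF : ∀ j A, Q ((a4F j).transpose * A * a4F j) = Q A) :
    ∃ q s : ℝ, ∀ a b c d e f : ℝ,
      Q (a • a4D0 + b • a4D1 + c • a4D2 + d • E12 + e • a4E13 + f • a4E23)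
        = q * (a ^ 2 + b ^ 2 + c ^ 2) + s * (a * b + b * c + c * a)
          + Q E12 * (d ^ 2 + e ^ 2 + f ^ 2) := by
  obtain ⟨B, hQB, hB⟩ := a4_polar Q h0 hs hp
  have hBC : ∀ A A', B (a4C.transpose * A * a4C) (a4C.transpose * A' * a4C) = B A A' := by
    intro A A'
    rw [hB, hB, hC, hC, ← Matrix.add_mul, ← Matrix.mul_add, hC]
  have hBF : ∀ j A A', B ((a4F j).transpose * A * a4F j) ((a4F j).transpose * A' * a4F j)
      = B A A' := by
    intro j A A'
    rw [hB, hB, hF, hF, ← Matrix.add_mul, ← Matrix.mul_add, hF]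
  have hcomm : ∀ A A', B A A' = B A' A := by
    intro A A'
    rw [hB, hB, add_comm A A']
    ring
  have hz : ∀ j A A', (a4F j).transpose * A * a4F j = A →
      (a4F j).transpose * A' * a4F j = -A' → B A A' = 0 := by
    intro j A A' h1 h2
    have := hBF j A A'
    rw [h1, h2, map_neg] at this
    linarith
  -- action on the basis
  have cD0 : a4C.transpose * a4D0 * a4C = a4D1 := by
    ext i j
    fin_cases i <;> fin_cases j <;>
      simp [a4C, a4D0, a4D1, Matrix.mul_apply, Fin.sum_univ_three]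
  have cD1 : a4C.transpose * a4D1 * a4C = a4D2 := by
    ext i j
    fin_cases i <;> fin_cases j <;>
      simp [a4C, a4D1, a4D2, Matrix.mul_apply, Fin.sum_univ_three]
  have cD2 : a4C.transpose * a4D2 * a4C = a4D0 := by
    ext i j
    fin_cases i <;> fin_cases j <;>
      simp [a4C, a4D0, a4D2, Matrix.mul_apply, Fin.sum_univ_three]
  have cE12 : a4C.transpose * E12 * a4C = a4E23 := by
    ext i j
    fin_cases i <;> fin_cases j <;>
      simp [a4C, E12, a4E23, Matrix.mul_apply, Fin.sum_univ_three]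
  have cE23 : a4C.transpose * a4E23 * a4C = a4E13 := by
    ext i j
    fin_cases i <;> fin_cases j <;>
      simp [a4C, a4E23, a4E13, Matrix.mul_apply, Fin.sum_univ_three]
  have fD0 : ∀ j, (a4F j).transpose * a4D0 * a4F j = a4D0 := by
    intro j
    ext i k
    fin_cases j <;> fin_cases i <;> fin_cases k <;> simp [a4F, a4D0, Matrix.mul_apply]
  have fD1 : ∀ j, (a4F j).transpose * a4D1 * a4F j = a4D1 := by
    intro j
    ext i k
    fin_cases j <;> fin_cases i <;> fin_cases k <;> simp [a4F, a4D1, Matrix.mul_apply]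
  have fD2 : ∀ j, (a4F j).transpose * a4D2 * a4F j = a4D2 := by
    intro j
    ext i k
    fin_cases j <;> fin_cases i <;> fin_cases k <;> simp [a4F, a4D2, Matrix.mul_apply]
  have f0E12 : (a4F 0).transpose * E12 * a4F 0 = -E12 := by
    ext i k
    fin_cases i <;> fin_cases k <;> simp [a4F, E12, Matrix.mul_apply]
  have f0E13 : (a4F 0).transpose * a4E13 * a4F 0 = -a4E13 := by
    ext i k
    fin_cases i <;> fin_cases k <;> simp [a4F, a4E13, Matrix.mul_apply]
  have f1E23 : (a4F 1).transpose * a4E23 * a4F 1 = -a4E23 := by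
    ext i k
    fin_cases i <;> fin_cases k <;> simp [a4F, a4E23, Matrix.mul_apply]
  have f1E12 : (a4F 1).transpose * E12 * a4F 1 = -E12 := by
    ext i k
    fin_cases i <;> fin_cases k <;> simp [a4F, E12, Matrix.mul_apply]
  have f1E13 : (a4F 1).transpose * a4E13 * a4F 1 = a4E13 := by
    ext i k
    fin_cases i <;> fin_cases k <;> simp [a4F, a4E13, Matrix.mul_apply]
  have f0E23 : (a4F 0).transpose * a4E23 * a4F 0 = a4E23 := by
    ext i k
    fin_cases i <;> fin_cases k <;> simp [a4F, a4E23, Matrix.mul_apply]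
  -- the entries of the Gram matrix
  have b11 : B a4D1 a4D1 = B a4D0 a4D0 := by
    have := hBC a4D0 a4D0
    rwa [cD0] at this
  have b22 : B a4D2 a4D2 = B a4D0 a4D0 := by
    have := hBC a4D1 a4D1
    rw [cD1] at this
    rw [this, b11]
  have b12 : B a4D1 a4D2 = B a4D0 a4D1 := by
    have := hBC a4D0 a4D1
    rwa [cD0, cD1] at this
  have b20 : B a4D2 a4D0 = B a4D0 a4D1 := by
    have := hBC a4D1 a4D2
    rw [cD1, cD2] at this
    rw [this, b12]
  have b10 : B a4D1 a4D0 = B a4D0 a4D1 := hcomm _ _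
  have b21 : B a4D2 a4D1 = B a4D0 a4D1 := by rw [hcomm, b12]
  have b02 : B a4D0 a4D2 = B a4D0 a4D1 := by rw [hcomm, b20]
  have e23 : B a4E23 a4E23 = B E12 E12 := by
    have := hBC E12 E12
    rwa [cE12] at this
  have e13 : B a4E13 a4E13 = B E12 E12 := by
    have := hBC a4E23 a4E23
    rw [cE23] at this
    rw [this, e23]
  have z1 : B a4D0 E12 = 0 := hz 0 _ _ (fD0 0) f0E12
  have z2 : B a4D1 E12 = 0 := hz 0 _ _ (fD1 0) f0E12
  have z3 : B a4D2 E12 = 0 := hz 0 _ _ (fD2 0) f0E12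
  have z4 : B a4D0 a4E13 = 0 := hz 0 _ _ (fD0 0) f0E13
  have z5 : B a4D1 a4E13 = 0 := hz 0 _ _ (fD1 0) f0E13
  have z6 : B a4D2 a4E13 = 0 := hz 0 _ _ (fD2 0) f0E13
  have z7 : B a4D0 a4E23 = 0 := hz 1 _ _ (fD0 1) f1E23
  have z8 : B a4D1 a4E23 = 0 := hz 1 _ _ (fD1 1) f1E23
  have z9 : B a4D2 a4E23 = 0 := hz 1 _ _ (fD2 1) f1E23
  have z10 : B a4E13 E12 = 0 := hz 1 _ _ f1E13 f1E12
  have z11 : B a4E23 E12 = 0 := hz 0 _ _ f0E23 f0E12
  have z12 : B a4E13 a4E23 = 0 := hz 1 _ _ f1E13 f1E23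
  have y1 : B E12 a4D0 = 0 := by rw [hcomm, z1]
  have y2 : B E12 a4D1 = 0 := by rw [hcomm, z2]
  have y3 : B E12 a4D2 = 0 := by rw [hcomm, z3]
  have y4 : B a4E13 a4D0 = 0 := by rw [hcomm, z4]
  have y5 : B a4E13 a4D1 = 0 := by rw [hcomm, z5]
  have y6 : B a4E13 a4D2 = 0 := by rw [hcomm, z6]
  have y7 : B a4E23 a4D0 = 0 := by rw [hcomm, z7]
  have y8 : B a4E23 a4D1 = 0 := by rw [hcomm, z8]
  have y9 : B a4E23 a4D2 = 0 := by rw [hcomm, z9]
  have y10 : B E12 a4E13 = 0 := by rw [hcomm, z10]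
  have y11 : B E12 a4E23 = 0 := by rw [hcomm, z11]
  have y12 : B a4E23 a4E13 = 0 := by rw [hcomm, z12]
  refine ⟨B a4D0 a4D0, 2 * B a4D0 a4D1, ?_⟩
  intro a b c d e f
  rw [hQB, hQB E12]
  simp only [map_add, map_smul, LinearMap.add_apply, LinearMap.smul_apply, smul_eq_mul,
    b11, b22, b12, b20, b10, b21, b02, e23, e13, z1, z2, z3, z4, z5, z6, z7, z8, z9, z10, z11, z12,
    y1, y2, y3, y4, y5, y6, y7, y8, y9, y10, y11, y12]
  ring

theorem isotropic_of_sym {κ μ L : ℝ} (hκ : 0 < κ) (hμ : 0 < μ) (hL : 0 < L) (Ω : Set E3)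
    (hΩ : MeasurableSet Ω) (hper : PerSet (2 * L) Ω) (hcyc : ∀ x, cyc x ∈ Ω ↔ x ∈ Ω)
    (hflip : ∀ j x, flip L j x ∈ Ω ↔ x ∈ Ω)
    (heq : Wq κ μ (2 * L) Ω NA = Wq κ μ (2 * L) Ω E12) (ε₀ : M3) (hε : ε₀.IsSymm) :
    Wq κ μ (2 * L) Ω ε₀ =
      density (Wq κ μ (2 * L) Ω 1 / 9) (Wq κ μ (2 * L) Ω NA / 4) ε₀ := by
  have hP : 0 < 2 * L := by linarith
  have hC1 : ∀ A, Wq κ μ (2 * L) Ω (a4C.transpose * A * a4C) ≤ Wq κ μ (2 * L) Ω A :=
    a4_Wq_cyc hκ hμ hP Ω hΩ hper hcyc
  have hF1 : ∀ j A, Wq κ μ (2 * L) Ω ((a4F j).transpose * A * a4F j) ≤ Wq κ μ (2 * L) Ω A :=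
    fun j => a4_Wq_flip hκ hμ hP Ω hΩ hper j (hflip j)
  have hC : ∀ A, Wq κ μ (2 * L) Ω (a4C.transpose * A * a4C) = Wq κ μ (2 * L) Ω A := by
    intro A
    apply le_antisymm (hC1 A)
    have e : a4C.transpose * (a4C.transpose * (a4C.transpose * A * a4C) * a4C) * a4C = A := by
      ext i j
      fin_cases i <;> fin_cases j <;> simp [a4C, Matrix.mul_apply, Fin.sum_univ_three]
    have h1 := hC1 (a4C.transpose * A * a4C)
    have h2 := hC1 (a4C.transpose * (a4C.transpose * A * a4C) * a4C)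
    rw [e] at h2
    exact h2.trans h1
  have hF : ∀ j A, Wq κ μ (2 * L) Ω ((a4F j).transpose * A * a4F j) = Wq κ μ (2 * L) Ω A := by
    intro j A
    apply le_antisymm (hF1 j A)
    have e : (a4F j).transpose * ((a4F j).transpose * A * a4F j) * a4F j = A := by
      ext i k
      fin_cases j <;> fin_cases i <;> fin_cases k <;>
        simp [a4F, Matrix.mul_apply, Fin.sum_univ_three]
    have h1 := hF1 j ((a4F j).transpose * A * a4F j)
    rwa [e] at h1
  obtain ⟨q, s, hQ⟩ := a4_formula (Wq κ μ (2 * L) Ω) (Wq_nonneg hκ hμ hP Ω)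
    (Wq_smul hκ hμ hP Ω hΩ) (a4_Wq_par hκ hμ hP Ω) hC hF
  have h10 : ε₀ 1 0 = ε₀ 0 1 := hε.apply 0 1
  have h20 : ε₀ 2 0 = ε₀ 0 2 := hε.apply 0 2
  have h21 : ε₀ 2 1 = ε₀ 1 2 := hε.apply 1 2
  have d0 : ε₀ 0 0 • a4D0 + ε₀ 1 1 • a4D1 + ε₀ 2 2 • a4D2 + ε₀ 0 1 • E12 + ε₀ 0 2 • a4E13
      + ε₀ 1 2 • a4E23 = ε₀ := by
    ext i j
    fin_cases i <;> fin_cases j <;>
      simp [a4D0, a4D1, a4D2, E12, a4E13, a4E23, h10, h20, h21]
  have d1 : (1 : ℝ) • a4D0 + (1 : ℝ) • a4D1 + (1 : ℝ) • a4D2 + (0 : ℝ) • E12 + (0 : ℝ) • a4E13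
      + (0 : ℝ) • a4E23 = 1 := by
    ext i j
    fin_cases i <;> fin_cases j <;> simp [a4D0, a4D1, a4D2]
  have d2 : (1 : ℝ) • a4D0 + (-1 : ℝ) • a4D1 + (0 : ℝ) • a4D2 + (0 : ℝ) • E12 + (0 : ℝ) • a4E13
      + (0 : ℝ) • a4E23 = NA := by
    ext i j
    fin_cases i <;> fin_cases j <;> simp [a4D0, a4D1, NA]
  have q0 := hQ (ε₀ 0 0) (ε₀ 1 1) (ε₀ 2 2) (ε₀ 0 1) (ε₀ 0 2) (ε₀ 1 2)
  have q1 := hQ 1 1 1 0 0 0
  have q2 := hQ 1 (-1) 0 0 0 0
  rw [d0] at q0
  rw [d1] at q1
  rw [d2] at q2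
  rw [q0, density_eq, q1]
  simp only [inn, Matrix.trace, Matrix.diag_apply, Fin.sum_univ_three, h10, h20, h21]
  rw [← heq, q2]
  ring

end Pool.Agent.ShearComposite.D3
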