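import Pool.Agent.ShearComposite3.Core

/-!
# The composite with 24 correctors
-/

set_option autoImplicit false

open MeasureTheory Metric
open scoped ContDiff

namespace Pool.Agent.ShearComposite.D3

/-! ## The 24 correctors -/

/-- index set of the symmetry group of the cube generated by cyclic permutations and flips -/
abbrev G24 : Type := Fin 3 × (Fin 3 → Bool)

/-- the matrices of the group -/
def gmat (g : G24) : M3 := fun i j => if j = i + g.1 then (if g.2 i then 1 else -1) else 0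

/-- centers of the correctors -/
noncomputable def ctr (L : ℝ) (g : G24) : E3 :=
  mk3 (fun _ => L / 2) + mact (gmat g) (mk3 ![L / 8, 2 * L / 8, 3 * L / 8])

/-- the composite with correctors -/
noncomputable def Om (L θ : ℝ) (Ω₀ V : Set E3) : Set E3 :=
  {x | x ∈ Ω₀ ∧ ¬ ∃ (k : Fin 3 → ℤ) (g : G24),
    x - mk3 (fun i => 2 * L * k i) ∈ sim (ctr L g) (θ * L) (gmat g) '' V}

/-- the sign belonging to a boolean -/
def f1_sg (b : Bool) : ℝ := if b then 1 else -1

theorem f1_sg_mul_self (b : Bool) : f1_sg b * f1_sg b = 1 := by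
  cases b <;> simp [f1_sg]

theorem f1_mact_apply (R : M3) (x : E3) (i : Fin 3) : mact R x i = ∑ j, R i j * x j := rfl

theorem f1_mk3_apply (f : Fin 3 → ℝ) (i : Fin 3) : mk3 f i = f i := rfl

theorem f1_gmat_mact (g : G24) (x : E3) (i : Fin 3) :
    mact (gmat g) x i = f1_sg (g.2 i) * x (i + g.1) := by
  rw [f1_mact_apply]
  simp [gmat, f1_sg]

theorem gmat_orth (g : G24) : gmat g ∈ Matrix.orthogonalGroup (Fin 3) ℝ := by
  rw [Matrix.mem_orthogonalGroup_iff]
  ext i k
  rw [Matrix.mul_apply]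
  have h0 : ∀ x : Fin 3, (Matrix.transpose (gmat g)) x k =
      if x = k + g.1 then (if g.2 k then (1 : ℝ) else -1) else 0 := fun x => rfl
  simp only [h0]
  by_cases h : i = k
  · subst h
    have h1 : ∀ x : Fin 3, gmat g i x * (if x = i + g.1 then (if g.2 i then (1 : ℝ) else -1) else 0)
        = if x = i + g.1 then 1 else 0 := by
      intro x
      unfold gmat
      split_ifs <;> simp
    simp only [h1, Finset.sum_ite_eq', Finset.mem_univ, if_true, Matrix.one_apply_eq]
  · have : ∀ x : Fin 3, (if x = i + g.1 then (if g.2 i then (1 : ℝ) else -1) else 0) *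
        (if x = k + g.1 then (if g.2 k then (1 : ℝ) else -1) else 0) = 0 := by
      intro x
      by_cases h1 : x = i + g.1
      · by_cases h2 : x = k + g.1
        · exact absurd (add_right_cancel (h1.symm.trans h2)) h
        · simp [h2]
      · simp [h1]
    unfold gmat
    rw [Finset.sum_congr rfl fun x _ => this x, Finset.sum_const_zero, Matrix.one_apply_ne h]

theorem f1_mact_add (R : M3) (x y : E3) : mact R (x + y) = mact R x + mact R y := by
  ext i
  simp only [f1_mact_apply, PiLp.add_apply, mul_add, Finset.sum_add_distrib]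

theorem f1_mact_smul (R : M3) (t : ℝ) (x : E3) : mact R (t • x) = t • mact R x := by
  ext i
  simp only [f1_mact_apply, PiLp.smul_apply, smul_eq_mul, Finset.mul_sum]
  exact Finset.sum_congr rfl fun j _ => by ring

theorem f1_mact_mact (R S : M3) (x : E3) : mact R (mact S x) = mact (R * S) x := by
  ext i
  simp only [f1_mact_apply, Matrix.mul_apply, Finset.mul_sum, Finset.sum_mul]
  rw [Finset.sum_comm]
  exact Finset.sum_congr rfl fun j _ => Finset.sum_congr rfl fun k _ => by ring

theorem f1_mact_one (x : E3) : mact 1 x = x := by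
  ext i
  simp [f1_mact_apply, Matrix.one_apply]

theorem f1_mact_inv (R : M3) (hR : R ∈ Matrix.orthogonalGroup (Fin 3) ℝ) (x : E3) :
    mact R.transpose (mact R x) = x := by
  rw [f1_mact_mact]
  have := (Matrix.mem_orthogonalGroup_iff' (Fin 3) ℝ).1 hR
  rw [this, f1_mact_one]

theorem f1_mact_inv' (R : M3) (hR : R ∈ Matrix.orthogonalGroup (Fin 3) ℝ) (x : E3) :
    mact R (mact R.transpose x) = x := by
  rw [f1_mact_mact]
  have := (Matrix.mem_orthogonalGroup_iff (Fin 3) ℝ).1 hR
  rw [this, f1_mact_one]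

theorem f1_norm_mact (R : M3) (hR : R ∈ Matrix.orthogonalGroup (Fin 3) ℝ) (x : E3) :
    ‖mact R x‖ = ‖x‖ := by
  have key : ∀ (S : M3) (u w : E3), ∑ i, mact S u i * w i = ∑ j, u j * mact S.transpose w j := by
    intro S u w
    simp only [f1_mact_apply, Matrix.transpose_apply, Finset.sum_mul, Finset.mul_sum]
    rw [Finset.sum_comm]
    exact Finset.sum_congr rfl fun j _ => Finset.sum_congr rfl fun k _ => by ring
  have h2 : ‖mact R x‖ ^ 2 = ‖x‖ ^ 2 := by
    rw [EuclideanSpace.norm_sq_eq, EuclideanSpace.norm_sq_eq]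
    simp only [Real.norm_eq_abs, sq_abs]
    have h := key R x (mact R x)
    rw [f1_mact_inv R hR] at h
    simpa [pow_two] using h
  exact (sq_eq_sq₀ (norm_nonneg _) (norm_nonneg _)).1 h2

theorem f1_mem_sim (a : E3) {lam : ℝ} (hl : 0 < lam) (R : M3)
    (hR : R ∈ Matrix.orthogonalGroup (Fin 3) ℝ) (V : Set E3) (x : E3) :
    x ∈ sim a lam R '' V ↔ mact R.transpose (lam⁻¹ • (x - a)) ∈ V := by
  constructor
  · rintro ⟨y, hy, rfl⟩
    have : mact R.transpose (lam⁻¹ • (sim a lam R y - a)) = y := by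
      unfold sim
      rw [add_sub_cancel_left, smul_smul, inv_mul_cancel₀ hl.ne', one_smul, f1_mact_inv R hR]
    rwa [this]
  · intro h
    refine ⟨_, h, ?_⟩
    unfold sim
    rw [f1_mact_inv' R hR, smul_smul, mul_inv_cancel₀ hl.ne', one_smul, add_sub_cancel]

theorem f1_sim_inj (a : E3) {lam : ℝ} (hl : 0 < lam) (R : M3)
    (hR : R ∈ Matrix.orthogonalGroup (Fin 3) ℝ) : Function.Injective (sim a lam R) := by
  intro x y h
  have h1 : ∀ z, mact R.transpose (lam⁻¹ • (sim a lam R z - a)) = z := by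
    intro z
    unfold sim
    rw [add_sub_cancel_left, smul_smul, inv_mul_cancel₀ hl.ne', one_smul, f1_mact_inv R hR]
  rw [← h1 x, h, h1 y]

theorem f1_sim_mem_closedBall (a : E3) {lam : ℝ} (hl : 0 < lam) (R : M3)
    (hR : R ∈ Matrix.orthogonalGroup (Fin 3) ℝ) (y : E3) (r : ℝ) :
    sim a lam R y ∈ closedBall a (lam * r) ↔ y ∈ cb r := by
  rw [mem_closedBall, dist_eq_norm, mem_closedBall, dist_zero_right]
  unfold sim
  rw [add_sub_cancel_left, norm_smul, f1_norm_mact R hR, Real.norm_eq_abs, abs_of_pos hl]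
  exact mul_le_mul_iff_of_pos_left hl

theorem f1_continuous_mact (R : M3) : Continuous (mact R) := by
  unfold mact mk3
  apply (PiLp.continuous_toLp 2 _).comp
  apply continuous_pi
  intro i
  apply continuous_finsetSum
  intro j _
  exact continuous_const.mul (by fun_prop)

theorem f1_ctr_apply (L : ℝ) (g : G24) (i : Fin 3) :
    ctr L g i = L / 2 + f1_sg (g.2 i) * (![L / 8, 2 * L / 8, 3 * L / 8] (i + g.1)) := by
  unfold ctr
  rw [PiLp.add_apply, f1_gmat_mact]

theorem f1_coord_le (x y : E3) (r : ℝ) (h : x ∈ closedBall y r) (i : Fin 3) :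
    |x i - y i| ≤ r := by
  rw [mem_closedBall, dist_eq_norm] at h
  have := PiLp.norm_apply_le (x - y) i
  rw [PiLp.sub_apply, Real.norm_eq_abs] at this
  exact this.trans h

theorem f1_ctr_sep {L : ℝ} (hL : 0 < L) (g g' : G24) (h : g ≠ g') :
    ∃ i, L / 4 ≤ |ctr L g i - ctr L g' i| := by
  obtain ⟨a, s⟩ := g
  obtain ⟨b, t⟩ := g'
  have hs : ∀ z : Bool, f1_sg z = 1 ∨ f1_sg z = -1 := by
    intro z
    cases z <;> simp [f1_sg]
  by_cases hab : a = b
  · subst hab
    have hst : s ≠ t := fun h' => h (by rw [h'])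
    obtain ⟨i, hi⟩ := Function.ne_iff.1 hst
    refine ⟨i, ?_⟩
    rw [f1_ctr_apply, f1_ctr_apply]
    have hp : L / 8 ≤ (![L / 8, 2 * L / 8, 3 * L / 8] : Fin 3 → ℝ) (i + a) := by
      generalize i + a = m
      fin_cases m <;> simp <;> linarith
    have hd : f1_sg (s i) = - f1_sg (t i) := by
      cases h1 : s i <;> cases h2 : t i <;> simp_all [f1_sg]
    simp only [hd]
    generalize (![L / 8, 2 * L / 8, 3 * L / 8] : Fin 3 → ℝ) (i + a) = p at hp ⊢
    rcases hs (t i) with h1 | h1 <;> rw [h1]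
    · rw [abs_of_nonpos (by linarith)]
      linarith
    · rw [abs_of_nonneg (by linarith)]
      linarith
  · have key : ∀ a b : Fin 3, a ≠ b →
        ∃ i : Fin 3, (i + a = 0 ∧ i + b = 2) ∨ (i + a = 2 ∧ i + b = 0) := by
      decide
    obtain ⟨i, hi⟩ := key a b hab
    refine ⟨i, ?_⟩
    rw [f1_ctr_apply, f1_ctr_apply]
    simp only
    rcases hi with ⟨h1, h2⟩ | ⟨h1, h2⟩ <;> rw [h1, h2] <;>
      rcases hs (s i) with h3 | h3 <;> rcases hs (t i) with h4 | h4 <;> rw [h3, h4] <;>
      simp <;> rw [le_abs] <;>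
      first
        | (left; linarith)
        | (right; linarith)

section

variable {L θ : ℝ} (hL : 0 < L) (hθ : 0 < θ) (hθ' : θ ≤ 1 / 96) (Ω₀ V : Set E3)
  (hm : MeasurableSet Ω₀) (hp : PerSet (2 * L) Ω₀) (hc : ∀ x, cyc x ∈ Ω₀ ↔ x ∈ Ω₀)
  (hf : ∀ j x, flip L j x ∈ Ω₀ ↔ x ∈ Ω₀) (hV : MeasurableSet V) (hV1 : V ⊆ cb 1)

include hL hθ hθ' in
theorem ball_disj (g g' : G24) (h : g ≠ g') :
    Disjoint (closedBall (ctr L g) (θ * L * 6)) (closedBall (ctr L g') (θ * L * 6)) := by
  rw [Set.disjoint_left]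
  intro x hx hx'
  obtain ⟨i, hi⟩ := f1_ctr_sep hL g g' h
  have h1 := f1_coord_le _ _ _ hx i
  have h2 := f1_coord_le _ _ _ hx' i
  have h3 : θ * L * 6 ≤ L / 16 := by nlinarith
  have h4 : |ctr L g i - ctr L g' i| ≤ |x i - ctr L g i| + |x i - ctr L g' i| := by
    have := abs_sub_le (ctr L g i) (x i) (ctr L g' i)
    rw [abs_sub_comm (ctr L g i) (x i)] at this
    exact this
  linarith

include hL hθ hθ' in
theorem ball_inner (g : G24) : closedBall (ctr L g) (θ * L * 6) ⊆ inner L (1 / 16) := by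
  intro x hx i
  have h1 := f1_coord_le _ _ _ hx i
  have h3 : θ * L * 6 ≤ L / 16 := by nlinarith
  have h2 : |ctr L g i - L / 2| ≤ 3 * L / 8 := by
    rw [f1_ctr_apply, add_sub_cancel_left]
    have hp : |(![L / 8, 2 * L / 8, 3 * L / 8] : Fin 3 → ℝ) (i + g.1)| ≤ 3 * L / 8 := by
      generalize i + g.1 = m
      fin_cases m <;> simp <;> rw [abs_of_nonneg (by linarith)] <;> linarith
    rw [abs_mul]
    have : |f1_sg (g.2 i)| = 1 := by
      unfold f1_sg
      split_ifs <;> simp
    rw [this, one_mul]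
    exact hp
  have := abs_sub_le (x i) (ctr L g i) (L / 2)
  linarith

/-- the union of all the voids in the correctors -/
def f1_bad (L θ : ℝ) (V : Set E3) : Set E3 :=
  {x | ∃ (k : Fin 3 → ℤ) (g : G24),
    x - mk3 (fun i => 2 * L * k i) ∈ sim (ctr L g) (θ * L) (gmat g) '' V}

theorem f1_mem_Om (x : E3) : x ∈ Om L θ Ω₀ V ↔ x ∈ Ω₀ ∧ x ∉ f1_bad L θ V := Iff.rfl

include hL hθ hθ' hm hV in
theorem Om_meas : MeasurableSet (Om L θ Ω₀ V) := by
  have h1 : Om L θ Ω₀ V = Ω₀ \ f1_bad L θ V := rfl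
  rw [h1]
  apply hm.diff
  have h2 : f1_bad L θ V = ⋃ (k : Fin 3 → ℤ) (g : G24), (fun x : E3 =>
      mact (gmat g).transpose ((θ * L)⁻¹ • (x - mk3 (fun i => 2 * L * k i) - ctr L g))) ⁻¹' V := by
    ext x
    simp only [f1_bad, Set.mem_ofPred_eq, Set.mem_iUnion, Set.mem_preimage]
    refine exists_congr fun k => exists_congr fun g => ?_
    exact f1_mem_sim _ (mul_pos hθ hL) _ (gmat_orth g) _ _
  rw [h2]
  refine MeasurableSet.iUnion fun k => MeasurableSet.iUnion fun g => ?_
  apply hV.preimage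
  apply Continuous.measurable
  apply (f1_continuous_mact _).comp
  fun_prop

include hp in
theorem Om_per : PerSet (2 * L) (Om L θ Ω₀ V) := by
  intro i x
  rw [f1_mem_Om, f1_mem_Om, hp i x]
  have key : x + EuclideanSpace.single i (2 * L) ∈ f1_bad L θ V ↔ x ∈ f1_bad L θ V := by
    have h0 : ∀ k : Fin 3 → ℤ, x + EuclideanSpace.single i (2 * L) - mk3 (fun j => 2 * L * k j) =
        x - mk3 (fun j => 2 * L * ((k - Pi.single i 1 : Fin 3 → ℤ) j : ℤ)) := by
      intro k
      ext j
      simp only [PiLp.sub_apply, PiLp.add_apply, f1_mk3_apply, Pi.sub_apply, Int.cast_sub]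
      by_cases h : j = i
      · subst h
        simp
        ring
      · simp [h]
    constructor
    · rintro ⟨k, g, h⟩
      refine ⟨k - Pi.single i 1, g, ?_⟩
      rwa [h0] at h
    · rintro ⟨k, g, h⟩
      refine ⟨k + Pi.single i 1, g, ?_⟩
      rwa [h0, add_sub_cancel_right]
  rw [key]

theorem f1_cyc_sim (g : G24) (lam : ℝ) (y : E3) :
    cyc (sim (ctr L g) lam (gmat g) y) =
      sim (ctr L (g.1 + 1, fun i => g.2 (i + 1))) lam (gmat (g.1 + 1, fun i => g.2 (i + 1))) y := by
  ext i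
  have e : i + 1 + g.1 = i + (g.1 + 1) := by abel
  show (sim (ctr L g) lam (gmat g) y) (i + 1) = _
  unfold sim
  simp only [PiLp.add_apply, PiLp.smul_apply, f1_ctr_apply, f1_gmat_mact, e]

theorem f1_bad_cyc (x : E3) (h : x ∈ f1_bad L θ V) : cyc x ∈ f1_bad L θ V := by
  obtain ⟨k, g, y, hy, h⟩ := h
  refine ⟨fun i => k (i + 1), (g.1 + 1, fun i => g.2 (i + 1)), y, hy, ?_⟩
  rw [← f1_cyc_sim, h]
  ext i
  rfl

include hc in
theorem Om_cyc (x : E3) : cyc x ∈ Om L θ Ω₀ V ↔ x ∈ Om L θ Ω₀ V := by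
  rw [f1_mem_Om, f1_mem_Om, hc x]
  have key : cyc x ∈ f1_bad L θ V ↔ x ∈ f1_bad L θ V := by
    constructor
    · intro h
      have h3 := f1_bad_cyc V _ (f1_bad_cyc V _ h)
      have : cyc (cyc (cyc x)) = x := by
        ext i
        have e : ∀ i : Fin 3, i + 1 + 1 + 1 = i := by decide
        show x (i + 1 + 1 + 1) = x i
        rw [e]
      rwa [this] at h3
    · exact f1_bad_cyc V x
  rw [key]

theorem f1_flip_sim (j : Fin 3) (g : G24) (lam : ℝ) (y : E3) :
    flip L j (sim (ctr L g) lam (gmat g) y) =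
      sim (ctr L (g.1, fun i => if i = j then !(g.2 i) else g.2 i)) lam
        (gmat (g.1, fun i => if i = j then !(g.2 i) else g.2 i)) y := by
  ext i
  show (if i = j then L - (sim (ctr L g) lam (gmat g) y) i
    else (sim (ctr L g) lam (gmat g) y) i) = _
  unfold sim
  simp only [PiLp.add_apply, PiLp.smul_apply, f1_ctr_apply, f1_gmat_mact]
  by_cases h : i = j
  · simp only [h, if_true]
    have : f1_sg (!(g.2 j)) = - f1_sg (g.2 j) := by
      cases g.2 j <;> simp [f1_sg]
    rw [this]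
    simp only [smul_eq_mul]
    ring
  · simp only [h, if_false]

theorem f1_bad_flip (j : Fin 3) (x : E3) (h : x ∈ f1_bad L θ V) : flip L j x ∈ f1_bad L θ V := by
  obtain ⟨k, g, y, hy, h⟩ := h
  refine ⟨fun i => if i = j then - k i else k i,
    (g.1, fun i => if i = j then !(g.2 i) else g.2 i), y, hy, ?_⟩
  rw [← f1_flip_sim, h]
  ext i
  show (if i = j then L - (x - mk3 (fun i => 2 * L * k i)) i
    else (x - mk3 (fun i => 2 * L * k i)) i) = (if i = j then L - x i else x i) -
      2 * L * ((if i = j then - k i else k i : ℤ) : ℝ)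
  by_cases hi : i = j
  · simp only [hi, if_true, PiLp.sub_apply, f1_mk3_apply, Int.cast_neg]
    ring
  · simp only [hi, if_false, PiLp.sub_apply, f1_mk3_apply]

include hf in
theorem Om_flip (j : Fin 3) (x : E3) : flip L j x ∈ Om L θ Ω₀ V ↔ x ∈ Om L θ Ω₀ V := by
  rw [f1_mem_Om, f1_mem_Om, hf j x]
  have key : flip L j x ∈ f1_bad L θ V ↔ x ∈ f1_bad L θ V := by
    constructor
    · intro h
      have h3 := f1_bad_flip V j _ h
      have : flip L j (flip L j x) = x := by
        ext i
        show (if i = j then L - (if i = j then L - x i else x i)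
          else (if i = j then L - x i else x i)) = x i
        split_ifs <;> ring
      rwa [this] at h3
    · exact f1_bad_flip V j x
  rw [key]

include hL hθ hV1 in
theorem f1_sub_ball (g : G24) (x : E3) (h : x ∈ sim (ctr L g) (θ * L) (gmat g) '' V) :
    x ∈ closedBall (ctr L g) (θ * L * 6) := by
  obtain ⟨y, hy, rfl⟩ := h
  rw [f1_sim_mem_closedBall _ (mul_pos hθ hL) _ (gmat_orth g)]
  exact closedBall_subset_closedBall (by norm_num) (hV1 hy)

include hL hθ hθ' hV1 in
theorem Om_ball (hin : inner L (1 / 16) ⊆ Ω₀) (g : G24) :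
    closedBall (ctr L g) (θ * L * 6) ∩ Om L θ Ω₀ V =
      sim (ctr L g) (θ * L) (gmat g) '' (cb 6 \ V) := by
  have hlam : 0 < θ * L := mul_pos hθ hL
  ext x
  constructor
  · rintro ⟨hx, hx2⟩
    rw [f1_mem_sim _ hlam _ (gmat_orth g)]
    have hx3 : x = sim (ctr L g) (θ * L) (gmat g)
        (mact (gmat g).transpose ((θ * L)⁻¹ • (x - ctr L g))) := by
      unfold sim
      rw [f1_mact_inv' _ (gmat_orth g), smul_smul, mul_inv_cancel₀ hlam.ne', one_smul,
        add_sub_cancel]
    refine ⟨?_, ?_⟩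
    · rw [← f1_sim_mem_closedBall (ctr L g) hlam (gmat g) (gmat_orth g), ← hx3]
      exact hx
    · intro h
      rw [← f1_mem_sim _ hlam _ (gmat_orth g)] at h
      apply hx2.2
      refine ⟨0, g, ?_⟩
      have : x - mk3 (fun i => 2 * L * ((0 : Fin 3 → ℤ) i : ℤ)) = x := by
        ext i
        simp
      rwa [this]
  · rintro ⟨y, ⟨hy, hyV⟩, rfl⟩
    have hball : sim (ctr L g) (θ * L) (gmat g) y ∈ closedBall (ctr L g) (θ * L * 6) := by
      rw [f1_sim_mem_closedBall _ hlam _ (gmat_orth g)]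
      exact hy
    have hinn := ball_inner hL hθ hθ' g hball
    refine ⟨hball, hin hinn, ?_⟩
    rintro ⟨k, g', h⟩
    have h1 := f1_sub_ball hL hθ V hV1 g' _ h
    have h2 := ball_inner hL hθ hθ' g' h1
    have hk : k = 0 := by
      funext i
      have h3 := abs_le.1 (hinn i)
      have h4 := abs_le.1 (h2 i)
      simp only [PiLp.sub_apply, f1_mk3_apply] at h4
      have h5 : (k i : ℝ) < 1 := by
        by_contra hcon
        push Not at hcon
        nlinarith
      have h6 : (-1 : ℝ) < k i := by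
        by_contra hcon
        push Not at hcon
        nlinarith
      have h7 : k i < 1 := by exact_mod_cast h5
      have h8 : -1 < k i := by exact_mod_cast h6
      show k i = 0
      omega
    subst hk
    have h0 : sim (ctr L g) (θ * L) (gmat g) y - mk3 (fun i => 2 * L * ((0 : Fin 3 → ℤ) i : ℤ)) =
        sim (ctr L g) (θ * L) (gmat g) y := by
      ext i
      simp
    rw [h0] at h h1
    have hg : g' = g := by
      by_contra hne
      exact Set.disjoint_left.1 (ball_disj hL hθ hθ' g' g hne) h1 hball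
    subst hg
    obtain ⟨z, hz, hzy⟩ := h
    rw [f1_sim_inj _ hlam _ (gmat_orth g') hzy] at hz
    exact hyV hz

include hL hθ hθ' hV1 in
theorem Om_out (x : E3) (hx : x ∈ cell (2 * L))
    (h : ∀ g : G24, x ∉ closedBall (ctr L g) (θ * L * 6)) : x ∈ Om L θ Ω₀ V ↔ x ∈ Ω₀ := by
  refine ⟨fun h => h.1, fun hx0 => ⟨hx0, ?_⟩⟩
  rintro ⟨k, g, hk⟩
  have h1 := f1_sub_ball hL hθ V hV1 g _ hk
  have h2 := ball_inner hL hθ hθ' g h1
  have hk0 : k = 0 := by
    funext i
    have h3 := hx i
    have h4 := abs_le.1 (h2 i)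
    simp only [PiLp.sub_apply, f1_mk3_apply] at h4
    have h5 : (k i : ℝ) < 1 := by
      by_contra hcon
      push Not at hcon
      nlinarith
    have h6 : (-1 : ℝ) < k i := by
      by_contra hcon
      push Not at hcon
      nlinarith
    have h7 : k i < 1 := by exact_mod_cast h5
    have h8 : -1 < k i := by exact_mod_cast h6
    show k i = 0
    omega
  subst hk0
  have h0 : x - mk3 (fun i => 2 * L * ((0 : Fin 3 → ℤ) i : ℤ)) = x := by
    ext i
    simp
  rw [h0] at h1
  exact h g h1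

end

end Pool.Agent.ShearComposite.D3
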