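import Pool.Agent.ShearComposite3.Alg
import Pool.Agent.ShearComposite3.CellA
import Pool.Agent.ShearComposite3.Iso
import Pool.Agent.ShearComposite3.Cov
import Pool.Agent.ShearComposite3.OmFacts
import Pool.Agent.ShearComposite3.Glue

set_option autoImplicit false

open MeasureTheory Metric
open scoped ContDiff

namespace Pool.Agent.ShearComposite.D3

/-! ## TASK F4 (ContF.lean): continuity in the angle -/

theorem f4_density_cont (κ μ : ℝ) (v : E3 → E3) (hv : ContDiff ℝ ∞ v) :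
    Continuous fun x => density κ μ (strain v x) := by
  have h := continuous_strain v hv
  have h1 : Continuous fun A : M3 => density κ μ A := by
    unfold density stress
    fun_prop
  exact h1.comp h

theorem f4_intOn (κ μ : ℝ) (v : E3 → E3) (hv : ContDiff ℝ ∞ v) (S : Set E3)
    (hS : Bornology.IsBounded S) : IntegrableOn (fun x => density κ μ (strain v x)) S := by
  have h1 : IntegrableOn (fun x => density κ μ (strain v x)) (closure S) :=
    (f4_density_cont κ μ v hv).continuousOn.integrableOn_compact hS.isCompact_closure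
  exact h1.mono_set subset_closure

theorem f4_en_congr (κ μ : ℝ) (v w : E3 → E3) (S : Set E3) (hS : MeasurableSet S)
    (h : ∀ x ∈ S, strain v x = strain w x) : en κ μ S v = en κ μ S w := by
  unfold en
  exact setIntegral_congr_fun hS fun x hx => by rw [h x hx]

section decomp

variable {κ μ L θ : ℝ} (hL : 0 < L) (hθ : 0 < θ) (hθ' : θ ≤ 1 / 96) (Ω₀ V : Set E3)
  (hm : MeasurableSet Ω₀) (hV : MeasurableSet V) (hV1 : V ⊆ cb 1)
  (hin : inner L (1 / 16) ⊆ Ω₀)

theorem f4_inner_oc (hL : 0 < L) : inner L (1 / 16) ⊆ {x : E3 | ∀ j, 0 < x j ∧ x j < 2 * L} := by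
  intro x hx j
  have h := abs_le.1 (hx j)
  constructor <;> nlinarith [h.1, h.2]

include hL hθ hθ' hm hV hV1 hin in
/-- the energy in the cell is the sum of the energies in the balls and the energy outside -/
theorem f4_split (v : E3 → E3) (hv : ContDiff ℝ ∞ v) :
    en κ μ (cell (2 * L) ∩ Om L θ Ω₀ V) v =
      ∑ g : G24, en κ μ (sim (ctr L g) (θ * L) (gmat g) '' (cb 6 \ V)) v +
      en κ μ ((cell (2 * L) \ ⋃ g : G24, closedBall (ctr L g) (θ * L * 6)) ∩ Ω₀) v := by
  have hOm := Om_meas hL hθ hθ' Ω₀ V hm hV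
  have hball : ∀ g : G24, closedBall (ctr L g) (θ * L * 6) ⊆ cell (2 * L) := fun g x hx j =>
    have h := f4_inner_oc hL (ball_inner hL hθ hθ' g hx) j
    ⟨h.1.le, h.2⟩
  have hbd : Bornology.IsBounded (cell (2 * L) ∩ Om L θ Ω₀ V) :=
    (isBounded_cell (2 * L)).subset Set.inter_subset_left
  have h1 : cell (2 * L) ∩ Om L θ Ω₀ V =
      (⋃ g : G24, closedBall (ctr L g) (θ * L * 6) ∩ Om L θ Ω₀ V) ∪
      ((cell (2 * L) \ ⋃ g : G24, closedBall (ctr L g) (θ * L * 6)) ∩ Ω₀) := by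
    ext x
    constructor
    · rintro ⟨h1, h2⟩
      by_cases h3 : ∃ g : G24, x ∈ closedBall (ctr L g) (θ * L * 6)
      · obtain ⟨g, hg⟩ := h3
        exact Or.inl (Set.mem_iUnion.2 ⟨g, hg, h2⟩)
      · push Not at h3
        refine Or.inr ⟨⟨h1, fun h => ?_⟩, (Om_out hL hθ hθ' Ω₀ V hV1 x h1 h3).1 h2⟩
        obtain ⟨g, hg⟩ := Set.mem_iUnion.1 h
        exact h3 g hg
    · rintro (h | ⟨⟨h1, h2⟩, h3⟩)
      · obtain ⟨g, hg, h2⟩ := Set.mem_iUnion.1 h
        exact ⟨hball g hg, h2⟩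
      · exact ⟨h1, (Om_out hL hθ hθ' Ω₀ V hV1 x h1 fun g hg =>
          h2 (Set.mem_iUnion.2 ⟨g, hg⟩)).2 h3⟩
  have hd : Disjoint (⋃ g : G24, closedBall (ctr L g) (θ * L * 6) ∩ Om L θ Ω₀ V)
      ((cell (2 * L) \ ⋃ g : G24, closedBall (ctr L g) (θ * L * 6)) ∩ Ω₀) := by
    rw [Set.disjoint_left]
    intro x hx hx2
    obtain ⟨g, hg, _⟩ := Set.mem_iUnion.1 hx
    exact hx2.1.2 (Set.mem_iUnion.2 ⟨g, hg⟩)
  have hmU : MeasurableSet (⋃ g : G24, closedBall (ctr L g) (θ * L * 6)) :=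
    MeasurableSet.iUnion fun g => isClosed_closedBall.measurableSet
  have hm2 : MeasurableSet ((cell (2 * L) \ ⋃ g : G24, closedBall (ctr L g) (θ * L * 6)) ∩ Ω₀) :=
    ((measurableSet_cell (2 * L)).diff hmU).inter hm
  have hI : IntegrableOn (fun x => density κ μ (strain v x)) (cell (2 * L) ∩ Om L θ Ω₀ V) :=
    f4_intOn κ μ v hv _ hbd
  have hI1 : IntegrableOn (fun x => density κ μ (strain v x))
      (⋃ g : G24, closedBall (ctr L g) (θ * L * 6) ∩ Om L θ Ω₀ V) :=
    hI.mono_set (by rw [h1]; exact Set.subset_union_left)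
  have hI2 : IntegrableOn (fun x => density κ μ (strain v x))
      ((cell (2 * L) \ ⋃ g : G24, closedBall (ctr L g) (θ * L * 6)) ∩ Ω₀) :=
    hI.mono_set (by rw [h1]; exact Set.subset_union_right)
  unfold en
  rw [h1, setIntegral_union hd hm2 hI1 hI2]
  congr 1
  rw [integral_iUnion_fintype (fun g => isClosed_closedBall.measurableSet.inter hOm) ?_ ?_]
  · refine Finset.sum_congr rfl fun g _ => ?_
    rw [Om_ball hL hθ hθ' Ω₀ V hV1 hin g]
  · intro g g' hgg
    exact (ball_disj hL hθ hθ' g g' hgg).mono Set.inter_subset_left Set.inter_subset_left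
  · intro g
    exact hI1.mono_set (Set.subset_iUnion_of_subset g subset_rfl)

end decomp

theorem f4_RZ_orth (α : ℝ) : RZ α ∈ Matrix.orthogonalGroup (Fin 3) ℝ := by
  rw [Matrix.mem_orthogonalGroup_iff]
  have h := Real.sin_sq_add_cos_sq α
  ext i j
  fin_cases i <;> fin_cases j <;>
    simp [RZ, Matrix.mul_apply, Fin.sum_univ_three] <;> nlinarith

theorem f4_RZ_add (α β : ℝ) : RZ α * RZ β = RZ (α + β) := by
  ext i j
  fin_cases i <;> fin_cases j <;>
    simp [RZ, Matrix.mul_apply, Fin.sum_univ_three, Real.sin_add, Real.cos_add] <;> ring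

theorem f4_mact_mul (A B : M3) (x : E3) : mact A (mact B x) = mact (A * B) x := by
  ext i
  simp only [mact, Matrix.mul_apply, Fin.sum_univ_three]
  ring

theorem f4_mact_one (x : E3) : mact 1 x = x := by
  ext i
  simp [mact, Matrix.one_apply]

theorem f4_norm_mact (R : M3) (hR : R ∈ Matrix.orthogonalGroup (Fin 3) ℝ) (x : E3) :
    ‖mact R x‖ = ‖x‖ := by
  have h1 : R.transpose * R = 1 := (Matrix.mem_orthogonalGroup_iff' (Fin 3) ℝ).1 hR
  have h2 : ∀ i j, ∑ k, R k i * R k j = if i = j then 1 else 0 := by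
    intro i j
    have := congrFun (congrFun h1 i) j
    rw [Matrix.mul_apply, Matrix.one_apply] at this
    exact this
  rw [EuclideanSpace.norm_eq, EuclideanSpace.norm_eq]
  congr 1
  have e00 := h2 0 0
  have e01 := h2 0 1
  have e02 := h2 0 2
  have e11 := h2 1 1
  have e12 := h2 1 2
  have e22 := h2 2 2
  simp only [Fin.sum_univ_three, Fin.isValue, if_true] at e00 e01 e02 e11 e12 e22
  simp only [Fin.reduceEq, if_false] at e01 e02 e12
  simp only [mact, Real.norm_eq_abs, sq_abs, Fin.sum_univ_three]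
  linear_combination (x 0) ^ 2 * e00 + (x 1) ^ 2 * e11 + (x 2) ^ 2 * e22 +
    2 * x 0 * x 1 * e01 + 2 * x 0 * x 2 * e02 + 2 * x 1 * x 2 * e12

theorem f4_image_meas (φ : ℝ) (V : Set E3) (hV : MeasurableSet V) :
    MeasurableSet (mact (RZ φ) '' V) := by
  have h1 : mact (RZ φ) '' V = mact (RZ (-φ)) ⁻¹' V := by
    ext x
    constructor
    · rintro ⟨y, hy, rfl⟩
      rw [Set.mem_preimage, f4_mact_mul, f4_RZ_add, neg_add_cancel]
      have : RZ 0 = 1 := by
        ext i j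
        fin_cases i <;> fin_cases j <;> simp [RZ]
      rw [this, f4_mact_one]
      exact hy
    · intro hx
      refine ⟨mact (RZ (-φ)) x, hx, ?_⟩
      rw [f4_mact_mul, f4_RZ_add, add_neg_cancel]
      have : RZ 0 = 1 := by
        ext i j
        fin_cases i <;> fin_cases j <;> simp [RZ]
      rw [this, f4_mact_one]
  rw [h1]
  have h2 : Continuous (mact (RZ (-φ))) := by
    unfold mact
    fun_prop
  exact h2.measurable hV

theorem f4_image_sub (φ : ℝ) (V : Set E3) (hV1 : V ⊆ cb 1) : mact (RZ φ) '' V ⊆ cb 1 := by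
  rintro _ ⟨y, hy, rfl⟩
  have := hV1 hy
  rw [mem_closedBall_zero_iff] at this ⊢
  rwa [f4_norm_mact _ (f4_RZ_orth φ)]

theorem f4_image_image (φ α : ℝ) (V : Set E3) :
    mact (RZ α) '' (mact (RZ φ) '' V) = mact (RZ (φ + α)) '' V := by
  rw [Set.image_image]
  congr 1
  funext x
  rw [f4_mact_mul, f4_RZ_add, add_comm]

theorem contF {κ μ : ℝ} (hκ : 0 < κ) (hμ : 0 < μ) {L θ : ℝ} (hL : 0 < L) (hθ : 0 < θ)
    (hθ' : θ ≤ 1 / 96) (Ω₀ V : Set E3) (hm : MeasurableSet Ω₀) (hV : MeasurableSet V)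
    (hV1 : V ⊆ cb 1) (hin : inner L (1 / 16) ⊆ Ω₀) (ε₀ : M3) (hε : ε₀.IsSymm)
    (C : ℝ) (hC : 0 < C)
    (hrot : ∀ (α : ℝ), |α| ≤ 1 → ∀ V : Set E3, MeasurableSet V → V ⊆ cb 1 →
      ∀ v : E3 → E3, ContDiff ℝ ∞ v → ∃ v' : E3 → E3, ContDiff ℝ ∞ v' ∧
      (∀ x ∉ cb 3, v' x = v x) ∧
      en κ μ (cb 6 \ (mact (RZ α) '' V)) v' ≤ (1 + C * |α|) * en κ μ (cb 6 \ V) v) :
    Continuous fun φ : ℝ => Wq κ μ (2 * L) (Om L θ Ω₀ (mact (RZ φ) '' V)) ε₀ := by
  have h2L : 0 < 2 * L := by linarith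
  have hlam : 0 < θ * L := by positivity
  set f : ℝ → ℝ := fun φ => Wq κ μ (2 * L) (Om L θ Ω₀ (mact (RZ φ) '' V)) ε₀ with hf
  have hf0 : ∀ φ, 0 ≤ f φ := fun φ => Wq_nonneg hκ hμ h2L _ _
  -- the basic inequality
  have key : ∀ φ α : ℝ, |α| ≤ 1 → f (φ + α) ≤ (1 + C * |α|) * f φ := by
    intro φ α hα
    have hfac : 0 < 1 + C * |α| := by positivity
    rw [← div_le_iff₀' hfac]
    refine le_Wq _ _ hε _ fun v hv => ?_
    rw [div_le_iff₀' hfac]
    have hVφ := f4_image_meas φ V hV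
    have hVφ1 := f4_image_sub φ V hV1
    have hVα := f4_image_meas (φ + α) V hV
    have hVα1 := f4_image_sub (φ + α) V hV1
    have hex : ∀ g : G24, ∃ v' : E3 → E3, ContDiff ℝ ∞ v' ∧
        (∀ x ∉ closedBall (ctr L g) (θ * L * 3), v' x = v x) ∧
        en κ μ (sim (ctr L g) (θ * L) (gmat g) '' (cb 6 \ (mact (RZ (φ + α)) '' V))) v' ≤
          (1 + C * |α|) *
            en κ μ (sim (ctr L g) (θ * L) (gmat g) '' (cb 6 \ (mact (RZ φ) '' V))) v := by
      intro g
      refine rot_sim C α (mact (RZ φ) '' V) (mact (RZ (φ + α)) '' V) hVφ hVα ?_ (ctr L g) hlam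
        (gmat g) (gmat_orth g) v hv.1
      intro v hv
      have := hrot α hα _ hVφ hVφ1 v hv
      rwa [f4_image_image] at this
    choose w hw1 hw2 hw3 using hex
    obtain ⟨v', hv', hs1, hs2⟩ := glue h2L ε₀ v hv (fun g : G24 => ctr L g) (θ * L * 6)
      (θ * L * 3) (by positivity) (by nlinarith)
      (fun g => (ball_inner hL hθ hθ' g).trans (f4_inner_oc hL))
      (fun g g' h => ball_disj hL hθ hθ' g g' h) w hw1 hw2
    refine (Wq_le hκ hμ h2L _ ε₀ v' hv').trans ?_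
    rw [mul_left_comm]
    refine mul_le_mul_of_nonneg_left ?_ (by positivity)
    rw [f4_split hL hθ hθ' Ω₀ _ hm hVα hVα1 hin v' hv'.1,
      f4_split hL hθ hθ' Ω₀ _ hm hVφ hVφ1 hin v hv.1, mul_add, Finset.mul_sum]
    have hsm : ∀ g : G24, ∀ V' : Set E3, MeasurableSet V' → V' ⊆ cb 1 → MeasurableSet
        (sim (ctr L g) (θ * L) (gmat g) '' (cb 6 \ V')) := by
      intro g V' h1 h2
      rw [← Om_ball hL hθ hθ' Ω₀ V' h2 hin g]
      exact isClosed_closedBall.measurableSet.inter (Om_meas hL hθ hθ' Ω₀ V' hm h1)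
    refine add_le_add (Finset.sum_le_sum fun g _ => ?_) ?_
    · refine le_trans (le_of_eq ?_) (hw3 g)
      refine f4_en_congr κ μ _ _ _ (hsm g _ hVα hVα1) fun x hx => hs1 g x ?_
      rw [← Om_ball hL hθ hθ' Ω₀ _ hVα1 hin g] at hx
      exact hx.1
    · have hmU : MeasurableSet (⋃ g : G24, closedBall (ctr L g) (θ * L * 6)) :=
        MeasurableSet.iUnion fun g => isClosed_closedBall.measurableSet
      have hm2 : MeasurableSet
          ((cell (2 * L) \ ⋃ g : G24, closedBall (ctr L g) (θ * L * 6)) ∩ Ω₀) :=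
        ((measurableSet_cell (2 * L)).diff hmU).inter hm
      rw [f4_en_congr κ μ v' v _ hm2 fun x hx => hs2 x hx.1.1 fun g hg =>
        hx.1.2 (Set.mem_iUnion.2 ⟨g, hg⟩)]
      have h0 : 0 ≤ en κ μ
          ((cell (2 * L) \ ⋃ g : G24, closedBall (ctr L g) (θ * L * 6)) ∩ Ω₀) v :=
        setIntegral_nonneg hm2 fun x _ => density_nonneg hκ hμ _
      have h1 : 1 ≤ 1 + C * |α| := by
        have : 0 ≤ C * |α| := by positivity
        linarith
      exact le_mul_of_one_le_left h0 h1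
  -- continuity
  rw [continuous_iff_continuousAt]
  intro φ
  rw [ContinuousAt, tendsto_iff_dist_tendsto_zero]
  have hbound : ∀ α : ℝ, |α| ≤ 1 → |f (φ + α) - f φ| ≤ C * (1 + C) * f φ * |α| := by
    intro α hα
    have h1 := key φ α hα
    have h2 := key (φ + α) (-α) (by rwa [abs_neg])
    rw [add_neg_cancel_right, abs_neg] at h2
    have h3 : f (φ + α) ≤ (1 + C) * f φ := by
      refine h1.trans (mul_le_mul_of_nonneg_right ?_ (hf0 φ))
      have : C * |α| ≤ C * 1 := mul_le_mul_of_nonneg_left hα hC.le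
      linarith
    have hCα : 0 ≤ C * |α| := by positivity
    rw [abs_le]
    constructor
    · have h4 : C * |α| * f (φ + α) ≤ C * |α| * ((1 + C) * f φ) :=
        mul_le_mul_of_nonneg_left h3 hCα
      nlinarith [h2, h4]
    · have h5 : 0 ≤ C * |α| * (C * f φ) := mul_nonneg hCα (mul_nonneg hC.le (hf0 φ))
      nlinarith [h1, h5]
  have hlim : Filter.Tendsto (fun ψ : ℝ => C * (1 + C) * f φ * |ψ - φ|) (nhds φ) (nhds 0) := by
    have h1 : Continuous fun ψ : ℝ => C * (1 + C) * f φ * |ψ - φ| := by fun_prop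
    have h2 := h1.tendsto φ
    simpa using h2
  refine squeeze_zero' (Filter.Eventually.of_forall fun ψ => dist_nonneg) ?_ hlim
  filter_upwards [Metric.ball_mem_nhds φ one_pos] with ψ hψ
  rw [Metric.mem_ball, Real.dist_eq] at hψ
  have h1 := hbound (ψ - φ) hψ.le
  rw [add_sub_cancel] at h1
  rw [Real.dist_eq]
  exact h1

end Pool.Agent.ShearComposite.D3
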