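import Pool.Agent.ShearComposite.Defs
import Pool.Agent.ShearComposite.Inf

/-!
# Composites in dimension three: basic definitions
-/

set_option autoImplicit false

open MeasureTheory
open scoped ContDiff

namespace Pool.Agent.ShearComposite.D3

/-- three dimensional Euclidean space -/
abbrev E3 : Type := Sp 3

/-- three by three matrices -/
abbrev M3 : Type := Matrix (Fin 3) (Fin 3) ℝ

/-- the unit vector in direction `j` -/
noncomputable abbrev ee (j : Fin 3) : E3 := EuclideanSpace.single j (1 : ℝ)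

/-- vector with given coordinates -/
noncomputable abbrev mk3 (f : Fin 3 → ℝ) : E3 := WithLp.toLp 2 f

/-- the action of a matrix on a vector -/
noncomputable def mact (R : M3) (x : E3) : E3 := mk3 fun i => ∑ j, R i j * x j

/-- the pairing of matrices -/
def inn (A B : M3) : ℝ := ∑ i, ∑ j, A i j * B i j

/-- the complementary energy density -/
noncomputable def cden (κ μ : ℝ) (T : M3) : ℝ :=
  T.trace ^ 2 / (9 * κ) + (inn T T - T.trace ^ 2 / 3) / (2 * μ)

/-- partial derivatives -/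
noncomputable def pd (j : Fin 3) (f : E3 → ℝ) (x : E3) : ℝ := fderiv ℝ f x (ee j)

/-- the energy of the displacement `v` in the set `A` -/
noncomputable def en (κ μ : ℝ) (A : Set E3) (v : E3 → E3) : ℝ :=
  ∫ x in A, density κ μ (strain v x)

/-- the half open cube `[0,P)^3` -/
def cell (P : ℝ) : Set E3 := {x | ∀ i, 0 ≤ x i ∧ x i < P}

/-- smooth displacements with mean strain `ε₀` -/
def Adm (P : ℝ) (ε₀ : M3) : Set (E3 → E3) :=
  {v | ContDiff ℝ ∞ v ∧ ∀ (i j : Fin 3) (x : E3),
    v (x + EuclideanSpace.single i P) j = v x j + P * ε₀ j i}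

/-- the effective energy of a composite with cubic cell of side `P` -/
noncomputable def Wq (κ μ P : ℝ) (Ω : Set E3) (ε₀ : M3) : ℝ :=
  ⨅ v : Adm P ε₀, (P ^ 3)⁻¹ * en κ μ (cell P ∩ Ω) (v : E3 → E3)

/-- sets which are periodic of period `P` in all coordinates -/
def PerSet (P : ℝ) (Ω : Set E3) : Prop :=
  ∀ (i : Fin 3) (x : E3), x + EuclideanSpace.single i P ∈ Ω ↔ x ∈ Ω

/-- functions which are periodic of period `P` in all coordinates -/
def PerFun {α : Type} (P : ℝ) (g : E3 → α) : Prop :=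
  ∀ (i : Fin 3) (x : E3), g (x + EuclideanSpace.single i P) = g x

/-- cyclic permutation of the coordinates -/
noncomputable def cyc (x : E3) : E3 := mk3 fun i => x (i + 1)

/-- the reflection `x_j ↦ L - x_j` -/
noncomputable def flip (L : ℝ) (j : Fin 3) (x : E3) : E3 :=
  mk3 fun i => if i = j then L - x i else x i

/-- the two test strains -/
def NA : M3 := !![1, 0, 0; 0, -1, 0; 0, 0, 0]
def E12 : M3 := !![0, 1, 0; 1, 0, 0; 0, 0, 0]

/-- The elastic body `A` with the void `V` is, for the load `σ`, as stiff as the full body up to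
the complementary energy `c`. -/
def Stiff (κ μ : ℝ) (A V : Set E3) (σ : M3) (c : ℝ) : Prop :=
  ∀ v : E3 → E3, ContDiff ℝ ∞ v →
    2 * (∫ x in A, inn σ (strain v x)) - c ≤ en κ μ (A \ V) v

/-- rotation about the third axis -/
noncomputable def RZ (α : ℝ) : M3 :=
  !![Real.cos α, -Real.sin α, 0; Real.sin α, Real.cos α, 0; 0, 0, 1]

/-- a similarity -/
noncomputable def sim (a : E3) (lam : ℝ) (R : M3) (x : E3) : E3 := a + lam • mact R x

/-- the block with a margin of relative size `η` -/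
def inner (L η : ℝ) : Set E3 := {x | ∀ i, |x i - L / 2| ≤ (1 / 2 - η) * L}

/-- open sets which are finite unions of overlapping convex sets -/
inductive Linked : Set E3 → Prop
  | base (A : Set E3) (h1 : Convex ℝ A) (h2 : IsOpen A) (h3 : Bornology.IsBounded A)
      (h4 : A.Nonempty) : Linked A
  | union (A B : Set E3) (hA : Linked A) (hB : Linked B) (h : (A ∩ B).Nonempty) :
      Linked (A ∪ B)

/-- The base structure: periodic, with cubic symmetry, soft for the dilation with a displacement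
which does not deform the block `inner L η`, and stiff for the two shears outside of the block. -/
def BaseExists (κ μ : ℝ) : Prop := ∀ η : ℝ, 0 < η → ∃ (L : ℝ) (Ω : Set E3), 0 < L ∧
  MeasurableSet Ω ∧ PerSet (2 * L) Ω ∧ (∀ x, cyc x ∈ Ω ↔ x ∈ Ω) ∧
  (∀ j x, flip L j x ∈ Ω ↔ x ∈ Ω) ∧ inner L η ⊆ Ω ∧
  (∃ v ∈ Adm (2 * L) 1, (∀ x ∈ inner L η, strain v x = 0) ∧
    en κ μ (cell (2 * L) ∩ Ω) v ≤ η * L ^ 3) ∧
  (∀ ε₀ : M3, (ε₀ = NA ∨ ε₀ = E12) → ∀ v ∈ Adm (2 * L) ε₀,
    2 * (∫ x in cell (2 * L) \ inner L η, inn ((2 * μ) • ε₀) (strain v x))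
      - (4 * μ * (volume (cell (2 * L) \ inner L η)).toReal + η * L ^ 3)
      ≤ (1 + η) * en κ μ ((cell (2 * L) \ inner L η) ∩ Ω) v)

/-- closed ball around the origin -/
abbrev cb (r : ℝ) : Set E3 := Metric.closedBall (0 : E3) r

/-- The corrector. -/
def CorrectorExists (κ μ : ℝ) : Prop := ∃ c₁ : ℝ, 0 < c₁ ∧ ∀ ε : ℝ, 0 < ε → ∃ V : Set E3,
  MeasurableSet V ∧ V ⊆ cb 1 ∧
  (∃ w : E3 → E3, ContDiff ℝ ∞ w ∧ (∀ x ∉ cb 1, w x = 0) ∧
    en κ μ (cb 6 \ V) (fun x => mact E12 x + w x) ≤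
      density κ μ E12 * (volume (cb 6)).toReal - c₁) ∧
  (∀ σ : M3, σ.IsSymm → σ.trace = 0 → σ 0 1 = 0 →
    Stiff κ μ (cb 6) V σ (inn σ σ * ((volume (cb 6)).toReal / (2 * μ) + ε)))

end Pool.Agent.ShearComposite.D3
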