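import Pool.Agent.ShearComposite3.Core

/-!
# Korn-Poincare inequality on convex sets
-/

set_option autoImplicit false

open MeasureTheory Metric
open scoped ContDiff ENNReal

namespace Pool.Agent.ShearComposite.D3

/-- the Korn-Poincare inequality on `S` -/
def KPI (S : Set E3) : Prop := ∃ C : ℝ, 0 < C ∧ ∀ v : E3 → E3, ContDiff ℝ ∞ v →
  ∃ (a : E3) (W : M3), W.transpose = -W ∧
    ∫ x in S, ‖v x - (a + mact W x)‖ ^ 2 ≤ C * ∫ x in S, inn (strain v x) (strain v x)

/-! ### Linear algebra -/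

/-- scalar product -/
def k1_dt (x y : E3) : ℝ := ∑ i, x i * y i

theorem k1_dt_self (x : E3) : k1_dt x x = ‖x‖ ^ 2 := by
  rw [EuclideanSpace.real_norm_sq_eq]
  exact Finset.sum_congr rfl fun i _ => (sq _).symm

theorem k1_dt_comm (x y : E3) : k1_dt x y = k1_dt y x :=
  Finset.sum_congr rfl fun i _ => mul_comm _ _

theorem k1_dt_sq_le (x y : E3) : k1_dt x y ^ 2 ≤ ‖x‖ ^ 2 * ‖y‖ ^ 2 := by
  rw [EuclideanSpace.real_norm_sq_eq, EuclideanSpace.real_norm_sq_eq]
  exact Finset.sum_mul_sq_le_sq_mul_sq _ _ _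

theorem k1_dt_add_left (x y z : E3) : k1_dt (x + y) z = k1_dt x z + k1_dt y z := by
  unfold k1_dt
  rw [← Finset.sum_add_distrib]
  exact Finset.sum_congr rfl fun i _ => by simp [add_mul]

theorem k1_dt_sub_left (x y z : E3) : k1_dt (x - y) z = k1_dt x z - k1_dt y z := by
  unfold k1_dt
  rw [← Finset.sum_sub_distrib]
  exact Finset.sum_congr rfl fun i _ => by simp [sub_mul]

theorem k1_dt_sub_right (x y z : E3) : k1_dt x (y - z) = k1_dt x y - k1_dt x z := by
  rw [k1_dt_comm, k1_dt_sub_left, k1_dt_comm y, k1_dt_comm z]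

theorem k1_mact_sub (W : M3) (x y : E3) : mact W (x - y) = mact W x - mact W y := by
  ext i
  simp only [mact, PiLp.sub_apply]
  rw [← Finset.sum_sub_distrib]
  exact Finset.sum_congr rfl fun j _ => by ring

theorem k1_skew (W : M3) (hW : W.transpose = -W) (x : E3) : k1_dt (mact W x) x = 0 := by
  have h : ∀ i j, W j i = - W i j := by
    intro i j
    have := congrFun (congrFun hW i) j
    simpa using this
  have h1 : k1_dt (mact W x) x = ∑ i, ∑ j, W i j * x j * x i := by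
    unfold k1_dt mact
    exact Finset.sum_congr rfl fun i _ => by
      simp only [Finset.sum_mul]
  have h2 : ∑ i, ∑ j, W i j * x j * x i = ∑ i, ∑ j, -(W i j * x j * x i) := by
    rw [Finset.sum_comm]
    refine Finset.sum_congr rfl fun i _ => Finset.sum_congr rfl fun j _ => ?_
    rw [h i j]
    ring
  simp only [Finset.sum_neg_distrib] at h2
  rw [h1]
  linarith

/-- the elongation of `v` between `x` and `y` -/
def k1_E (v : E3 → E3) (x y : E3) : ℝ := k1_dt (v x - v y) (x - y)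

theorem k1_E_comm (v : E3 → E3) (x y : E3) : k1_E v x y = k1_E v y x := by
  unfold k1_E k1_dt
  exact Finset.sum_congr rfl fun i _ => by
    simp only [PiLp.sub_apply]
    ring

theorem k1_E_self (v : E3 → E3) (x : E3) : k1_E v x x = 0 := by
  unfold k1_E k1_dt
  simp

/-- near orthogonal triples -/
theorem k1_frame {R : ℝ} (_hR : 0 < R) (η : Fin 3 → E3)
    (hη : ∀ i, ‖η i - R • ee i‖ ≤ R / 4) (ν : E3) :
    5 / 16 * R ^ 2 * ‖ν‖ ^ 2 ≤ ∑ i, k1_dt (η i) ν ^ 2 := by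
  have h1 : ∀ i, (R * ν i) ^ 2 ≤ 2 * k1_dt (η i) ν ^ 2 + 2 * (R ^ 2 / 16 * ‖ν‖ ^ 2) := by
    intro i
    have e1 : R * ν i = k1_dt (η i) ν - k1_dt (η i - R • ee i) ν := by
      rw [k1_dt_sub_left]
      have : k1_dt (R • ee i) ν = R * ν i := by
        unfold k1_dt
        rw [Finset.sum_eq_single i]
        · simp
        · intro j _ hj
          simp [hj]
        · simp
      rw [this]
      ring
    have h2 : k1_dt (η i - R • ee i) ν ^ 2 ≤ R ^ 2 / 16 * ‖ν‖ ^ 2 := by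
      refine le_trans (k1_dt_sq_le _ _) ?_
      refine mul_le_mul_of_nonneg_right ?_ (by positivity)
      calc ‖η i - R • ee i‖ ^ 2 ≤ (R / 4) ^ 2 := pow_le_pow_left₀ (norm_nonneg _) (hη i) 2
        _ = R ^ 2 / 16 := by ring
    rw [e1]
    nlinarith [sq_nonneg (k1_dt (η i) ν + k1_dt (η i - R • ee i) ν)]
  have h2 : R ^ 2 * ‖ν‖ ^ 2 = ∑ i, (R * ν i) ^ 2 := by
    rw [EuclideanSpace.real_norm_sq_eq, Finset.mul_sum]
    exact Finset.sum_congr rfl fun i _ => by ring
  have h3 : ∑ i, (R * ν i) ^ 2 ≤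
      ∑ i : Fin 3, (2 * k1_dt (η i) ν ^ 2 + 2 * (R ^ 2 / 16 * ‖ν‖ ^ 2)) :=
    Finset.sum_le_sum fun i _ => h1 i
  rw [Finset.sum_add_distrib, ← Finset.mul_sum, Finset.sum_const, Finset.card_univ,
    Fintype.card_fin] at h3
  simp only [nsmul_eq_mul, Nat.cast_ofNat] at h3
  nlinarith

/-- A matrix with prescribed values on a near orthogonal triple. -/
theorem k1_exists_matrix {R : ℝ} (hR : 0 < R) (η : Fin 3 → E3)
    (hη : ∀ i, ‖η i - R • ee i‖ ≤ R / 4) (u : Fin 3 → E3) :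
    ∃ F : M3, ∀ i, mact F (η i) = u i := by
  let N : M3 := Matrix.of fun i j => η i j
  have hinj : Function.Injective N.mulVec := by
    intro a b hab
    have h1 : N.mulVec (a - b) = 0 := by
      rw [Matrix.mulVec_sub, hab, sub_self]
    let ν : E3 := mk3 (a - b)
    have h2 : ∀ i, k1_dt (η i) ν = 0 := by
      intro i
      have := congrFun h1 i
      simpa [Matrix.mulVec, dotProduct, k1_dt, N, ν] using this
    have h3 := k1_frame hR η hη ν
    simp only [h2] at h3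
    have h4 : ‖ν‖ ^ 2 ≤ 0 := by
      have : 0 < 5 / 16 * R ^ 2 := by positivity
      simp only [ne_eq, OfNat.ofNat_ne_zero, not_false_eq_true, zero_pow,
        Finset.sum_const_zero] at h3
      nlinarith
    have h5 : ν = 0 := by
      have : ‖ν‖ = 0 := by
        have := norm_nonneg ν
        nlinarith
      exact norm_eq_zero.1 this
    have h6 : ∀ i, ν i = 0 := fun i => by rw [h5]; rfl
    funext i
    have := h6 i
    simp only [ν, Pi.sub_apply] at this
    linarith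
  have hdet : IsUnit N := Matrix.mulVec_injective_iff_isUnit.1 hinj
  have hdetT : IsUnit N.transpose := by
    rw [Matrix.isUnit_iff_isUnit_det] at hdet ⊢
    rwa [Matrix.det_transpose]
  let U : M3 := Matrix.of fun i j => u j i
  refine ⟨U * N.transpose⁻¹, fun i => ?_⟩
  have h1 : U * N.transpose⁻¹ * N.transpose = U :=
    Matrix.nonsing_inv_mul_cancel_right _ _ ((Matrix.isUnit_iff_isUnit_det _).1 hdetT)
  ext k
  have h2 := congrFun (congrFun h1 k) i
  rw [Matrix.mul_apply] at h2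
  simpa [mact, N, U, Matrix.transpose_apply] using h2

theorem k1_mact_dt (F : M3) (x y : E3) : k1_dt (mact F x) y = k1_dt x (mact F.transpose y) := by
  unfold k1_dt mact
  simp only [Matrix.transpose_apply, Finset.sum_mul, Finset.mul_sum]
  rw [Finset.sum_comm]
  exact Finset.sum_congr rfl fun i _ => Finset.sum_congr rfl fun j _ => by ring

theorem k1_real1 {p q r S1 S2 : ℝ} (hp : p ^ 2 ≤ S1) (hq : q ^ 2 ≤ S1) (hr : r ^ 2 ≤ S2) :
    ((p + q - r) / 2) ^ 2 ≤ 3 / 2 * (S1 + S2) := by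
  have h1 := sq_nonneg (p - q)
  have h2 := sq_nonneg (p + r)
  have h3 := sq_nonneg (q + r)
  have h4 := sq_nonneg r
  have h5 : ((p + q - r) / 2) ^ 2 = (3 * (p ^ 2 + q ^ 2 + r ^ 2) - (p - q) ^ 2 - (p + r) ^ 2 -
    (q + r) ^ 2) / 4 := by ring
  rw [h5]
  linarith

theorem k1_real2 {R d T X Y n : ℝ} (hR : 0 < R) (hT : 0 ≤ T) (hX : 0 ≤ X) (hY : 0 ≤ Y)
    (h : 5 / 16 * R ^ 2 * n ≤ 24 * (15 / R ^ 2 * T * d ^ 2) + 12 * X + 4 * Y) :
    n ≤ 16 / 5 / R ^ 2 * (360 * d ^ 2 / R ^ 2 + 12) * (T + (X + Y)) := by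
  have e : 16 / 5 / R ^ 2 * (5 / 16 * R ^ 2 * n) = n := by
    field_simp
  have h1 : n ≤ 16 / 5 / R ^ 2 * (24 * (15 / R ^ 2 * T * d ^ 2) + 12 * X + 4 * Y) := by
    calc n = 16 / 5 / R ^ 2 * (5 / 16 * R ^ 2 * n) := e.symm
      _ ≤ _ := mul_le_mul_of_nonneg_left h (by positivity)
  refine le_trans h1 ?_
  have e4 : 16 / 5 / R ^ 2 * (360 * d ^ 2 / R ^ 2 + 12) * (T + (X + Y)) =
    16 / 5 / R ^ 2 * ((360 * d ^ 2 / R ^ 2 + 12) * (T + (X + Y))) := mul_assoc _ _ _
  rw [e4]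
  refine mul_le_mul_of_nonneg_left ?_ (by positivity)
  have hK : 0 ≤ 360 * d ^ 2 / R ^ 2 := by positivity
  have e2 : 24 * (15 / R ^ 2 * T * d ^ 2) = 360 * d ^ 2 / R ^ 2 * T := by ring
  rw [e2]
  have h2 : 0 ≤ 360 * d ^ 2 / R ^ 2 * X := mul_nonneg hK hX
  have h3 : 0 ≤ 360 * d ^ 2 / R ^ 2 * Y := mul_nonneg hK hY
  have e3 : (360 * d ^ 2 / R ^ 2 + 12) * (T + (X + Y)) = 360 * d ^ 2 / R ^ 2 * T +
    360 * d ^ 2 / R ^ 2 * X + 360 * d ^ 2 / R ^ 2 * Y + 12 * T + 12 * X + 12 * Y := by ring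
  rw [e3]
  linarith

/-- the displacement reduced by a rigid motion -/
noncomputable def k1_w (v : E3 → E3) (y0 : E3) (W : M3) (x : E3) : E3 :=
  v x - (v y0 - mact W y0 + mact W x)

theorem k1_w_zero (v : E3 → E3) (y0 : E3) (W : M3) : k1_w v y0 W y0 = 0 := by
  unfold k1_w
  abel

theorem k1_w_sub (v : E3 → E3) (y0 : E3) (W : M3) (x z : E3) :
    k1_w v y0 W x - k1_w v y0 W z = (v x - v z) - mact W (x - z) := by
  rw [k1_mact_sub]
  unfold k1_w
  abel

theorem k1_w_E (v : E3 → E3) (y0 : E3) {W : M3} (hW : W.transpose = -W) (x z : E3) :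
    k1_dt (k1_w v y0 W x) (x - z) = k1_dt (k1_w v y0 W z) (x - z) + k1_E v x z := by
  have h1 : k1_dt (k1_w v y0 W x - k1_w v y0 W z) (x - z) = k1_E v x z := by
    rw [k1_w_sub, k1_dt_sub_left, k1_skew W hW, sub_zero]
    rfl
  rw [k1_dt_sub_left] at h1
  linarith

/-- the values at the vertices -/
theorem k1_vert {R : ℝ} (hR : 0 < R) (v : E3 → E3) (y0 : E3) (y : Fin 3 → E3)
    (hη : ∀ i, ‖(y i - y0) - R • ee i‖ ≤ R / 4) :
    ∃ W : M3, W.transpose = -W ∧ ∀ i, ‖k1_w v y0 W (y i)‖ ^ 2 ≤ 15 / R ^ 2 *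
      (∑ i, k1_E v (y i) y0 ^ 2 + ∑ i, ∑ j, k1_E v (y i) (y j) ^ 2) := by
  obtain ⟨F, hF⟩ := k1_exists_matrix hR (fun i => y i - y0) hη (fun i => v (y i) - v y0)
  refine ⟨(1 / 2 : ℝ) • (F - F.transpose), ?_, ?_⟩
  · rw [Matrix.transpose_smul, Matrix.transpose_sub, Matrix.transpose_transpose, ← smul_neg,
      neg_sub]
  have hmW : ∀ x : E3, mact ((1 / 2 : ℝ) • (F - F.transpose)) x =
      (1 / 2 : ℝ) • (mact F x - mact F.transpose x) := by
    intro x
    ext i
    simp only [mact, Matrix.smul_apply, Matrix.sub_apply, PiLp.smul_apply, PiLp.sub_apply,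
      smul_eq_mul]
    rw [← Finset.sum_sub_distrib, Finset.mul_sum]
    exact Finset.sum_congr rfl fun j _ => by ring
  generalize hWd : (1 / 2 : ℝ) • (F - F.transpose) = W at hmW
  intro i
  have hwy : k1_w v y0 W (y i) =
      (1 / 2 : ℝ) • (mact F (y i - y0) + mact F.transpose (y i - y0)) := by
    have e0 := k1_w_sub v y0 W (y i) y0
    rw [k1_w_zero, sub_zero] at e0
    rw [e0, hmW, ← hF i]
    ext k
    simp only [PiLp.sub_apply, PiLp.smul_apply, PiLp.add_apply, smul_eq_mul]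
    ring
  have hin : ∀ j, k1_dt (y j - y0) (k1_w v y0 W (y i)) =
      (k1_E v (y i) y0 + k1_E v (y j) y0 - k1_E v (y i) (y j)) / 2 := by
    intro j
    have e1 : k1_dt (y j - y0) (k1_w v y0 W (y i)) =
        (k1_dt (v (y i) - v y0) (y j - y0) + k1_dt (v (y j) - v y0) (y i - y0)) / 2 := by
      rw [hwy, ← hF i, ← hF j]
      have e2 : k1_dt (y j - y0)
          ((1 / 2 : ℝ) • (mact F (y i - y0) + mact F.transpose (y i - y0))) =
          (1 / 2) * (k1_dt (mact F (y i - y0)) (y j - y0) +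
            k1_dt (y j - y0) (mact F.transpose (y i - y0))) := by
        unfold k1_dt
        rw [← Finset.sum_add_distrib, Finset.mul_sum]
        exact Finset.sum_congr rfl fun k _ => by
          simp only [PiLp.smul_apply, PiLp.add_apply, smul_eq_mul]
          ring
      rw [e2, ← k1_mact_dt]
      ring
    rw [e1]
    unfold k1_E
    have e3 : y i - y j = (y i - y0) - (y j - y0) := by abel
    have e4 : v (y i) - v (y j) = (v (y i) - v y0) - (v (y j) - v y0) := by abel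
    rw [e3, e4]
    generalize v (y i) - v y0 = p
    generalize v (y j) - v y0 = q
    generalize y i - y0 = s
    generalize y j - y0 = t
    rw [k1_dt_sub_left, k1_dt_sub_right, k1_dt_sub_right]
    ring
  have hT1 : ∀ i, k1_E v (y i) y0 ^ 2 ≤ ∑ i, k1_E v (y i) y0 ^ 2 := fun i =>
    Finset.single_le_sum (f := fun i => k1_E v (y i) y0 ^ 2) (fun i _ => sq_nonneg _)
      (Finset.mem_univ i)
  have hT2 : ∀ i j, k1_E v (y i) (y j) ^ 2 ≤ ∑ i, ∑ j, k1_E v (y i) (y j) ^ 2 := by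
    intro i j
    refine le_trans (Finset.single_le_sum (f := fun j => k1_E v (y i) (y j) ^ 2)
      (fun j _ => sq_nonneg _) (Finset.mem_univ j)) ?_
    exact Finset.single_le_sum (f := fun i => ∑ j, k1_E v (y i) (y j) ^ 2)
      (fun i _ => Finset.sum_nonneg fun j _ => sq_nonneg _) (Finset.mem_univ i)
  have h1 := k1_frame hR (fun i => y i - y0) hη (k1_w v y0 W (y i))
  have h2 : ∀ j, k1_dt (y j - y0) (k1_w v y0 W (y i)) ^ 2 ≤
      3 / 2 * (∑ i, k1_E v (y i) y0 ^ 2 + ∑ i, ∑ j, k1_E v (y i) (y j) ^ 2) := by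
    intro j
    rw [hin j]
    exact k1_real1 (hT1 i) (hT1 j) (hT2 i j)
  have hTn : 0 ≤ ∑ i, k1_E v (y i) y0 ^ 2 + ∑ i, ∑ j, k1_E v (y i) (y j) ^ 2 :=
    add_nonneg (Finset.sum_nonneg fun i _ => sq_nonneg _)
      (Finset.sum_nonneg fun i _ => Finset.sum_nonneg fun j _ => sq_nonneg _)
  generalize ∑ i, k1_E v (y i) y0 ^ 2 + ∑ i, ∑ j, k1_E v (y i) (y j) ^ 2 = T at h2 hTn
  have h3 : ∑ j, k1_dt (y j - y0) (k1_w v y0 W (y i)) ^ 2 ≤ ∑ _j : Fin 3, 3 / 2 * T :=
    Finset.sum_le_sum fun j _ => h2 j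
  rw [Finset.sum_const, Finset.card_univ, Fintype.card_fin, nsmul_eq_mul] at h3
  have h4 : 5 / 16 * R ^ 2 * ‖k1_w v y0 W (y i)‖ ^ 2 ≤ ((3 : ℕ) : ℝ) * (3 / 2 * T) :=
    le_trans h1 h3
  generalize ‖k1_w v y0 W (y i)‖ ^ 2 = n at h4
  rw [div_mul_eq_mul_div, le_div_iff₀ (by positivity)]
  push_cast at h4
  linarith

/-- one step of the estimate at a point -/
theorem k1_step {d K : ℝ} (v : E3 → E3) (y0 : E3) {W : M3} (hW : W.transpose = -W) (x z : E3)
    (hz : ‖x - z‖ ≤ d) (hwz : ‖k1_w v y0 W z‖ ^ 2 ≤ K) :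
    k1_dt (k1_w v y0 W x) (x - z) ^ 2 ≤ 2 * (K * d ^ 2) + 2 * k1_E v x z ^ 2 := by
  have hd2 : ‖x - z‖ ^ 2 ≤ d ^ 2 := pow_le_pow_left₀ (norm_nonneg _) hz 2
  have h1 : k1_dt (k1_w v y0 W z) (x - z) ^ 2 ≤ K * d ^ 2 :=
    le_trans (k1_dt_sq_le _ _)
      (mul_le_mul hwz hd2 (by positivity) (le_trans (by positivity) hwz))
  rw [k1_w_E v y0 hW]
  generalize k1_dt (k1_w v y0 W z) (x - z) = a at h1
  generalize k1_E v x z = b
  have h2 := sq_nonneg (a - b)
  have h3 : (a + b) ^ 2 = 2 * a ^ 2 + 2 * b ^ 2 - (a - b) ^ 2 := by ring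
  rw [h3]
  linarith

/-- The rigid motion of a tetrahedron. -/
theorem k1_point {R d : ℝ} (hR : 0 < R) : ∃ C : ℝ, 0 < C ∧
    ∀ (v : E3 → E3) (y0 : E3) (y : Fin 3 → E3),
      (∀ i, ‖(y i - y0) - R • ee i‖ ≤ R / 4) → ∃ (a : E3) (W : M3), W.transpose = -W ∧
        ∀ x : E3, ‖x - y0‖ ≤ d → (∀ i, ‖x - y i‖ ≤ d) →
          ‖v x - (a + mact W x)‖ ^ 2 ≤ C * ((∑ i, k1_E v (y i) y0 ^ 2 +
            ∑ i, ∑ j, k1_E v (y i) (y j) ^ 2) + (k1_E v x y0 ^ 2 + ∑ i, k1_E v x (y i) ^ 2)) := by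
  refine ⟨16 / 5 / R ^ 2 * (360 * d ^ 2 / R ^ 2 + 12), by positivity, ?_⟩
  intro v y0 y hη
  obtain ⟨W, hWs, hvert⟩ := k1_vert hR v y0 y hη
  refine ⟨v y0 - mact W y0, W, hWs, ?_⟩
  have hTn : 0 ≤ ∑ i, k1_E v (y i) y0 ^ 2 + ∑ i, ∑ j, k1_E v (y i) (y j) ^ 2 :=
    add_nonneg (Finset.sum_nonneg fun i _ => sq_nonneg _)
      (Finset.sum_nonneg fun i _ => Finset.sum_nonneg fun j _ => sq_nonneg _)
  generalize ∑ i, k1_E v (y i) y0 ^ 2 + ∑ i, ∑ j, k1_E v (y i) (y j) ^ 2 = T at hvert hTn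
  intro x hx0 hx
  change ‖k1_w v y0 W x‖ ^ 2 ≤ _
  have hw0' : ‖k1_w v y0 W y0‖ ^ 2 ≤ 15 / R ^ 2 * T := by
    rw [k1_w_zero, norm_zero]
    have : 0 ≤ 15 / R ^ 2 * T := by positivity
    simpa using this
  have h0 := k1_step v y0 hWs x y0 hx0 hw0'
  have hi : ∀ i, k1_dt (k1_w v y0 W x) (x - y i) ^ 2 ≤
      2 * (15 / R ^ 2 * T * d ^ 2) + 2 * k1_E v x (y i) ^ 2 := fun i =>
    k1_step v y0 hWs x (y i) (hx i) (hvert i)
  have hfr := k1_frame hR (fun i => y i - y0) hη (k1_w v y0 W x)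
  have hfr2 : ∀ i, k1_dt (y i - y0) (k1_w v y0 W x) ^ 2 ≤
      2 * k1_dt (k1_w v y0 W x) (x - y0) ^ 2 + 2 * k1_dt (k1_w v y0 W x) (x - y i) ^ 2 := by
    intro i
    have e1 : k1_dt (y i - y0) (k1_w v y0 W x) =
        k1_dt (k1_w v y0 W x) (x - y0) - k1_dt (k1_w v y0 W x) (x - y i) := by
      rw [← k1_dt_sub_right, k1_dt_comm]
      congr 1
      abel
    rw [e1]
    generalize k1_dt (k1_w v y0 W x) (x - y0) = a
    generalize k1_dt (k1_w v y0 W x) (x - y i) = b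
    have := sq_nonneg (a + b)
    have h3 : (a - b) ^ 2 = 2 * a ^ 2 + 2 * b ^ 2 - (a + b) ^ 2 := by ring
    rw [h3]
    linarith
  have hXn : 0 ≤ k1_E v x y0 ^ 2 := sq_nonneg _
  have hYn : 0 ≤ ∑ i, k1_E v x (y i) ^ 2 := Finset.sum_nonneg fun i _ => sq_nonneg _
  refine k1_real2 hR hTn hXn hYn ?_
  refine le_trans hfr ?_
  have hfr3 : ∑ i, k1_dt (y i - y0) (k1_w v y0 W x) ^ 2 ≤
      ∑ i, (2 * (2 * (15 / R ^ 2 * T * d ^ 2) + 2 * k1_E v x y0 ^ 2) +
        2 * (2 * (15 / R ^ 2 * T * d ^ 2) + 2 * k1_E v x (y i) ^ 2)) :=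
    Finset.sum_le_sum fun i _ => by
      have h1 := hi i
      have h2 := hfr2 i
      linarith
  refine le_trans hfr3 (le_of_eq ?_)
  simp only [Fin.sum_univ_three]
  ring

/-! ### The elongation and the line integral of the strain -/

theorem k1_expand (x : E3) : x = ∑ j, x j • ee j := by
  ext i
  have h := congrFun (congrArg (WithLp.ofLp) (rfl : x = x)) i
  simp [Fin.sum_univ_three]
  fin_cases i <;> simp

theorem k1_fderiv_apply (L : E3 →L[ℝ] E3) (h : E3) (i : Fin 3) :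
    L h i = ∑ j, L (ee j) i * h j := by
  conv_lhs => rw [k1_expand h]
  rw [map_sum]
  simp only [map_smul, Fin.sum_univ_three, PiLp.add_apply, PiLp.smul_apply, smul_eq_mul]
  ring

theorem k1_quad (v : E3 → E3) (x h : E3) :
    k1_dt (fderiv ℝ v x h) h = ∑ i, ∑ j, strain v x i j * (h i * h j) := by
  unfold k1_dt
  simp only [k1_fderiv_apply (fderiv ℝ v x) h, strain, Matrix.of_apply, Fin.sum_univ_three]
  ring

theorem k1_quad_sq (v : E3 → E3) (x h : E3) :
    k1_dt (fderiv ℝ v x h) h ^ 2 ≤ ‖h‖ ^ 4 * inn (strain v x) (strain v x) := by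
  rw [k1_quad]
  have h1 : (∑ i, ∑ j, strain v x i j * (h i * h j)) ^ 2 ≤
      (∑ p : Fin 3 × Fin 3, strain v x p.1 p.2 ^ 2) *
        (∑ p : Fin 3 × Fin 3, (h p.1 * h p.2) ^ 2) := by
    rw [← Fintype.sum_prod_type' (f := fun i j => strain v x i j * (h i * h j))]
    exact Finset.sum_mul_sq_le_sq_mul_sq _ _ _
  have h2 : ∑ p : Fin 3 × Fin 3, strain v x p.1 p.2 ^ 2 = inn (strain v x) (strain v x) := by
    rw [Fintype.sum_prod_type]
    unfold inn
    exact Finset.sum_congr rfl fun i _ => Finset.sum_congr rfl fun j _ => sq _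
  have h3 : ∑ p : Fin 3 × Fin 3, (h p.1 * h p.2) ^ 2 = ‖h‖ ^ 4 := by
    have e : ‖h‖ ^ 4 = ‖h‖ ^ 2 * ‖h‖ ^ 2 := by ring
    rw [Fintype.sum_prod_type, e, EuclideanSpace.real_norm_sq_eq, Finset.sum_mul_sum]
    exact Finset.sum_congr rfl fun i _ => Finset.sum_congr rfl fun j _ => by ring
  rw [h2, h3] at h1
  linarith [h1, mul_comm (inn (strain v x) (strain v x)) (‖h‖ ^ 4)]

theorem k1_g_cont {v : E3 → E3} (hv : ContDiff ℝ ∞ v) :
    Continuous fun x => inn (strain v x) (strain v x) := by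
  have h1 : ∀ j i, Continuous fun x => fderiv ℝ v x (ee j) i := by
    intro j i
    have h2 : Continuous fun x => fderiv ℝ v x (ee j) :=
      (hv.continuous_fderiv (by simp)).clm_apply continuous_const
    exact (EuclideanSpace.proj i : E3 →L[ℝ] ℝ).continuous.comp h2
  unfold inn strain
  simp only [Matrix.of_apply]
  refine continuous_finsetSum _ fun i _ => continuous_finsetSum _ fun j _ => ?_
  exact (((h1 j i).add (h1 i j)).div_const 2).mul (((h1 j i).add (h1 i j)).div_const 2)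

theorem k1_g_nonneg (v : E3 → E3) (x : E3) : 0 ≤ inn (strain v x) (strain v x) := by
  unfold inn
  exact Finset.sum_nonneg fun i _ => Finset.sum_nonneg fun j _ => mul_self_nonneg _

theorem k1_cs {f : ℝ → ℝ} (hf : Continuous f) :
    (∫ t in (0 : ℝ)..1, f t) ^ 2 ≤ ∫ t in (0 : ℝ)..1, f t ^ 2 := by
  generalize hc : ∫ t in (0 : ℝ)..1, f t = c
  have h1 : 0 ≤ ∫ t in (0 : ℝ)..1, (f t - c) ^ 2 :=
    intervalIntegral.integral_nonneg zero_le_one fun t _ => sq_nonneg _
  have h2 : ∫ t in (0 : ℝ)..1, (f t - c) ^ 2 =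
      (∫ t in (0 : ℝ)..1, f t ^ 2) - (∫ t in (0 : ℝ)..1, 2 * c * f t) +
        ∫ t in (0 : ℝ)..1, c ^ 2 := by
    rw [← intervalIntegral.integral_sub, ← intervalIntegral.integral_add]
    · exact intervalIntegral.integral_congr fun t _ => by ring
    · exact ((hf.pow 2).sub (continuous_const.mul hf)).intervalIntegrable _ _
    · exact intervalIntegrable_const
    · exact (hf.pow 2).intervalIntegrable _ _
    · exact (continuous_const.mul hf).intervalIntegrable _ _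
  rw [intervalIntegral.integral_const_mul, hc] at h2
  simp only [intervalIntegral.integral_const, sub_zero, one_smul] at h2
  rw [h2] at h1
  nlinarith

theorem k1_dt_cont (h : E3) : Continuous fun x : E3 => k1_dt x h := by
  unfold k1_dt
  refine continuous_finsetSum _ fun i _ => ?_
  exact ((EuclideanSpace.proj i : E3 →L[ℝ] ℝ).continuous).mul continuous_const

theorem k1_line_cont (x y : E3) : Continuous fun t : ℝ => y + t • (x - y) := by fun_prop

theorem k1_E_line {v : E3 → E3} (hv : ContDiff ℝ ∞ v) (x y : E3) :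
    k1_E v x y ^ 2 ≤ ‖x - y‖ ^ 4 *
      ∫ t in (0 : ℝ)..1, inn (strain v (y + t • (x - y))) (strain v (y + t • (x - y))) := by
  have hd : ∀ t : ℝ, HasDerivAt (fun t : ℝ => k1_dt (v (y + t • (x - y))) (x - y))
      (k1_dt (fderiv ℝ v (y + t • (x - y)) (x - y)) (x - y)) t := by
    intro t
    have h1 : HasDerivAt (fun t : ℝ => y + t • (x - y)) (x - y) t := by
      have := ((hasDerivAt_id t).smul_const (x - y)).const_add y
      simpa using this
    have h2 : HasDerivAt (fun t : ℝ => v (y + t • (x - y)))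
        (fderiv ℝ v (y + t • (x - y)) (x - y)) t :=
      ((hv.differentiable (by simp)).differentiableAt.hasFDerivAt).comp_hasDerivAt t h1
    unfold k1_dt
    refine HasDerivAt.fun_sum fun i _ => ?_
    have h3 : HasDerivAt (fun t : ℝ => v (y + t • (x - y)) i)
        (fderiv ℝ v (y + t • (x - y)) (x - y) i) t :=
      ((EuclideanSpace.proj i : E3 →L[ℝ] ℝ).hasFDerivAt).comp_hasDerivAt t h2
    exact h3.mul_const _
  have hc : Continuous fun t : ℝ => k1_dt (fderiv ℝ v (y + t • (x - y)) (x - y)) (x - y) := by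
    refine (k1_dt_cont (x - y)).comp ?_
    exact ((hv.continuous_fderiv (by simp)).comp (k1_line_cont x y)).clm_apply continuous_const
  have hftc := intervalIntegral.integral_eq_sub_of_hasDerivAt (fun t _ => hd t)
    (hc.intervalIntegrable (0 : ℝ) 1)
  have hE : k1_E v x y =
      ∫ t in (0 : ℝ)..1, k1_dt (fderiv ℝ v (y + t • (x - y)) (x - y)) (x - y) := by
    rw [hftc]
    simp only [one_smul, zero_smul, add_zero, add_sub_cancel]
    unfold k1_E
    rw [k1_dt_sub_left]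
  rw [hE]
  refine le_trans (k1_cs hc) ?_
  rw [← intervalIntegral.integral_const_mul]
  refine intervalIntegral.integral_mono_on zero_le_one ((hc.pow 2).intervalIntegrable _ _) ?_ ?_
  · exact (continuous_const.mul ((k1_g_cont hv).comp (k1_line_cont x y))).intervalIntegrable _ _
  · intro t _
    exact k1_quad_sq v _ _

/-- the line integral -/
noncomputable def k1_Gl (G : E3 → ℝ≥0∞) (x y : E3) : ℝ≥0∞ :=
  ∫⁻ t in Set.Ioc (0 : ℝ) 1, G (y + t • (x - y))

/-- the energy density as an extended number -/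
noncomputable def k1_G (v : E3 → E3) (x : E3) : ℝ≥0∞ :=
  ENNReal.ofReal (inn (strain v x) (strain v x))

theorem k1_G_meas {v : E3 → E3} (hv : ContDiff ℝ ∞ v) : Measurable (k1_G v) :=
  ENNReal.measurable_ofReal.comp (k1_g_cont hv).measurable

theorem k1_E_enn {v : E3 → E3} (hv : ContDiff ℝ ∞ v) {d : ℝ} (x y : E3) (hd : ‖x - y‖ ≤ d) :
    ENNReal.ofReal (k1_E v x y ^ 2) ≤ ENNReal.ofReal (d ^ 4) * k1_Gl (k1_G v) x y := by
  have hg : Continuous fun t : ℝ =>
      inn (strain v (y + t • (x - y))) (strain v (y + t • (x - y))) :=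
    (k1_g_cont hv).comp (k1_line_cont x y)
  have h1 : k1_Gl (k1_G v) x y = ENNReal.ofReal
      (∫ t in (0 : ℝ)..1, inn (strain v (y + t • (x - y))) (strain v (y + t • (x - y)))) := by
    rw [intervalIntegral.integral_of_le zero_le_one, ofReal_integral_eq_lintegral_ofReal]
    · rfl
    · exact (hg.intervalIntegrable 0 1).1
    · exact Filter.Eventually.of_forall fun t => k1_g_nonneg v _
  rw [h1, ← ENNReal.ofReal_mul (by positivity)]
  refine ENNReal.ofReal_le_ofReal (le_trans (k1_E_line hv x y) ?_)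
  refine mul_le_mul_of_nonneg_right (pow_le_pow_left₀ (norm_nonneg _) hd 4) ?_
  exact intervalIntegral.integral_nonneg zero_le_one fun t _ => k1_g_nonneg v _

/-! ### Averages of line integrals -/

theorem k1_scale {F : E3 → ℝ≥0∞} (hF : Measurable F) {s : ℝ} (hs : 1 / 2 ≤ s) (b : E3) :
    ∫⁻ x, F (s • x + b) ≤ 8 * ∫⁻ x, F x := by
  have hs0 : 0 < s := by linarith
  have h1 : ∫⁻ x, F (s • x + b) = ∫⁻ z, F (z + b) ∂(Measure.map (s • ·) (volume : Measure E3)) := by
    exact (lintegral_map (f := fun z => F (z + b)) (hF.comp (measurable_add_const b))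
      (measurable_const_smul s)).symm
  rw [h1, Measure.map_addHaar_smul _ hs0.ne', lintegral_smul_measure,
    lintegral_add_right_eq_self (fun z => F z) b, smul_eq_mul]
  refine mul_le_mul_left ?_ _
  have h2 : Module.finrank ℝ E3 = 3 := by simp
  rw [h2, show (8 : ℝ≥0∞) = ENNReal.ofReal 8 by norm_num]
  refine ENNReal.ofReal_le_ofReal ?_
  rw [abs_of_pos (by positivity), inv_le_comm₀ (by positivity) (by norm_num)]
  calc (8 : ℝ)⁻¹ = (1 / 2) ^ 3 := by norm_num
    _ ≤ s ^ 3 := pow_le_pow_left₀ (by norm_num) hs 3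

theorem k1_half {A : Set E3} (hA : Convex ℝ A) (hAm : MeasurableSet A) {G : E3 → ℝ≥0∞}
    (hG : Measurable G) {t : ℝ} (ht : 1 / 2 ≤ t) (ht1 : t ≤ 1) {y : E3} (hy : y ∈ A) :
    ∫⁻ x in A, G (y + t • (x - y)) ≤ 8 * ∫⁻ x in A, G x := by
  rw [← lintegral_indicator hAm, ← lintegral_indicator hAm]
  refine le_trans (lintegral_mono fun x => ?_)
    (k1_scale (hG.indicator hAm) ht ((1 - t) • y))
  by_cases hx : x ∈ A
  · have h1 : t • x + (1 - t) • y ∈ A :=
      hA hx hy (by linarith) (by linarith) (by ring)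
    have h2 : y + t • (x - y) = t • x + (1 - t) • y := by
      rw [smul_sub, sub_smul, one_smul]
      abel
    rw [Set.indicator_of_mem hx, Set.indicator_of_mem h1, h2]
  · rw [Set.indicator_of_notMem hx]
    exact zero_le

theorem k1_H {A : Set E3} (hA : Convex ℝ A) (hAm : MeasurableSet A) {G : E3 → ℝ≥0∞}
    (hG : Measurable G) {t : ℝ} (ht0 : 0 ≤ t) (ht1 : t ≤ 1) :
    ∫⁻ y in A, ∫⁻ x in A, G (y + t • (x - y)) ≤ 8 * (∫⁻ x in A, G x) * volume A := by
  rcases le_total (1 / 2) t with ht | ht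
  · calc ∫⁻ y in A, ∫⁻ x in A, G (y + t • (x - y)) ≤ ∫⁻ _y in A, 8 * ∫⁻ x in A, G x :=
        setLIntegral_mono' hAm fun y hy => k1_half hA hAm hG ht ht1 hy
      _ = 8 * (∫⁻ x in A, G x) * volume A := setLIntegral_const _ _
  · have hm : Measurable (Function.uncurry fun (y x : E3) => G (y + t • (x - y))) := by
      refine hG.comp ?_
      fun_prop
    rw [lintegral_lintegral_swap hm.aemeasurable]
    calc ∫⁻ x in A, ∫⁻ y in A, G (y + t • (x - y)) ≤ ∫⁻ _x in A, 8 * ∫⁻ x in A, G x := by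
          refine setLIntegral_mono' hAm fun x hx => ?_
          have h1 := k1_half hA hAm hG (t := 1 - t) (by linarith) (by linarith) hx
          refine le_trans (le_of_eq ?_) h1
          refine lintegral_congr fun y => ?_
          congr 1
          rw [smul_sub, smul_sub, sub_smul, sub_smul, one_smul, one_smul]
          abel
      _ = 8 * (∫⁻ x in A, G x) * volume A := setLIntegral_const _ _

theorem k1_meas3 {G : E3 → ℝ≥0∞} (hG : Measurable G) :
    Measurable fun p : (E3 × ℝ) × E3 => G (p.1.1 + p.1.2 • (p.2 - p.1.1)) := by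
  refine hG.comp ?_
  fun_prop

theorem k1_Gl_meas {G : E3 → ℝ≥0∞} (hG : Measurable G) :
    Measurable fun p : E3 × E3 => k1_Gl G p.1 p.2 := by
  unfold k1_Gl
  have h : Measurable fun q : (E3 × E3) × ℝ => G (q.1.2 + q.2 • (q.1.1 - q.1.2)) := by
    refine hG.comp ?_
    fun_prop
  exact h.lintegral_prod_right'

theorem k1_total {A : Set E3} (hA : Convex ℝ A) (hAm : MeasurableSet A) {G : E3 → ℝ≥0∞}
    (hG : Measurable G) :
    ∫⁻ y in A, ∫⁻ x in A, k1_Gl G x y ≤ 8 * (∫⁻ x in A, G x) * volume A := by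
  have h1 : ∀ y : E3, ∫⁻ x in A, k1_Gl G x y =
      ∫⁻ t in Set.Ioc (0 : ℝ) 1, ∫⁻ x in A, G (y + t • (x - y)) := by
    intro y
    unfold k1_Gl
    have hm : Measurable (Function.uncurry fun (x : E3) (t : ℝ) => G (y + t • (x - y))) := by
      refine hG.comp ?_
      fun_prop
    exact lintegral_lintegral_swap hm.aemeasurable
  simp only [h1]
  have hm2 : Measurable (Function.uncurry fun (y : E3) (t : ℝ) =>
      ∫⁻ x in A, G (y + t • (x - y))) := (k1_meas3 hG).lintegral_prod_right'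
  rw [lintegral_lintegral_swap hm2.aemeasurable]
  calc ∫⁻ t in Set.Ioc (0 : ℝ) 1, ∫⁻ y in A, ∫⁻ x in A, G (y + t • (x - y)) ≤
      ∫⁻ _t in Set.Ioc (0 : ℝ) 1, 8 * (∫⁻ x in A, G x) * volume A :=
        setLIntegral_mono' measurableSet_Ioc fun t ht => k1_H hA hAm hG ht.1.le ht.2
    _ = 8 * (∫⁻ x in A, G x) * volume A := by
        rw [setLIntegral_const]
        simp

/-! ### The choice of the vertices -/

theorem k1_choose {A B : Set E3} (hB : MeasurableSet B) (hBA : B ⊆ A) (h0 : volume B ≠ 0)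
    (h1 : volume B ≠ ⊤) {f : E3 → ℝ≥0∞} (hf : Measurable f) :
    ∃ y ∈ B, f y ≤ (volume B)⁻¹ * ∫⁻ x in A, f x := by
  obtain ⟨y, hy, h⟩ := exists_le_setLAverage h0 h1 hf.aemeasurable.restrict
  refine ⟨y, hy, le_trans h ?_⟩
  rw [setLAverage_eq, ENNReal.div_eq_inv_mul]
  exact mul_le_mul_right (lintegral_mono_set hBA) _

theorem k1_l1 (A : Set E3) {f g : E3 → ℝ≥0∞} (hf : Measurable f) :
    ∫⁻ x in A, (f x + g x) = (∫⁻ x in A, f x) + (∫⁻ x in A, g x) :=
  lintegral_add_left hf g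

theorem k1_l2 (A : Set E3) {f g h : E3 → ℝ≥0∞} (hf : Measurable f) (hg : Measurable g) :
    ∫⁻ x in A, (f x + g x + h x) =
      (∫⁻ x in A, f x) + (∫⁻ x in A, g x) + (∫⁻ x in A, h x) := by
  rw [k1_l1 A (f := fun x => f x + g x) (hf.add hg), k1_l1 A hf]

theorem k1_l3 (A : Set E3) {f g h k : E3 → ℝ≥0∞} (hf : Measurable f) (hg : Measurable g)
    (hh : Measurable h) :
    ∫⁻ x in A, (f x + g x + h x + k x) =
      (∫⁻ x in A, f x) + (∫⁻ x in A, g x) + (∫⁻ x in A, h x) + (∫⁻ x in A, k x) := by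
  rw [k1_l1 A (f := fun x => f x + g x + h x) ((hf.add hg).add hh), k1_l2 A hf hg]

/-- The vertices `y 0, y 1, y 2, y 3`. -/
theorem k1_vertices {A : Set E3} (hA : Convex ℝ A) (hAm : MeasurableSet A)
    (B : Fin 4 → Set E3) (hB : ∀ i, MeasurableSet (B i)) (hBA : ∀ i, B i ⊆ A)
    (h0 : ∀ i, volume (B i) ≠ 0) (hAf : volume A ≠ ⊤) :
    ∃ K : ℝ≥0∞, K ≠ ⊤ ∧ ∀ G : E3 → ℝ≥0∞, Measurable G → ∃ y : Fin 4 → E3, (∀ i, y i ∈ B i) ∧
      (∀ i, ∫⁻ x in A, k1_Gl G x (y i) ≤ K * ∫⁻ x in A, G x) ∧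
      (∀ i j, j < i → k1_Gl G (y i) (y j) ≤ K * ∫⁻ x in A, G x) := by
  have h1 : ∀ i, volume (B i) ≠ ⊤ := fun i =>
    ne_top_of_le_ne_top hAf (measure_mono (hBA i))
  have h0' : ∀ i, (volume (B i))⁻¹ ≠ ⊤ := fun i => ENNReal.inv_ne_top.2 (h0 i)
  set M : ℝ≥0∞ := 8 * volume A with hM
  have hMf : M ≠ ⊤ := ENNReal.mul_ne_top (by norm_num) hAf
  set c0 : ℝ≥0∞ := (volume (B 0))⁻¹ * M with hc0
  have hc0f : c0 ≠ ⊤ := ENNReal.mul_ne_top (h0' 0) hMf
  set c1 : ℝ≥0∞ := (volume (B 1))⁻¹ * (M + c0) with hc1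
  have hc1f : c1 ≠ ⊤ := ENNReal.mul_ne_top (h0' 1) (ENNReal.add_ne_top.2 ⟨hMf, hc0f⟩)
  set c2 : ℝ≥0∞ := (volume (B 2))⁻¹ * (M + c0 + c1) with hc2
  have hc2f : c2 ≠ ⊤ := ENNReal.mul_ne_top (h0' 2)
    (ENNReal.add_ne_top.2 ⟨ENNReal.add_ne_top.2 ⟨hMf, hc0f⟩, hc1f⟩)
  set c3 : ℝ≥0∞ := (volume (B 3))⁻¹ * (M + c0 + c1 + c2) with hc3
  have hc3f : c3 ≠ ⊤ := ENNReal.mul_ne_top (h0' 3)
    (ENNReal.add_ne_top.2 ⟨ENNReal.add_ne_top.2 ⟨ENNReal.add_ne_top.2 ⟨hMf, hc0f⟩, hc1f⟩, hc2f⟩)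
  refine ⟨c0 + c1 + c2 + c3, ?_, ?_⟩
  · simp only [ne_eq, ENNReal.add_eq_top, not_or]
    exact ⟨⟨⟨hc0f, hc1f⟩, hc2f⟩, hc3f⟩
  intro G hG
  have hJm : Measurable fun y => ∫⁻ x in A, k1_Gl G x y :=
    ((k1_Gl_meas hG).comp measurable_swap).lintegral_prod_right'
  have hLm : ∀ z, Measurable fun y => k1_Gl G y z := fun z =>
    (k1_Gl_meas hG).comp (measurable_id.prodMk measurable_const)
  have htot : ∫⁻ y in A, ∫⁻ x in A, k1_Gl G x y ≤ M * ∫⁻ x in A, G x := by
    refine le_trans (k1_total hA hAm hG) (le_of_eq ?_)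
    rw [hM]
    ring
  generalize hI : ∫⁻ x in A, G x = I at htot
  obtain ⟨y0, hy0, hb0⟩ := k1_choose (hB 0) (hBA 0) (h0 0) (h1 0) hJm
  have hb0' : ∫⁻ x in A, k1_Gl G x y0 ≤ c0 * I := by
    refine le_trans hb0 ?_
    rw [hc0, mul_assoc]
    exact mul_le_mul_right htot _
  obtain ⟨y1, hy1, hb1⟩ := k1_choose (hB 1) (hBA 1) (h0 1) (h1 1) (hJm.add (hLm y0))
  have hb1' : (∫⁻ x in A, k1_Gl G x y1) + k1_Gl G y1 y0 ≤ c1 * I := by
    refine le_trans hb1 ?_
    rw [hc1, mul_assoc]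
    refine mul_le_mul_right ?_ _
    simp only [Pi.add_apply]
    rw [k1_l1 A hJm, add_mul]
    exact add_le_add htot hb0'
  obtain ⟨y2, hy2, hb2⟩ := k1_choose (hB 2) (hBA 2) (h0 2) (h1 2)
    ((hJm.add (hLm y0)).add (hLm y1))
  have hb2' : (∫⁻ x in A, k1_Gl G x y2) + k1_Gl G y2 y0 + k1_Gl G y2 y1 ≤ c2 * I := by
    refine le_trans hb2 ?_
    rw [hc2, mul_assoc]
    refine mul_le_mul_right ?_ _
    simp only [Pi.add_apply]
    rw [k1_l2 A hJm (hLm y0), add_mul, add_mul]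
    exact add_le_add (add_le_add htot hb0') (le_trans le_self_add hb1')
  obtain ⟨y3, hy3, hb3⟩ := k1_choose (hB 3) (hBA 3) (h0 3) (h1 3)
    (((hJm.add (hLm y0)).add (hLm y1)).add (hLm y2))
  have hb3' : (∫⁻ x in A, k1_Gl G x y3) + k1_Gl G y3 y0 + k1_Gl G y3 y1 + k1_Gl G y3 y2 ≤
      c3 * I := by
    refine le_trans hb3 ?_
    rw [hc3, mul_assoc]
    refine mul_le_mul_right ?_ _
    simp only [Pi.add_apply]
    rw [k1_l3 A hJm (hLm y0) (hLm y1), add_mul, add_mul, add_mul]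
    refine add_le_add (add_le_add (add_le_add htot hb0') (le_trans le_self_add hb1')) ?_
    exact le_trans (le_trans le_self_add le_self_add) hb2'
  have k0 : c0 * I ≤ (c0 + c1 + c2 + c3) * I :=
    mul_le_mul_left (le_trans (le_trans le_self_add le_self_add) le_self_add) _
  have k1 : c1 * I ≤ (c0 + c1 + c2 + c3) * I :=
    mul_le_mul_left (le_trans (le_trans le_add_self le_self_add) le_self_add) _
  have k2 : c2 * I ≤ (c0 + c1 + c2 + c3) * I :=
    mul_le_mul_left (le_trans le_add_self le_self_add) _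
  have k3 : c3 * I ≤ (c0 + c1 + c2 + c3) * I := mul_le_mul_left le_add_self _
  refine ⟨![y0, y1, y2, y3], ?_, ?_, ?_⟩
  · intro i
    fin_cases i
    · exact hy0
    · exact hy1
    · exact hy2
    · exact hy3
  · intro i
    fin_cases i
    · exact le_trans hb0' k0
    · exact le_trans (le_trans le_self_add hb1') k1
    · exact le_trans (le_trans (le_trans le_self_add le_self_add) hb2') k2
    · exact le_trans (le_trans (le_trans (le_trans le_self_add le_self_add) le_self_add) hb3') k3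
  · intro i j hij
    fin_cases i <;> fin_cases j <;> first
      | exact absurd hij (by decide)
      | exact le_trans (le_trans le_add_self hb1') k1
      | exact le_trans (le_trans (le_trans le_add_self le_self_add) hb2') k2
      | exact le_trans (le_trans le_add_self hb2') k2
      | exact le_trans (le_trans (le_trans (le_trans le_add_self le_self_add) le_self_add) hb3') k3
      | exact le_trans (le_trans (le_trans le_add_self le_self_add) hb3') k3
      | exact le_trans (le_trans le_add_self hb3') k3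

/-! ### The inequality -/

theorem k1_mact_cont (W : M3) : Continuous fun x : E3 => mact W x := by
  unfold mact
  refine (PiLp.continuous_toLp 2 _).comp ?_
  refine continuous_pi fun i => continuous_finsetSum _ fun j _ => ?_
  exact continuous_const.mul ((EuclideanSpace.proj j : E3 →L[ℝ] ℝ).continuous)

theorem k1_sum_le {K : ℝ≥0∞} {f : Fin 3 → ℝ≥0∞} (h : ∀ i, f i ≤ K) : ∑ i, f i ≤ 3 * K := by
  calc ∑ i, f i ≤ ∑ _i : Fin 3, K := Finset.sum_le_sum fun i _ => h i
    _ = 3 * K := by simp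

theorem kp_convex (A : Set E3) (h1 : Convex ℝ A) (h2 : IsOpen A) (h3 : Bornology.IsBounded A)
    (h4 : A.Nonempty) : KPI A := by
  obtain ⟨a0, ha0⟩ := h4
  obtain ⟨r, hr, hrA⟩ := Metric.isOpen_iff.1 h2 a0 ha0
  -- the diameter
  obtain ⟨d, hd⟩ : ∃ d : ℝ, ∀ x ∈ A, ∀ y ∈ A, ‖x - y‖ ≤ d := by
    obtain ⟨d, hd⟩ := h3.exists_norm_le
    refine ⟨2 * d, fun x hx y hy => ?_⟩
    have := norm_sub_le x y
    have := hd x hx
    have := hd y hy
    linarith
  set R : ℝ := r / 2 with hR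
  have hR0 : 0 < R := by positivity
  obtain ⟨C, hC, hpt⟩ := k1_point (d := d) hR0
  -- the balls
  let p : Fin 4 → E3 := ![a0, a0 + R • ee 0, a0 + R • ee 1, a0 + R • ee 2]
  have hp : ∀ i, ‖p i - a0‖ ≤ R := by
    intro i
    fin_cases i <;> simp [p, hR0.le, norm_smul, abs_of_pos hR0]
  have hBA : ∀ i, Metric.ball (p i) (R / 8) ⊆ A := by
    intro i x hx
    refine hrA ?_
    rw [Metric.mem_ball, dist_eq_norm] at hx ⊢
    have e : x - a0 = (x - p i) + (p i - a0) := by abel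
    rw [e]
    refine lt_of_le_of_lt (norm_add_le _ _) ?_
    have := hp i
    linarith
  have hAm : MeasurableSet A := h2.measurableSet
  have hAf : volume A ≠ ⊤ := h3.measure_lt_top.ne
  obtain ⟨K, hK, hv⟩ := k1_vertices h1 hAm (fun i => Metric.ball (p i) (R / 8))
    (fun i => measurableSet_ball) hBA
    (fun i => (Metric.measure_ball_pos volume (p i) (by positivity)).ne') hAf
  set K' : ℝ≥0∞ := ENNReal.ofReal C * (ENNReal.ofReal (d ^ 4) *
    ((3 * K + 3 * (3 * K)) * volume A + (K + 3 * K))) with hK'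
  have hK'f : K' ≠ ⊤ := by
    have a1 : 3 * K ≠ ⊤ := ENNReal.mul_ne_top (by norm_num) hK
    have a2 : 3 * (3 * K) ≠ ⊤ := ENNReal.mul_ne_top (by norm_num) a1
    exact ENNReal.mul_ne_top ENNReal.ofReal_ne_top (ENNReal.mul_ne_top ENNReal.ofReal_ne_top
      (ENNReal.add_ne_top.2 ⟨ENNReal.mul_ne_top (ENNReal.add_ne_top.2 ⟨a1, a2⟩) hAf,
        ENNReal.add_ne_top.2 ⟨hK, a1⟩⟩))
  refine ⟨K'.toReal + 1, by positivity, ?_⟩
  intro v hvd
  obtain ⟨q, hqB, hq1, hq2⟩ := hv (k1_G v) (k1_G_meas hvd)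
  have hqA : ∀ i, q i ∈ A := fun i => hBA i (hqB i)
  obtain ⟨a, W, hW, hest⟩ := hpt v (q 0) (fun i => q i.succ) (by
    intro i
    have e1 := hqB i.succ
    have e0 := hqB 0
    rw [Metric.mem_ball, dist_eq_norm] at e1 e0
    have hpi : p i.succ = a0 + R • ee i := by
      fin_cases i <;> rfl
    have hp0 : p 0 = a0 := rfl
    rw [hpi] at e1
    rw [hp0] at e0
    have e : q i.succ - q 0 - R • ee i = (q i.succ - (a0 + R • ee i)) - (q 0 - a0) := by abel
    rw [e]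
    refine le_trans (norm_sub_le _ _) ?_
    linarith)
  refine ⟨a, W, hW, ?_⟩
  set I : ℝ≥0∞ := ∫⁻ x in A, k1_G v x with hI
  -- the pointwise bound
  have hGl : ∀ i j, i ≠ j → k1_E v (q i) (q j) ^ 2 = k1_E v (q j) (q i) ^ 2 := fun i j _ => by
    rw [k1_E_comm]
  have hE : ∀ i j, ENNReal.ofReal (k1_E v (q i) (q j) ^ 2) ≤
      ENNReal.ofReal (d ^ 4) * (K * I) := by
    intro i j
    rcases lt_trichotomy i j with hij | hij | hij
    · rw [k1_E_comm]
      exact le_trans (k1_E_enn hvd _ _ (hd _ (hqA j) _ (hqA i)))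
        (mul_le_mul_right (hq2 j i hij) _)
    · rw [hij, k1_E_self]
      simp
    · exact le_trans (k1_E_enn hvd _ _ (hd _ (hqA i) _ (hqA j)))
        (mul_le_mul_right (hq2 i j hij) _)
  set D : ℝ≥0∞ := ENNReal.ofReal (d ^ 4) with hD
  have hEx : ∀ x ∈ A, ∀ i, ENNReal.ofReal (k1_E v x (q i) ^ 2) ≤
      D * k1_Gl (k1_G v) x (q i) := fun x hx i =>
    k1_E_enn hvd _ _ (hd _ hx _ (hqA i))
  have hbound : ∀ x ∈ A, ENNReal.ofReal (‖v x - (a + mact W x)‖ ^ 2) ≤
      ENNReal.ofReal C * ((3 * (D * (K * I)) + 3 * (3 * (D * (K * I)))) +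
        (D * k1_Gl (k1_G v) x (q 0) + ∑ i : Fin 3, D * k1_Gl (k1_G v) x (q i.succ))) := by
    intro x hx
    have e1 := hest x (hd _ hx _ (hqA 0)) (fun i => hd _ hx _ (hqA _))
    refine le_trans (ENNReal.ofReal_le_ofReal e1) ?_
    rw [ENNReal.ofReal_mul hC.le]
    refine mul_le_mul_right ?_ _
    refine le_trans ENNReal.ofReal_add_le (add_le_add ?_ ?_)
    · refine le_trans ENNReal.ofReal_add_le (add_le_add ?_ ?_)
      · rw [ENNReal.ofReal_sum_of_nonneg fun i _ => sq_nonneg _]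
        exact k1_sum_le fun i => hE _ _
      · rw [ENNReal.ofReal_sum_of_nonneg fun i _ => Finset.sum_nonneg fun j _ => sq_nonneg _]
        refine k1_sum_le fun i => ?_
        rw [ENNReal.ofReal_sum_of_nonneg fun i _ => sq_nonneg _]
        exact k1_sum_le fun j => hE _ _
    · refine le_trans ENNReal.ofReal_add_le (add_le_add (hEx x hx 0) ?_)
      rw [ENNReal.ofReal_sum_of_nonneg fun i _ => sq_nonneg _]
      exact Finset.sum_le_sum fun i _ => hEx x hx _
  have hLm : ∀ z, Measurable fun x => D * k1_Gl (k1_G v) x z := fun z =>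
    ((k1_Gl_meas (k1_G_meas hvd)).comp (measurable_id.prodMk measurable_const)).const_mul D
  have hL0 : ∀ i, ∫⁻ x in A, D * k1_Gl (k1_G v) x (q i) ≤ D * (K * I) := by
    intro i
    rw [lintegral_const_mul' _ _ ENNReal.ofReal_ne_top]
    exact mul_le_mul_right (hq1 i) _
  have hint : ∫⁻ x in A, ENNReal.ofReal (‖v x - (a + mact W x)‖ ^ 2) ≤ K' * I := by
    refine le_trans (setLIntegral_mono' hAm hbound) ?_
    rw [lintegral_const_mul' _ _ ENNReal.ofReal_ne_top, k1_l1 A measurable_const,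
      k1_l1 A (hLm (q 0)), lintegral_finsetSum _ fun i _ => hLm _, setLIntegral_const]
    have e : K' * I = ENNReal.ofReal C * ((3 * (D * (K * I)) + 3 * (3 * (D * (K * I)))) * volume A +
        (D * (K * I) + 3 * (D * (K * I)))) := by
      rw [hK']
      ring
    rw [e]
    refine mul_le_mul_right (add_le_add le_rfl (add_le_add (hL0 0) ?_)) _
    exact k1_sum_le fun i => hL0 _
  -- conversion to real integrals
  have hgc := k1_g_cont hvd
  have hwc : Continuous fun x => ‖v x - (a + mact W x)‖ ^ 2 :=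
    (hvd.continuous.sub (continuous_const.add (k1_mact_cont W))).norm.pow 2
  have hIf : I ≠ ⊤ := by
    have h5 : IntegrableOn (fun x => inn (strain v x) (strain v x)) A := by
      refine IntegrableOn.mono_set (t := closure A) ?_ subset_closure
      exact hgc.continuousOn.integrableOn_compact h3.isCompact_closure
    rw [hI]
    have h6 := h5.2
    have h7 : ∫⁻ x in A, k1_G v x = ∫⁻ x in A, ‖inn (strain v x) (strain v x)‖ₑ := by
      refine lintegral_congr fun x => ?_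
      rw [Real.enorm_of_nonneg (k1_g_nonneg v x)]
      rfl
    rw [h7]
    exact h6.ne
  rw [integral_eq_lintegral_of_nonneg_ae (Filter.Eventually.of_forall fun x => sq_nonneg _)
    hwc.aestronglyMeasurable, integral_eq_lintegral_of_nonneg_ae
    (Filter.Eventually.of_forall fun x => k1_g_nonneg v x) hgc.aestronglyMeasurable]
  change (∫⁻ x in A, ENNReal.ofReal (‖v x - (a + mact W x)‖ ^ 2)).toReal ≤
    (K'.toReal + 1) * I.toReal
  calc (∫⁻ x in A, ENNReal.ofReal (‖v x - (a + mact W x)‖ ^ 2)).toReal ≤ (K' * I).toReal :=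
        ENNReal.toReal_mono (ENNReal.mul_ne_top hK'f hIf) hint
    _ = K'.toReal * I.toReal := ENNReal.toReal_mul
    _ ≤ (K'.toReal + 1) * I.toReal :=
        mul_le_mul_of_nonneg_right (by linarith) ENNReal.toReal_nonneg

end Pool.Agent.ShearComposite.D3
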