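import Pool.Agent.ShearComposite3.Alg
import Pool.Agent.ShearComposite3.KPconvex

/-!
# Rotating a void a little
-/

set_option autoImplicit false

open MeasureTheory Metric
open scoped ContDiff

namespace Pool.Agent.ShearComposite.D3

/-! ### the twist map -/

/-- cutoff as a function of the square of the norm -/
noncomputable def r1f (s : ℝ) : ℝ := Real.smoothTransition ((9 - s) / 5)

theorem r1f_smooth : ContDiff ℝ ∞ r1f :=
  Real.smoothTransition.contDiff.comp ((contDiff_const.sub contDiff_id).div_const _)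

theorem r1f_one {s : ℝ} (h : s ≤ 4) : r1f s = 1 :=
  Real.smoothTransition.one_of_one_le (by rw [le_div_iff₀ (by norm_num)]; linarith)

theorem r1f_zero {s : ℝ} (h : 9 ≤ s) : r1f s = 0 :=
  Real.smoothTransition.zero_of_nonpos (div_nonpos_of_nonpos_of_nonneg (by linarith) (by norm_num))

/-- square of the norm -/
def r1q (y : E3) : ℝ := y 0 ^ 2 + y 1 ^ 2 + y 2 ^ 2

theorem r1q_eq (y : E3) : r1q y = ‖y‖ ^ 2 := by
  rw [EuclideanSpace.real_norm_sq_eq, Fin.sum_univ_three]
  rfl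

theorem r1_coord_smooth (i : Fin 3) : ContDiff ℝ ∞ (fun y : E3 => y i) :=
  (EuclideanSpace.proj i : E3 →L[ℝ] ℝ).contDiff

theorem r1q_smooth : ContDiff ℝ ∞ r1q :=
  (((r1_coord_smooth 0).pow 2).add ((r1_coord_smooth 1).pow 2)).add ((r1_coord_smooth 2).pow 2)

/-- angle -/
noncomputable def r1t (p : ℝ × E3) : ℝ := p.1 * r1f (r1q p.2)

theorem r1t_smooth : ContDiff ℝ ∞ r1t :=
  contDiff_fst.mul ((r1f_smooth.comp r1q_smooth).comp contDiff_snd)

/-- components of the twist -/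
noncomputable def r1c (k : Fin 3) (p : ℝ × E3) : ℝ :=
  ![Real.cos (r1t p) * p.2 0 + Real.sin (r1t p) * p.2 1,
    -Real.sin (r1t p) * p.2 0 + Real.cos (r1t p) * p.2 1, p.2 2] k

theorem r1_coord2_smooth (i : Fin 3) : ContDiff ℝ ∞ (fun p : ℝ × E3 => p.2 i) :=
  (r1_coord_smooth i).comp contDiff_snd

theorem r1c_smooth (k : Fin 3) : ContDiff ℝ ∞ (r1c k) := by
  have h0 := r1_coord2_smooth 0
  have h1 := r1_coord2_smooth 1
  have h2 := r1_coord2_smooth 2
  have hc : ContDiff ℝ ∞ (fun p => Real.cos (r1t p)) := Real.contDiff_cos.comp r1t_smooth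
  have hs : ContDiff ℝ ∞ (fun p => Real.sin (r1t p)) := Real.contDiff_sin.comp r1t_smooth
  fin_cases k
  · exact (hc.mul h0).add (hs.mul h1)
  · exact (hs.neg.mul h0).add (hc.mul h1)
  · exact h2

/-- the twist -/
noncomputable def r1P (α : ℝ) (y : E3) : E3 := mk3 fun k => r1c k (α, y)

theorem r1P_apply (α : ℝ) (y : E3) (k : Fin 3) : r1P α y k = r1c k (α, y) := rfl

theorem r1_mk3_smooth {f : Fin 3 → E3 → ℝ} (hf : ∀ k, ContDiff ℝ ∞ (f k)) :
    ContDiff ℝ ∞ (fun y => mk3 fun k => f k y) := by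
  rw [contDiff_euclidean]
  exact hf

theorem r1_slice {g : ℝ × E3 → ℝ} (hg : ContDiff ℝ ∞ g) (α : ℝ) :
    ContDiff ℝ ∞ (fun y => g (α, y)) :=
  hg.comp (contDiff_const.prodMk contDiff_id)

theorem r1P_smooth (α : ℝ) : ContDiff ℝ ∞ (r1P α) :=
  r1_mk3_smooth fun k => r1_slice (r1c_smooth k) α

theorem r1q_P (α : ℝ) (y : E3) : r1q (r1P α y) = r1q y := by
  have h := Real.sin_sq_add_cos_sq (r1t (α, y))
  simp only [r1q, r1P_apply, r1c, Matrix.cons_val_zero, Matrix.cons_val_one, Matrix.cons_val]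
  linear_combination (y 0 ^ 2 + y 1 ^ 2) * h

theorem r1P_norm (α : ℝ) (y : E3) : ‖r1P α y‖ = ‖y‖ := by
  have h := r1q_P α y
  rw [r1q_eq, r1q_eq] at h
  exact (sq_eq_sq₀ (norm_nonneg _) (norm_nonneg _)).1 h

theorem r1P_inv (α : ℝ) (y : E3) : r1P (-α) (r1P α y) = y := by
  have hq := r1q_P α y
  have ht : r1t (-α, r1P α y) = -r1t (α, y) := by simp [r1t, hq]
  have h := Real.sin_sq_add_cos_sq (r1t (α, y))
  ext k
  fin_cases k
  · change Real.cos (r1t (-α, r1P α y)) * (r1P α y) 0 + Real.sin (r1t (-α, r1P α y)) * (r1P α y) 1 = y 0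
    rw [ht, Real.cos_neg, Real.sin_neg]
    simp only [r1P_apply, r1c, Matrix.cons_val_zero, Matrix.cons_val_one]
    linear_combination (y 0) * h
  · change -Real.sin (r1t (-α, r1P α y)) * (r1P α y) 0 + Real.cos (r1t (-α, r1P α y)) * (r1P α y) 1 = y 1
    rw [ht, Real.cos_neg, Real.sin_neg]
    simp only [r1P_apply, r1c, Matrix.cons_val_zero, Matrix.cons_val_one]
    linear_combination (y 1) * h
  · rfl

theorem r1P_bij (α : ℝ) : Function.Bijective (r1P α) := by
  refine Function.bijective_iff_has_inverse.2 ⟨r1P (-α), r1P_inv α, fun y => ?_⟩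
  have := r1P_inv (-α) y
  rwa [neg_neg] at this

theorem r1P_far (α : ℝ) (y : E3) (h : 3 ≤ ‖y‖) : r1P α y = y := by
  have h9 : 9 ≤ r1q y := by rw [r1q_eq]; nlinarith
  have ht : r1t (α, y) = 0 := by simp [r1t, r1f_zero h9]
  ext k
  rw [r1P_apply, r1c, ht]
  fin_cases k <;> simp

theorem r1P_near (α : ℝ) (y : E3) (h : ‖y‖ ≤ 2) : r1P α y = mact (RZ (-α)) y := by
  have h4 : r1q y ≤ 4 := by rw [r1q_eq]; nlinarith [norm_nonneg y]
  have ht : r1t (α, y) = α := by simp [r1t, r1f_one h4]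
  ext k
  rw [r1P_apply, r1c, ht]
  fin_cases k <;> simp [mact, RZ, Fin.sum_univ_three]

theorem r1P_RZ (α : ℝ) (y : E3) (h : ‖y‖ ≤ 2) : r1P α (mact (RZ α) y) = y := by
  have h1 : mact (RZ α) y = r1P (-α) y := by rw [r1P_near _ _ h, neg_neg]
  rw [h1]
  have := r1P_inv (-α) y
  rwa [neg_neg] at this

/-! ### the Jacobian -/

noncomputable abbrev r1pr (i : Fin 3) : E3 →L[ℝ] ℝ := EuclideanSpace.proj i

theorem r1_hasq (y : E3) : HasFDerivAt r1q
    ((2 * y 0) • r1pr 0 + (2 * y 1) • r1pr 1 + (2 * y 2) • r1pr 2) y := by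
  have h : ∀ i : Fin 3, HasFDerivAt (fun z : E3 => z i ^ 2) ((2 * y i) • r1pr i) y := by
    intro i
    have h1 : HasFDerivAt (fun z : E3 => z i) (r1pr i) y := (r1pr i).hasFDerivAt
    have h2 := h1.pow 2
    refine h2.congr_fderiv ?_
    ext z
    simp
  exact ((h 0).add (h 1)).add (h 2)

theorem r1_hast (α : ℝ) (y : E3) : HasFDerivAt (fun z => r1t (α, z))
    ((α * deriv r1f (r1q y) * 2) • (y 0 • r1pr 0 + y 1 • r1pr 1 + y 2 • r1pr 2)) y := by
  have h1 : HasDerivAt r1f (deriv r1f (r1q y)) (r1q y) :=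
    (r1f_smooth.differentiable (by simp) _).hasDerivAt
  have h2 := (h1.comp_hasFDerivAt y (r1_hasq y)).const_mul α
  refine h2.congr_fderiv ?_
  ext z
  simp
  ring

theorem r1_ee (i j : Fin 3) : (ee j) i = if i = j then (1:ℝ) else 0 := by
  simp

theorem r1_has0 (α : ℝ) (y : E3) (D : E3 →L[ℝ] ℝ) (hD : HasFDerivAt (fun z => r1t (α, z)) D y) :
    HasFDerivAt (fun z => r1c 0 (α, z)) ((r1c 1 (α, y)) • D + (Real.cos (r1t (α, y))) • r1pr 0
      + (Real.sin (r1t (α, y))) • r1pr 1) y := by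
  have h0 : HasFDerivAt (fun z : E3 => z 0) (r1pr 0) y := (r1pr 0).hasFDerivAt
  have h1 : HasFDerivAt (fun z : E3 => z 1) (r1pr 1) y := (r1pr 1).hasFDerivAt
  have h2 := (hD.cos.mul h0).add (hD.sin.mul h1)
  refine h2.congr_fderiv ?_
  ext z
  simp [r1c]
  ring

theorem r1_has1 (α : ℝ) (y : E3) (D : E3 →L[ℝ] ℝ) (hD : HasFDerivAt (fun z => r1t (α, z)) D y) :
    HasFDerivAt (fun z => r1c 1 (α, z)) (-(r1c 0 (α, y)) • D - (Real.sin (r1t (α, y))) • r1pr 0
      + (Real.cos (r1t (α, y))) • r1pr 1) y := by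
  have h0 : HasFDerivAt (fun z : E3 => z 0) (r1pr 0) y := (r1pr 0).hasFDerivAt
  have h1 : HasFDerivAt (fun z : E3 => z 1) (r1pr 1) y := (r1pr 1).hasFDerivAt
  have h2 := (hD.sin.neg.mul h0).add (hD.cos.mul h1)
  refine h2.congr_fderiv ?_
  ext z
  simp [r1c]
  ring

/-- the derivative of the twist has determinant one -/
theorem r1_det (α : ℝ) (y : E3) : (fderiv ℝ (r1P α) y).det = 1 := by
  have hP : HasFDerivAt (r1P α) (fderiv ℝ (r1P α) y) y :=
    ((r1P_smooth α).differentiable (by simp) y).hasFDerivAt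
  have hk : ∀ k, HasFDerivAt (fun z => r1c k (α, z)) ((r1pr k).comp (fderiv ℝ (r1P α) y)) y :=
    fun k => ((r1pr k).hasFDerivAt).comp y hP
  have hD := r1_hast α y
  set t : ℝ := α * deriv r1f (r1q y) * 2 with ht
  set D : E3 →L[ℝ] ℝ := t • (y 0 • r1pr 0 + y 1 • r1pr 1 + y 2 • r1pr 2) with hDdef
  have e0 := (hk 0).unique (r1_has0 α y D hD)
  have e1 := (hk 1).unique (r1_has1 α y D hD)
  have e2 : (r1pr 2).comp (fderiv ℝ (r1P α) y) = r1pr 2 :=
    (hk 2).unique (r1pr 2).hasFDerivAt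
  have entry : ∀ k (v : E3), (fderiv ℝ (r1P α) y v) k = ((r1pr k).comp (fderiv ℝ (r1P α) y)) v :=
    fun k v => rfl
  have hdet : (fderiv ℝ (r1P α) y).det = Matrix.det (LinearMap.toMatrix
      (EuclideanSpace.basisFun (Fin 3) ℝ).toBasis (EuclideanSpace.basisFun (Fin 3) ℝ).toBasis
      (fderiv ℝ (r1P α) y : E3 →ₗ[ℝ] E3)) := by
    rw [LinearMap.det_toMatrix]
  rw [hdet, Matrix.det_fin_three]
  have hm : ∀ i j, LinearMap.toMatrix
      (EuclideanSpace.basisFun (Fin 3) ℝ).toBasis (EuclideanSpace.basisFun (Fin 3) ℝ).toBasis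
      (fderiv ℝ (r1P α) y : E3 →ₗ[ℝ] E3) i j = (fderiv ℝ (r1P α) y (ee j)) i := by
    intro i j
    rw [LinearMap.toMatrix_apply]
    simp
  simp only [hm, entry, e0, e1, e2]
  have hcs := Real.sin_sq_add_cos_sq (r1t (α, y))
  simp [hDdef, r1c]
  linear_combination (1 : ℝ) * hcs

theorem r1_hasFDeriv (α : ℝ) (y : E3) : HasFDerivAt (r1P α) (fderiv ℝ (r1P α) y) y :=
  ((r1P_smooth α).differentiable (by simp) y).hasFDerivAt

theorem r1_integral (α : ℝ) (s : Set E3) (hs : MeasurableSet s) (g : E3 → ℝ) :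
    ∫ y in s, g (r1P α y) = ∫ x in r1P α '' s, g x := by
  rw [integral_image_eq_integral_abs_det_fderiv_smul volume hs
    (fun x _ => (r1_hasFDeriv α x).hasFDerivWithinAt) ((r1P_bij α).1.injOn)]
  simp [r1_det]

/-! ### algebra -/

theorem r1_quad {κ μ : ℝ} (hκ : 0 < κ) (hμ : 0 < μ) (A B : M3) {t : ℝ} (ht : 0 < t) :
    density κ μ (A + B) ≤ (1 + t) * density κ μ A + (1 + 1 / t) * density κ μ B := by
  set P : ℝ := κ * (A.trace * B.trace) + 2 * μ * (inn A B - A.trace * B.trace / 3) with hP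
  set s := √t with hs
  set r := √(1 / t) with hr
  have hs2 : s ^ 2 = t := Real.sq_sqrt ht.le
  have hr2 : r ^ 2 = 1 / t := Real.sq_sqrt (by positivity)
  have hrs : r * s = 1 := by
    rw [hr, hs, ← Real.sqrt_mul (by positivity), one_div, inv_mul_cancel₀ ht.ne', Real.sqrt_one]
  have h1 : density κ μ (A + B) = density κ μ A + density κ μ B + 2 * P := by
    simp only [density_eq, hP, inn, Matrix.trace, Matrix.diag, Matrix.add_apply, Fin.sum_univ_three]
    ring
  have h2 : density κ μ (s • A - r • B) =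
      s ^ 2 * density κ μ A + r ^ 2 * density κ μ B - 2 * (r * s) * P := by
    simp only [density_eq, hP, inn, Matrix.trace, Matrix.diag, Matrix.sub_apply, Matrix.smul_apply,
      smul_eq_mul, Fin.sum_univ_three]
    ring
  have h3 := density_nonneg hκ hμ (s • A - r • B)
  rw [h2, hs2, hr2, hrs] at h3
  rw [h1]
  linarith

theorem r1_inn_nonneg (A : M3) : 0 ≤ inn A A := by
  unfold inn
  exact Finset.sum_nonneg fun i _ => Finset.sum_nonneg fun j _ => mul_self_nonneg _

/-- sum of the absolute values of the entries -/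
noncomputable def r1n (A : M3) : ℝ := ∑ i, ∑ j, |A i j|

theorem r1n_sq (A : M3) : (r1n A) ^ 2 ≤ 9 * inn A A := by
  have h1 : (r1n A) ^ 2 ≤ 3 * ∑ i, (∑ j, |A i j|) ^ 2 := by
    have := sq_sum_le_card_mul_sum_sq (s := (Finset.univ : Finset (Fin 3))) (f := fun i => ∑ j, |A i j|)
    simpa [r1n] using this
  have h2 : ∀ i, (∑ j, |A i j|) ^ 2 ≤ 3 * ∑ j, A i j * A i j := by
    intro i
    have := sq_sum_le_card_mul_sum_sq (s := (Finset.univ : Finset (Fin 3))) (f := fun j => |A i j|)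
    simp only [sq_abs, Finset.card_univ, Fintype.card_fin, Nat.cast_ofNat] at this
    refine this.trans (le_of_eq ?_)
    congr 1
    exact Finset.sum_congr rfl fun j _ => by ring
  have h3 : ∑ i, (∑ j, |A i j|) ^ 2 ≤ ∑ i, 3 * ∑ j, A i j * A i j :=
    Finset.sum_le_sum fun i _ => h2 i
  rw [← Finset.mul_sum] at h3
  unfold inn
  linarith

theorem r1n_entry (A : M3) (i j : Fin 3) : |A i j| ≤ r1n A := by
  have h1 : |A i j| ≤ ∑ j, |A i j| :=
    Finset.single_le_sum (f := fun j => |A i j|) (fun _ _ => abs_nonneg _) (Finset.mem_univ j)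
  have h2 : ∑ j, |A i j| ≤ r1n A :=
    Finset.single_le_sum (f := fun i => ∑ j, |A i j|)
      (fun _ _ => Finset.sum_nonneg fun _ _ => abs_nonneg _) (Finset.mem_univ i)
  exact h1.trans h2

theorem r1_alg {κ μ : ℝ} (hκ : 0 < κ) (hμ : 0 < μ) (C₁ : ℝ) (hC₁ : 0 ≤ C₁) :
    ∃ C : ℝ, 0 < C ∧ ∀ (t χ : ℝ) (e S M : M3) (Hs : Fin 3 → Fin 3 → Fin 3 → ℝ) (u : E3),
    0 ≤ t → t ≤ 1 → 0 ≤ χ → χ ≤ 1 →
    (∀ i j, S i j = ∑ k, Hs k i j * u k + ∑ k, ∑ l, M k i * M l j * e k l) →
    (∀ k i, |M k i - (if k = i then 1 else 0)| ≤ C₁ * t) →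
    (∀ k i j, |Hs k i j| ≤ C₁ * t * χ) →
    density κ μ S ≤ (1 + C * t) * density κ μ e + C * t * (χ * ‖u‖ ^ 2) := by
  obtain ⟨c, hc, hlow⟩ := density_lower hκ hμ
  obtain ⟨Cu, hCu, hup⟩ := density_upper hκ hμ
  -- entries of the remainder
  set K : ℝ := 2 * C₁ + C₁ ^ 2 with hK
  have hK0 : 0 ≤ K := by positivity
  refine ⟨1 + 2 * Cu * (162 * K ^ 2 / c + 54 * K ^ 2), by positivity, ?_⟩
  intro t χ e S M Hs u ht0 ht1 hχ0 hχ1 hS hM hH
  set N : ℝ := r1n e with hN
  have hN0 : 0 ≤ N := Finset.sum_nonneg fun i _ => Finset.sum_nonneg fun j _ => abs_nonneg _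
  set U : ℝ := ∑ k, |u k| with hU
  have hU0 : 0 ≤ U := Finset.sum_nonneg fun k _ => abs_nonneg _
  have hU2 : U ^ 2 ≤ 3 * ‖u‖ ^ 2 := by
    have := sq_sum_le_card_mul_sum_sq (s := (Finset.univ : Finset (Fin 3))) (f := fun j => |u j|)
    simp only [sq_abs, Finset.card_univ, Fintype.card_fin, Nat.cast_ofNat] at this
    rwa [EuclideanSpace.real_norm_sq_eq]
  set B : M3 := S - e with hB
  have hBe : ∀ i j, |B i j| ≤ K * t * (N + χ * U) := by
    intro i j
    have h1 : B i j = ∑ k, Hs k i j * u k + ((∑ k, (M k i - if k = i then 1 else 0) * e k j)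
        + (∑ l, (M l j - if l = j then 1 else 0) * e i l)
        + ∑ k, ∑ l, (M k i - if k = i then 1 else 0) * (M l j - if l = j then 1 else 0) * e k l) := by
      rw [hB, Matrix.sub_apply, hS]
      fin_cases i <;> fin_cases j <;> simp [Fin.sum_univ_three] <;> ring
    have e1 : |∑ k, Hs k i j * u k| ≤ C₁ * t * χ * U := by
      refine (Finset.abs_sum_le_sum_abs _ _).trans ?_
      rw [hU, Finset.mul_sum]
      refine Finset.sum_le_sum fun k _ => ?_
      rw [abs_mul]
      exact mul_le_mul_of_nonneg_right (hH k i j) (abs_nonneg _)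
    have e2 : |∑ k, (M k i - if k = i then 1 else 0) * e k j| ≤ C₁ * t * N := by
      refine (Finset.abs_sum_le_sum_abs _ _).trans ?_
      have : C₁ * t * ∑ k, |e k j| ≤ C₁ * t * N := by
        refine mul_le_mul_of_nonneg_left ?_ (by positivity)
        refine Finset.sum_le_sum fun k _ => ?_
        exact Finset.single_le_sum (f := fun j => |e k j|) (fun _ _ => abs_nonneg _)
          (Finset.mem_univ j)
      refine le_trans ?_ this
      rw [Finset.mul_sum]
      refine Finset.sum_le_sum fun k _ => ?_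
      rw [abs_mul]
      exact mul_le_mul_of_nonneg_right (hM k i) (abs_nonneg _)
    have e3 : |∑ l, (M l j - if l = j then 1 else 0) * e i l| ≤ C₁ * t * N := by
      refine (Finset.abs_sum_le_sum_abs _ _).trans ?_
      have : C₁ * t * ∑ l, |e i l| ≤ C₁ * t * N := by
        refine mul_le_mul_of_nonneg_left ?_ (by positivity)
        exact Finset.single_le_sum (f := fun i => ∑ l, |e i l|)
          (fun _ _ => Finset.sum_nonneg fun _ _ => abs_nonneg _) (Finset.mem_univ i)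
      refine le_trans ?_ this
      rw [Finset.mul_sum]
      refine Finset.sum_le_sum fun k _ => ?_
      rw [abs_mul]
      exact mul_le_mul_of_nonneg_right (hM k j) (abs_nonneg _)
    have e4 : |∑ k, ∑ l, (M k i - if k = i then 1 else 0) * (M l j - if l = j then 1 else 0)
        * e k l| ≤ C₁ ^ 2 * t * N := by
      refine (Finset.abs_sum_le_sum_abs _ _).trans ?_
      rw [hN, r1n, Finset.mul_sum]
      refine Finset.sum_le_sum fun k _ => ?_
      refine (Finset.abs_sum_le_sum_abs _ _).trans ?_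
      rw [Finset.mul_sum]
      refine Finset.sum_le_sum fun l _ => ?_
      rw [abs_mul, abs_mul]
      refine mul_le_mul_of_nonneg_right ?_ (abs_nonneg _)
      have h5 := mul_le_mul (hM k i) (hM l j) (abs_nonneg _) (by positivity)
      refine h5.trans ?_
      have : t * t ≤ t := by nlinarith
      nlinarith [sq_nonneg C₁]
    have h6 : |B i j| ≤ C₁ * t * χ * U + (C₁ * t * N + C₁ * t * N + C₁ ^ 2 * t * N) := by
      rw [h1]
      refine (abs_add_le _ _).trans (add_le_add e1 ?_)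
      refine (abs_add_le _ _).trans (add_le_add ?_ e4)
      exact (abs_add_le _ _).trans (add_le_add e2 e3)
    refine h6.trans ?_
    have h7 : 0 ≤ t * χ * U := by positivity
    have h8 : 0 ≤ C₁ ^ 2 * (t * χ * U) := by positivity
    have h9 : 0 ≤ C₁ * (t * χ * U) := by positivity
    rw [hK]
    nlinarith
  have hBB : inn B B ≤ t ^ 2 * (162 * K ^ 2 * inn e e + 54 * K ^ 2 * (χ * ‖u‖ ^ 2)) := by
    have h1 : ∀ i j, B i j * B i j ≤ t ^ 2 * K ^ 2 * (18 * inn e e + 6 * (χ * ‖u‖ ^ 2)) := by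
      intro i j
      have h2 : B i j * B i j ≤ (K * t * (N + χ * U)) ^ 2 := by
        rw [← sq, ← sq_abs]
        exact pow_le_pow_left₀ (abs_nonneg _) (hBe i j) 2
      have h3 : (N + χ * U) ^ 2 ≤ 18 * inn e e + 6 * (χ * ‖u‖ ^ 2) := by
        have h4 := r1n_sq e
        have h5 : (N + χ * U) ^ 2 ≤ 2 * N ^ 2 + 2 * (χ ^ 2 * U ^ 2) := by
          nlinarith [sq_nonneg (N - χ * U)]
        have h6 : χ ^ 2 * U ^ 2 ≤ χ * (3 * ‖u‖ ^ 2) := by
          have : χ ^ 2 ≤ χ := by nlinarith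
          exact mul_le_mul this hU2 (sq_nonneg _) hχ0
        linarith
      calc B i j * B i j ≤ (K * t * (N + χ * U)) ^ 2 := h2
        _ = t ^ 2 * K ^ 2 * (N + χ * U) ^ 2 := by ring
        _ ≤ _ := mul_le_mul_of_nonneg_left h3 (by positivity)
    have h2 : inn B B ≤ ∑ _i : Fin 3, ∑ _j : Fin 3,
        t ^ 2 * K ^ 2 * (18 * inn e e + 6 * (χ * ‖u‖ ^ 2)) :=
      Finset.sum_le_sum fun i _ => Finset.sum_le_sum fun j _ => h1 i j
    refine h2.trans (le_of_eq ?_)
    simp
    ring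
  have hee := r1_inn_nonneg e
  have hDe := density_nonneg hκ hμ e
  rcases eq_or_lt_of_le ht0 with h0 | h0
  · -- `t = 0`
    have hB0 : inn B B ≤ 0 := by
      rw [← h0] at hBB
      simpa using hBB
    have hSe : S = e + B := by rw [hB]; abel
    have hB' : B = 0 := by
      ext i j
      have := hBe i j
      rw [← h0] at this
      simp only [mul_zero, zero_mul] at this
      simpa using abs_nonpos_iff.1 this
    rw [hSe, hB', ← h0]
    simp
  · have hSe : S = e + B := by rw [hB]; abel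
    have h1 := r1_quad hκ hμ e B h0
    rw [← hSe] at h1
    have h2 : (1 + 1 / t) * density κ μ B ≤
        2 * t * Cu * (162 * K ^ 2 / c * density κ μ e + 54 * K ^ 2 * (χ * ‖u‖ ^ 2)) := by
      have h3 : density κ μ B ≤ Cu * (t ^ 2 * (162 * K ^ 2 * inn e e + 54 * K ^ 2 * (χ * ‖u‖ ^ 2))) :=
        (hup B).trans (mul_le_mul_of_nonneg_left hBB hCu.le)
      have h4 : inn e e ≤ density κ μ e / c := by
        rw [le_div_iff₀ hc]
        linarith [hlow e]
      have h5 : 162 * K ^ 2 * inn e e + 54 * K ^ 2 * (χ * ‖u‖ ^ 2) ≤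
          162 * K ^ 2 / c * density κ μ e + 54 * K ^ 2 * (χ * ‖u‖ ^ 2) := by
        have : 162 * K ^ 2 * inn e e ≤ 162 * K ^ 2 * (density κ μ e / c) :=
          mul_le_mul_of_nonneg_left h4 (by positivity)
        have h6 : 162 * K ^ 2 * (density κ μ e / c) = 162 * K ^ 2 / c * density κ μ e := by ring
        linarith
      have h6 : (1 + 1 / t) * t ^ 2 ≤ 2 * t := by
        have : (1 + 1 / t) * t ^ 2 = t ^ 2 + t := by field_simp
        rw [this]
        nlinarith
      have h7 : (0:ℝ) ≤ 1 + 1 / t := by positivity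
      set Q := 162 * K ^ 2 / c * density κ μ e + 54 * K ^ 2 * (χ * ‖u‖ ^ 2) with hQ
      have hQ0 : 0 ≤ Q := by positivity
      calc (1 + 1 / t) * density κ μ B ≤ (1 + 1 / t) * (Cu * (t ^ 2 * Q)) := by
            refine mul_le_mul_of_nonneg_left (h3.trans ?_) h7
            exact mul_le_mul_of_nonneg_left (mul_le_mul_of_nonneg_left h5 (by positivity)) hCu.le
        _ = ((1 + 1 / t) * t ^ 2) * (Cu * Q) := by ring
        _ ≤ 2 * t * (Cu * Q) := mul_le_mul_of_nonneg_right h6 (by positivity)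
        _ = 2 * t * Cu * Q := by ring
    have h8 : 0 ≤ t * (χ * ‖u‖ ^ 2) := by positivity
    have h9 : 0 ≤ t * density κ μ e := by positivity
    have h10 : 0 ≤ 2 * Cu * (162 * K ^ 2 / c) * (t * (χ * ‖u‖ ^ 2)) := by positivity
    have h11 : 0 ≤ 2 * Cu * (54 * K ^ 2) * (t * density κ μ e) := by positivity
    have key : (1 + t) * density κ μ e +
        2 * t * Cu * (162 * K ^ 2 / c * density κ μ e + 54 * K ^ 2 * (χ * ‖u‖ ^ 2)) ≤
      (1 + (1 + 2 * Cu * (162 * K ^ 2 / c + 54 * K ^ 2)) * t) * density κ μ e +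
        (1 + 2 * Cu * (162 * K ^ 2 / c + 54 * K ^ 2)) * t * (χ * ‖u‖ ^ 2) := by
      have : (1 + (1 + 2 * Cu * (162 * K ^ 2 / c + 54 * K ^ 2)) * t) * density κ μ e +
        (1 + 2 * Cu * (162 * K ^ 2 / c + 54 * K ^ 2)) * t * (χ * ‖u‖ ^ 2) -
        ((1 + t) * density κ μ e +
        2 * t * Cu * (162 * K ^ 2 / c * density κ μ e + 54 * K ^ 2 * (χ * ‖u‖ ^ 2))) =
        t * (χ * ‖u‖ ^ 2) + 2 * Cu * (162 * K ^ 2 / c) * (t * (χ * ‖u‖ ^ 2)) +
        2 * Cu * (54 * K ^ 2) * (t * density κ μ e) := by ring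
      linarith
    linarith

/-! ### derivatives with parameter -/

/-- spatial derivative of a function with parameter -/
noncomputable def r1D (j : Fin 3) (g : ℝ × E3 → ℝ) (p : ℝ × E3) : ℝ := fderiv ℝ g p (0, ee j)

theorem r1D_smooth (j : Fin 3) {g : ℝ × E3 → ℝ} (hg : ContDiff ℝ ∞ g) : ContDiff ℝ ∞ (r1D j g) :=
  (hg.fderiv_right (m := ∞) (by simp)).clm_apply contDiff_const

theorem r1D_pd (j : Fin 3) {g : ℝ × E3 → ℝ} (hg : ContDiff ℝ ∞ g) (α : ℝ) (y : E3) :
    r1D j g (α, y) = pd j (fun z => g (α, z)) y := by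
  have h1 : HasFDerivAt g (fderiv ℝ g (α, y)) (α, y) :=
    (hg.differentiable (by simp) _).hasFDerivAt
  have h2 : HasFDerivAt (fun z : E3 => ((α, z) : ℝ × E3)) (ContinuousLinearMap.inr ℝ ℝ E3) y :=
    hasFDerivAt_prodMk_right α y
  have h3 := h1.comp y h2
  have h4 : pd j (fun z => g (α, z)) y =
      ((fderiv ℝ g (α, y)).comp (ContinuousLinearMap.inr ℝ ℝ E3)) (ee j) := by
    unfold pd
    rw [← h3.fderiv]
    rfl
  rw [h4]
  rfl

theorem r1D_zero (j : Fin 3) {g : ℝ × E3 → ℝ} (hg : ContDiff ℝ ∞ g) (h0 : ∀ y, g (0, y) = 0)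
    (y : E3) : r1D j g (0, y) = 0 := by
  rw [r1D_pd j hg]
  have : (fun z => g (0, z)) = fun _ => 0 := funext h0
  rw [this]
  simp [pd]

theorem r1_small {g : ℝ × E3 → ℝ} (hg : ContDiff ℝ ∞ g) (h0 : ∀ y, g (0, y) = 0) :
    ∃ C : ℝ, 0 < C ∧ ∀ α : ℝ, |α| ≤ 1 → ∀ y ∈ cb 3, |g (α, y)| ≤ C * |α| := by
  have hK : IsCompact (Set.Icc (-1:ℝ) 1 ×ˢ cb 3) :=
    isCompact_Icc.prod (isCompact_closedBall _ _)
  have hcv : Convex ℝ (Set.Icc (-1:ℝ) 1 ×ˢ cb 3) :=
    (convex_Icc _ _).prod (convex_closedBall _ _)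
  have hcont : Continuous (fderiv ℝ g) := hg.continuous_fderiv (by simp)
  obtain ⟨C, hC⟩ := hK.exists_bound_of_continuousOn hcont.continuousOn
  refine ⟨max C 1, by positivity, fun α hα y hy => ?_⟩
  have hα' := abs_le.1 hα
  have h1 : ((0:ℝ), y) ∈ Set.Icc (-1:ℝ) 1 ×ˢ cb 3 := ⟨⟨by norm_num, by norm_num⟩, hy⟩
  have h2 : (α, y) ∈ Set.Icc (-1:ℝ) 1 ×ˢ cb 3 := ⟨hα', hy⟩
  have h3 := hcv.norm_image_sub_le_of_norm_fderiv_le (𝕜 := ℝ) (f := g) (C := C)
    (fun x _ => hg.differentiable (by simp) x) (fun x hx => hC x hx) h1 h2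
  rw [h0, sub_zero, Real.norm_eq_abs] at h3
  have h4 : ‖((α, y) : ℝ × E3) - (0, y)‖ = |α| := by
    rw [Prod.mk_sub_mk, sub_self, sub_zero, Prod.norm_mk, norm_zero, Real.norm_eq_abs,
      max_eq_left (abs_nonneg _)]
  rw [h4] at h3
  exact h3.trans (mul_le_mul_of_nonneg_right (le_max_left _ _) (abs_nonneg _))

/-- displacement of the twist -/
noncomputable def r1g (k : Fin 3) (p : ℝ × E3) : ℝ := r1c k p - p.2 k

theorem r1g_smooth (k : Fin 3) : ContDiff ℝ ∞ (r1g k) :=
  (r1c_smooth k).sub (r1_coord2_smooth k)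

theorem r1g_zero (k : Fin 3) (y : E3) : r1g k (0, y) = 0 := by
  have ht : r1t (0, y) = 0 := by simp [r1t]
  rw [r1g, r1c, ht]
  fin_cases k <;> simp

/-- first derivatives of the twist -/
noncomputable def r1M (α : ℝ) (y : E3) : M3 :=
  Matrix.of fun k i => r1D i (r1g k) (α, y) + if k = i then 1 else 0

/-- second derivatives of the twist -/
noncomputable def r1H (α : ℝ) (y : E3) (k i j : Fin 3) : ℝ := r1D j (r1D i (r1g k)) (α, y)

theorem r1_pd_congr {f g : E3 → ℝ} {O : Set E3} (hO : IsOpen O) (h : ∀ y ∈ O, f y = g y) {y : E3}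
    (hy : y ∈ O) (i : Fin 3) : pd i f y = pd i g y := by
  have : f =ᶠ[nhds y] g := Filter.eventually_of_mem (hO.mem_nhds hy) h
  unfold pd
  rw [this.fderiv_eq]

theorem r1_bounds : ∃ C : ℝ, 0 < C ∧ ∀ α : ℝ, |α| ≤ 1 → ∀ y ∈ cb 3, ∀ k i j,
    |r1M α y k i - (if k = i then 1 else 0)| ≤ C * |α| ∧ |r1H α y k i j| ≤ C * |α| := by
  have h1 : ∀ k i : Fin 3, ∃ C : ℝ, 0 < C ∧ ∀ α : ℝ, |α| ≤ 1 → ∀ y ∈ cb 3,
      |r1D i (r1g k) (α, y)| ≤ C * |α| := fun k i =>
    r1_small (r1D_smooth i (r1g_smooth k)) (r1D_zero i (r1g_smooth k) (r1g_zero k))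
  have h2 : ∀ k i j : Fin 3, ∃ C : ℝ, 0 < C ∧ ∀ α : ℝ, |α| ≤ 1 → ∀ y ∈ cb 3,
      |r1D j (r1D i (r1g k)) (α, y)| ≤ C * |α| := fun k i j =>
    r1_small (r1D_smooth j (r1D_smooth i (r1g_smooth k)))
      (r1D_zero j (r1D_smooth i (r1g_smooth k)) (r1D_zero i (r1g_smooth k) (r1g_zero k)))
  choose A hA hA' using h1
  choose B hB hB' using h2
  have hA0 : ∀ k i, 0 ≤ A k i := fun k i => (hA k i).le
  have hB0 : ∀ k i j, 0 ≤ B k i j := fun k i j => (hB k i j).le
  refine ⟨1 + (∑ k, ∑ i, A k i) + ∑ k, ∑ i, ∑ j, B k i j, ?_, fun α hα y hy k i j => ⟨?_, ?_⟩⟩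
  · have e1 : 0 ≤ ∑ k, ∑ i, A k i :=
      Finset.sum_nonneg fun k _ => Finset.sum_nonneg fun i _ => hA0 k i
    have e2 : 0 ≤ ∑ k, ∑ i, ∑ j, B k i j :=
      Finset.sum_nonneg fun k _ => Finset.sum_nonneg fun i _ => Finset.sum_nonneg fun j _ => hB0 k i j
    linarith
  · have e3 : r1M α y k i - (if k = i then 1 else 0) = r1D i (r1g k) (α, y) := by
      simp [r1M]
    rw [e3]
    refine (hA' k i α hα y hy).trans (mul_le_mul_of_nonneg_right ?_ (abs_nonneg _))
    have e1 : A k i ≤ ∑ k, ∑ i, A k i := by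
      refine le_trans (Finset.single_le_sum (f := fun i => A k i) (fun i _ => hA0 k i)
        (Finset.mem_univ i)) ?_
      exact Finset.single_le_sum (f := fun k => ∑ i, A k i)
        (fun k _ => Finset.sum_nonneg fun i _ => hA0 k i) (Finset.mem_univ k)
    have e2 : 0 ≤ ∑ k, ∑ i, ∑ j, B k i j :=
      Finset.sum_nonneg fun k _ => Finset.sum_nonneg fun i _ => Finset.sum_nonneg fun j _ => hB0 k i j
    linarith
  · refine (hB' k i j α hα y hy).trans (mul_le_mul_of_nonneg_right ?_ (abs_nonneg _))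
    have e1 : 0 ≤ ∑ k, ∑ i, A k i :=
      Finset.sum_nonneg fun k _ => Finset.sum_nonneg fun i _ => hA0 k i
    have e2 : B k i j ≤ ∑ k, ∑ i, ∑ j, B k i j := by
      refine le_trans (Finset.single_le_sum (f := fun j => B k i j) (fun j _ => hB0 k i j)
        (Finset.mem_univ j)) ?_
      refine le_trans (Finset.single_le_sum (f := fun i => ∑ j, B k i j)
        (fun i _ => Finset.sum_nonneg fun j _ => hB0 k i j) (Finset.mem_univ i)) ?_
      exact Finset.single_le_sum (f := fun k => ∑ i, ∑ j, B k i j)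
        (fun k _ => Finset.sum_nonneg fun i _ => Finset.sum_nonneg fun j _ => hB0 k i j)
        (Finset.mem_univ k)
    linarith

theorem r1_open_far : IsOpen {y : E3 | 3 < ‖y‖} := isOpen_lt continuous_const continuous_norm

theorem r1_open_near : IsOpen {y : E3 | ‖y‖ < 2} := isOpen_lt continuous_norm continuous_const

theorem r1g_far (k : Fin 3) (α : ℝ) (y : E3) (h : 3 ≤ ‖y‖) : r1g k (α, y) = 0 := by
  have h1 := congrArg (fun z : E3 => z k) (r1P_far α y h)
  simp only [r1P_apply] at h1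
  rw [r1g, h1, sub_self]

theorem r1D_far (k i : Fin 3) (α : ℝ) (y : E3) (h : 3 < ‖y‖) : r1D i (r1g k) (α, y) = 0 := by
  rw [r1D_pd i (r1g_smooth k), r1_pd_congr (g := fun _ => 0) r1_open_far
    (fun z hz => r1g_far k α z (le_of_lt hz)) h]
  simp [pd]

theorem r1M_far (α : ℝ) (y : E3) (h : 3 < ‖y‖) (k i : Fin 3) :
    r1M α y k i = if k = i then 1 else 0 := by
  simp [r1M, r1D_far k i α y h]

theorem r1H_far (α : ℝ) (y : E3) (h : 3 < ‖y‖) (k i j : Fin 3) : r1H α y k i j = 0 := by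
  rw [r1H, r1D_pd j (r1D_smooth i (r1g_smooth k)), r1_pd_congr (g := fun _ => 0) r1_open_far
    (fun z hz => r1D_far k i α z hz) h]
  simp [pd]

theorem r1_pd_lin (l : E3 →L[ℝ] ℝ) (i : Fin 3) (y : E3) : pd i (fun z => l z) y = l (ee i) := by
  unfold pd
  rw [ContinuousLinearMap.fderiv]

/-- the displacement of the twist is linear near the origin -/
theorem r1g_near (k : Fin 3) (α : ℝ) (y : E3) (h : ‖y‖ ≤ 2) :
    r1g k (α, y) = (∑ j, (RZ (-α)) k j • r1pr j - r1pr k : E3 →L[ℝ] ℝ) y := by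
  have h1 := congrArg (fun z : E3 => z k) (r1P_near α y h)
  simp only [r1P_apply] at h1
  rw [r1g, h1]
  simp [mact]

theorem r1H_near (α : ℝ) (y : E3) (h : ‖y‖ < 2) (k i j : Fin 3) : r1H α y k i j = 0 := by
  have h1 : ∀ z : E3, ‖z‖ < 2 → r1D i (r1g k) (α, z) =
      (∑ j, (RZ (-α)) k j • r1pr j - r1pr k : E3 →L[ℝ] ℝ) (ee i) := by
    intro z hz
    rw [r1D_pd i (r1g_smooth k), r1_pd_congr r1_open_near
      (fun w hw => r1g_near k α w (le_of_lt hw)) hz, r1_pd_lin]
  rw [r1H, r1D_pd j (r1D_smooth i (r1g_smooth k)),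
    r1_pd_congr r1_open_near (fun w hw => h1 w hw) h]
  simp [pd]

/-! ### the transported displacement -/

theorem r1_pd_add {f g : E3 → ℝ} (hf : ContDiff ℝ ∞ f) (hg : ContDiff ℝ ∞ g) (j : Fin 3) (y : E3) :
    pd j (fun z => f z + g z) y = pd j f y + pd j g y := by
  have h1 := (hf.differentiable (by simp) y).hasFDerivAt
  have h2 := (hg.differentiable (by simp) y).hasFDerivAt
  have h3 := (h1.add h2).fderiv
  unfold pd
  rw [show (fun z => f z + g z) = f + g from rfl, h3]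
  rfl

theorem r1_pd_mul {f g : E3 → ℝ} (hf : ContDiff ℝ ∞ f) (hg : ContDiff ℝ ∞ g) (j : Fin 3) (y : E3) :
    pd j (fun z => f z * g z) y = pd j f y * g y + f y * pd j g y := by
  have h1 := (hf.differentiable (by simp) y).hasFDerivAt
  have h2 := (hg.differentiable (by simp) y).hasFDerivAt
  have h3 := (h1.mul h2).fderiv
  unfold pd
  rw [show (fun z => f z * g z) = f * g from rfl, h3]
  simp
  ring

theorem r1_pd_const (c : ℝ) (j : Fin 3) (y : E3) : pd j (fun _ => c) y = 0 := by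
  simp [pd]

theorem r1_pd_coord (k j : Fin 3) (y : E3) : pd j (fun z : E3 => z k) y = if k = j then 1 else 0 := by
  have := r1_pd_lin (r1pr k) j y
  have h2 : (fun z : E3 => z k) = fun z => r1pr k z := rfl
  rw [h2, this]
  simp

theorem r1_sum_smooth {f : Fin 3 → E3 → ℝ} (hf : ∀ k, ContDiff ℝ ∞ (f k)) :
    ContDiff ℝ ∞ (fun y => ∑ k, f k y) :=
  ContDiff.sum fun k _ => hf k

theorem r1_pd_sum {f : Fin 3 → E3 → ℝ} (hf : ∀ k, ContDiff ℝ ∞ (f k)) (j : Fin 3) (y : E3) :
    pd j (fun z => ∑ k, f k z) y = ∑ k, pd j (f k) y := by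
  have h1 : ContDiff ℝ ∞ (fun z => f 0 z + f 1 z) := (hf 0).add (hf 1)
  have h2 : (fun z => ∑ k, f k z) = fun z => (fun z => f 0 z + f 1 z) z + f 2 z := by
    funext z
    rw [Fin.sum_univ_three]
  rw [h2, r1_pd_add h1 (hf 2), r1_pd_add (hf 0) (hf 1), Fin.sum_univ_three]

theorem r1_vec (x : E3) : ∑ l, x l • ee l = x := by
  have := (EuclideanSpace.basisFun (Fin 3) ℝ).sum_repr x
  simpa using this

theorem r1M_eq (α : ℝ) (y : E3) (l j : Fin 3) :
    pd j (fun z => r1P α z l) y = r1M α y l j := by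
  have h1 : (fun z => r1P α z l) = fun z => (fun z => r1g l (α, z)) z + (fun z : E3 => z l) z := by
    funext z
    simp [r1P_apply, r1g]
  rw [h1, r1_pd_add (r1_slice (r1g_smooth l) α) (r1_coord_smooth l), r1_pd_coord,
    ← r1D_pd j (r1g_smooth l)]
  simp [r1M]

theorem r1_chain (α : ℝ) {w : E3 → ℝ} (hw : ContDiff ℝ ∞ w) (j : Fin 3) (y : E3) :
    pd j (fun z => w (r1P α z)) y = ∑ l, pd l w (r1P α y) * r1M α y l j := by
  have h1 : HasFDerivAt w (fderiv ℝ w (r1P α y)) (r1P α y) :=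
    (hw.differentiable (by simp) _).hasFDerivAt
  have h2 := (h1.comp y (r1_hasFDeriv α y)).fderiv
  have h3 : pd j (fun z => w (r1P α z)) y = fderiv ℝ w (r1P α y) (fderiv ℝ (r1P α) y (ee j)) := by
    unfold pd
    rw [show (fun z => w (r1P α z)) = w ∘ r1P α from rfl, h2]
    rfl
  have h4 : ∀ l, (fderiv ℝ (r1P α) y (ee j)) l = r1M α y l j := by
    intro l
    rw [← r1M_eq]
    have h5 := (((r1pr l).hasFDerivAt).comp y (r1_hasFDeriv α y)).fderiv
    unfold pd
    rw [show (fun z => r1P α z l) = (r1pr l) ∘ r1P α from rfl, h5]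
    rfl
  rw [h3, ← r1_vec (fderiv ℝ (r1P α) y (ee j)), map_sum]
  refine Finset.sum_congr rfl fun l _ => ?_
  rw [map_smul, h4, smul_eq_mul, mul_comm]
  rfl

theorem r1M_smooth (α : ℝ) (k i : Fin 3) : ContDiff ℝ ∞ (fun y => r1M α y k i) := by
  have : (fun y => r1M α y k i) = fun y => r1D i (r1g k) (α, y) + if k = i then 1 else 0 := rfl
  rw [this]
  exact (r1_slice (r1D_smooth i (r1g_smooth k)) α).add contDiff_const

theorem r1M_pd (α : ℝ) (y : E3) (k i j : Fin 3) :
    pd j (fun z => r1M α z k i) y = r1H α y k i j := by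
  have : (fun y => r1M α y k i) = fun y => (fun y => r1D i (r1g k) (α, y)) y +
    (fun _ : E3 => (if k = i then (1:ℝ) else 0)) y := rfl
  rw [this, r1_pd_add (r1_slice (r1D_smooth i (r1g_smooth k)) α) contDiff_const, r1_pd_const,
    add_zero, ← r1D_pd j (r1D_smooth i (r1g_smooth k))]
  rfl

/-- the rigid motion -/
noncomputable def r1r (a : E3) (W : M3) (y : E3) : E3 := a + mact W y

theorem r1r_apply (a : E3) (W : M3) (y : E3) (i : Fin 3) :
    r1r a W y i = a i + ∑ j, W i j * y j := rfl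

theorem r1_comp_smooth {v : E3 → E3} (hv : ContDiff ℝ ∞ v) (k : Fin 3) :
    ContDiff ℝ ∞ (fun y => v y k) := (contDiff_euclidean.1 hv) k

theorem r1r_comp_smooth (a : E3) (W : M3) (i : Fin 3) : ContDiff ℝ ∞ (fun y => r1r a W y i) := by
  have h : (fun y => r1r a W y i) = fun y => a i + ∑ j, W i j * y j := rfl
  rw [h]
  exact contDiff_const.add (r1_sum_smooth fun j => contDiff_const.mul (r1_coord_smooth j))

theorem r1r_smooth (a : E3) (W : M3) : ContDiff ℝ ∞ (r1r a W) :=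
  contDiff_euclidean.2 fun i => r1r_comp_smooth a W i

theorem r1r_pd (a : E3) (W : M3) (i j : Fin 3) (y : E3) :
    pd j (fun y => r1r a W y i) y = W i j := by
  have h : (fun y => r1r a W y i) = fun y => (fun _ : E3 => a i) y +
      (fun y : E3 => ∑ j, W i j * y j) y := rfl
  have hs : ∀ j : Fin 3, ContDiff ℝ ∞ (fun y : E3 => W i j * y j) :=
    fun j => contDiff_const.mul (r1_coord_smooth j)
  rw [h, r1_pd_add contDiff_const (r1_sum_smooth hs), r1_pd_const, zero_add, r1_pd_sum hs]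
  have : ∀ k : Fin 3, pd j (fun y : E3 => W i k * y k) y = W i k * if k = j then 1 else 0 := by
    intro k
    rw [r1_pd_mul (contDiff_const) (r1_coord_smooth k), r1_pd_const, r1_pd_coord]
    simp
  simp [this]

/-- difference to the rigid motion -/
noncomputable def r1u (v : E3 → E3) (a : E3) (W : M3) (y : E3) : E3 := v y - r1r a W y

theorem r1u_smooth {v : E3 → E3} (hv : ContDiff ℝ ∞ v) (a : E3) (W : M3) :
    ContDiff ℝ ∞ (r1u v a W) := hv.sub (r1r_smooth a W)

theorem r1_anti {W : M3} (hW : W.transpose = -W) (i j : Fin 3) : W j i = -W i j := by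
  have := congrFun (congrFun hW i) j
  simpa using this

theorem r1u_strain {v : E3 → E3} (hv : ContDiff ℝ ∞ v) (a : E3) {W : M3} (hW : W.transpose = -W)
    (x : E3) (k l : Fin 3) :
    (pd l (fun y => r1u v a W y k) x + pd k (fun y => r1u v a W y l) x) / 2 = strain v x k l := by
  have h1 : ∀ k l : Fin 3, pd l (fun y => v y k) x = pd l (fun y => r1u v a W y k) x + W k l := by
    intro k l
    have h2 : (fun y => v y k) = fun y => (fun y => r1u v a W y k) y +
        (fun y => r1r a W y k) y := by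
      funext y
      simp [r1u]
    rw [h2, r1_pd_add (r1_comp_smooth (r1u_smooth hv a W) k) (r1r_comp_smooth a W k), r1r_pd]
  rw [strain_apply v hv, h1 k l, h1 l k, r1_anti hW k l]
  ring

/-- the transported displacement -/
noncomputable def r1v (α : ℝ) (v : E3 → E3) (a : E3) (W : M3) (y : E3) : E3 :=
  mk3 fun i => r1r a W y i + ∑ k, r1M α y k i * r1u v a W (r1P α y) k

theorem r1_uP_smooth (α : ℝ) {v : E3 → E3} (hv : ContDiff ℝ ∞ v) (a : E3) (W : M3) (k : Fin 3) :
    ContDiff ℝ ∞ (fun y => r1u v a W (r1P α y) k) :=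
  (r1_comp_smooth (r1u_smooth hv a W) k).comp (r1P_smooth α)

theorem r1v_smooth (α : ℝ) {v : E3 → E3} (hv : ContDiff ℝ ∞ v) (a : E3) (W : M3) :
    ContDiff ℝ ∞ (r1v α v a W) :=
  r1_mk3_smooth fun i => (r1r_comp_smooth a W i).add
    (r1_sum_smooth fun k => (r1M_smooth α k i).mul (r1_uP_smooth α hv a W k))

theorem r1v_far (α : ℝ) (v : E3 → E3) (a : E3) (W : M3) (y : E3) (h : y ∉ cb 3) :
    r1v α v a W y = v y := by
  have h3 : 3 < ‖y‖ := by
    rw [mem_closedBall, dist_zero_right, not_le] at h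
    exact h
  ext i
  change r1r a W y i + ∑ k, r1M α y k i * r1u v a W (r1P α y) k = v y i
  rw [r1P_far α y h3.le]
  simp only [r1M_far α y h3]
  simp [r1u]

theorem r1v_pd (α : ℝ) {v : E3 → E3} (hv : ContDiff ℝ ∞ v) (a : E3) (W : M3) (y : E3)
    (i j : Fin 3) :
    pd j (fun y => r1v α v a W y i) y = W i j + (∑ k, r1H α y k i j * r1u v a W (r1P α y) k +
      ∑ k, r1M α y k i * ∑ l, pd l (fun z => r1u v a W z k) (r1P α y) * r1M α y l j) := by
  have h1 : (fun y => r1v α v a W y i) = fun y => (fun y => r1r a W y i) y +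
      (fun y => ∑ k, r1M α y k i * r1u v a W (r1P α y) k) y := rfl
  have hs : ∀ k : Fin 3, ContDiff ℝ ∞ (fun y => r1M α y k i * r1u v a W (r1P α y) k) :=
    fun k => (r1M_smooth α k i).mul (r1_uP_smooth α hv a W k)
  rw [h1, r1_pd_add (r1r_comp_smooth a W i) (r1_sum_smooth hs), r1r_pd, r1_pd_sum hs,
    ← Finset.sum_add_distrib]
  congr 1
  refine Finset.sum_congr rfl fun k _ => ?_
  rw [r1_pd_mul (r1M_smooth α k i) (r1_uP_smooth α hv a W k), r1M_pd,
    r1_chain α (r1_comp_smooth (r1u_smooth hv a W) k)]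

theorem r1v_strain (α : ℝ) {v : E3 → E3} (hv : ContDiff ℝ ∞ v) (a : E3) {W : M3}
    (hW : W.transpose = -W) (y : E3) (i j : Fin 3) :
    strain (r1v α v a W) y i j =
      ∑ k, ((r1H α y k i j + r1H α y k j i) / 2) * r1u v a W (r1P α y) k +
      ∑ k, ∑ l, r1M α y k i * r1M α y l j * strain v (r1P α y) k l := by
  rw [strain_apply _ (r1v_smooth α hv a W), r1v_pd α hv, r1v_pd α hv, r1_anti hW i j]
  simp only [← r1u_strain hv a hW (r1P α y)]
  generalize r1M α y = M
  generalize r1H α y = H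
  generalize hD : (fun l k => pd l (fun z => r1u v a W z k) (r1P α y)) = D
  have hD' : ∀ l k, pd l (fun z => r1u v a W z k) (r1P α y) = D l k := fun l k =>
    congrFun (congrFun hD l) k
  simp only [hD']
  simp only [Fin.sum_univ_three]
  ring

theorem r1_pointwise {κ μ : ℝ} (hκ : 0 < κ) (hμ : 0 < μ) :
    ∃ C : ℝ, 0 < C ∧ ∀ α : ℝ, |α| ≤ 1 → ∀ v : E3 → E3, ContDiff ℝ ∞ v → ∀ (a : E3) (W : M3),
    W.transpose = -W → ∀ y : E3,
    density κ μ (strain (r1v α v a W) y) ≤ (1 + C * |α|) * density κ μ (strain v (r1P α y)) +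
      C * |α| * (({x : E3 | 2 ≤ ‖x‖ ∧ ‖x‖ ≤ 3}.indicator (fun _ => (1:ℝ)) (r1P α y)) *
        ‖r1u v a W (r1P α y)‖ ^ 2) := by
  obtain ⟨C₁, hC₁, hb⟩ := r1_bounds
  obtain ⟨C, hC, halg⟩ := r1_alg hκ hμ C₁ hC₁.le
  refine ⟨C, hC, fun α hα v hv a W hW y => ?_⟩
  set χ : ℝ := {x : E3 | 2 ≤ ‖x‖ ∧ ‖x‖ ≤ 3}.indicator (fun _ => (1:ℝ)) (r1P α y) with hχ
  have hχ0 : 0 ≤ χ := Set.indicator_nonneg (fun _ _ => zero_le_one) _
  have hχ1 : χ ≤ 1 := Set.indicator_le' (f := fun _ => (1:ℝ)) (g := fun _ => 1)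
    (fun _ _ => le_refl _) (fun _ _ => zero_le_one) _
  refine halg |α| χ (strain v (r1P α y)) (strain (r1v α v a W) y) (r1M α y)
    (fun k i j => (r1H α y k i j + r1H α y k j i) / 2) (r1u v a W (r1P α y)) (abs_nonneg _) hα
    hχ0 hχ1 (r1v_strain α hv a hW y) ?_ ?_
  · intro k i
    by_cases hy : y ∈ cb 3
    · exact (hb α hα y hy k i 0).1
    · have h3 : 3 < ‖y‖ := by
        rw [mem_closedBall, dist_zero_right, not_le] at hy
        exact hy
      rw [r1M_far α y h3, sub_self, abs_zero]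
      positivity
  · intro k i j
    have hz : (‖y‖ < 2 ∨ 3 < ‖y‖) → (r1H α y k i j + r1H α y k j i) / 2 = 0 := by
      rintro (h | h)
      · rw [r1H_near α y h, r1H_near α y h]; norm_num
      · rw [r1H_far α y h, r1H_far α y h]; norm_num
    by_cases h2 : ‖y‖ < 2
    · rw [hz (Or.inl h2), abs_zero]
      positivity
    · by_cases h3 : 3 < ‖y‖
      · rw [hz (Or.inr h3), abs_zero]
        positivity
      · have hχ' : χ = 1 := by
          rw [hχ]
          apply Set.indicator_of_mem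
          rw [Set.mem_ofPred_eq, r1P_norm]
          exact ⟨not_lt.1 h2, not_lt.1 h3⟩
        rw [hχ', mul_one]
        have hy : y ∈ cb 3 := by
          rw [mem_closedBall, dist_zero_right]
          exact not_lt.1 h3
        have e1 := (hb α hα y hy k i j).2
        have e2 := (hb α hα y hy k j i).2
        rw [abs_div, abs_two, div_le_iff₀ (by norm_num)]
        calc |r1H α y k i j + r1H α y k j i| ≤ |r1H α y k i j| + |r1H α y k j i| := abs_add_le _ _
          _ ≤ C₁ * |α| * 2 := by linarith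

/-! ### the solid shell -/

/-- one of the six boxes -/
def r1box (s : ℝ) (i : Fin 3) : Set E3 := {y | 1 < s * y i ∧ ∀ j, |y j| < 17 / 5}

theorem r1box_linked (s : ℝ) (i : Fin 3) (h : (r1box s i).Nonempty) : Linked (r1box s i) := by
  refine Linked.base _ ?_ ?_ ?_ h
  · intro x hx y hy a b ha hb hab
    refine ⟨?_, fun j => ?_⟩
    · have h1 := hx.1
      have h2 := hy.1
      have h3 : s * (a • x + b • y) i = a * (s * x i) + b * (s * y i) := by
        simp
        ring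
      rw [h3]
      have h4 : a * 1 ≤ a * (s * x i) := mul_le_mul_of_nonneg_left h1.le ha
      have h5 : b * 1 ≤ b * (s * y i) := mul_le_mul_of_nonneg_left h2.le hb
      rcases eq_or_lt_of_le ha with h0 | h0
      · have hb1 : b = 1 := by linarith
        rw [← h0, hb1]
        simpa using h2
      · have : a * 1 < a * (s * x i) := mul_lt_mul_of_pos_left h1 h0
        linarith
    · have h1 := abs_lt.1 (hx.2 j)
      have h2 := abs_lt.1 (hy.2 j)
      have h3 : (a • x + b • y) j = a * x j + b * y j := by simp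
      rw [h3]
      rcases eq_or_lt_of_le ha with h0 | h0
      · have hb1 : b = 1 := by linarith
        rw [← h0, hb1]
        simpa using hy.2 j
      · rw [abs_lt]
        have e1 : a * x j < a * (17 / 5) := mul_lt_mul_of_pos_left h1.2 h0
        have e2 : a * (-(17 / 5)) < a * x j := mul_lt_mul_of_pos_left h1.1 h0
        have e3 : b * y j ≤ b * (17 / 5) := mul_le_mul_of_nonneg_left h2.2.le hb
        have e4 : b * (-(17 / 5)) ≤ b * y j := mul_le_mul_of_nonneg_left h2.1.le hb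
        constructor <;> nlinarith
  · have hc : ∀ j : Fin 3, Continuous (fun y : E3 => y j) := fun j => (r1_coord_smooth j).continuous
    have h1 : IsOpen {y : E3 | 1 < s * y i} := isOpen_lt continuous_const (continuous_const.mul (hc i))
    have h2 : IsOpen {y : E3 | ∀ j, |y j| < 17 / 5} := by
      have : {y : E3 | ∀ j, |y j| < 17 / 5} = ⋂ j, {y : E3 | |y j| < 17 / 5} := by
        ext y
        simp
      rw [this]
      exact isOpen_iInter_of_finite fun j => isOpen_lt (hc j).abs continuous_const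
    exact h1.inter h2
  · refine (Metric.isBounded_closedBall (x := (0 : E3)) (r := 6)).subset ?_
    intro y hy
    rw [mem_closedBall, dist_zero_right]
    have h1 : ‖y‖ ^ 2 ≤ 36 := by
      rw [EuclideanSpace.real_norm_sq_eq, Fin.sum_univ_three]
      have h0 := fun j => abs_lt.1 (hy.2 j)
      have a0 := h0 0
      have a1 := h0 1
      have a2 := h0 2
      nlinarith
    nlinarith [norm_nonneg y]

/-- the shell -/
def r1T : Set E3 :=
  ((((r1box 1 0 ∪ r1box 1 1) ∪ r1box 1 2) ∪ r1box (-1) 0) ∪ r1box (-1) 1) ∪ r1box (-1) 2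

theorem r1_mem_box {s : ℝ} {i : Fin 3} {f : Fin 3 → ℝ} (h1 : 1 < s * f i)
    (h2 : ∀ j, |f j| < 17 / 5) : mk3 f ∈ r1box s i := ⟨h1, h2⟩

theorem r1T_linked : Linked r1T := by
  have b1 : ∀ j, |(![2, 2, 0] : Fin 3 → ℝ) j| < 17 / 5 := by
    intro j; fin_cases j <;> norm_num
  have b2 : ∀ j, |(![2, 0, 2] : Fin 3 → ℝ) j| < 17 / 5 := by
    intro j; fin_cases j <;> norm_num
  have b3 : ∀ j, |(![-2, 2, 0] : Fin 3 → ℝ) j| < 17 / 5 := by
    intro j; fin_cases j <;> norm_num
  have b4 : ∀ j, |(![2, -2, 0] : Fin 3 → ℝ) j| < 17 / 5 := by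
    intro j; fin_cases j <;> norm_num
  have b5 : ∀ j, |(![2, 0, -2] : Fin 3 → ℝ) j| < 17 / 5 := by
    intro j; fin_cases j <;> norm_num
  have p10 : mk3 ![2, 2, 0] ∈ r1box 1 0 := r1_mem_box (by simp) b1
  have p11 : mk3 ![2, 2, 0] ∈ r1box 1 1 := r1_mem_box (by simp) b1
  have p20 : mk3 ![2, 0, 2] ∈ r1box 1 0 := r1_mem_box (by simp) b2
  have p22 : mk3 ![2, 0, 2] ∈ r1box 1 2 := r1_mem_box (by simp) b2
  have p31 : mk3 ![-2, 2, 0] ∈ r1box 1 1 := r1_mem_box (by simp) b3
  have p30 : mk3 ![-2, 2, 0] ∈ r1box (-1) 0 := r1_mem_box (by simp) b3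
  have p40 : mk3 ![2, -2, 0] ∈ r1box 1 0 := r1_mem_box (by simp) b4
  have p41 : mk3 ![2, -2, 0] ∈ r1box (-1) 1 := r1_mem_box (by simp) b4
  have p50 : mk3 ![2, 0, -2] ∈ r1box 1 0 := r1_mem_box (by simp) b5
  have p52 : mk3 ![2, 0, -2] ∈ r1box (-1) 2 := r1_mem_box (by simp) b5
  refine Linked.union _ _ (Linked.union _ _ (Linked.union _ _ (Linked.union _ _ (Linked.union _ _
    (r1box_linked _ _ ⟨_, p10⟩) (r1box_linked _ _ ⟨_, p11⟩) ⟨_, p10, p11⟩)
    (r1box_linked _ _ ⟨_, p22⟩) ⟨_, Or.inl p20, p22⟩) (r1box_linked _ _ ⟨_, p30⟩)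
    ⟨_, Or.inl (Or.inr p31), p30⟩) (r1box_linked _ _ ⟨_, p41⟩)
    ⟨_, Or.inl (Or.inl (Or.inl p40)), p41⟩) (r1box_linked _ _ ⟨_, p52⟩)
    ⟨_, Or.inl (Or.inl (Or.inl (Or.inl p50))), p52⟩

theorem r1box_sub {s : ℝ} (hs : |s| = 1) (i : Fin 3) : r1box s i ⊆ cb 6 \ cb 1 := by
  intro y hy
  have h0 := fun j => abs_lt.1 (hy.2 j)
  refine ⟨?_, ?_⟩
  · rw [mem_closedBall, dist_zero_right]
    have h1 : ‖y‖ ^ 2 ≤ 36 := by
      rw [EuclideanSpace.real_norm_sq_eq, Fin.sum_univ_three]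
      have a0 := h0 0
      have a1 := h0 1
      have a2 := h0 2
      nlinarith
    nlinarith [norm_nonneg y]
  · rw [mem_closedBall, dist_zero_right, not_le]
    have h1 : 1 < |y i| := by
      have h2 : s * y i ≤ |s * y i| := le_abs_self _
      rw [abs_mul, hs, one_mul] at h2
      exact lt_of_lt_of_le hy.1 h2
    have h3 : |y i| ≤ ‖y‖ := by
      have := EuclideanSpace.norm_eq y
      have h4 := PiLp.norm_apply_le y i
      simpa using h4
    linarith

theorem r1T_sub : r1T ⊆ cb 6 \ cb 1 := by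
  have h1 : |(1:ℝ)| = 1 := abs_one
  have h2 : |(-1:ℝ)| = 1 := by simp
  rintro y (((((h | h) | h) | h) | h) | h)
  · exact r1box_sub h1 _ h
  · exact r1box_sub h1 _ h
  · exact r1box_sub h1 _ h
  · exact r1box_sub h2 _ h
  · exact r1box_sub h2 _ h
  · exact r1box_sub h2 _ h

theorem r1_shell_sub : {x : E3 | 2 ≤ ‖x‖ ∧ ‖x‖ ≤ 3} ⊆ r1T := by
  rintro y ⟨h2, h3⟩
  have hb : ∀ j, |y j| < 17 / 5 := by
    intro j
    have h4 := PiLp.norm_apply_le y j
    rw [Real.norm_eq_abs] at h4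
    linarith
  have hex : ∃ i, 1 < |y i| := by
    by_contra hcon
    push Not at hcon
    have h1 : ‖y‖ ^ 2 ≤ 3 := by
      rw [EuclideanSpace.real_norm_sq_eq, Fin.sum_univ_three]
      have a0 := abs_le.1 (hcon 0)
      have a1 := abs_le.1 (hcon 1)
      have a2 := abs_le.1 (hcon 2)
      nlinarith
    nlinarith
  obtain ⟨i, hi⟩ := hex
  rcases lt_abs.1 hi with h | h
  · have hy : y ∈ r1box 1 i := ⟨by linarith, hb⟩
    fin_cases i
    · exact Or.inl (Or.inl (Or.inl (Or.inl (Or.inl hy))))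
    · exact Or.inl (Or.inl (Or.inl (Or.inl (Or.inr hy))))
    · exact Or.inl (Or.inl (Or.inl (Or.inr hy)))
  · have hy : y ∈ r1box (-1) i := ⟨by linarith, hb⟩
    fin_cases i
    · exact Or.inl (Or.inl (Or.inr hy))
    · exact Or.inl (Or.inr hy)
    · exact Or.inr hy

/-! ### the rotated void -/

theorem r1_image (α : ℝ) (V : Set E3) (hV : V ⊆ cb 1) : mact (RZ α) '' V = r1P α ⁻¹' V := by
  ext x
  constructor
  · rintro ⟨y, hy, rfl⟩
    have h1 : ‖y‖ ≤ 2 := by
      have := hV hy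
      rw [mem_closedBall, dist_zero_right] at this
      linarith
    rw [Set.mem_preimage, r1P_RZ α y h1]
    exact hy
  · intro hx
    refine ⟨r1P α x, hx, ?_⟩
    have h1 : ‖r1P α x‖ ≤ 2 := by
      have := hV hx
      rw [mem_closedBall, dist_zero_right] at this
      linarith
    have h2 : mact (RZ α) (r1P α x) = r1P (-α) (r1P α x) := by rw [r1P_near _ _ h1, neg_neg]
    rw [h2, r1P_inv]

theorem r1_ball_pre (α : ℝ) (r : ℝ) : r1P α ⁻¹' (cb r) = cb r := by
  ext x
  rw [Set.mem_preimage, mem_closedBall, mem_closedBall, dist_zero_right, dist_zero_right, r1P_norm]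

theorem r1_image_diff (α : ℝ) (V : Set E3) (hV : V ⊆ cb 1) :
    r1P α '' (cb 6 \ (mact (RZ α) '' V)) = cb 6 \ V := by
  rw [r1_image α V hV]
  conv_lhs => rw [← r1_ball_pre α 6]
  rw [← Set.preimage_sdiff]
  exact Set.image_preimage_eq _ (r1P_bij α).2

theorem r1_density_cont {κ μ : ℝ} {F : E3 → M3} (hF : Continuous F) :
    Continuous fun x => density κ μ (F x) := by
  have hij : ∀ i j, Continuous fun x => F x i j := fun i j =>
    (continuous_apply j).comp ((continuous_apply i).comp hF)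
  have h1 : (fun x => density κ μ (F x)) = fun x =>
      κ * (∑ i, F x i i) ^ 2 + 2 * μ * ((∑ i, ∑ j, F x i j * F x i j) - (∑ i, F x i i) ^ 2 / 3) := by
    funext x
    rw [density_eq]
    rfl
  rw [h1]
  have ht : Continuous fun x => ∑ i, F x i i := continuous_finsetSum _ fun i _ => hij i i
  have hi : Continuous fun x => ∑ i, ∑ j, F x i j * F x i j :=
    continuous_finsetSum _ fun i _ => continuous_finsetSum _ fun j _ => (hij i j).mul (hij i j)
  exact (continuous_const.mul (ht.pow 2)).add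
    (continuous_const.mul (hi.sub ((ht.pow 2).div_const _)))

theorem r1_integrable {g : E3 → ℝ} (hg : Continuous g) {S : Set E3} (hS : S ⊆ cb 6) :
    IntegrableOn g S :=
  (hg.continuousOn.integrableOn_compact (isCompact_closedBall (0 : E3) 6)).mono_set hS

/-- Rotating the void a little changes the energy only a little. -/
theorem local_rot {κ μ : ℝ} (hκ : 0 < κ) (hμ : 0 < μ) (hKP : ∀ S, Linked S → KPI S) :
    ∃ C : ℝ, 0 < C ∧ ∀ (α : ℝ), |α| ≤ 1 → ∀ V : Set E3, MeasurableSet V → V ⊆ cb 1 →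
    ∀ v : E3 → E3, ContDiff ℝ ∞ v → ∃ v' : E3 → E3, ContDiff ℝ ∞ v' ∧
      (∀ x ∉ cb 3, v' x = v x) ∧
      en κ μ (cb 6 \ (mact (RZ α) '' V)) v' ≤ (1 + C * |α|) * en κ μ (cb 6 \ V) v := by
  obtain ⟨K, hK, hKv⟩ := hKP r1T r1T_linked
  obtain ⟨c, hc, hlow⟩ := density_lower hκ hμ
  obtain ⟨C, hC, hpt⟩ := r1_pointwise hκ hμ
  refine ⟨C + C * (K / c), by positivity, fun α hα V hVm hV v hv => ?_⟩
  obtain ⟨a, W, hW, hkp⟩ := hKv v hv
  refine ⟨r1v α v a W, r1v_smooth α hv a W, r1v_far α v a W, ?_⟩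
  -- measurability
  have hPc : Continuous (r1P α) := (r1P_smooth α).continuous
  have hSm : MeasurableSet (cb 6 \ (mact (RZ α) '' V)) := by
    rw [r1_image α V hV]
    exact measurableSet_closedBall.diff (hPc.measurable hVm)
  set shell : Set E3 := {x : E3 | 2 ≤ ‖x‖ ∧ ‖x‖ ≤ 3} with hshell
  have hshm : MeasurableSet shell :=
    ((isClosed_le continuous_const continuous_norm).inter
      (isClosed_le continuous_norm continuous_const)).measurableSet
  have hshb : shell ⊆ cb 6 := by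
    intro x hx
    rw [mem_closedBall, dist_zero_right]
    linarith [hx.2]
  -- the functions
  have hden : Continuous fun x => density κ μ (strain v x) :=
    r1_density_cont (continuous_strain v hv)
  have hu2 : Continuous fun x => ‖r1u v a W x‖ ^ 2 :=
    ((r1u_smooth hv a W).continuous.norm).pow 2
  set G : E3 → ℝ := fun x => (1 + C * |α|) * density κ μ (strain v x) +
    C * |α| * ((shell.indicator (fun _ => (1:ℝ)) x) * ‖r1u v a W x‖ ^ 2) with hG
  have hind : ∀ x, (shell.indicator (fun _ => (1:ℝ)) x) * ‖r1u v a W x‖ ^ 2 =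
      shell.indicator (fun x => ‖r1u v a W x‖ ^ 2) x := by
    intro x
    by_cases hx : x ∈ shell
    · rw [Set.indicator_of_mem hx, Set.indicator_of_mem hx, one_mul]
    · rw [Set.indicator_of_notMem hx, Set.indicator_of_notMem hx, zero_mul]
  have hI1 : IntegrableOn (fun x => density κ μ (strain v x)) (cb 6) :=
    r1_integrable hden (subset_refl _)
  have hI2 : IntegrableOn (fun x => (shell.indicator (fun _ => (1:ℝ)) x) * ‖r1u v a W x‖ ^ 2)
      (cb 6) := by
    simp only [hind]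
    exact (r1_integrable hu2 (subset_refl _)).indicator hshm
  have hIG : IntegrableOn G (cb 6) := (hI1.const_mul _).add (hI2.const_mul _)
  -- first estimate
  have hIGP : IntegrableOn (fun y => G (r1P α y)) (cb 6 \ (mact (RZ α) '' V)) := by
    have h1 : IntegrableOn G (r1P α '' (cb 6 \ (mact (RZ α) '' V))) := by
      rw [r1_image_diff α V hV]
      exact hIG.mono_set Set.sdiff_subset
    have h2 := (integrableOn_image_iff_integrableOn_abs_det_fderiv_smul volume hSm
      (fun x _ => (r1_hasFDeriv α x).hasFDerivWithinAt) ((r1P_bij α).1.injOn) G).1 h1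
    simpa [r1_det] using h2
  have e1 : en κ μ (cb 6 \ (mact (RZ α) '' V)) (r1v α v a W) ≤
      ∫ y in cb 6 \ (mact (RZ α) '' V), G (r1P α y) := by
    unfold en
    refine setIntegral_mono_on ?_ hIGP hSm fun y _ => hpt α hα v hv a W hW y
    exact r1_integrable (r1_density_cont (continuous_strain _ (r1v_smooth α hv a W)))
      Set.sdiff_subset
  rw [r1_integral α _ hSm G, r1_image_diff α V hV] at e1
  -- splitting
  have e2 : ∫ x in cb 6 \ V, G x = (1 + C * |α|) * en κ μ (cb 6 \ V) v +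
      C * |α| * ∫ x in cb 6 \ V, shell.indicator (fun x => ‖r1u v a W x‖ ^ 2) x := by
    have h1 := integral_add (μ := volume.restrict (cb 6 \ V))
      ((hI1.mono_set (Set.sdiff_subset (t := V))).const_mul (1 + C * |α|))
      ((hI2.mono_set (Set.sdiff_subset (t := V))).const_mul (C * |α|))
    rw [integral_const_mul, integral_const_mul] at h1
    simp only [hind] at h1
    unfold en
    rw [← h1]
    simp only [hG, hind]
  -- the shell term
  have hTo : MeasurableSet r1T := by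
    have hbox : ∀ s i, MeasurableSet (r1box s i) := by
      intro s i
      have hc : ∀ j : Fin 3, Continuous (fun y : E3 => y j) :=
        fun j => (r1_coord_smooth j).continuous
      have h1 : IsOpen {y : E3 | 1 < s * y i} :=
        isOpen_lt continuous_const (continuous_const.mul (hc i))
      have h2 : IsOpen {y : E3 | ∀ j, |y j| < 17 / 5} := by
        have : {y : E3 | ∀ j, |y j| < 17 / 5} = ⋂ j, {y : E3 | |y j| < 17 / 5} := by
          ext y
          simp
        rw [this]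
        exact isOpen_iInter_of_finite fun j => isOpen_lt (hc j).abs continuous_const
      exact (h1.inter h2).measurableSet
    exact (((((hbox _ _).union (hbox _ _)).union (hbox _ _)).union (hbox _ _)).union
      (hbox _ _)).union (hbox _ _)
  have hTV : r1T ⊆ cb 6 \ V := r1T_sub.trans (Set.sdiff_subset_sdiff_right hV)
  have hT6 : r1T ⊆ cb 6 := hTV.trans Set.sdiff_subset
  have e3 : ∫ x in cb 6 \ V, shell.indicator (fun x => ‖r1u v a W x‖ ^ 2) x ≤
      ∫ x in r1T, ‖r1u v a W x‖ ^ 2 := by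
    rw [setIntegral_indicator hshm]
    refine setIntegral_mono_set (r1_integrable hu2 hT6) ?_ ?_
    · exact Filter.Eventually.of_forall fun x => by positivity
    · exact (Set.Subset.trans Set.inter_subset_right r1_shell_sub).eventuallyLE
  have hinn : Continuous fun x => inn (strain v x) (strain v x) := by
    have hij : ∀ i j, Continuous fun x => strain v x i j := fun i j =>
      (continuous_apply j).comp ((continuous_apply i).comp (continuous_strain v hv))
    exact continuous_finsetSum _ fun i _ => continuous_finsetSum _ fun j _ =>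
      (hij i j).mul (hij i j)
  have e4 : ∫ x in r1T, inn (strain v x) (strain v x) ≤
      (1 / c) * ∫ x in r1T, density κ μ (strain v x) := by
    rw [← integral_const_mul]
    refine setIntegral_mono_on (r1_integrable hinn hT6)
      ((r1_integrable hden hT6).const_mul _) hTo fun x _ => ?_
    rw [one_div, ← div_eq_inv_mul, le_div_iff₀ hc, mul_comm]
    exact hlow _
  have e5 : ∫ x in r1T, density κ μ (strain v x) ≤ en κ μ (cb 6 \ V) v := by
    refine setIntegral_mono_set (hI1.mono_set Set.sdiff_subset) ?_ hTV.eventuallyLE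
    exact Filter.Eventually.of_forall fun x => density_nonneg hκ hμ _
  have hkp' : ∫ x in r1T, ‖r1u v a W x‖ ^ 2 ≤ K * ∫ x in r1T, inn (strain v x) (strain v x) := hkp
  have e6 : ∫ x in cb 6 \ V, shell.indicator (fun x => ‖r1u v a W x‖ ^ 2) x ≤
      (K / c) * en κ μ (cb 6 \ V) v := by
    calc _ ≤ ∫ x in r1T, ‖r1u v a W x‖ ^ 2 := e3
      _ ≤ K * ∫ x in r1T, inn (strain v x) (strain v x) := hkp'
      _ ≤ K * ((1 / c) * ∫ x in r1T, density κ μ (strain v x)) :=
          mul_le_mul_of_nonneg_left e4 hK.le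
      _ ≤ K * ((1 / c) * en κ μ (cb 6 \ V) v) :=
          mul_le_mul_of_nonneg_left (mul_le_mul_of_nonneg_left e5 (by positivity)) hK.le
      _ = _ := by ring
  rw [e2] at e1
  have e7 := mul_le_mul_of_nonneg_left e6 (show 0 ≤ C * |α| by positivity)
  calc _ ≤ (1 + C * |α|) * en κ μ (cb 6 \ V) v +
      C * |α| * ∫ x in cb 6 \ V, shell.indicator (fun x => ‖r1u v a W x‖ ^ 2) x := e1
    _ ≤ (1 + C * |α|) * en κ μ (cb 6 \ V) v + C * |α| * ((K / c) * en κ μ (cb 6 \ V) v) := by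
        linarith
    _ = (1 + (C + C * (K / c)) * |α|) * en κ μ (cb 6 \ V) v := by ring

end Pool.Agent.ShearComposite.D3
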