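import Pool.Agent.ShearComposite3.Alg
import Pool.Agent.ShearComposite3.CellA
import Pool.Agent.ShearComposite3.CellB
import Pool.Agent.ShearComposite3.Iso
import Pool.Agent.ShearComposite3.Cov
import Pool.Agent.ShearComposite3.OmFacts

/-!
# Lower bound for the composite with correctors
-/

set_option autoImplicit false

open MeasureTheory Metric
open scoped ContDiff

namespace Pool.Agent.ShearComposite.D3

theorem f2_density_cont (κ μ : ℝ) (v : E3 → E3) (hv : ContDiff ℝ ∞ v) :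
    Continuous fun x => density κ μ (strain v x) := by
  have h1 := continuous_strain v hv
  have h2 : ∀ i j : Fin 3, Continuous fun x => strain v x i j := fun i j => h1.matrix_elem i j
  have h3 : Continuous fun x => (strain v x).trace := by
    unfold Matrix.trace Matrix.diag
    exact continuous_finsetSum _ fun i _ => h2 i i
  have h4 : Continuous fun x => inn (strain v x) (strain v x) := by
    unfold inn
    exact continuous_finsetSum _ fun i _ => continuous_finsetSum _ fun j _ => (h2 i j).mul (h2 i j)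
  have h5 : (fun x => density κ μ (strain v x)) = fun x =>
      κ * (strain v x).trace ^ 2 +
        2 * μ * (inn (strain v x) (strain v x) - (strain v x).trace ^ 2 / 3) :=
    funext fun x => density_eq κ μ _
  rw [h5]
  fun_prop

theorem f2_inn_cont (σ : M3) (v : E3 → E3) (hv : ContDiff ℝ ∞ v) :
    Continuous fun x => inn σ (strain v x) := by
  have h1 := continuous_strain v hv
  unfold inn
  exact continuous_finsetSum _ fun i _ => continuous_finsetSum _ fun j _ =>
    continuous_const.mul (h1.matrix_elem i j)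

theorem f2_intOn (g : E3 → ℝ) (hg : Continuous g) (S : Set E3) (hS : Bornology.IsBounded S) :
    IntegrableOn g S := by
  obtain ⟨R, hR⟩ := hS.subset_closedBall 0
  exact (hg.continuousOn.integrableOn_compact (isCompact_closedBall 0 R)).mono_set hR

theorem f2_en_nonneg {κ μ : ℝ} (hκ : 0 < κ) (hμ : 0 < μ) (A : Set E3) (v : E3 → E3) :
    0 ≤ en κ μ A v :=
  integral_nonneg fun _ => density_nonneg hκ hμ _

theorem f2_en_union {κ μ : ℝ} {A B : Set E3} (v : E3 → E3) (hv : ContDiff ℝ ∞ v)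
    (hd : Disjoint A B) (hB : MeasurableSet B) (hA1 : Bornology.IsBounded A)
    (hB1 : Bornology.IsBounded B) : en κ μ (A ∪ B) v = en κ μ A v + en κ μ B v := by
  unfold en
  exact setIntegral_union hd hB (f2_intOn _ (f2_density_cont κ μ v hv) _ hA1)
    (f2_intOn _ (f2_density_cont κ μ v hv) _ hB1)

theorem f2_en_mono {κ μ : ℝ} (hκ : 0 < κ) (hμ : 0 < μ) {A B : Set E3} (v : E3 → E3)
    (hv : ContDiff ℝ ∞ v) (h : A ⊆ B) (hB : Bornology.IsBounded B) :
    en κ μ A v ≤ en κ μ B v := by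
  unfold en
  exact setIntegral_mono_set (f2_intOn _ (f2_density_cont κ μ v hv) _ hB)
    (Filter.Eventually.of_forall fun x => density_nonneg hκ hμ _) (h.eventuallyLE)

/-- the block is closed -/
theorem f2_inner_closed (L η : ℝ) : IsClosed (inner L η) := by
  have : inner L η = ⋂ i : Fin 3, {x : E3 | |x i - L / 2| ≤ (1 / 2 - η) * L} := by
    ext x
    simp [inner]
  rw [this]
  apply isClosed_iInter
  intro i
  exact isClosed_le (by fun_prop) continuous_const

theorem f2_inner_cell {L η : ℝ} (hL : 0 < L) (hη : 0 < η) :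
    inner L η ⊆ {x | ∀ j, 0 < x j ∧ x j < 2 * L} := by
  intro x hx j
  have h := abs_le.1 (hx j)
  have : 0 < η * L := mul_pos hη hL
  constructor <;> nlinarith

theorem f2_cden {κ μ : ℝ} (hμ : 0 < μ) (ε₀ : M3) (hε : ε₀ = NA ∨ ε₀ = E12) :
    cden κ μ ((2 * μ) • ε₀) = 4 * μ := by
  have h1 : ((2 * μ) • ε₀).trace = 0 := by
    rcases hε with rfl | rfl <;> simp [NA, E12, Matrix.trace, Fin.sum_univ_three]
  rw [cden_trace_zero κ μ _ h1]
  have h2 : inn ((2 * μ) • ε₀) ((2 * μ) • ε₀) = 8 * μ ^ 2 := by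
    rcases hε with rfl | rfl <;> simp [NA, E12, inn, Fin.sum_univ_three] <;> ring
  rw [h2]
  field_simp
  norm_num

theorem f2_mean {μ : ℝ} (ε₀ : M3) (hε : ε₀ = NA ∨ ε₀ = E12) : inn ((2 * μ) • ε₀) ε₀ = 4 * μ := by
  rcases hε with rfl | rfl <;> simp [NA, E12, inn, Fin.sum_univ_three] <;> ring

theorem f2_symm (ε₀ : M3) (hε : ε₀ = NA ∨ ε₀ = E12) : ε₀.IsSymm := by
  rcases hε with rfl | rfl <;> ext i j <;> fin_cases i <;> fin_cases j <;>
    simp [NA, E12, Matrix.transpose_apply]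

theorem f2_ball_vol (a : E3) {lam : ℝ} (hl : 0 < lam) :
    (volume (closedBall a (lam * 6))).toReal = lam ^ 3 * (volume (cb 6)).toReal := by
  rw [Measure.addHaar_closedBall_mul volume a hl.le (by norm_num : (0 : ℝ) ≤ 6)]
  rw [ENNReal.toReal_mul, ENNReal.toReal_ofReal (by positivity)]
  simp

theorem f2_test {P : ℝ} (hP : 0 < P) {μ : ℝ} (ε₀ : M3) (hε : ε₀ = NA ∨ ε₀ = E12) (v : E3 → E3)
    (hv : v ∈ Adm P ε₀) :
    ∫ x in cell P, inn ((2 * μ) • ε₀) (strain v x) = 4 * μ * P ^ 3 := by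
  have hs := f2_symm ε₀ hε
  have h := weak_identity hP (fun _ => (2 * μ) • ε₀) (fun i j => contDiff_const)
    (fun i x => rfl) (fun x i j => by
      rw [Matrix.smul_apply, Matrix.smul_apply, hs.apply j i]) (fun _ _ => 0)
    (fun i x => by simp [pd]) ε₀ hs v hv
  rw [h]
  simp only [zero_mul, Finset.sum_const_zero, integral_zero, sub_zero, f2_mean ε₀ hε]
  rw [setIntegral_const, Measure.real, volume_cell P hP, ENNReal.toReal_ofReal (by positivity)]
  simp only [smul_eq_mul]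
  ring

theorem lowerF {κ μ : ℝ} (hκ : 0 < κ) (hμ : 0 < μ) {L θ η : ℝ} (hL : 0 < L) (hθ : 0 < θ)
    (hθ' : θ ≤ 1 / 96) (hη : 0 < η) (hη' : η ≤ 1 / 16) (Ω₀ V : Set E3) (hm : MeasurableSet Ω₀)
    (hV : MeasurableSet V) (hV1 : V ⊆ cb 1) (hin : inner L η ⊆ Ω₀) (ε₀ : M3)
    (hε : ε₀ = NA ∨ ε₀ = E12)
    (hbase : ∀ v ∈ Adm (2 * L) ε₀,
      2 * (∫ x in cell (2 * L) \ inner L η, inn ((2 * μ) • ε₀) (strain v x))
        - (4 * μ * (volume (cell (2 * L) \ inner L η)).toReal + η * L ^ 3)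
        ≤ (1 + η) * en κ μ ((cell (2 * L) \ inner L η) ∩ Ω₀) v) (c : ℝ)
    (hst : ∀ g : G24, Stiff κ μ (cb 6) V
      ((gmat g).transpose * ((2 * μ) • ε₀) * gmat g) (4 * μ * (volume (cb 6)).toReal + c)) :
    4 * μ - η / 8 - 3 * θ ^ 3 * c ≤ (1 + η) * Wq κ μ (2 * L) (Om L θ Ω₀ V) ε₀ := by
  have hP : 0 < 2 * L := by linarith
  have hlam : 0 < θ * L := mul_pos hθ hL
  set σ : M3 := (2 * μ) • ε₀ with hσ
  suffices hmain : ∀ v ∈ Adm (2 * L) ε₀, (4 * μ - η / 8 - 3 * θ ^ 3 * c) * (2 * L) ^ 3 ≤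
      (1 + η) * en κ μ (cell (2 * L) ∩ Om L θ Ω₀ V) v by
    have h1 : (4 * μ - η / 8 - 3 * θ ^ 3 * c) / (1 + η) ≤ Wq κ μ (2 * L) (Om L θ Ω₀ V) ε₀ := by
      apply le_Wq _ _ (f2_symm ε₀ hε)
      intro v hv
      have h2 := hmain v hv
      rw [div_le_iff₀ (by linarith)]
      have h3 : 0 < (2 * L) ^ 3 := by positivity
      have h4 : 4 * μ - η / 8 - 3 * θ ^ 3 * c =
          ((2 * L) ^ 3)⁻¹ * ((4 * μ - η / 8 - 3 * θ ^ 3 * c) * (2 * L) ^ 3) := by
        field_simp
      rw [h4]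
      calc ((2 * L) ^ 3)⁻¹ * ((4 * μ - η / 8 - 3 * θ ^ 3 * c) * (2 * L) ^ 3)
          ≤ ((2 * L) ^ 3)⁻¹ * ((1 + η) * en κ μ (cell (2 * L) ∩ Om L θ Ω₀ V) v) :=
            mul_le_mul_of_nonneg_left h2 (by positivity)
        _ = ((2 * L) ^ 3)⁻¹ * en κ μ (cell (2 * L) ∩ Om L θ Ω₀ V) v * (1 + η) := by ring
    rw [div_le_iff₀ (by linarith)] at h1
    linarith
  intro v hv
  have hvs : ContDiff ℝ ∞ v := hv.1
  -- the sets
  let C : Set E3 := cell (2 * L)
  let I : Set E3 := inner L η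
  let ball : G24 → Set E3 := fun g => closedBall (ctr L g) (θ * L * 6)
  let B : Set E3 := ⋃ g ∈ (Finset.univ : Finset G24), ball g
  have hCm : MeasurableSet C := measurableSet_cell _
  have hCb : Bornology.IsBounded C := isBounded_cell _
  have hIm : MeasurableSet I := (f2_inner_closed L η).measurableSet
  have hbm : ∀ g, MeasurableSet (ball g) := fun g => isClosed_closedBall.measurableSet
  have hbb : ∀ g, Bornology.IsBounded (ball g) := fun g => isBounded_closedBall
  have hBm : MeasurableSet B := Finset.measurableSet_biUnion _ fun g _ => hbm g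
  have hii : inner L (1 / 16) ⊆ I := by
    intro x hx i
    refine (hx i).trans ?_
    apply mul_le_mul_of_nonneg_right _ hL.le
    linarith
  have hbi : ∀ g, ball g ⊆ I := fun g => (ball_inner hL hθ hθ' g).trans hii
  have hBI : B ⊆ I := Set.iUnion₂_subset fun g _ => hbi g
  have hIC : I ⊆ C := fun x hx i => ⟨(f2_inner_cell hL hη hx i).1.le, (f2_inner_cell hL hη hx i).2⟩
  have hIb : Bornology.IsBounded I := hCb.subset hIC
  have hBb : Bornology.IsBounded B := hIb.subset hBI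
  have hdis : ∀ g ∈ (Finset.univ : Finset G24), ∀ g' ∈ (Finset.univ : Finset G24), g ≠ g' →
      Disjoint (ball g) (ball g') := fun g _ g' _ h => ball_disj hL hθ hθ' g g' h
  have hpw : Set.PairwiseDisjoint (↑(Finset.univ : Finset G24)) ball := by
    intro g _ g' _ h
    exact ball_disj hL hθ hθ' g g' h
  have hOm : MeasurableSet (Om L θ Ω₀ V) := Om_meas hL hθ hθ' Ω₀ V hm hV
  -- decomposition of integrals over the cell
  have hdec : ∀ f : E3 → ℝ, Continuous f →
      ∫ x in C, f x = (∫ x in C \ I, f x) + (∫ x in I \ B, f x) + ∑ g, ∫ x in ball g, f x := by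
    intro f hf
    have e1 : C = (C \ I) ∪ I := (Set.sdiff_union_of_subset hIC).symm
    have e2 : I = (I \ B) ∪ B := (Set.sdiff_union_of_subset hBI).symm
    have i1 : ∫ x in C, f x = (∫ x in C \ I, f x) + ∫ x in I, f x := by
      conv_lhs => rw [e1]
      exact setIntegral_union disjoint_sdiff_self_left hIm (f2_intOn f hf _ (hCb.subset Set.sdiff_subset))
        (f2_intOn f hf _ hIb)
    have i2 : ∫ x in I, f x = (∫ x in I \ B, f x) + ∫ x in B, f x := by
      conv_lhs => rw [e2]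
      exact setIntegral_union disjoint_sdiff_self_left hBm (f2_intOn f hf _ (hIb.subset Set.sdiff_subset))
        (f2_intOn f hf _ hBb)
    have i3 : ∫ x in B, f x = ∑ g, ∫ x in ball g, f x := by
      apply integral_biUnion_finset _ (fun g _ => hbm g)
      · intro g hg g' hg' h
        exact ball_disj hL hθ hθ' g g' h
      · intro g _
        exact f2_intOn f hf _ (hbb g)
    rw [i1, i2, i3]
    ring
  -- decomposition of the energy
  have hen : en κ μ (C ∩ Om L θ Ω₀ V) v = en κ μ ((C \ I) ∩ Ω₀) v + en κ μ (I \ B) v +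
      ∑ g, en κ μ (ball g ∩ Om L θ Ω₀ V) v := by
    have e1 : C ∩ Om L θ Ω₀ V = ((C \ I) ∩ Ω₀) ∪ ((I \ B) ∪ (B ∩ Om L θ Ω₀ V)) := by
      ext x
      constructor
      · rintro ⟨hxC, hxO⟩
        by_cases hxI : x ∈ I
        · right
          by_cases hxB : x ∈ B
          · exact Or.inr ⟨hxB, hxO⟩
          · exact Or.inl ⟨hxI, hxB⟩
        · exact Or.inl ⟨⟨hxC, hxI⟩, hxO.1⟩
      · rintro (⟨⟨hxC, hxI⟩, hxO⟩ | ⟨hxI, hxB⟩ | ⟨hxB, hxO⟩)
        · refine ⟨hxC, (Om_out hL hθ hθ' Ω₀ V hV1 x hxC ?_).2 hxO⟩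
          intro g hg
          exact hxI (hbi g hg)
        · refine ⟨hIC hxI, (Om_out hL hθ hθ' Ω₀ V hV1 x (hIC hxI) ?_).2 (hin hxI)⟩
          intro g hg
          exact hxB (Set.mem_biUnion (Finset.mem_univ g) hg)
        · exact ⟨hIC (hBI hxB), hxO⟩
    have e2 : B ∩ Om L θ Ω₀ V = ⋃ g ∈ (Finset.univ : Finset G24), (ball g ∩ Om L θ Ω₀ V) := by
      ext x
      simp only [B, Set.mem_inter_iff, Set.mem_iUnion, Finset.mem_univ, exists_prop, true_and]
      constructor
      · rintro ⟨⟨g, hg⟩, h⟩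
        exact ⟨g, hg, h⟩
      · rintro ⟨g, hg, h⟩
        exact ⟨⟨g, hg⟩, h⟩
    have i1 : en κ μ (C ∩ Om L θ Ω₀ V) v = en κ μ ((C \ I) ∩ Ω₀) v +
        en κ μ ((I \ B) ∪ (B ∩ Om L θ Ω₀ V)) v := by
      rw [e1]
      apply f2_en_union v hvs
      · rw [Set.disjoint_left]
        rintro x ⟨⟨_, h1⟩, _⟩ (⟨h2, _⟩ | ⟨h2, _⟩)
        · exact h1 h2
        · exact h1 (hBI h2)
      · exact (hIm.diff hBm).union (hBm.inter hOm)
      · exact hCb.subset fun x hx => hx.1.1
      · apply hIb.subset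
        rintro x (h | h)
        · exact h.1
        · exact hBI h.1
    have i2 : en κ μ ((I \ B) ∪ (B ∩ Om L θ Ω₀ V)) v = en κ μ (I \ B) v +
        en κ μ (B ∩ Om L θ Ω₀ V) v := by
      apply f2_en_union v hvs
      · rw [Set.disjoint_left]
        rintro x ⟨_, h1⟩ ⟨h2, _⟩
        exact h1 h2
      · exact hBm.inter hOm
      · exact hIb.subset Set.sdiff_subset
      · exact hBb.subset Set.inter_subset_left
    have i3 : en κ μ (B ∩ Om L θ Ω₀ V) v = ∑ g, en κ μ (ball g ∩ Om L θ Ω₀ V) v := by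
      unfold en
      rw [e2]
      apply integral_biUnion_finset _ (fun g _ => (hbm g).inter hOm)
      · intro g hg g' hg' h
        exact (ball_disj hL hθ hθ' g g' h).mono Set.inter_subset_left Set.inter_subset_left
      · intro g _
        exact f2_intOn _ (f2_density_cont κ μ v hvs) _ ((hbb g).subset Set.inter_subset_left)
    rw [i1, i2, i3]
    ring
  -- the three bounds
  have b1 := hbase v hv
  have b2 : 2 * (∫ x in I \ B, inn σ (strain v x)) - 4 * μ * (volume (I \ B)).toReal ≤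
      en κ μ (I \ B) v := by
    have hvf : volume (I \ B) ≠ ⊤ := (hIb.subset Set.sdiff_subset).measure_lt_top.ne
    have h1 : ∫ x in I \ B, (2 * inn σ (strain v x) - 4 * μ) ≤ en κ μ (I \ B) v := by
      unfold en
      apply integral_mono
      · exact f2_intOn _ (((f2_inn_cont σ v hvs).const_mul 2).sub continuous_const) _
          (hIb.subset Set.sdiff_subset)
      · exact f2_intOn _ (f2_density_cont κ μ v hvs) _ (hIb.subset Set.sdiff_subset)
      · intro x
        have := density_dual hκ hμ (strain v x) σ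
        rw [hσ, f2_cden hμ ε₀ hε] at this
        show 2 * inn σ (strain v x) - 4 * μ ≤ density κ μ (strain v x)
        rw [hσ]
        linarith
    have h2 : ∫ x in I \ B, (2 * inn σ (strain v x) - 4 * μ) =
        2 * (∫ x in I \ B, inn σ (strain v x)) - 4 * μ * (volume (I \ B)).toReal := by
      have hi1 : Integrable (fun x => 2 * inn σ (strain v x)) (volume.restrict (I \ B)) :=
        f2_intOn _ ((f2_inn_cont σ v hvs).const_mul 2) _ (hIb.subset Set.sdiff_subset)
      have hi2 : Integrable (fun _ : E3 => 4 * μ) (volume.restrict (I \ B)) :=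
        f2_intOn _ continuous_const _ (hIb.subset Set.sdiff_subset)
      rw [integral_sub hi1 hi2, integral_const_mul, setIntegral_const, Measure.real, smul_eq_mul]
      ring
    linarith
  have b3 : ∀ g : G24, 2 * (∫ x in ball g, inn σ (strain v x)) -
      (4 * μ * (volume (ball g)).toReal + (θ * L) ^ 3 * c) ≤ en κ μ (ball g ∩ Om L θ Ω₀ V) v := by
    intro g
    have h1 := stiff_sim (ctr L g) hlam (gmat g) (gmat_orth g) (cb 6) V
      isClosed_closedBall.measurableSet hV σ _ (hst g)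
    have h2 := h1 v hvs
    rw [sim_closedBall (ctr L g) hlam (gmat g) (gmat_orth g) 6 (by norm_num)] at h2
    have h3 : closedBall (ctr L g) (θ * L * 6) \ sim (ctr L g) (θ * L) (gmat g) '' V =
        ball g ∩ Om L θ Ω₀ V := by
      show _ = closedBall (ctr L g) (θ * L * 6) ∩ Om L θ Ω₀ V
      rw [Om_ball hL hθ hθ' Ω₀ V hV1 (hii.trans hin) g,
        Set.image_sdiff (f1_sim_inj _ hlam _ (gmat_orth g)),
        sim_closedBall (ctr L g) hlam (gmat g) (gmat_orth g) 6 (by norm_num)]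
    rw [h3] at h2
    have h4 : (volume (ball g)).toReal = (θ * L) ^ 3 * (volume (cb 6)).toReal :=
      f2_ball_vol _ hlam
    rw [h4]
    show 2 * (∫ x in closedBall (ctr L g) (θ * L * 6), inn σ (strain v x)) - _ ≤ _
    linarith
  -- volumes
  have hvol : (volume C).toReal = (volume (C \ I)).toReal + (volume (I \ B)).toReal +
      ∑ g, (volume (ball g)).toReal := by
    have h := hdec (fun _ => 1) continuous_const
    simpa [Measure.real] using h
  have hvolC : (volume C).toReal = (2 * L) ^ 3 := by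
    show (volume (cell (2 * L))).toReal = (2 * L) ^ 3
    rw [volume_cell _ hP, ENNReal.toReal_ofReal (by positivity)]
  have htest : ∫ x in C, inn σ (strain v x) = 4 * μ * (2 * L) ^ 3 := f2_test hP ε₀ hε v hv
  have hdi := hdec (fun x => inn σ (strain v x)) (f2_inn_cont σ v hvs)
  have hsum : 2 * (∑ g, ∫ x in ball g, inn σ (strain v x)) -
      (4 * μ * (∑ g, (volume (ball g)).toReal) + 24 * ((θ * L) ^ 3 * c)) ≤
      ∑ g, en κ μ (ball g ∩ Om L θ Ω₀ V) v := by
    have h1 := Finset.sum_le_sum fun g (_ : g ∈ (Finset.univ : Finset G24)) => b3 g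
    rw [Finset.sum_sub_distrib, Finset.sum_add_distrib, ← Finset.mul_sum, ← Finset.mul_sum,
      Finset.sum_const] at h1
    have h2 : (Finset.univ : Finset G24).card = 24 := by decide
    rw [h2] at h1
    simpa using h1
  have n1 : 0 ≤ en κ μ (I \ B) v := f2_en_nonneg hκ hμ _ _
  have n2 : 0 ≤ ∑ g, en κ μ (ball g ∩ Om L θ Ω₀ V) v :=
    Finset.sum_nonneg fun g _ => f2_en_nonneg hκ hμ _ _
  show _ ≤ (1 + η) * en κ μ (C ∩ Om L θ Ω₀ V) v
  rw [hen]
  have n3 : en κ μ (I \ B) v ≤ (1 + η) * en κ μ (I \ B) v := by nlinarith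
  have n4 : ∑ g, en κ μ (ball g ∩ Om L θ Ω₀ V) v ≤
      (1 + η) * ∑ g, en κ μ (ball g ∩ Om L θ Ω₀ V) v := by nlinarith
  have b1' : 2 * (∫ x in C \ I, inn σ (strain v x)) - (4 * μ * (volume (C \ I)).toReal + η * L ^ 3)
      ≤ (1 + η) * en κ μ ((C \ I) ∩ Ω₀) v := b1
  have hfin : (4 * μ - η / 8 - 3 * θ ^ 3 * c) * (2 * L) ^ 3 =
      2 * (4 * μ * (2 * L) ^ 3) - 4 * μ * (2 * L) ^ 3 - η * L ^ 3 - 24 * ((θ * L) ^ 3 * c) := by
    ring
  rw [hfin]
  rw [htest] at hdi
  rw [hvolC] at hvol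
  have : 4 * μ * (2 * L) ^ 3 = 4 * μ * ((volume (C \ I)).toReal + (volume (I \ B)).toReal +
      ∑ g, (volume (ball g)).toReal) := by rw [← hvol]
  have e3 : (1 + η) * (en κ μ ((C \ I) ∩ Ω₀) v + en κ μ (I \ B) v +
      ∑ g, en κ μ (ball g ∩ Om L θ Ω₀ V) v) = (1 + η) * en κ μ ((C \ I) ∩ Ω₀) v +
      (1 + η) * en κ μ (I \ B) v + (1 + η) * ∑ g, en κ μ (ball g ∩ Om L θ Ω₀ V) v := by ring
  rw [e3]
  linarith

end Pool.Agent.ShearComposite.D3
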