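import Pool.Agent.ShearComposite3.Alg
import Pool.Agent.ShearComposite3.CellA
import Pool.Agent.ShearComposite3.Iso
import Pool.Agent.ShearComposite3.Cov
import Pool.Agent.ShearComposite3.Glue
import Pool.Agent.ShearComposite3.OmFacts

/-!
# Upper bounds for the composite with correctors
-/

set_option autoImplicit false

open MeasureTheory Metric
open scoped ContDiff

namespace Pool.Agent.ShearComposite.D3

theorem f3_density_cont (κ μ : ℝ) (v : E3 → E3) (hv : ContDiff ℝ ∞ v) :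
    Continuous fun x => density κ μ (strain v x) := by
  have h1 := continuous_strain v hv
  have h2 : ∀ i j : Fin 3, Continuous fun x => strain v x i j := fun i j => h1.matrix_elem i j
  have h3 : Continuous fun x => (strain v x).trace := by
    unfold Matrix.trace Matrix.diag
    exact continuous_finsetSum _ fun i _ => h2 i i
  have h4 : Continuous fun x => inn (strain v x) (strain v x) := by
    unfold inn
    exact continuous_finsetSum _ fun i _ => continuous_finsetSum _ fun j _ => (h2 i j).mul (h2 i j)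
  have h5 : (fun x => density κ μ (strain v x)) = fun x =>
      κ * (strain v x).trace ^ 2 +
        2 * μ * (inn (strain v x) (strain v x) - (strain v x).trace ^ 2 / 3) :=
    funext fun x => density_eq κ μ _
  rw [h5]
  fun_prop

theorem f3_intOn (g : E3 → ℝ) (hg : Continuous g) (S : Set E3) (hS : Bornology.IsBounded S) :
    IntegrableOn g S := by
  obtain ⟨R, hR⟩ := hS.subset_closedBall 0
  exact (hg.continuousOn.integrableOn_compact (isCompact_closedBall 0 R)).mono_set hR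

theorem f3_en_mono {κ μ : ℝ} (hκ : 0 < κ) (hμ : 0 < μ) {A B : Set E3} (v : E3 → E3)
    (hv : ContDiff ℝ ∞ v) (h : A ⊆ B) (hB : Bornology.IsBounded B) :
    en κ μ A v ≤ en κ μ B v := by
  unfold en
  exact setIntegral_mono_set (f3_intOn _ (f3_density_cont κ μ v hv) _ hB)
    (Filter.Eventually.of_forall fun x => density_nonneg hκ hμ _) (h.eventuallyLE)

theorem f3_en_union {κ μ : ℝ} {A B : Set E3} (v : E3 → E3) (hv : ContDiff ℝ ∞ v)
    (hd : Disjoint A B) (hB : MeasurableSet B) (hA1 : Bornology.IsBounded A)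
    (hB1 : Bornology.IsBounded B) : en κ μ (A ∪ B) v = en κ μ A v + en κ μ B v := by
  unfold en
  exact setIntegral_union hd hB (f3_intOn _ (f3_density_cont κ μ v hv) _ hA1)
    (f3_intOn _ (f3_density_cont κ μ v hv) _ hB1)

theorem f3_mact_adm (P : ℝ) (ε₀ : M3) : (fun x => mact ε₀ x) ∈ Adm P ε₀ := by
  refine ⟨a1_mact_contDiff ε₀, ?_⟩
  intro i j x
  have h1 : mact ε₀ (x + EuclideanSpace.single i P) =
      mact ε₀ x + mact ε₀ (EuclideanSpace.single i P) := v1_add _ _ _
  have h2 : mact ε₀ (EuclideanSpace.single i P) j = P * ε₀ j i := by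
    rw [v1_apply]
    simp [mul_comm]
  show mact ε₀ (x + EuclideanSpace.single i P) j = mact ε₀ x j + P * ε₀ j i
  rw [h1, PiLp.add_apply, h2]

/-- the energy of an affine displacement -/
theorem f3_en_affine {κ μ : ℝ} (A : Set E3) (ε₀ : M3) (hε : ε₀.IsSymm) :
    en κ μ A (fun x => mact ε₀ x) = density κ μ ε₀ * (volume A).toReal := by
  unfold en
  simp only [strain_mact ε₀ hε]
  rw [setIntegral_const, Measure.real, smul_eq_mul, mul_comm]

theorem upper_one {κ μ : ℝ} (hκ : 0 < κ) (hμ : 0 < μ) {L θ η : ℝ} (hL : 0 < L) (Ω₀ V : Set E3)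
    (h : ∃ v ∈ Adm (2 * L) 1, en κ μ (cell (2 * L) ∩ Ω₀) v ≤ η * L ^ 3)
    (hm : MeasurableSet Ω₀) (hV : MeasurableSet V) :
    Wq κ μ (2 * L) (Om L θ Ω₀ V) 1 ≤ η / 8 := by
  obtain ⟨v, hv, hen⟩ := h
  have hP : 0 < 2 * L := by linarith
  refine (Wq_le hκ hμ hP _ 1 v hv).trans ?_
  have h1 : en κ μ (cell (2 * L) ∩ Om L θ Ω₀ V) v ≤ η * L ^ 3 := by
    refine le_trans (f3_en_mono hκ hμ v hv.1 ?_ ?_) hen
    · exact Set.inter_subset_inter_right _ fun x hx => hx.1
    · exact (isBounded_cell _).subset Set.inter_subset_left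
  calc ((2 * L) ^ 3)⁻¹ * en κ μ (cell (2 * L) ∩ Om L θ Ω₀ V) v
      ≤ ((2 * L) ^ 3)⁻¹ * (η * L ^ 3) := mul_le_mul_of_nonneg_left h1 (by positivity)
    _ = η / 8 := by
        field_simp
        ring

theorem upper_triv {κ μ P : ℝ} (hκ : 0 < κ) (hμ : 0 < μ) (hP : 0 < P) (Ω : Set E3) (ε₀ : M3)
    (hε : ε₀.IsSymm) : Wq κ μ P Ω ε₀ ≤ density κ μ ε₀ := by
  refine (Wq_le hκ hμ hP _ ε₀ _ (f3_mact_adm P ε₀)).trans ?_
  have h1 : en κ μ (cell P ∩ Ω) (fun x => mact ε₀ x) ≤ density κ μ ε₀ * P ^ 3 := by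
    refine le_trans (f3_en_mono hκ hμ _ (a1_mact_contDiff ε₀) Set.inter_subset_left
      (isBounded_cell P)) ?_
    rw [f3_en_affine _ _ hε, volume_cell P hP, ENNReal.toReal_ofReal (by positivity)]
  calc (P ^ 3)⁻¹ * en κ μ (cell P ∩ Ω) (fun x => mact ε₀ x)
      ≤ (P ^ 3)⁻¹ * (density κ μ ε₀ * P ^ 3) := mul_le_mul_of_nonneg_left h1 (by positivity)
    _ = density κ μ ε₀ := by
        field_simp

theorem f3_RZ_orth (φ : ℝ) : RZ φ ∈ Matrix.orthogonalGroup (Fin 3) ℝ := by
  rw [Matrix.mem_orthogonalGroup_iff]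
  have h := Real.cos_sq_add_sin_sq φ
  ext i j
  fin_cases i <;> fin_cases j <;>
    simp [RZ, Matrix.mul_apply, Fin.sum_univ_three, Matrix.transpose_apply] <;> nlinarith

theorem f3_density_E12 (κ μ : ℝ) (φ : ℝ) :
    density κ μ (RZ φ * E12 * (RZ φ).transpose) = 4 * μ := by
  have h1 : (RZ φ).transpose ∈ Matrix.orthogonalGroup (Fin 3) ℝ := v1_orth_tr _ (f3_RZ_orth φ)
  have h2 := density_orth κ μ (RZ φ).transpose E12 h1
  rw [Matrix.transpose_transpose] at h2
  rw [h2, density_eq]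
  simp [E12, inn, Matrix.trace, Fin.sum_univ_three]
  ring

theorem f3_density_E12' (κ μ : ℝ) : density κ μ E12 = 4 * μ := by
  rw [density_eq]
  simp [E12, inn, Matrix.trace, Fin.sum_univ_three]
  ring

theorem f3_E12_symm : E12.IsSymm := by
  ext i j
  fin_cases i <;> fin_cases j <;> simp [E12, Matrix.transpose_apply]

theorem f3_symm (φ : ℝ) : (RZ φ * E12 * (RZ φ).transpose).IsSymm := by
  unfold Matrix.IsSymm
  rw [Matrix.transpose_mul, Matrix.transpose_mul, Matrix.transpose_transpose]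
  rw [show E12.transpose = E12 from f3_E12_symm, Matrix.mul_assoc]

/-- the trivial element of the group -/
def f3_g0 : G24 := (0, fun _ => true)

theorem f3_gmat : gmat f3_g0 = 1 := by
  ext i j
  unfold gmat f3_g0
  by_cases h : i = j
  · subst h
    simp
  · have : j ≠ i + 0 := by
      rw [add_zero]
      exact Ne.symm h
    rw [Matrix.one_apply_ne h]
    simp only [if_neg this]

theorem f3_sim (a : E3) (lam : ℝ) (R : M3) (S : Set E3) :
    sim a lam 1 '' (mact R '' S) = sim a lam R '' S := by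
  rw [Set.image_image]
  apply Set.image_congr
  intro x _
  unfold sim
  rw [v1_one]

theorem f3_mact_inj (R : M3) (hR : R ∈ Matrix.orthogonalGroup (Fin 3) ℝ) :
    Function.Injective (mact R) := by
  intro x y h
  have := congrArg (mact R.transpose) h
  rwa [f1_mact_inv R hR, f1_mact_inv R hR] at this

theorem f3_mact_image (R : M3) (hR : R ∈ Matrix.orthogonalGroup (Fin 3) ℝ) (S : Set E3) :
    mact R '' S = mact R.transpose ⁻¹' S := by
  ext x
  constructor
  · rintro ⟨y, hy, rfl⟩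
    show mact R.transpose (mact R y) ∈ S
    rwa [f1_mact_inv R hR]
  · intro hx
    exact ⟨_, hx, f1_mact_inv' R hR x⟩

theorem f3_mact_cb (R : M3) (hR : R ∈ Matrix.orthogonalGroup (Fin 3) ℝ) (r : ℝ) :
    mact R '' cb r = cb r := by
  rw [f3_mact_image R hR]
  ext x
  have hR' : R.transpose ∈ Matrix.orthogonalGroup (Fin 3) ℝ := v1_orth_tr _ hR
  rw [Set.mem_preimage, mem_closedBall, dist_zero_right, f1_norm_mact _ hR', mem_closedBall,
    dist_zero_right]

theorem f3_mact_meas (R : M3) (hR : R ∈ Matrix.orthogonalGroup (Fin 3) ℝ) (S : Set E3)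
    (hS : MeasurableSet S) : MeasurableSet (mact R '' S) := by
  rw [f3_mact_image R hR]
  exact hS.preimage (f1_continuous_mact _).measurable

theorem upper_gain {κ μ : ℝ} (hκ : 0 < κ) (hμ : 0 < μ) {L θ : ℝ} (hL : 0 < L) (hθ : 0 < θ)
    (hθ' : θ ≤ 1 / 96) (Ω₀ V : Set E3) (hm : MeasurableSet Ω₀) (hV : MeasurableSet V)
    (hV1 : V ⊆ cb 1) (φ : ℝ) (hin : inner L (1 / 16) ⊆ Ω₀) (c : ℝ) (w : E3 → E3)
    (hw : ContDiff ℝ ∞ w) (hs : ∀ x ∉ cb 1, w x = 0)
    (h : en κ μ (cb 6 \ V) (fun x => mact E12 x + w x) ≤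
      density κ μ E12 * (volume (cb 6)).toReal - c) :
    Wq κ μ (2 * L) (Om L θ Ω₀ (mact (RZ φ) '' V)) (RZ φ * E12 * (RZ φ).transpose) ≤
      4 * μ - θ ^ 3 / 8 * c := by
  have hP : 0 < 2 * L := by linarith
  have hlam : 0 < θ * L := mul_pos hθ hL
  have hR := f3_RZ_orth φ
  set M : M3 := RZ φ * E12 * (RZ φ).transpose with hM
  have hMs : M.IsSymm := f3_symm φ
  have hMd : density κ μ M = 4 * μ := f3_density_E12 κ μ φ
  set V' : Set E3 := mact (RZ φ) '' V with hV'
  have hV'm : MeasurableSet V' := f3_mact_meas _ hR V hV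
  have hV'1 : V' ⊆ cb 1 := by
    rw [← f3_mact_cb _ hR 1]
    exact Set.image_mono hV1
  let a : E3 := ctr L f3_g0
  let Bl : Set E3 := closedBall a (θ * L * 6)
  obtain ⟨w', hw', hs', hen'⟩ := gain_sim a hlam (RZ φ) hR V hV E12 f3_E12_symm c w hw hs h 0
  -- the glued displacement
  have hinn : Bl ⊆ inner L (1 / 16) := ball_inner hL hθ hθ' f3_g0
  have hopen : Bl ⊆ {x | ∀ j, 0 < x j ∧ x j < 2 * L} := by
    intro x hx j
    have h1 := abs_le.1 (hinn hx j)
    constructor <;> nlinarith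
  obtain ⟨v', hv', hg1, hg2⟩ := glue hP M (fun x => mact M x) (f3_mact_adm (2 * L) M)
    (ι := Unit) (fun _ => a) (θ * L * 6) (θ * L) hlam (by linarith) (fun _ => hopen)
    (fun i j hij => absurd (Subsingleton.elim i j) hij)
    (fun _ x => mact M x + 0 + w' x)
    (fun _ => ((a1_mact_contDiff M).add contDiff_const).add hw')
    (fun _ x hx => by
      show mact M x + 0 + w' x = mact M x
      rw [hs' x hx, add_zero, add_zero])
  refine (Wq_le hκ hμ hP _ M v' hv').trans ?_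
  -- decomposition of the cell
  have hBm : MeasurableSet Bl := isClosed_closedBall.measurableSet
  have hBC : Bl ⊆ cell (2 * L) := fun x hx i => ⟨(hopen hx i).1.le, (hopen hx i).2⟩
  have hOm : MeasurableSet (Om L θ Ω₀ V') := Om_meas hL hθ hθ' Ω₀ V' hm hV'm
  have e1 : cell (2 * L) ∩ Om L θ Ω₀ V' =
      ((cell (2 * L) \ Bl) ∩ Om L θ Ω₀ V') ∪ (Bl ∩ Om L θ Ω₀ V') := by
    ext x
    constructor
    · rintro ⟨h1, h2⟩
      by_cases h3 : x ∈ Bl
      · exact Or.inr ⟨h3, h2⟩
      · exact Or.inl ⟨⟨h1, h3⟩, h2⟩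
    · rintro (⟨⟨h1, _⟩, h2⟩ | ⟨h1, h2⟩)
      · exact ⟨h1, h2⟩
      · exact ⟨hBC h1, h2⟩
  have i1 : en κ μ (cell (2 * L) ∩ Om L θ Ω₀ V') v' =
      en κ μ ((cell (2 * L) \ Bl) ∩ Om L θ Ω₀ V') v' + en κ μ (Bl ∩ Om L θ Ω₀ V') v' := by
    rw [e1]
    apply f3_en_union v' hv'.1
    · rw [Set.disjoint_left]
      rintro x ⟨⟨_, h1⟩, _⟩ ⟨h2, _⟩
      exact h1 h2
    · exact hBm.inter hOm
    · exact (isBounded_cell _).subset fun x hx => hx.1.1
    · exact isBounded_closedBall.subset Set.inter_subset_left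
  -- outside of the ball
  have b1 : en κ μ ((cell (2 * L) \ Bl) ∩ Om L θ Ω₀ V') v' ≤
      4 * μ * (volume (cell (2 * L) \ Bl)).toReal := by
    refine le_trans (f3_en_mono hκ hμ v' hv'.1 Set.inter_subset_left
      ((isBounded_cell _).subset Set.sdiff_subset)) ?_
    have h1 : en κ μ (cell (2 * L) \ Bl) v' = en κ μ (cell (2 * L) \ Bl) (fun x => mact M x) := by
      unfold en
      apply setIntegral_congr_fun ((measurableSet_cell _).diff hBm)
      intro x hx
      show density κ μ (strain v' x) = density κ μ (strain (fun x => mact M x) x)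
      rw [hg2 x hx.1 (fun _ => hx.2)]
    rw [h1, f3_en_affine _ _ hMs, hMd]
  -- inside of the ball
  have b2 : en κ μ (Bl ∩ Om L θ Ω₀ V') v' ≤ 4 * μ * (volume Bl).toReal - (θ * L) ^ 3 * c := by
    have h1 : Bl ∩ Om L θ Ω₀ V' = sim a (θ * L) (RZ φ) '' (cb 6 \ V) := by
      show closedBall (ctr L f3_g0) (θ * L * 6) ∩ Om L θ Ω₀ V' = _
      rw [Om_ball hL hθ hθ' Ω₀ V' hV'1 hin f3_g0, f3_gmat, ← f3_sim a (θ * L) (RZ φ),
        Set.image_sdiff (f3_mact_inj _ hR), f3_mact_cb _ hR]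
    rw [h1]
    have h2 : en κ μ (sim a (θ * L) (RZ φ) '' (cb 6 \ V)) v' =
        en κ μ (sim a (θ * L) (RZ φ) '' (cb 6 \ V)) (fun x => mact M x + 0 + w' x) := by
      have hms : MeasurableSet (sim a (θ * L) (RZ φ) '' (cb 6 \ V)) := by
        rw [← h1]
        exact hBm.inter hOm
      unfold en
      apply setIntegral_congr_fun hms
      intro x hx
      rw [← h1] at hx
      show density κ μ (strain v' x) = density κ μ (strain (fun x => mact M x + 0 + w' x) x)
      rw [hg1 () x hx.1]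
    rw [h2]
    rw [f3_density_E12'] at hen'
    exact hen'
  have hvol : (volume (cell (2 * L))).toReal =
      (volume (cell (2 * L) \ Bl)).toReal + (volume Bl).toReal := by
    have h1 : cell (2 * L) = (cell (2 * L) \ Bl) ∪ Bl := (Set.sdiff_union_of_subset hBC).symm
    have h0 : Disjoint (cell (2 * L) \ Bl) Bl := disjoint_sdiff_self_left
    have h2 := measureReal_union (μ := volume) h0 hBm
      (((isBounded_cell (2 * L)).subset Set.sdiff_subset).measure_lt_top.ne)
      (isBounded_closedBall.measure_lt_top.ne)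
    rw [← h1] at h2
    exact h2
  rw [volume_cell _ hP, ENNReal.toReal_ofReal (by positivity)] at hvol
  have hfin : en κ μ (cell (2 * L) ∩ Om L θ Ω₀ V') v' ≤ 4 * μ * (2 * L) ^ 3 - (θ * L) ^ 3 * c := by
    rw [i1, hvol]
    linarith
  calc ((2 * L) ^ 3)⁻¹ * en κ μ (cell (2 * L) ∩ Om L θ Ω₀ V') v'
      ≤ ((2 * L) ^ 3)⁻¹ * (4 * μ * (2 * L) ^ 3 - (θ * L) ^ 3 * c) :=
        mul_le_mul_of_nonneg_left hfin (by positivity)
    _ = 4 * μ - θ ^ 3 / 8 * c := by
        field_simp
        ring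

end Pool.Agent.ShearComposite.D3
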