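import Pool.Agent.ShearComposite3.Cof

/-!
# A stress field which vanishes in a ball
-/

set_option autoImplicit false

open MeasureTheory Metric
open scoped ContDiff

namespace Pool.Agent.ShearComposite.D3

/-! ### monomials -/

/-- the monomial `x_a x_b` -/
noncomputable def q2_mon (a b : Fin 3) (x : E3) : ℝ := x a * x b

theorem q2_coord_smooth (a : Fin 3) : ContDiff ℝ ∞ fun x : E3 => x a :=
  (EuclideanSpace.proj (𝕜 := ℝ) a : E3 →L[ℝ] ℝ).contDiff

theorem q2_mon_smooth (a b : Fin 3) : ContDiff ℝ ∞ (q2_mon a b) :=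
  (q2_coord_smooth a).mul (q2_coord_smooth b)

theorem q2_pd_coord (i a : Fin 3) (x : E3) :
    pd i (fun y => y a) x = if i = a then 1 else 0 := by
  unfold pd
  have h : fderiv ℝ (fun y : E3 => y a) x = (EuclideanSpace.proj (𝕜 := ℝ) a : E3 →L[ℝ] ℝ) :=
    (EuclideanSpace.proj (𝕜 := ℝ) a : E3 →L[ℝ] ℝ).fderiv
  rw [h]
  simp [eq_comm]

theorem q2_pd_const (i : Fin 3) (c : ℝ) (x : E3) : pd i (fun _ => c) x = 0 := by
  simp [pd]

theorem q2_pd_mon (j a b : Fin 3) :
    pd j (q2_mon a b) = fun x => (if j = a then 1 else 0) * x b + (if j = b then 1 else 0) * x a := by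
  funext x
  have h := q1_pd_mul j (q2_coord_smooth a) (q2_coord_smooth b) x
  rw [q2_pd_coord, q2_pd_coord] at h
  unfold q2_mon
  rw [h]
  ring

theorem q2_hs_mon (a b : Fin 3) (x : E3) (i j : Fin 3) :
    hs (q2_mon a b) x i j = (if j = a then 1 else 0) * (if i = b then 1 else 0) +
      (if j = b then 1 else 0) * (if i = a then 1 else 0) := by
  unfold hs
  rw [q2_pd_mon, q1_pd_add i (contDiff_const.mul (q2_coord_smooth b))
    (contDiff_const.mul (q2_coord_smooth a)), q1_pd_cmul i _ (q2_coord_smooth b),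
    q1_pd_cmul i _ (q2_coord_smooth a), q2_pd_coord, q2_pd_coord]

/-! ### the six basis fields -/

/-- the cutoff -/
noncomputable def q2_bump : ContDiffBump (0 : E3) := ⟨3 / 2, 2, by norm_num, by norm_num⟩

/-- the cutoff -/
noncomputable def q2_chi (x : E3) : ℝ := q2_bump x

theorem q2_chi_smooth : ContDiff ℝ ∞ q2_chi := q2_bump.contDiff

theorem q2_chi_one {x : E3} (hx : x ∈ cb 1) : q2_chi =ᶠ[nhds x] fun _ => 1 := by
  have h1 : x ∈ ball (0 : E3) (3 / 2) := by
    rw [mem_closedBall] at hx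
    rw [mem_ball]; linarith
  filter_upwards [isOpen_ball.mem_nhds h1] with y hy
  exact q2_bump.one_of_mem_closedBall (ball_subset_closedBall hy)

theorem q2_chi_zero {x : E3} (hx : x ∉ cb 2) : q2_chi =ᶠ[nhds x] fun _ => 0 := by
  have h1 : (cb 2)ᶜ ∈ nhds x := isClosed_closedBall.isOpen_compl.mem_nhds hx
  filter_upwards [h1] with y hy
  apply q2_bump.zero_of_le_dist
  rw [Set.mem_compl_iff, mem_closedBall, not_le] at hy
  exact hy.le

/-- the potentials with cutoff -/
noncomputable def q2_pot (w : Fin 3) (x : E3) : ℝ := q2_chi x * q2_mon w w x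

theorem q2_pot_smooth (w : Fin 3) : ContDiff ℝ ∞ (q2_pot w) :=
  q2_chi_smooth.mul (q2_mon_smooth w w)

/-- the basis fields -/
noncomputable def q2_F (w a b : Fin 3) (x : E3) : M3 := cof (q2_pot w) (q2_mon a b) x

theorem q2_F_one (w a b : Fin 3) {x : E3} (hx : x ∈ cb 1) :
    q2_F w a b x = cof (q2_mon w w) (q2_mon a b) x := by
  apply cof_congr _ _ _ _ _ _ Filter.EventuallyEq.rfl
  filter_upwards [q2_chi_one hx] with y hy
  unfold q2_pot
  rw [hy, one_mul]

theorem q2_F_zero (w a b : Fin 3) {x : E3} (hx : x ∉ cb 2) : q2_F w a b x = 0 := by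
  have h1 : q2_F w a b x = cof (fun _ => 0) (q2_mon a b) x := by
    apply cof_congr _ _ _ _ _ _ Filter.EventuallyEq.rfl
    filter_upwards [q2_chi_zero hx] with y hy
    unfold q2_pot
    rw [hy, zero_mul]
  rw [h1]
  have h2 : ∀ i j : Fin 3, hs (fun _ : E3 => (0 : ℝ)) x i j = 0 := by
    intro i j
    unfold hs
    have h3 : pd j (fun _ : E3 => (0 : ℝ)) = fun _ => 0 := by
      funext y; exact q2_pd_const j 0 y
    rw [h3]; exact q2_pd_const i 0 x
  unfold cof
  simp only [h2]
  ext i j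
  fin_cases i <;> fin_cases j <;> simp

theorem q2_F_bound (w a b : Fin 3) : ∃ M : ℝ, 0 ≤ M ∧ ∀ x i j, |q2_F w a b x i j| ≤ M := by
  have h1 : ∀ i j : Fin 3, ∃ M : ℝ, ∀ x, |q2_F w a b x i j| ≤ M := by
    intro i j
    have hc : Continuous fun x => q2_F w a b x i j :=
      (cof_contDiff _ _ (q2_pot_smooth w) (q2_mon_smooth a b) i j).continuous
    have hs : HasCompactSupport fun x => q2_F w a b x i j := by
      apply HasCompactSupport.intro (isCompact_closedBall (0 : E3) 2)
      intro x hx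
      rw [q2_F_zero w a b hx]; rfl
    obtain ⟨M, hM⟩ := hs.exists_bound_of_continuous hc
    exact ⟨M, fun x => hM x⟩
  choose M hM using h1
  refine ⟨∑ i, ∑ j, |M i j|, by positivity, fun x i j => ?_⟩
  calc |q2_F w a b x i j| ≤ M i j := hM i j x
    _ ≤ |M i j| := le_abs_self _
    _ ≤ ∑ j, |M i j| := Finset.single_le_sum (f := fun j => |M i j|) (fun _ _ => abs_nonneg _)
        (Finset.mem_univ j)
    _ ≤ ∑ i, ∑ j, |M i j| := Finset.single_le_sum (f := fun i => ∑ j, |M i j|)
        (fun _ _ => Finset.sum_nonneg fun _ _ => abs_nonneg _) (Finset.mem_univ i)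

/-- the correction -/
noncomputable def q2_S (σ : M3) (x : E3) : M3 :=
  (σ 1 1 / 4) • q2_F 0 2 2 x + (σ 2 2 / 4) • q2_F 0 1 1 x + (-(σ 1 2) / 2) • q2_F 0 1 2 x +
    (σ 0 0 / 4) • q2_F 1 2 2 x + (-(σ 0 2) / 2) • q2_F 1 0 2 x + (-(σ 0 1) / 2) • q2_F 2 0 1 x

theorem q2_S_one (σ : M3) (hσ : σ.IsSymm) {x : E3} (hx : x ∈ cb 1) : q2_S σ x = σ := by
  have h10 : σ 1 0 = σ 0 1 := hσ.apply 0 1
  have h20 : σ 2 0 = σ 0 2 := hσ.apply 0 2
  have h21 : σ 2 1 = σ 1 2 := hσ.apply 1 2
  unfold q2_S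
  simp only [q2_F_one _ _ _ hx, cof, q2_hs_mon]
  ext i j
  fin_cases i <;> fin_cases j <;> simp [h10, h20, h21] <;> ring

theorem q2_S_test (σ : M3) (v : E3 → E3) (hv : ContDiff ℝ ∞ v) :
    ∫ x in cb 6, inn (q2_S σ x) (strain v x) = 0 := by
  have hF : ∀ w a b, ∫ x in cb 6, inn (q2_F w a b x) (strain v x) = 0 := by
    intro w a b
    exact cof_test _ _ (q2_pot_smooth w) (q2_mon_smooth a b) (cb 6) measurableSet_closedBall (cb 2)
      (isCompact_closedBall 0 2) (closedBall_subset_closedBall (by norm_num))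
      (fun x hx => q2_F_zero w a b hx) v hv
  have hI : ∀ w a b, IntegrableOn (fun x => inn (q2_F w a b x) (strain v x)) (cb 6) := by
    intro w a b
    apply ContinuousOn.integrableOn_compact (isCompact_closedBall 0 6)
    apply Continuous.continuousOn
    unfold inn
    refine continuous_finsetSum _ fun i _ => continuous_finsetSum _ fun j _ => ?_
    refine Continuous.mul
      (cof_contDiff _ _ (q2_pot_smooth w) (q2_mon_smooth a b) i j).continuous ?_
    exact (continuous_apply j).comp ((continuous_apply i).comp (continuous_strain v hv))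
  have e : ∀ x, inn (q2_S σ x) (strain v x) =
      (σ 1 1 / 4) * inn (q2_F 0 2 2 x) (strain v x) + (σ 2 2 / 4) * inn (q2_F 0 1 1 x) (strain v x) +
      (-(σ 1 2) / 2) * inn (q2_F 0 1 2 x) (strain v x) +
      (σ 0 0 / 4) * inn (q2_F 1 2 2 x) (strain v x) +
      (-(σ 0 2) / 2) * inn (q2_F 1 0 2 x) (strain v x) +
      (-(σ 0 1) / 2) * inn (q2_F 2 0 1 x) (strain v x) := by
    intro x
    unfold q2_S inn
    simp only [Matrix.add_apply, Matrix.smul_apply, smul_eq_mul, Fin.sum_univ_three]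
    ring
  have key : ∀ (f : Fin 6 → E3 → ℝ) (c : Fin 6 → ℝ), (∀ k, IntegrableOn (f k) (cb 6)) →
      (∀ k, ∫ x in cb 6, f k x = 0) → ∫ x in cb 6, ∑ k, c k * f k x = 0 := by
    intro f c h1 h2
    rw [integral_finsetSum _ fun k _ => (h1 k).const_mul (c k)]
    apply Finset.sum_eq_zero
    intro k _
    rw [integral_const_mul, h2 k, mul_zero]
  have h := key ![fun x => inn (q2_F 0 2 2 x) (strain v x), fun x => inn (q2_F 0 1 1 x) (strain v x),
    fun x => inn (q2_F 0 1 2 x) (strain v x), fun x => inn (q2_F 1 2 2 x) (strain v x),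
    fun x => inn (q2_F 1 0 2 x) (strain v x), fun x => inn (q2_F 2 0 1 x) (strain v x)]
    ![σ 1 1 / 4, σ 2 2 / 4, -(σ 1 2) / 2, σ 0 0 / 4, -(σ 0 2) / 2, -(σ 0 1) / 2]
    (by intro k; fin_cases k <;> exact hI _ _ _) (by intro k; fin_cases k <;> exact hF _ _ _)
  rw [← h]
  congr 1
  funext x
  rw [e x]
  simp [Fin.sum_univ_succ]
  ring

theorem q2_entry_sq (σ : M3) (i j : Fin 3) : σ i j ^ 2 ≤ inn σ σ := by
  unfold inn
  have h1 : σ i j ^ 2 ≤ ∑ j, σ i j * σ i j := by
    rw [sq]
    exact Finset.single_le_sum (f := fun j => σ i j * σ i j) (fun _ _ => mul_self_nonneg _)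
      (Finset.mem_univ j)
  exact h1.trans (Finset.single_le_sum (f := fun i => ∑ j, σ i j * σ i j)
    (fun _ _ => Finset.sum_nonneg fun _ _ => mul_self_nonneg _) (Finset.mem_univ i))

theorem q2_inn_nonneg (σ : M3) : 0 ≤ inn σ σ :=
  Finset.sum_nonneg fun _ _ => Finset.sum_nonneg fun _ _ => mul_self_nonneg _

theorem q2_S_bound : ∃ C : ℝ, 0 < C ∧ ∀ (σ : M3) (x : E3), inn (σ - q2_S σ x) (σ - q2_S σ x) ≤
    C * inn σ σ := by
  obtain ⟨m1, h1, b1⟩ := q2_F_bound 0 2 2
  obtain ⟨m2, h2, b2⟩ := q2_F_bound 0 1 1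
  obtain ⟨m3, h3, b3⟩ := q2_F_bound 0 1 2
  obtain ⟨m4, h4, b4⟩ := q2_F_bound 1 2 2
  obtain ⟨m5, h5, b5⟩ := q2_F_bound 1 0 2
  obtain ⟨m6, h6, b6⟩ := q2_F_bound 2 0 1
  set M := 1 + m1 + m2 + m3 + m4 + m5 + m6 with hM
  have hM0 : 0 < M := by rw [hM]; positivity
  refine ⟨9 * M ^ 2, by positivity, fun σ x => ?_⟩
  set s := √(inn σ σ) with hs
  have hs0 : 0 ≤ s := Real.sqrt_nonneg _
  have hss : s ^ 2 = inn σ σ := Real.sq_sqrt (q2_inn_nonneg σ)
  have he : ∀ i j, |σ i j| ≤ s := by
    intro i j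
    apply abs_le_of_sq_le_sq _ hs0
    rw [hss]; exact q2_entry_sq σ i j
  have hb : ∀ i j, |(σ - q2_S σ x) i j| ≤ M * s := by
    intro i j
    have gen : ∀ (c : ℝ) (m y : ℝ), |c| ≤ s → |y| ≤ m → |c * y| ≤ m * s := by
      intro c m y hc hy
      rw [abs_mul, mul_comm m s]
      exact mul_le_mul hc hy (abs_nonneg _) hs0
    have c4 : ∀ i j, |σ i j / 4| ≤ s := by
      intro i j
      rw [abs_div]
      have h4 : |(4 : ℝ)| = 4 := by norm_num
      rw [h4]
      have := he i j
      have := abs_nonneg (σ i j)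
      linarith
    have c2 : ∀ i j, |-(σ i j) / 2| ≤ s := by
      intro i j
      rw [abs_div, abs_neg]
      have h4 : |(2 : ℝ)| = 2 := by norm_num
      rw [h4]
      have := he i j
      have := abs_nonneg (σ i j)
      linarith
    have u0 := abs_le.mp (he i j)
    have u1 := abs_le.mp (gen _ _ _ (c4 1 1) (b1 x i j))
    have u2 := abs_le.mp (gen _ _ _ (c4 2 2) (b2 x i j))
    have u3 := abs_le.mp (gen _ _ _ (c2 1 2) (b3 x i j))
    have u4 := abs_le.mp (gen _ _ _ (c4 0 0) (b4 x i j))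
    have u5 := abs_le.mp (gen _ _ _ (c2 0 2) (b5 x i j))
    have u6 := abs_le.mp (gen _ _ _ (c2 0 1) (b6 x i j))
    have e : (σ - q2_S σ x) i j = σ i j - (σ 1 1 / 4 * q2_F 0 2 2 x i j +
        σ 2 2 / 4 * q2_F 0 1 1 x i j + -(σ 1 2) / 2 * q2_F 0 1 2 x i j +
        σ 0 0 / 4 * q2_F 1 2 2 x i j + -(σ 0 2) / 2 * q2_F 1 0 2 x i j +
        -(σ 0 1) / 2 * q2_F 2 0 1 x i j) := by
      simp only [q2_S, Matrix.sub_apply, Matrix.add_apply, Matrix.smul_apply, smul_eq_mul]
    rw [e, abs_le]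
    have hMs : M * s = s + m1 * s + m2 * s + m3 * s + m4 * s + m5 * s + m6 * s := by
      rw [hM]; ring
    rw [hMs]
    constructor <;> linarith [u0.1, u0.2, u1.1, u1.2, u2.1, u2.2, u3.1, u3.2, u4.1, u4.2, u5.1,
      u5.2, u6.1, u6.2]
  have hsq : ∀ i j, (σ - q2_S σ x) i j * (σ - q2_S σ x) i j ≤ M ^ 2 * inn σ σ := by
    intro i j
    have := hb i j
    have h7 : (σ - q2_S σ x) i j * (σ - q2_S σ x) i j ≤ (M * s) * (M * s) := by
      rw [← abs_mul_abs_self]
      exact mul_self_le_mul_self (abs_nonneg _) this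
    calc _ ≤ (M * s) * (M * s) := h7
      _ = M ^ 2 * s ^ 2 := by ring
      _ = M ^ 2 * inn σ σ := by rw [hss]
  calc inn (σ - q2_S σ x) (σ - q2_S σ x)
      ≤ ∑ _i : Fin 3, ∑ _j : Fin 3, M ^ 2 * inn σ σ :=
        Finset.sum_le_sum fun i _ => Finset.sum_le_sum fun j _ => hsq i j
    _ = 9 * M ^ 2 * inn σ σ := by
        simp only [Finset.sum_const, Finset.card_univ, Fintype.card_fin, nsmul_eq_mul]
        push_cast; ring

theorem weak_stiff {κ μ : ℝ} (hκ : 0 < κ) (hμ : 0 < μ) : ∃ C : ℝ, 0 < C ∧ ∀ V : Set E3,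
    MeasurableSet V → V ⊆ cb 1 → ∀ σ : M3, σ.IsSymm →
    Stiff κ μ (cb 6) V σ (C * inn σ σ) := by
  obtain ⟨C1, hC1, hc1⟩ := cden_upper hκ hμ
  obtain ⟨C2, hC2, hc2⟩ := q2_S_bound
  have hvol : 0 ≤ (volume (cb 6)).toReal := ENNReal.toReal_nonneg
  refine ⟨C1 * C2 * ((volume (cb 6)).toReal + 1), by positivity, ?_⟩
  intro V hV hV1 σ hσ v hv
  have hfin : volume (cb 6) ≠ ⊤ := (isCompact_closedBall (0 : E3) 6).measure_lt_top.ne
  have hTc : ∀ i j : Fin 3, Continuous fun x => (σ - q2_S σ x) i j := by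
    intro i j
    have hF : ∀ w a b, Continuous fun x => q2_F w a b x i j := fun w a b =>
      (cof_contDiff _ _ (q2_pot_smooth w) (q2_mon_smooth a b) i j).continuous
    simp only [q2_S, Matrix.sub_apply, Matrix.add_apply, Matrix.smul_apply, smul_eq_mul]
    have c := fun (t : ℝ) w a b => (continuous_const (y := t)).mul (hF w a b)
    exact continuous_const.sub ((((((c _ _ _ _).add (c _ _ _ _)).add (c _ _ _ _)).add
      (c _ _ _ _)).add (c _ _ _ _)).add (c _ _ _ _))
  have hsc : ∀ i j : Fin 3, Continuous fun x => strain v x i j := fun i j =>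
    (continuous_apply j).comp ((continuous_apply i).comp (continuous_strain v hv))
  have hI1 : Continuous fun x => inn (σ - q2_S σ x) (strain v x) := by
    unfold inn
    exact continuous_finsetSum _ fun i _ => continuous_finsetSum _ fun j _ =>
      (hTc i j).mul (hsc i j)
  have hI2 : Continuous fun x => inn σ (strain v x) := by
    unfold inn
    exact continuous_finsetSum _ fun i _ => continuous_finsetSum _ fun j _ =>
      continuous_const.mul (hsc i j)
  have hI3 : Continuous fun x => density κ μ (strain v x) := by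
    have htr : Continuous fun x => (strain v x).trace := by
      simp only [Matrix.trace, Matrix.diag]
      exact continuous_finsetSum _ fun i _ => hsc i i
    have hinn : Continuous fun x => inn (strain v x) (strain v x) := by
      unfold inn
      exact continuous_finsetSum _ fun i _ => continuous_finsetSum _ fun j _ =>
        (hsc i j).mul (hsc i j)
    simp only [density_eq]
    exact (continuous_const.mul (htr.pow 2)).add (continuous_const.mul
      (hinn.sub ((htr.pow 2).div_const 3)))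
  have int1 : IntegrableOn (fun x => inn (σ - q2_S σ x) (strain v x)) (cb 6) :=
    hI1.continuousOn.integrableOn_compact (isCompact_closedBall 0 6)
  have int2 : IntegrableOn (fun x => inn σ (strain v x)) (cb 6) :=
    hI2.continuousOn.integrableOn_compact (isCompact_closedBall 0 6)
  have int3 : IntegrableOn (fun x => density κ μ (strain v x)) (cb 6) :=
    hI3.continuousOn.integrableOn_compact (isCompact_closedBall 0 6)
  have hsub : ∀ x, inn (σ - q2_S σ x) (strain v x) =
      inn σ (strain v x) - inn (q2_S σ x) (strain v x) := by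
    intro x
    unfold inn
    simp only [Matrix.sub_apply, sub_mul, Finset.sum_sub_distrib]
  have int4 : IntegrableOn (fun x => inn (q2_S σ x) (strain v x)) (cb 6) := by
    have : (fun x => inn (q2_S σ x) (strain v x)) =
        fun x => inn σ (strain v x) - inn (σ - q2_S σ x) (strain v x) := by
      funext x; rw [hsub x]; ring
    rw [this]
    exact int2.sub int1
  have h1 : ∫ x in cb 6, inn (σ - q2_S σ x) (strain v x) = ∫ x in cb 6, inn σ (strain v x) := by
    simp only [hsub]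
    rw [integral_sub int2 int4, q2_S_test σ v hv, sub_zero]
  have h2 : ∫ x in cb 6, inn (σ - q2_S σ x) (strain v x) =
      ∫ x in cb 6 \ V, inn (σ - q2_S σ x) (strain v x) := by
    have h3 := integral_inter_add_sdiff hV int1
    have h4 : ∫ x in cb 6 ∩ V, inn (σ - q2_S σ x) (strain v x) = 0 := by
      apply setIntegral_eq_zero_of_forall_eq_zero
      intro x hx
      rw [q2_S_one σ hσ (hV1 hx.2), sub_self]
      simp [inn]
    rw [← h3, h4, zero_add]
  have h5 : 2 * ∫ x in cb 6 \ V, inn (σ - q2_S σ x) (strain v x) ≤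
      en κ μ (cb 6 \ V) v + C1 * C2 * inn σ σ * (volume (cb 6)).toReal := by
    have hm : MeasurableSet (cb 6 \ V) := measurableSet_closedBall.diff hV
    have hfin' : volume (cb 6 \ V) ≠ ⊤ :=
      (lt_of_le_of_lt (measure_mono Set.sdiff_subset) (lt_top_iff_ne_top.mpr hfin)).ne
    have hpt : ∀ x, 2 * inn (σ - q2_S σ x) (strain v x) ≤
        density κ μ (strain v x) + C1 * C2 * inn σ σ := by
      intro x
      have a1 := density_dual hκ hμ (strain v x) (σ - q2_S σ x)
      have a2 := hc1 (σ - q2_S σ x)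
      have a3 := mul_le_mul_of_nonneg_left (hc2 σ x) hC1.le
      linarith
    rw [← integral_const_mul]
    unfold en
    have hc : ∫ _x in cb 6 \ V, (C1 * C2 * inn σ σ) = C1 * C2 * inn σ σ * (volume (cb 6 \ V)).toReal := by
      rw [setIntegral_const, smul_eq_mul, mul_comm]; rfl
    have hle : C1 * C2 * inn σ σ * (volume (cb 6 \ V)).toReal ≤
        C1 * C2 * inn σ σ * (volume (cb 6)).toReal := by
      apply mul_le_mul_of_nonneg_left
      · exact ENNReal.toReal_mono hfin (measure_mono Set.sdiff_subset)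
      · have := q2_inn_nonneg σ
        positivity
    have hmono : ∫ x in cb 6 \ V, 2 * inn (σ - q2_S σ x) (strain v x) ≤
        ∫ x in cb 6 \ V, (density κ μ (strain v x) + C1 * C2 * inn σ σ) := by
      apply integral_mono
      · exact (int1.mono_set Set.sdiff_subset).const_mul 2
      · exact (int3.mono_set Set.sdiff_subset).add (integrableOn_const hfin')
      · exact hpt
    rw [integral_add (int3.mono_set Set.sdiff_subset) (integrableOn_const hfin'), hc] at hmono
    linarith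
  have h6 := q2_inn_nonneg σ
  have h7 : 0 ≤ C1 * C2 * inn σ σ := by positivity
  rw [← h1, h2]
  have h8 : C1 * C2 * ((volume (cb 6)).toReal + 1) * inn σ σ =
      C1 * C2 * inn σ σ * (volume (cb 6)).toReal + C1 * C2 * inn σ σ := by ring
  rw [h8]
  linarith

end Pool.Agent.ShearComposite.D3
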