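import Pool.Agent.ShearComposite3.Alg
import Pool.Agent.ShearComposite3.CellA
import Pool.Agent.ShearComposite3.Iso
import Pool.Agent.ShearComposite3.KPlinked
import Pool.Agent.ShearComposite3.Cov
import Pool.Agent.ShearComposite3.LocalRot
import Pool.Agent.ShearComposite3.Weak
import Pool.Agent.ShearComposite3.OmFacts
import Pool.Agent.ShearComposite3.LowerF
import Pool.Agent.ShearComposite3.UpperF
import Pool.Agent.ShearComposite3.ContF

/-!
# Conclusion: from the base structure and the corrector to the theorem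
-/

set_option autoImplicit false

open MeasureTheory Metric
open scoped ContDiff

namespace Pool.Agent.ShearComposite.D3

theorem f5_inn_smul (t : ℝ) (A : M3) : inn (t • A) (t • A) = t ^ 2 * inn A A := by
  unfold inn
  simp only [Matrix.smul_apply, smul_eq_mul, Finset.mul_sum]
  refine Finset.sum_congr rfl fun i _ => Finset.sum_congr rfl fun j _ => ?_
  ring

theorem f5_inn_NA : inn NA NA = 2 := by
  simp [inn, NA, Fin.sum_univ_three]
  norm_num

theorem f5_inn_E12 : inn E12 E12 = 2 := by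
  simp [inn, E12, Fin.sum_univ_three]
  norm_num

theorem f5_NA_symm : NA.IsSymm := by
  ext i j
  fin_cases i <;> fin_cases j <;> simp [NA, Matrix.transpose_apply]

theorem f5_E12_symm : E12.IsSymm := by
  ext i j
  fin_cases i <;> fin_cases j <;> simp [E12, Matrix.transpose_apply]

theorem f5_density_NA (κ μ : ℝ) : density κ μ NA = 4 * μ := by
  rw [density_eq, f5_inn_NA]
  have h : NA.trace = 0 := by simp [NA, Matrix.trace, Fin.sum_univ_three]
  rw [h]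
  ring

theorem f5_density_E12 (κ μ : ℝ) : density κ μ E12 = 4 * μ := by
  rw [density_eq, f5_inn_E12]
  have h : E12.trace = 0 := by simp [E12, Matrix.trace, Fin.sum_univ_three]
  rw [h]
  ring

theorem f5_RZ_orth (α : ℝ) : RZ α ∈ Matrix.orthogonalGroup (Fin 3) ℝ := by
  rw [Matrix.mem_orthogonalGroup_iff]
  ext i j
  fin_cases i <;> fin_cases j <;>
    simp [RZ, Matrix.mul_apply, Fin.sum_univ_three] <;>
    nlinarith [Real.sin_sq_add_cos_sq α]

theorem f5_mact_one (x : E3) : mact 1 x = x := by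
  ext i
  simp [mact, Matrix.one_apply]

theorem f5_RZ_zero : RZ 0 = 1 := by
  ext i j
  fin_cases i <;> fin_cases j <;> simp [RZ]

theorem f5_mact_mul (A B : M3) (x : E3) : mact (A * B) x = mact A (mact B x) := by
  ext i
  simp only [mact, Matrix.mul_apply, Finset.sum_mul, Finset.mul_sum]
  rw [Finset.sum_comm]
  refine Finset.sum_congr rfl fun j _ => Finset.sum_congr rfl fun l _ => ?_
  ring

theorem f5_continuous_mact (R : M3) : Continuous (mact R) := by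
  unfold mact mk3
  fun_prop

theorem f5_image_eq (R : M3) (hR : R ∈ Matrix.orthogonalGroup (Fin 3) ℝ) (V : Set E3) :
    mact R '' V = mact R.transpose ⁻¹' V := by
  have h1 : R * R.transpose = 1 := by
    have := (Matrix.mem_orthogonalGroup_iff (Fin 3) ℝ).1 hR
    simpa [Matrix.star_eq_conjTranspose] using this
  have h2 : R.transpose * R = 1 := by
    have := (Matrix.mem_orthogonalGroup_iff' (Fin 3) ℝ).1 hR
    simpa [Matrix.star_eq_conjTranspose] using this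
  ext x
  constructor
  · rintro ⟨y, hy, rfl⟩
    rw [Set.mem_preimage, ← f5_mact_mul, h2, f5_mact_one]
    exact hy
  · intro hx
    refine ⟨mact R.transpose x, hx, ?_⟩
    rw [← f5_mact_mul, h1, f5_mact_one]

theorem f5_meas (R : M3) (hR : R ∈ Matrix.orthogonalGroup (Fin 3) ℝ) (V : Set E3)
    (hV : MeasurableSet V) : MeasurableSet (mact R '' V) := by
  rw [f5_image_eq R hR]
  exact (f5_continuous_mact _).measurable hV

theorem f5_sim (R : M3) (A : Set E3) : sim 0 1 R '' A = mact R '' A := by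
  congr 1
  funext x
  simp [sim]

theorem f5_cb (R : M3) (hR : R ∈ Matrix.orthogonalGroup (Fin 3) ℝ) (r : ℝ) (hr : 0 ≤ r) :
    mact R '' cb r = cb r := by
  rw [← f5_sim, sim_closedBall 0 one_pos R hR r hr, one_mul]

theorem f5_sub (R : M3) (hR : R ∈ Matrix.orthogonalGroup (Fin 3) ℝ) (V : Set E3)
    (hV : V ⊆ cb 1) : mact R '' V ⊆ cb 1 := by
  rw [← f5_cb R hR 1 zero_le_one]
  exact Set.image_mono hV

theorem f5_stiff {κ μ : ℝ} (R : M3) (hR : R ∈ Matrix.orthogonalGroup (Fin 3) ℝ) (V : Set E3)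
    (hV : MeasurableSet V) (σ : M3) (c : ℝ)
    (h : Stiff κ μ (cb 6) V (R.transpose * σ * R) c) :
    Stiff κ μ (cb 6) (mact R '' V) σ c := by
  have h1 := stiff_sim 0 one_pos R hR (cb 6) V measurableSet_closedBall hV σ c h
  rwa [f5_sim, f5_sim, f5_cb R hR 6 (by norm_num), one_pow, one_mul] at h1

theorem f5_trace (R A : M3) (hR : R ∈ Matrix.orthogonalGroup (Fin 3) ℝ) :
    (R.transpose * A * R).trace = A.trace := by
  have h1 : R * R.transpose = 1 := by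
    have := (Matrix.mem_orthogonalGroup_iff (Fin 3) ℝ).1 hR
    simpa [Matrix.star_eq_conjTranspose] using this
  rw [Matrix.trace_mul_comm, ← Matrix.mul_assoc, h1, Matrix.one_mul]

theorem f5_symm (R A : M3) (hA : A.IsSymm) : (R.transpose * A * R).IsSymm := by
  unfold Matrix.IsSymm
  rw [Matrix.transpose_mul, Matrix.transpose_mul, hA.eq, Matrix.transpose_transpose,
    Matrix.mul_assoc]

theorem f5_NA01 (g : G24) (μ : ℝ) :
    ((gmat g).transpose * ((2 * μ) • NA) * gmat g) 0 1 = 0 := by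
  obtain ⟨r, s⟩ := g
  fin_cases r <;>
    simp [gmat, NA, Matrix.mul_apply, Fin.sum_univ_three, Matrix.transpose_apply]

theorem f5_E01 (g : G24) (μ : ℝ) :
    ((RZ (Real.pi / 4)).transpose * ((gmat g).transpose * ((2 * μ) • E12) * gmat g) *
      RZ (Real.pi / 4)) 0 1 = 0 := by
  obtain ⟨r, s⟩ := g
  fin_cases r <;>
    simp [gmat, E12, RZ, Matrix.mul_apply, Fin.sum_univ_three, Matrix.transpose_apply]
  split_ifs <;> ring

theorem f5_rotE : RZ (Real.pi / 4) * E12 * (RZ (Real.pi / 4)).transpose = (-1 : ℝ) • NA := by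
  have h : (√2 / 2 * (√2 / 2) : ℝ) = 1 / 2 := by
    rw [div_mul_div_comm, Real.mul_self_sqrt (by norm_num)]
    norm_num
  ext i j
  fin_cases i <;> fin_cases j <;>
    simp [E12, NA, RZ, Matrix.mul_apply, Fin.sum_univ_three, Matrix.transpose_apply]
  · rw [h]; norm_num
  · rw [h]; norm_num

theorem final3 {κ μ : ℝ} (hκ : 0 < κ) (hμ : 0 < μ) (hb : BaseExists κ μ)
    (hc : CorrectorExists κ μ) : ((0 : ℝ), μ) ∈ closure (attainable 3 κ μ) := by
  rw [Metric.mem_closure_iff]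
  intro ε hε
  obtain ⟨Cw, hCw, hweak⟩ := weak_stiff hκ hμ
  obtain ⟨Cr, hCr, hrot⟩ := local_rot hκ hμ kp_linked
  obtain ⟨c₁, hc₁, hcorr⟩ := hc
  set cw : ℝ := 8 * μ ^ 2 * Cw - 4 * μ * (volume (cb 6)).toReal with hcw
  -- the size of the correctors
  obtain ⟨θ, hθ, hθ', hθc⟩ : ∃ θ : ℝ, 0 < θ ∧ θ ≤ 1 / 96 ∧ 3 * θ ^ 3 * |cw| ≤ ε / 2 := by
    refine ⟨min (1 / 96) (ε / (6 * (|cw| + 1))), by positivity, min_le_left _ _, ?_⟩
    set t := min (1 / 96 : ℝ) (ε / (6 * (|cw| + 1))) with ht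
    have ht0 : 0 < t := by positivity
    have ht1 : t ≤ 1 := le_trans (min_le_left _ _) (by norm_num)
    have ht2 : t ≤ ε / (6 * (|cw| + 1)) := min_le_right _ _
    have h3 : t ^ 3 ≤ t := by nlinarith [mul_pos ht0 ht0]
    have h4 : t * (6 * (|cw| + 1)) ≤ ε := by
      rwa [le_div_iff₀ (by positivity)] at ht2
    nlinarith [abs_nonneg cw, mul_le_mul_of_nonneg_right h3 (abs_nonneg cw)]
  have hθ3 : 0 < θ ^ 3 := by positivity
  -- the quality of the correctors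
  obtain ⟨V, hVm, hV1, ⟨w, hw, hw0, hgain⟩, hst⟩ := hcorr (c₁ / (768 * μ ^ 2)) (by positivity)
  -- the quality of the base
  set η : ℝ := min (1 / 16) (min (θ ^ 3 * c₁ / (32 * (1 + 4 * μ))) (ε / (2 * (1 + 4 * μ))))
    with hη
  have hη0 : 0 < η := by positivity
  have hη1 : η ≤ 1 / 16 := min_le_left _ _
  have hη2 : η * (32 * (1 + 4 * μ)) ≤ θ ^ 3 * c₁ := by
    have : η ≤ θ ^ 3 * c₁ / (32 * (1 + 4 * μ)) := (min_le_right _ _).trans (min_le_left _ _)
    rwa [le_div_iff₀ (by positivity)] at this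
  have hη3 : η * (2 * (1 + 4 * μ)) ≤ ε := by
    have : η ≤ ε / (2 * (1 + 4 * μ)) := (min_le_right _ _).trans (min_le_right _ _)
    rwa [le_div_iff₀ (by positivity)] at this
  obtain ⟨L, Ω₀, hL, hm, hper, hcyc, hflip, hin, ⟨v, hv, hv0, hven⟩, hbase⟩ := hb η hη0
  have hin' : inner L (1 / 16) ⊆ Ω₀ := by
    refine subset_trans ?_ hin
    intro x hx i
    refine (hx i).trans ?_
    nlinarith
  have hP : 0 < 2 * L := by positivity
  -- the family
  set Vp : ℝ → Set E3 := fun φ => mact (RZ φ) '' V with hVp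
  have hVpm : ∀ φ, MeasurableSet (Vp φ) := fun φ => f5_meas _ (f5_RZ_orth φ) V hVm
  have hVp1 : ∀ φ, Vp φ ⊆ cb 1 := fun φ => f5_sub _ (f5_RZ_orth φ) V hV1
  have hadm : ∀ ε₀ : M3, (ε₀ = NA ∨ ε₀ = E12) → ε₀.IsSymm ∧ ε₀.trace = 0 ∧ inn ε₀ ε₀ = 2 ∧
      density κ μ ε₀ = 4 * μ := by
    rintro ε₀ (rfl | rfl)
    · exact ⟨f5_NA_symm, by simp [NA, Matrix.trace, Fin.sum_univ_three], f5_inn_NA,
        f5_density_NA κ μ⟩
    · exact ⟨f5_E12_symm, by simp [E12, Matrix.trace, Fin.sum_univ_three], f5_inn_E12,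
        f5_density_E12 κ μ⟩
  have hconj : ∀ ε₀ : M3, (ε₀ = NA ∨ ε₀ = E12) → ∀ g : G24,
      ((gmat g).transpose * ((2 * μ) • ε₀) * gmat g).IsSymm ∧
      ((gmat g).transpose * ((2 * μ) • ε₀) * gmat g).trace = 0 ∧
      inn ((gmat g).transpose * ((2 * μ) • ε₀) * gmat g)
        ((gmat g).transpose * ((2 * μ) • ε₀) * gmat g) = 8 * μ ^ 2 := by
    intro ε₀ h g
    obtain ⟨h1, h2, h3, -⟩ := hadm ε₀ h
    refine ⟨f5_symm _ _ (h1.smul _), ?_, ?_⟩
    · rw [f5_trace _ _ (gmat_orth g), Matrix.trace_smul, h2, smul_zero]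
    · rw [inn_orth _ _ _ (gmat_orth g), f5_inn_smul, h3]
      ring
  -- lower bound with weak correctors
  have hlow : ∀ φ, ∀ ε₀ : M3, (ε₀ = NA ∨ ε₀ = E12) →
      4 * μ - η / 8 - 3 * θ ^ 3 * cw ≤ (1 + η) * Wq κ μ (2 * L) (Om L θ Ω₀ (Vp φ)) ε₀ := by
    intro φ ε₀ h
    refine lowerF hκ hμ hL hθ hθ' hη0 hη1 Ω₀ (Vp φ) hm (hVpm φ) (hVp1 φ) hin ε₀ h
      (hbase ε₀ h) cw ?_
    intro g
    obtain ⟨h1, h2, h3⟩ := hconj ε₀ h g
    have h4 := hweak (Vp φ) (hVpm φ) (hVp1 φ) _ h1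
    rw [h3] at h4
    have h5 : 4 * μ * (volume (cb 6)).toReal + cw = Cw * (8 * μ ^ 2) := by
      rw [hcw]; ring
    rw [h5]
    exact h4
  -- sharp lower bounds
  have hsharp : ∀ φ, ∀ ε₀ : M3, (ε₀ = NA ∨ ε₀ = E12) → (∀ g : G24, Stiff κ μ (cb 6) (Vp φ)
      ((gmat g).transpose * ((2 * μ) • ε₀) * gmat g)
        (8 * μ ^ 2 * ((volume (cb 6)).toReal / (2 * μ) + c₁ / (768 * μ ^ 2)))) →
      4 * μ - η / 8 - θ ^ 3 * c₁ / 32 ≤ (1 + η) * Wq κ μ (2 * L) (Om L θ Ω₀ (Vp φ)) ε₀ := by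
    intro φ ε₀ h hs
    have h1 := lowerF hκ hμ hL hθ hθ' hη0 hη1 Ω₀ (Vp φ) hm (hVpm φ) (hVp1 φ) hin ε₀ h
      (hbase ε₀ h) (c₁ / 96) ?_
    · have : 3 * θ ^ 3 * (c₁ / 96) = θ ^ 3 * c₁ / 32 := by ring
      rw [this] at h1
      exact h1
    · intro g
      have h2 : 4 * μ * (volume (cb 6)).toReal + c₁ / 96 =
          8 * μ ^ 2 * ((volume (cb 6)).toReal / (2 * μ) + c₁ / (768 * μ ^ 2)) := by
        field_simp
        ring
      rw [h2]
      exact hs g
  -- angle zero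
  have hV0 : Vp 0 = V := by
    simp only [hVp, f5_RZ_zero]
    have : (mact 1 : E3 → E3) = id := by
      funext x
      exact f5_mact_one x
    rw [this, Set.image_id]
  have h0NA := hsharp 0 NA (Or.inl rfl) (by
    intro g
    obtain ⟨h1, h2, h3⟩ := hconj NA (Or.inl rfl) g
    have h4 := hst _ h1 h2 (f5_NA01 g μ)
    rw [h3] at h4
    rw [hV0]
    exact h4)
  have h0E : Wq κ μ (2 * L) (Om L θ Ω₀ (Vp 0)) E12 ≤ 4 * μ - θ ^ 3 / 8 * c₁ := by
    have h1 := upper_gain hκ hμ hL hθ hθ' Ω₀ V hm hVm hV1 0 hin' c₁ w hw hw0 hgain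
    rw [f5_RZ_zero, Matrix.transpose_one, Matrix.one_mul, Matrix.mul_one, ← f5_RZ_zero] at h1
    exact h1
  -- angle pi/4
  have h1E := hsharp (Real.pi / 4) E12 (Or.inr rfl) (by
    intro g
    obtain ⟨h1, h2, h3⟩ := hconj E12 (Or.inr rfl) g
    refine f5_stiff _ (f5_RZ_orth _) V hVm _ _ ?_
    have h4 := hst _ (f5_symm (RZ (Real.pi / 4)) _ h1)
      (by rw [f5_trace _ _ (f5_RZ_orth _)]; exact h2) (f5_E01 g μ)
    rw [inn_orth _ _ _ (f5_RZ_orth _), h3] at h4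
    exact h4)
  have h1NA : Wq κ μ (2 * L) (Om L θ Ω₀ (Vp (Real.pi / 4))) NA ≤ 4 * μ - θ ^ 3 / 8 * c₁ := by
    have h1 := upper_gain hκ hμ hL hθ hθ' Ω₀ V hm hVm hV1 (Real.pi / 4) hin' c₁ w hw hw0 hgain
    rw [f5_rotE, Wq_smul hκ hμ hP _ (Om_meas hL hθ hθ' Ω₀ (Vp (Real.pi / 4)) hm (hVpm _))] at h1
    simpa using h1
  -- the intermediate value theorem
  set D : ℝ → ℝ := fun φ => Wq κ μ (2 * L) (Om L θ Ω₀ (Vp φ)) NA -
    Wq κ μ (2 * L) (Om L θ Ω₀ (Vp φ)) E12 with hD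
  have hDc : Continuous D :=
    (contF hκ hμ hL hθ hθ' Ω₀ V hm hVm hV1 hin' NA f5_NA_symm Cr hCr hrot).sub
      (contF hκ hμ hL hθ hθ' Ω₀ V hm hVm hV1 hin' E12 f5_E12_symm Cr hCr hrot)
  have key : ∀ a b : ℝ, 4 * μ - η / 8 - θ ^ 3 * c₁ / 32 ≤ (1 + η) * a →
      b ≤ 4 * μ - θ ^ 3 / 8 * c₁ → b ≤ a := by
    intro a b h1 h2
    have h3 : (1 + η) * b ≤ (1 + η) * a := by
      have h4 : (1 + η) * b ≤ (1 + η) * (4 * μ - θ ^ 3 / 8 * c₁) :=
        mul_le_mul_of_nonneg_left h2 (by linarith)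
      have h5 : 0 < η * (θ ^ 3 * c₁) := by positivity
      nlinarith
    exact le_of_mul_le_mul_left h3 (by linarith)
  have hD0 : 0 ≤ D 0 := by
    have := key _ _ h0NA h0E
    simp only [hD]
    linarith
  have hD1 : D (Real.pi / 4) ≤ 0 := by
    have := key _ _ h1E h1NA
    simp only [hD]
    linarith
  obtain ⟨φ, -, hφ⟩ := intermediate_value_Icc' (by positivity : (0 : ℝ) ≤ Real.pi / 4)
    hDc.continuousOn ⟨hD1, hD0⟩
  -- the composite
  set Ω := Om L θ Ω₀ (Vp φ) with hΩ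
  have hΩm : MeasurableSet Ω := Om_meas hL hθ hθ' Ω₀ (Vp φ) hm (hVpm φ)
  have hΩp : PerSet (2 * L) Ω := Om_per Ω₀ (Vp φ) hper
  have heq : Wq κ μ (2 * L) Ω NA = Wq κ μ (2 * L) Ω E12 := by
    simp only [hD] at hφ
    linarith
  have hiso := isotropic_of_sym hκ hμ hL Ω hΩm hΩp (Om_cyc Ω₀ (Vp φ) hcyc)
    (Om_flip Ω₀ (Vp φ) hflip) heq
  refine ⟨(Wq κ μ (2 * L) Ω 1 / 9, Wq κ μ (2 * L) Ω NA / 4),
    attainable_of hκ hμ hP Ω hΩm hΩp _ _ hiso, ?_⟩
  have hone := upper_one (θ := θ) hκ hμ hL Ω₀ (Vp φ) ⟨v, hv, hven⟩ hm (hVpm φ)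
  have hone0 := Wq_nonneg hκ hμ hP Ω 1
  have hup := upper_triv hκ hμ hP Ω NA f5_NA_symm
  rw [f5_density_NA] at hup
  have hlo := hlow φ NA (Or.inl rfl)
  have hlo' : 4 * μ - ε ≤ Wq κ μ (2 * L) Ω NA := by
    have h1 : 3 * θ ^ 3 * cw ≤ ε / 2 := by
      refine le_trans ?_ hθc
      exact mul_le_mul_of_nonneg_left (le_abs_self _) (by positivity)
    nlinarith
  rw [dist_comm, Prod.dist_eq, max_lt_iff]
  constructor
  · rw [Real.dist_eq, sub_zero, abs_of_nonneg (by positivity)]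
    have h2 : η < ε := by nlinarith
    linarith
  · rw [Real.dist_eq, abs_lt]
    constructor <;> linarith

end Pool.Agent.ShearComposite.D3
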