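import Pool.Agent.ShearComposite3.Base3

/-!
# TASK P1: one dimensional profiles
-/

set_option autoImplicit false

open MeasureTheory Filter Topology
open scoped ContDiff

namespace Pool.Agent.ShearComposite.D3

/-! ### elementary functions -/

theorem p1_nat_le (j : ℕ) : ((j : ℕ) : WithTop ℕ∞) ≤ ∞ := by
  exact_mod_cast (le_top : (j : ℕ∞) ≤ ⊤)

theorem p1_st_zero {x : ℝ} (h : x ≤ -(1 / 2)) : st x = 0 :=
  Real.smoothTransition.zero_of_nonpos (by linarith)

theorem p1_st_one {x : ℝ} (h : 1 / 2 ≤ x) : st x = 1 :=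
  Real.smoothTransition.one_of_one_le (by linarith)

theorem p1_smoothTransition_symm (x : ℝ) :
    Real.smoothTransition (1 - x) = 1 - Real.smoothTransition x := by
  have h := Real.smoothTransition.pos_denom x
  have h' := h.ne'
  unfold Real.smoothTransition
  rw [sub_sub_cancel, add_comm (expNegInvGlue (1 - x)) (expNegInvGlue x)]
  field_simp
  ring

theorem p1_st_neg (x : ℝ) : st (-x) = 1 - st x := by
  unfold st
  rw [← p1_smoothTransition_symm]
  congr 1
  ring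

theorem p1_b2_zero {x : ℝ} (h : x ≤ -(1 / 2)) : b2 x = 0 := by rw [b2, p1_st_zero h, mul_zero]

theorem p1_b2_id {x : ℝ} (h : 1 / 2 ≤ x) : b2 x = x := by rw [b2, p1_st_one h, mul_one]

theorem p1_b2_neg (x : ℝ) : b2 (-x) = b2 x - x := by
  rw [b2, b2, p1_st_neg]; ring

theorem p1_st_smooth : ContDiff ℝ ∞ st := by
  unfold st
  exact Real.smoothTransition.contDiff.comp (contDiff_id.add contDiff_const)

theorem p1_b2_smooth : ContDiff ℝ ∞ b2 := by
  unfold b2
  exact contDiff_id.mul p1_st_smooth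

theorem p1_cut_smooth (a b : ℝ) : ContDiff ℝ ∞ (cut a b) := by
  unfold cut
  exact Real.smoothTransition.contDiff.comp
    ((contDiff_const.sub (contDiff_id.pow 2)).div_const _)

theorem p1_b0_zero_of_lt {x : ℝ} (h : 1 / 2 < |x|) : b0 x = 0 := by
  unfold b0
  rcases lt_abs.1 h with h | h
  · have : b2 =ᶠ[𝓝 x] fun y => y := by
      filter_upwards [eventually_gt_nhds h] with y hy
      exact p1_b2_id hy.le
    rw [this.iteratedDeriv_eq 2]
    simp [iteratedDeriv_fun_id]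
  · have : b2 =ᶠ[𝓝 x] fun _ => 0 := by
      filter_upwards [eventually_lt_nhds (show x < -(1 / 2) by linarith)] with y hy
      exact p1_b2_zero hy.le
    rw [this.iteratedDeriv_eq 2]
    simp

theorem p1_b0_cont : Continuous b0 :=
  p1_b2_smooth.continuous_iteratedDeriv 2 (p1_nat_le 2)

theorem p1_b0_zero {x : ℝ} (h : 1 / 2 ≤ |x|) : b0 x = 0 := by
  rcases h.lt_or_eq with h | h
  · exact p1_b0_zero_of_lt h
  · -- limit from outside
    have hcl : x ∈ closure {y : ℝ | 1 / 2 < |y|} := by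
      rcases le_total 0 x with hx | hx
      · rw [abs_of_nonneg hx] at h
        rw [Metric.mem_closure_iff]
        intro ε hε
        refine ⟨x + ε / 2, ?_, ?_⟩
        · show 1 / 2 < |x + ε / 2|
          rw [abs_of_nonneg (by linarith)]; linarith
        · rw [Real.dist_eq, abs_of_nonpos (by linarith)]; linarith
      · rw [abs_of_nonpos hx] at h
        rw [Metric.mem_closure_iff]
        intro ε hε
        refine ⟨x - ε / 2, ?_, ?_⟩
        · show 1 / 2 < |x - ε / 2|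
          rw [abs_of_nonpos (by linarith)]; linarith
        · rw [Real.dist_eq, abs_of_nonneg (by linarith)]; linarith
    have hclosed : IsClosed {y : ℝ | b0 y = 0} := isClosed_eq p1_b0_cont continuous_const
    exact closure_minimal (fun y hy => p1_b0_zero_of_lt hy) hclosed hcl

theorem p1_b0_even (x : ℝ) : b0 (-x) = b0 x := by
  have h1 : iteratedDeriv 2 (fun y => b2 (-y)) x = (-1 : ℝ) ^ 2 • iteratedDeriv 2 b2 (-x) :=
    iteratedDeriv_comp_neg 2 b2 x
  have h2 : (fun y => b2 (-y)) = fun y => b2 y - y := funext p1_b2_neg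
  have hc : ContDiffAt ℝ (2 : ℕ) b2 x := (p1_b2_smooth.of_le (p1_nat_le 2)).contDiffAt
  have hid : ContDiffAt ℝ (2 : ℕ) (fun y : ℝ => y) x := contDiffAt_id
  rw [h2, iteratedDeriv_fun_sub hc hid] at h1
  simp [iteratedDeriv_fun_id] at h1
  unfold b0
  exact h1.symm

theorem p1_cut_one {a b x : ℝ} (ha : 0 ≤ a) (hab : a < b) (h : |x| ≤ a) : cut a b x = 1 := by
  apply Real.smoothTransition.one_of_one_le
  have h1 : 0 < b ^ 2 - a ^ 2 := by nlinarith
  rw [le_div_iff₀ h1]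
  have h2 : x ^ 2 ≤ a ^ 2 := by rw [← sq_abs]; gcongr
  linarith

theorem p1_cut_zero {a b x : ℝ} (ha : 0 ≤ a) (hab : a < b) (h : b ≤ |x|) : cut a b x = 0 := by
  apply Real.smoothTransition.zero_of_nonpos
  have h1 : 0 < b ^ 2 - a ^ 2 := by nlinarith
  apply div_nonpos_of_nonpos_of_nonneg _ h1.le
  have hb : 0 ≤ b := by linarith
  have h2 : b ^ 2 ≤ x ^ 2 := by rw [← sq_abs x]; gcongr
  linarith

theorem p1_cut_even (a b x : ℝ) : cut a b (-x) = cut a b x := by
  unfold cut; rw [neg_sq]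

theorem p1_cut_abs (a b x : ℝ) : cut a b |x| = cut a b x := by
  unfold cut; rw [sq_abs]

/-! ### the signed distance -/

theorem p1_xi_le {L : ℝ} (hL : 0 < L) (x : ℝ) (n : ℤ) : |xi L x| ≤ |x - L * n| := by
  unfold xi
  have h := round_le (x / L) n
  have e1 : x - L * round (x / L) = L * (x / L - round (x / L)) := by field_simp
  have e2 : x - L * n = L * (x / L - n) := by field_simp
  rw [e1, e2, abs_mul, abs_mul]
  gcongr

theorem p1_xi_half {L : ℝ} (hL : 0 < L) (x : ℝ) : |xi L x| ≤ L / 2 := by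
  unfold xi
  have h := abs_sub_round (x / L)
  have e1 : x - L * round (x / L) = L * (x / L - round (x / L)) := by field_simp
  rw [e1, abs_mul, abs_of_pos hL]
  nlinarith

theorem p1_xi_abs {L : ℝ} (hL : 0 < L) {x : ℝ} {n : ℤ} (h : |x - L * n| ≤ L / 2) :
    |xi L x| = |x - L * n| := by
  refine le_antisymm (p1_xi_le hL x n) ?_
  by_cases hn : round (x / L) = n
  · rw [xi, hn]
  · have h1 := p1_xi_half hL x
    have h2 : L ≤ |xi L x| + |x - L * n| := by
      have h3 : (1 : ℝ) ≤ |((round (x / L) - n : ℤ) : ℝ)| := by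
        exact_mod_cast Int.one_le_abs (sub_ne_zero.2 hn)
      have h4 : L ≤ |L * ((round (x / L) - n : ℤ) : ℝ)| := by
        rw [abs_mul, abs_of_pos hL]; nlinarith
      have h5 : L * ((round (x / L) - n : ℤ) : ℝ) = (x - L * n) - xi L x := by
        unfold xi; push_cast; ring
      rw [h5] at h4
      have := abs_sub (x - L * n) (xi L x)
      linarith
    linarith

theorem p1_xi_eq {L : ℝ} (hL : 0 < L) {x : ℝ} {n : ℤ} (h : |x - L * n| < L / 2) :
    xi L x = x - L * n := by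
  have hn : round (x / L) = n := by
    rw [round_eq, Int.floor_eq_iff]
    have h1 := abs_lt.1 h
    constructor
    · have : (n : ℝ) * L ≤ (x / L + 1 / 2) * L := by
        have e : (x / L + 1 / 2) * L = x + L / 2 := by field_simp
        rw [e]; linarith
      exact le_of_mul_le_mul_right this hL
    · have : (x / L + 1 / 2) * L < ((n : ℝ) + 1) * L := by
        have e : (x / L + 1 / 2) * L = x + L / 2 := by field_simp
        rw [e]; linarith
      exact lt_of_mul_lt_mul_right this hL.le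
  rw [xi, hn]

theorem p1_xi_lip {L : ℝ} (hL : 0 < L) (x y : ℝ) : |xi L y| ≤ |xi L x| + |y - x| := by
  have h1 := p1_xi_le hL y (round (x / L))
  have h2 : y - L * round (x / L) = xi L x + (y - x) := by unfold xi; ring
  rw [h2] at h1
  exact h1.trans (abs_add_le _ _)

theorem p1_xi_add {L : ℝ} (hL : 0 < L) (x : ℝ) : xi L (x + L) = xi L x := by
  unfold xi
  rw [add_div, div_self hL.ne', round_add_one]
  push_cast
  ring

theorem p1_xi_neg {L : ℝ} (hL : 0 < L) (x : ℝ) : |xi L (-x)| = |xi L x| := by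
  have h1 := p1_xi_half hL x
  have h2 : |(-x) - L * ((-round (x / L) : ℤ) : ℝ)| = |xi L x| := by
    rw [xi, ← abs_neg]; congr 1; push_cast; ring
  rw [p1_xi_abs hL (n := -round (x / L)) (by rw [h2]; exact h1), h2]

theorem p1_near (x₀ δ : ℝ) (hδ : 0 < δ) : ∀ᶠ y in 𝓝 x₀, |y - x₀| < δ := by
  have := Metric.ball_mem_nhds x₀ hδ
  filter_upwards [this] with y hy
  rwa [Metric.mem_ball, Real.dist_eq] at hy

theorem p1_xi_near {L : ℝ} (hL : 0 < L) {x₀ : ℝ} {n : ℤ} (h : |x₀ - L * n| < L / 2) :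
    ∀ᶠ y in 𝓝 x₀, xi L y = y - L * n := by
  filter_upwards [p1_near x₀ (L / 2 - |x₀ - L * n|) (by linarith)] with y hy
  apply p1_xi_eq hL
  have : y - L * n = (y - x₀) + (x₀ - L * n) := by ring
  rw [this]
  exact (abs_add_le _ _).trans_lt (by linarith)

theorem p1_xi_add_mul {L : ℝ} (hL : 0 < L) (x : ℝ) (n : ℤ) : |xi L (x + L * n)| = |xi L x| := by
  have h1 := p1_xi_half hL x
  have h2 : (x + L * n) - L * ((round (x / L) + n : ℤ) : ℝ) = xi L x := by
    rw [xi]; push_cast; ring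
  rw [p1_xi_abs hL (n := round (x / L) + n) (by rw [h2]; exact h1), h2]

/-! ### the local models -/

noncomputable def p1_W0 (t : ℝ) : ℝ := t ^ 2 / 2 * cut 3 5 t

noncomputable def p1_kin (R t : ℝ) : ℝ :=
  t ^ 2 / 2 - p1_W0 t - (R + 2) * (b2 (t - R) + b2 (-t - R))

noncomputable def p1_kap (s : ℝ) : ℝ := s ^ 2 / 2 - 4 * b2 s + 2 * s

noncomputable def p1_par (s : ℝ) : ℝ := s ^ 2 / 2 - 2

noncomputable def p1_out (R x : ℝ) : ℝ := p1_kap |xi 4 (x - R)| + R ^ 2 / 2

noncomputable def p1_K (L R x : ℝ) : ℝ :=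
  if |xi L x| < R + 2 then p1_kin R |xi L x| else p1_out R x

theorem p1_W0_abs (t : ℝ) : p1_W0 |t| = p1_W0 t := by
  unfold p1_W0; rw [sq_abs, p1_cut_abs]

theorem p1_W0_near {t : ℝ} (h : |t| ≤ 3) : p1_W0 t = t ^ 2 / 2 := by
  unfold p1_W0; rw [p1_cut_one (by norm_num) (by norm_num) h, mul_one]

theorem p1_W0_zero {t : ℝ} (h : 5 ≤ |t|) : p1_W0 t = 0 := by
  unfold p1_W0; rw [p1_cut_zero (by norm_num) (by norm_num) h, mul_zero]

theorem p1_kin_abs (R t : ℝ) : p1_kin R |t| = p1_kin R t := by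
  unfold p1_kin
  rw [sq_abs, p1_W0_abs]
  rcases abs_choice t with h | h
  · rw [h]
  · rw [h, neg_neg, add_comm (b2 (-t - R))]

theorem p1_kap_abs (s : ℝ) : p1_kap |s| = p1_kap s := by
  rcases abs_choice s with h | h
  · rw [h]
  · rw [h, p1_kap, p1_kap, p1_b2_neg]; ring

theorem p1_kap_far {s : ℝ} (h : 1 / 2 ≤ s) : p1_kap s = (s - 2) ^ 2 / 2 - 2 := by
  rw [p1_kap, p1_b2_id h]; ring

theorem p1_kin_far {R t : ℝ} (hR : 5 ≤ R) (h : R + 1 / 2 ≤ t) :
    p1_kin R t = (t - R - 2) ^ 2 / 2 - 2 + R ^ 2 / 2 := by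
  rw [p1_kin, p1_W0_zero (by rw [abs_of_nonneg (by linarith)]; linarith),
    p1_b2_id (by linarith : 1 / 2 ≤ t - R), p1_b2_zero (by linarith : -t - R ≤ -(1 / 2))]
  ring

theorem p1_W0_smooth : ContDiff ℝ ∞ p1_W0 :=
  ((contDiff_id.pow 2).div_const 2).mul (p1_cut_smooth 3 5)

theorem p1_kin_smooth (R : ℝ) : ContDiff ℝ ∞ (p1_kin R) := by
  unfold p1_kin
  refine (((contDiff_id.pow 2).div_const 2).sub p1_W0_smooth).sub (contDiff_const.mul ?_)
  exact (p1_b2_smooth.comp (contDiff_id.sub contDiff_const)).add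
    (p1_b2_smooth.comp (contDiff_id.neg.sub contDiff_const))

theorem p1_kap_smooth : ContDiff ℝ ∞ p1_kap := by
  unfold p1_kap
  exact (((contDiff_id.pow 2).div_const 2).sub (contDiff_const.mul p1_b2_smooth)).add
    (contDiff_const.mul contDiff_id)

theorem p1_par_smooth : ContDiff ℝ ∞ p1_par := by
  unfold p1_par
  exact ((contDiff_id.pow 2).div_const 2).sub contDiff_const

/-! second derivatives -/

theorem p1_d2_sq (t : ℝ) : iteratedDeriv 2 (fun y : ℝ => y ^ 2 / 2) t = 1 := by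
  rw [iteratedDeriv_div_const]
  simp [Nat.descFactorial]

theorem p1_d2_W0 : ContDiff ℝ (2 : ℕ) p1_W0 := p1_W0_smooth.of_le (p1_nat_le 2)

theorem p1_d2_kin (R t : ℝ) : iteratedDeriv 2 (p1_kin R) t
    = 1 - iteratedDeriv 2 p1_W0 t - (R + 2) * (b0 (t - R) + b0 (-t - R)) := by
  have hb : ContDiff ℝ (2 : ℕ) b2 := p1_b2_smooth.of_le (p1_nat_le 2)
  have c1 : ContDiffAt ℝ (2 : ℕ) (fun y : ℝ => y ^ 2 / 2) t :=
    ((contDiff_id.pow 2).div_const 2).contDiffAt
  have c2 : ContDiffAt ℝ (2 : ℕ) p1_W0 t := p1_d2_W0.contDiffAt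
  have c3 : ContDiffAt ℝ (2 : ℕ) (fun y : ℝ => b2 (y - R)) t :=
    (hb.comp (contDiff_id.sub contDiff_const)).contDiffAt
  have c4 : ContDiffAt ℝ (2 : ℕ) (fun y : ℝ => b2 (-y - R)) t :=
    (hb.comp (contDiff_id.neg.sub contDiff_const)).contDiffAt
  have e : p1_kin R = fun y => (y ^ 2 / 2 - p1_W0 y) - (R + 2) * (b2 (y - R) + b2 (-y - R)) := rfl
  rw [e, iteratedDeriv_fun_sub (c1.sub c2) (contDiffAt_const.mul (c3.add c4)),
    iteratedDeriv_fun_sub c1 c2, p1_d2_sq, iteratedDeriv_const_mul_field,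
    iteratedDeriv_fun_add c3 c4, iteratedDeriv_comp_sub_const]
  have e4 : iteratedDeriv 2 (fun y : ℝ => b2 (-y - R)) t = b0 (-t - R) := by
    have := iteratedDeriv_comp_neg 2 (fun y => b2 (y - R)) t
    rw [iteratedDeriv_comp_sub_const] at this
    rw [this]
    simp [b0]
  rw [e4]
  rfl

theorem p1_d2_kap (c s : ℝ) : iteratedDeriv 2 (fun y => p1_kap y + c) s = 1 - 4 * b0 s := by
  have hb : ContDiffAt ℝ (2 : ℕ) b2 s := (p1_b2_smooth.of_le (p1_nat_le 2)).contDiffAt
  have c1 : ContDiffAt ℝ (2 : ℕ) (fun y : ℝ => y ^ 2 / 2) s :=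
    ((contDiff_id.pow 2).div_const 2).contDiffAt
  have c5 : ContDiffAt ℝ (2 : ℕ) (fun y : ℝ => 2 * y + c) s :=
    ((contDiff_const.mul contDiff_id).add contDiff_const).contDiffAt
  have c6 : ContDiffAt ℝ (2 : ℕ) (fun y : ℝ => 4 * b2 y) s := contDiffAt_const.mul hb
  have e : (fun y => p1_kap y + c) = fun y => (y ^ 2 / 2 - 4 * b2 y) + (2 * y + c) := by
    funext y; unfold p1_kap; ring
  have e5 : iteratedDeriv 2 (fun y : ℝ => 2 * y + c) s = 0 := by
    rw [iteratedDeriv_fun_add (contDiffAt_const.mul contDiffAt_id) contDiffAt_const,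
      iteratedDeriv_const_mul_field]
    simp [iteratedDeriv_fun_id, iteratedDeriv_const]
  rw [e, iteratedDeriv_fun_add (c1.sub c6) c5, iteratedDeriv_fun_sub c1 c6, p1_d2_sq,
    iteratedDeriv_const_mul_field, e5]
  unfold b0
  ring

theorem p1_d2_par (c s : ℝ) : iteratedDeriv 2 (fun y => p1_par y + c) s = 1 := by
  have c1 : ContDiffAt ℝ (2 : ℕ) (fun y : ℝ => y ^ 2 / 2) s :=
    ((contDiff_id.pow 2).div_const 2).contDiffAt
  have e : (fun y => p1_par y + c) = fun y => y ^ 2 / 2 + (-2 + c) := by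
    funext y; unfold p1_par; ring
  rw [e, iteratedDeriv_fun_add c1 contDiffAt_const, p1_d2_sq]
  simp [iteratedDeriv_const]

/-! ### local formulas for the outer function -/

theorem p1_out1 (R x : ℝ) (h : |xi 4 (x - R)| < 2) : ∃ m : ℤ, |x - (R + 4 * m)| < 2 ∧
    p1_out R =ᶠ[𝓝 x] fun y => p1_kap (y - (R + 4 * m)) + R ^ 2 / 2 := by
  refine ⟨round ((x - R) / 4), ?_, ?_⟩
  · have : x - (R + 4 * (round ((x - R) / 4) : ℝ)) = xi 4 (x - R) := by unfold xi; ring
    rw [this]; exact h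
  · have h0 : |(x - R) - 4 * (round ((x - R) / 4) : ℤ)| < 4 / 2 := by
      have : (x - R) - 4 * ((round ((x - R) / 4) : ℤ) : ℝ) = xi 4 (x - R) := rfl
      rw [this]; linarith
    have h1 := p1_xi_near (L := 4) (by norm_num) h0
    have h2 : Tendsto (fun y : ℝ => y - R) (𝓝 x) (𝓝 (x - R)) :=
      (continuous_id.sub continuous_const).tendsto x
    filter_upwards [h2.eventually h1] with y hy
    rw [p1_out, hy, p1_kap_abs]
    congr 2
    ring

theorem p1_out2 (R x : ℝ) (h : |xi 4 (x - R)| = 2) :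
    p1_out R =ᶠ[𝓝 x] fun y => p1_par (y - x) + R ^ 2 / 2 := by
  filter_upwards [p1_near x 1 one_pos] with y hy
  have key : |xi 4 (y - R)| = 2 - |y - x| := by
    set m : ℤ := round ((x - R) / 4) with hm
    have e0 : xi 4 (x - R) = x - R - 4 * m := rfl
    rw [e0] at h
    have hy' := abs_lt.1 hy
    rcases (abs_eq (by norm_num)).1 h with h | h
    · rcases le_total y x with hyx | hyx
      · have a1 : |y - R - 4 * m| = 2 - |y - x| := by
          rw [abs_of_nonpos (by linarith : y - x ≤ 0), abs_of_nonneg (by linarith)]; linarith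
        rw [← a1]
        exact p1_xi_abs (by norm_num) (by rw [a1]; linarith [abs_nonneg (y - x)])
      · have a1 : |y - R - 4 * ((m + 1 : ℤ) : ℝ)| = 2 - |y - x| := by
          push_cast
          rw [abs_of_nonneg (by linarith : 0 ≤ y - x), abs_of_nonpos (by linarith)]; linarith
        rw [← a1]
        exact p1_xi_abs (by norm_num) (by rw [a1]; linarith [abs_nonneg (y - x)])
    · rcases le_total y x with hyx | hyx
      · have a1 : |y - R - 4 * ((m - 1 : ℤ) : ℝ)| = 2 - |y - x| := by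
          push_cast
          rw [abs_of_nonpos (by linarith : y - x ≤ 0), abs_of_nonneg (by linarith)]; linarith
        rw [← a1]
        exact p1_xi_abs (by norm_num) (by rw [a1]; linarith [abs_nonneg (y - x)])
      · have a1 : |y - R - 4 * m| = 2 - |y - x| := by
          rw [abs_of_nonneg (by linarith : 0 ≤ y - x), abs_of_nonpos (by linarith)]; linarith
        rw [← a1]
        exact p1_xi_abs (by norm_num) (by rw [a1]; linarith [abs_nonneg (y - x)])
  rw [p1_out, key, p1_kap_far (by linarith), p1_par]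
  have : (2 - |y - x| - 2) ^ 2 = (y - x) ^ 2 := by
    rw [show 2 - |y - x| - 2 = -|y - x| by ring, neg_sq, sq_abs]
  rw [this]

/-- the two formulas agree on the overlap -/
theorem p1_agree {k : ℕ} {R : ℝ} {r : ℤ} (hR : R = 2 * r) (hR5 : 5 ≤ R) (x : ℝ)
    (h1 : R + 1 / 2 ≤ |xi (4 * k) x|) (h2 : |xi (4 * k) x| ≤ R + 2) :
    p1_out R x = p1_kin R |xi (4 * k) x| := by
  have key : |xi 4 (x - R)| = |xi (4 * k) x| - R := by
    set n : ℤ := round (x / (4 * k)) with hn
    have e0 : xi (4 * k) x = x - 4 * k * n := rfl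
    rcases le_total 0 (xi (4 * k) x) with h | h
    · rw [abs_of_nonneg h] at h1 h2 ⊢
      have a1 : |x - R - 4 * ((k * n : ℤ) : ℝ)| = xi (4 * k) x - R := by
        rw [e0] at h1 h2 ⊢
        push_cast
        rw [abs_of_nonneg (by linarith)]; ring
      rw [← a1]
      exact p1_xi_abs (by norm_num) (by rw [a1]; linarith)
    · rw [abs_of_nonpos h] at h1 h2 ⊢
      have a1 : |x - R - 4 * ((k * n - r : ℤ) : ℝ)| = -xi (4 * k) x - R := by
        rw [e0] at h1 h2 ⊢
        push_cast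
        have e1 : x - R - 4 * (k * n - r) = x - 4 * k * n + R := by rw [hR]; ring
        rw [e1, abs_of_nonpos (by linarith)]; ring
      rw [← a1]
      exact p1_xi_abs (by norm_num) (by rw [a1]; linarith)
  rw [p1_out, key, p1_kap_far (by linarith), p1_kin_far hR5 h1]

theorem p1_four_pos {k : ℕ} (hk : 5 ≤ k) : (0 : ℝ) < 4 * k := by
  have : (5 : ℝ) ≤ k := by exact_mod_cast hk
  linarith

theorem p1_K1 {k : ℕ} (hk : 5 ≤ k) {R : ℝ} (hR8 : R ≤ 8) {x : ℝ} {n : ℤ}
    (h : |x - 4 * k * n| < R + 1) :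
    p1_K (4 * k) R =ᶠ[𝓝 x] fun y => p1_kin R (y - 4 * k * n) := by
  have hk' : (5 : ℝ) ≤ k := by exact_mod_cast hk
  have hL := p1_four_pos hk
  filter_upwards [p1_xi_near hL (x₀ := x) (n := n) (by linarith), p1_near x 1 one_pos] with y hy hy2
  have : |y - 4 * k * n| < R + 2 := by
    have e : y - 4 * k * n = (y - x) + (x - 4 * k * n) := by ring
    rw [e]
    exact (abs_add_le _ _).trans_lt (by linarith)
  rw [p1_K, hy, if_pos this, p1_kin_abs]

theorem p1_K2 {k : ℕ} (hk : 5 ≤ k) {R : ℝ} {r : ℤ} (hR : R = 2 * r) (hR5 : 5 ≤ R) {x : ℝ}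
    (h : R + 1 ≤ |xi (4 * k) x|) : p1_K (4 * k) R =ᶠ[𝓝 x] p1_out R := by
  have hL := p1_four_pos hk
  filter_upwards [p1_near x (1 / 2) (by norm_num)] with y hy
  have h1 := p1_xi_lip hL y x
  rw [abs_sub_comm] at h1
  rw [p1_K]
  split_ifs with h2
  · exact (p1_agree hR hR5 y (by linarith) h2.le).symm
  · rfl

/-! ### functions with finitely many local models -/

def p1_LM (G : List (ℝ → ℝ)) (R : ℝ) (f : ℝ → ℝ) : Prop :=
  ∀ x, ∃ g ∈ G, ∃ a, |x - a| ≤ R ∧ f =ᶠ[𝓝 x] fun y => g (y - a)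

theorem p1_LM.smooth {G : List (ℝ → ℝ)} {R : ℝ} {f : ℝ → ℝ} (h : p1_LM G R f)
    (hG : ∀ g ∈ G, ContDiff ℝ ∞ g) : ContDiff ℝ ∞ f := by
  rw [contDiff_iff_contDiffAt]
  intro x
  obtain ⟨g, hg, a, -, hfa⟩ := h x
  exact ((hG g hg).comp (contDiff_id.sub contDiff_const)).contDiffAt.congr_of_eventuallyEq hfa

theorem p1_LM.bound {G : List (ℝ → ℝ)} {R C : ℝ} {f : ℝ → ℝ} (h : p1_LM G R f)
    (hC : ∀ g ∈ G, ∀ j : ℕ, j ≤ 3 → ∀ y, |y| ≤ R → |iteratedDeriv j g y| ≤ C) (j : ℕ) (hj : j ≤ 3)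
    (x : ℝ) : |iteratedDeriv j f x| ≤ C := by
  obtain ⟨g, hg, a, ha, hfa⟩ := h x
  rw [hfa.iteratedDeriv_eq j, iteratedDeriv_comp_sub_const]
  exact hC g hg j hj _ ha

theorem p1_exists_bound (G : List (ℝ → ℝ)) (hG : ∀ g ∈ G, ContDiff ℝ ∞ g) (R : ℝ) :
    ∃ C : ℝ, 0 < C ∧ ∀ g ∈ G, ∀ j : ℕ, j ≤ 3 → ∀ y, |y| ≤ R → |iteratedDeriv j g y| ≤ C := by
  induction G with
  | nil => exact ⟨1, one_pos, by simp⟩
  | cons g G ih =>
    obtain ⟨C, hC, hC'⟩ := ih fun g' hg' => hG g' (List.mem_cons_of_mem _ hg')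
    have hg := hG g List.mem_cons_self
    have hb : ∀ j : ℕ, ∃ D : ℝ, ∀ y, |y| ≤ R → |iteratedDeriv j g y| ≤ D := by
      intro j
      have hc : Continuous (iteratedDeriv j g) := hg.continuous_iteratedDeriv j (p1_nat_le j)
      obtain ⟨D, hD⟩ := (isCompact_Icc (a := -R) (b := R)).exists_bound_of_continuousOn
        hc.continuousOn
      exact ⟨D, fun y hy => hD y (abs_le.1 hy)⟩
    choose D hD using hb
    refine ⟨C + |D 0| + |D 1| + |D 2| + |D 3|, by positivity, ?_⟩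
    intro g' hg' j hj y hy
    rcases List.mem_cons.1 hg' with rfl | hg'
    · have h1 := (hD j y hy).trans (le_abs_self _)
      have p0 := abs_nonneg (D 0)
      have p1 := abs_nonneg (D 1)
      have p2 := abs_nonneg (D 2)
      have p3 := abs_nonneg (D 3)
      interval_cases j <;> linarith
    · have h1 := hC' g' hg' j hj y hy
      have p0 := abs_nonneg (D 0)
      have p1 := abs_nonneg (D 1)
      have p2 := abs_nonneg (D 2)
      have p3 := abs_nonneg (D 3)
      linarith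

/-! ### the profiles -/

/-- the list of models -/
noncomputable def p1_G : List (ℝ → ℝ) :=
  [cut 3 5, p1_W0, fun _ => 0, p1_kin 8, fun y => p1_kap y + 8 ^ 2 / 2,
    fun y => p1_par y + 8 ^ 2 / 2, p1_kin 6, fun y => p1_kap y + 6 ^ 2 / 2,
    fun y => p1_par y + 6 ^ 2 / 2]

theorem p1_G_smooth : ∀ g ∈ p1_G, ContDiff ℝ ∞ g := by
  intro g hg
  simp only [p1_G, List.mem_cons, List.not_mem_nil, or_false] at hg
  rcases hg with rfl | rfl | rfl | rfl | rfl | rfl | rfl | rfl | rfl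
  · exact p1_cut_smooth 3 5
  · exact p1_W0_smooth
  · exact contDiff_const
  · exact p1_kin_smooth 8
  · exact p1_kap_smooth.add contDiff_const
  · exact p1_par_smooth.add contDiff_const
  · exact p1_kin_smooth 6
  · exact p1_kap_smooth.add contDiff_const
  · exact p1_par_smooth.add contDiff_const

theorem p1_xi_val {L x : ℝ} : x - L * (round (x / L) : ℤ) = xi L x := rfl

/-- functions of the form `g (xi x)`, `g` vanishing outside `[-5,5]` -/
theorem p1_comp1 {k : ℕ} (hk : 5 ≤ k) (g : ℝ → ℝ) {x : ℝ} {n : ℤ} (h : |x - 4 * k * n| < 10) :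
    (fun y => g (xi (4 * k) y)) =ᶠ[𝓝 x] fun y => g (y - 4 * k * n) := by
  have hk' : (5 : ℝ) ≤ k := by exact_mod_cast hk
  filter_upwards [p1_xi_near (p1_four_pos hk) (x₀ := x) (n := n) (by linarith)] with y hy
  rw [hy]

theorem p1_comp2 {k : ℕ} (hk : 5 ≤ k) {g : ℝ → ℝ} (hg : ∀ t, 5 ≤ |t| → g t = 0) {x : ℝ}
    (h : 6 ≤ |xi (4 * k) x|) : (fun y => g (xi (4 * k) y)) =ᶠ[𝓝 x] fun _ => 0 := by
  filter_upwards [p1_near x 1 one_pos] with y hy
  have h1 := p1_xi_lip (p1_four_pos hk) y x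
  rw [abs_sub_comm] at h1
  exact hg _ (by linarith)

theorem p1_LM_comp {k : ℕ} (hk : 5 ≤ k) {g : ℝ → ℝ} (hg : ∀ t, 5 ≤ |t| → g t = 0) (hgG : g ∈ p1_G) :
    p1_LM p1_G 9 (fun y => g (xi (4 * k) y)) := by
  intro x
  by_cases h : |xi (4 * k) x| < 6
  · refine ⟨g, hgG, 4 * k * (round (x / (4 * k)) : ℤ), ?_, ?_⟩
    · rw [p1_xi_val]; linarith
    · exact p1_comp1 hk g (by rw [p1_xi_val]; linarith)
  · refine ⟨fun _ => 0, by simp [p1_G], x, by simp, ?_⟩
    exact p1_comp2 hk hg (not_lt.1 h)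

theorem p1_LM_K {k : ℕ} (hk : 5 ≤ k) {R : ℝ} {r : ℤ} (hR : R = 2 * r) (hR5 : 5 ≤ R) (hR8 : R ≤ 8)
    (h1 : p1_kin R ∈ p1_G) (h2 : (fun y => p1_kap y + R ^ 2 / 2) ∈ p1_G)
    (h3 : (fun y => p1_par y + R ^ 2 / 2) ∈ p1_G) : p1_LM p1_G 9 (p1_K (4 * k) R) := by
  intro x
  by_cases h : |xi (4 * k) x| < R + 1
  · refine ⟨p1_kin R, h1, 4 * k * (round (x / (4 * k)) : ℤ), ?_, ?_⟩
    · rw [p1_xi_val]; linarith
    · exact p1_K1 hk hR8 (by rw [p1_xi_val]; exact h)
  · have hK := p1_K2 hk hR hR5 (not_lt.1 h)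
    have hx := p1_xi_half (L := 4) (by norm_num) (x - R)
    rcases (show |xi 4 (x - R)| ≤ 2 by linarith).lt_or_eq with h4 | h4
    · obtain ⟨m, hm, hm'⟩ := p1_out1 R x h4
      exact ⟨_, h2, R + 4 * m, by linarith, hK.trans hm'⟩
    · exact ⟨_, h3, x, by simp, hK.trans (p1_out2 R x h4)⟩

theorem p1_K_second {k : ℕ} (hk : 5 ≤ k) {R : ℝ} {r : ℤ} (hR : R = 2 * r) (hR5 : 5 ≤ R)
    (hR8 : R ≤ 8) {p : ℝ → ℝ}
    (hp1 : ∀ (x : ℝ) (n : ℤ), |x - 4 * k * n| < R + 1 →
      p x = (R + 2) * (b0 (x - 4 * k * n - R) + b0 (-(x - 4 * k * n) - R)))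
    (hp2 : ∀ (x : ℝ) (m : ℤ), R + 1 ≤ |xi (4 * k) x| → |x - (R + 4 * m)| ≤ 2 →
      p x = 4 * b0 (x - (R + 4 * m))) (x : ℝ) :
    iteratedDeriv 2 (p1_K (4 * k) R) x
      = 1 - iteratedDeriv 2 (fun y => p1_W0 (xi (4 * k) y)) x - p x := by
  by_cases h : |xi (4 * k) x| < R + 1
  · have hn : |x - 4 * k * (round (x / (4 * k)) : ℤ)| < R + 1 := by rw [p1_xi_val]; exact h
    rw [(p1_K1 hk hR8 hn).iteratedDeriv_eq 2,
      (p1_comp1 hk p1_W0 (hn.trans_le (by linarith))).iteratedDeriv_eq 2,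
      iteratedDeriv_comp_sub_const, iteratedDeriv_comp_sub_const]
    simp only []
    rw [p1_d2_kin, hp1 x _ hn]
  · have h' := not_lt.1 h
    have hK := p1_K2 hk hR hR5 h'
    have hx := p1_xi_half (L := 4) (by norm_num) (x - R)
    have hW : iteratedDeriv 2 (fun y => p1_W0 (xi (4 * k) y)) x = 0 := by
      rw [(p1_comp2 hk (g := p1_W0) (fun t ht => p1_W0_zero ht)
        (by linarith : 6 ≤ |xi (4 * k) x|)).iteratedDeriv_eq 2]
      simp
    rcases (show |xi 4 (x - R)| ≤ 2 by linarith).lt_or_eq with h4 | h4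
    · obtain ⟨m, hm, hm'⟩ := p1_out1 R x h4
      rw [(hK.trans hm').iteratedDeriv_eq 2, hW, hp2 x m h' hm.le]
      have := congrFun (iteratedDeriv_comp_sub_const 2 (fun y => p1_kap y + R ^ 2 / 2)
        (R + 4 * (m : ℝ))) x
      rw [this, p1_d2_kap]
      ring
    · set m : ℤ := round ((x - R) / 4)
      have e1 : x - (R + 4 * (m : ℝ)) = xi 4 (x - R) := by simp only [m]; unfold xi; ring
      rw [(hK.trans (p1_out2 R x h4)).iteratedDeriv_eq 2, hW,
        hp2 x m h' (by rw [e1, h4]), e1, p1_b0_zero (by rw [h4]; norm_num)]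
      have := congrFun (iteratedDeriv_comp_sub_const 2 (fun y => p1_par y + R ^ 2 / 2) x) x
      rw [this, p1_d2_par]
      ring

/-! ### the bar functions -/

theorem p1_barfun (c : ℤ → ℝ) {z : ℝ} {m : ℤ} (h : |z - 4 * m| ≤ 2) :
    barfun c b0 (fun _ => 0) z = c m * b0 (z - 4 * m) := by
  rcases h.lt_or_eq with h | h
  · have h1 := p1_xi_eq (L := 4) (by norm_num) (x := z) (n := m) (by linarith)
    have h2 : round (z / 4) = m := by
      unfold xi at h1
      have : ((round (z / 4) : ℤ) : ℝ) = m := by linarith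
      exact_mod_cast this
    rw [barfun, h2, sub_zero]
  · have h1 : |xi 4 z| = 2 := by
      rw [p1_xi_abs (L := 4) (by norm_num) (n := m) (by rw [h]; norm_num), h]
    have h2 : b0 (xi 4 z) = 0 := p1_b0_zero (by rw [h1]; norm_num)
    rw [barfun, p1_b0_zero (x := z - 4 * m) (by rw [h]; norm_num), mul_zero, sub_zero]
    have e : z - 4 * (round (z / 4) : ℝ) = xi 4 z := rfl
    rw [e, h2, mul_zero]

theorem p1_emod {k : ℕ} (n r : ℤ) (h0 : 0 ≤ r) (h1 : r < k) : ((k : ℤ) * n + r) % k = r := by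
  rw [Int.mul_add_emod_self_left, Int.emod_eq_of_lt h0 h1]

theorem p1_mass (k : ℕ) (i : ℤ) : (¬ barIdx k i → mass k i = 0) ∧
    (barIdx k i → (i % k = 2 ∨ i % k = k - 2) → mass k i = 10) ∧
    (barIdx k i → ¬ (i % k = 2 ∨ i % k = k - 2) → mass k i = 4) := by
  refine ⟨fun h => ?_, fun h h' => ?_, fun h h' => ?_⟩
  · simp only [mass, if_neg h]
  · simp only [mass, if_pos h, if_pos h']
  · simp only [mass, if_pos h, if_neg h']

theorem p1_massg (k : ℕ) (i : ℤ) : (¬ gapIdx k i → massg k i = 0) ∧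
    (gapIdx k i → (i % k = 1 ∨ i % k = k - 2) → massg k i = 8) ∧
    (gapIdx k i → ¬ (i % k = 1 ∨ i % k = k - 2) → massg k i = 4) := by
  refine ⟨fun h => ?_, fun h h' => ?_, fun h h' => ?_⟩
  · simp only [massg, if_neg h]
  · simp only [massg, if_pos h, if_pos h']
  · simp only [massg, if_pos h, if_neg h']

/-- residues of the bars away from the walls -/
theorem p1_res {k : ℕ} (hk : 5 ≤ k) (i : ℤ) (x c A : ℝ) (hx : |x - (4 * i + c)| < 1 / 2)
    (h : ∀ n : ℤ, A ≤ |x - 4 * k * n|) (a b : ℤ) (ha : 4 * (a - 1) + c + 1 / 2 < A)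
    (hb : 4 * (b - 1) - c + 1 / 2 < A) (hc : 0 ≤ c) (hc' : c ≤ 2) (hA : 5 / 2 < A) :
    a ≤ i % k ∧ i % k ≤ k - b := by
  have hk0 : (0 : ℤ) < k := by omega
  have hkR : (5 : ℝ) ≤ k := by exact_mod_cast hk
  set q := i / (k : ℤ) with hq
  set r := i % (k : ℤ) with hr
  have hi : i = k * q + r := (Int.mul_ediv_add_emod i k).symm
  have hiR : (i : ℝ) = k * q + r := by exact_mod_cast hi
  have hr0 : 0 ≤ r := Int.emod_nonneg i hk0.ne'
  have hr1 : r < k := Int.emod_lt_of_pos i hk0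
  have hr0' : (0 : ℝ) ≤ r := by exact_mod_cast hr0
  have hr1' : (r : ℝ) + 1 ≤ k := by exact_mod_cast hr1
  have hx' := abs_lt.1 hx
  constructor
  · by_contra hlt
    have h1 : r ≤ a - 1 := by omega
    have h1' : (r : ℝ) ≤ a - 1 := by exact_mod_cast h1
    have h2 := h q
    have h3 : |x - 4 * k * q| < A := by
      rw [abs_lt]
      constructor <;> nlinarith
    linarith
  · by_contra hlt
    have h1 : (k : ℤ) - b + 1 ≤ r := by omega
    have h1' : (k : ℝ) - b + 1 ≤ r := by exact_mod_cast h1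
    have h2 := h (q + 1)
    push_cast at h2
    have h3 : |x - 4 * k * (q + 1)| < A := by
      rw [abs_lt]
      constructor <;> nlinarith
    linarith

theorem p1_pp1 {k : ℕ} (hk : 5 ≤ k) (x : ℝ) (n : ℤ) (h : |x - 4 * k * n| < 8 + 1) :
    pp k x = (8 + 2) * (b0 (x - 4 * k * n - 8) + b0 (-(x - 4 * k * n) - 8)) := by
  have h' := abs_lt.1 h
  unfold pp
  by_cases h1 : |x - 4 * k * n| ≤ 6
  · -- no bars
    have h1' := abs_le.1 h1
    rw [p1_b0_zero (x := x - 4 * k * n - 8) (by rw [abs_of_nonpos (by linarith)]; linarith),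
      p1_b0_zero (x := -(x - 4 * k * n) - 8) (by rw [abs_of_nonpos (by linarith)]; linarith)]
    obtain ⟨j, hj0, hj1, hj⟩ : ∃ j : ℤ, -1 ≤ j ∧ j ≤ 1 ∧ |x - 4 * k * n - 4 * j| ≤ 2 := by
      by_cases h2 : x - 4 * k * n ≤ -2
      · exact ⟨-1, le_rfl, by norm_num, by push_cast; rw [abs_le]; constructor <;> linarith⟩
      · by_cases h3 : x - 4 * k * n ≤ 2
        · exact ⟨0, by norm_num, by norm_num, by push_cast; rw [abs_le]; constructor <;> linarith⟩
        · exact ⟨1, by norm_num, le_rfl, by push_cast; rw [abs_le]; constructor <;> linarith⟩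
    have hj' : |x - 4 * ((k * n + j : ℤ) : ℝ)| ≤ 2 := by
      have : x - 4 * ((k * n + j : ℤ) : ℝ) = x - 4 * k * n - 4 * j := by push_cast; ring
      rw [this]; exact hj
    rw [p1_barfun _ hj', (p1_mass k _).1]
    · ring
    · intro hb
      unfold barIdx at hb
      by_cases hjn : 0 ≤ j
      · rw [p1_emod n j hjn (by omega)] at hb; omega
      · have e : (k : ℤ) * n + j = k * (n - 1) + (k + j) := by ring
        rw [e, p1_emod (n - 1) (k + j) (by omega) (by omega)] at hb; omega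
  · rcases lt_abs.1 (not_le.1 h1) with h2 | h2
    · rw [p1_b0_zero (x := -(x - 4 * k * n) - 8) (by rw [abs_of_nonpos (by linarith)]; linarith)]
      have e : x - 4 * ((k * n + 2 : ℤ) : ℝ) = x - 4 * k * n - 8 := by push_cast; ring
      rw [p1_barfun (m := k * n + 2) _ (by rw [e, abs_le]; constructor <;> linarith), e]
      have hr := p1_emod (k := k) n 2 (by norm_num) (by omega)
      rw [(p1_mass k _).2.1 (by unfold barIdx; rw [hr]; omega) (by rw [hr]; omega)]
      ring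
    · rw [p1_b0_zero (x := x - 4 * k * n - 8) (by rw [abs_of_nonpos (by linarith)]; linarith)]
      have e : x - 4 * ((k * (n - 1) + (k - 2) : ℤ) : ℝ) = -(-(x - 4 * k * n) - 8) := by
        push_cast; ring
      rw [p1_barfun (m := k * (n - 1) + (k - 2)) _
        (by rw [e, abs_neg, abs_le]; constructor <;> linarith), e, p1_b0_even]
      have hr := p1_emod (k := k) (n - 1) (k - 2) (by omega) (by omega)
      rw [(p1_mass k _).2.1 (by unfold barIdx; rw [hr]; omega) (by rw [hr]; omega)]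
      ring

theorem p1_pp2 {k : ℕ} (hk : 5 ≤ k) (x : ℝ) (m : ℤ) (h : 8 + 1 ≤ |xi (4 * k) x|)
    (hm : |x - (8 + 4 * m)| ≤ 2) : pp k x = 4 * b0 (x - (8 + 4 * m)) := by
  have e : x - 4 * ((m + 2 : ℤ) : ℝ) = x - (8 + 4 * m) := by push_cast; ring
  unfold pp
  rw [p1_barfun (m := m + 2) _ (by rw [e]; exact hm), e]
  by_cases h1 : 1 / 2 ≤ |x - (8 + 4 * m)|
  · rw [p1_b0_zero h1]; ring
  · obtain ⟨h2, h3⟩ := p1_res hk (m + 2) x 0 9 (by rw [add_zero, e]; exact not_le.1 h1)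
      (fun n => by have := (p1_xi_le (p1_four_pos hk) x n); linarith) 3 3
      (by norm_num) (by norm_num) le_rfl (by norm_num) (by norm_num)
    rw [(p1_mass k _).2.2 (by unfold barIdx; omega) (by omega)]

theorem p1_pg1 {k : ℕ} (hk : 5 ≤ k) (x : ℝ) (n : ℤ) (h : |x - 4 * k * n| < 6 + 1) :
    pg k x = (6 + 2) * (b0 (x - 4 * k * n - 6) + b0 (-(x - 4 * k * n) - 6)) := by
  have h' := abs_lt.1 h
  unfold pg
  by_cases h1 : |x - 4 * k * n| ≤ 4
  · have h1' := abs_le.1 h1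
    rw [p1_b0_zero (x := x - 4 * k * n - 6) (by rw [abs_of_nonpos (by linarith)]; linarith),
      p1_b0_zero (x := -(x - 4 * k * n) - 6) (by rw [abs_of_nonpos (by linarith)]; linarith)]
    obtain ⟨j, hj0, hj1, hj⟩ : ∃ j : ℤ, -1 ≤ j ∧ j ≤ 0 ∧ |x - 4 * k * n - 2 - 4 * j| ≤ 2 := by
      by_cases h2 : x - 4 * k * n ≤ 0
      · exact ⟨-1, le_rfl, by norm_num, by push_cast; rw [abs_le]; constructor <;> linarith⟩
      · exact ⟨0, by norm_num, by norm_num, by push_cast; rw [abs_le]; constructor <;> linarith⟩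
    have hj' : |x - 2 - 4 * ((k * n + j : ℤ) : ℝ)| ≤ 2 := by
      have : x - 2 - 4 * ((k * n + j : ℤ) : ℝ) = x - 4 * k * n - 2 - 4 * j := by push_cast; ring
      rw [this]; exact hj
    rw [p1_barfun _ hj', (p1_massg k _).1]
    · ring
    · intro hb
      unfold gapIdx at hb
      by_cases hjn : 0 ≤ j
      · rw [p1_emod n j hjn (by omega)] at hb; omega
      · have e : (k : ℤ) * n + j = k * (n - 1) + (k + j) := by ring
        rw [e, p1_emod (n - 1) (k + j) (by omega) (by omega)] at hb; omega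
  · rcases lt_abs.1 (not_le.1 h1) with h2 | h2
    · rw [p1_b0_zero (x := -(x - 4 * k * n) - 6) (by rw [abs_of_nonpos (by linarith)]; linarith)]
      have e : x - 2 - 4 * ((k * n + 1 : ℤ) : ℝ) = x - 4 * k * n - 6 := by push_cast; ring
      rw [p1_barfun (m := k * n + 1) _ (by rw [e, abs_le]; constructor <;> linarith), e]
      have hr := p1_emod (k := k) n 1 (by norm_num) (by omega)
      rw [(p1_massg k _).2.1 (by unfold gapIdx; rw [hr]; omega) (by rw [hr]; omega)]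
      ring
    · rw [p1_b0_zero (x := x - 4 * k * n - 6) (by rw [abs_of_nonpos (by linarith)]; linarith)]
      have e : x - 2 - 4 * ((k * (n - 1) + (k - 2) : ℤ) : ℝ) = -(-(x - 4 * k * n) - 6) := by
        push_cast; ring
      rw [p1_barfun (m := k * (n - 1) + (k - 2)) _
        (by rw [e, abs_neg, abs_le]; constructor <;> linarith), e, p1_b0_even]
      have hr := p1_emod (k := k) (n - 1) (k - 2) (by omega) (by omega)
      rw [(p1_massg k _).2.1 (by unfold gapIdx; rw [hr]; omega) (by rw [hr]; omega)]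
      ring

theorem p1_pg2 {k : ℕ} (hk : 5 ≤ k) (x : ℝ) (m : ℤ) (h : 6 + 1 ≤ |xi (4 * k) x|)
    (hm : |x - (6 + 4 * m)| ≤ 2) : pg k x = 4 * b0 (x - (6 + 4 * m)) := by
  have e : x - 2 - 4 * ((m + 1 : ℤ) : ℝ) = x - (6 + 4 * m) := by push_cast; ring
  unfold pg
  rw [p1_barfun (m := m + 1) _ (by rw [e]; exact hm), e]
  by_cases h1 : 1 / 2 ≤ |x - (6 + 4 * m)|
  · rw [p1_b0_zero h1]; ring
  · have e2 : x - (4 * ((m + 1 : ℤ) : ℝ) + 2) = x - (6 + 4 * m) := by push_cast; ring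
    obtain ⟨h2, h3⟩ := p1_res hk (m + 1) x 2 7 (by rw [e2]; exact not_le.1 h1)
      (fun n => by have := (p1_xi_le (p1_four_pos hk) x n); linarith) 2 3
      (by norm_num) (by norm_num) (by norm_num) le_rfl (by norm_num)
    rw [(p1_massg k _).2.2 (by unfold gapIdx; omega) (by omega)]

/-! ### periodicity and symmetry -/

theorem p1_K_per {k : ℕ} (hk : 5 ≤ k) (R x : ℝ) :
    p1_K (4 * k) R (x + 4 * k) = p1_K (4 * k) R x := by
  unfold p1_K p1_out
  rw [p1_xi_add (p1_four_pos hk)]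
  have e : x + 4 * k - R = (x - R) + 4 * ((k : ℤ) : ℝ) := by push_cast; ring
  rw [e, p1_xi_add_mul (by norm_num)]

theorem p1_K_even {k : ℕ} (hk : 5 ≤ k) {R : ℝ} {r : ℤ} (hR : R = 2 * r) (x : ℝ) :
    p1_K (4 * k) R (-x) = p1_K (4 * k) R x := by
  unfold p1_K p1_out
  rw [p1_xi_neg (p1_four_pos hk)]
  have e : -x - R = -((x - R) + 4 * ((r : ℤ) : ℝ)) := by rw [hR]; ring
  rw [e, p1_xi_neg (by norm_num), p1_xi_add_mul (by norm_num)]

theorem p1_K_near {k : ℕ} (hk : 5 ≤ k) {R : ℝ} (hR : 5 ≤ R) {x : ℝ} (h : |x| ≤ 3) :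
    p1_K (4 * k) R x = 0 := by
  have hk' : (5 : ℝ) ≤ k := by exact_mod_cast hk
  have hx : xi (4 * k) x = x := by
    have := p1_xi_eq (p1_four_pos hk) (x := x) (n := 0) (by simp; linarith)
    simpa using this
  have h' := abs_le.1 h
  rw [p1_K, hx, if_pos (by linarith), p1_kin_abs, p1_kin, p1_W0_near h,
    p1_b2_zero (by linarith : x - R ≤ -(1 / 2)), p1_b2_zero (by linarith : -x - R ≤ -(1 / 2))]
  ring

theorem exists_prof : ∃ C : ℝ, 0 < C ∧ ∀ k : ℕ, 5 ≤ k → Odd k → Nonempty (Prof k C) := by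
  obtain ⟨C, hC, hC'⟩ := p1_exists_bound p1_G p1_G_smooth 9
  refine ⟨C, hC, fun k hk _ => ?_⟩
  have hk' : (5 : ℝ) ≤ k := by exact_mod_cast hk
  have hL := p1_four_pos hk
  have lth : p1_LM p1_G 9 (fun y => cut 3 5 (xi (4 * k) y)) :=
    p1_LM_comp hk (fun t ht => p1_cut_zero (by norm_num) (by norm_num) ht) (by simp [p1_G])
  have lW : p1_LM p1_G 9 (fun y => p1_W0 (xi (4 * k) y)) :=
    p1_LM_comp hk (fun t ht => p1_W0_zero ht) (by simp [p1_G])
  have lK : p1_LM p1_G 9 (p1_K (4 * k) 8) :=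
    p1_LM_K hk (r := 4) (by norm_num) (by norm_num) le_rfl (by simp [p1_G]) (by simp [p1_G])
      (by simp [p1_G])
  have lKb : p1_LM p1_G 9 (p1_K (4 * k) 6) :=
    p1_LM_K hk (r := 3) (by norm_num) (by norm_num) (by norm_num) (by simp [p1_G])
      (by simp [p1_G]) (by simp [p1_G])
  have hxn : ∀ x : ℝ, |x| ≤ 3 → xi (4 * k) x = x := by
    intro x hx
    have := p1_xi_eq hL (x := x) (n := 0) (by simp; linarith)
    simpa using this
  have hfar : ∀ x : ℝ, 5 ≤ x → x ≤ 4 * k - 5 → 5 ≤ |xi (4 * k) x| := by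
    intro x h1 h2
    set n : ℤ := round (x / (4 * k))
    have e : xi (4 * k) x = x - 4 * k * n := rfl
    rw [e, le_abs]
    rcases le_or_gt n 0 with hn | hn
    · left
      have : (n : ℝ) ≤ 0 := by exact_mod_cast hn
      nlinarith
    · right
      have : (1 : ℝ) ≤ n := by exact_mod_cast hn
      nlinarith
  exact ⟨{
    th := fun y => cut 3 5 (xi (4 * k) y)
    W := fun y => p1_W0 (xi (4 * k) y)
    K := p1_K (4 * k) 8
    Kb := p1_K (4 * k) 6
    th_s := lth.smooth p1_G_smooth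
    W_s := lW.smooth p1_G_smooth
    K_s := lK.smooth p1_G_smooth
    Kb_s := lKb.smooth p1_G_smooth
    per := fun x => ⟨by simp only [p1_xi_add hL], by simp only [p1_xi_add hL], p1_K_per hk 8 x,
      p1_K_per hk 6 x⟩
    even := fun x => ⟨by rw [← p1_cut_abs, p1_xi_neg hL, p1_cut_abs],
      by rw [← p1_W0_abs, p1_xi_neg hL, p1_W0_abs],
      p1_K_even hk (r := 4) (by norm_num) x, p1_K_even hk (r := 3) (by norm_num) x⟩
    near := fun x hx => ⟨by rw [hxn x hx]; exact p1_cut_one (by norm_num) (by norm_num) hx,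
      by rw [hxn x hx]; exact p1_W0_near hx, p1_K_near hk (by norm_num) hx,
      p1_K_near hk (by norm_num) hx⟩
    far := by
      intro x h1 h2
      have h1' : (5 : ℝ) ≤ x := by exact_mod_cast h1
      have h2' : (x : ℝ) ≤ 4 * k - 5 := by
        first
          | exact h2
          | (have h3 : x + 5 ≤ 4 * k := by omega
             have h4 : ((x : ℝ) + 5) ≤ 4 * k := by exact_mod_cast h3
             linarith)
      exact ⟨p1_cut_zero (by norm_num) (by norm_num) (hfar x h1' h2'),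
        p1_W0_zero (hfar x h1' h2')⟩
    bd := fun j hj x => ⟨lth.bound hC' j hj x, lW.bound hC' j hj x, lK.bound hC' j hj x,
      lKb.bound hC' j hj x⟩
    K2 := fun x => p1_K_second hk (r := 4) (by norm_num) (by norm_num) le_rfl
      (p1_pp1 hk) (p1_pp2 hk) x
    Kb2 := fun x => p1_K_second hk (r := 3) (by norm_num) (by norm_num) (by norm_num)
      (p1_pg1 hk) (p1_pg2 hk) x }⟩

end Pool.Agent.ShearComposite.D3
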